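import Mathlib

/-!
# Minkowski's theorem for an ellipsoid in three dimensions
-/

namespace Pool.Agent.helper41.Sun

open MeasureTheory

/-- The open ball of radius `r` in coordinates. -/
def ball3 (r : ℝ) : Set (Fin 3 → ℝ) := {v | ∑ i, v i ^ 2 < r ^ 2}

theorem ball3_eq {r : ℝ} (hr : 0 < r) :
    ball3 r = (WithLp.toLp 2 : (Fin 3 → ℝ) → EuclideanSpace ℝ (Fin 3)) ⁻¹' Metric.ball 0 r := by
  ext v
  simp only [ball3, Set.mem_setOf_eq, Set.mem_preimage, mem_ball_zero_iff]
  rw [EuclideanSpace.norm_eq, Real.sqrt_lt' hr]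
  simp

theorem volume_ball3 {r : ℝ} (hr : 0 < r) :
    volume (ball3 r) = ENNReal.ofReal r ^ 3 * ENNReal.ofReal (Real.pi * 4 / 3) := by
  rw [ball3_eq hr, (PiLp.volume_preserving_toLp (Fin 3)).measure_preimage
    measurableSet_ball.nullMeasurableSet, EuclideanSpace.volume_ball_fin_three]

theorem convex_ball3 {r : ℝ} (hr : 0 < r) : Convex ℝ (ball3 r) := by
  rw [ball3_eq hr]
  have : Convex ℝ ((WithLp.linearEquiv 2 ℝ (Fin 3 → ℝ)).symm.toLinearMap ⁻¹'
      Metric.ball (0 : EuclideanSpace ℝ (Fin 3)) r) :=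
    (convex_ball _ _).linear_preimage _
  exact this

theorem mink3 (M : Matrix (Fin 3) (Fin 3) ℝ) (hM : 0 < M.det) (r : ℝ) (hr : 0 < r)
    (h : 8 * M.det < r ^ 3 * (Real.pi * 4 / 3)) :
    ∃ c : Fin 3 → ℤ, c ≠ 0 ∧ ∑ i, (M.mulVec (fun j => (c j : ℝ)) i) ^ 2 < r ^ 2 := by
  set f : (Fin 3 → ℝ) →ₗ[ℝ] (Fin 3 → ℝ) := Matrix.toLin' M with hf
  have hdet : LinearMap.det f = M.det := LinearMap.det_toLin' M
  have hvol : volume (f ⁻¹' ball3 r) = ENNReal.ofReal (M.det⁻¹ * (r ^ 3 * (Real.pi * 4 / 3))) := by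
    rw [Measure.addHaar_preimage_linearMap volume (by rw [hdet]; exact ne_of_gt hM), hdet,
      abs_of_pos (inv_pos.2 hM), volume_ball3 hr, ← ENNReal.ofReal_pow hr.le,
      ← ENNReal.ofReal_mul (by positivity), ← ENNReal.ofReal_mul (by positivity)]
  haveI : Countable (Submodule.span ℤ (Set.range (Pi.basisFun ℝ (Fin 3)))).toAddSubgroup := by
    change Countable (Submodule.span ℤ (Set.range (Pi.basisFun ℝ (Fin 3))))
    infer_instance
  have key := exists_ne_zero_mem_lattice_of_measure_mul_two_pow_lt_measure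
    (μ := (volume : Measure (Fin 3 → ℝ))) (s := f ⁻¹' ball3 r)
    (ZSpan.isAddFundamentalDomain' (Pi.basisFun ℝ (Fin 3)) volume) ?_ ?_ ?_
  · obtain ⟨x, hx0, hx⟩ := key
    have hmem := x.2
    rw [Submodule.mem_toAddSubgroup, Module.Basis.mem_span_iff_repr_mem ℤ (Pi.basisFun ℝ (Fin 3))] at hmem
    choose c hc using hmem
    have hxc : (x : Fin 3 → ℝ) = fun j => (c j : ℝ) := by
      ext j
      have := hc j
      simpa using this.symm
    refine ⟨c, ?_, ?_⟩
    · rintro rfl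
      apply hx0
      apply Subtype.ext
      rw [hxc]
      ext j
      simp
    · rw [← hxc]
      exact hx
  · intro x hx
    simp only [Set.mem_preimage, ball3, Set.mem_setOf_eq, map_neg, Pi.neg_apply, neg_sq] at hx ⊢
    exact hx
  · exact (convex_ball3 hr).linear_preimage f
  · rw [hvol, ZSpan.fundamentalDomain_pi_basisFun]
    simp only [Real.volume_pi_Ico, sub_zero, ENNReal.ofReal_one, Finset.prod_const_one, one_mul,
      Module.finrank_fintype_fun_eq_card, Fintype.card_fin]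
    rw [show (2 : ENNReal) ^ 3 = ENNReal.ofReal 8 by norm_num]
    apply (ENNReal.ofReal_lt_ofReal_iff_of_nonneg (by norm_num)).2
    rw [inv_mul_eq_div, lt_div_iff₀ hM]
    exact h

end Pool.Agent.helper41.Sun
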