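import Mathlib

/-!
# The auxiliary prime
-/

namespace Pool.Agent.helper41.Sun

open NumberTheorySymbols

theorem isSquare_dvd {p : ℕ} {a : ℤ} (h : IsSquare (a : ZMod p)) : ∃ s : ℤ, (p : ℤ) ∣ s ^ 2 - a := by
  obtain ⟨r, hr⟩ := h
  obtain ⟨s, rfl⟩ := ZMod.intCast_surjective r
  refine ⟨s, ?_⟩
  rw [← ZMod.intCast_zmod_eq_zero_iff_dvd]
  push_cast
  rw [hr]
  ring

theorem exists_q (N : ℕ) (h8 : N % 8 = 5) (h3 : N % 3 = 1) :
    ∃ (q : ℕ) (b h : ℤ), q.Prime ∧ 12 * N < q ∧ (N : ℤ) ∣ q + 1 ∧ b % 2 = 1 ∧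
      b ^ 2 + 3 * N = 4 * q * h := by
  have hcop : Nat.Coprime (2 * N - 1) (12 * N) := by
    have h1 : Nat.Coprime (2 * N - 1) N := by
      have hg : Nat.gcd (2 * N - 1) N ∣ 1 := by
        have e1 : Nat.gcd (2 * N - 1) N ∣ 2 * N - 1 := Nat.gcd_dvd_left _ _
        have e2 : Nat.gcd (2 * N - 1) N ∣ 2 * N := (Nat.gcd_dvd_right _ _).mul_left 2
        have := Nat.dvd_sub e2 e1
        rwa [show 2 * N - (2 * N - 1) = 1 by omega] at this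
      exact Nat.dvd_one.1 hg
    have h2 : Nat.Coprime (2 * N - 1) 12 := by
      rw [show (12 : ℕ) = 2 * 2 * 3 by norm_num]
      have a2 : Nat.Coprime (2 * N - 1) 2 := by
        rw [Nat.coprime_comm, Nat.Prime.coprime_iff_not_dvd Nat.prime_two]
        omega
      have a3 : Nat.Coprime (2 * N - 1) 3 := by
        rw [Nat.coprime_comm, Nat.Prime.coprime_iff_not_dvd Nat.prime_three]
        omega
      exact Nat.Coprime.mul_right (Nat.Coprime.mul_right a2 a2) a3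
    exact Nat.Coprime.mul_right h2 h1
  obtain ⟨q, hq1, hq2, hq3⟩ := Nat.forall_exists_prime_gt_and_modEq (12 * N) (q := 12 * N)
    (by omega) hcop
  haveI : Fact q.Prime := ⟨hq2⟩
  have hdvd : (12 * N : ℤ) ∣ (q : ℤ) - (2 * N - 1) := by
    have := (Nat.modEq_iff_dvd.1 hq3.symm)
    push_cast [Nat.cast_sub (show 1 ≤ 2 * N by omega)] at this
    exact this
  obtain ⟨j, hj⟩ := hdvd
  have hqj : (q : ℤ) = 2 * N - 1 + 12 * N * j := by linarith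
  have hNq : (N : ℤ) ∣ q + 1 := ⟨2 + 12 * j, by rw [hqj]; ring⟩
  have hq4 : q % 4 = 1 := by
    obtain ⟨n, hn⟩ : ∃ n : ℤ, (N : ℤ) = 4 * n + 1 := ⟨(N : ℤ) / 4, by omega⟩
    have : (q : ℤ) = 4 * (2 * n + 3 * N * j) + 1 := by rw [hqj]; linear_combination 2 * hn
    omega
  have hq3' : q % 3 = 1 := by
    obtain ⟨n, hn⟩ : ∃ n : ℤ, (N : ℤ) = 3 * n + 1 := ⟨(N : ℤ) / 3, by omega⟩
    have : (q : ℤ) = 3 * (2 * n + 4 * N * j) + 1 := by rw [hqj]; linear_combination 2 * hn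
    omega
  have hqodd : Odd q := Nat.odd_iff.2 (by omega)
  have hNodd : Odd N := Nat.odd_iff.2 (by omega)
  have hN4 : N % 4 = 1 := by omega
  have j1 : J(-1 | q) = 1 := by
    rw [jacobiSym.at_neg_one hqodd, ZMod.χ₄_nat_one_mod_four hq4]
  have j3 : J(3 | q) = 1 := by
    have h1 : J((3 : ℕ) | q) = J(q | 3) := by
      rw [← jacobiSym.quadratic_reciprocity_one_mod_four hq4 (by decide)]
    have h2 : J(((3 : ℕ) : ℤ) | q) = J((q : ℤ) | 3) := h1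
    rw [show ((3 : ℤ)) = ((3 : ℕ) : ℤ) by norm_num, h2, jacobiSym.mod_left,
      show ((q : ℤ) % ((3 : ℕ) : ℤ)) = 1 by omega, jacobiSym.one_left]
  have jN : J((N : ℤ) | q) = 1 := by
    have hm : (q : ℤ) ≡ -1 [ZMOD N] := by
      rw [Int.modEq_iff_dvd]
      have : (-1 : ℤ) - q = -(q + 1) := by ring
      rw [this]
      exact hNq.neg_right
    rw [jacobiSym.quadratic_reciprocity_one_mod_four hN4 hqodd,
      jacobiSym.mod_left' hm, jacobiSym.at_neg_one hNodd, ZMod.χ₄_nat_one_mod_four hN4]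
  have jall : J(-3 * N | q) = 1 := by
    rw [jacobiSym.mul_left, jN, show (-3 : ℤ) = -1 * 3 by norm_num, jacobiSym.mul_left, j1, j3]
    norm_num
  obtain ⟨s, hs⟩ := isSquare_dvd (ZMod.isSquare_of_jacobiSym_eq_one jall)
  obtain ⟨b, hb, hbodd⟩ : ∃ b : ℤ, (q : ℤ) ∣ b ^ 2 + 3 * N ∧ b % 2 = 1 := by
    rcases Int.even_or_odd s with ⟨i, hi⟩ | ⟨i, hi⟩
    · refine ⟨s + q, ?_, by omega⟩
      have : (s + q) ^ 2 + 3 * N = (s ^ 2 - -3 * N) + q * (2 * s + q) := by ring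
      rw [this]
      exact dvd_add hs (Dvd.intro _ rfl)
    · refine ⟨s, ?_, by omega⟩
      have : s ^ 2 + 3 * (N : ℤ) = s ^ 2 - -3 * N := by ring
      rw [this]
      exact hs
  have h4 : (4 : ℤ) ∣ b ^ 2 + 3 * N := by
    obtain ⟨i, hi⟩ : ∃ i, b = 2 * i + 1 := ⟨b / 2, by omega⟩
    obtain ⟨n, hn⟩ : ∃ n : ℤ, (N : ℤ) = 4 * n + 1 := ⟨(N : ℤ) / 4, by omega⟩
    exact ⟨i ^ 2 + i + 3 * n + 1, by rw [hi]; linear_combination 3 * hn⟩
  have hcop4 : IsCoprime (4 : ℤ) (q : ℤ) := by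
    obtain ⟨i, hi⟩ : ∃ i : ℤ, (q : ℤ) = 4 * i + 1 := ⟨(q : ℤ) / 4, by omega⟩
    exact ⟨-i, 1, by rw [hi]; ring⟩
  obtain ⟨h, hh⟩ := hcop4.mul_dvd h4 hb
  exact ⟨q, b, h, hq2, hq1, hNq, hbodd, hh⟩

end Pool.Agent.helper41.Sun
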