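import Pool.Agent.helper41.Sun.Binary
import Pool.Agent.helper41.Sun.Mink
import Pool.Agent.helper41.Sun.Prime

/-!
# Representations `N = a^2 + b^2 + 3 w^2` with `a`, `b`, `w` odd, and `a` prime to the primes
`p = 2 mod 3` which divide `N` (the method of Ankeny)
-/

namespace Pool.Agent.helper41.Sun

theorem val_aux (l : ℕ) (hl : l.Prime) (D : ℤ) : ∀ (k : ℕ) (m X Y : ℤ), ¬ (l : ℤ) ∣ m →
    X ^ 2 + D * Y ^ 2 = (l : ℤ) ^ (2 * k + 1) * m →
    ∃ X' Y' : ℤ, (l : ℤ) ∣ X' ^ 2 + D * Y' ^ 2 ∧ ¬ (l : ℤ) ∣ Y' := by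
  have hlz : Prime (l : ℤ) := Nat.prime_iff_prime_int.1 hl
  have hl0 : (l : ℤ) ≠ 0 := hlz.ne_zero
  intro k
  induction k with
  | zero =>
    intro m X Y hm h
    by_cases hY : (l : ℤ) ∣ Y
    · exfalso
      obtain ⟨Y1, rfl⟩ := hY
      have hX : (l : ℤ) ∣ X := by
        apply hlz.dvd_of_dvd_pow (n := 2)
        refine ⟨m - D * l * Y1 ^ 2, ?_⟩
        linear_combination h
      obtain ⟨X1, rfl⟩ := hX
      apply hm
      refine ⟨X1 ^ 2 + D * Y1 ^ 2, ?_⟩
      apply mul_left_cancel₀ hl0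
      linear_combination -h
    · exact ⟨X, Y, ⟨m, by rw [h]; ring⟩, hY⟩
  | succ k ih =>
    intro m X Y hm h
    by_cases hY : (l : ℤ) ∣ Y
    · obtain ⟨Y1, rfl⟩ := hY
      have hX : (l : ℤ) ∣ X := by
        apply hlz.dvd_of_dvd_pow (n := 2)
        refine ⟨l ^ (2 * k + 2) * m - D * l * Y1 ^ 2, ?_⟩
        linear_combination h
      obtain ⟨X1, rfl⟩ := hX
      apply ih m X1 Y1 hm
      apply mul_left_cancel₀ (pow_ne_zero 2 hl0)
      linear_combination h
    · exact ⟨X, Y, ⟨l ^ (2 * (k + 1)) * m, by rw [h]; ring⟩, hY⟩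

theorem sqrt_bound (N : ℝ) (hN : 0 < N) :
    8 * (2 * N * √(3 * N)) < (2 * √N) ^ 3 * (Real.pi * 4 / 3) := by
  have h1 : √(3 * N) = √3 * √N := Real.sqrt_mul (by norm_num) N
  have h2 : √(3 : ℝ) < 2 := by
    rw [Real.sqrt_lt' (by norm_num)]
    norm_num
  have h3 : 0 < √N := Real.sqrt_pos.2 hN
  have h4 : √N ^ 2 = N := Real.sq_sqrt hN.le
  have h5 : (2 * √N) ^ 3 = 8 * N * √N := by
    calc (2 * √N) ^ 3 = 8 * √N ^ 2 * √N := by ring
      _ = 8 * N * √N := by rw [h4]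
  rw [h1, h5]
  have h6 : 0 < N * √N := mul_pos hN h3
  have h7 := Real.pi_gt_three
  have h8 : N * √N * √3 < N * √N * 2 := mul_lt_mul_of_pos_left h2 h6
  have h9 : N * √N * 3 < N * √N * Real.pi := mul_lt_mul_of_pos_left h7 h6
  nlinarith

/-- The lattice point. -/
theorem lattice_pt (N q : ℕ) (hN : 0 < N) (hq : 0 < q) (b h : ℤ) (hbh : b ^ 2 + 3 * N = 4 * q * h) :
    ∃ x y z : ℤ, (x ≠ 0 ∨ y ≠ 0 ∨ z ≠ 0) ∧
      (2 * q * x + b * y + N * z) ^ 2 + 4 * (q * x ^ 2 + b * x * y + h * y ^ 2) < 4 * N := by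
  have hNr : (0 : ℝ) < N := by exact_mod_cast hN
  have hqr : (0 : ℝ) < q := by exact_mod_cast hq
  have hsq : 0 < √(q : ℝ) := Real.sqrt_pos.2 hqr
  have hsq2 : √(q : ℝ) ^ 2 = q := Real.sq_sqrt hqr.le
  have hs3 : √(3 * (N : ℝ)) ^ 2 = 3 * N := Real.sq_sqrt (by positivity)
  set M : Matrix (Fin 3) (Fin 3) ℝ :=
    !![2 * (q : ℝ), (b : ℝ), (N : ℝ); 2 * √(q : ℝ), (b : ℝ) / √(q : ℝ), 0;
      0, √(3 * (N : ℝ)) / √(q : ℝ), 0] with hM
  have hdet : M.det = 2 * N * √(3 * N) := by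
    rw [hM, Matrix.det_fin_three]
    simp
    field_simp
  obtain ⟨c, hc0, hc⟩ := mink3 M (by rw [hdet]; positivity) (2 * √(N : ℝ)) (by positivity)
    (by rw [hdet]; exact sqrt_bound N hNr)
  refine ⟨c 0, c 1, c 2, ?_, ?_⟩
  · by_contra hcon
    push Not at hcon
    apply hc0
    ext i
    fin_cases i
    · exact hcon.1
    · exact hcon.2.1
    · exact hcon.2.2
  · have e0 : M.mulVec (fun j => (c j : ℝ)) 0 = 2 * q * c 0 + b * c 1 + N * c 2 := by
      rw [hM]
      simp [Matrix.mulVec, dotProduct, Fin.sum_univ_three]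
    have e1 : M.mulVec (fun j => (c j : ℝ)) 1 = 2 * √(q : ℝ) * c 0 + b / √(q : ℝ) * c 1 := by
      rw [hM]
      simp [Matrix.mulVec, dotProduct, Fin.sum_univ_three]
    have e2 : M.mulVec (fun j => (c j : ℝ)) 2 = √(3 * (N : ℝ)) / √(q : ℝ) * c 1 := by
      rw [hM]
      simp [Matrix.mulVec, dotProduct, Fin.sum_univ_three]
    rw [Fin.sum_univ_three, e0, e1, e2] at hc
    have e3 : (2 * √(q : ℝ)) ^ 2 = 4 * q := by rw [mul_pow, hsq2]; norm_num
    have e4 : (2 * √(N : ℝ)) ^ 2 = 4 * N := by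
      rw [mul_pow, Real.sq_sqrt hNr.le]; norm_num
    rw [e4] at hc
    have hbr : (b : ℝ) ^ 2 + 3 * N = 4 * q * h := by exact_mod_cast hbh
    have e5 : (2 * √(q : ℝ) * c 0 + b / √(q : ℝ) * c 1) ^ 2 +
        (√(3 * (N : ℝ)) / √(q : ℝ) * c 1) ^ 2 =
        4 * (q * (c 0) ^ 2 + b * (c 0) * (c 1) + h * (c 1) ^ 2) := by
      have f1 : (2 * √(q : ℝ) * c 0 + b / √(q : ℝ) * c 1) ^ 2 =
          4 * √(q : ℝ) ^ 2 * c 0 ^ 2 + 4 * b * c 0 * c 1 * (√(q : ℝ) / √(q : ℝ)) +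
            b ^ 2 / √(q : ℝ) ^ 2 * c 1 ^ 2 := by ring
      have f2 : (√(3 * (N : ℝ)) / √(q : ℝ) * c 1) ^ 2 =
          √(3 * (N : ℝ)) ^ 2 / √(q : ℝ) ^ 2 * c 1 ^ 2 := by ring
      rw [f1, f2, hs3, hsq2, div_self hsq.ne']
      have f3 : (b : ℝ) ^ 2 / q * (c 1) ^ 2 + 3 * N / q * (c 1) ^ 2 = 4 * h * (c 1) ^ 2 := by
        have : (b : ℝ) ^ 2 / q * (c 1) ^ 2 + 3 * N / q * (c 1) ^ 2 =
          (b ^ 2 + 3 * N) / q * (c 1) ^ 2 := by ring
        rw [this, hbr]
        field_simp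
      linear_combination f3
    have e6 : ((2 * q * c 0 + b * c 1 + N * c 2 : ℤ) : ℝ) ^ 2 +
        4 * ((q * (c 0) ^ 2 + b * (c 0) * (c 1) + h * (c 1) ^ 2 : ℤ) : ℝ) < 4 * N := by
      push_cast
      rw [← e5]
      linarith
    exact_mod_cast e6

theorem ankeny (N : ℕ) (h8 : N % 8 = 5) (h3 : N % 3 = 1) :
    ∃ a b w : ℤ, a % 2 = 1 ∧ b % 2 = 1 ∧ w % 2 = 1 ∧ (N : ℤ) = a ^ 2 + b ^ 2 + 3 * w ^ 2 ∧
      ∀ p : ℕ, p.Prime → p ∣ N → (p : ℤ) ∣ a → ∃ s : ℤ, (p : ℤ) ∣ s ^ 2 + 3 := by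
  have hN : 0 < N := by omega
  obtain ⟨q, b, h, hq, hqN, ⟨k, hk⟩, hb, hbh⟩ := exists_q N h8 h3
  obtain ⟨x, y, z, hne, hlt⟩ := lattice_pt N q hN hq.pos b h hbh
  set R : ℤ := 2 * q * x + b * y + N * z with hR
  set v : ℤ := q * x ^ 2 + b * x * y + h * y ^ 2 with hv
  have hqz : (0 : ℤ) < q := by exact_mod_cast hq.pos
  have hNz : (0 : ℤ) < N := by exact_mod_cast hN
  have h4q : 4 * q * v = (2 * q * x + b * y) ^ 2 + 3 * N * y ^ 2 := by
    rw [hv]
    linear_combination -(y ^ 2) * hbh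
  have hv0 : 0 ≤ v := by
    by_contra hcon
    have : 4 * (q : ℤ) * v < 0 := by nlinarith
    have : 0 ≤ (2 * q * x + b * y) ^ 2 + 3 * N * y ^ 2 := by positivity
    linarith
  have hpos : 0 < R ^ 2 + 4 * v := by
    rcases hv0.lt_or_eq with h0 | h0
    · have := sq_nonneg R
      linarith
    · have e1 : (2 * q * x + b * y) ^ 2 + 3 * N * y ^ 2 = 0 := by rw [← h4q, ← h0]; ring
      have e2 : (2 * q * x + b * y) ^ 2 = 0 := by
        have := sq_nonneg (2 * q * x + b * y)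
        have : 0 ≤ 3 * (N : ℤ) * y ^ 2 := by positivity
        linarith
      have e3 : 3 * (N : ℤ) * y ^ 2 = 0 := by linarith
      have hy : y = 0 := by
        rcases mul_eq_zero.1 e3 with h1 | h1
        · exfalso; linarith
        · exact pow_eq_zero_iff (two_ne_zero) |>.1 h1
      have hx : x = 0 := by
        have e4 := pow_eq_zero_iff (two_ne_zero) |>.1 e2
        rw [hy] at e4
        have e5 : 2 * (q : ℤ) * x = 0 := by linarith
        rcases mul_eq_zero.1 e5 with h1 | h1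
        · exfalso; linarith
        · exact h1
      have hz : z ≠ 0 := by
        rcases hne with h1 | h1 | h1
        · exact absurd hx h1
        · exact absurd hy h1
        · exact h1
      have hRne : R ≠ 0 := by
        rw [hR, hx, hy]
        simp only [mul_zero, add_zero, zero_add]
        exact mul_ne_zero hNz.ne' hz
      have := sq_pos_of_ne_zero hRne
      linarith
  have hX : 2 * q * x + b * y = R - N * z := by rw [hR]; ring
  have hT : R ^ 2 + 4 * v = N * (4 * k * v + 2 * R * z - N * z ^ 2 - 3 * y ^ 2) := by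
    rw [hX] at h4q
    linear_combination (-1 : ℤ) * h4q + 4 * v * hk
  have hTeq : 4 * k * v + 2 * R * z - N * z ^ 2 - 3 * y ^ 2 = 1 := by
    set T := 4 * k * v + 2 * R * z - N * z ^ 2 - 3 * y ^ 2 with hTdef
    have t1 : 0 < T := by
      by_contra hcon
      have : (N : ℤ) * T ≤ 0 := by nlinarith
      linarith
    have t2 : T < 4 := by
      by_contra hcon
      have : (N : ℤ) * 4 ≤ N * T := by nlinarith
      linarith
    obtain ⟨n, hn⟩ : ∃ n : ℤ, (N : ℤ) = 4 * n + 1 := ⟨(N : ℤ) / 4, by omega⟩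
    have t3 : T = R ^ 2 + 4 * (v - n * T) := by rw [hn] at hT; linear_combination -hT
    rcases Int.even_or_odd R with ⟨r, hr⟩ | ⟨r, hr⟩
    · exfalso
      rw [hr] at t3
      have : T = 4 * (r ^ 2 + (v - n * T)) := by linear_combination t3
      omega
    · rw [hr] at t3
      have : T = 4 * (r ^ 2 + r + (v - n * T)) + 1 := by linear_combination t3
      omega
  have hNR : (N : ℤ) = R ^ 2 + 4 * v := by rw [hT, hTeq]; ring
  have hRodd : R % 2 = 1 := by
    rcases Int.even_or_odd R with ⟨r, hr⟩ | ⟨r, hr⟩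
    · exfalso
      have : (N : ℤ) = 2 * (2 * r ^ 2 + 2 * v) := by rw [hNR, hr]; ring
      omega
    · omega
  have hvodd : v % 2 = 1 := by
    obtain ⟨r, hr⟩ : ∃ r, R = 2 * r + 1 := ⟨R / 2, by omega⟩
    obtain ⟨i, hi⟩ : ∃ i, r * (r + 1) = 2 * i := by
      obtain ⟨i, hi⟩ := Int.even_mul_succ_self r
      exact ⟨i, by rw [hi]; ring⟩
    have : (N : ℤ) = 8 * i + 4 * v + 1 := by rw [hNR, hr]; linear_combination 4 * hi
    omega
  -- common consequence
  have hcomm : ∀ p : ℕ, (p : ℤ) ∣ N → (p : ℤ) ∣ R → (p : ℤ) ∣ v → ∃ s : ℤ, (p : ℤ) ∣ s ^ 2 + 3 := by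
    intro p d1 d2 d3
    refine ⟨3 * y, ?_⟩
    have : (3 * y) ^ 2 + 3 = 3 * (4 * k * v + 2 * R * z - N * z ^ 2) := by
      linear_combination (-3 : ℤ) * hTeq
    rw [this]
    apply Dvd.dvd.mul_left
    exact dvd_sub (dvd_add (d3.mul_left _) ((d2.mul_left 2).mul_right z)) (d1.mul_right _)
  have hvn : ((v.toNat : ℕ) : ℤ) = v := Int.toNat_of_nonneg hv0
  obtain ⟨b', w', hb', hw', hbw⟩ := four_rep (v := v.toNat) (by omega) (by
    intro l hl k' m' hlm hnm
    have hlz : Prime (l : ℤ) := Nat.prime_iff_prime_int.1 hl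
    have hvl : v = (l : ℤ) ^ (2 * k' + 1) * m' := by
      rw [← hvn, hlm]; push_cast; ring
    have hlv : (l : ℤ) ∣ v := ⟨l ^ (2 * k') * m', by rw [hvl]; ring⟩
    by_cases hlN : (l : ℤ) ∣ N
    · have hlR : (l : ℤ) ∣ R := by
        apply hlz.dvd_of_dvd_pow (n := 2)
        have : R ^ 2 = N - 4 * v := by linarith
        rw [this]
        exact dvd_sub hlN (hlv.mul_left 4)
      exact hcomm l hlN hlR hlv
    · have hlR : ¬ (l : ℤ) ∣ R := by
        intro hd
        apply hlN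
        rw [hNR]
        exact dvd_add (dvd_pow hd two_ne_zero) (hlv.mul_left 4)
      have hvlt : v < N := by
        have := sq_nonneg R
        have hvpos : 0 < v := by omega
        linarith
      have hvpos : 0 < v := by omega
      have hlle : (l : ℤ) ≤ v := Int.le_of_dvd hvpos hlv
      have hlq : ¬ (l : ℤ) ∣ q := by
        intro hd
        have hd' : l ∣ q := by exact_mod_cast hd
        rcases (Nat.dvd_prime hq).1 hd' with h1 | h1
        · exact hl.ne_one h1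
        · rw [h1] at hlle
          omega
      have hl2 : ¬ (l : ℤ) ∣ 4 := by
        intro hd
        have hd' : l ∣ 2 ^ 2 := by
          have : (4 : ℤ) = ((2 ^ 2 : ℕ) : ℤ) := by norm_num
          rw [this] at hd
          exact_mod_cast hd
        have h2 := (Nat.prime_dvd_prime_iff_eq hl Nat.prime_two).1 (hl.dvd_of_dvd_pow hd')
        rw [h2] at hlv
        push_cast at hlv
        omega
      obtain ⟨X', Y', d1, d2⟩ := val_aux l hl (3 * N) k' (4 * q * m') (2 * q * x + b * y) y (by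
        intro hd
        rcases hlz.dvd_or_dvd hd with h1 | h1
        · rcases hlz.dvd_or_dvd h1 with h1 | h1
          · exact hl2 h1
          · exact hlq h1
        · exact hnm (by exact_mod_cast h1)) (by rw [← h4q, hvl]; ring)
      have d3 : (l : ℤ) ∣ X' ^ 2 + 3 * (R * Y') ^ 2 := by
        have : X' ^ 2 + 3 * (R * Y') ^ 2 = (X' ^ 2 + 3 * N * Y' ^ 2) - v * (12 * Y' ^ 2) := by
          linear_combination (-3 * Y' ^ 2) * hNR
        rw [this]
        exact dvd_sub d1 (hlv.mul_right _)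
      have hcop : IsCoprime (R * Y') (l : ℤ) := by
        apply IsCoprime.mul_left
        · exact ((Prime.coprime_iff_not_dvd hlz).2 hlR).symm
        · exact ((Prime.coprime_iff_not_dvd hlz).2 d2).symm
      obtain ⟨i, j, hij⟩ := hcop
      refine ⟨X' * i, ?_⟩
      have : (X' * i) ^ 2 + 3 = i ^ 2 * (X' ^ 2 + 3 * (R * Y') ^ 2) +
          l * (3 * j * (1 + i * (R * Y'))) := by
        linear_combination (-3 * (1 + i * (R * Y'))) * hij
      rw [this]
      exact dvd_add (d3.mul_left _) (Dvd.intro _ rfl))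
  refine ⟨R, b', w', hRodd, hb', hw', ?_, ?_⟩
  · rw [hNR, ← hvn]
    linarith
  · intro p hp hpN hpR
    have hpz : Prime (p : ℤ) := Nat.prime_iff_prime_int.1 hp
    have hpN' : (p : ℤ) ∣ N := by exact_mod_cast hpN
    refine hcomm p hpN' hpR ?_
    have h4v : (p : ℤ) ∣ 4 * v := by
      have : 4 * v = N - R ^ 2 := by linarith
      rw [this]
      exact dvd_sub hpN' (dvd_pow hpR two_ne_zero)
    rcases hpz.dvd_or_dvd h4v with h1 | h1
    · exfalso
      have hd' : p ∣ 2 ^ 2 := by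
        have : (4 : ℤ) = ((2 ^ 2 : ℕ) : ℤ) := by norm_num
        rw [this] at h1
        exact_mod_cast h1
      have h2 := (Nat.prime_dvd_prime_iff_eq hp Nat.prime_two).1 (hp.dvd_of_dvd_pow hd')
      rw [h2] at hpN
      omega
    · exact h1

end Pool.Agent.helper41.Sun
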