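import Mathlib

/-!
# Binary forms of discriminant `-3`, and representations by `x^2 + 3 y^2`
-/

namespace Pool.Agent.helper41.Sun

theorem form3 (n : ℕ) : ∀ a b c : ℤ, 0 < a → b ^ 2 - 4 * a * c = -3 → a + |b| ≤ n →
    ∃ p q r s : ℤ, a = p ^ 2 + p * r + r ^ 2 ∧ c = q ^ 2 + q * s + s ^ 2 ∧
      b = 2 * p * q + p * s + q * r + 2 * r * s := by
  induction n with
  | zero =>
    intro a b c ha _ h
    have := abs_nonneg b
    push_cast at h
    omega
  | succ n ih =>
    intro a b c ha hd h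
    push_cast at h
    have hc : 0 < c := by
      by_contra hc
      have h1 : 4 * a * c ≤ 0 := by nlinarith
      nlinarith [sq_nonneg b]
    rcases lt_or_ge a b with h1 | h1
    · -- b > a
      have hb : |b - 2 * a| < |b| := by
        rw [abs_of_pos (by linarith : (0 : ℤ) < b), abs_lt]
        constructor <;> linarith
      obtain ⟨p, q, r, s, e1, e2, e3⟩ := ih a (b - 2 * a) (c - b + a) ha (by linarith [hd, sq_nonneg b, show (b - 2 * a) ^ 2 - 4 * a * (c - b + a) = b ^ 2 - 4 * a * c by ring]) (by omega)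
      refine ⟨p, q + p, r, s + r, e1, ?_, ?_⟩
      · linear_combination e2 + e1 + e3 - e1 * 0 + 0 * e3
      · linear_combination e3 + 2 * e1
    rcases lt_or_ge b (-a) with h2 | h2
    · have hb : |b + 2 * a| < |b| := by
        rw [abs_of_neg (by linarith : b < (0 : ℤ)), abs_lt]
        constructor <;> linarith
      obtain ⟨p, q, r, s, e1, e2, e3⟩ := ih a (b + 2 * a) (c + b + a) ha (by linarith [hd, show (b + 2 * a) ^ 2 - 4 * a * (c + b + a) = b ^ 2 - 4 * a * c by ring]) (by omega)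
      refine ⟨p, q - p, r, s - r, e1, ?_, ?_⟩
      · linear_combination e2 + e1 - e3
      · linear_combination e3 - 2 * e1
    · -- |b| ≤ a
      have hba : |b| ≤ a := abs_le.2 ⟨h2, h1⟩
      rcases eq_or_lt_of_le (show 1 ≤ a from ha) with h3 | h3
      · subst h3
        have hb1 : b ≤ 1 := h1
        have hb2 : -1 ≤ b := h2
        have hb3 : b = -1 ∨ b = 0 ∨ b = 1 := by omega
        rcases hb3 with rfl | rfl | rfl
        · exact ⟨1, 0, 0, -1, by norm_num, by linarith, by norm_num⟩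
        · exfalso; omega
        · exact ⟨1, 0, 0, 1, by norm_num, by linarith, by norm_num⟩
      · have hca : c < a := by
          have h4 : b ^ 2 ≤ a ^ 2 := sq_le_sq' h2 h1
          have h5 : 4 * a * c ≤ a ^ 2 + 3 := by linarith
          by_contra h6
          have h7 : a * a ≤ a * c := mul_le_mul_of_nonneg_left (not_lt.1 h6) ha.le
          nlinarith
        obtain ⟨p, q, r, s, e1, e2, e3⟩ := ih c b a hc (by linarith) (by omega)
        exact ⟨q, p, s, r, e2, e1, by rw [e3]; ring⟩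

/-- If `-3` is a square modulo `4 m`, then `m` is a value of `x^2 + x y + y^2`. -/
theorem rep_of_sq {m : ℤ} (hm : 0 < m) {s : ℤ} (h : 4 * m ∣ s ^ 2 + 3) :
    ∃ c d : ℤ, m = c ^ 2 + c * d + d ^ 2 := by
  obtain ⟨k, hk⟩ := h
  obtain ⟨p, q, r, s', e1, -, -⟩ := form3 (m + |s|).toNat m s k hm (by linarith)
    (by rw [Int.toNat_of_nonneg (by positivity)])
  exact ⟨p, r, e1⟩

theorem sq_mod_squarefree (n : ℕ) : ∀ m : ℕ, m ≤ n → Squarefree m →
    (∀ l : ℕ, l.Prime → l ∣ m → ∃ s : ℤ, (l : ℤ) ∣ s ^ 2 + 3) → ∃ s : ℤ, (m : ℤ) ∣ s ^ 2 + 3 := by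
  induction n with
  | zero =>
    intro m hm hsq _
    have : m = 0 := by omega
    subst this
    exact absurd hsq not_squarefree_zero
  | succ n ih =>
    intro m hm hsq hl
    rcases eq_or_ne m 1 with rfl | h1
    · exact ⟨0, by simp⟩
    · have hp := Nat.minFac_prime h1
      obtain ⟨m', hm'⟩ := Nat.minFac_dvd m
      set p := m.minFac with hpdef
      have hm0 : 0 < m := Nat.pos_of_ne_zero hsq.ne_zero
      have hm'0 : 0 < m' := by
        rcases Nat.eq_zero_or_pos m' with h | h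
        · rw [h, mul_zero] at hm'; omega
        · exact h
      have hcop : Nat.Coprime p m' := by
        rw [hm'] at hsq
        exact Nat.coprime_of_squarefree_mul hsq
      have hlt : m' ≤ n := by
        have := hp.two_le
        have h3 : 2 * m' ≤ m := by rw [hm']; exact Nat.mul_le_mul_right _ this
        omega
      have hsq' : Squarefree m' := hsq.squarefree_of_dvd ⟨p, by rw [hm']; ring⟩
      obtain ⟨s2, hs2⟩ := ih m' hlt hsq' (fun l hl1 hl2 => hl l hl1 (hl2.trans ⟨p, by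
        conv_lhs => rw [hm']
        ring⟩))
      obtain ⟨s1, hs1⟩ := hl p hp (Nat.minFac_dvd m)
      have hcz : IsCoprime (p : ℤ) (m' : ℤ) := Nat.isCoprime_iff_coprime.2 hcop
      obtain ⟨a, b, hab⟩ := hcz
      refine ⟨s2 * a * p + s1 * b * m', ?_⟩
      have d1 : (p : ℤ) ∣ (s2 * a * p + s1 * b * m') ^ 2 + 3 := by
        obtain ⟨k, hk⟩ := hs1
        refine ⟨k + a * (s2 - s1) * (2 * s1 + a * (s2 - s1) * p), ?_⟩
        have e : s2 * a * p + s1 * b * m' = s1 + a * (s2 - s1) * p := by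
          linear_combination s1 * hab
        rw [e]
        linear_combination hk
      have d2 : (m' : ℤ) ∣ (s2 * a * p + s1 * b * m') ^ 2 + 3 := by
        obtain ⟨k, hk⟩ := hs2
        refine ⟨k + b * (s1 - s2) * (2 * s2 + b * (s1 - s2) * m'), ?_⟩
        have e : s2 * a * p + s1 * b * m' = s2 + b * (s1 - s2) * m' := by
          linear_combination s2 * hab
        rw [e]
        linear_combination hk
      have d3 := (show IsCoprime (p : ℤ) (m' : ℤ) from ⟨a, b, hab⟩).mul_dvd d1 d2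
      have e2 : (m : ℤ) = p * m' := by
        conv_lhs => rw [hm']
        push_cast; ring
      rw [e2]
      exact d3

/-- If every prime with odd exponent in the odd number `v` has `-3` as a square, then
`4 v = b^2 + 3 w^2` with `b`, `w` odd. -/
theorem four_rep {v : ℕ} (hv : v % 2 = 1)
    (h : ∀ l : ℕ, l.Prime → ∀ k m' : ℕ, v = l ^ (2 * k + 1) * m' → ¬ l ∣ m' →
      ∃ s : ℤ, (l : ℤ) ∣ s ^ 2 + 3) :
    ∃ b w : ℤ, b % 2 = 1 ∧ w % 2 = 1 ∧ 4 * (v : ℤ) = b ^ 2 + 3 * w ^ 2 := by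
  have hv0 : 0 < v := by omega
  obtain ⟨m, f, hmf, hsq⟩ := Nat.sq_mul_squarefree v
  have hm0 : 0 < m := Nat.pos_of_ne_zero hsq.ne_zero
  have hf0 : 0 < f := by
    rcases Nat.eq_zero_or_pos f with h0 | h0
    · rw [h0] at hmf; simp at hmf; omega
    · exact h0
  have hmodd : m % 2 = 1 := by
    rcases Nat.even_or_odd m with ⟨j, hj⟩ | ⟨j, hj⟩
    · exfalso
      rw [hj] at hmf
      have : f ^ 2 * (j + j) = 2 * (f ^ 2 * j) := by ring
      omega
    · omega
  obtain ⟨s, hs⟩ := sq_mod_squarefree m m le_rfl hsq (by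
    intro l hl hlm
    obtain ⟨m1, hm1⟩ := hlm
    have hnot : ¬ l ∣ m1 := by
      intro h2
      have h3 : l * l ∣ m := by rw [hm1]; exact mul_dvd_mul_left l h2
      exact hl.one_lt.ne' (Nat.isUnit_iff.1 (hsq l h3))
    obtain ⟨k, f1, hf1, hf2⟩ := Nat.exists_eq_pow_mul_and_not_dvd hf0.ne' l hl.ne_one
    refine h l hl k (f1 ^ 2 * m1) ?_ ?_
    · rw [← hmf, hf2, hm1]; ring
    · intro h4
      rcases (Nat.Prime.dvd_mul hl).1 h4 with h5 | h5
      · exact hf1 (hl.dvd_of_dvd_pow h5)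
      · exact hnot h5)
  -- make `s` odd
  obtain ⟨s', hs', hodd⟩ : ∃ s' : ℤ, (m : ℤ) ∣ s' ^ 2 + 3 ∧ s' % 2 = 1 := by
    rcases Int.even_or_odd s with ⟨j, hj⟩ | ⟨j, hj⟩
    · refine ⟨s + m, ?_, by omega⟩
      have : (s + m) ^ 2 + 3 = (s ^ 2 + 3) + m * (2 * s + m) := by ring
      rw [this]
      exact dvd_add hs (Dvd.intro _ rfl)
    · exact ⟨s, hs, by omega⟩
  have h4 : (4 : ℤ) ∣ s' ^ 2 + 3 := by
    obtain ⟨j, hj⟩ : ∃ j, s' = 2 * j + 1 := ⟨s' / 2, by omega⟩
    exact ⟨j ^ 2 + j + 1, by rw [hj]; ring⟩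
  have hcop : IsCoprime (4 : ℤ) (m : ℤ) := by
    have : IsCoprime ((2 : ℤ) ^ 2) (m : ℤ) := by
      apply IsCoprime.pow_left
      exact ⟨-(m / 2 : ℤ), 1, by omega⟩
    norm_num at this
    exact this
  obtain ⟨c, d, hcd⟩ := rep_of_sq (m := (m : ℤ)) (by exact_mod_cast hm0) (hcop.mul_dvd h4 hs')
  have hvz : (v : ℤ) = (f * c) ^ 2 + (f * c) * (f * d) + (f * d) ^ 2 := by
    rw [← hmf]; push_cast; rw [hcd]; ring
  set x : ℤ := f * c with hx
  set y : ℤ := f * d with hy
  have hvodd : (x ^ 2 + x * y + y ^ 2) % 2 = 1 := by rw [← hvz]; omega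
  rcases Int.even_or_odd y with ⟨j, hj⟩ | ⟨j, hj⟩
  · have hxodd : x % 2 = 1 := by
      rcases Int.even_or_odd x with ⟨i, hi⟩ | ⟨i, hi⟩
      · exfalso
        rw [hi, hj] at hvodd
        have : (i + i) ^ 2 + (i + i) * (j + j) + (j + j) ^ 2 =
            2 * (2 * i ^ 2 + 2 * i * j + 2 * j ^ 2) := by ring
        omega
      · omega
    exact ⟨x + 2 * y, x, by omega, hxodd, by rw [hvz]; ring⟩
  · exact ⟨2 * x + y, y, by omega, by omega, by rw [hvz]; ring⟩

end Pool.Agent.helper41.Sun
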