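import Pool.Agent.helper41.Sun.Core

/-!
# The checker and its soundness
-/

namespace Pool.Agent.helper41.Sun

/-- Value of a linear form. -/
def ev (l v : Vc) : ℤ := l.p * v.p + l.u * v.u + l.t * v.t

/-- Sum of linear forms. -/
def Vc.add (a b : Vc) : Vc := ⟨a.p + b.p, a.u + b.u, a.t + b.t⟩

theorem ev_add (a b v : Vc) : ev (a.add b) v = ev a v + ev b v := by
  simp only [ev, Vc.add]; ring

theorem ev_smul (k : ℤ) (a v : Vc) : ev (a.smul k) v = k * ev a v := by
  simp only [ev, Vc.smul]; ring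

/-- Second row of a matrix. -/
def Mt.ru (x : Mt) : Vc := ⟨x.d, x.e, x.f⟩

/-- Third row of a matrix. -/
def Mt.rt (x : Mt) : Vc := ⟨x.g, x.h, x.i⟩

/-- The certificate tree. -/
inductive Tr
  | contra (cs : List (ℕ × ℕ)) (c : ℕ)
  | exc (e : ℕ) (l r : ℕ) (A B C : Mt) (m : ℤ)
  | cond (a b : ℕ) (p m : Tr)
  | mix (a s b k : ℕ) (t : Tr)
  | h0 (a : ℕ) (s : Bool) (t0 ts : Tr)
  | h2 (a b : ℕ) (t1 t2 : Tr)
  | up (a : ℕ) (c0 c1 c2 c3 c4 : Tr)
  | dn (a : ℕ) (c0 c1 c2 c3 c4 : Tr)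

/-- The identity frame. -/
def frid : Fr := ⟨⟨1, 0, 0, 0, 1, 0, 0, 0, 1⟩, 1⟩

/-- Frame number `n` of a list. -/
def nth : List Fr → ℕ → Fr
  | [], _ => frid
  | a :: _, 0 => a
  | _ :: l, n + 1 => nth l n

/-- Linear form number `n` of a list. -/
def nthc : List Vc → ℕ → Vc
  | [], _ => ⟨0, 1, 0⟩
  | a :: _, 0 => a
  | _ :: l, n + 1 => nthc l n

/-- The nonnegative combination of linear forms given by a list. -/
def comb (C : List Vc) : List (ℕ × ℕ) → Vc
  | [] => ⟨0, 0, 0⟩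
  | (i, c) :: l => ((nthc C i).smul c).add (comb C l)

/-- The sum of the coefficients. -/
def tot : List (ℕ × ℕ) → ℕ
  | [] => 0
  | (_, c) :: l => c + tot l

/-- The frames `a`, `b` witness that the third coordinate of `a` is odd. -/
def oddw (a b : Fr) : Bool :=
  decide ((a.m.rt.smul b.d = b.m.ru.smul a.d) ∨ (a.m.rt.smul b.d = b.m.ru.smul (-a.d)))

/-- The residue mod `3` of the product of the last two coordinates. -/
def kap (x : Mt) : ℤ := (x.e + x.f) * (x.h + x.i) % 3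

/-- The cross product with `e`, as a matrix. -/
def crm (e : Vc) : Mt := ⟨0, e.t, -e.u, -e.t, 0, e.p, e.u, -e.p, 0⟩

/-- Multiple of a matrix. -/
def Mt.smul (k : ℤ) (x : Mt) : Mt :=
  ⟨k * x.a, k * x.b, k * x.c, k * x.d, k * x.e, k * x.f, k * x.g, k * x.h, k * x.i⟩

/-- Sum of matrices. -/
def Mt.add (x y : Mt) : Mt :=
  ⟨x.a + y.a, x.b + y.b, x.c + y.c, x.d + y.d, x.e + y.e, x.f + y.f, x.g + y.g, x.h + y.h,
   x.i + y.i⟩

/-- The check at an exceptional leaf. -/
def exck (e : Vc) (l r : Fr) (A B C : Mt) (m : ℤ) : Bool :=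
  decide (m % 2 = 1 ∧ (crm e).smul (m * (l.d * r.d)) =
    ((((A.mul l.m).smul r.d).add ((B.mul r.m).smul l.d)).add (C.smul (l.d * r.d))).smul 8192)

/-- The checker. -/
def check (E : ℕ → Vc) : Tr → List Fr → List Vc → Bool
  | .contra cs c, _, C =>
      decide (0 < tot cs) && decide ((comb C cs).add ⟨0, c, -c⟩ = ⟨0, 0, 0⟩)
  | .exc e l r A B D m, F, _ => exck (E e) (nth F l) (nth F r) A B D m
  | .cond a b p m, F, C =>
      oddw (nth F a) (nth F b) && decide ((nth F a).m.d % 3 = 0) && decide ((nth F a).m.g % 3 = 0)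
      && decide ((nth F a).d % 3 ≠ 0) &&
      (if kap (nth F a).m = 1 then
        check E p F ((nth F a).m.rt :: (nth F a).m.ru :: C) &&
        check E m F ((nth F a).m.rt.smul (-1) :: (nth F a).m.ru.smul (-1) :: C)
      else
        decide (kap (nth F a).m = 2) &&
        check E p F ((nth F a).m.rt.smul (-1) :: (nth F a).m.ru :: C) &&
        check E m F ((nth F a).m.rt :: (nth F a).m.ru.smul (-1) :: C))
  | .mix a s b k t, F, C =>
      decide ((stp s (nth F a)).m = (stg k (nth F b)).m) && decide (2 * (nth F a).d = 5 * (nth F b).d)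
      && check E t (stp s (nth F a) :: F) C
  | .h0 a s t0 ts, F, C =>
      check E t0 (stp 0 (nth F a) :: F) C && check E ts (stp (if s then 2 else 1) (nth F a) :: F) C
  | .h2 a b t1 t2, F, C =>
      oddw (nth F a) (nth F b) &&
      check E t1 (stp 1 (nth F a) :: F) C && check E t2 (stp 2 (nth F a) :: F) C
  | .up a c0 c1 c2 c3 c4, F, C =>
      check E c0 (stg 0 (nth F a) :: F) C && check E c1 (stg 1 (nth F a) :: F) C &&
      check E c2 (stg 2 (nth F a) :: F) C && check E c3 (stg 3 (nth F a) :: F) C &&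
      check E c4 (stg 4 (nth F a) :: F) C
  | .dn a c0 c1 c2 c3 c4, F, C =>
      check E c0 (stg 5 (nth F a) :: F) C && check E c1 (stg 6 (nth F a) :: F) C &&
      check E c2 (stg 7 (nth F a) :: F) C && check E c3 (stg 8 (nth F a) :: F) C &&
      check E c4 (stg 9 (nth F a) :: F) C

/-- The hypothesis that every solution with all coordinates odd is bad. -/
def Bad (N : ℤ) : Prop :=
  ∀ y : Vc, Good N y → y.t % 2 = 1 →
    (y.u * y.t % 3 = 1 → 0 < y.u * y.t) ∧ (y.u * y.t % 3 = 2 → y.u * y.t < 0)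

/-- The normalisation of the starting vector. -/
def Start (N : ℤ) (x : Vc) : Prop :=
  Good N x ∧ x.t % 2 = 1 ∧ (x.u - x.t) % 3 = 0 ∧ x.u % 3 ≠ 0 ∧ 0 < x.t + 2 * x.p ∧ 0 < x.u ∧
    0 < x.t ∧ x.t ≤ x.u

/-- `x` is proportional to `e` modulo `m`. -/
def Prop2 (m : ℤ) (x e : Vc) : Prop :=
  m ∣ x.u * e.t - x.t * e.u ∧ m ∣ x.t * e.p - x.p * e.t ∧ m ∣ x.p * e.u - x.u * e.p

theorem known_nth {N : ℤ} {x : Vc} (hx : Good N x) {F : List Fr} (hF : ∀ f ∈ F, Known N x f)
    (n : ℕ) : Known N x (nth F n) := by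
  induction F generalizing n with
  | nil =>
    refine ⟨by norm_num [nth, frid], x, hx, ?_⟩
    simp only [nth, frid, Mt.app, Vc.smul]
    exact vext (by simp only; ring) (by simp only; ring) (by simp only; ring)
  | cons a l ih =>
    cases n with
    | zero => exact hF a (by simp)
    | succ n => exact ih (fun f hf => hF f (by simp [hf])) n

theorem pos_nthc {x : Vc} (hx : 0 < x.u) {C : List Vc} (hC : ∀ c ∈ C, 0 < ev c x)
    (n : ℕ) : 0 < ev (nthc C n) x := by
  induction C generalizing n with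
  | nil => simpa [nthc, ev] using hx
  | cons a l ih =>
    cases n with
    | zero => exact hC a (by simp)
    | succ n => exact ih (fun f hf => hC f (by simp [hf])) n

theorem comb_pos {x : Vc} (hx : 0 < x.u) {C : List Vc} (hC : ∀ c ∈ C, 0 < ev c x)
    (cs : List (ℕ × ℕ)) : (tot cs : ℤ) ≤ ev (comb C cs) x := by
  induction cs with
  | nil => simp [tot, comb, ev]
  | cons a l ih =>
    obtain ⟨i, c⟩ := a
    simp only [tot, comb]
    rw [ev_add, ev_smul]
    have h1 := pos_nthc hx hC i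
    have h2 : (c : ℤ) ≤ c * ev (nthc C i) x := by nlinarith [Int.natCast_nonneg c]
    push_cast
    linarith

theorem app_row_u (x : Mt) (v : Vc) : (x.app v).u = ev x.ru v := rfl

theorem app_row_t (x : Mt) (v : Vc) : (x.app v).t = ev x.rt v := rfl

theorem oddw_spec {N : ℤ} {x : Vc} {a b : Fr} (hb : Known N x b) (h : oddw a b = true)
    (ha : 0 < a.d) {y : Vc} (hy1 : y.smul a.d = a.m.app x) : y.t % 2 = 1 := by
  obtain ⟨hbd, z, hz, hz1⟩ := hb
  have e1 : a.d * y.t = ev a.m.rt x := by rw [← app_row_t, ← hy1]; rfl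
  have e2 : b.d * z.u = ev b.m.ru x := by rw [← app_row_u, ← hz1]; rfl
  have hzu := hz.2
  have h' := of_decide_eq_true h
  rcases h' with h' | h'
  · have e3 : b.d * ev a.m.rt x = a.d * ev b.m.ru x := by rw [← ev_smul, ← ev_smul, h']
    rw [← e1, ← e2] at e3
    have e4 : (b.d * a.d) * y.t = (b.d * a.d) * z.u := by linarith
    have e5 := mul_left_cancel₀ (ne_of_gt (mul_pos hbd ha)) e4
    omega
  · have e3 : b.d * ev a.m.rt x = -a.d * ev b.m.ru x := by rw [← ev_smul, ← ev_smul, h']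
    rw [← e1, ← e2] at e3
    have e4 : (b.d * a.d) * y.t = (b.d * a.d) * (-z.u) := by linarith
    have e5 := mul_left_cancel₀ (ne_of_gt (mul_pos hbd ha)) e4
    omega

theorem sq_mod3 : ∀ z : ZMod 3, z ≠ 0 → z ^ 2 = 1 := by decide

theorem cast_ne_zero3 {z : ℤ} (h : z % 3 ≠ 0) : (z : ZMod 3) ≠ 0 := by
  intro h1
  exact h (Int.emod_eq_zero_of_dvd ((ZMod.intCast_zmod_eq_zero_iff_dvd _ 3).1 h1))

theorem cast_zero3 {z : ℤ} (h : z % 3 = 0) : (z : ZMod 3) = 0 :=
  (ZMod.intCast_zmod_eq_zero_iff_dvd _ 3).2 (Int.dvd_of_emod_eq_zero h)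

theorem kap_spec {N : ℤ} {x : Vc} (hx : Start N x) {a : Fr} {y : Vc}
    (hy1 : y.smul a.d = a.m.app x) (h1 : a.m.d % 3 = 0) (h2 : a.m.g % 3 = 0)
    (h3 : a.d % 3 ≠ 0) : y.u * y.t % 3 = kap a.m := by
  obtain ⟨-, -, h4, h5, -⟩ := hx
  have e1 : a.d * y.u = ev a.m.ru x := by rw [← app_row_u, ← hy1]; rfl
  have e2 : a.d * y.t = ev a.m.rt x := by rw [← app_row_t, ← hy1]; rfl
  have c1 := congrArg (fun z : ℤ => (z : ZMod 3)) e1
  have c2 := congrArg (fun z : ℤ => (z : ZMod 3)) e2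
  simp only [ev, Mt.ru, Mt.rt] at c1 c2
  push_cast at c1 c2
  have ht : (x.t : ZMod 3) = x.u := by
    have := cast_zero3 h4
    push_cast at this
    linear_combination -this
  rw [cast_zero3 h1, ht] at c1
  rw [cast_zero3 h2, ht] at c2
  have q1 := sq_mod3 _ (cast_ne_zero3 h3)
  have q2 := sq_mod3 _ (cast_ne_zero3 h5)
  have c3 : (y.u : ZMod 3) * y.t = (a.m.e + a.m.f) * (a.m.h + a.m.i) := by
    have c4 : (a.d * y.u : ZMod 3) * (a.d * y.t) =
        ((a.m.e + a.m.f) * x.u) * ((a.m.h + a.m.i) * x.u) := by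
      rw [c1, c2]; ring
    have c5 : (a.d * y.u : ZMod 3) * (a.d * y.t) = (a.d : ZMod 3) ^ 2 * (y.u * y.t) := by ring
    have c6 : ((a.m.e + a.m.f) * x.u : ZMod 3) * ((a.m.h + a.m.i) * x.u) =
        (x.u : ZMod 3) ^ 2 * ((a.m.e + a.m.f) * (a.m.h + a.m.i)) := by ring
    rw [c5, c6, q1, q2, one_mul, one_mul] at c4
    exact c4
  have c7 : ((y.u * y.t - (a.m.e + a.m.f) * (a.m.h + a.m.i) : ℤ) : ZMod 3) = 0 := by
    push_cast
    rw [c3]; ring
  have c8 := (ZMod.intCast_zmod_eq_zero_iff_dvd _ 3).1 c7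
  unfold kap
  exact Int.emod_eq_emod_iff_emod_sub_eq_zero.2 (Int.emod_eq_zero_of_dvd (by exact_mod_cast c8))

theorem app_smul' (x : Mt) (k : ℤ) (v : Vc) : (x.smul k).app v = (x.app v).smul k := by
  apply vext <;> simp only [Mt.app, Mt.smul, Vc.smul] <;> ring

theorem app_add (x y : Mt) (v : Vc) : (x.add y).app v = (x.app v).add (y.app v) := by
  apply vext <;> simp only [Mt.app, Mt.add, Vc.add] <;> ring

theorem exck_spec {N : ℤ} {x e : Vc} {l r : Fr} {A B C : Mt} {m : ℤ} (hl : Known N x l)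
    (hr : Known N x r) (h : exck e l r A B C m = true) : Prop2 8192 x e := by
  obtain ⟨hld, y, -, hy⟩ := hl
  obtain ⟨hrd, z, -, hz⟩ := hr
  obtain ⟨hm, h1⟩ := of_decide_eq_true h
  have h2 := congrArg (fun M : Mt => M.app x) h1
  simp only [app_smul', app_add, Mt.mul_app] at h2
  rw [← hy, ← hz, app_smul, app_smul] at h2
  have hpos : l.d * r.d ≠ 0 := ne_of_gt (mul_pos hld hrd)
  have key : ∀ a b c : ℤ, m * (l.d * r.d) * a = 8192 * (r.d * (l.d * b) + l.d * (r.d * c)
      + l.d * r.d * (a - a)) → (8192 : ℤ) ∣ a := by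
    intro a b c hh
    have h3 : (l.d * r.d) * (m * a) = (l.d * r.d) * (8192 * (b + c)) := by
      rw [sub_self] at hh
      linear_combination hh
    have h4 := mul_left_cancel₀ hpos h3
    have h5 : (8192 : ℤ) ∣ m * a := ⟨b + c, h4⟩
    have h6 : IsCoprime (8192 : ℤ) m := by
      have : (8192 : ℤ) = 2 ^ 13 := by norm_num
      rw [this]
      apply IsCoprime.pow_left
      rw [Int.isCoprime_iff_gcd_eq_one]
      have h7 : Int.gcd 2 m ∣ 2 := by exact_mod_cast Int.gcd_dvd_natAbs_left 2 m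
      rcases (Nat.dvd_prime Nat.prime_two).1 h7 with h8 | h8
      · exact h8
      · exfalso
        have h9 : (2 : ℤ) ∣ m := by
          have := Int.gcd_dvd_right 2 m
          rw [h8] at this
          exact_mod_cast this
        omega
    exact h6.dvd_of_dvd_mul_left h5
  refine ⟨?_, ?_, ?_⟩
  · have h3 := congrArg Vc.p h2
    simp only [Vc.smul, Vc.add, crm, Mt.app] at h3
    refine key _ (A.a * y.p + A.b * y.u + A.c * y.t + (C.a * x.p + C.b * x.u + C.c * x.t))
      (B.a * z.p + B.b * z.u + B.c * z.t) ?_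
    linear_combination h3
  · have h3 := congrArg Vc.u h2
    simp only [Vc.smul, Vc.add, crm, Mt.app] at h3
    refine key _ (A.d * y.p + A.e * y.u + A.f * y.t + (C.d * x.p + C.e * x.u + C.f * x.t))
      (B.d * z.p + B.e * z.u + B.f * z.t) ?_
    linear_combination h3
  · have h3 := congrArg Vc.t h2
    simp only [Vc.smul, Vc.add, crm, Mt.app] at h3
    refine key _ (A.g * y.p + A.h * y.u + A.i * y.t + (C.g * x.p + C.h * x.u + C.i * x.t))
      (B.g * z.p + B.h * z.u + B.i * z.t) ?_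
    linear_combination h3

theorem known_cons {N : ℤ} {x : Vc} {F : List Fr} {f : Fr} (hf : Known N x f)
    (hF : ∀ g ∈ F, Known N x g) : ∀ g ∈ f :: F, Known N x g := by
  intro g hg
  rcases List.mem_cons.1 hg with h | h
  · rw [h]; exact hf
  · exact hF g h

theorem pos_cons2 {x : Vc} {C : List Vc} {a b : Vc} (ha : 0 < ev a x) (hb : 0 < ev b x)
    (hC : ∀ c ∈ C, 0 < ev c x) : ∀ c ∈ a :: b :: C, 0 < ev c x := by
  intro c hc
  rcases List.mem_cons.1 hc with h | h
  · rw [h]; exact ha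
  · rcases List.mem_cons.1 h with h | h
    · rw [h]; exact hb
    · exact hC c h

/-- Soundness of the checker. -/
theorem sound {N : ℤ} (h8 : N % 8 = 5) (h5 : N % 5 ≠ 0) (hB : Bad N) {x : Vc} (hx : Start N x)
    (E : ℕ → Vc) (T : Tr) : ∀ (F : List Fr) (C : List Vc), (∀ f ∈ F, Known N x f) →
      (∀ c ∈ C, 0 < ev c x) → check E T F C = true → ∃ n, Prop2 8192 x (E n) := by
  have hxg := hx.1
  have hxu : 0 < x.u := hx.2.2.2.2.2.1
  induction T with
  | contra cs c =>
    intro F C _ hC h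
    simp only [check, Bool.and_eq_true, decide_eq_true_eq] at h
    exfalso
    have h1 := comb_pos hxu hC cs
    have h2 := congrArg (fun v => ev v x) h.2
    simp only [ev_add] at h2
    simp only [ev] at h2 h1
    have h3 : 0 ≤ (c : ℤ) * (x.u - x.t) :=
      mul_nonneg (Int.natCast_nonneg c) (by have := hx.2.2.2.2.2.2.2; omega)
    have h4 : (0 : ℤ) < tot cs := by exact_mod_cast h.1
    nlinarith
  | exc e l r A B D m =>
    intro F C hF _ h
    simp only [check] at h
    exact ⟨e, exck_spec (known_nth hxg hF l) (known_nth hxg hF r) h⟩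
  | cond a b p m ihp ihm =>
    intro F C hF hC h
    simp only [check, Bool.and_eq_true, decide_eq_true_eq] at h
    obtain ⟨⟨⟨⟨ho, hd⟩, hg⟩, h3⟩, h⟩ := h
    obtain ⟨had, y, hy, hy1⟩ := known_nth hxg hF a
    have hodd := oddw_spec (known_nth hxg hF b) ho had hy1
    have hk := kap_spec hx hy1 hd hg h3
    have hb := hB y hy hodd
    have e1 : (nth F a).d * y.u = ev (nth F a).m.ru x := by rw [← app_row_u, ← hy1]; rfl
    have e2 : (nth F a).d * y.t = ev (nth F a).m.rt x := by rw [← app_row_t, ← hy1]; rfl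
    by_cases hk1 : kap (nth F a).m = 1
    · rw [if_pos hk1, Bool.and_eq_true] at h
      have h4 := hb.1 (hk.trans hk1)
      rcases pos_and_pos_or_neg_and_neg_of_mul_pos h4 with ⟨h6, h7⟩ | ⟨h6, h7⟩
      · refine ihp F _ hF (pos_cons2 ?_ ?_ hC) h.1
        · rw [← e2]; exact mul_pos had h7
        · rw [← e1]; exact mul_pos had h6
      · refine ihm F _ hF (pos_cons2 ?_ ?_ hC) h.2
        · rw [ev_smul, ← e2]; nlinarith
        · rw [ev_smul, ← e1]; nlinarith
    · rw [if_neg hk1] at h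
      simp only [Bool.and_eq_true, decide_eq_true_eq] at h
      obtain ⟨⟨hk2, hp⟩, hm⟩ := h
      have h4 := hb.2 (hk.trans hk2)
      rcases mul_neg_iff.1 h4 with ⟨h6, h7⟩ | ⟨h6, h7⟩
      · refine ihp F _ hF (pos_cons2 ?_ ?_ hC) hp
        · rw [ev_smul, ← e2]; nlinarith
        · rw [← e1]; exact mul_pos had h6
      · refine ihm F _ hF (pos_cons2 ?_ ?_ hC) hm
        · rw [← e2]; exact mul_pos had h7
        · rw [ev_smul, ← e1]; nlinarith
  | mix a s b k t ih =>
    intro F C hF hC h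
    simp only [check, Bool.and_eq_true, decide_eq_true_eq] at h
    obtain ⟨⟨h1, h2⟩, h3⟩ := h
    refine ih _ _ (known_cons ?_ hF) hC h3
    exact known_mix s k (known_nth hxg hF a) (known_nth hxg hF b) h1 h2
  | h0 a s t0 ts ih0 ihs =>
    intro F C hF hC h
    simp only [check, Bool.and_eq_true] at h
    rcases branch0 h8 (known_nth hxg hF a) (if s then 2 else 1) (by cases s <;> simp) with h1 | h1
    · exact ih0 _ _ (known_cons h1 hF) hC h.1
    · exact ihs _ _ (known_cons h1 hF) hC h.2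
  | h2 a b t1 t2 ih1 ih2 =>
    intro F C hF hC h
    simp only [check, Bool.and_eq_true] at h
    obtain ⟨⟨ho, h1⟩, h2⟩ := h
    have hk := known_nth hxg hF a
    rcases branch2 hk (fun y _ hy1 => oddw_spec (known_nth hxg hF b) ho hk.1 hy1) with h3 | h3
    · exact ih1 _ _ (known_cons h3 hF) hC h1
    · exact ih2 _ _ (known_cons h3 hF) hC h2
  | up a c0 c1 c2 c3 c4 i0 i1 i2 i3 i4 =>
    intro F C hF hC h
    simp only [check, Bool.and_eq_true] at h
    obtain ⟨⟨⟨⟨g0, g1⟩, g2⟩, g3⟩, g4⟩ := h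
    rcases branchUp h5 (known_nth hxg hF a) with h1 | h1 | h1 | h1 | h1
    · exact i0 _ _ (known_cons h1 hF) hC g0
    · exact i1 _ _ (known_cons h1 hF) hC g1
    · exact i2 _ _ (known_cons h1 hF) hC g2
    · exact i3 _ _ (known_cons h1 hF) hC g3
    · exact i4 _ _ (known_cons h1 hF) hC g4
  | dn a c0 c1 c2 c3 c4 i0 i1 i2 i3 i4 =>
    intro F C hF hC h
    simp only [check, Bool.and_eq_true] at h
    obtain ⟨⟨⟨⟨g0, g1⟩, g2⟩, g3⟩, g4⟩ := h
    rcases branchDn h5 (known_nth hxg hF a) with h1 | h1 | h1 | h1 | h1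
    · exact i0 _ _ (known_cons h1 hF) hC g0
    · exact i1 _ _ (known_cons h1 hF) hC g1
    · exact i2 _ _ (known_cons h1 hF) hC g2
    · exact i3 _ _ (known_cons h1 hF) hC g3
    · exact i4 _ _ (known_cons h1 hF) hC g4

end Pool.Agent.helper41.Sun
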