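import Mathlib

/-!
# A certified search on the solutions of `3 w^2 + 5 u^2 + 5 t^2 = N`

A vector `(p, u, t)` stands for `w = t + 2 p`, so that
`3 w^2 + 5 u^2 + 5 t^2 = 12 p^2 + 12 p t + 8 t^2 + 5 u^2`.
-/

namespace Pool.Agent.helper41.Sun

/-- Integer vectors `(p, u, t)`. -/
structure Vc where
  p : ℤ
  u : ℤ
  t : ℤ
deriving DecidableEq

theorem vext {a b : Vc} (h1 : a.p = b.p) (h2 : a.u = b.u) (h3 : a.t = b.t) : a = b := by
  cases a; cases b; simp_all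

/-- Integer `3 × 3` matrices, row by row. -/
structure Mt where
  a : ℤ
  b : ℤ
  c : ℤ
  d : ℤ
  e : ℤ
  f : ℤ
  g : ℤ
  h : ℤ
  i : ℤ
deriving DecidableEq

/-- Product of matrices. -/
def Mt.mul (x y : Mt) : Mt :=
  ⟨x.a * y.a + x.b * y.d + x.c * y.g, x.a * y.b + x.b * y.e + x.c * y.h,
   x.a * y.c + x.b * y.f + x.c * y.i,
   x.d * y.a + x.e * y.d + x.f * y.g, x.d * y.b + x.e * y.e + x.f * y.h,
   x.d * y.c + x.e * y.f + x.f * y.i,
   x.g * y.a + x.h * y.d + x.i * y.g, x.g * y.b + x.h * y.e + x.i * y.h,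
   x.g * y.c + x.h * y.f + x.i * y.i⟩

/-- Matrix times vector. -/
def Mt.app (x : Mt) (v : Vc) : Vc :=
  ⟨x.a * v.p + x.b * v.u + x.c * v.t, x.d * v.p + x.e * v.u + x.f * v.t,
   x.g * v.p + x.h * v.u + x.i * v.t⟩

theorem Mt.mul_app (x y : Mt) (v : Vc) : (x.mul y).app v = x.app (y.app v) := by
  simp only [Mt.mul, Mt.app, Vc.mk.injEq]
  refine ⟨by ring, by ring, by ring⟩

/-- The quadratic form. -/
def Q (v : Vc) : ℤ := 12 * v.p ^ 2 + 12 * v.p * v.t + 8 * v.t ^ 2 + 5 * v.u ^ 2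

/-- Multiple of a vector. -/
def Vc.smul (k : ℤ) (v : Vc) : Vc := ⟨k * v.p, k * v.u, k * v.t⟩

theorem Q_smul (k : ℤ) (v : Vc) : Q (v.smul k) = k ^ 2 * Q v := by
  simp only [Q, Vc.smul]; ring

theorem app_smul (x : Mt) (k : ℤ) (v : Vc) : x.app (v.smul k) = (x.app v).smul k := by
  simp only [Mt.app, Vc.smul, Vc.mk.injEq]
  refine ⟨by ring, by ring, by ring⟩

theorem smul_smul (k l : ℤ) (v : Vc) : (v.smul k).smul l = v.smul (l * k) := by
  simp only [Vc.smul, Vc.mk.injEq]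
  refine ⟨by ring, by ring, by ring⟩

/-- A matrix multiplies `Q` by `c ^ 2` (checked on coefficients). -/
def Iso (x : Mt) (c : ℤ) : Prop := ∀ v : Vc, Q (x.app v) = c ^ 2 * Q v

/-- The three steps at the prime `2` (with denominators `2`). -/
def S : ℕ → Mt
  | 0 => ⟨2, -1, 1, 0, 0, -2, 0, 2, 0⟩
  | 1 => ⟨1, 0, 2, 0, 2, 0, -3, 0, -2⟩
  | _ => ⟨-2, 0, -2, 0, 2, 0, 3, 0, 1⟩

theorem S_iso (s : ℕ) : Iso (S s) 2 := by
  intro v
  match s with
  | 0 => simp only [S, Q, Mt.app]; ring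
  | 1 => simp only [S, Q, Mt.app]; ring
  | n + 2 => simp only [S, Q, Mt.app]; ring

/-- The steps at the prime `5` (with denominators `5`). -/
def G : ℕ → Mt
  | 0 => ⟨1, -4, 0, 6, 1, 0, 3, 3, 5⟩
  | 1 => ⟨4, 1, -1, -6, 1, -6, -3, 3, 2⟩
  | 2 => ⟨5, -2, 1, 0, 3, -4, 0, 4, 3⟩
  | 3 => ⟨-4, -3, -3, 6, -3, 2, 3, 1, 6⟩
  | 4 => ⟨-1, 2, -4, -6, -3, -4, -3, 1, 3⟩
  | 5 => ⟨4, -1, -1, 6, 1, 6, -3, -3, 2⟩
  | 6 => ⟨1, 4, 0, -6, 1, 0, 3, -3, 5⟩
  | 7 => ⟨5, 2, 1, 0, 3, 4, 0, -4, 3⟩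
  | 8 => ⟨-1, -2, -4, 6, -3, 4, -3, -1, 3⟩
  | 9 => ⟨-4, 3, -3, -6, -3, -2, 3, -1, 6⟩
  | 10 => ⟨4, -1, 5, -6, -1, 0, -3, -3, -5⟩
  | 11 => ⟨1, 4, 1, 6, -1, 6, 3, -3, -2⟩
  | 12 => ⟨5, 2, 4, 0, -3, 4, 0, -4, -3⟩
  | 13 => ⟨-1, -2, 3, -6, 3, -2, -3, -1, -6⟩
  | 14 => ⟨-4, 3, -1, 6, 3, 4, 3, -1, -3⟩
  | 15 => ⟨1, -4, 1, -6, -1, -6, 3, 3, -2⟩
  | 16 => ⟨4, 1, 5, 6, -1, 0, -3, 3, -5⟩
  | 17 => ⟨5, -2, 4, 0, -3, -4, 0, 4, -3⟩
  | 18 => ⟨-4, -3, -1, -6, 3, -4, 3, 1, -3⟩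
  | _ => ⟨-1, 2, 3, 6, 3, 2, -3, 1, -6⟩

theorem G_iso (k : ℕ) : Iso (G k) 5 := by
  intro v
  unfold G
  split <;> simp only [Q, Mt.app] <;> ring

theorem G_odd (k : ℕ) (v : Vc) (hv : v.u % 2 = 1) : ((G k).app v).u % 2 = 1 := by
  unfold G
  split <;> simp only [Mt.app] <;> omega

/-- A vector of norm `N` with odd second coordinate. -/
def Good (N : ℤ) (v : Vc) : Prop := Q v = N ∧ v.u % 2 = 1

/-- A frame: a matrix and a denominator. -/
structure Fr where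
  m : Mt
  d : ℤ
deriving DecidableEq

/-- The frame sends `x` to an integer vector of norm `N` with odd `u`. -/
def Known (N : ℤ) (x : Vc) (f : Fr) : Prop :=
  0 < f.d ∧ ∃ y : Vc, Good N y ∧ y.smul f.d = f.m.app x

theorem Mt.mul_assoc (x y z : Mt) : (x.mul y).mul z = x.mul (y.mul z) := by
  simp only [Mt.mul, Mt.mk.injEq]
  refine ⟨by ring, by ring, by ring, by ring, by ring, by ring, by ring, by ring, by ring⟩

/-- Step `s` at the prime `2` applied to a frame. -/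
def stp (s : ℕ) (f : Fr) : Fr := ⟨(S s).mul f.m, 2 * f.d⟩

/-- Step `k` at the prime `5` applied to a frame. -/
def stg (k : ℕ) (f : Fr) : Fr := ⟨(G k).mul f.m, 5 * f.d⟩

/-- If step `s` at `2` is integral on `y`, the new frame is known. -/
theorem known_stp {N : ℤ} {x : Vc} {f : Fr} (s : ℕ) {y z : Vc} (hd : 0 < f.d) (hy : Q y = N)
    (h1 : y.smul f.d = f.m.app x) (h2 : z.smul 2 = (S s).app y) (hz : z.u % 2 = 1) :
    Known N x (stp s f) := by
  refine ⟨by simp only [stp]; omega, z, ⟨?_, hz⟩, ?_⟩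
  · have h3 : Q (z.smul 2) = 2 ^ 2 * Q y := by rw [h2]; exact S_iso s y
    rw [Q_smul, hy] at h3
    linarith
  · simp only [stp]
    rw [Mt.mul_app, ← h1, app_smul, ← h2, smul_smul]
    congr 1
    ring

theorem known_stg {N : ℤ} {x : Vc} {f : Fr} (k : ℕ) {y z : Vc} (hd : 0 < f.d) (hy : Good N y)
    (h1 : y.smul f.d = f.m.app x) (h2 : z.smul 5 = (G k).app y) :
    Known N x (stg k f) := by
  refine ⟨by simp only [stg]; omega, z, ⟨?_, ?_⟩, ?_⟩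
  · have h3 : Q (z.smul 5) = 5 ^ 2 * Q y := by rw [h2]; exact G_iso k y
    rw [Q_smul, hy.1] at h3
    linarith
  · have h3 := G_odd k y hy.2
    rw [← h2] at h3
    simp only [Vc.smul] at h3
    omega
  · simp only [stg]
    rw [Mt.mul_app, ← h1, app_smul, ← h2, smul_smul]
    congr 1
    ring

/-- The mixing rule. -/
theorem known_mix {N : ℤ} {x : Vc} {f g : Fr} (s k : ℕ) (hf : Known N x f) (hg : Known N x g)
    (hm : (S s).mul f.m = (G k).mul g.m) (hd : 2 * f.d = 5 * g.d) :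
    Known N x (stp s f) := by
  obtain ⟨hfd, y, hy, hy1⟩ := hf
  obtain ⟨hgd, z, hz, hz1⟩ := hg
  have e1 : ((S s).app y).smul f.d = ((S s).mul f.m).app x := by
    rw [Mt.mul_app, ← hy1, app_smul]
  have e2 : ((G k).app z).smul g.d = ((S s).mul f.m).app x := by
    rw [hm, Mt.mul_app, ← hz1, app_smul]
  have hodd := G_odd k z hz.2
  -- the common vector
  set a := (S s).app y with ha
  set b := (G k).app z with hb
  set c := ((S s).mul f.m).app x with hc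
  have p1 : f.d * a.p = c.p := by rw [← e1]; rfl
  have u1 : f.d * a.u = c.u := by rw [← e1]; rfl
  have t1 : f.d * a.t = c.t := by rw [← e1]; rfl
  have p2 : g.d * b.p = c.p := by rw [← e2]; rfl
  have u2 : g.d * b.u = c.u := by rw [← e2]; rfl
  have t2 : g.d * b.t = c.t := by rw [← e2]; rfl
  have key : ∀ r q w : ℤ, f.d * r = w → g.d * q = w → 2 * (q - 2 * r) = r := by
    intro r q w hr hq
    have h3 : f.d * (2 * (q - 2 * r)) = f.d * r := by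
      have h4 : 5 * (g.d * q) = 5 * w := by rw [hq]
      have h5 : 2 * f.d * q = 5 * w := by rw [hd]; linarith
      have : f.d * (2 * (q - 2 * r)) = 2 * f.d * q - 4 * (f.d * r) := by ring
      rw [this, h5, hr]; ring
    exact mul_left_cancel₀ (ne_of_gt hfd) h3
  have h2 : (⟨b.p - 2 * a.p, b.u - 2 * a.u, b.t - 2 * a.t⟩ : Vc).smul 2 = a := by
    have hp := key a.p b.p c.p p1 p2
    have hu := key a.u b.u c.u u1 u2
    have ht := key a.t b.t c.t t1 t2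
    exact vext hp hu ht
  refine known_stp s hfd hy.1 hy1 h2 ?_
  show (b.u - 2 * a.u) % 2 = 1
  omega

/-- Parity at the prime `2`. -/
theorem parity {N : ℤ} (hN : N % 8 = 5) {y : Vc} (hy : Good N y) : y.p * (y.p + y.t) % 2 = 0 := by
  obtain ⟨h1, h2⟩ := hy
  simp only [Q] at h1
  have h3 : y.u ^ 2 % 8 = 1 := by
    obtain ⟨k, hk⟩ : ∃ k, y.u = 2 * k + 1 := ⟨y.u / 2, by omega⟩
    have : k * (k + 1) % 2 = 0 := by
      rcases Int.even_or_odd k with ⟨j, hj⟩ | ⟨j, hj⟩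
      · rw [hj]; ring_nf; omega
      · rw [hj]; ring_nf; omega
    have h4 : y.u ^ 2 = 4 * (k * (k + 1)) + 1 := by rw [hk]; ring
    omega
  have h4 : 12 * (y.p * (y.p + y.t)) + 8 * y.t ^ 2 + 5 * y.u ^ 2 = N := by rw [← h1]; ring
  omega

theorem even_of_mul_even {a b : ℤ} (h : a * b % 2 = 0) : a % 2 = 0 ∨ b % 2 = 0 := by
  rcases Int.even_or_odd a with ⟨j, hj⟩ | ⟨j, hj⟩
  · left; omega
  · rcases Int.even_or_odd b with ⟨i, hi⟩ | ⟨i, hi⟩
    · right; omega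
    · exfalso
      rw [hj, hi] at h
      have : (2 * j + 1) * (2 * i + 1) = 2 * (2 * j * i + j + i) + 1 := by ring
      omega

/-- Step `1` is integral when `p` is even. -/
theorem step1 {N : ℤ} {x : Vc} {f : Fr} {y : Vc} (hd : 0 < f.d) (hy : Good N y)
    (h1 : y.smul f.d = f.m.app x) (hp : y.p % 2 = 0) : Known N x (stp 1 f) := by
  refine known_stp (z := ⟨y.t + y.p / 2, y.u, -y.t - 3 * (y.p / 2)⟩) 1 hd hy.1 h1 ?_ hy.2
  obtain ⟨k, hk⟩ : ∃ k, y.p = 2 * k := ⟨y.p / 2, by omega⟩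
  have h3 : y.p / 2 = k := by omega
  apply vext
  · simp only [Vc.smul, S, Mt.app, h3]; rw [hk]; ring
  · simp only [Vc.smul, S, Mt.app]; ring
  · simp only [Vc.smul, S, Mt.app, h3]; rw [hk]; ring

/-- Step `2` is integral when `p + t` is even. -/
theorem step2 {N : ℤ} {x : Vc} {f : Fr} {y : Vc} (hd : 0 < f.d) (hy : Good N y)
    (h1 : y.smul f.d = f.m.app x) (hp : (y.p + y.t) % 2 = 0) : Known N x (stp 2 f) := by
  refine known_stp (z := ⟨-y.t - y.p, y.u, y.p + (y.p + y.t) / 2⟩) 2 hd hy.1 h1 ?_ hy.2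
  obtain ⟨k, hk⟩ : ∃ k, y.t = 2 * k - y.p := ⟨(y.p + y.t) / 2, by omega⟩
  have h3 : (y.p + y.t) / 2 = k := by omega
  apply vext
  · simp only [Vc.smul, S, Mt.app]; ring
  · simp only [Vc.smul, S, Mt.app]; ring
  · simp only [Vc.smul, S, Mt.app, h3]; rw [hk]; ring

/-- Step `0` is integral when `t` is odd. -/
theorem step0 {N : ℤ} {x : Vc} {f : Fr} {y : Vc} (hd : 0 < f.d) (hy : Good N y)
    (h1 : y.smul f.d = f.m.app x) (hp : y.t % 2 = 1) : Known N x (stp 0 f) := by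
  have h2 := hy.2
  refine known_stp (z := ⟨y.p + (y.t - y.u) / 2, -y.t, y.u⟩) 0 hd hy.1 h1 ?_ (by simp only; omega)
  obtain ⟨k, hk⟩ : ∃ k, y.t = 2 * k + y.u := ⟨(y.t - y.u) / 2, by omega⟩
  have h3 : (y.t - y.u) / 2 = k := by omega
  apply vext
  · simp only [Vc.smul, S, Mt.app, h3]; rw [hk]; ring
  · simp only [Vc.smul, S, Mt.app]; ring
  · simp only [Vc.smul, S, Mt.app]; ring

/-- Either `t` is odd or both other steps are integral. -/
theorem branch0 {N : ℤ} (hN : N % 8 = 5) {x : Vc} {f : Fr} (hf : Known N x f) (s : ℕ)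
    (hs : s = 1 ∨ s = 2) : Known N x (stp 0 f) ∨ Known N x (stp s f) := by
  obtain ⟨hd, y, hy, h1⟩ := hf
  have hpar := parity hN hy
  by_cases ht : y.t % 2 = 1
  · left; exact step0 hd hy h1 ht
  · right
    have hp : y.p % 2 = 0 := by
      rcases even_of_mul_even hpar with h | h <;> omega
    rcases hs with rfl | rfl
    · exact step1 hd hy h1 hp
    · exact step2 hd hy h1 (by omega)

/-- If `t` is odd, one of the steps `1`, `2` is integral. -/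
theorem branch2 {N : ℤ} {x : Vc} {f : Fr} (hf : Known N x f)
    (hodd : ∀ y : Vc, Good N y → y.smul f.d = f.m.app x → y.t % 2 = 1) :
    Known N x (stp 1 f) ∨ Known N x (stp 2 f) := by
  obtain ⟨hd, y, hy, h1⟩ := hf
  have ht := hodd y hy h1
  by_cases hp : y.p % 2 = 0
  · left; exact step1 hd hy h1 hp
  · right; exact step2 hd hy h1 (by omega)

/-- A step at `5` is integral when all three coordinates are divisible by `5`. -/
theorem stepG {N : ℤ} {x : Vc} {f : Fr} {y : Vc} (k : ℕ) (hd : 0 < f.d) (hy : Good N y)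
    (h1 : y.smul f.d = f.m.app x) (hp : ((G k).app y).p % 5 = 0) (hu : ((G k).app y).u % 5 = 0)
    (ht : ((G k).app y).t % 5 = 0) : Known N x (stg k f) := by
  refine known_stg (z := ⟨((G k).app y).p / 5, ((G k).app y).u / 5, ((G k).app y).t / 5⟩)
    k hd hy h1 ?_
  apply vext
  · show 5 * (((G k).app y).p / 5) = _; omega
  · show 5 * (((G k).app y).u / 5) = _; omega
  · show 5 * (((G k).app y).t / 5) = _; omega

theorem mod5 {N : ℤ} (hN : N % 5 ≠ 0) {y : Vc} (hy : Good N y) : (y.t + 2 * y.p) % 5 ≠ 0 := by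
  intro h
  apply hN
  obtain ⟨k, hk⟩ : ∃ k, y.t + 2 * y.p = 5 * k := ⟨(y.t + 2 * y.p) / 5, by omega⟩
  have h1 : N = 3 * (y.t + 2 * y.p) ^ 2 + 5 * (y.t ^ 2 + y.u ^ 2) := by
    rw [← hy.1]; simp only [Q]; ring
  rw [h1, hk]
  have : 3 * (5 * k) ^ 2 + 5 * (y.t ^ 2 + y.u ^ 2) = 5 * (15 * k ^ 2 + (y.t ^ 2 + y.u ^ 2)) := by ring
  omega

theorem up5 : ∀ p u t : ZMod 5, t + 2 * p ≠ 0 →
    p + u = 0 ∨ -p + u - t = 0 ∨ t - 2 * u = 0 ∨ p + 2 * u + 2 * t = 0 ∨ -p + 2 * u + t = 0 := by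
  decide

theorem up5z {p u t : ℤ} (h : (t + 2 * p) % 5 ≠ 0) :
    (p + u) % 5 = 0 ∨ (-p + u - t) % 5 = 0 ∨ (t - 2 * u) % 5 = 0 ∨
      (p + 2 * u + 2 * t) % 5 = 0 ∨ (-p + 2 * u + t) % 5 = 0 := by
  have h1 := up5 (p : ZMod 5) (u : ZMod 5) (t : ZMod 5) (by
    intro h2
    apply h
    have : ((t + 2 * p : ℤ) : ZMod 5) = 0 := by push_cast; exact h2
    exact Int.emod_eq_zero_of_dvd ((ZMod.intCast_zmod_eq_zero_iff_dvd _ 5).1 this))
  have key : ∀ z : ℤ, ((z : ℤ) : ZMod 5) = 0 → z % 5 = 0 := fun z hz =>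
    Int.emod_eq_zero_of_dvd ((ZMod.intCast_zmod_eq_zero_iff_dvd _ 5).1 hz)
  rcases h1 with h1 | h1 | h1 | h1 | h1
  · exact Or.inl (key _ (by push_cast; exact h1))
  · exact Or.inr (Or.inl (key _ (by push_cast; exact h1)))
  · exact Or.inr (Or.inr (Or.inl (key _ (by push_cast; exact h1))))
  · exact Or.inr (Or.inr (Or.inr (Or.inl (key _ (by push_cast; exact h1)))))
  · exact Or.inr (Or.inr (Or.inr (Or.inr (key _ (by push_cast; exact h1)))))

/-- One of the five upward steps is integral. -/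
theorem branchUp {N : ℤ} (hN : N % 5 ≠ 0) {x : Vc} {f : Fr} (hf : Known N x f) :
    Known N x (stg 0 f) ∨ Known N x (stg 1 f) ∨ Known N x (stg 2 f) ∨ Known N x (stg 3 f) ∨
      Known N x (stg 4 f) := by
  obtain ⟨hd, y, hy, h1⟩ := hf
  rcases up5z (u := y.u) (mod5 hN hy) with h | h | h | h | h
  · refine Or.inl (stepG 0 hd hy h1 ?_ ?_ ?_) <;> simp only [G, Mt.app] <;> omega
  · refine Or.inr (Or.inl (stepG 1 hd hy h1 ?_ ?_ ?_)) <;> simp only [G, Mt.app] <;> omega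
  · refine Or.inr (Or.inr (Or.inl (stepG 2 hd hy h1 ?_ ?_ ?_))) <;> simp only [G, Mt.app] <;> omega
  · refine Or.inr (Or.inr (Or.inr (Or.inl (stepG 3 hd hy h1 ?_ ?_ ?_)))) <;>
      simp only [G, Mt.app] <;> omega
  · refine Or.inr (Or.inr (Or.inr (Or.inr (stepG 4 hd hy h1 ?_ ?_ ?_)))) <;>
      simp only [G, Mt.app] <;> omega

theorem dn5 : ∀ p u t : ZMod 5, t + 2 * p ≠ 0 →
    p + u + t = 0 ∨ p - u = 0 ∨ t + 2 * u = 0 ∨ p + 2 * u - t = 0 ∨ p - 2 * u + 2 * t = 0 := by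
  decide

theorem dn5z {p u t : ℤ} (h : (t + 2 * p) % 5 ≠ 0) :
    (p + u + t) % 5 = 0 ∨ (p - u) % 5 = 0 ∨ (t + 2 * u) % 5 = 0 ∨
      (p + 2 * u - t) % 5 = 0 ∨ (p - 2 * u + 2 * t) % 5 = 0 := by
  have h1 := dn5 (p : ZMod 5) (u : ZMod 5) (t : ZMod 5) (by
    intro h2
    apply h
    have : ((t + 2 * p : ℤ) : ZMod 5) = 0 := by push_cast; exact h2
    exact Int.emod_eq_zero_of_dvd ((ZMod.intCast_zmod_eq_zero_iff_dvd _ 5).1 this))
  have key : ∀ z : ℤ, ((z : ℤ) : ZMod 5) = 0 → z % 5 = 0 := fun z hz =>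
    Int.emod_eq_zero_of_dvd ((ZMod.intCast_zmod_eq_zero_iff_dvd _ 5).1 hz)
  rcases h1 with h1 | h1 | h1 | h1 | h1
  · exact Or.inl (key _ (by push_cast; exact h1))
  · exact Or.inr (Or.inl (key _ (by push_cast; exact h1)))
  · exact Or.inr (Or.inr (Or.inl (key _ (by push_cast; exact h1))))
  · exact Or.inr (Or.inr (Or.inr (Or.inl (key _ (by push_cast; exact h1)))))
  · exact Or.inr (Or.inr (Or.inr (Or.inr (key _ (by push_cast; exact h1)))))

/-- One of the five downward steps is integral. -/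
theorem branchDn {N : ℤ} (hN : N % 5 ≠ 0) {x : Vc} {f : Fr} (hf : Known N x f) :
    Known N x (stg 5 f) ∨ Known N x (stg 6 f) ∨ Known N x (stg 7 f) ∨ Known N x (stg 8 f) ∨
      Known N x (stg 9 f) := by
  obtain ⟨hd, y, hy, h1⟩ := hf
  rcases dn5z (u := y.u) (mod5 hN hy) with h | h | h | h | h
  · refine Or.inl (stepG 5 hd hy h1 ?_ ?_ ?_) <;> simp only [G, Mt.app] <;> omega
  · refine Or.inr (Or.inl (stepG 6 hd hy h1 ?_ ?_ ?_)) <;> simp only [G, Mt.app] <;> omega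
  · refine Or.inr (Or.inr (Or.inl (stepG 7 hd hy h1 ?_ ?_ ?_))) <;> simp only [G, Mt.app] <;> omega
  · refine Or.inr (Or.inr (Or.inr (Or.inl (stepG 8 hd hy h1 ?_ ?_ ?_)))) <;>
      simp only [G, Mt.app] <;> omega
  · refine Or.inr (Or.inr (Or.inr (Or.inr (stepG 9 hd hy h1 ?_ ?_ ?_)))) <;>
      simp only [G, Mt.app] <;> omega

end Pool.Agent.helper41.Sun
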