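import Pool.Agent.helper41.Sun.Core

/-!
# The descent at the exceptional directions
-/

namespace Pool.Agent.helper41.Sun

/-- An exceptional direction `(w, u, t)`, with the rotation `(A w + 5 B t, A t - 3 B w) / M` of its
left neighbour `(yw, u, yt)` and the sign `τ`. -/
structure Ed where
  w : ℤ
  u : ℤ
  t : ℤ
  A : ℤ
  B : ℤ
  M : ℤ
  yw : ℤ
  yt : ℤ
  τ : ℤ
deriving DecidableEq

/-- The table of exceptional directions. -/
def table : List Ed := [⟨3, 1, 1, 11, 3, 16, 3, -1, -1⟩, ⟨1, 1, 1, -1, 1, 4, 1, -1, -1⟩,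
  ⟨1, 1, 7, -1, -1, 4, -9, -1, -1⟩, ⟨9, 1, 1, -1, 1, 4, -1, -7, -1⟩,
  ⟨1, 5, 5, -61, 5, 64, 1, -5, -1⟩, ⟨1, 7, 1, -1, 1, 4, 1, -1, -1⟩,
  ⟨1, 5, 17, -1, 1, 4, 21, -5, -1⟩, ⟨21, 5, 5, -1, 1, 4, 1, -17, -1⟩,
  ⟨19, 7, 7, -7, -1, 8, -21, 1, 1⟩, ⟨21, 7, 1, -7, -1, 8, -19, 7, 1⟩,
  ⟨21, 1, 7, 11, 3, 16, 21, -7, -1⟩, ⟨1, 17, 5, -61, 5, 64, 1, -5, -1⟩,
  ⟨1, 1, 5, -61, 5, 64, 1, -5, -1⟩, ⟨1, 5, 1, -1, 1, 4, 1, -1, -1⟩,
  ⟨3, 1, 11, -1, 1, 4, 13, -5, -1⟩, ⟨13, 1, 5, -1, 1, 4, 3, -11, -1⟩,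
  ⟨13, 5, 1, 251, 13, 256, 13, -1, -1⟩, ⟨3, 11, 1, 11, 3, 16, 3, -1, -1⟩,
  ⟨3, 1, 17, 17, -7, 32, -17, 11, 1⟩, ⟨17, 1, 11, 17, -7, 32, -3, 17, 1⟩,
  ⟨3, 13, 11, -1, 1, 4, 13, -5, -1⟩, ⟨17, 11, 1, -1, 1, 4, -3, -13, -1⟩,
  ⟨3, 17, 1, 11, 3, 16, 3, -1, -1⟩, ⟨13, 13, 5, -1, 1, 4, 3, -11, -1⟩,
  ⟨3, 11, 13, -1, -1, 4, -17, -1, -1⟩, ⟨13, 5, 13, -1, 1, 4, 13, -13, -1⟩]

/-- The checks on one entry. -/
def Ed.ok (d : Ed) : Bool :=
  decide (d.w % 2 = 1 ∧ d.u % 2 = 1 ∧ d.t % 2 = 1 ∧ d.A % 2 = 1 ∧ d.B % 2 = 1 ∧ d.yw % 2 = 1 ∧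
    d.yt % 2 = 1 ∧ d.A * d.A + 15 * (d.B * d.B) = d.M * d.M ∧ d.A * d.w + 5 * d.B * d.t = d.M * d.yw ∧
    d.A * d.t - 3 * d.B * d.w = d.M * d.yt ∧ (d.τ = 1 ∨ d.τ = -1) ∧ (d.A * d.M - d.τ) % 3 = 0 ∧
    (d.M = 4 ∨ d.M = 8 ∨ d.M = 16 ∨ d.M = 32 ∨ d.M = 64 ∨ d.M = 128 ∨ d.M = 256) ∧
    0 < d.w ∧ 0 < d.u ∧ 0 < d.t)

/-- Cross product zero modulo `m`. -/
def Cr (m w u t a b c : ℤ) : Prop := m ∣ w * b - u * a ∧ m ∣ u * c - t * b ∧ m ∣ t * a - w * c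

instance (m w u t a b c : ℤ) : Decidable (Cr m w u t a b c) := by unfold Cr; infer_instance

/-- Closeness modulo `32` to another entry forces equality. -/
def Ed.close (d : Ed) : Bool :=
  table.all fun e =>
    (decide (¬ Cr 32 d.yw d.u (d.τ * d.yt) e.w e.u e.t) || decide (d.yw = e.w)) &&
    (decide (¬ Cr 32 (-d.yw) d.u (d.τ * d.yt) e.w e.u e.t) || decide (-d.yw = e.w)) &&
    (decide (¬ Cr 32 d.yw d.u (d.τ * d.yt) e.w e.u e.t) || decide (d.u = e.u ∧ d.τ * d.yt = e.t)) &&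
    (decide (¬ Cr 32 (-d.yw) d.u (d.τ * d.yt) e.w e.u e.t) || decide (d.u = e.u ∧ d.τ * d.yt = e.t))

/-- The swapped entry is in the table. -/
def Ed.swapped (d : Ed) : Bool := table.any fun e => decide (e.w = d.w ∧ e.u = d.t ∧ e.t = d.u)

theorem table_ok : (table.all fun d => d.ok && d.close && d.swapped) = true := by decide +kernel

/-- All solutions with odd coordinates and `u ≡ t mod 3` are near to an exceptional direction. -/
def Near (N : ℤ) (k : ℕ) : Prop :=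
  ∀ w u t : ℤ, 3 * w ^ 2 + 5 * u ^ 2 + 5 * t ^ 2 = N → w % 2 = 1 → u % 2 = 1 → t % 2 = 1 →
    (u - t) % 3 = 0 → ∃ e ∈ table, ∃ σ : ℤ, (σ = 1 ∨ σ = -1) ∧ Cr (2 ^ k) (σ * w) u t e.w e.u e.t

theorem ok_spec {e : Ed} (he : e ∈ table) :
    (e.w % 2 = 1 ∧ e.u % 2 = 1 ∧ e.t % 2 = 1 ∧ e.A % 2 = 1 ∧ e.B % 2 = 1 ∧ e.yw % 2 = 1 ∧
    e.yt % 2 = 1 ∧ e.A * e.A + 15 * (e.B * e.B) = e.M * e.M ∧ e.A * e.w + 5 * e.B * e.t = e.M * e.yw ∧
    e.A * e.t - 3 * e.B * e.w = e.M * e.yt ∧ (e.τ = 1 ∨ e.τ = -1) ∧ (e.A * e.M - e.τ) % 3 = 0 ∧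
    (e.M = 4 ∨ e.M = 8 ∨ e.M = 16 ∨ e.M = 32 ∨ e.M = 64 ∨ e.M = 128 ∨ e.M = 256) ∧
    0 < e.w ∧ 0 < e.u ∧ 0 < e.t) := by
  have h := List.all_eq_true.1 table_ok e he
  simp only [Bool.and_eq_true] at h
  exact of_decide_eq_true h.1.1

theorem close_spec {e e' : Ed} (he : e ∈ table) (he' : e' ∈ table) {σ : ℤ} (hσ : σ = 1 ∨ σ = -1)
    (h : Cr 32 (σ * e.yw) e.u (e.τ * e.yt) e'.w e'.u e'.t) :
    σ * e.yw = e'.w ∧ e.u = e'.u ∧ e.τ * e.yt = e'.t := by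
  have h1 := List.all_eq_true.1 table_ok e he
  simp only [Bool.and_eq_true] at h1
  have h2 := List.all_eq_true.1 h1.1.2 e' he'
  simp only [Bool.and_eq_true, Bool.or_eq_true, decide_eq_true_eq] at h2
  obtain ⟨⟨⟨g1, g2⟩, g3⟩, g4⟩ := h2
  rcases hσ with rfl | rfl
  · rw [one_mul] at h ⊢
    exact ⟨g1.resolve_left (not_not_intro h), g3.resolve_left (not_not_intro h)⟩
  · rw [neg_one_mul] at h ⊢
    exact ⟨g2.resolve_left (not_not_intro h), g4.resolve_left (not_not_intro h)⟩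

theorem swap_spec {e : Ed} (he : e ∈ table) : ∃ e' ∈ table, e'.w = e.w ∧ e'.u = e.t ∧ e'.t = e.u := by
  have h1 := List.all_eq_true.1 table_ok e he
  simp only [Bool.and_eq_true] at h1
  obtain ⟨e', h2, h3⟩ := List.any_eq_true.1 h1.2
  exact ⟨e', h2, of_decide_eq_true h3⟩

theorem isCoprime_two_pow {a : ℤ} (ha : a % 2 = 1) (n : ℕ) : IsCoprime ((2 : ℤ) ^ n) a := by
  apply IsCoprime.pow_left
  obtain ⟨k, hk⟩ : ∃ k, a = 2 * k + 1 := ⟨a / 2, by omega⟩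
  exact ⟨-k, 1, by rw [hk]; ring⟩

theorem dvd_of_odd_mul {m a b : ℤ} (n : ℕ) (hm : m = 2 ^ n) (ha : a % 2 = 1) (h : m ∣ a * b) :
    m ∣ b := by
  subst hm
  exact (isCoprime_two_pow ha n).dvd_of_dvd_mul_left h

/-- Two vectors near to a third one are near to each other. -/
theorem cr_trans {w u t a b c a' b' c' : ℤ} (hu : u % 2 = 1) (h1 : Cr 32 w u t a b c)
    (h2 : Cr 32 w u t a' b' c') : Cr 32 a b c a' b' c' := by
  obtain ⟨h11, h12, h13⟩ := h1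
  obtain ⟨h21, h22, h23⟩ := h2
  have hm : (32 : ℤ) = 2 ^ 5 := by norm_num
  refine ⟨?_, ?_, ?_⟩
  · apply dvd_of_odd_mul 5 hm hu
    obtain ⟨x, hx⟩ := h11
    obtain ⟨y, hy⟩ := h21
    exact ⟨-x * b' + y * b, by linear_combination (-b') * hx + b * hy⟩
  · apply dvd_of_odd_mul 5 hm hu
    obtain ⟨x, hx⟩ := h12
    obtain ⟨y, hy⟩ := h22
    exact ⟨b * y - b' * x, by linear_combination b * hy - b' * hx⟩
  · apply dvd_of_odd_mul 5 hm hu
    apply dvd_of_odd_mul 5 hm hu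
    obtain ⟨x, hx⟩ := h12
    obtain ⟨y, hy⟩ := h22
    obtain ⟨z, hz⟩ := h11
    obtain ⟨v, hv⟩ := h21
    refine ⟨u * x * a' - t * b * v - u * a * y + t * b' * z, ?_⟩
    linear_combination (u * a') * hx - (t * b) * hv - (u * a) * hy + (t * b') * hz

theorem M_pow {e : Ed} (he : e ∈ table) : ∃ n : ℕ, e.M = 2 ^ n ∧ n ≤ 8 ∧ 2 ≤ n := by
  rcases (ok_spec he).2.2.2.2.2.2.2.2.2.2.2.2.1 with h | h | h | h | h | h | h
  · exact ⟨2, by rw [h]; norm_num, by norm_num, by norm_num⟩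
  · exact ⟨3, by rw [h]; norm_num, by norm_num, by norm_num⟩
  · exact ⟨4, by rw [h]; norm_num, by norm_num, by norm_num⟩
  · exact ⟨5, by rw [h]; norm_num, by norm_num, by norm_num⟩
  · exact ⟨6, by rw [h]; norm_num, by norm_num, by norm_num⟩
  · exact ⟨7, by rw [h]; norm_num, by norm_num, by norm_num⟩
  · exact ⟨8, by rw [h]; norm_num, by norm_num, by norm_num⟩

theorem odd_of_mul_odd {a b : ℤ} (h : a * b % 2 = 1) : b % 2 = 1 := by
  rcases Int.even_or_odd b with ⟨k, hk⟩ | ⟨k, hk⟩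
  · exfalso
    rw [hk] at h
    have : a * (k + k) = 2 * (a * k) := by ring
    omega
  · omega

theorem odd_mul_odd {a b : ℤ} (ha : a % 2 = 1) (hb : b % 2 = 1) : a * b % 2 = 1 := by
  obtain ⟨i, hi⟩ : ∃ i, a = 2 * i + 1 := ⟨a / 2, by omega⟩
  obtain ⟨j, hj⟩ : ∃ j, b = 2 * j + 1 := ⟨b / 2, by omega⟩
  have : a * b = 2 * (2 * i * j + i + j) + 1 := by rw [hi, hj]; ring
  omega

theorem left_step {N : ℤ} {k : ℕ} (hk : 13 ≤ k) (hP : Near N k) {w u t : ℤ}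
    (hs : 3 * w ^ 2 + 5 * u ^ 2 + 5 * t ^ 2 = N) (hu : u % 2 = 1)
    (hut : (u - t) % 3 = 0) {e : Ed} (he : e ∈ table) (hc : Cr (2 ^ k) w u t e.w e.u e.t) :
    (2 : ℤ) ^ (k + 1) ∣ e.A * (u * e.t - t * e.u) + 3 * e.B * (w * e.u - u * e.w) := by
  obtain ⟨ew, eu, et, eA, eB, eyw, eyt, hn, h1, h2, hτ, h3, -, -, -, -⟩ := ok_spec he
  obtain ⟨n, hM, hn8, hn2⟩ := M_pow he
  obtain ⟨hc3, hc1, -⟩ := hc
  have hMpos : (0 : ℤ) < e.M := by rw [hM]; positivity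
  have hMdvd : e.M * 32 ∣ (2 : ℤ) ^ k := by
    rw [hM, show (32 : ℤ) = 2 ^ 5 by norm_num, ← pow_add]
    exact pow_dvd_pow 2 (by omega)
  -- integrality
  have hY1 : e.M ∣ e.A * w + 5 * e.B * t := by
    apply dvd_of_odd_mul n hM eu
    have : e.u * (e.A * w + 5 * e.B * t) = e.A * (w * e.u - u * e.w) -
        5 * e.B * (u * e.t - t * e.u) + e.M * (u * e.yw) := by linear_combination u * h1
    rw [this]
    have hMk : e.M ∣ (2 : ℤ) ^ k := (Dvd.intro _ rfl).trans hMdvd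
    exact dvd_add (dvd_sub ((hMk.trans hc3).mul_left _) ((hMk.trans hc1).mul_left _))
      (Dvd.intro _ rfl)
  have hY2 : e.M ∣ e.A * t - 3 * e.B * w := by
    apply dvd_of_odd_mul n hM eu
    have : e.u * (e.A * t - 3 * e.B * w) = -(e.A * (u * e.t - t * e.u)) -
        3 * e.B * (w * e.u - u * e.w) + e.M * (u * e.yt) := by linear_combination u * h2
    rw [this]
    have hMk : e.M ∣ (2 : ℤ) ^ k := (Dvd.intro _ rfl).trans hMdvd
    exact dvd_add (dvd_sub ((hMk.trans hc1).mul_left _).neg_right ((hMk.trans hc3).mul_left _))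
      (Dvd.intro _ rfl)
  obtain ⟨Yw, hYw⟩ := hY1
  obtain ⟨Yt, hYt⟩ := hY2
  have e1 : e.M * (e.u * Yw - u * e.yw) = e.A * (w * e.u - u * e.w) -
      5 * e.B * (u * e.t - t * e.u) := by linear_combination (-e.u) * hYw + u * h1
  have e2 : e.M * (u * e.yt - Yt * e.u) = e.A * (u * e.t - t * e.u) +
      3 * e.B * (w * e.u - u * e.w) := by linear_combination e.u * hYt - u * h2
  have c1 : (32 : ℤ) ∣ e.u * Yw - u * e.yw := by
    have : e.M * 32 ∣ e.M * (e.u * Yw - u * e.yw) := by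
      rw [e1]
      exact hMdvd.trans (dvd_sub (hc3.mul_left _) (hc1.mul_left _))
    exact (mul_dvd_mul_iff_left (ne_of_gt hMpos)).1 this
  have c2 : (32 : ℤ) ∣ u * e.yt - Yt * e.u := by
    have : e.M * 32 ∣ e.M * (u * e.yt - Yt * e.u) := by
      rw [e2]
      exact hMdvd.trans (dvd_add (hc1.mul_left _) (hc3.mul_left _))
    exact (mul_dvd_mul_iff_left (ne_of_gt hMpos)).1 this
  have oYw : Yw % 2 = 1 := by
    apply odd_of_mul_odd (a := e.u)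
    have := odd_mul_odd hu eyw
    omega
  have oYt : Yt % 2 = 1 := by
    apply odd_of_mul_odd (a := e.u)
    have := odd_mul_odd hu eyt
    have h5 : Yt * e.u = e.u * Yt := mul_comm _ _
    omega
  -- the new solution
  have hsol : 3 * Yw ^ 2 + 5 * u ^ 2 + 5 * (e.τ * Yt) ^ 2 = N := by
    have hτ2 : e.τ ^ 2 = 1 := by rcases hτ with h | h <;> rw [h] <;> norm_num
    have h6 : e.M ^ 2 * (3 * Yw ^ 2 + 5 * Yt ^ 2) = e.M ^ 2 * (3 * w ^ 2 + 5 * t ^ 2) := by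
      have h7 : e.M ^ 2 * (3 * Yw ^ 2 + 5 * Yt ^ 2) = 3 * (e.M * Yw) ^ 2 + 5 * (e.M * Yt) ^ 2 := by
        ring
      rw [h7, ← hYw, ← hYt]
      linear_combination (3 * w ^ 2 + 5 * t ^ 2) * hn
    have h8 := mul_left_cancel₀ (pow_ne_zero 2 (ne_of_gt hMpos)) h6
    rw [mul_pow, hτ2, one_mul]
    linarith
  have hmod : (u - e.τ * Yt) % 3 = 0 := by
    have z1 : ((e.A * e.M - e.τ : ℤ) : ZMod 3) = 0 :=
      (ZMod.intCast_zmod_eq_zero_iff_dvd _ 3).2 (Int.dvd_of_emod_eq_zero h3)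
    have z2 : ((u - t : ℤ) : ZMod 3) = 0 :=
      (ZMod.intCast_zmod_eq_zero_iff_dvd _ 3).2 (Int.dvd_of_emod_eq_zero hut)
    have z3 : ((e.A * t - 3 * e.B * w : ℤ) : ZMod 3) = ((e.M * Yt : ℤ) : ZMod 3) := by rw [hYt]
    have z4 : (e.M : ZMod 3) ^ 2 = 1 := by
      rw [hM]
      push_cast
      have : (2 : ZMod 3) ^ 2 = 1 := by decide
      rw [← pow_mul, mul_comm, pow_mul, this, one_pow]
    have z5 : (3 : ZMod 3) = 0 := by decide
    have z6 : (e.τ : ZMod 3) ^ 2 = 1 := by rcases hτ with h | h <;> rw [h] <;> decide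
    push_cast at z1 z2 z3
    rw [z5] at z3
    have z7 : ((u - e.τ * Yt : ℤ) : ZMod 3) = 0 := by
      push_cast
      linear_combination z2 - (t : ZMod 3) * z6 - (e.τ : ZMod 3) * t * z1 +
        (e.τ : ZMod 3) * (e.M : ZMod 3) * z3 + (e.τ : ZMod 3) * Yt * z4
    exact Int.emod_eq_zero_of_dvd ((ZMod.intCast_zmod_eq_zero_iff_dvd _ 3).1 z7)
  have oτ : e.τ * Yt % 2 = 1 := by
    rcases hτ with h | h <;> rw [h] <;> omega
  obtain ⟨e', he', σ, hσ, hcr⟩ := hP Yw u (e.τ * Yt) hsol oYw hu oτ hmod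
  have h32 : (32 : ℤ) ∣ 2 ^ k := by
    rw [show (32 : ℤ) = 2 ^ 5 by norm_num]
    exact pow_dvd_pow 2 (by omega)
  have hcr1 : Cr 32 (σ * Yw) u (e.τ * Yt) e'.w e'.u e'.t :=
    ⟨h32.trans hcr.1, h32.trans hcr.2.1, h32.trans hcr.2.2⟩
  have hcr2 : Cr 32 (σ * Yw) u (e.τ * Yt) (σ * e.yw) e.u (e.τ * e.yt) := by
    have q1 : (32 : ℤ) ∣ σ * Yw * e.u - u * (σ * e.yw) := by
      have : σ * Yw * e.u - u * (σ * e.yw) = σ * (e.u * Yw - u * e.yw) := by ring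
      rw [this]; exact c1.mul_left _
    have q2 : (32 : ℤ) ∣ u * (e.τ * e.yt) - e.τ * Yt * e.u := by
      have : u * (e.τ * e.yt) - e.τ * Yt * e.u = e.τ * (u * e.yt - Yt * e.u) := by ring
      rw [this]; exact c2.mul_left _
    refine ⟨q1, q2, ?_⟩
    apply dvd_of_odd_mul 5 (by norm_num) eu
    have : e.u * (e.τ * Yt * (σ * e.yw) - σ * Yw * (e.τ * e.yt)) =
        -(σ * e.yw) * (u * (e.τ * e.yt) - e.τ * Yt * e.u) -
        (e.τ * e.yt) * (σ * Yw * e.u - u * (σ * e.yw)) := by ring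
    rw [this]
    exact dvd_sub (q2.mul_left _) (q1.mul_left _)
  obtain ⟨-, f2, f3⟩ := close_spec he he' hσ (cr_trans hu hcr2 hcr1)
  have h9 := hcr.2.1
  rw [← f2, ← f3] at h9
  have h10 : (2 : ℤ) ^ k ∣ u * e.yt - Yt * e.u := by
    have : u * (e.τ * e.yt) - e.τ * Yt * e.u = e.τ * (u * e.yt - Yt * e.u) := by ring
    rw [this] at h9
    rcases hτ with h | h
    · rw [h, one_mul] at h9; exact h9
    · rw [h, neg_one_mul] at h9; exact (dvd_neg.1 h9)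
  rw [← e2, pow_succ, mul_comm]
  have h11 : (2 : ℤ) ∣ e.M := by
    rw [hM]; exact dvd_pow_self 2 (by omega)
  exact mul_dvd_mul h11 h10

theorem near_succ {N : ℤ} {k : ℕ} (hk : 13 ≤ k) (hP : Near N k) : Near N (k + 1) := by
  intro w u t hs hw hu ht hut
  obtain ⟨e, he, σ, hσ, hc⟩ := hP w u t hs hw hu ht hut
  refine ⟨e, he, σ, hσ, ?_⟩
  have hσ2 : σ ^ 2 = 1 := by rcases hσ with h | h <;> rw [h] <;> norm_num
  have hs1 : 3 * (σ * w) ^ 2 + 5 * u ^ 2 + 5 * t ^ 2 = N := by rw [mul_pow, hσ2, one_mul]; exact hs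
  have hs2 : 3 * (σ * w) ^ 2 + 5 * t ^ 2 + 5 * u ^ 2 = N := by linarith
  have k1 := left_step hk hP hs1 hu hut he hc
  obtain ⟨e', he', g1, g2, g3⟩ := swap_spec he
  obtain ⟨ew, eu, et, eA, eB, -⟩ := ok_spec he
  obtain ⟨-, -, -, eA', eB', -⟩ := ok_spec he'
  have hc' : Cr (2 ^ k) (σ * w) t u e'.w e'.u e'.t := by
    rw [g1, g2, g3]
    obtain ⟨c1, c2, c3⟩ := hc
    refine ⟨?_, ?_, ?_⟩
    · have : σ * w * e.t - t * e.w = -(t * e.w - σ * w * e.t) := by ring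
      rw [this]; exact c3.neg_right
    · have : t * e.u - u * e.t = -(u * e.t - t * e.u) := by ring
      rw [this]; exact c2.neg_right
    · have : u * e.w - σ * w * e.u = -(σ * w * e.u - u * e.w) := by ring
      rw [this]; exact c1.neg_right
  have k2 := left_step hk hP hs2 ht (by omega) he' hc'
  rw [g1, g2, g3] at k2
  obtain ⟨⟨a3, c3⟩, ⟨a1, c1⟩, ⟨a2, c2⟩⟩ := hc
  have hpos : (2 : ℤ) ^ k ≠ 0 := by positivity
  have l1 : (2 : ℤ) ∣ e.A * a1 + 3 * e.B * a3 := by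
    rw [c1, c3, pow_succ] at k1
    have : e.A * (2 ^ k * a1) + 3 * e.B * (2 ^ k * a3) = 2 ^ k * (e.A * a1 + 3 * e.B * a3) := by ring
    rw [this] at k1
    exact (mul_dvd_mul_iff_left hpos).1 k1
  have l2 : (2 : ℤ) ∣ e'.A * a1 + 3 * e'.B * a2 := by
    have e3 : t * e.u - u * e.t = -(2 ^ k * a1) := by rw [← c1]; ring
    have e4 : σ * w * e.t - t * e.w = -(2 ^ k * a2) := by rw [← c2]; ring
    rw [e3, e4, pow_succ] at k2
    have : e'.A * -(2 ^ k * a1) + 3 * e'.B * -(2 ^ k * a2) =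
      2 ^ k * -(e'.A * a1 + 3 * e'.B * a2) := by ring
    rw [this] at k2
    exact dvd_neg.1 ((mul_dvd_mul_iff_left hpos).1 k2)
  have l3 : e.w * a1 + e.u * a2 + e.t * a3 = 0 := by
    have : (2 : ℤ) ^ k * (e.w * a1 + e.u * a2 + e.t * a3) = 0 := by
      linear_combination (-e.w) * c1 - e.u * c2 - e.t * c3
    rcases mul_eq_zero.1 this with h | h
    · exact absurd h hpos
    · exact h
  -- parities
  have par : ∀ a x : ℤ, a % 2 = 1 → (a * x) % 2 = x % 2 := by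
    intro a x ha
    obtain ⟨i, hi⟩ : ∃ i, a = 2 * i + 1 := ⟨a / 2, by omega⟩
    have : a * x = 2 * (i * x) + x := by rw [hi]; ring
    omega
  have p1 := par e.A a1 eA
  have p2 := par e.B a3 eB
  have p3 := par e'.A a1 eA'
  have p4 := par e'.B a2 eB'
  have p5 := par e.w a1 ew
  have p6 := par e.u a2 eu
  have p7 := par e.t a3 et
  have p8 : 3 * e.B * a3 = 3 * (e.B * a3) := by ring
  have p9 : 3 * e'.B * a2 = 3 * (e'.B * a2) := by ring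
  have q1 : a1 % 2 = 0 ∧ a2 % 2 = 0 ∧ a3 % 2 = 0 := by omega
  rw [pow_succ]
  refine ⟨?_, ?_, ?_⟩
  · rw [c3]; exact mul_dvd_mul_left _ (Int.dvd_of_emod_eq_zero q1.2.2)
  · rw [c1]; exact mul_dvd_mul_left _ (Int.dvd_of_emod_eq_zero q1.1)
  · rw [c2]; exact mul_dvd_mul_left _ (Int.dvd_of_emod_eq_zero q1.2.1)

theorem near_all {N : ℤ} (hP : Near N 13) (j : ℕ) : Near N (13 + j) := by
  induction j with
  | zero => exact hP
  | succ j ih => exact near_succ (Nat.le_add_right 13 j) ih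

theorem table_bound : ∀ e ∈ table, e.w ≤ 21 ∧ e.u ≤ 21 ∧ e.t ≤ 21 := by decide +kernel

/-- If all solutions are near to an exceptional direction, they are proportional to one. -/
theorem on_axis {N : ℤ} (hP : Near N 13) {w u t : ℤ}
    (hs : 3 * w ^ 2 + 5 * u ^ 2 + 5 * t ^ 2 = N) (hw : w % 2 = 1) (hu : u % 2 = 1) (ht : t % 2 = 1)
    (hut : (u - t) % 3 = 0) :
    ∃ e ∈ table, ∃ σ : ℤ, (σ = 1 ∨ σ = -1) ∧ σ * w * e.u = u * e.w ∧ u * e.t = t * e.u ∧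
      t * e.w = σ * w * e.t := by
  set b : ℤ := 42 * (|w| + |u| + |t|) with hb
  have hb0 : 0 ≤ b := by positivity
  obtain ⟨e, he, σ, hσ, c1, c2, c3⟩ := near_all hP b.toNat w u t hs hw hu ht hut
  obtain ⟨b1, b2, b3⟩ := table_bound e he
  have hpos := (ok_spec he).2.2.2.2.2.2.2.2.2.2.2.2.2
  have big : b < (2 : ℤ) ^ (13 + b.toNat) := by
    have h1 : b.toNat < 2 ^ b.toNat := Nat.lt_two_pow_self
    have h2 : (b.toNat : ℤ) = b := Int.toNat_of_nonneg hb0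
    have h3 : ((b.toNat : ℕ) : ℤ) < (2 : ℤ) ^ b.toNat := by exact_mod_cast h1
    have h4 : (2 : ℤ) ^ b.toNat ≤ 2 ^ (13 + b.toNat) := pow_le_pow_right₀ (by norm_num) (by omega)
    linarith
  have hσa : |σ| = 1 := by rcases hσ with h | h <;> rw [h] <;> norm_num
  have key : ∀ x y p q : ℤ, 0 < p → p ≤ 21 → 0 < q → q ≤ 21 → |x| + |y| ≤ |w| + |u| + |t| →
      (2 : ℤ) ^ (13 + b.toNat) ∣ x * p - y * q → x * p = y * q := by
    intro x y p q hp hp' hq hq' hxy hd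
    have h1 : |x * p - y * q| ≤ b := by
      have h2 : |x * p - y * q| ≤ |x * p| + |y * q| := abs_sub _ _
      rw [abs_mul, abs_mul, abs_of_pos hp, abs_of_pos hq] at h2
      have h3 : |x| * p ≤ |x| * 21 := mul_le_mul_of_nonneg_left hp' (abs_nonneg x)
      have h4 : |y| * q ≤ |y| * 21 := mul_le_mul_of_nonneg_left hq' (abs_nonneg y)
      have h5 : 0 ≤ |w| + |u| + |t| := by positivity
      linarith
    have h2 := Int.eq_zero_of_abs_lt_dvd hd (lt_of_le_of_lt h1 big)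
    linarith
  refine ⟨e, he, σ, hσ, ?_, ?_, ?_⟩
  · refine key (σ * w) u e.u e.w hpos.2.1 b2 hpos.1 b1 ?_ c1
    rw [abs_mul, hσa, one_mul]; linarith [abs_nonneg t]
  · refine key u t e.t e.u hpos.2.2 b3 hpos.2.1 b2 ?_ c2
    linarith [abs_nonneg w]
  · refine key t (σ * w) e.w e.t hpos.1 b1 hpos.2.2 b3 ?_ c3
    rw [abs_mul, hσa, one_mul]; linarith [abs_nonneg u]

end Pool.Agent.helper41.Sun
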