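import Pool.Agent.helper41.Sun.Tree

/-!
# Evaluation of the checker
-/

namespace Pool.Agent.helper41.Sun

/-- The exceptional directions, in coordinates `(p, u, t)`. -/
def elist : List Vc := [⟨1, 1, 1⟩, ⟨-2, 1, 1⟩, ⟨0, 1, 1⟩, ⟨-1, 1, 1⟩, ⟨-3, 1, 7⟩, ⟨-4, 1, 7⟩,
  ⟨4, 1, 1⟩, ⟨-5, 1, 1⟩, ⟨-2, 5, 5⟩, ⟨-3, 5, 5⟩, ⟨0, 7, 1⟩, ⟨-1, 7, 1⟩,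
  ⟨-8, 5, 17⟩, ⟨-9, 5, 17⟩, ⟨8, 5, 5⟩, ⟨-13, 5, 5⟩, ⟨6, 7, 7⟩, ⟨-13, 7, 7⟩,
  ⟨10, 7, 1⟩, ⟨-11, 7, 1⟩, ⟨7, 1, 7⟩, ⟨-14, 1, 7⟩, ⟨-2, 17, 5⟩, ⟨-3, 17, 5⟩,
  ⟨-2, 1, 5⟩, ⟨-3, 1, 5⟩, ⟨0, 5, 1⟩, ⟨-1, 5, 1⟩, ⟨-4, 1, 11⟩, ⟨-7, 1, 11⟩,
  ⟨4, 1, 5⟩, ⟨-9, 1, 5⟩, ⟨6, 5, 1⟩, ⟨-7, 5, 1⟩, ⟨1, 11, 1⟩, ⟨-2, 11, 1⟩,
  ⟨-7, 1, 17⟩, ⟨-10, 1, 17⟩, ⟨3, 1, 11⟩, ⟨-14, 1, 11⟩, ⟨-4, 13, 11⟩, ⟨-7, 13, 11⟩,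
  ⟨8, 11, 1⟩, ⟨-9, 11, 1⟩, ⟨1, 17, 1⟩, ⟨-2, 17, 1⟩, ⟨4, 13, 5⟩, ⟨-9, 13, 5⟩,
  ⟨-5, 11, 13⟩, ⟨-8, 11, 13⟩, ⟨0, 5, 13⟩, ⟨-13, 5, 13⟩]

/-- Exceptional direction number `n`. -/
def eget : List Vc → ℕ → Vc
  | [], _ => ⟨1, 1, 1⟩
  | a :: _, 0 => a
  | _ :: l, n + 1 => eget l n

theorem check_T : check (eget elist) T [stp 0 frid, frid] [⟨2, 0, 1⟩, ⟨0, 1, 0⟩, ⟨0, 0, 1⟩] = true := by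
  decide +kernel

end Pool.Agent.helper41.Sun
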