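import Pool.Agent.helper41.Sun.Ankeny

/-!
# From `a^2 + b^2 + 3 w^2` to `3 w^2 + 5 u^2 + 5 t^2`
-/

namespace Pool.Agent.helper41.Sun

theorem move (a w : ℤ) (ha : a % 2 = 1) (hw : w % 2 = 1) :
    ∃ a' w' ε : ℤ, a' % 2 = 1 ∧ w' % 2 = 1 ∧ (ε = 1 ∨ ε = -1) ∧ 2 * a' = a + 3 * ε * w ∧
      2 * w' = a - ε * w ∧ a' ^ 2 + 3 * w' ^ 2 = a ^ 2 + 3 * w ^ 2 := by
  rcases (show (a - w) % 4 = 2 ∨ (a - w) % 4 = 0 by omega) with h | h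
  · obtain ⟨k, hk⟩ : ∃ k, a - w = 2 * (2 * k + 1) := ⟨(a - w) / 4, by omega⟩
    have ha' : a = w + 4 * k + 2 := by linarith
    refine ⟨2 * k + 1 + 2 * w, 2 * k + 1, 1, by omega, by omega, Or.inl rfl, by linarith,
      by linarith, ?_⟩
    rw [ha']; ring
  · obtain ⟨k, hk⟩ : ∃ k, a + w = 2 * (2 * k + 1) := ⟨(a + w) / 4, by omega⟩
    have ha' : a = -w + 4 * k + 2 := by linarith
    refine ⟨2 * k + 1 - 2 * w, 2 * k + 1, -1, by omega, by omega, Or.inr rfl, by linarith,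
      by linarith, ?_⟩
    rw [ha']; ring

theorem z5_cases : ∀ a b w : ZMod 5, (a ^ 2 + b ^ 2 + 3 * w ^ 2 = 2 ∨ a ^ 2 + b ^ 2 + 3 * w ^ 2 = 3) →
    a ^ 2 + b ^ 2 = 0 ∨ (a = 0 ∨ w = 0) ∨ (b = 0 ∨ w = 0) := by decide +kernel

theorem z5_move' : ∀ a b w ε : ZMod 5, (ε = 1 ∨ ε = -1) →
    (a ^ 2 + b ^ 2 + 3 * w ^ 2 = 2 ∨ a ^ 2 + b ^ 2 + 3 * w ^ 2 = 3) → a ^ 2 + b ^ 2 ≠ 0 →
    (a = 0 ∨ w = 0) → (3 * (a + 3 * ε * w)) ^ 2 + b ^ 2 = 0 := by decide +kernel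

theorem z5_half : ∀ a x : ZMod 5, 2 * a = x → a = 3 * x := by decide +kernel

theorem z5_move (a b w a' ε : ZMod 5) (h1 : ε = 1 ∨ ε = -1) (h2 : 2 * a' = a + 3 * ε * w)
    (h3 : a ^ 2 + b ^ 2 + 3 * w ^ 2 = 2 ∨ a ^ 2 + b ^ 2 + 3 * w ^ 2 = 3) (h4 : a ^ 2 + b ^ 2 ≠ 0)
    (h5 : a = 0 ∨ w = 0) : a' ^ 2 + b ^ 2 = 0 := by
  rw [z5_half _ _ h2]
  exact z5_move' a b w ε h1 h3 h4 h5

theorem z5_final : ∀ a b : ZMod 5, a ^ 2 + b ^ 2 = 0 → b - 2 * a = 0 ∨ -b - 2 * a = 0 := by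
  decide +kernel

theorem final5 {a b : ℤ} (ha : a % 2 = 1) (hb : b % 2 = 1)
    (h : (a : ZMod 5) ^ 2 + (b : ZMod 5) ^ 2 = 0) :
    ∃ u t δ : ℤ, u % 2 = 1 ∧ t % 2 = 1 ∧ (δ = 1 ∨ δ = -1) ∧ 5 * u ^ 2 + 5 * t ^ 2 = a ^ 2 + b ^ 2 ∧
      a = u + 2 * t ∧ δ * b = 2 * u - t := by
  obtain ⟨δ, hδ, hd⟩ : ∃ δ : ℤ, (δ = 1 ∨ δ = -1) ∧ (5 : ℤ) ∣ δ * b - 2 * a := by
    rcases z5_final _ _ h with h1 | h1
    · refine ⟨1, Or.inl rfl, (ZMod.intCast_zmod_eq_zero_iff_dvd (1 * b - 2 * a) 5).1 ?_⟩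
      push_cast
      rw [one_mul]
      exact h1
    · refine ⟨-1, Or.inr rfl, (ZMod.intCast_zmod_eq_zero_iff_dvd (-1 * b - 2 * a) 5).1 ?_⟩
      push_cast
      rw [neg_one_mul]
      exact h1
  obtain ⟨k, hk⟩ := hd
  have hb2 : b ^ 2 = (δ * b) ^ 2 := by rcases hδ with rfl | rfl <;> ring
  have hδb : (δ * b) % 2 = 1 := by rcases hδ with rfl | rfl <;> omega
  have e1 : δ * b = 2 * a + 5 * k := by linarith
  refine ⟨a + 2 * k, -k, δ, by omega, by omega, hδ, ?_, by ring, by rw [e1]; ring⟩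
  rw [hb2, e1]; ring

theorem sign3 {u t : ℤ} (h : (u ^ 2 + t ^ 2) % 3 = 2) :
    ∃ t' : ℤ, (t' = t ∨ t' = -t) ∧ (u - t') % 3 = 0 := by
  have h1 : u * u % 3 = (u % 3) * (u % 3) % 3 := Int.mul_emod u u 3
  have h2 : t * t % 3 = (t % 3) * (t % 3) % 3 := Int.mul_emod t t 3
  have e : u ^ 2 + t ^ 2 = u * u + t * t := by ring
  rw [e] at h
  have hu3 : u % 3 = 0 ∨ u % 3 = 1 ∨ u % 3 = 2 := by omega
  have ht3 : t % 3 = 0 ∨ t % 3 = 1 ∨ t % 3 = 2 := by omega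
  rcases hu3 with a | a | a <;> rcases ht3 with b | b | b <;> rw [a] at h1 <;> rw [b] at h2 <;>
    first
    | (exfalso; omega)
    | exact ⟨t, Or.inl rfl, by omega⟩
    | exact ⟨-t, Or.inr rfl, by omega⟩

theorem partB_aux {N : ℤ} (h3 : N % 3 = 1) {a b w : ℤ} (ha : a % 2 = 1) (hb : b % 2 = 1)
    (h : N = a ^ 2 + b ^ 2 + 3 * w ^ 2) (h0 : (a : ZMod 5) ^ 2 + (b : ZMod 5) ^ 2 = 0) :
    ∃ u t : ℤ, u % 2 = 1 ∧ t % 2 = 1 ∧ 3 * w ^ 2 + 5 * u ^ 2 + 5 * t ^ 2 = N ∧ (u - t) % 3 = 0 ∧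
      ∀ p : ℤ, p ∣ u → p ∣ t → p ∣ a ∧ p ∣ b := by
  obtain ⟨u, t, δ, hu, ht, hδ, e1, e2, e3⟩ := final5 ha hb h0
  have hN : N = 3 * w ^ 2 + 5 * u ^ 2 + 5 * t ^ 2 := by rw [h]; linarith
  have h2 : (u ^ 2 + t ^ 2) % 3 = 2 := by
    have : N = 3 * (w ^ 2 + 2 * (u ^ 2 + t ^ 2)) - (u ^ 2 + t ^ 2) := by rw [hN]; ring
    omega
  obtain ⟨t', ht', h4⟩ := sign3 h2
  refine ⟨u, t', hu, ?_, ?_, h4, ?_⟩
  · rcases ht' with h5 | h5 <;> rw [h5] <;> omega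
  · rw [hN]
    rcases ht' with h5 | h5 <;> rw [h5] <;> ring
  · intro p d1 d2
    have d3 : p ∣ t := by
      rcases ht' with h5 | h5
      · rw [← h5]; exact d2
      · have : t = -t' := by rw [h5]; ring
        rw [this]; exact d2.neg_right
    refine ⟨?_, ?_⟩
    · rw [e2]; exact dvd_add d1 (d3.mul_left 2)
    · have : b = δ * (2 * u - t) := by
        rw [← e3]; rcases hδ with h5 | h5 <;> rw [h5] <;> ring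
      rw [this]
      exact (dvd_sub (d1.mul_left 2) d3).mul_left _

theorem partB_aux2 {N : ℤ} (h5 : N % 5 = 2 ∨ N % 5 = 3) (h3 : N % 3 = 1) {a b w : ℤ}
    (ha : a % 2 = 1) (hb : b % 2 = 1) (hw : w % 2 = 1)
    (h : N = a ^ 2 + b ^ 2 + 3 * w ^ 2) (h0 : (a : ZMod 5) ^ 2 + (b : ZMod 5) ^ 2 ≠ 0)
    (h1 : (a : ZMod 5) = 0 ∨ (w : ZMod 5) = 0) :
    ∃ w' u t : ℤ, w' % 2 = 1 ∧ u % 2 = 1 ∧ t % 2 = 1 ∧ 3 * w' ^ 2 + 5 * u ^ 2 + 5 * t ^ 2 = N ∧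
      (u - t) % 3 = 0 ∧
      ∀ p : ℤ, Prime p → ¬ p ∣ 2 → p ∣ w' → p ∣ u → p ∣ t → p ∣ a ∧ p ∣ b ∧ p ∣ w := by
  obtain ⟨a', w', ε, ha', hw', hε, e1, e2, e3⟩ := move a w ha hw
  have hz : ((a : ZMod 5) ^ 2 + (b : ZMod 5) ^ 2 + 3 * (w : ZMod 5) ^ 2 = 2 ∨
      (a : ZMod 5) ^ 2 + (b : ZMod 5) ^ 2 + 3 * (w : ZMod 5) ^ 2 = 3) := by
    have e : (a : ZMod 5) ^ 2 + (b : ZMod 5) ^ 2 + 3 * (w : ZMod 5) ^ 2 = ((N : ℤ) : ZMod 5) := by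
      rw [h]; push_cast; ring
    rw [e]
    rcases h5 with h6 | h6
    · left
      have : ((2 : ℤ) : ZMod 5) = 2 := by norm_num
      rw [← this, ZMod.intCast_eq_intCast_iff]
      exact h6
    · right
      have : ((3 : ℤ) : ZMod 5) = 3 := by norm_num
      rw [← this, ZMod.intCast_eq_intCast_iff]
      exact h6
  have hε' : ((ε : ℤ) : ZMod 5) = 1 ∨ ((ε : ℤ) : ZMod 5) = -1 := by
    rcases hε with rfl | rfl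
    · left; norm_num
    · right; norm_num
  have h2' : 2 * ((a' : ℤ) : ZMod 5) = (a : ZMod 5) + 3 * ((ε : ℤ) : ZMod 5) * (w : ZMod 5) := by
    have := congrArg (fun z : ℤ => (z : ZMod 5)) e1
    push_cast at this
    exact this
  have h0' := z5_move _ _ _ _ _ hε' h2' hz h0 h1
  obtain ⟨u, t, hu, ht, g1, g2, g3⟩ := partB_aux (N := N) (w := w') h3 ha' hb (by linarith) h0'
  refine ⟨w', u, t, hw', hu, ht, g1, g2, ?_⟩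
  intro p hp hp2 d1 d2 d3
  obtain ⟨d4, d5⟩ := g3 p d2 d3
  have hp4 : ∀ z : ℤ, p ∣ 4 * z → p ∣ z := by
    intro z hz
    have : (4 : ℤ) * z = 2 * (2 * z) := by ring
    rw [this] at hz
    rcases hp.dvd_or_dvd hz with h6 | h6
    · exact absurd h6 hp2
    · rcases hp.dvd_or_dvd h6 with h7 | h7
      · exact absurd h7 hp2
      · exact h7
  refine ⟨?_, d5, ?_⟩
  · apply hp4
    have : 4 * a = 2 * a' + 6 * w' := by linarith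
    rw [this]
    exact dvd_add (d4.mul_left 2) (d1.mul_left 6)
  · apply hp4
    have : 4 * w = ε * (2 * a' - 2 * w') := by
      rcases hε with h6 | h6 <;> rw [h6] at e1 e2 ⊢ <;> linarith
    rw [this]
    exact (dvd_sub (d4.mul_left 2) (d1.mul_left 2)).mul_left _

theorem partB {N : ℤ} (h5 : N % 5 = 2 ∨ N % 5 = 3) (h3 : N % 3 = 1) {a b w : ℤ}
    (ha : a % 2 = 1) (hb : b % 2 = 1) (hw : w % 2 = 1)
    (h : N = a ^ 2 + b ^ 2 + 3 * w ^ 2) :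
    ∃ w' u t : ℤ, w' % 2 = 1 ∧ u % 2 = 1 ∧ t % 2 = 1 ∧ 3 * w' ^ 2 + 5 * u ^ 2 + 5 * t ^ 2 = N ∧
      (u - t) % 3 = 0 ∧
      ∀ p : ℤ, Prime p → ¬ p ∣ 2 → p ∣ w' → p ∣ u → p ∣ t → p ∣ a ∧ p ∣ b ∧ p ∣ w := by
  have hz : ((a : ZMod 5) ^ 2 + (b : ZMod 5) ^ 2 + 3 * (w : ZMod 5) ^ 2 = 2 ∨
      (a : ZMod 5) ^ 2 + (b : ZMod 5) ^ 2 + 3 * (w : ZMod 5) ^ 2 = 3) := by
    have e : (a : ZMod 5) ^ 2 + (b : ZMod 5) ^ 2 + 3 * (w : ZMod 5) ^ 2 = ((N : ℤ) : ZMod 5) := by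
      rw [h]; push_cast; ring
    rw [e]
    rcases h5 with h6 | h6
    · left
      have : ((2 : ℤ) : ZMod 5) = 2 := by norm_num
      rw [← this, ZMod.intCast_eq_intCast_iff]
      exact h6
    · right
      have : ((3 : ℤ) : ZMod 5) = 3 := by norm_num
      rw [← this, ZMod.intCast_eq_intCast_iff]
      exact h6
  by_cases h0 : (a : ZMod 5) ^ 2 + (b : ZMod 5) ^ 2 = 0
  · obtain ⟨u, t, hu, ht, g1, g2, g3⟩ := partB_aux (N := N) (w := w) h3 ha hb h h0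
    exact ⟨w, u, t, hw, hu, ht, g1, g2, fun p _ _ d1 d2 d3 => ⟨(g3 p d2 d3).1, (g3 p d2 d3).2, d1⟩⟩
  · rcases (z5_cases _ _ _ hz).resolve_left h0 with h1 | h1
    · exact partB_aux2 h5 h3 ha hb hw h h0 h1
    · obtain ⟨w', u, t, g1, g2, g3, g4, g5, g6⟩ := partB_aux2 (N := N) h5 h3 hb ha hw (by rw [h]; ring)
        (by rw [add_comm]; exact h0) h1
      exact ⟨w', u, t, g1, g2, g3, g4, g5, fun p hp hp2 d1 d2 d3 =>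
        ⟨(g6 p hp hp2 d1 d2 d3).2.1, (g6 p hp hp2 d1 d2 d3).1, (g6 p hp hp2 d1 d2 d3).2.2⟩⟩

/-- A solution which is not divisible by the primes `p = 2 mod 3` which divide `N`. -/
theorem solve (N : ℕ) (h8 : N % 8 = 5) (h3 : N % 3 = 1) (h5 : N % 5 = 2 ∨ N % 5 = 3) :
    ∃ w u t : ℤ, w % 2 = 1 ∧ u % 2 = 1 ∧ t % 2 = 1 ∧ 3 * w ^ 2 + 5 * u ^ 2 + 5 * t ^ 2 = N ∧
      (u - t) % 3 = 0 ∧
      ∀ p : ℕ, p.Prime → p ∣ N → (p : ℤ) ∣ w → (p : ℤ) ∣ u → (p : ℤ) ∣ t →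
        ∃ s : ℤ, (p : ℤ) ∣ s ^ 2 + 3 := by
  obtain ⟨a, b, w, ha, hb, hw, h, hp⟩ := ankeny N h8 h3
  obtain ⟨w', u, t, g1, g2, g3, g4, g5, g6⟩ := partB (N := (N : ℤ)) (by omega) (by omega) ha hb hw h
  refine ⟨w', u, t, g1, g2, g3, g4, g5, ?_⟩
  intro p hpp hpN d1 d2 d3
  refine hp p hpp hpN (g6 p (Nat.prime_iff_prime_int.1 hpp) ?_ d1 d2 d3).1
  intro hd
  have hd' : p ∣ 2 := by exact_mod_cast hd
  have := (Nat.prime_dvd_prime_iff_eq hpp Nat.prime_two).1 hd'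
  rw [this] at hpN
  omega

end Pool.Agent.helper41.Sun
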