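import Pool.Agent.helper41.Sun.Link
import Pool.Agent.helper41.Sun.Solve

/-!
# The pair (5, 7): end of the proof
-/

namespace Pool.Agent.helper41.Sun

open NumberTheorySymbols

theorem odd_prime_mod {p : ℕ} (hp : p.Prime) (h2 : p ≠ 2) : p % 2 = 1 := by
  rcases hp.eq_two_or_odd with h | h
  · exact absurd h h2
  · exact h

theorem rep_of_dvd {p : ℕ} (hp : p.Prime) (h2 : p ≠ 2) {s : ℤ} (h : (p : ℤ) ∣ s ^ 2 + 3) :
    ∃ c d : ℤ, (p : ℤ) = c ^ 2 + c * d + d ^ 2 := by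
  have hodd := odd_prime_mod hp h2
  obtain ⟨s', hs', hs2⟩ : ∃ s' : ℤ, (p : ℤ) ∣ s' ^ 2 + 3 ∧ s' % 2 = 1 := by
    rcases Int.even_or_odd s with ⟨j, hj⟩ | ⟨j, hj⟩
    · refine ⟨s + p, ?_, by omega⟩
      have : (s + p) ^ 2 + 3 = (s ^ 2 + 3) + p * (2 * s + p) := by ring
      rw [this]
      exact dvd_add h (Dvd.intro _ rfl)
    · exact ⟨s, h, by omega⟩
  have h4 : (4 : ℤ) ∣ s' ^ 2 + 3 := by
    obtain ⟨j, hj⟩ : ∃ j, s' = 2 * j + 1 := ⟨s' / 2, by omega⟩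
    exact ⟨j ^ 2 + j + 1, by rw [hj]; ring⟩
  have hcop : IsCoprime (4 : ℤ) (p : ℤ) := by
    have : IsCoprime ((2 : ℤ) ^ 2) (p : ℤ) := by
      apply IsCoprime.pow_left
      exact ⟨-(p / 2 : ℤ), 1, by omega⟩
    norm_num at this
    exact this
  exact rep_of_sq (by exact_mod_cast hp.pos) (hcop.mul_dvd h4 hs')

theorem not_two_mod3 {p : ℕ} (hp : p.Prime) (h2 : p ≠ 2) {s : ℤ} (h : (p : ℤ) ∣ s ^ 2 + 3) :
    p % 3 ≠ 2 := by
  obtain ⟨c, d, hcd⟩ := rep_of_dvd hp h2 h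
  intro h3
  have e1 : c ^ 2 + c * d + d ^ 2 = c * c + c * d + d * d := by ring
  have h4 : c * c % 3 = (c % 3) * (c % 3) % 3 := Int.mul_emod _ _ _
  have h5 : c * d % 3 = (c % 3) * (d % 3) % 3 := Int.mul_emod _ _ _
  have h6 : d * d % 3 = (d % 3) * (d % 3) % 3 := Int.mul_emod _ _ _
  have hc : c % 3 = 0 ∨ c % 3 = 1 ∨ c % 3 = 2 := by omega
  have hd : d % 3 = 0 ∨ d % 3 = 1 ∨ d % 3 = 2 := by omega
  rw [e1] at hcd
  rcases hc with a | a | a <;> rcases hd with b | b | b <;> rw [a] at h4 h5 <;>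
    rw [b] at h5 h6 <;> omega

theorem exists_sq3 {p : ℕ} (hp : p.Prime) (h3 : p % 3 = 1) : ∃ s : ℤ, (p : ℤ) ∣ s ^ 2 + 3 := by
  have h2 : p ≠ 2 := by rintro rfl; omega
  have hodd := odd_prime_mod hp h2
  haveI : Fact p.Prime := ⟨hp⟩
  have hO : Odd p := Nat.odd_iff.2 hodd
  have jp3 : J((p : ℤ) | 3) = 1 := by
    rw [jacobiSym.mod_left, show ((p : ℤ) % ((3 : ℕ) : ℤ)) = 1 by omega, jacobiSym.one_left]
  have hall : J(-3 | p) = 1 := by
    rw [show (-3 : ℤ) = -1 * ((3 : ℕ) : ℤ) by norm_num, jacobiSym.mul_left,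
      jacobiSym.at_neg_one hO]
    rcases (show p % 4 = 1 ∨ p % 4 = 3 by omega) with h4 | h4
    · rw [ZMod.χ₄_nat_one_mod_four h4, ← jacobiSym.quadratic_reciprocity_one_mod_four h4 (by decide),
        jp3]
      norm_num
    · rw [ZMod.χ₄_nat_three_mod_four h4,
        jacobiSym.quadratic_reciprocity_three_mod_four (by norm_num) h4, jp3]
      norm_num
  obtain ⟨s, hs⟩ := isSquare_dvd (ZMod.isSquare_of_jacobiSym_eq_one hall)
  exact ⟨s, by rw [← sub_neg_eq_add]; exact hs⟩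

theorem rep_p {p : ℕ} (hp : p.Prime) (h3 : p % 3 = 1) : ∃ m n : ℤ, (p : ℤ) = m ^ 2 + 3 * n ^ 2 := by
  have h2 : p ≠ 2 := by rintro rfl; omega
  obtain ⟨s, hs⟩ := exists_sq3 hp h3
  obtain ⟨c, d, hcd⟩ := rep_of_dvd hp h2 hs
  rcases Int.even_or_odd d with ⟨j, hj⟩ | ⟨j, hj⟩
  · exact ⟨c + j, j, by rw [hcd, hj]; ring⟩
  · rcases Int.even_or_odd c with ⟨i, hi⟩ | ⟨i, hi⟩
    · exact ⟨d + i, i, by rw [hcd, hi]; ring⟩
    · exact ⟨i - j, i + j + 1, by rw [hcd, hi, hj]; ring⟩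

/-- The norm of an entry of the table. -/
def Ed.nm (e : Ed) : ℤ := 3 * e.w ^ 2 + 5 * e.u ^ 2 + 5 * e.t ^ 2

theorem table_norm : (table.all fun e => decide ((e.u - e.t) % 3 = 0 →
    (e.nm = 13 ∨ e.nm = 37 ∨ e.nm = 253 ∨ e.nm = 1573) ∧ Int.gcd (2 * e.u - e.t) e.w = 1)) = true := by
  decide +kernel

theorem norm_spec {e : Ed} (he : e ∈ table) (h : (e.u - e.t) % 3 = 0) :
    (e.nm = 13 ∨ e.nm = 37 ∨ e.nm = 253 ∨ e.nm = 1573) ∧ IsCoprime (2 * e.u - e.t) e.w := by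
  have h1 := of_decide_eq_true (List.all_eq_true.1 table_norm e he) h
  exact ⟨h1.1, Int.isCoprime_iff_gcd_eq_one.2 h1.2⟩

/-- `e` is a bad entry. -/
def BE (e : Ed) : Prop := e ∈ table ∧ (e.u - e.t) % 3 = 0

theorem table_gcd : (table.all fun e => decide (Int.gcd (2 * e.u - e.t) e.w = 1 ∨
    Int.gcd (Int.gcd e.w e.u) e.t = 1)) = true := by
  decide +kernel

theorem cop3 {e : Ed} (he : e ∈ table) : ∃ α β γ : ℤ, α * e.w + β * e.u + γ * e.t = 1 := by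
  have h1 := of_decide_eq_true (List.all_eq_true.1 table_gcd e he)
  rcases h1 with h1 | h1
  · obtain ⟨α, β, h⟩ := Int.isCoprime_iff_gcd_eq_one.2 h1
    exact ⟨β, 2 * α, -α, by linear_combination h⟩
  · obtain ⟨α, β, h⟩ := Int.isCoprime_iff_gcd_eq_one.2 h1
    have h2 := Int.gcd_eq_gcd_ab e.w e.u
    exact ⟨α * Int.gcdA e.w e.u, α * Int.gcdB e.w e.u, β, by
      rw [h2] at h
      linear_combination h⟩

/-- Every solution is a multiple of a bad entry. -/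
theorem rank_c {N : ℤ} (h8 : N % 8 = 5) (h5 : N % 5 ≠ 0) (h3 : N % 3 = 1) (hB : BadS N)
    {w u t : ℤ} (hs : 3 * w ^ 2 + 5 * u ^ 2 + 5 * t ^ 2 = N) (hw : w % 2 = 1) (hu : u % 2 = 1)
    (ht : t % 2 = 1) (hut : (u - t) % 3 = 0) :
    ∃ e : Ed, BE e ∧ ∃ c σ : ℤ, (σ = 1 ∨ σ = -1) ∧ σ * w = c * e.w ∧ u = c * e.u ∧ t = c * e.t ∧
      N = c ^ 2 * e.nm := by
  obtain ⟨e, he, σ, hσ, g1, g2, g3⟩ := rank_two h8 h5 h3 hB hs hw hu ht hut
  obtain ⟨α, β, γ, hc⟩ := cop3 he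
  have hσ2 : σ ^ 2 = 1 := by rcases hσ with h | h <;> rw [h] <;> norm_num
  set c := α * (σ * w) + β * u + γ * t with hcdef
  have c1 : σ * w = c * e.w := by
    rw [hcdef]
    linear_combination (-(σ * w)) * hc + β * g1 - γ * g3
  have c2 : u = c * e.u := by
    rw [hcdef]
    linear_combination (-u) * hc - α * g1 + γ * g2
  have c3 : t = c * e.t := by
    rw [hcdef]
    linear_combination (-t) * hc + α * g3 - β * g2
  have c4 : N = c ^ 2 * e.nm := by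
    have hw2 : w ^ 2 = (σ * w) ^ 2 := by rw [mul_pow, hσ2, one_mul]
    rw [← hs, hw2, c1, Ed.nm]
    conv_lhs => rw [c2, c3]
    ring
  refine ⟨e, ⟨he, ?_⟩, c, σ, hσ, c1, c2, c3, c4⟩
  have hc3 : c % 3 ≠ 0 := by
    intro h0
    obtain ⟨k, hk⟩ := Int.dvd_of_emod_eq_zero h0
    have : N = 3 * (3 * k ^ 2 * e.nm) := by rw [c4, hk]; ring
    omega
  have h6 : (c * (e.u - e.t)) % 3 = 0 := by
    have : c * (e.u - e.t) = u - t := by
      rw [mul_sub, ← c2, ← c3]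
    rw [this]; exact hut
  have hd := Int.dvd_of_emod_eq_zero h6
  have hp3 : Prime (3 : ℤ) := Int.prime_three
  rcases hp3.dvd_or_dvd hd with h7 | h7
  · exact absurd (Int.emod_eq_zero_of_dvd h7) hc3
  · exact Int.emod_eq_zero_of_dvd h7

theorem badS_scale {N N' c : ℤ} (hc : c % 2 = 1) (h : N = c ^ 2 * N') (hB : BadS N) : BadS N' := by
  intro w u t hs hw hu ht hut
  have ho : ∀ x : ℤ, x % 2 = 1 → (c * x) % 2 = 1 := by
    intro x hx
    rw [Int.mul_emod, hc, hx]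
    norm_num
  have h1 := hB (c * w) (c * u) (c * t) (by rw [h, ← hs]; ring) (ho w hw) (ho u hu) (ho t ht) (by
    have : c * u - c * t = c * (u - t) := by ring
    rw [this]
    exact Int.emod_eq_zero_of_dvd ((Int.dvd_of_emod_eq_zero hut).mul_left c))
  have h2 : c * u * (c * t) = c ^ 2 * (u * t) := by ring
  rw [h2] at h1
  by_contra hcon
  have h3 : c ^ 2 * (u * t) ≤ 0 := mul_nonpos_of_nonneg_of_nonpos (sq_nonneg c) (not_lt.1 hcon)
  linarith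

theorem sq_dvd_norm {p : ℕ} (hp : p.Prime) {n : ℕ} (hn : n = 13 ∨ n = 37 ∨ n = 253 ∨ n = 1573)
    (h : p ^ 2 ∣ n) : p = 11 := by
  have hle : p ^ 2 ≤ n := Nat.le_of_dvd (by omega) h
  have hlt : p < 40 := by
    by_contra hcon
    have : 40 ^ 2 ≤ p ^ 2 := Nat.pow_le_pow_left (not_lt.1 hcon) 2
    omega
  have h2 := hp.two_le
  rcases hn with rfl | rfl | rfl | rfl <;> interval_cases p <;> omega

/-- If all multiples of bad entries have the norm `p^2 n` and some solution is not divisible by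
`p`, then `p = 11`. -/
theorem p_eleven {p : ℕ} (hp : p.Prime) {N : ℤ} {n : ℤ} (hN : N = (p : ℤ) ^ 2 * n)
    (h8 : N % 8 = 5) (h5 : N % 5 ≠ 0) (h3 : N % 3 = 1) (hB : BadS N)
    {w u t : ℤ} (hs : 3 * w ^ 2 + 5 * u ^ 2 + 5 * t ^ 2 = N) (hw : w % 2 = 1) (hu : u % 2 = 1)
    (ht : t % 2 = 1) (hut : (u - t) % 3 = 0)
    (hnd : ¬ ((p : ℤ) ∣ w ∧ (p : ℤ) ∣ u ∧ (p : ℤ) ∣ t)) : p = 11 := by
  obtain ⟨e, he, c, σ, hσ, c1, c2, c3, c4⟩ := rank_c h8 h5 h3 hB hs hw hu ht hut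
  have hpz : Prime (p : ℤ) := Nat.prime_iff_prime_int.1 hp
  have hpc : ¬ (p : ℤ) ∣ c := by
    intro hd
    apply hnd
    refine ⟨?_, ?_, ?_⟩
    · have : w = σ * (c * e.w) := by
        rw [← c1]; rcases hσ with h | h <;> rw [h] <;> ring
      rw [this]
      exact (hd.mul_right _).mul_left _
    · rw [c2]; exact hd.mul_right _
    · rw [c3]; exact hd.mul_right _
  have hcop : IsCoprime ((p : ℤ) ^ 2) (c ^ 2) :=
    IsCoprime.pow ((Prime.coprime_iff_not_dvd hpz).2 hpc)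
  have hd : (p : ℤ) ^ 2 ∣ e.nm := by
    apply hcop.dvd_of_dvd_mul_left
    exact ⟨n, by rw [← c4, hN]⟩
  have hn := (norm_spec he.1 he.2).1
  have hnn : e.nm = ((e.nm.toNat : ℕ) : ℤ) := by
    rw [Int.toNat_of_nonneg]
    rcases hn with h | h | h | h <;> rw [h] <;> norm_num
  apply sq_dvd_norm hp (n := e.nm.toNat)
  · rcases hn with h | h | h | h <;> rw [h] <;> simp
  · rw [hnn] at hd
    exact_mod_cast hd

theorem mod5_sq {c : ℤ} (h : c % 5 ≠ 0) : c ^ 2 % 5 = 1 ∨ c ^ 2 % 5 = 4 := by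
  have e : c ^ 2 = c * c := by ring
  have h1 : c * c % 5 = (c % 5) * (c % 5) % 5 := Int.mul_emod _ _ _
  rw [e]
  rcases (show c % 5 = 1 ∨ c % 5 = 2 ∨ c % 5 = 3 ∨ c % 5 = 4 by omega) with a | a | a | a <;>
    rw [a] at h1 <;> omega

theorem mod3_sq {c : ℤ} (h : c % 3 ≠ 0) : c ^ 2 % 3 = 1 := by
  have e : c ^ 2 = c * c := by ring
  have h1 : c * c % 3 = (c % 3) * (c % 3) % 3 := Int.mul_emod _ _ _
  rw [e]
  rcases (show c % 3 = 1 ∨ c % 3 = 2 by omega) with a | a <;>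
    rw [a] at h1 <;> omega

theorem mod8_sq {c : ℤ} (h : c % 2 = 1) : c ^ 2 % 8 = 1 := by
  have e : c ^ 2 = c * c := by ring
  have h1 : c * c % 8 = (c % 8) * (c % 8) % 8 := Int.mul_emod _ _ _
  rw [e]
  rcases (show c % 8 = 1 ∨ c % 8 = 3 ∨ c % 8 = 5 ∨ c % 8 = 7 by omega) with a | a | a | a <;>
    rw [a] at h1 <;> omega

theorem prime_case {p : ℕ} (hp : p.Prime) (h2 : p % 2 = 1) (h3 : p % 3 ≠ 0) (h5 : p % 5 ≠ 0)
    {e : Ed} (he : BE e) (hB : BadS ((p : ℤ) ^ 2 * e.nm)) : p = 11 := by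
  obtain ⟨hn, hcop⟩ := norm_spec he.1 he.2
  obtain ⟨ow, ou, ot, -⟩ := ok_spec he.1
  have hp8 : (p : ℤ) ^ 2 % 8 = 1 := mod8_sq (by omega)
  have hp3 : (p : ℤ) ^ 2 % 3 = 1 := mod3_sq (by omega)
  have hp5 : (p : ℤ) ^ 2 % 5 = 1 ∨ (p : ℤ) ^ 2 % 5 = 4 := mod5_sq (by omega)
  have n8 : ((p : ℤ) ^ 2 * e.nm) % 8 = 5 := by
    rcases hn with h | h | h | h <;> rw [h] <;> omega
  have n3 : ((p : ℤ) ^ 2 * e.nm) % 3 = 1 := by
    rcases hn with h | h | h | h <;> rw [h] <;> omega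
  have n5 : ((p : ℤ) ^ 2 * e.nm) % 5 = 2 ∨ ((p : ℤ) ^ 2 * e.nm) % 5 = 3 := by
    rcases hn with h | h | h | h <;> rw [h] <;> omega
  have hpz : Prime (p : ℤ) := Nat.prime_iff_prime_int.1 hp
  have hpn2 : ¬ (p : ℤ) ∣ 2 := by
    intro hd
    have hd' : p ∣ 2 := by exact_mod_cast hd
    have := (Nat.prime_dvd_prime_iff_eq hp Nat.prime_two).1 hd'
    omega
  have hpn3 : ¬ (p : ℤ) ∣ 3 := by
    intro hd
    have hd' : p ∣ 3 := by exact_mod_cast hd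
    have := (Nat.prime_dvd_prime_iff_eq hp Nat.prime_three).1 hd'
    omega
  rcases (show p % 3 = 1 ∨ p % 3 = 2 by omega) with h1 | h1
  · -- `p = 1 mod 3`
    obtain ⟨m, n, hmn⟩ := rep_p hp h1
    -- coordinates
    set a : ℤ := e.u + 2 * e.t with hadef
    set b : ℤ := 2 * e.u - e.t with hbdef
    have hnm : e.nm = a ^ 2 + b ^ 2 + 3 * e.w ^ 2 := by rw [Ed.nm, hadef, hbdef]; ring
    have hbo : b % 2 = 1 := by omega
    have hao : a % 2 = 1 := by omega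
    have hpn : ¬ (p : ℤ) ∣ n := by
      intro hd
      have hm : (p : ℤ) ∣ m := by
        apply hpz.dvd_of_dvd_pow (n := 2)
        have : m ^ 2 = p - 3 * n ^ 2 := by rw [hmn]; ring
        rw [this]
        exact dvd_sub dvd_rfl ((dvd_pow hd two_ne_zero).mul_left 3)
      obtain ⟨i, hi⟩ := hd
      obtain ⟨j, hj⟩ := hm
      have h6 : (p : ℤ) * 1 = p * (p * (j ^ 2 + 3 * i ^ 2)) := by
        rw [mul_one]
        conv_lhs => rw [hmn, hi, hj]
        ring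
      have h7 := mul_left_cancel₀ hpz.ne_zero h6
      have h8 : (p : ℤ) ∣ 1 := ⟨_, h7⟩
      exact hpz.not_unit (isUnit_of_dvd_one h8)
    have hD : ¬ (p : ℤ) ∣ 2 * (m ^ 2 - 3 * n ^ 2) := by
      intro hd
      have h6 : (p : ℤ) ∣ 3 * (2 * (2 * (n * n))) := by
        have : 3 * (2 * (2 * (n * n))) = 2 * (p : ℤ) - 2 * (m ^ 2 - 3 * n ^ 2) := by
          rw [hmn]; ring
        rw [this]
        exact dvd_sub (Dvd.intro_left _ rfl) hd
      rcases hpz.dvd_or_dvd h6 with h7 | h7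
      · exact hpn3 h7
      rcases hpz.dvd_or_dvd h7 with h7 | h7
      · exact hpn2 h7
      rcases hpz.dvd_or_dvd h7 with h7 | h7
      · exact hpn2 h7
      rcases hpz.dvd_or_dvd h7 with h7 | h7
      · exact hpn h7
      · exact hpn h7
    -- choice of the sign
    obtain ⟨ν, hν, hnd⟩ : ∃ ν : ℤ, (ν = 1 ∨ ν = -1) ∧
        ¬ ((p : ℤ) ∣ b * (m ^ 2 - 3 * n ^ 2) - ν * (6 * m * n * e.w) ∧
          (p : ℤ) ∣ e.w * (m ^ 2 - 3 * n ^ 2) + ν * (2 * m * n * b)) := by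
      by_contra hcon
      push Not at hcon
      obtain ⟨d1, d2⟩ : (p : ℤ) ∣ b * (m ^ 2 - 3 * n ^ 2) - 1 * (6 * m * n * e.w) ∧
          (p : ℤ) ∣ e.w * (m ^ 2 - 3 * n ^ 2) + 1 * (2 * m * n * b) := by
        have := hcon 1 (Or.inl rfl)
        exact this
      obtain ⟨d3, d4⟩ : (p : ℤ) ∣ b * (m ^ 2 - 3 * n ^ 2) - (-1) * (6 * m * n * e.w) ∧
          (p : ℤ) ∣ e.w * (m ^ 2 - 3 * n ^ 2) + (-1) * (2 * m * n * b) := by
        have := hcon (-1) (Or.inr rfl)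
        exact this
      have d5 : (p : ℤ) ∣ 2 * (m ^ 2 - 3 * n ^ 2) * b := by
        have := dvd_add d1 d3
        ring_nf at this ⊢
        exact this
      have d6 : (p : ℤ) ∣ 2 * (m ^ 2 - 3 * n ^ 2) * e.w := by
        have := dvd_add d2 d4
        ring_nf at this ⊢
        exact this
      have d7 := (hpz.dvd_or_dvd d5).resolve_left hD
      have d8 := (hpz.dvd_or_dvd d6).resolve_left hD
      obtain ⟨x, y, hxy⟩ := hcop
      have d9 : (p : ℤ) ∣ 1 := by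
        rw [← hxy]
        exact dvd_add (d7.mul_left x) (d8.mul_left y)
      exact hpz.not_unit (isUnit_of_dvd_one d9)
    have hν2 : ν ^ 2 = 1 := by rcases hν with h | h <;> rw [h] <;> norm_num
    set B : ℤ := b * (m ^ 2 - 3 * n ^ 2) - ν * (6 * m * n * e.w) with hBdef
    set W : ℤ := e.w * (m ^ 2 - 3 * n ^ 2) + ν * (2 * m * n * b) with hWdef
    have hsum : (p : ℤ) ^ 2 * e.nm = (p * a) ^ 2 + B ^ 2 + 3 * W ^ 2 := by
      rw [hnm, hBdef, hWdef, hmn]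
      linear_combination (-(12 * m ^ 2 * n ^ 2) * (3 * e.w ^ 2 + b ^ 2)) * hν2
    have hk : (m ^ 2 - 3 * n ^ 2) % 2 = 1 := by
      have : m ^ 2 - 3 * n ^ 2 = p - 2 * (3 * n ^ 2) := by rw [hmn]; ring
      rw [this]; omega
    have hmulodd : ∀ x y : ℤ, x % 2 = 1 → y % 2 = 1 → (x * y) % 2 = 1 := by
      intro x y hx hy
      rw [Int.mul_emod, hx, hy]
      norm_num
    have hBo : B % 2 = 1 := by
      have h6 := hmulodd b (m ^ 2 - 3 * n ^ 2) hbo hk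
      have : B = b * (m ^ 2 - 3 * n ^ 2) - 2 * (ν * (3 * m * n * e.w)) := by rw [hBdef]; ring
      rw [this]; omega
    have hWo : W % 2 = 1 := by
      have h6 := hmulodd e.w (m ^ 2 - 3 * n ^ 2) ow hk
      have : W = e.w * (m ^ 2 - 3 * n ^ 2) + 2 * (ν * (m * n * b)) := by rw [hWdef]; ring
      rw [this]; omega
    have hpa : (p * a) % 2 = 1 := hmulodd p a (by omega) hao
    obtain ⟨w', u', t', g1, g2, g3, g4, g5, g6⟩ := partB n5 n3 hpa hBo hWo hsum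
    refine p_eleven hp rfl n8 (by omega) n3 hB g4 g1 g2 g3 g5 ?_
    rintro ⟨d1, d2, d3⟩
    exact hnd (g6 p hpz hpn2 d1 d2 d3).2
  · -- `p = 2 mod 3`
    have hnn : ((p : ℤ) ^ 2 * e.nm) = (((p : ℤ) ^ 2 * e.nm).toNat : ℤ) := by
      rw [Int.toNat_of_nonneg]
      rcases hn with h | h | h | h <;> rw [h] <;> positivity
    set K : ℕ := ((p : ℤ) ^ 2 * e.nm).toNat with hK
    obtain ⟨w, u, t, g1, g2, g3, g4, g5, g6⟩ := solve K (by omega) (by omega) (by omega)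
    refine p_eleven hp rfl n8 (by omega) n3 hB (by rw [g4, ← hnn]) g1 g2 g3 g5 ?_
    rintro ⟨d1, d2, d3⟩
    have hpK : p ∣ K := by
      have : (p : ℤ) ∣ (K : ℤ) := by
        rw [← hnn]
        exact ⟨p * e.nm, by ring⟩
      exact_mod_cast this
    obtain ⟨s, hs⟩ := g6 p hp hpK d1 d2 d3
    exact not_two_mod3 hp (by omega) hs h1

theorem not_badS_4477 : ¬ BadS 4477 := by
  intro h
  have := h 3 7 (-29) (by norm_num) (by norm_num) (by norm_num) (by norm_num) (by norm_num)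
  norm_num at this

/-- If `N = 37 mod 120` and all solutions are bad then `N = 37`. -/
theorem norm_37 {N : ℕ} (h : N % 120 = 37) (hB : BadS N) : N = 37 := by
  obtain ⟨w, u, t, g1, g2, g3, g4, g5, -⟩ := solve N (by omega) (by omega) (by omega)
  obtain ⟨e, he, c, σ, -, -, -, -, c4⟩ := rank_c (N := (N : ℤ)) (by omega) (by omega) (by omega) hB g4
    g1 g2 g3 g5
  obtain ⟨hn, -⟩ := norm_spec he.1 he.2
  set C : ℕ := c.natAbs with hC
  have hCc : ((C : ℕ) : ℤ) ^ 2 = c ^ 2 := by rw [hC, Int.natAbs_sq]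
  have hNC : (N : ℤ) = (C : ℤ) ^ 2 * e.nm := by rw [hCc]; exact c4
  have hC0 : C ≠ 0 := by
    intro h0
    rw [h0] at hNC
    norm_num at hNC
    omega
  -- every prime factor of `C` is `11`
  have hall : ∀ {p : ℕ}, p.Prime → p ∣ C → p = 11 := by
    intro p hp hpC
    obtain ⟨C1, hC1⟩ := hpC
    have hNp : (N : ℤ) = (C1 : ℤ) ^ 2 * ((p : ℤ) ^ 2 * e.nm) := by
      rw [hNC, hC1]; push_cast; ring
    have k2 : p % 2 = 1 := by
      by_contra hcon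
      obtain ⟨i, hi⟩ : ∃ i, p = 2 * i := ⟨p / 2, by omega⟩
      have : (N : ℤ) = 2 * ((C1 : ℤ) ^ 2 * (2 * (i : ℤ) ^ 2 * e.nm)) := by
        rw [hNp, hi]; push_cast; ring
      omega
    have k3 : p % 3 ≠ 0 := by
      intro hcon
      obtain ⟨i, hi⟩ : ∃ i, p = 3 * i := ⟨p / 3, by omega⟩
      have : (N : ℤ) = 3 * ((C1 : ℤ) ^ 2 * (3 * (i : ℤ) ^ 2 * e.nm)) := by
        rw [hNp, hi]; push_cast; ring
      omega
    have k5 : p % 5 ≠ 0 := by
      intro hcon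
      obtain ⟨i, hi⟩ : ∃ i, p = 5 * i := ⟨p / 5, by omega⟩
      have : (N : ℤ) = 5 * ((C1 : ℤ) ^ 2 * (5 * (i : ℤ) ^ 2 * e.nm)) := by
        rw [hNp, hi]; push_cast; ring
      omega
    have kc : ((C1 : ℕ) : ℤ) % 2 = 1 := by
      by_contra hcon
      obtain ⟨i, hi⟩ : ∃ i : ℤ, (C1 : ℤ) = 2 * i := ⟨(C1 : ℤ) / 2, by omega⟩
      have : (N : ℤ) = 2 * (2 * i ^ 2 * ((p : ℤ) ^ 2 * e.nm)) := by
        rw [hNp, hi]; ring
      omega
    exact prime_case hp k2 k3 k5 he (badS_scale kc hNp hB)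
  have hpow : C = 11 ^ C.primeFactorsList.length :=
    Nat.eq_prime_pow_of_unique_prime_dvd hC0 hall
  set j := C.primeFactorsList.length
  rcases Nat.eq_zero_or_pos j with hj | hj
  · rw [hj, pow_zero] at hpow
    rw [hpow] at hNC
    rcases hn with h1 | h1 | h1 | h1 <;> rw [h1] at hNC <;> norm_num at hNC <;> omega
  · exfalso
    obtain ⟨i, hi⟩ : ∃ i, j = i + 1 := ⟨j - 1, by omega⟩
    have h121 : ((11 : ℤ) ^ i) ^ 2 % 5 = 1 := by
      have : ((11 : ℤ) ^ i) ^ 2 = 121 ^ i := by rw [← pow_mul, mul_comm, pow_mul]; norm_num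
      rw [this]
      have h6 : (121 : ℤ) ^ i ≡ 1 ^ i [ZMOD 5] := Int.ModEq.pow i (by decide)
      rw [one_pow] at h6
      exact h6
    have hN2 : (N : ℤ) = ((11 : ℤ) ^ i) ^ 2 * (121 * e.nm) := by
      rw [hNC, hpow, hi]; push_cast; ring
    have h37 : e.nm = 37 := by
      rcases hn with h1 | h1 | h1 | h1
      · rw [h1] at hN2; omega
      · exact h1
      · rw [h1] at hN2; omega
      · rw [h1] at hN2; omega
    rw [h37] at hN2
    norm_num at hN2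
    exact not_badS_4477 (badS_scale (c := (11 : ℤ) ^ i) (by
      have := Odd.pow (n := i) (show Odd (11 : ℤ) by decide)
      exact Int.odd_iff.1 this) hN2 hB)

end Pool.Agent.helper41.Sun
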