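import Pool.Agent.helper41.Sun.Eval
import Pool.Agent.helper41.Sun.Descent

/-!
# From the checker to the descent
-/

namespace Pool.Agent.helper41.Sun

/-- Every solution with odd coordinates and `u ≡ t mod 3` has `u t > 0`. -/
def BadS (N : ℤ) : Prop :=
  ∀ w u t : ℤ, 3 * w ^ 2 + 5 * u ^ 2 + 5 * t ^ 2 = N → w % 2 = 1 → u % 2 = 1 → t % 2 = 1 →
    (u - t) % 3 = 0 → 0 < u * t

theorem mul_mod3 (a b : ℤ) : a * b % 3 = (a % 3) * (b % 3) % 3 := Int.mul_emod a b 3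

theorem bad_of_badS {N : ℤ} (h : BadS N) : Bad N := by
  intro y hy ht
  have hs : 3 * (y.t + 2 * y.p) ^ 2 + 5 * y.u ^ 2 + 5 * y.t ^ 2 = N := by
    rw [← hy.1]; simp only [Q]; ring
  have hw : (y.t + 2 * y.p) % 2 = 1 := by omega
  have h3 := mul_mod3 y.u y.t
  have hu3 : y.u % 3 = 0 ∨ y.u % 3 = 1 ∨ y.u % 3 = 2 := by omega
  have ht3 : y.t % 3 = 0 ∨ y.t % 3 = 1 ∨ y.t % 3 = 2 := by omega
  constructor
  · intro h1
    apply h _ _ _ hs hw hy.2 ht
    rcases hu3 with a | a | a <;> rcases ht3 with b | b | b <;> rw [a, b] at h3 <;> omega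
  · intro h1
    have h2 := h (y.t + 2 * y.p) y.u (-y.t) (by rw [← hs]; ring) hw hy.2 (by omega) (by
      rcases hu3 with a | a | a <;> rcases ht3 with b | b | b <;> rw [a, b] at h3 <;> omega)
    linarith

theorem elist_ok : (elist.all fun v => table.any fun e =>
    decide ((v.t + 2 * v.p = e.w ∨ v.t + 2 * v.p = -e.w) ∧ v.u = e.u ∧ v.t = e.t)) = true := by
  decide +kernel

theorem eget_mem (n : ℕ) : eget elist n ∈ elist := by
  have key : ∀ (l : List Vc) (n : ℕ), eget l n ∈ l ∨ eget l n = ⟨1, 1, 1⟩ := by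
    intro l
    induction l with
    | nil => intro n; right; rfl
    | cons a l ih =>
      intro n
      cases n with
      | zero => left; exact List.mem_cons_self
      | succ n =>
        rcases ih n with h | h
        · left; exact List.mem_cons_of_mem _ h
        · right; exact h
  rcases key elist n with h | h
  · exact h
  · rw [h]; decide +kernel

theorem near_pos {N : ℤ} (h8 : N % 8 = 5) (h5 : N % 5 ≠ 0) (h3 : N % 3 = 1) (hB : BadS N)
    {w u t : ℤ} (hs : 3 * w ^ 2 + 5 * u ^ 2 + 5 * t ^ 2 = N) (hw : w % 2 = 1) (hu : u % 2 = 1)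
    (ht : t % 2 = 1) (hut : (u - t) % 3 = 0) (w0 : 0 < w) (u0 : 0 < u) (t0 : 0 < t) (htu : t ≤ u) :
    ∃ e ∈ table, ∃ σ : ℤ, (σ = 1 ∨ σ = -1) ∧ Cr (2 ^ 13) (σ * w) u t e.w e.u e.t := by
  have hp : t + 2 * ((w - t) / 2) = w := by omega
  have hu3 : u % 3 ≠ 0 := by
    intro h0
    have ht0 : t % 3 = 0 := by omega
    obtain ⟨a, ha⟩ := Int.dvd_of_emod_eq_zero h0
    obtain ⟨b, hb⟩ := Int.dvd_of_emod_eq_zero ht0
    have : N = 3 * (w ^ 2 + 15 * a ^ 2 + 15 * b ^ 2) := by rw [← hs, ha, hb]; ring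
    omega
  have hx : Start N ⟨(w - t) / 2, u, t⟩ := by
    refine ⟨⟨?_, hu⟩, ht, hut, hu3, ?_, u0, t0, htu⟩
    · rw [← hs]
      obtain ⟨k, hk⟩ : ∃ k, w = t + 2 * k := ⟨(w - t) / 2, by omega⟩
      have : (w - t) / 2 = k := by omega
      simp only [Q, this]
      rw [hk]; ring
    · simp only; rw [hp]; exact w0
  have hF : ∀ f ∈ [stp 0 frid, frid], Known N (⟨(w - t) / 2, u, t⟩ : Vc) f := by
    have hid : Known N (⟨(w - t) / 2, u, t⟩ : Vc) frid := known_nth hx.1 (F := []) (by simp) 0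
    have h0 : Known N (⟨(w - t) / 2, u, t⟩ : Vc) (stp 0 frid) := by
      refine step0 (y := ⟨(w - t) / 2, u, t⟩) (by norm_num [frid]) hx.1 ?_ ht
      apply vext <;> simp only [frid, Vc.smul, Mt.app] <;> ring
    intro f hf
    simp only [List.mem_cons, List.not_mem_nil, or_false] at hf
    rcases hf with rfl | rfl
    · exact h0
    · exact hid
  have hC : ∀ c ∈ ([⟨2, 0, 1⟩, ⟨0, 1, 0⟩, ⟨0, 0, 1⟩] : List Vc),
      0 < ev c (⟨(w - t) / 2, u, t⟩ : Vc) := by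
    intro c hc
    simp only [List.mem_cons, List.not_mem_nil, or_false] at hc
    rcases hc with rfl | rfl | rfl
    · simp only [ev]; linarith
    · simp only [ev]; linarith
    · simp only [ev]; linarith
  obtain ⟨n, hn⟩ := sound h8 h5 (bad_of_badS hB) hx (eget elist) T _ _ hF hC check_T
  have h1 := List.all_eq_true.1 elist_ok _ (eget_mem n)
  obtain ⟨e, he, h2⟩ := List.any_eq_true.1 h1
  obtain ⟨h2, h6, h7⟩ := of_decide_eq_true h2
  obtain ⟨⟨a, ha⟩, ⟨b, hb⟩, ⟨c, hc⟩⟩ := hn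
  simp only at ha hb hc
  rw [h6, h7] at ha
  rw [h7] at hb
  rw [h6] at hc
  have h13 : (2 : ℤ) ^ 13 = 8192 := by norm_num
  have hp' : (w - t) / 2 * 2 = w - t := by omega
  rcases h2 with h2 | h2
  · have hv : 2 * (eget elist n).p = e.w - e.t := by rw [h7] at h2; linarith
    refine ⟨e, he, 1, Or.inl rfl, ?_, ?_, ?_⟩
    · rw [h13]
      exact ⟨2 * c - a, by linear_combination 2 * hc - ha - e.u * hp' + u * hv⟩
    · rw [h13]; exact ⟨a, ha⟩
    · rw [h13]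
      exact ⟨2 * b, by linear_combination 2 * hb + e.t * hp' - t * hv⟩
  · have hv : 2 * (eget elist n).p = -e.w - e.t := by rw [h7] at h2; linarith
    refine ⟨e, he, -1, Or.inr rfl, ?_, ?_, ?_⟩
    · rw [h13]
      exact ⟨a - 2 * c, by linear_combination -2 * hc + ha + e.u * hp' - u * hv⟩
    · rw [h13]; exact ⟨a, ha⟩
    · rw [h13]
      exact ⟨-2 * b, by linear_combination -2 * hb - e.t * hp' + t * hv⟩

theorem near_base {N : ℤ} (h8 : N % 8 = 5) (h5 : N % 5 ≠ 0) (h3 : N % 3 = 1) (hB : BadS N) :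
    Near N 13 := by
  intro w u t hs hw hu ht hut
  have hut0 := hB w u t hs hw hu ht hut
  -- signs
  obtain ⟨ε, hε, u0, t0⟩ : ∃ ε : ℤ, (ε = 1 ∨ ε = -1) ∧ 0 < ε * u ∧ 0 < ε * t := by
    rcases pos_and_pos_or_neg_and_neg_of_mul_pos hut0 with ⟨a, b⟩ | ⟨a, b⟩
    · exact ⟨1, Or.inl rfl, by linarith, by linarith⟩
    · exact ⟨-1, Or.inr rfl, by linarith, by linarith⟩
  obtain ⟨ν, hν, w0⟩ : ∃ ν : ℤ, (ν = 1 ∨ ν = -1) ∧ 0 < ν * w := by
    rcases lt_or_gt_of_ne (show w ≠ 0 by rintro rfl; omega) with a | a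
    · exact ⟨-1, Or.inr rfl, by linarith⟩
    · exact ⟨1, Or.inl rfl, by linarith⟩
  have hε2 : ε ^ 2 = 1 := by rcases hε with h | h <;> rw [h] <;> norm_num
  have hν2 : ν ^ 2 = 1 := by rcases hν with h | h <;> rw [h] <;> norm_num
  have hs1 : 3 * (ν * w) ^ 2 + 5 * (ε * u) ^ 2 + 5 * (ε * t) ^ 2 = N := by
    rw [mul_pow, mul_pow, mul_pow, hε2, hν2]; linarith
  have hs2 : 3 * (ν * w) ^ 2 + 5 * (ε * t) ^ 2 + 5 * (ε * u) ^ 2 = N := by linarith
  have ow : ν * w % 2 = 1 := by rcases hν with h | h <;> rw [h] <;> omega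
  have ou : ε * u % 2 = 1 := by rcases hε with h | h <;> rw [h] <;> omega
  have ot : ε * t % 2 = 1 := by rcases hε with h | h <;> rw [h] <;> omega
  have m1 : (ε * u - ε * t) % 3 = 0 := by rcases hε with h | h <;> rw [h] <;> omega
  have m2 : (ε * t - ε * u) % 3 = 0 := by rcases hε with h | h <;> rw [h] <;> omega
  -- transfer of nearness
  have back : ∀ e : Ed, ∀ σ : ℤ, (σ = 1 ∨ σ = -1) →
      Cr (2 ^ 13) (σ * (ν * w)) (ε * u) (ε * t) e.w e.u e.t →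
      ∃ σ' : ℤ, (σ' = 1 ∨ σ' = -1) ∧ Cr (2 ^ 13) (σ' * w) u t e.w e.u e.t := by
    intro e σ hσ hc
    refine ⟨ε * σ * ν, ?_, ?_⟩
    · rcases hε with rfl | rfl <;> rcases hσ with rfl | rfl <;> rcases hν with rfl | rfl <;> simp
    · obtain ⟨⟨a, ha⟩, ⟨b, hb⟩, ⟨c, hc⟩⟩ := hc
      refine ⟨⟨ε * a, ?_⟩, ⟨ε * b, ?_⟩, ⟨ε * c, ?_⟩⟩
      · linear_combination ε * ha + u * e.w * hε2
      · linear_combination ε * hb - (u * e.t - t * e.u) * hε2
      · linear_combination ε * hc - (t * e.w) * hε2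
  rcases le_total (ε * t) (ε * u) with hle | hle
  · obtain ⟨e, he, σ, hσ, hc⟩ := near_pos h8 h5 h3 hB hs1 ow ou ot m1 w0 u0 t0 hle
    obtain ⟨σ', hσ', hc'⟩ := back e σ hσ hc
    exact ⟨e, he, σ', hσ', hc'⟩
  · obtain ⟨e, he, σ, hσ, hc⟩ := near_pos h8 h5 h3 hB hs2 ow ot ou m2 w0 t0 u0 hle
    obtain ⟨e', he', g1, g2, g3⟩ := swap_spec he
    have hc2 : Cr (2 ^ 13) (σ * (ν * w)) (ε * u) (ε * t) e'.w e'.u e'.t := by
      rw [g1, g2, g3]
      obtain ⟨⟨a, ha⟩, ⟨b, hb⟩, ⟨c, hc⟩⟩ := hc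
      exact ⟨⟨-c, by linear_combination -hc⟩, ⟨-b, by linear_combination -hb⟩,
        ⟨-a, by linear_combination -ha⟩⟩
    obtain ⟨σ', hσ', hc'⟩ := back e' σ hσ hc2
    exact ⟨e', he', σ', hσ', hc'⟩

/-- The rank two theorem: if all solutions are bad, every solution with `u ≡ t mod 3` is
proportional to an exceptional direction. -/
theorem rank_two {N : ℤ} (h8 : N % 8 = 5) (h5 : N % 5 ≠ 0) (h3 : N % 3 = 1) (hB : BadS N)
    {w u t : ℤ} (hs : 3 * w ^ 2 + 5 * u ^ 2 + 5 * t ^ 2 = N) (hw : w % 2 = 1) (hu : u % 2 = 1)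
    (ht : t % 2 = 1) (hut : (u - t) % 3 = 0) :
    ∃ e ∈ table, ∃ σ : ℤ, (σ = 1 ∨ σ = -1) ∧ σ * w * e.u = u * e.w ∧ u * e.t = t * e.u ∧
      t * e.w = σ * w * e.t :=
  on_axis (near_base h8 h5 h3 hB) hs hw hu ht hut

end Pool.Agent.helper41.Sun
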