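import Pool.Agent.helper41.Sun.Check

/-!
# The certificate tree (generated)
-/

namespace Pool.Agent.helper41.Sun

def T0 : Tr := .up 10 (.mix 0 0 10 3 (.mix 0 2 10 12 (.mix 0 0 10 12 (.mix 0 2 10 4 (.mix 0 0 10 11 (.mix 5 1 10 1 (.mix 0 0 10 4 (.mix 0 2 10 1 (.cond 2 1 (.cond 4 3 (.up 8 (.mix 0 2 8 14 (.mix 0 0 8 1 (.mix 0 1 8 13 (.mix 0 1 8 2 (.mix 0 0 8 2 (.cond 4 3 (.contra [(1, 1), (10, 478), (6, 42)] 772) (.cond 1 0 (.contra [(0, 3), (4, 25), (2, 32)] 0) (.contra [(1, 1), (2, 8)] 0)))))))) (.mix 0 1 8 13 (.mix 0 1 8 2 (.mix 0 0 8 2 (.cond 1 0 (.contra [(1, 1), (10, 996), (6, 44)] 704) (.contra [(0, 1), (10, 1228), (6, 117)] 1872))))) (.mix 0 2 3 13 (.mix 0 2 3 10 (.mix 0 0 3 13 (.cond 1 0 (.contra [(1, 1), (10, 1348), (6, 72)] 1452) (.contra [(0, 2), (10, 1488), (6, 157)] 1687))))) (.mix 0 1 8 0 (.mix 0 0 8 3 (.mix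 0 1 8 0 (.mix 0 0 8 3 (.cond 1 0 (.contra [(0, 4), (6, 625), (2, 21)] 0) (.contra [(1, 1), (10, 2072), (6, 108)] 2528)))))) (.mix 0 2 8 1 (.mix 0 2 8 0 (.mix 0 2 8 14 (.mix 0 0 8 1 (.cond 1 0 (.contra [(1, 1), (5, 12), (4, 16)] 0) (.contra [(0, 1), (10, 2968), (6, 177)] 3232))))))) (.contra [(1, 1), (8, 50), (3, 7)] 350)) (.contra [(0, 2), (2, 25), (1, 6)] 75)))))))))) (.mix 0 0 5 4 (.cond 1 0 (.contra [(1, 1), (6, 47), (2, 3)] 38) (.contra [(0, 2), (6, 118), (2, 7)] 147))) (.mix 0 1 10 14 (.mix 0 0 10 1 (.mix 0 1 10 13 (.mix 0 1 10 2 (.mix 0 1 10 14 (.mix 0 0 6 1 (.cond 1 0 (.contra [(0, 1), (6, 1008), (2, 127)] 2112) (.contra [(1, 1), (6, 1376), (2, 144)] 1664)))))))) (.mix 0 0 5 10 (.cond 1 0 (.contra [(1, 1), (6, 19), (2, 1)] 36) (.contra [(0, 2), (6, 146), (2, 9)] 149))) (.mix 0 0 10 11 (.cond 1 0 (.contra [(1, 1),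 (6, 59), (2, 6)] 81) (.contra [(0, 1), (6, 53), (2, 2)] 52)))

def T1 : Tr := .mix 0 2 8 9 (.mix 0 2 8 17 (.mix 0 0 8 17 (.cond 1 0 (.contra [(1, 1), (5, 350), (2, 14)] 1450) (.up 27 (.mix 0 2 27 14 (.mix 0 0 27 1 (.cond 1 0 (.contra [(0, 29), (7, 4082), (2, 5)] 13630) (.contra [(1, 29), (7, 5554), (2, 10)] 20010)))) (.mix 0 1 27 13 (.mix 0 1 27 2 (.mix 0 1 27 14 (.up 3 (.mix 0 1 3 1 (.mix 0 0 3 4 (.cond 1 0 (.contra [(0, 29), (7, 28226), (2, 35)] 104110) (.contra [(1, 29), (7, 11558), (2, 30)] 42630)))) (.mix 0 0 3 4 (.cond 1 0 (.contra [(1, 29), (7, 7381), (2, 10)] 28710) (.contra [(0, 29), (7, 19243), (2, 30)] 68005))) (.mix 0 2 3 13 (.mix 0 0 3 0 (.cond 1 0 (.contra [(1, 29), (7, 15646), (2, 10)] 57710) (.contra [(0, 29), (7, 26182), (2, 45)] 96570)))) (.mix 0 0 3 10 (.mix 0 2 3 11 (.mix 0 0 3 14 (.cond 1 0 (.h0 38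 false (.cond 39 0 (.contra [(0, 10), (9, 588), (2, 1)] 1995) (.contra [(1, 5), (9, 1376), (2, 2)] 4630)) (.mix 22 0 0 6 (.cond 23 0 (.contra [(1, 5), (9, 4288), (2, 6)] 14530) (.contra [(0, 10), (9, 348), (2, 1)] 1355)))) (.contra [(1, 29), (7, 22564), (2, 40)] 71340))))) (.mix 0 1 3 12 (.mix 0 1 3 3 (.mix 0 0 3 10 (.cond 1 0 (.contra [(0, 29), (7, 8216), (2, 35)] 24360) (.contra [(1, 29), (7, 26652), (2, 20)] 86420))))))))) (.mix 0 0 27 2 (.cond 1 0 (.contra [(1, 1), (7, 31)] 100) (.contra [(0, 1), (7, 17)] 75))) (.mix 0 1 27 0 (.mix 0 0 27 3 (.cond 1 0 (.contra [(0, 29), (7, 1994), (2, 5)] 7830) (.contra [(1, 29), (7, 6598), (2, 10)] 22910)))) (.mix 0 2 27 1 (.mix 0 2 27 0 (.mix 0 0 27 3 (.cond 1 0 (.contra [(1, 29), (7, 14124), (2, 20)] 51620) (.contra [(0, 29), (7, 8128), (2, 15)] 27840)))))))))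

def T2 : Tr := .dn 8 (.mix 0 2 8 6 (.mix 0 0 8 19 (.cond 1 0 (.contra [(1, 1), (4, 6), (3, 94)] 414) (.contra [(0, 1), (4, 7), (3, 118)] 458)))) (.mix 0 0 8 19 (.cond 1 0 (.contra [(0, 1), (4, 6), (3, 59)] 269) (.contra [(1, 1), (4, 2), (3, 53)] 198))) (.mix 0 1 8 18 (.mix 0 0 8 15 (.cond 1 0 (.contra [(0, 1), (4, 9), (3, 146)] 606) (.contra [(1, 1), (4, 2), (3, 38)] 118)))) (.mix 0 0 8 5 (.mix 0 2 8 6 (.mix 0 0 8 19 (.mix 0 1 8 7 (.mix 0 0 8 7 (.mix 5 1 8 17 (.mix 0 0 8 17 (.mix 0 1 8 9 (.cond 8 7 (.contra [(1, 1), (4, 6), (3, 79)] 334) (.dn 8 (.mix 0 1 8 8 (.mix 0 0 8 5 (.mix 0 1 8 8 (.mix 0 1 8 17 (.mix 0 0 8 17 (.cond 1 0 (.contra [(0, 2), (5, 6275), (2, 293)] 17425) (.contra [(1, 1), (5, 7100), (2, 212)] 23700))))))) (T1) (.mix 0 2 3 19 (.mix 0 2 3 5 (.mix 0 0 3 18 (.cond 1 0 (.contra [(1, 1), (5, 1200), (2, 52)]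 3900) (.contra [(0, 4), (5, 5475), (2, 101)] 18575))))) (.mix 0 2 8 16 (.mix 0 0 8 9 (.mix 0 1 8 15 (.mix 0 0 8 8 (.cond 1 0 (.contra [(1, 1), (5, 2850), (2, 118)] 8950) (.contra [(0, 2), (5, 1975), (2, 33)] 5325)))))) (.mix 0 1 8 15 (.mix 0 1 8 16 (.mix 0 1 8 19 (.mix 0 0 8 16 (.cond 1 0 (.contra [(0, 2), (5, 3375), (2, 169)] 11125) (.contra [(1, 1), (5, 2500), (2, 84)] 7500)))))))))))))))) (.mix 0 2 8 17 (.mix 0 2 8 8 (.mix 0 0 8 5 (.mix 3 0 6 6 (.cond 4 0 (.contra [(0, 2), (4, 9), (3, 86)] 411) (.cond 2 1 (.contra [(1, 1), (3, 4)] 0) (.contra [(0, 1), (5, 175), (3, 7)] 725)))))))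

def T3 : Tr := .up 8 (.mix 0 2 8 14 (.mix 0 2 7 2 (.mix 0 0 6 2 (.mix 0 2 5 13 (.mix 0 2 5 10 (.mix 5 1 12 1 (.mix 0 1 11 13 (.mix 0 0 10 0 (.h2 9 10 (.mix 4 2 0 11 (T0)) (.mix 4 0 0 13 (.cond 5 0 (.contra [(0, 1), (6, 272), (2, 23)] 448) (.contra [(1, 1), (6, 416), (2, 24)] 384)))))))))))) (.mix 0 1 8 13 (.mix 0 0 7 0 (.mix 0 2 6 14 (.mix 0 2 5 2 (.mix 0 0 5 2 (.cond 1 0 (.contra [(0, 1), (6, 192), (2, 19)] 256) (.contra [(1, 1), (6, 144), (2, 8)] 192))))))) (.mix 0 0 8 2 (.mix 0 2 7 13 (.mix 0 2 6 10 (.mix 0 2 5 11 (.mix 0 2 5 3 (.cond 5 4 (.contra [(0, 3), (6, 25), (1, 4)] 0) (.dn 14 (.mix 0 1 14 8 (.mix 0 1 13 17 (.mix 0 0 12 17 (.cond 1 0 (.contra [(0, 1), (4, 3), (3, 20)] 108) (.contra [(1, 1), (4, 4), (3, 60)] 244))))) (.mix 0 2 14 9 (.mix 0 0 13 6 (.cond 1 0 (.contra [(1, 1), (4, 2), (3, 14)] 70) (.contra [(0,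 1), (4, 1), (3, 22)] 90)))) (.mix 0 0 14 7 (.mix 0 2 13 19 (.mix 0 2 12 5 (.mix 0 0 11 18 (.cond 1 0 (.contra [(0, 1), (4, 5), (3, 104)] 408) (.contra [(1, 1), (3, 8)] 56)))))) (.mix 0 2 14 16 (.mix 0 2 13 15 (.mix 0 2 12 18 (.mix 0 2 11 7 (.mix 0 0 11 7 (.mix 5 1 18 17 (.mix 0 0 17 17 (.mix 0 1 16 9 (T2))))))))) (.mix 0 1 14 15 (.mix 0 0 13 8 (.mix 0 2 12 16 (.mix 0 2 11 15 (.mix 0 2 11 18 (.cond 4 3 (.contra [(1, 1), (4, 2), (3, 26)] 114) (.h2 12 13 (.mix 7 0 0 10 (.cond 8 0 (.contra [(1, 1), (6, 112), (2, 112)] 1024) (.contra [(0, 1), (6, 219), (2, 184)] 2048))) (.mix 1 0 0 15 (.cond 2 0 (.contra [(0, 1), (6, 285), (2, 248)] 2560) (.contra [(1, 1), (2, 16)] 0))))))))))))))))) (.mix 0 0 7 10 (.cond 1 0 (.contra [(0, 2), (6, 22), (2, 1)] 17) (.contra [(1, 1), (6, 7), (2, 1)] 12))) (.mix 0 1 7 12 (.mix 0 0 6 12 (.cond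 1 0 (.contra [(1, 1), (6, 30), (2, 2)] 36) (.contra [(0, 2), (6, 20), (2, 3)] 29))))

def T4 : Tr := .dn 8 (.mix 0 0 8 18 (.mix 0 2 8 7 (.mix 0 0 8 7 (.cond 1 0 (.contra [(0, 13), (6, 1200), (4, 103)] 400) (.contra [(1, 1), (6, 60), (2, 8)] 0))))) (.mix 0 1 8 5 (.mix 0 0 8 18 (.mix 2 2 5 9 (.mix 0 0 5 6 (.cond 1 0 (.cond 3 2 (.contra [(0, 1), (8, 150), (6, 5), (2, 4)] 0) (.contra [(1, 9), (8, 1350), (6, 70), (2, 28)] 0)) (.contra [(1, 13), (6, 270), (4, 56)] 350)))))) (.mix 0 0 3 7 (.mix 0 2 3 19 (.mix 0 0 3 16 (.cond 1 0 (.contra [(0, 26), (6, 1380), (4, 253)] 2475) (.contra [(1, 13), (6, 1380), (4, 58)] 850))))) (.mix 0 1 8 17 (.mix 0 1 8 9 (.mix 0 1 8 15 (.mix 0 0 8 8 (.mix 0 2 8 16 (.mix 5 2 8 16 (.mix 0 2 8 15 (.mix 0 0 8 8 (.cond 1 0 (.contra [(1, 13), (6, 1380), (4, 136)] 1500) (.dn 8 (.mix 0 2 3 6 (.mix 0 0 3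 19 (.cond 1 0 (.contra [(1, 1), (8, 210), (6, 2)] 0) (.contra [(0, 3), (8, 15), (6, 43), (4, 275)] 0)))) (.mix 0 1 8 5 (.mix 0 0 8 18 (.mix 0 2 8 7 (.mix 0 0 8 7 (.cond 1 0 (.contra [(1, 3), (8, 2760), (6, 172), (4, 560)] 0) (.contra [(0, 1), (8, 60), (6, 107), (4, 360)] 0)))))) (.mix 0 2 8 19 (.mix 0 0 8 16 (.mix 0 2 8 15 (.mix 0 2 8 18 (.mix 0 0 8 15 (.cond 1 0 (.contra [(0, 1), (8, 5625), (4, 675), (2, 83)] 0) (.cond 4 3 (.contra [(1, 24), (10, 21600), (8, 920), (3, 11)] 0) (.contra [(0, 8), (3, 1)] 0)))))))) (.mix 0 1 8 17 (.mix 0 1 8 9 (.mix 0 0 8 6 (.mix 3 0 6 5 (.cond 2 1 (.cond 4 0 (.contra [(0, 1), (10, 750), (6, 475), (2, 6)] 0) (.contra [(1, 3), (10, 3375), (6, 2450), (2, 29)] 0)) (.contra [(1, 7), (8, 5400), (4, 1020), (2, 116)] 0)))))) (.mix 0 0 8 6 (.cond 1 0 (.contra [(0, 7), (8, 675), (4, 40), (2, 18)]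 0) (.contra [(1, 3), (8, 345), (6, 29), (4, 40)] 0))))))))))))) (.mix 0 0 8 6 (.mix 1 1 4 15 (.mix 0 0 4 8 (.cond 3 2 (.contra [(0, 1), (6, 15), (4, 1)] 25) (.cond 1 0 (.contra [(1, 1), (3, 2)] 0) (.contra [(0, 2), (6, 15), (3, 8)] 125))))))

def T5 : Tr := .up 8 (.mix 0 0 8 3 (.mix 0 2 8 12 (.mix 0 0 8 12 (.mix 0 2 8 4 (.mix 0 2 8 1 (.mix 5 1 8 1 (.mix 0 0 8 4 (.mix 0 2 8 1 (.cond 2 1 (.h0 31 false (.cond 32 0 (.up 9 (.mix 0 2 9 14 (.mix 0 0 9 1 (.cond 1 0 (.contra [(1, 9), (5, 407), (2, 2500)] 15000) (.contra [(0, 3), (5, 23), (2, 250)] 1125)))) (.mix 0 1 9 13 (.mix 0 1 9 2 (.mix 0 0 9 2 (.cond 1 0 (.contra [(1, 9), (5, 674), (2, 4600)] 22200) (.contra [(0, 9), (5, 1082), (2, 6550)] 37725))))) (.mix 0 0 9 2 (.mix 0 1 9 14 (.mix 0 1 9 11 (.mix 0 1 9 10 (.mix 0 0 9 13 (.cond 1 0 (.contra [(1, 3), (5, 1112), (2, 6400)]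 34800) (.contra [(0, 9), (5, 2908), (2, 18350)] 110325))))))) (.mix 0 1 9 0 (.mix 0 0 9 3 (.mix 0 1 9 0 (.mix 0 0 9 3 (.cond 1 0 (.contra [(0, 9), (5, 1696), (2, 10850)] 54075) (.contra [(1, 9), (5, 1468), (2, 9800)] 56100)))))) (.mix 0 2 9 1 (.mix 0 2 9 0 (.mix 0 2 9 14 (.mix 0 0 9 1 (.cond 1 0 (.contra [(1, 9), (5, 476), (2, 2800)] 9600) (.contra [(0, 9), (5, 2192), (2, 14350)] 77325))))))) (.contra [(1, 7), (12, 192), (6, 4)] 192)) (.mix 10 1 0 1 (.mix 2 0 0 4 (.cond 3 0 (.contra [(0, 7), (12, 4750), (6, 87)] 4918) (.contra [(1, 1), (2, 4)] 0))))) (.contra [(0, 17), (4, 119), (2, 48), (1, 126)] 0)))))))))) (.mix 0 0 3 4 (.cond 1 0 (.contra [(1, 7), (10, 365), (4, 6)] 239) (.contra [(0, 1), (10, 65), (4, 1)] 69))) (.mix 0 1 8 14 (.mix 0 0 8 1 (.mix 2 2 5 13 (.mix 0 0 5 0 (.cond 1 0 (.contra [(0, 1), (10, 20), (4, 1)]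 4) (.cond 3 2 (.contra [(1, 1), (3, 1)] 0) (.contra [(0, 27), (6, 110), (3, 71)] 3165))))))) (.mix 0 0 3 10 (.cond 1 0 (.contra [(1, 7), (10, 145), (4, 2)] 243) (.contra [(0, 7), (10, 565), (4, 9)] 481))) (.mix 0 0 8 11 (.cond 1 0 (.contra [(1, 7), (10, 485), (4, 12)] 513) (.contra [(0, 7), (10, 395), (4, 4)] 346)))

def T6 : Tr := .dn 6 (.mix 0 2 6 6 (.mix 0 0 6 19 (.cond 1 0 (.contra [(1, 1), (6, 40), (3, 3)] 60) (.contra [(0, 2), (6, 110), (3, 7)] 40)))) (.mix 0 0 6 19 (.cond 1 0 (.contra [(0, 1), (6, 5), (3, 3)] 20) (.contra [(1, 1), (6, 35), (3, 1)] 15))) (.mix 0 1 6 18 (.mix 0 0 6 15 (.mix 2 2 5 19 (.mix 0 2 5 5 (.mix 0 0 5 18 (.cond 4 3 (.contra [(0, 2), (6, 130), (3, 9)] 120) (.cond 1 0 (.contra [(1, 1), (3, 2)] 0) (.contra [(0, 8), (8, 1000), (5, 135), (3, 33)] 0)))))))) (.mix 0 0 6 5 (.mix 1 1 4 17 (.mix 0 0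 4 17 (.cond 1 0 (.contra [(1, 1), (6, 50), (3, 6)] 50) (.cond 3 2 (.contra [(1, 7), (8, 625), (2, 12)] 625) (.up 19 (.mix 0 2 19 14 (.mix 0 2 18 2 (.mix 0 0 17 2 (.mix 0 2 16 13 (.mix 0 0 16 0 (.mix 5 1 23 1 (.mix 0 1 22 13 (.mix 0 0 21 0 (T5))))))))) (.mix 0 0 18 4 (.cond 1 0 (.contra [(1, 7), (10, 103), (4, 2)] 89) (.contra [(0, 50), (10, 25), (4, 2), (2, 9)] 0))) (.mix 0 0 19 2 (.mix 0 2 18 13 (.mix 0 2 17 10 (.mix 0 2 16 11 (.mix 0 0 16 14 (.cond 1 0 (.contra [(1, 1), (10, 112)] 64) (.contra [(0, 7), (10, 1412), (4, 30)] 1209))))))) (.mix 0 0 18 10 (.cond 1 0 (.contra [(0, 7), (10, 83), (4, 1)] 55) (.contra [(1, 2), (10, 21), (2, 1)] 0))) (.mix 0 1 18 12 (.mix 0 0 17 12 (.cond 1 0 (.contra [(1, 7), (10, 234), (4, 4)] 234) (.contra [(0, 7), (10, 88), (4, 3)] 88)))))))))) (.mix 0 2 6 17 (.mix 0 2 6 8 (.mix 0 0 6 5 (.mix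 3 0 6 6 (.cond 4 0 (.contra [(0, 4), (6, 10), (3, 9)] 90) (.cond 2 1 (.contra [(1, 1), (3, 4)] 0) (.contra [(0, 1), (8, 175), (3, 7)] 200)))))))

def T7 : Tr := .dn 8 (.mix 0 1 8 8 (.mix 0 1 7 17 (.mix 0 0 6 17 (.mix 0 1 5 9 (.mix 0 0 5 6 (.mix 5 0 12 18 (.mix 0 1 11 6 (.mix 0 1 10 5 (.cond 6 5 (.cond 8 2 (T4) (.contra [(1, 13), (4, 75), (2, 4)] 25)) (.contra [(1, 1), (2, 12), (4, 16)] 4)))))))))) (.mix 0 2 8 9 (.mix 0 0 7 6 (.mix 0 2 6 9 (.mix 0 0 5 6 (.mix 4 1 11 5 (.mix 0 1 10 8 (.cond 5 4 (.cond 3 2 (.contra [(1, 1), (4, 12), (6, 44)] 36) (.dn 6 (.mix 0 0 2 18 (.cond 1 0 (.contra [(0, 16), (6, 90), (5, 43)] 250) (.contra [(1, 2), (6, 60), (5, 7)] 0))) (.mix 0 1 2 5 (.mix 0 0 2 18 (.cond 1 0 (.contra [(1, 4), (6, 150), (5, 17)] 150) (.contra [(0, 12), (6, 510), (5, 85), (2, 2)] 0)))) (.mix 0 1 6 18 (.mix 0 1 6 6 (.mix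 0 0 6 19 (.mix 3 2 5 19 (.mix 0 0 5 16 (.cond 1 0 (.contra [(0, 16), (6, 930), (5, 127)] 450) (.cond 3 2 (.contra [(1, 1), (3, 2)] 0) (.contra [(0, 4), (8, 300), (7, 85), (3, 9)] 0)))))))) (.mix 0 0 6 5 (.cond 1 0 (.contra [(0, 8), (6, 30), (5, 13)] 150) (.contra [(1, 8), (6, 210), (5, 11)] 50))) (.mix 0 2 6 17 (.mix 0 0 6 17 (.cond 1 0 (.contra [(1, 2), (6, 90), (5, 17)] 50) (.contra [(0, 8), (6, 270), (5, 1)] 150)))))) (.contra [(0, 2), (4, 30), (1, 1)] 20)))))))) (.mix 0 0 8 7 (.mix 0 2 7 19 (.mix 0 2 6 5 (.mix 0 0 5 18 (.cond 1 0 (.contra [(0, 1), (2, 15), (4, 49)] 21) (.contra [(1, 1), (4, 8)] 32)))))) (.mix 0 2 8 16 (.mix 0 2 7 15 (.mix 0 2 6 18 (.mix 3 1 10 17 (.mix 0 0 9 17 (.mix 0 1 8 9 (.cond 2 1 (T6) (.contra [(0, 2), (2, 9), (4, 19)] 16)))))))) (.mix 0 1 8 15 (.mix 0 0 7 8 (.mix 0 2 6 16 (.mix 0 2 5 15 (.mix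 0 0 5 8 (.cond 1 0 (.contra [(0, 1), (2, 27), (4, 13)] 57) (.cond 4 3 (.contra [(1, 4), (6, 120), (3, 1)] 80) (.contra [(0, 8), (3, 1)] 0))))))))

def T8 : Tr := .dn 10 (.mix 0 0 10 18 (.mix 0 2 10 7 (.mix 0 0 10 7 (.cond 1 0 (.contra [(0, 13), (10, 1200), (4, 103)] 400) (.contra [(1, 1), (10, 60), (2, 8)] 0))))) (.mix 0 1 10 5 (.mix 0 0 10 18 (.mix 2 2 7 9 (.mix 0 0 7 6 (.cond 1 0 (.cond 3 2 (.contra [(0, 1), (12, 150), (6, 5), (2, 4)] 0) (.contra [(1, 9), (12, 1350), (6, 70), (2, 28)] 0)) (.contra [(1, 13), (10, 270), (4, 56)] 350)))))) (.mix 0 0 5 7 (.mix 0 2 5 19 (.mix 0 0 5 16 (.cond 1 0 (.contra [(0, 26), (10, 1380), (4, 253)] 2475) (.contra [(1, 13), (10, 1380), (4, 58)] 850))))) (.mix 0 1 10 17 (.mix 0 1 10 9 (.mix 0 1 10 15 (.mix 0 1 10 16 (.mix 0 0 10 9 (.mix 5 2 10 16 (.mix 0 2 10 15 (.mix 0 0 10 8 (.cond 1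 0 (.contra [(1, 13), (10, 1380), (4, 136)] 1500) (.cond 4 3 (.contra [(1, 13), (12, 5520), (6, 544)] 6000) (.dn 8 (.mix 0 2 3 6 (.mix 0 0 3 19 (.cond 1 0 (.contra [(1, 1), (14, 210), (8, 2)] 0) (.contra [(0, 8), (14, 2460), (8, 177), (2, 11)] 0)))) (.mix 0 1 8 5 (.mix 0 0 8 18 (.cond 1 0 (.contra [(1, 10), (14, 1080), (8, 71), (2, 9)] 0) (.contra [(0, 10), (14, 3840), (8, 183), (2, 7)] 0)))) (.mix 0 2 8 19 (.mix 0 0 8 16 (.mix 0 2 8 15 (.mix 0 0 8 8 (.cond 1 0 (.contra [(0, 11), (14, 33000), (4, 496), (2, 25)] 0) (.cond 3 2 (.contra [(1, 12), (16, 10800), (10, 460), (3, 11)] 0) (.contra [(0, 4), (3, 1)] 0))))))) (.mix 0 1 8 17 (.mix 0 1 8 9 (.mix 0 0 8 6 (.cond 1 0 (.contra [(0, 5), (14, 1920), (8, 29), (2, 6)] 0) (.contra [(1, 5), (14, 2160), (8, 267), (2, 13)] 0))))) (.mix 0 0 8 6 (.cond 1 0 (.contra [(0, 99), (14,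 12375), (4, 274), (2, 8)] 0) (.contra [(1, 5), (14, 795), (8, 54), (2, 1)] 0)))))))))))))) (.mix 0 1 5 15 (.mix 0 0 5 8 (.mix 0 1 5 17 (.mix 0 1 5 9 (.mix 0 0 5 6 (.cond 1 0 (.contra [(0, 26), (10, 420), (4, 623)] 9825) (.contra [(1, 13), (10, 4320), (4, 428)] 1700)))))))

def T9 : Tr := .dn 10 (.mix 0 1 10 8 (.mix 0 0 10 5 (.mix 2 2 7 6 (.mix 0 0 7 19 (.cond 3 2 (.cond 1 0 (.contra [(0, 17), (6, 275), (2, 53)] 525) (.contra [(1, 2), (6, 5), (4, 9)] 80)) (.contra [(1, 2), (4, 5), (2, 9)] 80)))))) (.mix 0 2 10 9 (.mix 0 2 10 17 (.mix 0 2 10 8 (.mix 0 0 10 5 (.cond 1 0 (.contra [(1, 11), (4, 30), (2, 182)] 3280) (.contra [(0, 11), (4, 360), (2, 94)] 2235)))))) (.mix 0 0 10 7 (.mix 0 1 10 18 (.mix 0 0 10 15 (.cond 1 0 (.contra [(0, 11), (4, 65), (2, 123)] 1515) (.contra [(1, 11), (4, 155), (2, 31)] 1180))))) (.mix 0 2 10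 16 (.mix 0 0 10 9 (.mix 0 2 10 17 (.mix 0 2 10 8 (.mix 0 0 10 5 (.cond 1 0 (.cond 4 3 (.contra [(1, 4), (4, 98), (2, 3)] 1425) (.contra [(0, 4), (4, 198), (2, 5)] 2675)) (.contra [(1, 11), (4, 500), (2, 276)] 2600))))))) (.mix 0 1 10 15 (.mix 0 1 10 16 (.mix 0 0 10 9 (.mix 0 2 10 17 (.mix 4 2 9 17 (.mix 0 2 9 8 (.mix 0 2 9 16 (.mix 0 2 9 15 (.mix 0 0 9 8 (.cond 7 6 (.contra [(1, 11), (4, 145), (2, 117)] 1920) (.cond 1 0 (.contra [(1, 49), (6, 6200), (2, 468)] 35700) (.dn 9 (.mix 0 2 5 6 (.mix 0 0 5 19 (.cond 1 0 (.contra [(1, 98), (8, 550), (4, 149)] 22925) (.contra [(0, 2), (8, 100), (4, 3)] 475)))) (.mix 0 1 9 5 (.mix 0 0 9 18 (.mix 2 0 7 19 (.cond 2 1 (.cond 3 0 (.contra [(0, 262), (10, 15250), (3, 407)] 36500) (.contra [(1, 2), (3, 1)] 0)) (.contra [(0, 924), (8, 61875), (4, 1940), (2, 1519)] 0))))) (.mix 0 1 5 18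 (.mix 0 0 5 15 (.mix 0 1 5 16 (.mix 0 0 5 9 (.cond 1 0 (.contra [(0, 40), (4, 966), (1, 77)] 53750) (.cond 3 2 (.contra [(1, 98), (10, 4250), (6, 207)] 32375) (.contra [(0, 4), (3, 1)] 0))))))) (.mix 0 0 5 5 (.cond 1 0 (.contra [(0, 196), (8, 1650), (4, 349)] 7525) (.contra [(1, 196), (8, 5450), (4, 247)] 15575))) (.mix 0 0 9 6 (.mix 0 1 9 5 (.mix 0 1 9 8 (.mix 0 0 9 5 (.cond 4 3 (.cond 1 0 (.contra [(0, 91), (10, 200000), (6, 17855), (2, 14644)] 0) (.contra [(1, 1), (2, 8)] 0)) (.contra [(1, 196), (8, 4050), (4, 527)] 35175))))))))))))))))))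

def T10 : Tr := .up 12 (.mix 0 0 12 3 (.mix 0 2 12 12 (.mix 0 0 12 12 (.mix 0 2 12 4 (.mix 0 0 12 11 (.cond 1 0 (.contra [(1, 1), (30, 1008), (24, 184)] 1204) (.contra [(0, 11), (30, 15350), (4, 978)] 19325))))))) (.mix 0 2 12 0 (.mix 0 0 12 3 (.mix 0 1 12 0 (.mix 0 0 12 3 (.mix 0 2 12 12 (.mix 0 2 12 4 (.mix 0 0 12 11 (.cond 1 0 (.contra [(0, 11), (30, 11650), (4, 2598)] 72175) (.contra [(1, 11), (30, 86800), (4, 3056)] 32600))))))))) (.mix 0 1 12 14 (.mix 0 0 12 1 (.mix 0 1 12 13 (.mix 0 1 12 2 (.mix 0 1 12 14 (.mix 0 0 12 1 (.cond 1 0 (.contra [(0, 11), (30, 63750), (4, 274)] 28125) (.contra [(1, 11), (30, 16000), (4, 672)] 42000)))))))) (.mix 0 2 12 12 (.mix 0 2 12 4 (.mix 0 2 12 1 (.mix 0 2 12 0 (.mix 0 0 12 3 (.mix 5 1 10 0 (.mix 0 1 10 1 (.mix 0 0 10 4 (.cond 4 3 (.cond 1 0 (.up 8 (.mix 0 0 8 3 (.mix 1 1 4 1 (.mix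 0 0 4 4 (.cond 1 0 (.contra [(0, 4422), (28, 1546875), (4, 7232), (2, 11845)] 0) (.cond 3 2 (.contra [(1, 2), (3, 1)] 0) (.contra [(0, 43), (36, 203125), (6, 14), (3, 150)] 0)))))) (.mix 0 2 8 0 (.mix 0 0 8 3 (.cond 1 0 (.contra [(0, 363), (34, 1031250), (4, 247), (2, 944)] 0) (.contra [(1, 1089), (34, 1031250), (4, 962), (2, 1384)] 0)))) (.mix 0 1 8 14 (.mix 0 0 8 1 (.mix 0 2 8 0 (.mix 0 0 8 3 (.cond 1 0 (.contra [(0, 121), (34, 1375000), (4, 355), (2, 3136)] 0) (.cond 3 2 (.contra [(0, 4), (3, 1)] 0) (.contra [(1, 88), (36, 25000), (22, 19500), (3, 159)] 0))))))) (.mix 0 2 8 12 (.mix 0 2 8 4 (.mix 0 0 8 11 (.mix 3 0 6 10 (.cond 4 0 (.contra [(1, 363), (34, 515625), (4, 217), (2, 1088)] 0) (.cond 2 1 (.contra [(1, 56), (30, 234375), (4, 4555), (2, 3348)] 0) (.contra [(0, 448), (30, 859375), (4, 14835), (2, 12948)] 0)))))))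 (.mix 0 0 8 11 (.cond 1 0 (.contra [(1, 121), (34, 171875), (4, 21), (2, 238)] 0) (.contra [(0, 1089), (34, 515625), (4, 118), (2, 2144)] 0)))) (.contra [(1, 47), (32, 50000), (4, 515), (2, 29)] 0)) (.contra [(1, 11), (30, 29200), (4, 672)] 24400)))))))))) (.mix 0 2 5 1 (.mix 0 0 5 4 (.mix 0 1 5 12 (.mix 0 1 5 3 (.mix 0 0 5 10 (.cond 1 0 (.contra [(0, 11), (30, 3175), (4, 597)] 18475) (.contra [(1, 1), (30, 592), (24, 216)] 1296)))))))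

def T11 : Tr := .mix 0 0 43 7 (.mix 0 2 43 19 (.mix 0 2 43 5 (.mix 0 2 43 6 (.mix 0 2 43 9 (.mix 0 0 43 6 (.mix 0 2 43 9 (.mix 0 2 43 17 (.mix 0 0 43 17 (.mix 0 1 43 9 (.mix 0 1 18 15 (.mix 11 2 44 19 (.mix 0 2 44 5 (.mix 0 0 44 18 (.cond 14 13 (.cond 1 0 (.dn 14 (.mix 0 1 14 8 (.mix 0 0 14 5 (.cond 1 0 (.contra [(0, 169), (60, 665625), (4, 6709)] 15984375) (.contra [(1, 996), (60, 5859375), (4, 9857), (2, 4654)] 0)))) (.mix 0 2 14 9 (.mix 0 2 14 17 (.mix 0 2 14 8 (.mix 0 0 14 5 (.mix 0 2 14 6 (.mix 0 2 14 9 (.mix 0 2 14 17 (.mix 0 2 14 8 (.mix 0 2 14 16 (.mix 0 2 14 15 (.mix 0 0 14 8 (.cond 1 0 (.contra [(0, 1992), (60, 3228515625), (4, 3540799), (2, 3432866)] 0) (.contra [(1, 83), (60, 1218750000), (4, 552272), (2, 160608)] 0))))))))))))) (.mix 0 0 14 7 (.cond 1 0 (.contra [(0, 498), (60, 5859375), (4, 3383), (2, 670)]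 0) (.contra [(1, 13217), (60, 108065625), (2, 12946)] 35953125))) (.mix 0 2 14 16 (.mix 0 0 14 9 (.mix 0 2 14 17 (.mix 0 2 14 8 (.mix 0 0 14 5 (.mix 0 1 14 8 (.mix 0 0 14 5 (.mix 0 2 14 6 (.mix 0 2 14 9 (.mix 0 0 14 6 (.cond 1 0 (.contra [(1, 249), (60, 814453125), (4, 794435), (2, 81178)] 0) (.contra [(0, 664), (60, 544921875), (4, 3208165), (2, 934806)] 0)))))))))))) (.mix 0 1 14 15 (.mix 0 1 14 16 (.mix 0 0 14 9 (.mix 0 2 14 17 (.mix 0 2 14 8 (.mix 0 2 14 16 (.mix 0 0 14 9 (.mix 0 2 14 17 (.mix 0 0 14 17 (.mix 0 1 14 9 (.mix 0 0 14 6 (.cond 1 0 (.contra [(0, 664), (60, 7154296875), (4, 2826381), (2, 341318)] 0) (.contra [(1, 498), (60, 5033203125), (4, 2696339), (2, 1264762)] 0)))))))))))))) (.contra [(1, 13), (58, 132180), (49, 4766)] 25332)) (.contra [(1, 1), (56, 1992), (58, 2383)] 1587)))))))))))))))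

def T12 : Tr := .mix 34 0 0 1 (.mix 34 2 0 3 (.mix 32 0 2 9 (.mix 32 2 0 5 (.mix 32 0 0 9 (.cond 33 0 (.h0 5 true (.mix 5 1 0 13 (.mix 5 0 0 10 (.cond 6 0 (.h0 15 false (.mix 15 2 0 1 (.mix 15 0 0 3 (.mix 13 2 2 9 (.mix 13 0 0 5 (.h2 4 20 (.exc 2 0 8 ⟨80090, 0, -240, 338989733018, 0, -1015826399, -338989733018, 0, 1015826399⟩ ⟨-37, -28, 199, -156606570, -118513080, 842289390, 156606570, 118513080, -842289390⟩ ⟨6585, -22087, -58470, 27871736694, -93485657070, -247480704817, -27871736694, 93485657070, 247480704817⟩ 1) (.mix 4 2 0 0 (.mix 4 2 0 12 (.mix 4 2 2 17 (.mix 4 2 0 6 (.h0 4 true (.mix 2 0 0 17 (.cond 3 0 (.contra [(1, 1), (60, 31164), (62, 9796)] 2544) (.contra [(0, 2), (60, 1179), (62, 39781)] 74284))) (.mix 4 0 0 3 (.mix 4 0 0 12 (.mix 4 2 2 8 (.mix 4 0 0 19 (.cond 5 0 (.cond 7 2 (.contra [(0, 9253), (62, 35785113600),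 (2, 340211)] 35435937792) (.contra [(1, 487), (62, 766156800), (2, 6508)] 668901376)) (.contra [(1, 1), (2, 2)] 92926)))))))))))))))) (.mix 15 1 0 12 (.mix 15 1 0 1 (.mix 15 1 0 12 (.mix 15 1 0 1 (.h0 4 false (.mix 4 0 0 12 (.mix 4 1 0 13 (.mix 4 1 0 3 (.mix 4 0 0 4 (.cond 5 0 (.contra [(0, 52), (60, 1752540), (51, 3240373)] 85855100) (.contra [(1, 1), (60, 1942908), (62, 617092)] 497904)))))) (.mix 4 1 0 3 (.mix 4 0 0 4 (.mix 4 0 0 12 (.cond 5 0 (.contra [(1, 1), (4, 2)] 103822) (.contra [(0, 2), (60, 402621), (62, 109379)] 676148))))))))))) (.contra [(1, 1), (4, 8)] 109964)))) (.mix 5 2 0 0 (.h0 1 true (.cond 2 0 (.contra [(0, 1), (58, 3363), (60, 733)] 5265) (.contra [(1, 1), (6, 16)] 1928)) (.mix 1 0 0 3 (.cond 2 0 (.contra [(1, 1), (58, 31164), (60, 9796)] 7252) (.contra [(0, 26), (58, 28740), (49, 25187)] 694050))))))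 (.contra [(1, 1), (10, 8)] 250412))))))

def T13 : Tr := .mix 0 1 43 15 (.mix 0 0 43 8 (.mix 0 2 43 16 (.mix 0 0 43 9 (.mix 0 1 43 15 (.mix 0 0 43 8 (.mix 0 2 43 16 (.mix 0 0 43 9 (.mix 0 1 43 15 (.mix 0 0 43 8 (.mix 0 2 18 16 (.h2 18 70 (.mix 18 0 0 4 (.mix 18 1 0 0 (.mix 18 0 0 4 (.mix 18 1 0 0 (.mix 18 0 4 6 (.mix 18 1 0 8 (.h2 34 70 (.mix 34 2 0 2 (.mix 34 1 0 10 (.mix 34 2 0 2 (.mix 34 1 0 10 (.mix 34 2 4 15 (.mix 34 1 0 7 (.mix 34 2 0 15 (.mix 34 1 0 7 (.mix 16 2 0 15 (.h0 9 false (.mix 9 0 0 2 (.mix 9 1 0 4 (.mix 9 2 0 13 (.mix 9 0 0 13 (.cond 10 0 (.contra [(0, 1), (56, 349917), (58, 930083)] 2185071) (.contra [(1, 1), (56, 1777338), (58, 385002), (50, 79532)] 0)))))) (.mix 9 2 0 13 (.mix 9 0 0 13 (.mix 7 0 2 8 (.mix 7 0 0 7 (.mix 7 2 0 18 (.mix 7 1 0 18 (.mix 7 0 0 8 (.cond 8 0 (.cond 15 5 (.contra [(0, 479003),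 (58, 699859353600), (2, 105521)] 687104180224) (.contra [(1, 479003), (58, 465485107200), (2, 65068)] 450172219392)) (.contra [(1, 1), (6, 16)] 6193352))))))))))))))))))) (T12)))))))) (.mix 18 2 0 0 (.mix 18 2 0 12 (.h0 2 true (.cond 3 0 (.contra [(0, 2), (56, 597), (58, 1451)] 3476) (.contra [(1, 1), (4, 4)] 0)) (.mix 2 0 0 3 (.mix 2 0 0 12 (.cond 4 1 (.contra [(1, 1), (56, 7068), (58, 3172)] 4464) (.cond 3 0 (.contra [(0, 1327), (49, 9639936), (2, 31021)] 155648000) (.contra [(1, 1327), (49, 7229952), (2, 14972)] 116736000)))))))))))))))))))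

def T14 : Tr := .dn 43 (.mix 0 1 43 8 (.mix 0 1 43 17 (.mix 0 0 43 17 (.mix 0 2 43 8 (.mix 0 2 43 16 (.mix 0 2 43 15 (.mix 0 2 43 18 (.mix 0 0 43 15 (.mix 0 2 43 18 (.mix 0 2 43 7 (.mix 0 0 18 7 (.mix 11 0 44 18 (.cond 12 0 (.cond 10 9 (.cond 2 1 (.contra [(1, 551), (4, 2573152), (2, 344104)] 2656250000) (.dn 12 (.mix 0 0 12 18 (.mix 0 2 12 7 (.mix 0 0 12 7 (.cond 1 0 (.contra [(0, 551), (6, 46640), (4, 5421)] 78125000) (.contra [(1, 551), (6, 34980), (4, 622)] 58593750))))) (.mix 0 1 12 5 (.mix 0 0 12 18 (.mix 0 1 12 6 (.mix 0 0 12 19 (.cond 1 0 (.contra [(0, 551), (6, 99252), (4, 7145)] 136718750) (.contra [(1, 90083), (6, 4061608), (2, 960)] 15585937500)))))) (.mix 0 0 1 7 (.cond 1 0 (.contra [(0, 551), (6, 13313), (4, 942)] 19531250) (.contra [(1, 1102), (6, 13082), (4, 1413)] 29296875))) (.mix 0 1 12 17 (.mix 0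 1 12 9 (.mix 0 1 12 15 (.mix 0 1 12 16 (.mix 0 0 12 9 (.cond 1 0 (.contra [(1, 551), (6, 210448), (4, 28936)] 234375000) (.contra [(0, 551), (6, 75364), (4, 5403)] 214843750))))))) (.mix 0 0 12 6 (.mix 0 1 12 5 (.mix 0 1 12 8 (.mix 0 0 12 5 (.cond 1 0 (.contra [(0, 551), (6, 87308), (4, 3519)] 175781250) (.contra [(1, 551), (6, 58584), (4, 6292)] 39062500)))))))) (.contra [(1, 2231), (58, 17662500), (2, 34208)] 76437500)) (.contra [(1, 1), (56, 99), (58, 4276)] 2689)))))))))))))) (.mix 0 2 43 9 (.mix 0 0 43 6 (.mix 0 2 43 9 (.mix 0 2 43 17 (.mix 0 0 43 17 (.mix 0 1 43 9 (.mix 0 1 43 15 (.mix 7 1 40 5 (.mix 0 1 40 8 (.mix 0 1 40 17 (.mix 0 0 40 17 (.mix 0 1 40 9 (.mix 0 1 40 15 (.mix 0 0 40 8 (.cond 1 0 (.contra [(1, 1), (56, 27132), (58, 252868)] 184752) (.cond 13 12 (.dn 14 (.mix 0 2 14 6 (.mix 0 2 14 9 (.mix 0 2 14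 17 (.mix 0 2 14 8 (.mix 0 2 14 16 (.mix 0 2 14 15 (.mix 0 0 14 8 (.cond 1 0 (.contra [(0, 29159), (4, 241022), (3, 2551264)] 5380859375) (.contra [(1, 2243), (4, 48128), (3, 1115616)] 3750000000))))))))) (.mix 0 0 14 19 (.cond 1 0 (.contra [(1, 58318), (4, 11980), (3, 287297)] 234375000) (.contra [(0, 58318), (4, 12300), (3, 160421)] 1191406250))) (.mix 0 1 14 18 (.mix 0 1 14 6 (.mix 0 0 14 19 (.mix 0 1 14 7 (.mix 0 0 14 7 (.mix 0 2 14 19 (.mix 0 0 14 16 (.cond 1 0 (.contra [(1, 29159), (4, 568216), (3, 10742816)] 33554687500) (.contra [(0, 29159), (4, 355918), (3, 10071648)] 35771484375))))))))) (.mix 0 0 14 5 (.mix 0 1 14 8 (.mix 0 0 14 5 (.mix 0 2 14 6 (.mix 0 2 14 9 (.mix 0 0 14 6 (.cond 1 0 (.contra [(1, 29159), (4, 127408), (3, 4787280)] 10859375000) (.contra [(0, 29159), (4, 183006), (3, 4874320)] 2724609375))))))))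 (.mix 0 2 14 17 (.mix 0 0 14 17 (.cond 1 0 (.contra [(1, 29159), (4, 14504), (3, 439801)] 664062500) (.contra [(0, 29159), (4, 10878), (3, 147607)] 498046875))))) (.contra [(0, 247433), (58, 1651518750), (2, 12838)] 768453125))))))))))))))))) (T11) (.mix 0 2 43 16 (.mix 0 2 43 15 (.mix 0 2 43 18 (.mix 0 0 43 15 (.mix 0 2 43 18 (.mix 0 2 43 7 (.mix 0 0 43 7 (.cond 1 0 (.contra [(1, 1), (56, 110424), (58, 169576)] 136264) (.cond 4 3 (.dn 7 (.mix 0 2 7 6 (.mix 0 0 7 19 (.cond 1 0 (.contra [(1, 51476), (4, 21472), (3, 124211)] 468750000) (.contra [(0, 51476), (4, 28724), (3, 169147)] 2500000000)))) (.mix 0 0 7 19 (.mix 0 1 7 7 (.mix 0 1 7 18 (.mix 0 1 7 6 (.mix 0 0 7 19 (.mix 0 1 7 7 (.mix 0 0 7 7 (.cond 1 0 (.contra [(1, 12869), (4, 120868), (3, 783240)] 15000000000) (.contra [(0, 12869), (4, 268399), (3, 1044320)] 20000000000)))))))))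 (.mix 0 1 7 18 (.mix 0 0 7 15 (.cond 1 0 (.contra [(0, 51476), (4, 34412), (3, 200857)] 1875000000) (.contra [(1, 51476), (4, 10096), (3, 60791)] 1718750000)))) (.mix 0 0 7 5 (.cond 1 0 (.contra [(1, 6056), (4, 1560), (3, 10987)] 78125000) (.contra [(0, 102952), (4, 25880), (3, 88947)] 2812500000))) (.mix 0 2 7 17 (.mix 0 2 7 8 (.mix 0 0 7 5 (.cond 1 0 (.contra [(0, 25738), (4, 8674), (3, 20691)] 1875000000) (.contra [(1, 25738), (4, 31568), (3, 120657)] 2187500000)))))) (.contra [(0, 62138), (54, 203968750), (2, 13577)] 2529828125)))))))))) (T13)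

def T15 : Tr := .h0 35 false (.mix 35 2 0 14 (.mix 35 0 0 11 (.mix 35 2 0 14 (.mix 35 0 0 11 (.mix 35 2 4 16 (.mix 35 0 0 19 (.mix 35 2 0 16 (.mix 25 0 0 19 (.h0 51 false (.mix 51 2 0 1 (.mix 51 0 0 3 (.mix 51 2 0 1 (.mix 51 0 0 3 (.mix 51 2 4 9 (.mix 51 0 0 5 (.cond 58 6 (.cond 52 0 (T14) (.contra [(1, 1), (14, 2)] 11374)) (.contra [(1, 1), (52, 66), (54, 6), (37, 44)] 0)))))))) (.mix 51 1 0 12 (.mix 51 1 0 1 (.mix 51 1 0 12 (.mix 50 1 3 5 (.h0 4 false (.cond 5 0 (.contra [(0, 2), (52, 777), (54, 247)] 1380) (.contra [(1, 1), (52, 132), (54, 12), (37, 88)] 0)) (.mix 4 1 0 3 (.mix 4 0 0 4 (.mix 4 0 0 12 (.mix 4 0 3 18 (.cond 5 0 (.contra [(1, 1), (4, 2)] 4778) (.cond 6 1 (.contra [(1, 73), (54, 8816640), (39, 590336), (2, 2100)] 0) (.contra [(0, 2359), (54, 815124480), (2, 259433)] 226480128))))))))))))))))))))) (.mix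 35 1 0 1 (.mix 35 1 0 12 (.mix 35 1 0 1 (.mix 35 1 0 12 (.mix 35 1 4 17 (.mix 35 1 0 5 (.h0 6 false (.mix 6 1 0 13 (.mix 6 1 0 3 (.mix 6 0 0 4 (.mix 6 0 0 12 (.cond 7 0 (.contra [(1, 1), (8, 8)] 0) (.contra [(0, 26), (52, 1263060), (43, 768847)] 21852650)))))) (.mix 6 0 0 4 (.mix 6 0 0 12 (.mix 4 1 2 9 (.mix 4 0 0 18 (.cond 5 0 (.contra [(1, 1), (14, 16)] 42632) (.cond 9 2 (.contra [(1, 9923), (54, 1098086400), (2, 23048)] 127240192) (.contra [(0, 9923), (54, 1543987200), (2, 50389)] 644653056))))))))))))))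

def T16 : Tr := .up 50 (.mix 0 2 50 14 (.mix 0 2 50 2 (.mix 0 0 50 2 (.mix 0 1 50 14 (.mix 0 1 50 11 (.mix 0 0 50 14 (.cond 4 3 (.cond 1 0 (.up 6 (.mix 0 0 6 3 (.cond 1 0 (.contra [(1, 33452), (5, 88829), (2, 12940)] 117187500) (.contra [(0, 33452), (5, 153173), (2, 13260)] 625000000))) (.mix 0 2 6 0 (.mix 0 0 6 3 (.cond 1 0 (.contra [(1, 16726), (5, 106461), (2, 10736)] 703125000) (.contra [(0, 16726), (5, 65473), (2, 11678)] 156250000)))) (.mix 0 1 6 14 (.mix 0 0 6 1 (.cond 1 0 (.contra [(1, 16726), (5, 116255), (2, 15784)] 546875000) (.contra [(0, 16726), (5, 45885), (2, 1582)] 468750000)))) (.mix 0 2 6 12 (.mix 0 2 6 4 (.mix 0 2 6 1 (.mix 0 0 6 4 (.mix 0 1 6 12 (.mix 0 0 6 12 (.cond 1 0 (.contra [(1, 8363), (5, 768504), (2, 46108)] 3750000000) (.contra [(0, 8363), (5, 1024672), (2, 131169)] 5000000000)))))))) (.mix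 0 0 6 11 (.cond 1 0 (.contra [(1, 33452), (5, 69241), (2, 2844)] 429687500) (.contra [(0, 33452), (5, 162967), (2, 18308)] 468750000)))) (.contra [(1, 1151), (52, 124312500), (3, 14731)] 103437500)) (.contra [(0, 3), (8, 25), (1, 4)] 0)))))))) (.mix 0 0 41 4 (.mix 0 2 41 1 (.mix 0 0 41 4 (.mix 0 2 41 1 (.mix 0 0 41 4 (.mix 0 2 41 1 (.mix 0 0 41 4 (.mix 0 2 41 1 (.mix 0 0 37 4 (.cond 1 0 (.contra [(1, 9), (50, 3539634), (52, 638606), (42, 75544)] 0) (T15))))))))))) (.mix 0 0 50 2 (.mix 0 2 50 13 (.mix 0 2 50 10 (.mix 0 0 50 13 (.mix 0 2 50 10 (.mix 0 2 50 11 (.mix 6 2 47 13 (.mix 0 2 47 10 (.mix 0 2 47 11 (.mix 0 2 47 3 (.mix 0 0 47 10 (.mix 0 1 47 4 (.mix 0 1 47 12 (.mix 0 0 47 12 (.cond 1 0 (.contra [(1, 19), (50, 1596096), (46, 1130488)] 2917056) (.cond 11 10 (.contra [(1, 80147), (43, 69761250), (2, 17624)] 4552375000)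 (.up 14 (.mix 0 2 14 14 (.mix 0 0 14 1 (.mix 0 2 14 0 (.mix 0 2 14 14 (.mix 0 0 14 1 (.cond 1 0 (.contra [(1, 30359), (4, 44900), (2, 435242)] 23105468750) (.contra [(0, 30359), (4, 75490), (2, 188674)] 21943359375))))))) (.mix 0 1 14 13 (.mix 0 1 14 2 (.mix 0 1 14 14 (.mix 0 1 14 11 (.mix 0 1 14 10 (.mix 0 0 14 13 (.cond 1 0 (.contra [(1, 30359), (4, 168152), (2, 1802700)] 73007812500) (.contra [(0, 30359), (4, 69766), (2, 219540)] 12236328125)))))))) (.mix 0 0 14 2 (.cond 1 0 (.contra [(1, 242872), (4, 43922), (2, 238377)] 16474609375) (.contra [(0, 242872), (4, 23054), (2, 147239)] 5947265625))) (.mix 0 1 14 0 (.mix 0 0 14 3 (.mix 0 2 14 12 (.mix 0 0 14 12 (.cond 1 0 (.contra [(0, 30359), (4, 39176), (2, 314313)] 13398437500) (.contra [(1, 30359), (4, 29382), (2, 45991)] 10048828125)))))) (.mix 0 0 8 11 (.cond 1 0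 (.contra [(1, 242872), (4, 16122), (2, 318869)] 7451171875) (.contra [(0, 242872), (4, 36954), (2, 106993)] 10458984375)))))))))))))))))))) (.mix 0 1 50 0 (.mix 0 1 50 1 (.mix 0 1 50 13 (.mix 0 1 50 2 (.mix 0 0 50 2 (.mix 0 2 50 13 (.mix 0 2 50 10 (.mix 0 0 50 13 (.mix 0 2 50 10 (.mix 0 2 31 11 (.mix 10 0 51 10 (.mix 0 1 51 4 (.mix 0 1 51 12 (.mix 0 0 51 12 (.cond 10 9 (.contra [(0, 13), (50, 6900), (26, 18062)] 293625) (.cond 1 0 (.contra [(1, 76), (54, 2450000), (3, 21)] 2150000) (.up 14 (.mix 0 1 14 1 (.mix 0 0 14 4 (.cond 1 0 (.contra [(1, 34696), (5, 82261), (2, 156416)] 937500000) (.contra [(0, 34696), (5, 33843), (2, 27728)] 859375000)))) (.mix 0 0 14 4 (.cond 1 0 (.contra [(1, 69392), (5, 21543), (2, 17632)] 937500000) (.contra [(0, 69392), (5, 57661), (2, 136224)] 1093750000))) (.mix 0 2 14 13 (.mix 0 0 14 0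 (.cond 1 0 (.contra [(1, 34696), (5, 76431), (2, 116032)] 1250000000) (.contra [(0, 34696), (5, 45503), (2, 108496)] 234375000)))) (.mix 0 0 14 10 (.cond 1 0 (.contra [(1, 69392), (5, 33203), (2, 98400)] 312500000) (.contra [(0, 69392), (5, 51831), (2, 95840)] 1406250000))) (.mix 0 1 14 12 (.mix 0 1 14 3 (.mix 0 0 14 10 (.mix 0 2 14 11 (.mix 0 2 14 3 (.mix 0 2 14 12 (.mix 0 2 14 4 (.mix 0 2 14 1 (.mix 0 2 14 0 (.mix 0 0 14 3 (.cond 1 0 (.contra [(0, 4337), (5, 443095), (2, 2167058)] 5380859375) (.contra [(1, 4337), (5, 2733600), (2, 4802816)] 48750000000))))))))))))))))))))))))))))) (.mix 0 2 50 1 (.mix 0 0 50 4 (.mix 0 2 50 1 (.mix 0 2 50 0 (.mix 0 2 50 14 (.mix 0 2 50 2 (.mix 0 0 50 2 (.mix 0 1 50 14 (.mix 0 1 50 11 (.mix 0 0 31 14 (.mix 10 1 51 12 (.mix 0 0 51 12 (.cond 3 2 (.cond 1 0 (.contra [(1, 391331), (52, 687506250),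 (2, 8552)] 9082156250) (.cond 11 10 (.contra [(1, 37641), (26, 364375), (2, 30287)] 61335000) (.up 12 (.mix 0 0 12 3 (.mix 0 1 12 0 (.mix 0 0 12 3 (.mix 0 2 12 12 (.mix 0 2 12 4 (.mix 0 0 12 11 (.cond 1 0 (.contra [(0, 58541), (6, 1697), (4, 6122160)] 31171875000) (.contra [(1, 58541), (6, 83824), (4, 5704080)] 97890625000)))))))) (.mix 0 2 12 0 (.mix 0 2 12 14 (.mix 0 0 12 1 (.cond 1 0 (.contra [(1, 58541), (6, 5119), (4, 914094)] 7451171875) (.contra [(0, 11987), (6, 2035), (2, 30442)] 1875000000))))) (.mix 0 1 12 14 (.mix 0 1 12 11 (.mix 0 1 12 10 (.mix 0 0 12 13 (.mix 0 1 12 2 (.mix 0 1 12 14 (.mix 0 1 12 11 (.mix 0 0 12 14 (.mix 0 2 12 2 (.mix 0 0 12 2 (.cond 1 0 (.contra [(0, 58541), (6, 1400487), (4, 106056704)] 1715000000000) (.contra [(1, 58541), (6, 684484), (4, 79542528)] 1286250000000)))))))))))) (.mix 0 2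 12 12 (.mix 0 0 12 12 (.cond 1 0 (.contra [(0, 117082), (6, 13313), (4, 221414)] 16474609375) (.contra [(1, 117082), (6, 6541), (4, 315898)] 5947265625)))) (.mix 0 0 12 11 (.mix 0 2 12 3 (.mix 0 2 12 12 (.mix 0 2 12 4 (.mix 0 0 12 11 (.cond 1 0 (.contra [(1, 58541), (6, 10380), (4, 2494328)] 27617187500) (.contra [(0, 58541), (6, 60975), (4, 1718536)] 73007812500)))))))))) (.contra [(1, 1), (50, 1054248), (52, 1185752)] 640824))))))))))))))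

def T17 : Tr := .dn 62 (.mix 0 0 62 18 (.mix 0 1 62 6 (.mix 0 0 62 19 (.mix 0 2 62 5 (.mix 0 0 62 18 (.mix 0 1 62 6 (.mix 0 0 62 19 (.mix 0 2 62 5 (.mix 0 0 42 18 (.mix 0 1 10 6 (.mix 10 1 64 8 (.mix 0 0 64 5 (.mix 0 1 64 8 (.mix 0 0 64 5 (.mix 0 1 64 8 (.mix 0 0 64 5 (.mix 0 1 64 8 (T16)))))))))))))))))) (.mix 0 1 62 5 (.mix 0 1 62 8 (.mix 0 0 62 5 (.mix 0 1 62 8 (.mix 0 1 62 17 (.mix 0 0 62 17 (.cond 4 3 (.contra [(0, 1), (52, 2070), (44, 286)] 2605) (.cond 1 0 (.dn 6 (.mix 0 0 6 18 (.cond 1 0 (.contra [(0, 6268), (5, 29921), (2, 2332)] 25000000) (.contra [(1, 6268), (5, 16873), (2, 2396)] 4687500))) (.mix 0 1 6 5 (.mix 0 0 6 18 (.cond 1 0 (.contra [(0, 3134), (5, 12573), (2, 2150)] 6250000) (.contra [(1, 3134), (5, 21321), (2, 1840)] 28125000)))) (.mix 0 2 6 19 (.mix 0 0 6 16 (.cond 1 0 (.contra [(0, 3134), (5, 9513),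 (2, 182)] 18750000) (.contra [(1, 3134), (5, 22851), (2, 2824)] 21875000)))) (.mix 0 1 6 17 (.mix 0 1 6 9 (.mix 0 1 6 15 (.mix 0 0 6 8 (.mix 0 1 6 17 (.mix 0 0 6 17 (.cond 1 0 (.contra [(1, 1567), (5, 151320), (2, 7724)] 150000000) (.contra [(0, 1567), (5, 201760), (2, 23357)] 200000000)))))))) (.mix 0 0 6 6 (.cond 1 0 (.contra [(0, 6268), (5, 31451), (2, 3316)] 18750000) (.contra [(1, 6268), (5, 13813), (2, 428)] 17187500)))) (.contra [(1, 211), (52, 4372500), (3, 3071)] 4737500))))))))) (.mix 0 2 62 19 (.mix 0 2 62 5 (.mix 0 2 62 6 (.mix 0 2 62 9 (.mix 0 0 62 6 (.mix 0 2 62 9 (.mix 0 2 62 17 (.mix 0 0 62 17 (.mix 0 1 42 9 (.mix 0 1 10 15 (.mix 10 0 64 7 (.mix 0 1 64 18 (.mix 0 1 64 6 (.mix 0 0 64 19 (.cond 1 0 (.contra [(1, 1), (50, 1596), (52, 5404)] 4456) (.cond 10 9 (.dn 14 (.mix 0 2 14 6 (.mix 0 0 14 19 (.cond 1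 0 (.contra [(0, 7016), (4, 6416), (3, 6439)] 34375000) (.contra [(1, 7016), (4, 32512), (3, 16193)] 37500000)))) (.mix 0 0 14 19 (.cond 1 0 (.contra [(0, 14032), (4, 28576), (3, 11145)] 43750000) (.contra [(1, 14032), (4, 4448), (3, 3915)] 37500000))) (.mix 0 1 14 18 (.mix 0 0 14 15 (.cond 1 0 (.contra [(0, 7016), (4, 22160), (3, 9091)] 9375000) (.contra [(1, 7016), (4, 24640), (3, 14867)] 50000000)))) (.mix 0 0 14 5 (.cond 1 0 (.contra [(0, 14032), (4, 20704), (3, 9819)] 56250000) (.contra [(1, 14032), (4, 20192), (3, 6567)] 12500000))) (.mix 0 2 14 17 (.mix 0 2 14 8 (.mix 0 0 14 5 (.mix 0 2 14 6 (.mix 0 2 14 9 (.mix 0 2 14 17 (.mix 0 2 14 8 (.mix 0 2 14 16 (.mix 0 2 14 15 (.mix 0 0 14 8 (.cond 1 0 (.contra [(0, 877), (4, 443274), (3, 87067)] 215234375) (.contra [(1, 877), (4, 1017088), (3, 529824)] 1950000000)))))))))))))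 (.contra [(0, 19), (52, 179625), (46, 7075), (2, 51)] 0))))))))))))))))) (.mix 0 1 62 17 (.mix 0 0 62 17 (.mix 0 2 62 8 (.mix 0 2 62 16 (.mix 0 2 62 15 (.mix 0 2 62 18 (.mix 0 0 62 15 (.mix 0 2 62 18 (.mix 0 2 42 7 (.mix 0 0 10 7 (.mix 10 2 64 16 (.mix 0 0 64 9 (.cond 3 2 (.contra [(1, 1), (50, 208008), (52, 239992)] 147288) (.cond 1 0 (.cond 11 10 (.dn 12 (.mix 0 0 12 18 (.mix 0 1 12 6 (.mix 0 0 12 19 (.mix 0 1 12 7 (.mix 0 1 12 18 (.mix 0 0 12 15 (.cond 1 0 (.contra [(1, 10969), (6, 19120), (4, 194896)] 3915625000) (.contra [(0, 10969), (6, 1405), (4, 868848)] 1246875000)))))))) (.mix 0 1 12 5 (.mix 0 1 12 8 (.mix 0 0 12 5 (.cond 1 0 (.contra [(0, 6823), (6, 839), (2, 99074)] 75000000) (.contra [(1, 10969), (6, 1219), (4, 104758)] 298046875))))) (.mix 0 2 12 19 (.mix 0 2 12 5 (.mix 0 2 12 6 (.mix 0 0 12 19 (.mix 0 1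 12 7 (.mix 0 1 12 18 (.mix 0 1 12 6 (.mix 0 0 12 19 (.mix 0 1 12 7 (.mix 0 0 12 7 (.cond 1 0 (.contra [(1, 10969), (6, 173108), (4, 3421440)] 51450000000) (.contra [(0, 10969), (6, 322219), (4, 4561920)] 68600000000)))))))))))) (.mix 0 1 12 17 (.mix 0 0 12 17 (.cond 1 0 (.contra [(1, 21938), (6, 1433), (4, 6098)] 237890625) (.contra [(0, 6823), (6, 620), (2, 52793)] 106250000)))) (.mix 0 0 12 6 (.mix 0 2 12 9 (.mix 0 2 12 17 (.mix 0 2 12 8 (.mix 0 0 12 5 (.cond 1 0 (.contra [(1, 10969), (6, 2908), (4, 220824)] 1104687500) (.contra [(0, 6823), (6, 6601), (2, 329752)] 1200000000)))))))) (.contra [(1, 26246), (45, 1010125), (4, 402)] 83945250)) (.contra [(1, 2896019), (52, 1259178750), (43, 181553125), (2, 2778)] 0))))))))))))))) (.mix 0 0 62 6 (.mix 0 2 62 9 (.mix 0 2 62 17 (.mix 0 0 62 17 (.mix 0 1 62 9 (.mix 0 1 62 15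 (.mix 6 1 60 15 (.mix 0 1 60 16 (.mix 0 1 60 19 (.mix 0 1 60 7 (.mix 0 0 60 7 (.mix 0 1 60 18 (.mix 0 1 60 6 (.mix 0 0 54 19 (.cond 11 10 (.contra [(1, 1), (50, 3264), (52, 3736)] 1504) (.cond 1 0 (.contra [(1, 2173), (52, 130980000), (2, 112396)] 344462500) (.dn 14 (.mix 0 1 14 8 (.mix 0 0 14 5 (.mix 0 2 14 6 (.mix 0 2 14 9 (.mix 0 0 14 6 (.cond 1 0 (.contra [(1, 6139), (4, 137730), (2, 5972)] 924218750) (.contra [(0, 6139), (4, 85370), (2, 12314)] 877734375))))))) (.mix 0 2 14 9 (.mix 0 2 14 17 (.mix 0 2 14 8 (.mix 0 2 14 16 (.mix 0 2 14 15 (.mix 0 0 14 8 (.cond 1 0 (.contra [(0, 6139), (4, 70724), (2, 12462)] 489453125) (.contra [(1, 6139), (4, 521628), (2, 24184)] 2920312500)))))))) (.mix 0 0 14 7 (.cond 1 0 (.contra [(0, 49112), (4, 42571), (2, 3862)] 237890625) (.contra [(1, 49112), (4, 83653), (2, 6666)] 658984375)))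 (.mix 0 2 14 16 (.mix 0 0 14 9 (.mix 0 2 14 17 (.mix 0 0 14 17 (.cond 1 0 (.contra [(0, 6139), (4, 92389), (2, 6120)] 535937500) (.contra [(1, 6139), (4, 30923), (2, 4590)] 401953125)))))) (.mix 0 0 8 6 (.cond 1 0 (.contra [(0, 49112), (4, 44141), (2, 6066)] 418359375) (.contra [(1, 49112), (4, 80513), (2, 2258)] 298046875))))))))))))))))))))

def T18 : Tr := .mix 0 0 45 10 (.mix 0 1 45 4 (.mix 0 0 45 11 (.mix 0 2 45 3 (.mix 0 0 45 10 (.mix 0 1 45 4 (.mix 0 0 45 11 (.mix 0 2 45 3 (.mix 0 0 12 10 (.mix 9 1 46 0 (.mix 0 0 46 3 (.mix 0 1 46 0 (.mix 0 0 46 3 (.mix 0 1 46 0 (.mix 0 0 46 3 (.mix 0 1 46 0 (.mix 0 0 27 3 (.cond 15 14 (.contra [(1, 1), (42, 1248), (44, 1252)] 1824) (.cond 9 8 (.h2 31 68 (.mix 31 0 0 4 (.mix 31 1 0 0 (.mix 31 0 0 4 (.mix 4 1 0 0 (.mix 32 0 4 6 (.mix 32 1 0 8 (.cond 35 3 (.contra [(1, 1), (10, 2)]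 32638) (.h2 31 80 (.mix 31 0 0 0 (.mix 31 1 0 4 (.mix 31 0 0 0 (.mix 19 1 0 4 (.mix 32 0 4 8 (.mix 32 1 0 6 (.mix 32 0 0 8 (.cond 38 6 (.contra [(1, 1), (16, 8)] 2692) (T17))))))))) (.mix 31 1 0 2 (.mix 29 1 1 16 (.h0 2 true (.mix 2 0 0 2 (.cond 4 1 (.contra [(1, 1), (48, 660), (50, 364)] 540) (.cond 3 0 (.contra [(1, 439), (41, 191232), (2, 3080)] 2618880) (.contra [(0, 439), (41, 254976), (2, 7765)] 3491840)))) (.mix 1 0 0 9 (.cond 2 0 (.contra [(1, 1), (18, 8)] 0) (.contra [(0, 1), (48, 249), (50, 2311)] 4579)))))))))))))) (.mix 31 2 0 0 (.mix 31 2 0 12 (.mix 31 2 0 0 (.mix 4 2 0 12 (.mix 32 2 4 17 (.mix 32 2 0 6 (.mix 32 2 0 17 (.h0 7 true (.mix 7 2 0 14 (.mix 7 2 0 4 (.mix 7 0 0 3 (.mix 7 0 0 12 (.cond 8 0 (.cond 12 4 (.contra [(0, 106663), (48, 175945728), (2, 929)] 82556928) (.contra [(1, 106663), (48, 112851456),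 (2, 364)] 21707264)) (.contra [(1, 19), (46, 167328), (42, 739084)] 4360608)))))) (.mix 3 2 0 8 (.mix 3 0 0 19 (.mix 3 0 0 17 (.cond 4 0 (.contra [(1, 1), (46, 44940), (48, 10500), (40, 1712)] 0) (.contra [(0, 2), (46, 16713), (48, 47287)] 109668)))))))))))))) (.contra [(1, 1), (44, 43164), (46, 116836)] 146932)))))))))))))))))))

def T19 : Tr := .up 45 (.mix 0 1 45 1 (.mix 0 1 45 13 (.mix 0 1 45 2 (.mix 0 0 45 2 (.mix 0 2 45 13 (.mix 0 2 45 10 (.mix 0 0 45 13 (.cond 1 0 (.contra [(1, 1), (42, 23544), (44, 32456)] 24872) (.cond 4 3 (.contra [(0, 5269), (35, 1171750), (2, 1681)] 49487500) (.up 7 (.mix 0 1 7 1 (.mix 0 0 7 4 (.cond 1 0 (.contra [(0, 8644), (4, 5220), (3, 25231)] 100000000) (.contra [(1, 8644), (4, 3680), (3, 20263)] 18750000)))) (.mix 0 0 7 4 (.mix 0 1 7 12 (.mix 0 1 7 3 (.mix 0 1 7 0 (.mix 0 0 7 3 (.mix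 0 2 7 12 (.mix 0 0 7 12 (.cond 1 0 (.contra [(0, 2161), (4, 48243), (3, 149984)] 800000000) (.contra [(1, 2161), (4, 22676), (3, 112488)] 600000000))))))))) (.mix 0 2 7 13 (.mix 0 0 7 0 (.cond 1 0 (.contra [(1, 8644), (4, 1968), (3, 8027)] 68750000) (.contra [(0, 8644), (4, 6076), (3, 31349)] 75000000)))) (.mix 0 0 7 10 (.cond 1 0 (.contra [(0, 17288), (4, 4792), (3, 11367)] 112500000) (.contra [(1, 17288), (4, 4664), (3, 29679)] 53125000))) (.mix 0 1 7 12 (.mix 0 1 7 3 (.mix 0 0 7 10 (.cond 1 0 (.contra [(1, 4322), (4, 5648), (3, 17485)] 87500000) (.contra [(0, 4322), (4, 1754), (3, 1095)] 75000000))))))))))))))) (.mix 0 0 45 4 (.mix 0 2 45 1 (.mix 2 1 39 13 (.mix 0 1 39 2 (.mix 0 0 39 2 (.mix 0 1 39 14 (.mix 0 1 39 11 (.cond 7 6 (.contra [(1, 1), (42, 408), (44, 467)] 279) (.cond 3 2 (.contra [(1, 13), (44, 26820),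 (35, 934)] 3300) (.up 7 (.mix 0 2 7 14 (.mix 0 0 7 1 (.cond 1 0 (.contra [(1, 204), (46, 234375), (4, 2077), (2, 950)] 0) (.contra [(0, 101), (46, 440625), (4, 1121)] 609375)))) (.mix 0 0 5 4 (.mix 0 1 5 12 (.mix 0 0 5 12 (.mix 0 1 5 3 (.mix 0 0 5 10 (.cond 1 0 (.contra [(1, 101), (46, 896250), (4, 42926)] 21050000) (.contra [(0, 34), (46, 234375), (4, 5885), (2, 1188)] 0))))))) (.mix 0 0 7 2 (.cond 1 0 (.contra [(1, 101), (46, 90000), (4, 997)] 628125) (.contra [(0, 101), (46, 120000), (4, 2171)] 837500))) (.mix 0 0 5 10 (.mix 0 2 5 11 (.mix 0 2 5 3 (.mix 0 0 5 10 (.cond 1 0 (.contra [(0, 202), (46, 3695625), (4, 7603)] 3600000) (.contra [(1, 51), (46, 234375), (4, 3709), (2, 542)] 0)))))) (.mix 0 1 5 12 (.mix 0 1 5 3 (.mix 0 1 5 0 (.mix 0 1 5 1 (.mix 0 0 5 4 (.cond 1 0 (.contra [(0, 202), (46, 4175625), (4, 2147)] 6950000)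 (.contra [(1, 17), (46, 468750), (4, 3066), (2, 812)] 0))))))))))))))))) (.mix 0 2 45 13 (.mix 0 2 45 10 (.mix 0 0 45 13 (.mix 0 2 45 10 (.mix 0 2 45 11 (.mix 5 0 42 2 (.cond 6 0 (.contra [(1, 1), (42, 39), (44, 836)] 557) (.cond 4 3 (.contra [(1, 571), (44, 1162500), (2, 6688)] 2937500) (.up 6 (.mix 0 0 6 3 (.mix 0 2 6 12 (.mix 0 0 6 12 (.cond 1 0 (.contra [(0, 139), (4, 10608), (2, 1657)] 3125000) (.contra [(1, 139), (4, 7956), (2, 374)] 2343750))))) (.mix 0 2 6 0 (.mix 0 0 6 3 (.mix 0 1 6 0 (.mix 0 0 6 3 (.cond 1 0 (.contra [(0, 139), (4, 23012), (2, 2309)] 5468750) (.contra [(1, 139), (4, 7016), (2, 192)] 4687500)))))) (.mix 0 0 1 2 (.cond 1 0 (.contra [(1, 278), (4, 2866), (2, 465)] 1171875) (.contra [(0, 139), (4, 3069), (2, 310)] 781250))) (.mix 0 2 6 12 (.mix 0 2 6 4 (.mix 0 2 6 1 (.mix 0 2 6 0 (.mix 0 0 6 3 (.cond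 1 0 (.contra [(0, 139), (4, 15828), (2, 2159)] 8593750) (.contra [(1, 139), (4, 49616), (2, 8168)] 9375000))))))) (.mix 0 0 6 11 (.mix 0 1 6 10 (.mix 0 1 6 4 (.mix 0 0 6 11 (.cond 1 0 (.contra [(0, 139), (4, 19420), (2, 1539)] 7031250) (.contra [(1, 139), (4, 14200), (2, 1732)] 1562500))))))))))))))) (T18) (.mix 0 1 45 12 (.mix 0 0 45 12 (.mix 0 2 45 4 (.mix 0 2 45 1 (.mix 0 0 45 4 (.mix 0 2 45 1 (.mix 0 2 45 0 (.mix 7 2 44 1 (.mix 0 2 44 0 (.mix 0 2 44 14 (.mix 0 0 44 1 (.mix 0 1 44 13 (.mix 0 1 44 2 (.mix 0 0 44 2 (.cond 1 0 (.contra [(1, 1), (42, 7308), (44, 48692)] 37104) (.cond 13 12 (.contra [(0, 7891), (44, 10721250), (2, 386)] 3096875) (.up 14 (.mix 0 1 14 1 (.mix 0 1 14 13 (.mix 0 1 14 2 (.mix 0 1 14 14 (.mix 0 1 14 11 (.mix 0 1 14 10 (.mix 0 0 14 13 (.cond 1 0 (.contra [(1, 6379), (4, 130048), (3, 3391200)]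 1950000000) (.contra [(0, 6379), (4, 51974), (3, 582240)] 215234375))))))))) (.mix 0 0 14 4 (.cond 1 0 (.contra [(0, 12758), (4, 2524), (3, 40433)] 47656250) (.contra [(1, 12758), (4, 2588), (3, 63901)] 9375000))) (.mix 0 2 14 13 (.mix 0 2 14 10 (.mix 0 0 14 13 (.mix 0 1 14 2 (.mix 0 0 14 2 (.mix 0 1 14 14 (.mix 0 0 14 1 (.cond 1 0 (.contra [(0, 6379), (4, 72854), (3, 2363616)] 1430859375) (.contra [(1, 6379), (4, 119608), (3, 2500512)] 1342187500))))))))) (.mix 0 0 14 10 (.mix 0 1 14 4 (.mix 0 0 14 11 (.mix 0 1 14 10 (.mix 0 1 14 4 (.mix 0 0 14 11 (.cond 1 0 (.contra [(0, 6379), (4, 39654), (3, 1078544)] 108984375) (.contra [(1, 6379), (4, 26352), (3, 1095952)] 434375000)))))))) (.mix 0 1 14 12 (.mix 0 0 14 12 (.cond 1 0 (.contra [(0, 6379), (4, 2310), (3, 34523)] 19921875) (.contra [(1, 6379), (4, 3080), (3, 99189)]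 26562500)))))))))))))))))))))

def T20 : Tr := .mix 0 1 59 15 (.mix 0 0 59 8 (.mix 0 2 59 16 (.mix 0 0 59 9 (.mix 0 1 59 15 (.mix 0 0 59 8 (.mix 0 2 51 16 (.mix 0 0 29 9 (.mix 8 0 61 6 (.mix 0 2 61 9 (.mix 0 0 61 6 (.mix 0 2 61 9 (.mix 0 0 61 6 (.mix 0 2 40 9 (.mix 0 0 31 6 (.cond 8 7 (.h0 36 false (.mix 36 2 0 1 (.mix 36 0 0 3 (.mix 19 2 0 1 (.mix 37 2 3 9 (.mix 37 0 0 5 (.mix 6 2 0 9 (.cond 41 4 (.h0 48 true (.mix 48 1 0 13 (.mix 48 0 0 10 (.mix 33 1 0 13 (.mix 49 1 3 15 (.mix 49 0 0 18 (.mix 20 1 0 15 (.cond 53 4 (T19) (.contra [(1, 1), (12, 8)] 236)))))))) (.mix 48 2 0 0 (.mix 48 2 0 12 (.mix 33 2 0 0 (.mix 49 2 3 17 (.h0 4 true (.mix 4 2 0 14 (.mix 4 2 0 4 (.mix 4 0 0 3 (.mix 4 0 3 17 (.cond 6 1 (.contra [(1, 1), (40, 47508), (42, 16492)] 18204) (.cond 5 0 (.contra [(1, 1483), (33, 234624), (2, 28)] 514304) (.contra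 [(0, 1483), (33, 973312), (2, 549)] 19100672))))))) (.mix 4 0 0 3 (.mix 4 0 0 12 (.cond 5 0 (.contra [(0, 1), (40, 3873), (42, 2527)] 9499) (.contra [(1, 1), (12, 16)] 472)))))))))) (.contra [(1, 1), (38, 2442), (40, 758)] 296)))))))) (.mix 36 1 0 12 (.mix 36 1 0 1 (.h0 2 false (.mix 2 0 0 12 (.cond 3 0 (.contra [(1, 1), (8, 2)] 506) (.contra [(0, 2), (38, 1263), (40, 17)] 1404))) (.mix 2 1 0 3 (.mix 2 0 0 4 (.cond 3 0 (.contra [(0, 19), (38, 7368), (34, 6679)] 98248) (.contra [(1, 1), (38, 4884), (40, 1516)] 592)))))))) (.contra [(1, 1), (2, 8)] 4748))))))))))))))))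

def T21 : Tr := .dn 59 (.mix 0 1 59 8 (.mix 0 1 59 17 (.mix 0 0 59 17 (.mix 0 2 59 8 (.mix 0 2 59 16 (.mix 5 0 58 18 (.cond 4 3 (.cond 6 0 (.dn 6 (.mix 0 0 6 18 (.mix 0 2 6 7 (.mix 0 0 6 7 (.cond 1 0 (.contra [(0, 37), (4, 727), (2, 1680)] 125000) (.contra [(1, 37), (4, 314), (2, 1260)] 93750))))) (.mix 0 1 6 5 (.mix 0 0 6 18 (.mix 0 1 6 6 (.mix 0 0 6 19 (.cond 1 0 (.contra [(0, 37), (4, 1115), (2, 4124)] 218750) (.contra [(1, 37), (4, 480), (2, 152)] 187500)))))) (.mix 0 0 1 7 (.cond 1 0 (.contra [(0, 37), (4, 154), (2, 531)] 31250) (.contra [(1, 74), (4, 231), (2, 334)] 46875))) (.mix 0 1 6 17 (.mix 0 1 6 9 (.mix 0 1 6 15 (.mix 0 1 6 16 (.mix 0 0 6 9 (.cond 1 0 (.contra [(1, 37), (4, 3032), (2, 9776)] 375000) (.contra [(0, 37), (4, 1361), (2, 1068)] 343750))))))) (.mix 0 0 6 6 (.mix 0 1 6 5 (.mix 0 1 6 8 (.mix 0 0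 6 5 (.cond 1 0 (.contra [(0, 37), (4, 1053), (2, 2596)] 281250) (.contra [(1, 37), (4, 604), (2, 3208)] 62500))))))) (.contra [(1, 1492), (34, 26250), (2, 511)] 254375)) (.contra [(1, 1), (36, 252), (38, 448)] 372)))))))) (.mix 0 2 59 9 (.mix 0 0 59 6 (.mix 0 2 59 9 (.mix 0 2 59 17 (.mix 0 0 59 17 (.mix 0 1 59 9 (.mix 0 1 51 15 (.mix 7 1 60 5 (.mix 0 1 60 8 (.mix 0 1 60 17 (.mix 0 0 60 17 (.mix 0 1 60 9 (.mix 0 1 39 15 (.mix 0 0 30 8 (.cond 13 12 (.cond 1 0 (.contra [(1, 9), (29, 2750), (3, 916)] 168000) (.dn 14 (.mix 0 2 14 6 (.mix 0 2 14 9 (.mix 0 2 14 17 (.mix 0 2 14 8 (.mix 0 2 14 16 (.mix 0 2 14 15 (.mix 0 0 14 8 (.cond 1 0 (.contra [(0, 733), (5, 94368), (2, 5114)] 8609375) (.contra [(1, 733), (5, 638496), (2, 7168)] 78000000))))))))) (.mix 0 0 14 19 (.cond 1 0 (.contra [(1, 1466), (5, 8539), (2, 260)] 375000) (.contra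 [(0, 1466), (5, 10727), (2, 100)] 1906250))) (.mix 0 1 14 18 (.mix 0 1 14 6 (.mix 0 0 14 19 (.mix 0 1 14 7 (.mix 0 0 14 7 (.mix 0 2 14 19 (.mix 0 0 14 16 (.cond 1 0 (.contra [(1, 733), (5, 458592), (2, 8392)] 53687500) (.contra [(0, 733), (5, 454176), (2, 2666)] 57234375))))))))) (.mix 0 0 14 5 (.mix 0 1 14 8 (.mix 0 0 14 5 (.mix 0 2 14 6 (.mix 0 2 14 9 (.mix 0 0 14 6 (.cond 1 0 (.contra [(1, 733), (5, 181360), (2, 1296)] 17375000) (.contra [(0, 733), (5, 137840), (2, 4122)] 4359375)))))))) (.mix 0 2 14 17 (.mix 0 0 14 17 (.cond 1 0 (.contra [(1, 733), (5, 14787), (2, 248)] 1062500) (.contra [(0, 733), (5, 6509), (2, 186)] 796875)))))) (.contra [(0, 19), (36, 1002), (32, 706)] 1761)))))))))))))))) (.mix 0 0 59 7 (.mix 0 2 59 19 (.mix 0 2 59 5 (.mix 0 2 59 6 (.mix 0 2 59 9 (.mix 0 0 59 6 (.mix 0 2 51 9 (.mix 7 2 60 19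 (.mix 0 2 60 5 (.mix 0 0 60 18 (.cond 10 9 (.cond 1 0 (.dn 10 (.mix 0 1 10 8 (.mix 0 0 10 5 (.mix 0 2 10 6 (.mix 0 0 10 19 (.mix 0 1 10 7 (.mix 0 0 10 7 (.cond 1 0 (.contra [(0, 187), (34, 372200), (2, 6822)] 783125) (.contra [(1, 57), (34, 252200), (4, 6104)] 1017500)))))))) (.mix 0 2 10 9 (.mix 0 2 10 17 (.mix 0 2 10 8 (.mix 0 0 10 5 (.cond 1 0 (.contra [(1, 57), (34, 17200), (4, 1576)] 205000) (.contra [(0, 57), (34, 82150), (4, 442)] 150625)))))) (.mix 0 0 10 7 (.mix 0 1 10 18 (.mix 0 0 10 15 (.cond 1 0 (.contra [(0, 3), (34, 956), (32, 53)] 7850) (.contra [(1, 57), (34, 32000), (4, 668)] 50000))))) (.mix 0 2 10 16 (.mix 0 0 10 9 (.mix 0 2 10 17 (.mix 0 2 10 8 (.mix 0 0 10 5 (.cond 1 0 (.contra [(0, 57), (34, 24850), (4, 1414)] 461875) (.contra [(1, 187), (34, 382000), (2, 2592)] 675000))))))) (.mix 0 1 10 15 (.mix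 0 1 10 16 (.mix 0 0 10 9 (.mix 0 2 10 17 (.mix 0 2 10 8 (.mix 0 2 10 16 (.mix 0 0 10 9 (.cond 5 4 (.contra [(1, 57), (34, 40600), (4, 316)] 152500) (.cond 1 0 (.contra [(0, 83), (36, 800000), (6, 49060), (2, 2699)] 0) (.contra [(1, 1), (2, 16)] 0))))))))))) (.contra [(1, 7), (38, 60), (32, 968)] 1500)) (.contra [(1, 1), (36, 54), (38, 121)] 19)))))))))))) (.mix 0 2 59 16 (.mix 0 2 59 15 (.mix 0 2 59 18 (.mix 0 0 59 15 (.mix 0 2 59 18 (.mix 0 2 59 7 (.mix 0 0 51 7 (.mix 0 1 29 18 (.mix 8 1 61 17 (.mix 0 0 61 17 (.mix 0 1 61 9 (.mix 0 1 61 15 (.mix 0 0 61 8 (.cond 1 0 (.contra [(1, 1), (36, 12), (38, 2788)] 1632) (.cond 10 9 (.cond 7 6 (.contra [(1, 7), (4, 144), (3, 104)] 125000) (.dn 13 (.mix 0 2 13 6 (.mix 0 0 13 19 (.cond 1 0 (.contra [(1, 4144), (6, 11086), (2, 207)] 16734375) (.contra [(0, 28), (6, 72), (5, 73)] 62500))))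 (.mix 0 0 13 19 (.cond 1 0 (.contra [(0, 8288), (6, 5430), (2, 67)] 11046875) (.contra [(1, 952), (6, 1616), (5, 1171)] 1500000))) (.mix 0 2 5 19 (.mix 0 2 5 5 (.mix 0 0 5 18 (.mix 0 2 5 7 (.mix 0 0 5 7 (.cond 1 0 (.contra [(1, 119), (6, 1804), (5, 438)] 3000000) (.contra [(0, 119), (6, 3397), (5, 584)] 4000000))))))) (.mix 0 0 13 5 (.cond 1 0 (.contra [(1, 952), (6, 1520), (5, 649)] 2000000) (.contra [(0, 952), (6, 880), (5, 977)] 375000))) (.mix 0 2 13 17 (.mix 0 2 13 8 (.mix 0 0 13 5 (.mix 0 1 13 8 (.mix 0 0 13 5 (.mix 0 2 13 6 (.mix 0 2 13 9 (.mix 0 0 13 6 (.cond 1 0 (.contra [(1, 119), (6, 12848), (5, 10480)] 17375000) (.contra [(0, 119), (6, 13086), (5, 17620)] 4359375)))))))))))) (.contra [(0, 953), (38, 663000), (2, 1678)] 2099375)))))))))))))))) (T20)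

def T22 : Tr := .mix 0 2 27 1 (.mix 0 0 27 4 (.mix 0 2 27 1 (.mix 0 2 27 0 (.mix 0 2 27 14 (.mix 0 2 27 2 (.mix 0 0 27 2 (.mix 0 1 15 14 (.mix 8 1 28 12 (.mix 0 0 28 12 (.mix 0 1 28 3 (.mix 0 1 28 0 (.cond 11 10 (.contra [(1, 1), (34, 126), (36, 224)] 38) (.up 12 (.mix 0 0 12 3 (.mix 0 1 12 0 (.mix 0 0 12 3 (.mix 0 2 12 12 (.mix 0 2 12 4 (.mix 0 0 12 11 (.cond 1 0 (.contra [(0, 197), (36, 549750), (2, 11069)] 3026250) (.contra [(1, 1), (36, 4320), (28, 472)] 12064)))))))) (.mix 0 2 12 0 (.mix 0 2 12 14 (.mix 0 0 12 1 (.mix 0 2 12 0 (.mix 0 0 12 3 (.mix 0 2 12 12 (.mix 0 0 12 12 (.cond 1 0 (.contra [(1, 197), (36, 7035000), (2, 54724)] 4325000) (.contra [(0, 19), (36, 451080), (28, 1643)] 333816))))))))) (.mix 0 1 12 14 (.mix 0 1 12 11 (.mix 0 1 12 10 (.mix 0 0 12 13 (.mix 0 1 12 2 (.mix 0 1 12 14 (.mix 0 1 12 11 (.mix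 0 0 12 14 (.mix 8 2 12 13 (.mix 0 2 12 10 (.mix 0 2 12 11 (.mix 0 0 12 14 (.cond 1 0 (.contra [(1, 197), (36, 1137000), (2, 6416)] 615000) (.cond 5 4 (.cond 9 8 (.contra [(1, 8118), (40, 123750000), (4, 30752), (3, 113)] 0) (.contra [(0, 16), (3, 1)] 0)) (.contra [(0, 76123), (38, 12040995000), (30, 23003125), (2, 4009104)] 0))))))))))))))) (.mix 0 2 12 12 (.mix 0 0 12 12 (.mix 0 2 12 4 (.mix 0 0 12 11 (.cond 1 0 (.contra [(1, 1257), (36, 5544000), (28, 10000), (2, 36988)] 0) (.contra [(0, 197), (36, 728250), (2, 3559)] 783750)))))) (.mix 0 0 12 11 (.mix 0 2 12 3 (.mix 0 2 12 12 (.mix 0 2 12 4 (.mix 0 0 12 11 (.cond 1 0 (.contra [(1, 197), (36, 426000), (2, 8816)] 1270000) (.contra [(0, 197), (36, 2363250), (2, 11047)] 108750))))))))))))))))))))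

def T23 : Tr := .up 27 (.mix 0 2 27 14 (.mix 0 2 27 2 (.mix 0 0 27 2 (.mix 0 1 27 14 (.mix 0 1 27 11 (.mix 0 0 27 14 (.mix 0 1 27 11 (.mix 0 1 15 10 (.mix 8 1 28 1 (.mix 0 1 28 13 (.mix 0 0 28 0 (.mix 0 2 28 14 (.mix 0 2 28 2 (.mix 0 0 26 2 (.cond 12 11 (.cond 1 0 (.up 14 (.mix 0 0 14 3 (.cond 1 0 (.contra [(1, 1988), (5, 7911), (2, 440)] 2250000) (.contra [(0, 1988), (5, 9327), (2, 760)] 1062500))) (.mix 0 2 14 0 (.mix 0 0 14 3 (.cond 1 0 (.contra [(1, 994), (5, 5543), (2, 736)] 375000) (.contra [(0, 994), (5, 6019), (2, 428)] 1906250)))) (.mix 0 1 14 14 (.mix 0 0 14 1 (.mix 0 1 14 13 (.mix 0 0 14 0 (.mix 0 1 14 1 (.mix 0 1 14 13 (.mix 0 0 14 0 (.cond 1 0 (.contra [(0, 497), (5, 90592), (2, 11538)] 4359375) (.contra [(1, 497), (5, 111536), (2, 4944)] 17375000))))))))) (.mix 0 2 14 12 (.mix 0 2 14 4 (.mix 0 2 14 1 (.mix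 0 0 14 4 (.mix 0 1 14 12 (.mix 0 0 14 12 (.mix 0 1 14 3 (.mix 0 0 14 10 (.cond 1 0 (.contra [(0, 497), (5, 270288), (2, 11938)] 57234375) (.contra [(1, 497), (5, 275616), (2, 27176)] 53687500)))))))))) (.mix 0 0 14 11 (.mix 0 1 14 10 (.mix 0 1 14 4 (.mix 0 1 14 12 (.mix 0 1 14 3 (.mix 0 1 14 0 (.mix 0 1 14 1 (.mix 0 0 14 4 (.cond 1 0 (.contra [(1, 497), (5, 381600), (2, 25856)] 78000000) (.contra [(0, 497), (5, 58320), (2, 14578)] 8609375))))))))))) (.contra [(1, 33), (32, 17000), (3, 488)] 224000)) (.contra [(0, 3), (8, 25), (1, 4)] 0)))))))))))))))) (.mix 0 1 27 13 (.mix 0 0 27 0 (.mix 0 2 27 14 (.mix 0 0 27 1 (.mix 0 1 27 13 (.mix 0 0 27 0 (.mix 0 2 27 14 (.mix 0 0 15 1 (.mix 8 0 28 4 (.mix 0 2 28 1 (.mix 0 0 28 4 (.mix 0 2 28 1 (.mix 0 0 28 4 (.mix 0 2 26 1 (.mix 0 0 17 4 (.cond 3 2 (.contra [(1, 3), (34, 1794), (36,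 46), (26, 104)] 0) (T21))))))))))))))))) (.mix 0 0 27 2 (.mix 0 2 27 13 (.mix 0 2 27 10 (.mix 0 0 27 13 (.mix 0 2 27 10 (.mix 0 2 27 11 (.cond 3 2 (.contra [(1, 1), (34, 432), (36, 968)] 816) (.cond 6 5 (.contra [(0, 23), (38, 3625), (2, 2)] 3500) (.up 6 (.mix 0 2 6 14 (.mix 0 0 6 1 (.mix 0 2 6 0 (.mix 0 2 6 14 (.mix 0 0 6 1 (.cond 1 0 (.contra [(1, 83), (4, 1304), (3, 14800)] 250000) (.contra [(0, 83), (4, 2133), (3, 13480)] 1125000))))))) (.mix 0 1 6 13 (.mix 0 1 6 2 (.mix 0 1 6 14 (.mix 0 1 6 11 (.mix 0 1 6 10 (.mix 0 0 6 13 (.cond 1 0 (.contra [(1, 83), (4, 6496), (3, 46304)] 1500000) (.contra [(0, 83), (4, 2773), (3, 7032)] 1375000)))))))) (.mix 0 0 6 2 (.cond 1 0 (.contra [(1, 83), (4, 160), (3, 1293)] 62500) (.contra [(0, 83), (4, 120), (3, 451)] 46875))) (.mix 0 1 6 0 (.mix 0 0 6 3 (.mix 0 2 6 12 (.mix 0 0 6 12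 (.cond 1 0 (.contra [(0, 83), (4, 1529), (3, 8352)] 500000) (.contra [(1, 83), (4, 628), (3, 6264)] 375000)))))) (.mix 0 2 6 1 (.mix 0 2 6 0 (.mix 0 0 6 3 (.mix 0 1 6 0 (.mix 0 0 6 3 (.cond 1 0 (.contra [(0, 83), (4, 2323), (3, 19928)] 875000) (.contra [(1, 83), (4, 924), (3, 1904)] 750000)))))))))))))))) (.mix 0 1 27 0 (.mix 0 1 27 1 (.mix 0 1 27 13 (.mix 0 1 27 2 (.mix 0 0 27 2 (.mix 0 2 27 13 (.mix 0 2 27 10 (.mix 0 0 15 13 (.mix 8 0 28 10 (.mix 0 1 28 4 (.mix 0 1 28 12 (.mix 0 0 28 12 (.cond 1 0 (.contra [(1, 19), (34, 4008), (30, 2824)] 8488) (.cond 5 4 (.contra [(1, 361), (36, 4401000), (27, 171550), (2, 1272)] 0) (.up 12 (.mix 0 1 12 1 (.mix 0 0 12 4 (.cond 1 0 (.contra [(1, 9971), (38, 14964750), (2, 1088)] 8388750) (.contra [(0, 9971), (38, 2639250), (2, 889)] 14128750)))) (.mix 0 0 12 4 (.cond 1 0 (.contra [(1,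 9971), (38, 148125), (2, 499)] 6150000) (.contra [(0, 9971), (38, 5139375), (2, 653)] 2365625))) (.mix 0 2 12 13 (.mix 0 0 12 0 (.cond 1 0 (.contra [(1, 9971), (38, 11090250), (2, 1364)] 16336250) (.contra [(0, 157), (38, 45750), (4, 674)] 399375)))) (.mix 0 0 12 10 (.cond 1 0 (.contra [(1, 20223), (38, 7153125), (4, 5752), (2, 407)] 0) (.contra [(0, 9971), (38, 3202125), (2, 791)] 6339375))) (.mix 0 2 4 1 (.mix 0 0 4 4 (.mix 0 1 4 12 (.mix 0 0 4 12 (.cond 1 0 (.contra [(0, 19942), (38, 85986000), (2, 11767)] 56141875) (.contra [(1, 9971), (38, 21351000), (2, 3922)] 60551250))))))))))))))))))))) (T22)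

def T24 : Tr := .h0 54 false (.mix 30 2 0 1 (.mix 2 0 0 3 (.mix 46 2 2 9 (.mix 21 0 0 5 (.cond 22 0 (.h2 21 47 (.mix 21 2 0 2 (.mix 21 2 1 15 (.mix 21 1 0 7 (.h0 3 false (.mix 3 0 0 2 (.cond 5 1 (.cond 4 0 (.contra [(0, 61), (32, 162816), (2, 967)] 1024) (.contra [(1, 1), (32, 420), (17, 86)] 100)) (.contra [(1, 1), (8, 4)] 0))) (.mix 2 0 0 8 (.mix 2 0 0 7 (.cond 3 0 (.contra [(0, 19), (30, 1392), (26, 7426)] 98331) (.contra [(1, 1), (30, 4884), (32, 1516)] 924)))))))) (.mix 21 0 0 1 (.mix 12 2 0 3 (.mix 22 0 2 9 (.mix 22 2 0 5 (.cond 24 1 (.h2 9 64 (.mix 9 0 0 4 (.mix 9 1 0 0 (.mix 9 0 2 6 (.mix 9 1 0 8 (.cond 11 1 (.contra [(1, 1), (32, 234), (34, 86)] 104) (T23)))))) (.mix 7 2 0 17 (.mix 7 2 0 6 (.h0 2 true (.mix 2 0 0 17 (.cond 3 0 (.contra [(1, 1), (32, 468), (34, 172)] 208) (.cond 4 1 (.contra [(0, 225), (25, 6784),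 (2, 379)] 135168) (.contra [(1, 75), (25, 1696), (2, 76)] 33792)))) (.mix 2 2 0 8 (.mix 2 0 0 19 (.cond 3 0 (.contra [(0, 2), (32, 1671), (34, 1529)] 4956) (.contra [(1, 1), (4, 4)] 0)))))))) (.contra [(1, 1), (16, 8)] 676))))))) (.contra [(1, 1), (8, 4)] 0)))))) (.mix 30 1 0 12 (.mix 45 1 1 5 (.mix 20 1 0 17 (.h0 3 false (.mix 3 0 0 12 (.cond 4 0 (.contra [(1, 1), (14, 4)] 0) (.cond 5 1 (.contra [(0, 3), (26, 32), (2, 1)] 0) (.contra [(1, 1), (26, 8)] 0)))) (.mix 2 0 0 18 (.mix 2 0 0 17 (.cond 3 0 (.contra [(0, 2), (28, 1539), (30, 61)] 1804) (.contra [(1, 1), (8, 8)] 0))))))))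

def T25 : Tr := .up 27 (.mix 0 1 27 1 (.mix 0 1 27 13 (.mix 0 1 27 2 (.mix 0 0 27 2 (.mix 0 2 27 13 (.mix 0 2 27 10 (.mix 0 0 9 13 (.cond 4 3 (.contra [(0, 3), (12, 25), (1, 4)] 0) (.cond 1 0 (.contra [(1, 2), (26, 3000), (3, 37)] 5000) (.up 7 (.mix 0 1 7 1 (.mix 0 0 7 4 (.cond 1 0 (.contra [(0, 428), (5, 2197), (2, 140)] 160000) (.contra [(1, 428), (5, 1181), (2, 160)] 30000)))) (.mix 0 0 7 4 (.mix 0 1 7 12 (.mix 0 1 7 3 (.mix 0 1 7 0 (.mix 0 0 7 3 (.mix 0 2 7 12 (.mix 0 0 7 12 (.cond 1 0 (.contra [(0, 107), (5, 15008), (2, 1441)] 1280000) (.contra [(1, 107), (5, 11256), (2, 412)] 960000))))))))) (.mix 0 2 7 13 (.mix 0 0 7 0 (.cond 1 0 (.contra [(1, 428), (5, 1049), (2, 16)] 110000) (.contra [(0, 428), (5, 2263), (2, 212)] 120000)))) (.mix 0 0 7 10 (.cond 1 0 (.contra [(0, 856), (5, 1629), (2, 104)] 180000) (.contra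 [(1, 856), (5, 1973), (2, 168)] 85000))) (.mix 0 1 7 12 (.mix 0 1 7 3 (.mix 0 0 7 10 (.mix 0 1 7 4 (.mix 0 0 7 11 (.cond 3 2 (.contra [(1, 214), (5, 1695), (2, 176)] 140000) (.cond 1 0 (.contra [(1, 1), (2, 4)] 0) (.contra [(0, 2), (7, 1315), (2, 354)] 200000)))))))))))))))))) (.mix 0 0 27 4 (.mix 0 2 27 1 (.mix 0 2 27 0 (.mix 3 1 24 13 (.mix 0 1 24 2 (.mix 0 0 24 2 (.cond 1 0 (.contra [(1, 1), (24, 24), (26, 116)] 92) (.cond 6 5 (.contra [(1, 151), (26, 4125), (2, 58)] 3125) (.up 6 (.mix 0 2 6 14 (.mix 0 0 6 1 (.cond 1 0 (.contra [(1, 17), (4, 100), (2, 246)] 1250) (.contra [(0, 17), (4, 110), (2, 342)] 5625)))) (.mix 0 0 3 4 (.mix 0 1 3 12 (.mix 0 0 3 12 (.cond 1 0 (.contra [(0, 17), (4, 307), (2, 880)] 10000) (.contra [(1, 17), (4, 124), (2, 660)] 7500))))) (.mix 0 0 6 2 (.cond 1 0 (.contra [(1, 17), (4, 48), (2, 97)]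 1875) (.contra [(0, 17), (4, 64), (2, 271)] 2500))) (.mix 0 1 6 0 (.mix 0 0 6 3 (.cond 1 0 (.contra [(0, 17), (4, 146), (2, 402)] 4375) (.contra [(1, 17), (4, 28), (2, 126)] 3750)))) (.mix 0 2 6 1 (.mix 0 2 6 0 (.mix 0 0 6 3 (.cond 1 0 (.contra [(0, 17), (4, 74), (2, 452)] 6875) (.contra [(1, 17), (4, 328), (2, 1204)] 7500)))))))))))))) (.mix 0 2 27 13 (.mix 0 2 27 10 (.mix 0 0 27 13 (.mix 0 2 27 10 (.mix 0 2 27 11 (.mix 0 2 27 3 (.mix 0 2 9 12 (.mix 7 0 28 2 (.mix 0 1 28 14 (.mix 0 1 28 11 (.mix 0 1 28 10 (.mix 0 1 28 4 (.cond 12 4 (.contra [(1, 2), (15, 2), (9, 3)] 0) (.cond 10 9 (.contra [(1, 4), (17, 25), (2, 12)] 0) (T10))))))))))))))) (.mix 0 0 27 10 (.mix 0 1 27 4 (.mix 0 0 27 11 (.mix 0 2 27 3 (.mix 0 0 27 10 (.mix 0 1 27 4 (.mix 0 0 9 11 (.mix 7 1 28 0 (.mix 0 0 28 3 (.mix 0 1 28 0 (.mix 0 0 28 3 (.mix 0 1 28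 0 (.cond 4 3 (.cond 10 9 (.contra [(1, 1), (9, 4)] 52) (T24)) (.contra [(1, 1), (24, 36), (26, 14)] 18)))))))))))))) (.mix 0 1 27 12 (.mix 0 0 27 12 (.mix 0 2 27 4 (.mix 0 2 27 1 (.mix 0 0 27 4 (.mix 0 2 27 1 (.mix 6 2 27 1 (.mix 0 2 27 0 (.mix 0 2 27 14 (.mix 0 0 27 1 (.mix 0 1 27 13 (.cond 7 6 (.contra [(1, 1), (24, 264), (26, 296)] 152) (.up 11 (.mix 0 0 5 3 (.mix 0 2 5 12 (.mix 0 2 5 4 (.mix 0 2 5 1 (.mix 0 0 5 4 (.cond 5 4 (.contra [(1, 113), (26, 6825), (2, 176)] 48375) (.cond 1 0 (.contra [(1, 1), (2, 16)] 0) (.contra [(0, 19), (28, 256125), (2, 4187)] 288125)))))))) (.mix 0 0 11 4 (.cond 1 0 (.contra [(0, 113), (26, 2175), (2, 107)] 21625) (.contra [(1, 113), (26, 11475), (2, 19)] 4500))) (.mix 0 2 11 13 (.mix 0 2 11 10 (.mix 0 0 11 13 (.mix 0 1 11 2 (.mix 0 0 11 2 (.cond 1 0 (.contra [(1, 113), (26, 118800),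 (2, 436)] 246000) (.contra [(0, 113), (26, 158400), (2, 1523)] 328000))))))) (.mix 0 0 11 10 (.mix 0 1 11 4 (.mix 0 0 11 11 (.mix 0 1 11 10 (.mix 0 1 11 4 (.mix 0 0 11 11 (.cond 1 0 (.contra [(0, 113), (26, 366000), (2, 623)] 210000) (.contra [(1, 113), (26, 60000), (2, 3544)] 1220000)))))))) (.mix 0 0 5 11 (.cond 1 0 (.contra [(0, 226), (26, 2550), (2, 293)] 71625) (.contra [(1, 113), (26, 9675), (2, 98)] 32875))))))))))))))))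

def T26 : Tr := .dn 11 (.mix 0 0 5 18 (.mix 0 2 5 7 (.mix 0 2 5 19 (.mix 0 0 5 16 (.cond 1 0 (.contra [(1, 37), (24, 40200), (2, 68)] 16300) (.contra [(0, 12), (24, 2675), (5, 137)] 9575)))))) (.mix 0 2 11 9 (.mix 0 2 11 17 (.mix 0 2 11 8 (.mix 0 2 11 16 (.mix 0 2 11 15 (.mix 0 0 11 8 (.mix 6 1 11 5 (.mix 0 0 11 18 (.mix 0 2 11 7 (.mix 0 2 11 19 (.mix 0 2 11 5 (.cond 4 3 (.cond 6 5 (.dn 11 (.mix 0 2 11 6 (.mix 0 0 11 19 (.mix 2 0 7 18 (.cond 3 0 (.contra [(0, 121), (28, 171875), (4, 355), (2, 49)] 0) (.cond 2 1 (.contra [(1, 1), (3, 2)] 0) (.contra [(0, 11), (30, 3125), (22, 19500), (3, 159)] 0)))))) (.mix 0 0 11 19 (.mix 0 1 11 7 (.mix 0 1 11 18 (.mix 0 0 11 15 (.cond 1 0 (.cond 4 3 (.contra [(0, 728), (22, 1200000), (4, 1745), (2, 1407)] 0) (.contra [(1, 728), (22, 550000), (4, 705), (2, 679)] 0)) (.contra [(1, 363),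 (28, 4125000), (4, 13888), (2, 1088)] 0)))))) (.mix 0 1 11 18 (.mix 0 0 11 15 (.cond 1 0 (.contra [(0, 1089), (28, 1031250), (4, 7696), (2, 173)] 0) (.contra [(1, 363), (28, 1031250), (4, 1976), (2, 118)] 0)))) (.mix 0 0 11 5 (.mix 0 2 11 6 (.mix 0 0 11 19 (.cond 1 0 (.contra [(0, 121), (28, 687500), (4, 672), (2, 119)] 0) (.contra [(1, 1089), (28, 2062500), (4, 3776), (2, 1072)] 0))))) (.mix 0 0 5 6 (.mix 0 2 5 9 (.mix 0 2 5 17 (.mix 0 2 5 8 (.mix 0 0 5 5 (.cond 1 0 (.contra [(0, 363), (28, 13406250), (4, 28427), (2, 2590)] 0) (.contra [(1, 1089), (28, 8250000), (4, 47312), (2, 3760)] 0)))))))) (.contra [(1, 47), (26, 400000), (7, 16480), (2, 1856)] 0)) (.contra [(1, 1), (24, 30), (16, 68)] 270))))))))))))) (.mix 0 2 5 19 (.mix 0 0 5 16 (.cond 1 0 (.contra [(0, 1), (24, 195), (16, 7)] 255) (.contra [(1, 3), (24, 800),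 (5, 26)] 200)))) (.mix 0 2 11 16 (.mix 0 0 11 9 (.mix 0 2 11 17 (.mix 0 0 11 17 (.mix 0 1 11 9 (.mix 0 0 11 6 (.cond 1 0 (.contra [(0, 6), (24, 17975), (5, 821)] 19025) (.contra [(1, 37), (24, 176000), (2, 188)] 64000)))))))) (.mix 0 0 5 6 (.mix 0 1 5 5 (.mix 0 0 5 18 (.mix 0 2 5 7 (.mix 0 0 5 7 (.cond 1 0 (.contra [(0, 74), (24, 78200), (2, 561)] 36425) (.contra [(1, 1), (24, 2125), (5, 71)] 1625)))))))

def T27 : Tr := .dn 24 (.mix 0 0 24 18 (.mix 0 1 24 6 (.mix 0 0 24 19 (.mix 0 2 24 5 (.mix 0 0 24 18 (.mix 0 1 18 6 (.mix 6 1 25 8 (.mix 0 0 25 5 (.mix 0 1 25 8 (.mix 0 0 25 5 (.mix 0 1 25 8 (.cond 11 10 (.cond 2 1 (.h0 25 false (.mix 18 2 0 14 (.mix 26 2 1 16 (.mix 8 0 0 19 (.cond 29 3 (.contra [(1, 1), (18, 8)] 44) (T25))))) (.mix 18 1 0 1 (.mix 26 1 1 17 (.h0 2 false (.mix 1 0 0 17 (.cond 4 1 (.contra [(1, 1), (18,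 16)] 88) (.cond 2 0 (.contra [(0, 17), (24, 47616), (2, 659)] 34304) (.contra [(1, 17), (24, 35712), (2, 388)] 25728)))) (.mix 2 0 0 4 (.cond 3 0 (.contra [(0, 1), (22, 111), (24, 209)] 533) (.contra [(1, 1), (22, 414), (24, 46), (16, 36)] 0))))))) (.contra [(1, 1), (20, 66), (22, 134)] 176)) (.contra [(0, 2), (9, 45), (6, 170), (1, 306)] 0))))))))))))) (.mix 0 1 24 5 (.mix 0 1 24 8 (.mix 0 0 24 5 (.mix 0 1 24 8 (.mix 0 1 24 17 (.mix 0 0 18 17 (.cond 1 0 (.cond 4 3 (.contra [(0, 13), (11, 35), (2, 7)] 4070) (.dn 6 (.mix 0 0 6 18 (.cond 1 0 (.contra [(0, 252), (22, 24000), (4, 28), (3, 529)] 0) (.contra [(1, 21), (22, 375), (4, 7), (3, 46)] 0))) (.mix 0 1 6 5 (.mix 0 0 6 18 (.cond 1 0 (.contra [(0, 126), (22, 6000), (4, 70), (3, 337)] 0) (.contra [(1, 14), (22, 3000), (3, 11)] 0)))) (.mix 0 2 6 19 (.mix 0 0 6 16 (.mix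 0 1 6 19 (.mix 0 0 6 16 (.cond 3 2 (.cond 1 0 (.contra [(1, 1), (2, 4)] 0) (.contra [(0, 59), (24, 119250), (2, 1063)] 158750)) (.contra [(1, 18), (22, 3000), (4, 8), (3, 47)] 0)))))) (.mix 0 1 6 17 (.mix 0 1 6 9 (.mix 0 1 6 15 (.mix 0 0 6 8 (.mix 0 1 6 17 (.mix 0 0 6 17 (.cond 1 0 (.contra [(1, 14), (22, 29100), (3, 449)] 10500) (.contra [(0, 63), (22, 192000), (4, 413), (3, 2720)] 0)))))))) (.mix 0 0 6 6 (.cond 1 0 (.contra [(0, 84), (22, 6000), (4, 28), (3, 253)] 0) (.contra [(1, 56), (22, 2700), (3, 19)] 3500))))) (.contra [(1, 1), (18, 504), (20, 616)] 424)))))))) (.mix 0 2 24 19 (.mix 0 2 24 5 (.mix 0 2 24 6 (.mix 0 2 24 9 (.mix 0 0 24 6 (.mix 0 2 18 9 (.mix 6 0 25 7 (.mix 0 1 25 18 (.mix 0 1 25 6 (.mix 0 0 25 19 (.mix 0 2 25 5 (.cond 7 6 (.dn 11 (.mix 0 2 11 6 (.mix 0 0 11 19 (.mix 0 1 11 7 (.mix 0 1 11 18 (.mix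 0 1 11 6 (.mix 0 0 11 19 (.cond 5 4 (.cond 1 0 (.contra [(1, 1), (2, 16)] 0) (.contra [(0, 128), (22, 13200), (5, 4187)] 966000)) (.contra [(1, 4), (20, 600), (3, 11)] 3000)))))))) (.mix 0 2 5 9 (.mix 0 0 5 6 (.mix 0 1 5 5 (.mix 0 1 5 8 (.mix 0 0 5 5 (.cond 1 0 (.contra [(1, 32), (20, 13200), (3, 443)] 86000) (.contra [(0, 256), (20, 421200), (3, 623)] 126000))))))) (.mix 0 1 11 18 (.mix 0 0 11 15 (.cond 1 0 (.contra [(0, 128), (20, 6000), (3, 293)] 90000) (.contra [(1, 32), (20, 6000), (3, 49)] 10000)))) (.mix 0 0 11 5 (.cond 1 0 (.contra [(0, 128), (20, 13200), (3, 19)] 6000) (.contra [(1, 128), (20, 3600), (3, 107)] 38000))) (.mix 0 2 11 17 (.mix 0 2 11 8 (.mix 0 0 11 5 (.mix 3 1 8 15 (.mix 0 0 8 8 (.mix 0 1 8 17 (.mix 0 0 8 17 (.cond 1 0 (.contra [(0, 256), (20, 195600), (3, 1523)] 518000) (.cond 5 4 (.contra [(1,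 12), (22, 60000), (5, 235), (3, 112)] 0) (.contra [(0, 16), (22, 90000), (5, 315), (3, 152)] 0))))))))))) (.contra [(0, 1), (18, 9), (20, 551)] 339))))))))))))) (.mix 0 1 24 17 (.mix 0 0 24 17 (.mix 0 2 24 8 (.mix 0 2 24 16 (.mix 4 2 23 16 (.mix 0 0 23 9 (.cond 1 0 (.cond 5 4 (.dn 6 (.mix 0 0 6 18 (.mix 0 1 6 6 (.mix 0 0 6 19 (.cond 1 0 (.contra [(0, 1), (4, 38), (2, 20)] 625) (.contra [(1, 7), (4, 68), (2, 30)] 3750))))) (.mix 0 1 6 5 (.mix 0 1 6 8 (.mix 0 0 6 5 (.cond 1 0 (.contra [(0, 7), (4, 214), (2, 108)] 5625) (.contra [(1, 7), (4, 172), (2, 94)] 1250))))) (.mix 0 2 6 19 (.mix 0 2 6 5 (.mix 0 2 6 6 (.mix 0 0 6 19 (.cond 1 0 (.contra [(0, 7), (4, 162), (2, 146)] 6875) (.contra [(1, 7), (4, 584), (2, 452)] 7500)))))) (.mix 0 1 6 17 (.mix 0 0 6 17 (.cond 1 0 (.contra [(1, 7), (4, 90), (2, 29)] 1875) (.contra [(0,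 7), (4, 120), (2, 97)] 2500)))) (.mix 0 2 2 17 (.mix 0 0 2 17 (.cond 1 0 (.contra [(1, 7), (4, 62), (2, 57)] 1875) (.contra [(0, 7), (4, 141), (2, 76)] 2500))))) (.contra [(1, 59), (20, 2850), (2, 128)] 4250)) (.contra [(1, 1), (18, 6), (20, 64)] 46)))))))) (.mix 0 0 24 6 (.mix 0 2 24 9 (.mix 0 2 24 17 (.mix 0 0 24 17 (.mix 0 1 24 9 (.mix 0 1 18 15 (.mix 6 1 25 15 (.mix 0 1 25 16 (.mix 0 1 25 19 (.mix 0 1 25 7 (.mix 0 0 25 7 (.cond 11 10 (.cond 8 7 (.contra [(1, 1), (22, 120), (14, 32)] 80) (T26)) (.contra [(0, 3), (18, 75), (12, 10), (1, 4)] 0)))))))))))))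

def T28 : Tr := .up 11 (.mix 0 2 11 14 (.mix 0 0 11 1 (.mix 0 2 11 0 (.mix 0 2 11 14 (.mix 0 0 11 1 (.cond 1 0 (.contra [(1, 1), (5, 240), (2, 8)] 400) (.cond 4 3 (.contra [(0, 9), (7, 710), (2, 1)] 2250) (.contra [(1, 164), (9, 1525), (2, 172)] 4400)))))))) (.mix 0 1 11 13 (.mix 0 1 11 2 (.mix 0 1 11 14 (.mix 0 1 11 11 (.mix 0 1 11 10 (.mix 0 0 11 13 (.cond 1 0 (.contra [(1, 1), (5, 928), (2, 32)] 2400) (.up 6 (.mix 0 1 6 1 (.mix 0 0 6 4 (.cond 1 0 (.contra [(0, 196), (9, 11875), (2, 1208)] 600000) (.contra [(1, 196), (9, 375), (2, 164)] 86000)))) (.mix 0 0 6 4 (.cond 1 0 (.contra [(1, 392), (9, 5725), (2, 596)] 316600) (.contra [(0, 392), (9, 12675), (2, 1388)] 652800))) (.mix 0 2 6 13 (.mix 0 0 6 0 (.cond 1 0 (.contra [(1, 28), (9, 1325), (2, 124)] 61200) (.contra [(0, 196), (9, 7425), (2, 856)] 428800)))) (.mix 0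 0 6 10 (.mix 0 2 6 11 (.mix 0 0 6 14 (.cond 1 0 (.contra [(0, 98), (9, 7075), (2, 618)] 283200) (.contra [(1, 98), (9, 3025), (2, 356)] 138400))))) (.mix 0 1 6 12 (.mix 0 1 6 3 (.mix 0 0 6 10 (.mix 0 2 6 11 (.mix 0 0 6 14 (.cond 1 0 (.contra [(0, 1), (9, 550), (2, 59)] 28800) (.contra [(1, 49), (9, 3650), (2, 172)] 118400))))))))))))))) (.mix 0 0 11 2 (.cond 1 0 (.contra [(1, 1), (5, 31)] 100) (.contra [(0, 1), (5, 17)] 75))) (.mix 0 1 11 0 (.mix 0 0 11 3 (.mix 0 2 11 12 (.mix 0 0 11 12 (.mix 0 2 11 4 (.mix 0 0 11 11 (.cond 1 0 (.contra [(1, 1), (5, 896), (2, 12)] 3200) (.contra [(0, 1), (5, 488), (2, 31)] 600)))))))) (.mix 0 0 5 11 (.mix 0 1 5 10 (.mix 0 0 5 13 (.mix 0 1 5 2 (.mix 0 0 5 2 (.cond 1 0 (.contra [(1, 1), (5, 384), (2, 14)] 850) (.contra [(0, 2), (5, 376), (2, 21)] 1275)))))))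

def T29 : Tr := .up 23 (.mix 0 2 23 14 (.mix 0 2 22 2 (.mix 0 0 21 2 (.mix 0 1 20 14 (.mix 0 1 20 11 (.mix 0 0 7 14 (.mix 6 1 28 1 (.mix 0 1 27 13 (.mix 0 0 26 0 (.mix 0 2 24 14 (.cond 5 4 (.cond 8 7 (.up 10 (.mix 0 0 10 3 (.cond 1 0 (.contra [(1, 131), (14, 2085), (4, 29)] 1650) (.contra [(0, 7), (14, 87), (8, 26)] 68))) (.mix 0 0 4 4 (.mix 0 1 4 12 (.mix 0 0 4 12 (.cond 1 0 (.contra [(1, 7), (14, 48), (8, 164)] 752) (.contra [(0, 197), (14, 7305), (8, 175), (4, 163)] 0))))) (.mix 0 2 4 13 (.mix 0 0 4 0 (.cond 1 0 (.contra [(1, 591), (14, 19650), (8, 1300), (4, 254)] 0) (.contra [(0, 262), (14, 2100), (4, 49)] 9225)))) (.mix 0 0 4 10 (.cond 1 0 (.contra [(1, 131), (14, 1185), (4, 8)] 2375) (.contra [(0, 7), (14, 24), (8, 47)] 96))) (.mix 0 0 10 11 (.mix 1 1 5 12 (.mix 0 1 5 3 (.mix 0 1 5 0 (.mix 0 0 5 3 (.cond 5 4 (.cond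 1 0 (.contra [(0, 8), (16, 2400), (5, 35), (3, 132)] 0) (.contra [(1, 1), (3, 8)] 0)) (.contra [(0, 362), (8, 2570), (4, 17)] 9735)))))))) (.contra [(0, 8), (12, 300), (1, 19)] 100)) (.contra [(1, 1), (10, 72), (12, 152)] 24)))))))))))) (.mix 0 1 23 13 (.mix 0 0 22 0 (.mix 0 2 21 14 (.mix 0 0 20 1 (.mix 0 1 20 13 (.mix 0 0 7 0 (.mix 6 0 28 4 (.mix 0 2 27 1 (.mix 0 0 26 4 (.mix 0 2 24 1 (.mix 0 0 24 4 (.cond 3 2 (.contra [(0, 3), (6, 55), (3, 40), (1, 99)] 0) (.cond 8 7 (.cond 1 0 (.contra [(1, 1), (6, 2)] 74) (.cond 10 9 (.contra [(0, 1), (16, 180), (8, 25), (1, 117)] 0) (T27))) (.contra [(1, 1), (6, 8)] 44)))))))))))))) (.mix 0 0 23 2 (.mix 0 2 22 13 (.mix 0 2 21 10 (.mix 0 0 20 13 (.mix 0 2 20 10 (.mix 0 2 7 11 (.mix 6 2 28 13 (.mix 0 2 27 10 (.mix 0 2 26 11 (.mix 0 2 24 3 (.mix 0 0 24 10 (.cond 11 10 (.contra [(0,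 3), (12, 25), (1, 4)] 0) (.cond 8 7 (.contra [(1, 1), (3, 56)] 200) (T28)))))))))))))) (.mix 0 1 23 0 (.mix 0 1 22 1 (.mix 0 1 21 13 (.mix 0 1 20 2 (.mix 0 0 20 2 (.mix 0 2 7 13 (.mix 6 0 28 10 (.mix 0 1 27 4 (.mix 0 1 26 12 (.mix 0 0 24 12 (.cond 6 5 (.contra [(0, 16), (12, 2000), (1, 13)] 1600) (.cond 1 0 (.contra [(1, 1), (12, 12), (14, 44)] 8) (.up 10 (.mix 0 1 10 1 (.mix 0 0 10 4 (.mix 0 1 10 12 (.mix 0 1 10 3 (.mix 0 1 10 0 (.mix 0 0 10 3 (.cond 5 4 (.contra [(1, 1), (16, 14), (8, 12)] 54) (.cond 1 0 (.contra [(1, 1), (2, 16)] 0) (.contra [(0, 8), (18, 8000), (7, 135), (2, 264)] 0))))))))) (.mix 0 0 10 4 (.mix 0 1 10 12 (.mix 0 1 10 3 (.mix 0 0 10 10 (.cond 1 0 (.contra [(1, 19), (16, 3640), (2, 96)] 880) (.contra [(0, 19), (16, 920), (2, 18)] 3015)))))) (.mix 0 2 10 13 (.mix 0 0 10 0 (.cond 1 0 (.contra [(1, 8),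 (16, 480), (5, 1)] 160) (.contra [(0, 19), (16, 730), (2, 18)] 735)))) (.mix 0 0 10 10 (.mix 0 2 10 11 (.mix 0 0 10 14 (.mix 0 2 10 2 (.mix 0 0 10 2 (.cond 1 0 (.contra [(1, 1), (16, 456), (8, 8)] 396) (.contra [(0, 19), (16, 3520), (2, 206)] 1065))))))) (.mix 0 1 10 12 (.mix 0 1 10 3 (.mix 0 0 10 10 (.cond 1 0 (.contra [(0, 1), (16, 78), (8, 14)] 53) (.contra [(1, 4), (16, 160), (5, 1)] 320)))))))))))))))))) (.mix 0 2 23 1 (.mix 0 0 22 4 (.mix 0 2 21 1 (.mix 3 1 25 12 (.mix 0 0 24 12 (.mix 0 1 23 3 (.mix 0 1 21 0 (.cond 6 5 (.contra [(1, 1), (10, 6), (12, 8)] 6) (.cond 3 2 (.contra [(1, 9), (8, 10), (2, 23)] 195) (.up 7 (.mix 0 1 4 1 (.mix 0 1 4 13 (.mix 0 0 4 0 (.cond 1 0 (.contra [(1, 1), (4, 26), (2, 12)] 50) (.contra [(0, 1), (4, 37), (2, 9)] 225))))) (.mix 0 2 7 0 (.mix 0 2 7 14 (.mix 0 0 7 1 (.cond 1 0 (.contra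 [(1, 1), (4, 18), (2, 20)] 50) (.contra [(0, 1), (4, 36), (2, 10)] 225))))) (.mix 0 2 4 13 (.mix 0 2 4 10 (.mix 0 2 4 11 (.mix 0 0 4 14 (.cond 1 0 (.contra [(1, 1), (4, 92), (2, 56)] 300) (.contra [(0, 1), (4, 31), (2, 13)] 275)))))) (.mix 0 2 7 12 (.mix 0 0 7 12 (.cond 1 0 (.contra [(0, 1), (4, 23), (2, 8)] 100) (.contra [(1, 1), (4, 11), (2, 6)] 75)))) (.mix 0 1 4 12 (.mix 0 0 4 12 (.cond 1 0 (.contra [(0, 1), (4, 20), (2, 11)] 100) (.contra [(1, 1), (4, 15), (2, 2)] 75))))))))))))))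

def T30 : Tr := .up 10 (.mix 0 1 10 1 (.mix 0 0 10 4 (.mix 0 1 10 12 (.mix 0 1 10 3 (.mix 0 1 10 0 (.mix 0 1 10 1 (.mix 6 2 10 14 (.mix 0 2 10 2 (.mix 0 2 10 13 (.cond 8 7 (.contra [(1, 1), (16, 14), (8, 12)] 54) (.up 9 (.mix 0 1 9 1 (.mix 0 1 9 13 (.mix 0 0 9 0 (.mix 3 0 6 3 (.cond 4 0 (.cond 2 1 (.contra [(0, 29), (12, 50000), (4, 5945), (3, 2118)] 0) (.contra [(1, 1), (3, 4)] 0)) (.contra [(0, 128), (18, 18000), (7, 285), (2, 752)] 0)))))) (.mix 0 0 9 4 (.mix 0 2 9 1 (.mix 0 0 9 4 (.mix 0 1 9 12 (.mix 0 1 9 3 (.mix 0 0 9 10 (.cond 1 0 (.contra [(0, 8), (18, 8000), (7, 535), (2, 776)] 0) (.contra [(1, 1), (18, 8000), (7, 35), (2, 216)] 0)))))))) (.mix 0 1 3 14 (.mix 0 0 3 1 (.cond 1 0 (.contra [(1, 8), (18, 4000), (7, 5), (2, 64)] 0) (.contra [(0, 128), (18, 18000), (7, 85), (2, 1008)] 0)))) (.mix 0 0 9 10 (.mix 0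 1 9 4 (.mix 0 1 9 12 (.mix 0 1 9 3 (.mix 0 0 9 10 (.cond 1 0 (.contra [(0, 8), (18, 40000), (7, 275), (2, 872)] 0) (.contra [(1, 1), (7, 25), (2, 48)] 0))))))) (.mix 0 0 3 11 (.mix 0 1 3 10 (.mix 0 0 3 13 (.cond 1 0 (.contra [(0, 128), (18, 106000), (7, 545), (2, 1328)] 0) (.cond 3 2 (.contra [(0, 4), (3, 1)] 0) (.contra [(1, 16), (9, 375), (4, 320), (3, 48)] 0))))))))))))))))) (.mix 0 0 10 4 (.mix 0 1 10 12 (.mix 0 1 10 3 (.mix 0 0 10 10 (.cond 1 0 (.contra [(1, 19), (16, 3640), (2, 96)] 880) (.contra [(0, 19), (16, 920), (2, 18)] 3015)))))) (.mix 0 2 10 13 (.mix 0 0 10 0 (.cond 1 0 (.contra [(1, 8), (16, 480), (5, 1)] 160) (.contra [(0, 19), (16, 730), (2, 18)] 735)))) (.mix 0 0 10 10 (.mix 0 2 10 11 (.mix 0 0 10 14 (.mix 0 2 10 2 (.mix 0 0 10 2 (.cond 1 0 (.contra [(1, 1), (16, 456), (8, 8)] 396) (.contra [(0, 19),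 (16, 3520), (2, 206)] 1065))))))) (.mix 0 1 10 12 (.mix 0 1 10 3 (.mix 0 0 10 10 (.cond 1 0 (.contra [(0, 1), (16, 78), (8, 14)] 53) (.contra [(1, 4), (16, 160), (5, 1)] 320)))))

def T31 : Tr := .up 23 (.mix 0 2 23 14 (.mix 0 2 22 2 (.mix 0 0 21 2 (.mix 0 1 20 14 (.mix 0 1 20 11 (.mix 0 1 7 10 (.mix 6 1 28 1 (.mix 0 1 27 13 (.mix 0 0 26 0 (.mix 0 2 24 14 (.cond 8 7 (.up 10 (.mix 0 0 10 3 (.cond 1 0 (.contra [(1, 52), (12, 36), (5, 29)] 384) (.contra [(0, 2), (14, 50), (3, 3)] 0))) (.mix 0 2 10 0 (.mix 0 0 10 3 (.mix 0 1 10 0 (.mix 0 1 10 1 (.mix 0 0 10 4 (.mix 5 0 9 4 (.cond 6 0 (.cond 2 1 (.contra [(0, 7), (14, 1950), (16, 2625), (3, 233)] 0) (.contra [(1, 7), (14, 1200), (16, 7000), (3, 264)] 0)) (.contra [(0, 8), (14, 220), (3, 7)] 140)))))))) (.mix 0 1 10 14 (.mix 0 0 10 1 (.mix 0 1 10 13 (.mix 0 0 10 0 (.mix 0 1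 10 1 (.mix 0 0 10 4 (.cond 1 0 (.contra [(0, 19), (12, 1584), (8, 2234)] 5583) (.contra [(1, 1), (12, 444), (14, 164)] 468)))))))) (.mix 0 0 4 10 (.cond 1 0 (.contra [(1, 1), (12, 3), (14, 8)] 21) (.contra [(0, 2), (12, 27), (14, 47)] 14))) (.mix 0 0 10 11 (.mix 1 1 5 12 (.mix 0 1 5 3 (.mix 0 1 5 0 (.mix 0 0 5 3 (.cond 5 4 (.cond 1 0 (.contra [(0, 8), (14, 2400), (5, 35), (3, 132)] 0) (.contra [(1, 1), (3, 8)] 0)) (.contra [(0, 1), (14, 17), (6, 4)] 26)))))))) (.contra [(0, 8), (10, 300), (1, 19)] 100)))))))))))) (.mix 0 1 23 13 (.mix 0 0 22 0 (.mix 0 2 21 14 (.mix 0 0 20 1 (.mix 0 1 20 13 (.mix 0 1 7 2 (.cond 3 2 (.h0 8 true (.mix 1 0 0 2 (.cond 2 0 (.contra [(1, 1), (2, 8)] 0) (.contra [(0, 19), (12, 144), (8, 362)] 4919))) (.mix 1 1 0 14 (.mix 9 0 1 9 (.cond 10 0 (.contra [(1, 1), (4, 8)] 0) (.h0 2 true (.cond 3 0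 (.contra [(1, 1), (10, 16)] 88) (.contra [(0, 1), (4, 8), (2, 1)] 0)) (.mix 2 0 0 1 (.cond 3 0 (.contra [(1, 1), (4, 16)] 0) (.contra [(0, 53), (16, 66240), (2, 149)] 27392)))))))) (.contra [(1, 1), (4, 8)] 44)))))))) (.mix 0 0 23 2 (.mix 0 2 22 13 (.mix 0 2 21 10 (.mix 0 0 20 13 (.mix 0 2 20 10 (.mix 0 0 7 13 (.mix 6 2 28 13 (.mix 0 2 27 10 (.cond 8 7 (.contra [(0, 3), (12, 25), (1, 4)] 0) (.cond 5 4 (.contra [(1, 1), (3, 56)] 200) (.cond 3 2 (.up 8 (.mix 0 2 8 14 (.mix 0 0 8 1 (.mix 0 2 8 0 (.mix 0 2 8 14 (.mix 0 0 8 1 (.cond 1 0 (.contra [(1, 1), (7, 256), (4, 22), (2, 2)] 0) (.contra [(0, 1), (7, 512), (4, 54), (2, 9)] 0))))))) (.mix 0 2 2 0 (.mix 0 0 2 3 (.cond 1 0 (.contra [(1, 4), (7, 256), (4, 29), (2, 3)] 0) (.contra [(0, 16), (7, 632), (4, 53), (2, 11)] 0)))) (.mix 0 0 8 2 (.cond 1 0 (.contra [(1, 2), (7, 70),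 (4, 7), (2, 1)] 0) (.contra [(0, 8), (7, 160), (4, 21), (2, 3)] 0))) (.mix 0 1 8 0 (.mix 0 0 8 3 (.mix 0 2 8 12 (.mix 0 0 8 12 (.cond 1 0 (.contra [(0, 1), (7, 256), (4, 31), (2, 4)] 0) (.contra [(1, 1), (7, 192), (4, 17), (2, 3)] 0)))))) (.mix 0 2 8 1 (.mix 0 2 8 0 (.mix 0 0 8 3 (.mix 0 1 8 0 (.mix 0 0 8 3 (.cond 1 0 (.contra [(0, 1), (7, 512), (4, 50), (2, 7)] 0) (.contra [(1, 1), (7, 256), (4, 30), (2, 6)] 0)))))))) (.contra [(1, 1), (2, 4)] 0)))))))))))) (.mix 0 1 23 0 (.mix 0 1 22 1 (.mix 0 1 21 13 (.mix 0 1 20 2 (.mix 0 0 20 2 (.mix 0 1 7 14 (.mix 6 0 28 10 (.mix 0 1 27 4 (.mix 0 1 26 12 (.mix 0 0 24 12 (.cond 6 5 (.contra [(0, 16), (12, 2000), (1, 13)] 1600) (.cond 1 0 (.contra [(1, 1), (12, 12), (14, 44)] 8) (T30))))))))))))) (.mix 0 2 23 1 (.mix 0 0 22 4 (.mix 0 2 21 1 (.mix 0 2 20 0 (.mix 0 2 20 14 (.mix 0 0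 7 1 (.mix 6 1 28 12 (.mix 0 0 27 12 (.mix 0 1 26 3 (.mix 0 1 24 0 (.cond 9 8 (.contra [(1, 1), (10, 6), (12, 8)] 6) (.cond 5 4 (.up 10 (.mix 0 0 10 3 (.cond 1 0 (.contra [(1, 2), (4, 115), (2, 3)] 850) (.contra [(0, 2), (4, 25), (2, 1)] 200))) (.mix 0 2 10 0 (.mix 0 2 10 14 (.mix 0 0 10 1 (.cond 1 0 (.contra [(1, 1), (4, 358), (2, 10)] 2800) (.contra [(0, 1), (4, 206), (2, 5)] 1600))))) (.mix 0 2 4 13 (.mix 0 2 4 10 (.mix 0 2 4 11 (.mix 0 0 4 14 (.cond 1 0 (.contra [(1, 1), (4, 1044), (2, 28)] 8000) (.contra [(0, 2), (4, 504), (2, 13)] 4125)))))) (.mix 0 2 10 12 (.mix 0 0 10 12 (.cond 1 0 (.contra [(0, 1), (4, 159), (2, 4)] 1200) (.contra [(1, 1), (4, 113), (2, 3)] 900)))) (.mix 0 0 10 11 (.mix 0 2 10 3 (.mix 0 2 10 12 (.mix 0 2 10 4 (.mix 0 0 10 11 (.cond 1 0 (.contra [(1, 1), (4, 856), (2, 24)] 6400) (.contra [(0, 1),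 (4, 1672), (2, 43)] 12800)))))))) (.contra [(1, 1), (2, 16)] 0)))))))))))))

def T32 : Tr := .dn 10 (.mix 0 1 10 8 (.mix 0 1 9 17 (.mix 0 0 8 17 (.mix 0 2 7 8 (.mix 0 2 7 16 (.mix 5 0 14 18 (.mix 0 1 13 6 (.mix 0 1 12 5 (.mix 0 1 10 8 (.mix 0 1 10 17 (.cond 8 7 (.cond 10 4 (T8) (.contra [(1, 13), (8, 75), (2, 4)] 25)) (.contra [(1, 1), (6, 12), (8, 16)] 4)))))))))))) (.mix 0 2 10 9 (.mix 0 0 9 6 (.mix 0 2 8 9 (.mix 0 2 7 17 (.mix 0 0 7 17 (.mix 5 1 14 5 (.cond 5 4 (.cond 2 1 (.contra [(1, 1), (8, 24), (10, 88)] 72) (.dn 6 (.mix 0 0 1 18 (.cond 1 0 (.contra [(0, 14), (5, 53), (2, 3)] 275) (.contra [(1, 14), (5, 131), (2, 16)] 300))) (.mix 0 0 6 19 (.cond 1 0 (.contra [(1, 14), (5, 81), (2, 10)] 450) (.contra [(0, 14), (5, 53), (2, 10)] 100))) (.mix 0 1 6 18 (.mix 0 1 6 6 (.mix 0 0 6 19 (.mix 0 1 6 7 (.mix 0 0 6 7 (.cond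 1 0 (.contra [(1, 7), (5, 600), (2, 44)] 2400) (.contra [(0, 7), (5, 800), (2, 117)] 3200))))))) (.mix 0 0 6 5 (.cond 1 0 (.contra [(0, 14), (5, 33), (2, 2)] 300) (.contra [(1, 2), (5, 13), (2, 2)] 50))) (.mix 0 2 6 17 (.mix 0 0 6 17 (.cond 1 0 (.contra [(1, 7), (5, 121), (2, 12)] 400) (.contra [(0, 7), (5, 47), (2, 9)] 300)))))) (.contra [(0, 2), (8, 30), (1, 1)] 20)))))))) (.mix 0 0 10 7 (.mix 0 2 9 19 (.mix 0 2 8 5 (.mix 0 2 7 6 (.mix 0 2 7 9 (.mix 5 2 14 19 (.mix 0 2 13 5 (.mix 0 0 12 18 (.mix 0 1 10 6 (.mix 0 1 10 5 (.cond 3 2 (T9) (.contra [(1, 1), (8, 28)] 12)))))))))))) (.mix 0 2 10 16 (.mix 0 2 9 15 (.mix 0 2 8 18 (.mix 0 0 7 15 (.mix 4 1 13 17 (.mix 0 0 12 17 (.mix 0 1 11 9 (.mix 0 1 9 15 (.mix 0 0 9 8 (.cond 6 5 (.cond 1 0 (.contra [(1, 2), (10, 200), (3, 3)] 200) (.dn 9 (.mix 0 2 9 6 (.mix 0 0 9 19 (.cond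 1 0 (.contra [(1, 52), (5, 171), (2, 64)] 3600) (.contra [(0, 52), (5, 227), (2, 88)] 1700)))) (.mix 0 0 9 19 (.cond 1 0 (.contra [(0, 104), (5, 111), (2, 16)] 2200) (.contra [(1, 104), (5, 257), (2, 112)] 2400))) (.mix 0 2 5 19 (.mix 0 2 5 5 (.mix 0 0 5 18 (.mix 0 2 5 7 (.mix 0 0 5 7 (.cond 1 0 (.contra [(1, 13), (5, 306), (2, 68)] 4800) (.contra [(0, 13), (5, 408), (2, 199)] 6400))))))) (.mix 0 0 9 5 (.cond 1 0 (.contra [(1, 104), (5, 243), (2, 80)] 3200) (.contra [(0, 104), (5, 139), (2, 80)] 600))) (.mix 0 0 5 6 (.cond 1 0 (.contra [(0, 104), (5, 75), (2, 8)] 2400) (.contra [(1, 104), (5, 185), (2, 96)] 2800))))) (.contra [(0, 1), (6, 3), (8, 53)] 17))))))))))) (.mix 0 1 10 15 (.mix 0 0 9 8 (.mix 0 2 8 16 (.mix 0 0 7 9 (.mix 0 1 7 15 (.mix 5 0 14 6 (.mix 0 2 13 9 (.mix 0 0 12 6 (.mix 0 2 10 9 (.mix 0 0 10 6 (.cond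 10 4 (.contra [(1, 1), (6, 3), (8, 2)] 3) (.cond 7 6 (.h2 13 14 (.mix 6 0 0 8 (T29)) (.mix 6 1 0 16 (T31))) (.contra [(0, 3), (4, 110), (1, 19)] 285)))))))))))))

def T33 : Tr := .dn 10 (.mix 0 0 10 18 (.mix 0 2 10 7 (.mix 0 0 10 7 (.cond 1 0 (.contra [(0, 13), (10, 1200), (4, 103)] 400) (.contra [(1, 2), (10, 120), (3, 1)] 0))))) (.mix 0 1 10 5 (.mix 0 0 10 18 (.mix 0 1 10 6 (.mix 0 0 10 19 (.cond 3 2 (.cond 1 0 (.contra [(0, 7), (4, 210), (2, 596)] 13375) (.contra [(1, 1), (2, 4)] 0)) (.contra [(1, 13), (10, 270), (4, 56)] 350)))))) (.mix 0 0 5 7 (.mix 0 2 5 19 (.mix 0 0 5 16 (.cond 1 0 (.contra [(0, 26), (10, 1380), (4, 253)] 2475) (.contra [(1, 13), (10, 1380), (4, 58)] 850))))) (.mix 0 1 10 17 (.mix 0 1 10 9 (.mix 0 1 10 15 (.mix 0 1 10 16 (.mix 0 0 10 9 (.mix 5 2 10 16 (.mix 0 2 10 15 (.mix 0 0 10 8 (.mix 0 1 10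 17 (.mix 0 0 10 17 (.cond 3 2 (.contra [(1, 13), (10, 1380), (4, 136)] 1500) (.cond 6 5 (.contra [(1, 13), (12, 5520), (6, 544)] 6000) (.dn 10 (.mix 0 2 5 6 (.mix 0 0 5 19 (.cond 1 0 (.contra [(1, 1), (14, 210), (8, 2)] 0) (.contra [(0, 8), (14, 2460), (8, 177), (2, 11)] 0)))) (.mix 0 1 10 5 (.mix 0 0 10 18 (.cond 1 0 (.contra [(1, 10), (14, 1080), (8, 71), (2, 9)] 0) (.contra [(0, 10), (14, 3840), (8, 183), (2, 7)] 0)))) (.mix 0 1 5 18 (.mix 0 0 5 15 (.mix 0 2 5 18 (.mix 0 2 5 7 (.mix 0 0 5 7 (.cond 1 0 (.contra [(0, 40), (14, 53460), (8, 327), (2, 173)] 0) (.contra [(1, 5), (14, 660), (8, 467), (2, 33)] 0))))))) (.mix 0 1 10 17 (.mix 0 1 10 9 (.mix 0 0 10 6 (.cond 1 0 (.contra [(0, 5), (14, 1920), (8, 29), (2, 6)] 0) (.contra [(1, 5), (14, 2160), (8, 267), (2, 13)] 0))))) (.mix 0 0 10 6 (.cond 1 0 (.contra [(0, 99),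 (14, 12375), (4, 274), (2, 8)] 0) (.contra [(1, 5), (14, 795), (8, 54), (2, 1)] 0)))))))))))))))) (.mix 0 0 10 6 (.cond 1 0 (.contra [(0, 1), (10, 15), (4, 1)] 25) (.contra [(1, 41), (10, 45), (4, 13), (2, 12)] 0)))

def T34 : Tr := .dn 8 (.mix 0 2 8 6 (.mix 0 0 8 19 (.cond 1 0 (.contra [(1, 4), (10, 160), (3, 3)] 240) (.contra [(0, 8), (10, 440), (3, 7)] 160)))) (.mix 0 0 8 19 (.cond 1 0 (.contra [(0, 4), (10, 20), (3, 3)] 80) (.contra [(1, 4), (10, 140), (3, 1)] 60))) (.mix 0 1 8 18 (.mix 0 0 8 15 (.mix 2 2 5 19 (.mix 0 2 5 5 (.mix 0 0 5 18 (.cond 4 3 (.contra [(0, 68), (4, 520), (3, 109)] 3820) (.cond 1 0 (.contra [(1, 1), (3, 2)] 0) (.contra [(0, 32), (12, 4000), (5, 135), (3, 132)] 0)))))))) (.mix 0 0 8 5 (.mix 0 2 8 6 (.mix 0 0 8 19 (.mix 0 2 8 5 (.mix 0 2 8 6 (.mix 5 1 8 17 (.mix 0 0 8 17 (.cond 1 0 (.contra [(1,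 2), (10, 100), (3, 3)] 100) (.dn 7 (.mix 0 1 7 8 (.mix 0 0 7 5 (.mix 0 1 7 8 (.mix 0 0 7 5 (.cond 1 0 (.contra [(0, 11), (6, 4550), (2, 716)] 25675) (.contra [(1, 11), (6, 11100), (2, 2252)] 92100)))))) (.mix 0 2 7 9 (.mix 0 2 7 17 (.mix 0 0 7 17 (.cond 1 0 (.contra [(1, 11), (6, 1050), (2, 238)] 12800) (.contra [(0, 1), (6, 100), (2, 6)] 475))))) (.mix 0 0 7 7 (.mix 0 1 7 18 (.mix 0 1 7 6 (.mix 0 0 7 19 (.cond 1 0 (.contra [(1, 11), (6, 10300), (2, 1924)] 75800) (.contra [(0, 11), (6, 6150), (2, 1372)] 58275)))))) (.mix 0 2 7 16 (.mix 0 0 7 9 (.mix 0 1 7 15 (.mix 0 1 7 16 (.mix 0 0 7 9 (.cond 1 0 (.contra [(1, 11), (6, 17000), (2, 3912)] 147000) (.contra [(0, 11), (6, 18250), (2, 3264)] 136375))))))) (.mix 0 0 2 6 (.cond 1 0 (.contra [(0, 22), (6, 725), (2, 69)] 3600) (.contra [(1, 2), (6, 175), (2, 37)] 1300))))))))))))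 (.mix 0 0 3 6 (.cond 1 0 (.contra [(0, 16), (10, 40), (3, 9)] 360) (.contra [(1, 1), (10, 13), (4, 2)] 19)))

def T35 : Tr := .up 10 (.mix 0 1 10 1 (.mix 0 0 10 4 (.mix 0 1 10 12 (.mix 0 1 10 3 (.mix 0 1 10 0 (.mix 5 2 10 14 (.mix 0 2 10 2 (.mix 0 2 10 13 (.mix 0 2 10 10 (.mix 0 0 10 13 (.cond 9 8 (.contra [(1, 1), (16, 14), (8, 12)] 54) (.up 10 (.mix 0 1 10 1 (.mix 0 1 10 13 (.mix 0 0 10 0 (.mix 3 0 8 3 (.cond 4 0 (.cond 2 1 (.contra [(0, 29), (12, 50000), (4, 5945), (3, 2118)] 0) (.contra [(1, 1), (3, 4)] 0)) (.contra [(0, 128), (18, 18000), (7, 285), (2, 752)] 0)))))) (.mix 0 0 10 4 (.mix 1 2 6 0 (.mix 0 0 6 3 (.cond 3 2 (.cond 1 0 (.contra [(0, 11), (20, 19500), (12, 125), (3, 159)] 0) (.contra [(1, 1), (3, 2)] 0)) (.contra [(0, 752), (10, 16000), (7, 2205), (2, 2608)] 0))))) (.mix 0 1 5 14 (.mix 0 0 5 1 (.cond 1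 0 (.contra [(1, 8), (18, 4000), (7, 5), (2, 64)] 0) (.contra [(0, 128), (18, 18000), (7, 85), (2, 1008)] 0)))) (.mix 0 0 10 10 (.mix 0 1 10 4 (.mix 0 1 10 12 (.mix 0 1 10 3 (.mix 0 0 10 10 (.cond 1 0 (.contra [(0, 8), (18, 40000), (7, 275), (2, 872)] 0) (.contra [(1, 1), (7, 25), (2, 48)] 0))))))) (.mix 0 0 5 11 (.mix 0 1 5 10 (.mix 0 0 5 13 (.mix 0 1 5 2 (.mix 0 0 5 2 (.cond 1 0 (.contra [(1, 32), (18, 106000), (7, 545), (2, 1328)] 0) (.contra [(0, 128), (18, 482000), (7, 4365), (2, 15216)] 0))))))))))))))))))) (.mix 0 0 10 4 (.mix 0 1 10 12 (.mix 0 1 10 3 (.mix 0 0 10 10 (.cond 1 0 (.contra [(1, 19), (16, 3640), (2, 96)] 880) (.contra [(0, 19), (16, 920), (2, 18)] 3015)))))) (.mix 0 2 10 13 (.mix 0 0 10 0 (.cond 1 0 (.contra [(1, 8), (16, 480), (5, 1)] 160) (.contra [(0, 19), (16, 730), (2, 18)] 735)))) (.mix 0 0 10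 10 (.mix 0 2 10 11 (.mix 0 0 10 14 (.mix 0 2 10 2 (.mix 0 0 10 2 (.cond 1 0 (.contra [(1, 1), (16, 456), (8, 8)] 396) (.contra [(0, 19), (16, 3520), (2, 206)] 1065))))))) (.mix 0 1 10 12 (.mix 0 1 10 3 (.mix 0 0 10 10 (.cond 1 0 (.contra [(0, 1), (16, 78), (8, 14)] 53) (.contra [(1, 4), (16, 160), (5, 1)] 320)))))

def T36 : Tr := .up 20 (.mix 0 2 20 14 (.mix 0 2 19 2 (.mix 0 0 18 2 (.mix 0 1 17 14 (.mix 0 1 17 11 (.mix 5 1 24 1 (.mix 0 1 23 13 (.mix 0 0 22 0 (.mix 0 2 20 14 (.mix 0 0 20 1 (.cond 1 0 (.cond 8 7 (.up 10 (.mix 0 0 10 3 (.cond 1 0 (.contra [(1, 2), (16, 6), (7, 1)] 18) (.contra [(0, 2), (16, 50), (3, 3)] 0))) (.mix 0 2 10 0 (.mix 0 0 10 3 (.mix 0 1 10 0 (.mix 0 1 10 1 (.mix 0 0 10 4 (.mix 5 0 10 4 (.cond 6 0 (.cond 2 1 (.contra [(0, 3), (18, 3075), (6, 52), (3, 293)] 0) (.contra [(1, 3), (18, 4200), (6,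 32), (3, 232)] 0)) (.contra [(0, 33), (16, 575), (4, 7)] 875)))))))) (.mix 0 1 10 14 (.mix 0 0 10 1 (.mix 2 2 7 13 (.mix 0 0 7 0 (.cond 1 0 (.contra [(1, 1), (16, 26), (10, 4)] 10) (.cond 3 2 (.contra [(1, 84), (9, 175), (2, 152)] 3300) (.contra [(0, 84), (9, 175), (2, 416)] 10800))))))) (.mix 0 0 5 10 (.cond 1 0 (.contra [(1, 1), (16, 1), (8, 2)] 23) (.contra [(0, 11), (16, 215), (4, 3)] 155))) (.mix 0 0 10 11 (.mix 1 1 6 12 (.mix 0 1 6 3 (.mix 0 1 6 0 (.mix 0 0 6 3 (.cond 5 4 (.cond 1 0 (.contra [(0, 12), (10, 500), (5, 245), (3, 168)] 0) (.contra [(1, 1), (3, 8)] 0)) (.contra [(0, 1), (16, 17), (8, 4)] 26)))))))) (.contra [(0, 8), (12, 300), (1, 19)] 100)) (.contra [(1, 1), (10, 6), (12, 106)] 72)))))))))))) (.mix 0 1 20 13 (.mix 0 0 19 0 (.mix 0 2 18 14 (.mix 0 0 17 1 (.mix 4 0 23 4 (.mix 0 2 22 1 (.mix 0 0 21 4 (.mix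 0 2 19 1 (.mix 0 2 19 0 (.cond 3 2 (.contra [(0, 3), (6, 55), (3, 40), (1, 99)] 0) (.cond 6 5 (.h0 20 true (.cond 21 0 (.contra [(0, 52), (14, 12), (5, 41)] 1068) (.contra [(1, 1), (10, 4)] 0)) (.mix 1 0 0 3 (.mix 12 2 1 8 (.cond 3 1 (.contra [(1, 1), (6, 4)] 148) (.h0 2 true (.cond 3 0 (.contra [(0, 43), (12, 820), (2, 39)] 4096) (.contra [(1, 1), (12, 8)] 0)) (.mix 1 0 0 5 (.cond 2 0 (.contra [(1, 1), (4, 8)] 184) (.contra [(0, 43), (12, 4140), (2, 199)] 16384)))))))) (.contra [(1, 1), (6, 8)] 44)))))))))))) (.mix 0 0 20 2 (.mix 0 2 19 13 (.mix 0 2 18 10 (.mix 0 0 17 13 (.mix 0 2 17 10 (.mix 5 2 24 13 (.mix 0 2 23 10 (.mix 0 2 22 11 (.mix 0 2 20 3 (.mix 0 2 20 12 (.cond 10 9 (.contra [(0, 3), (12, 25), (1, 4)] 0) (.cond 7 6 (.contra [(1, 1), (3, 56)] 200) (.up 10 (.mix 0 2 10 14 (.mix 0 0 10 1 (.mix 0 2 10 0 (.mix 0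 2 10 14 (.mix 0 0 10 1 (.cond 1 0 (.contra [(1, 1), (5, 240), (2, 8)] 400) (.cond 4 3 (.contra [(0, 9), (7, 710), (2, 1)] 2250) (.contra [(1, 164), (9, 1525), (2, 172)] 4400)))))))) (.mix 0 2 5 0 (.mix 0 0 5 3 (.mix 0 2 5 12 (.mix 0 2 5 4 (.mix 0 0 5 11 (.cond 4 3 (.contra [(1, 1), (5, 58), (2, 2)] 150) (.cond 1 0 (.contra [(1, 1), (2, 8)] 0) (.contra [(0, 3), (7, 2330), (2, 23)] 8000)))))))) (.mix 0 0 10 2 (.cond 1 0 (.contra [(1, 1), (5, 31)] 100) (.contra [(0, 1), (5, 17)] 75))) (.mix 0 2 5 12 (.mix 0 2 5 4 (.mix 0 0 5 11 (.mix 0 1 5 10 (.mix 0 0 5 13 (.cond 1 0 (.contra [(0, 2), (5, 184), (2, 33)] 175) (.contra [(1, 1), (5, 576), (2, 2)] 1950))))))) (.mix 0 2 10 1 (.mix 0 2 10 0 (.mix 0 0 10 3 (.mix 3 0 8 11 (.cond 4 0 (.contra [(1, 1), (5, 11), (2, 1)] 25) (.cond 2 1 (.contra [(1, 4), (9, 325), (2, 552)] 2700) (.contra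 [(0, 8), (9, 275), (2, 488)] 1900)))))))))))))))))))) (.mix 0 1 20 0 (.mix 0 1 19 1 (.mix 0 1 18 13 (.mix 0 1 17 2 (.mix 0 0 17 2 (.mix 5 0 24 10 (.mix 0 1 23 4 (.mix 0 1 22 12 (.mix 0 0 20 12 (.mix 0 2 20 4 (.cond 6 5 (.contra [(0, 16), (12, 2000), (1, 13)] 1600) (.cond 2 1 (.contra [(1, 1), (12, 12), (14, 44)] 8) (T35))))))))))))) (.mix 0 1 19 12 (.mix 0 0 18 12 (.mix 0 1 17 3 (.mix 0 1 15 0 (.mix 0 0 15 3 (.cond 1 0 (.contra [(0, 2), (10, 69), (12, 187)] 84) (.cond 4 3 (.contra [(1, 88), (8, 200), (3, 23)] 1600) (.contra [(0, 8), (3, 1)] 0))))))))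

def T37 : Tr := .dn 10 (.mix 0 1 10 8 (.mix 0 1 9 17 (.mix 0 0 8 17 (.mix 0 2 7 8 (.mix 0 2 7 16 (.mix 5 0 14 18 (.mix 0 1 13 6 (.mix 0 1 12 5 (.mix 0 1 10 8 (.mix 0 0 10 5 (.cond 8 7 (.cond 1 0 (T33) (.contra [(0, 16), (8, 240), (1, 47)] 2800)) (.contra [(1, 1), (6, 12), (8, 16)] 4)))))))))))) (.mix 0 2 10 9 (.mix 0 0 9 6 (.mix 0 2 8 9 (.mix 0 2 7 17 (.mix 0 0 7 17 (.mix 5 1 14 5 (.cond 5 4 (.cond 2 1 (.contra [(1, 1), (8, 24), (10, 88)] 72) (.dn 6 (.mix 0 0 1 18 (.cond 1 0 (.contra [(0, 14), (5, 53), (2, 3)] 275) (.contra [(1, 14), (5, 131), (2, 16)] 300))) (.mix 0 0 6 19 (.cond 1 0 (.contra [(1, 14), (5, 81), (2, 10)] 450) (.contra [(0, 14), (5, 53), (2, 10)] 100))) (.mix 0 1 6 18 (.mix 0 1 6 6 (.mix 0 0 6 19 (.mix 0 1 6 7 (.mix 0 0 6 7 (.cond 1 0 (.contra [(1, 7), (5, 600), (2, 44)] 2400) (.contra [(0, 7), (5, 800),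 (2, 117)] 3200))))))) (.mix 0 0 6 5 (.cond 1 0 (.contra [(0, 14), (5, 33), (2, 2)] 300) (.contra [(1, 2), (5, 13), (2, 2)] 50))) (.mix 0 2 6 17 (.mix 0 0 6 17 (.cond 1 0 (.contra [(1, 7), (5, 121), (2, 12)] 400) (.contra [(0, 7), (5, 47), (2, 9)] 300)))))) (.contra [(0, 2), (8, 30), (1, 1)] 20)))))))) (.mix 0 2 9 19 (.mix 0 2 8 5 (.mix 0 0 7 18 (.mix 0 1 5 6 (.mix 0 0 5 19 (.cond 3 2 (.cond 1 0 (.contra [(0, 11), (4, 5), (2, 78)] 1280) (.contra [(1, 1), (2, 4)] 0)) (.contra [(1, 1), (8, 28)] 12))))))) (.mix 0 2 10 16 (.mix 0 2 9 15 (.mix 0 2 8 18 (.mix 0 0 7 15 (.mix 0 2 7 18 (.mix 5 1 14 17 (.mix 0 0 13 17 (.mix 0 1 12 9 (.cond 5 4 (T34) (.contra [(0, 1), (6, 3), (8, 53)] 17)))))))))) (.mix 0 1 10 15 (.mix 0 0 9 8 (.mix 0 2 8 16 (.mix 0 0 7 9 (.mix 4 0 13 6 (.mix 0 2 12 9 (.mix 0 0 11 6 (.mix 0 2 9 9 (.mix 0 2 9 17 (.cond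 9 4 (.contra [(1, 1), (6, 3), (8, 2)] 3) (.cond 6 5 (T36) (.contra [(0, 3), (4, 110), (1, 19)] 285))))))))))))

def T38 : Tr := .dn 8 (.mix 0 1 8 8 (.mix 0 0 8 5 (.mix 2 2 5 6 (.mix 0 0 5 19 (.cond 1 0 (.cond 3 2 (.contra [(0, 13), (4, 55), (2, 27)] 1125) (.contra [(1, 13), (4, 85), (2, 11)] 1000)) (.contra [(1, 1), (8, 22), (2, 4)] 38)))))) (.mix 0 2 8 9 (.mix 0 2 8 17 (.mix 0 2 8 8 (.mix 0 0 8 5 (.cond 1 0 (.contra [(1, 1), (8, 24), (2, 16)] 296) (.contra [(0, 1), (8, 288), (2, 2)] 177)))))) (.mix 0 0 8 7 (.mix 0 1 8 18 (.mix 0 0 8 15 (.cond 1 0 (.contra [(0, 1), (8, 52), (2, 10)] 133) (.contra [(1, 1), (8, 124)] 96))))) (.mix 0 2 8 16 (.mix 0 0 8 9 (.mix 0 2 8 17 (.mix 0 2 8 8 (.mix 0 0 8 5 (.cond 1 0 (.cond 4 3 (.contra [(1, 4), (4, 98), (2, 3)] 1425) (.contra [(0, 4), (4, 198), (2, 5)] 2675)) (.contra [(1, 1), (8,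 400), (2, 16)] 200))))))) (.mix 0 1 8 15 (.mix 0 1 8 16 (.mix 0 0 8 9 (.mix 0 2 8 17 (.mix 0 2 8 8 (.mix 5 2 8 17 (.mix 0 2 8 8 (.mix 0 2 8 16 (.cond 6 5 (.contra [(1, 1), (8, 116), (2, 8)] 164) (.dn 8 (.mix 0 2 3 6 (.mix 0 0 3 19 (.cond 1 0 (.contra [(1, 3), (10, 110), (2, 4)] 690) (.contra [(0, 2), (10, 588), (6, 5)] 357)))) (.mix 0 1 8 5 (.mix 0 0 8 18 (.mix 2 0 5 19 (.cond 3 0 (.contra [(0, 6), (10, 1525), (1, 7)] 475) (.cond 2 1 (.contra [(1, 1), (3, 2)] 0) (.contra [(0, 1), (12, 98), (6, 14)] 367)))))) (.mix 0 2 8 19 (.mix 0 0 8 16 (.mix 0 1 8 19 (.mix 0 1 8 7 (.mix 0 1 8 18 (.mix 5 1 8 18 (.mix 0 0 8 15 (.cond 1 0 (.contra [(1, 1), (10, 238), (4, 4)] 302) (.h2 27 28 (.mix 21 0 0 6 (.mix 13 2 0 16 (.mix 5 0 0 15 (.cond 6 0 (.contra [(0, 2), (4, 199), (2, 98)] 18125) (.contra [(1, 5), (4, 268), (2, 24)] 17500)))))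 (.mix 21 2 0 17 (.mix 13 0 0 5 (.cond 14 0 (.contra [(0, 50), (4, 927), (2, 466)] 73125) (.contra [(1, 1), (4, 8)] 0))))))))))))) (.mix 0 0 3 5 (.cond 1 0 (.contra [(0, 2), (10, 110), (2, 3)] 65) (.contra [(1, 1), (10, 159), (4, 2)] 61))) (.mix 0 0 8 6 (.mix 1 2 4 17 (.mix 0 2 4 8 (.mix 0 0 4 5 (.cond 1 0 (.cond 4 3 (.contra [(0, 328), (8, 6125), (2, 418)] 73625) (.contra [(1, 328), (8, 13875), (2, 1054)] 271375)) (.contra [(1, 1), (10, 540), (2, 8)] 660))))))))))))))))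

def T39 : Tr := .dn 9 (.mix 0 2 9 6 (.mix 0 0 9 19 (.cond 1 0 (.contra [(1, 68), (6, 160), (5, 71)] 2160) (.contra [(0, 52), (5, 51), (2, 88)] 1700)))) (.mix 0 0 9 19 (.cond 1 0 (.contra [(0, 136), (6, 40), (5, 107)] 2240) (.contra [(1, 104), (5, 33), (2, 112)] 2400))) (.mix 0 1 9 18 (.mix 0 0 9 15 (.mix 2 2 6 19 (.mix 0 2 6 5 (.mix 0 0 6 18 (.cond 4 3 (.contra [(0, 68), (6, 260), (5, 109)] 960) (.cond 1 0 (.contra [(1, 1), (3, 2)] 0) (.contra [(0, 1), (7, 5), (4, 5), (3, 6)] 0)))))))) (.mix 0 0 9 5 (.mix 0 2 9 6 (.mix 0 0 9 19 (.mix 0 2 9 5 (.mix 0 2 9 6 (.mix 5 1 9 17 (.mix 0 0 9 17 (.cond 1 0 (.contra [(1, 68), (6, 200), (5, 127)] 1000) (.dn 7 (.mix 0 1 7 8 (.mix 0 0 7 5 (.mix 0 1 7 8 (.mix 0 0 7 5 (.cond 1 0 (.contra [(0, 11), (8, 2275), (2, 716)] 650) (.contra [(1, 11), (8, 5550), (2, 2252)] 31050)))))) (.mix 0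 2 7 9 (.mix 0 2 7 17 (.mix 0 0 7 17 (.cond 1 0 (.contra [(1, 11), (8, 525), (2, 238)] 7025) (.contra [(0, 4), (8, 105), (4, 22)] 105))))) (.mix 0 0 7 7 (.mix 0 1 7 18 (.mix 0 1 7 6 (.mix 0 0 7 19 (.cond 1 0 (.contra [(1, 11), (8, 5150), (2, 1924)] 19150) (.contra [(0, 11), (8, 3075), (2, 1372)] 24450)))))) (.mix 0 2 7 16 (.mix 0 0 7 9 (.mix 0 1 7 15 (.mix 0 1 7 16 (.mix 0 0 7 9 (.cond 1 0 (.contra [(1, 11), (8, 8500), (2, 3912)] 53500) (.contra [(0, 11), (8, 9125), (2, 3264)] 36000))))))) (.mix 0 0 2 6 (.cond 1 0 (.contra [(0, 16), (8, 65), (4, 46)] 565) (.contra [(1, 4), (8, 175), (2, 74)] 675)))))))))))) (.mix 0 0 4 6 (.cond 1 0 (.contra [(0, 136), (6, 20), (5, 79)] 2820) (.contra [(1, 48), (6, 35), (2, 26)] 735)))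

def T40 : Tr := .dn 9 (.mix 0 0 8 18 (.mix 0 1 7 6 (.mix 0 1 6 5 (.mix 0 0 4 18 (.cond 1 0 (.contra [(0, 2), (4, 27), (6, 101)] 44) (.cond 4 3 (.contra [(0, 8), (3, 1)] 0) (.contra [(1, 1), (6, 15), (3, 1)] 25))))))) (.mix 0 2 9 9 (.mix 0 0 8 6 (.mix 0 2 7 9 (.mix 0 2 6 17 (.mix 0 0 6 17 (.mix 5 1 13 5 (.cond 5 4 (.cond 2 1 (.contra [(1, 1), (6, 24), (8, 88)] 72) (.dn 6 (.mix 0 0 1 18 (.cond 1 0 (.contra [(0, 14), (5, 53), (2, 3)] 275) (.contra [(1, 14), (5, 131), (2, 16)] 300))) (.mix 0 0 6 19 (.cond 1 0 (.contra [(1, 14), (5, 81), (2, 10)] 450) (.contra [(0, 14), (5, 53), (2, 10)] 100))) (.mix 0 1 6 18 (.mix 0 1 6 6 (.mix 0 0 6 19 (.mix 0 1 6 7 (.mix 0 0 6 7 (.cond 1 0 (.contra [(1, 7), (5, 600), (2, 44)] 2400) (.contra [(0, 7), (5, 800), (2, 117)] 3200))))))) (.mix 0 0 6 5 (.cond 1 0 (.contra [(0, 14), (5, 33), (2,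 2)] 300) (.contra [(1, 2), (5, 13), (2, 2)] 50))) (.mix 0 2 6 17 (.mix 0 0 6 17 (.cond 1 0 (.contra [(1, 7), (5, 121), (2, 12)] 400) (.contra [(0, 7), (5, 47), (2, 9)] 300)))))) (.contra [(0, 2), (6, 30), (1, 1)] 20)))))))) (.mix 0 0 9 7 (.mix 0 2 8 19 (.mix 0 2 7 5 (.mix 0 2 6 6 (.mix 0 2 6 9 (.mix 5 2 13 19 (.mix 0 2 12 5 (.mix 0 0 11 18 (.cond 1 0 (T38) (.contra [(1, 1), (6, 28)] 12)))))))))) (.mix 0 2 9 16 (.mix 0 2 8 15 (.mix 0 2 7 18 (.mix 0 0 6 15 (.mix 0 2 6 18 (.mix 5 1 13 17 (.mix 0 0 12 17 (.mix 0 1 11 9 (.mix 0 0 9 6 (.cond 6 5 (.cond 1 0 (.contra [(1, 4), (8, 200), (3, 3)] 200) (T39)) (.contra [(0, 1), (4, 3), (6, 53)] 17))))))))))) (.mix 0 1 9 15 (.mix 0 0 8 8 (.mix 2 0 10 6 (.mix 0 2 9 9 (.mix 0 0 8 6 (.mix 0 1 6 5 (.cond 5 4 (.contra [(1, 1), (4, 6), (6, 4)] 6) (.h0 7 false (.cond 8 0 (.contra [(0, 2),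 (6, 3), (8, 13)] 28) (.contra [(1, 1), (6, 12), (8, 4)] 0)) (.mix 1 0 0 18 (.cond 2 0 (.contra [(1, 13), (6, 60), (2, 98)] 250) (.up 18 (.mix 0 2 18 14 (.mix 0 2 17 2 (.mix 0 0 16 2 (.cond 1 0 (.contra [(1, 13), (8, 588), (2, 16)] 492) (.contra [(0, 13), (8, 1884), (2, 38)] 1331))))) (.mix 0 0 17 4 (.mix 0 2 16 1 (.mix 0 0 15 4 (.mix 0 1 13 12 (.mix 0 1 6 3 (.h0 7 false (.cond 8 0 (.contra [(0, 13), (8, 4080), (2, 89)] 3312) (.contra [(1, 13), (8, 1056), (2, 16)] 544)) (.mix 1 0 0 10 (.cond 2 0 (.contra [(1, 13), (8, 8160), (2, 152)] 6624) (.contra [(0, 13), (8, 18960), (2, 409)] 14608))))))))) (.mix 0 0 18 2 (.mix 0 2 17 13 (.mix 0 2 16 10 (.mix 0 0 15 13 (.cond 1 0 (.contra [(1, 13), (8, 5208), (2, 112)] 4224) (.contra [(0, 13), (8, 456), (2, 14)] 203)))))) (.mix 0 0 17 10 (.mix 0 1 16 4 (.mix 0 1 15 12 (.mix 0 1 13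 3 (.mix 0 0 6 10 (.cond 1 0 (.contra [(1, 13), (8, 8496), (2, 176)] 6192) (.contra [(0, 13), (8, 6048), (2, 133)] 5536))))))) (.mix 0 2 18 1 (.mix 0 0 17 4 (.cond 1 0 (.contra [(1, 13), (8, 822), (2, 16)] 622) (.contra [(0, 13), (8, 54), (2, 2)] 159)))))))))))))))

def T41 : Tr := .dn 9 (.mix 0 2 3 6 (.mix 0 0 3 19 (.cond 1 0 (.contra [(0, 47), (8, 2090), (4, 230), (2, 233)] 0) (.contra [(1, 47), (8, 3770), (4, 190), (2, 264)] 0)))) (.mix 0 2 9 9 (.mix 0 2 9 17 (.mix 0 2 9 8 (.mix 0 0 9 5 (.cond 1 0 (.contra [(1, 47), (8, 22440), (4, 1480), (2, 1344)] 0) (.contra [(0, 47), (8, 26280), (4, 885), (2, 448)] 0)))))) (.mix 0 0 9 7 (.mix 0 1 9 18 (.mix 0 0 9 15 (.cond 1 0 (.contra [(0, 47), (8, 12020), (4, 665), (2, 736)] 0) (.contra [(1, 47), (8, 12740), (4, 480), (2, 192)] 0))))) (.mix 0 0 3 5 (.cond 1 0 (.contra [(0, 47),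 (8, 3225), (4, 175), (2, 117)] 0) (.contra [(1, 47), (8, 375), (4, 75), (2, 124)] 0))) (.mix 0 1 9 15 (.mix 0 1 9 16 (.mix 0 0 9 9 (.mix 0 2 9 17 (.mix 0 0 9 17 (.mix 0 2 9 8 (.mix 6 2 9 17 (.mix 0 2 9 8 (.mix 0 2 9 16 (.dn 9 (.mix 0 0 9 18 (.mix 0 2 9 7 (.mix 0 0 9 7 (.mix 0 1 9 18 (.mix 0 1 9 6 (.mix 0 0 9 19 (.cond 1 0 (.contra [(1, 47), (8, 623840), (4, 25880), (2, 15616)] 0) (.contra [(0, 47), (8, 315520), (4, 23765), (2, 27648)] 0)))))))) (.mix 0 1 9 5 (.mix 0 0 9 18 (.mix 2 0 5 19 (.cond 3 0 (.contra [(0, 268), (8, 123375), (4, 2375), (1, 471)] 0) (.cond 2 1 (.contra [(1, 1), (3, 2)] 0) (.contra [(0, 47), (10, 31030), (6, 1835), (4, 1392)] 0)))))) (.mix 0 2 9 19 (.mix 0 0 9 16 (.mix 0 1 9 19 (.mix 0 1 9 7 (.mix 0 0 9 7 (.cond 1 0 (.contra [(0, 47), (8, 121360), (4, 5895), (2, 384)] 0) (.contra [(1, 47), (8, 62480),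 (4, 8360), (2, 10112)] 0))))))) (.mix 0 0 3 5 (.cond 1 0 (.contra [(0, 47), (8, 455), (4, 185), (2, 497)] 0) (.contra [(1, 47), (8, 11865), (4, 305), (2, 216)] 0))) (.mix 0 2 3 17 (.mix 0 2 3 8 (.mix 0 0 3 5 (.cond 1 0 (.contra [(0, 47), (8, 34520), (4, 1640), (2, 233)] 0) (.contra [(1, 47), (8, 49060), (4, 3420), (2, 3624)] 0)))))))))))))))

def T42 : Tr := .dn 9 (.mix 0 1 9 8 (.mix 0 1 8 17 (.mix 0 0 7 17 (.mix 0 2 6 8 (.mix 0 0 6 5 (.cond 3 2 (.cond 1 0 (.contra [(0, 39), (6, 3840), (4, 275), (2, 452)] 0) (.contra [(1, 1), (2, 4)] 0)) (.contra [(1, 15), (4, 192), (6, 292), (2, 4)] 0))))))) (.mix 0 2 9 9 (.mix 0 0 8 6 (.mix 0 2 7 9 (.mix 0 2 6 17 (.mix 0 2 6 8 (.mix 0 2 6 16 (.mix 6 1 14 5 (.mix 0 1 13 8 (.cond 7 6 (.dn 8 (.mix 0 0 2 18 (.cond 1 0 (.contra [(0, 292), (6, 4830), (4, 250), (3, 1191)] 0) (.contra [(1,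 2), (6, 60), (3, 7)] 0))) (.mix 0 1 2 5 (.mix 0 0 2 18 (.cond 1 0 (.contra [(1, 15), (6, 318), (8, 1108), (4, 46)] 0) (.contra [(0, 10), (6, 39), (8, 709), (4, 8)] 0)))) (.mix 0 1 8 18 (.mix 0 1 8 6 (.mix 0 0 8 19 (.mix 0 1 8 7 (.mix 0 1 8 18 (.mix 0 0 8 15 (.cond 1 0 (.contra [(1, 73), (6, 47040), (4, 1800), (3, 10736)] 0) (.cond 4 3 (.contra [(1, 29), (8, 2400), (10, 6500), (2, 12)] 0) (.contra [(0, 87), (8, 10800), (10, 65500), (2, 83)] 0))))))))) (.mix 0 0 8 5 (.cond 1 0 (.contra [(0, 146), (6, 2460), (4, 150), (3, 481)] 0) (.contra [(1, 5), (6, 99), (8, 94), (4, 3)] 0))) (.mix 0 2 8 17 (.mix 0 0 8 17 (.cond 1 0 (.contra [(1, 5), (6, 12), (8, 522), (4, 14)] 0) (.contra [(0, 15), (6, 552), (8, 262), (4, 19)] 0))))) (.contra [(0, 7), (6, 190), (2, 5), (1, 6)] 0)))))))))) (.mix 0 0 9 7 (.mix 0 2 8 19 (.mix 0 2 7 5 (.mix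 0 2 6 6 (.mix 0 0 6 19 (.mix 0 2 6 5 (.mix 6 2 14 19 (.mix 0 2 13 5 (.mix 0 0 12 18 (.cond 1 0 (T41) (.contra [(1, 5), (4, 12), (6, 192), (2, 4)] 0))))))))))) (.mix 0 2 9 16 (.mix 0 2 8 15 (.mix 0 2 7 18 (.mix 0 0 6 15 (.mix 0 1 6 16 (.mix 5 1 13 17 (.mix 0 0 12 17 (.mix 0 1 11 9 (.cond 5 4 (.dn 8 (.mix 0 2 8 6 (.mix 0 0 8 19 (.cond 1 0 (.contra [(1, 8), (8, 920), (4, 40), (3, 11)] 0) (.contra [(0, 12), (8, 960), (4, 20), (3, 13)] 0)))) (.mix 0 0 8 19 (.cond 1 0 (.contra [(0, 24), (8, 720), (4, 40), (3, 23)] 0) (.contra [(1, 32), (8, 1720), (4, 40), (3, 13)] 0))) (.mix 0 1 8 18 (.mix 0 0 8 15 (.mix 2 2 5 19 (.mix 0 2 5 5 (.mix 0 0 5 18 (.cond 1 0 (.cond 4 3 (.contra [(0, 1), (10, 350), (6, 75), (3, 21)] 0) (.contra [(1, 2), (3, 1)] 0)) (.contra [(0, 64), (8, 9320), (4, 440), (3, 259)] 0))))))) (.mix 0 0 8 5 (.mix 0 2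 8 6 (.mix 0 0 8 19 (.mix 0 2 8 5 (.mix 0 0 8 18 (.cond 1 0 (.contra [(1, 3), (8, 2400), (4, 100), (3, 14)] 0) (.contra [(0, 1), (8, 800), (4, 25), (3, 14)] 0))))))) (.mix 0 0 3 6 (.cond 1 0 (.contra [(0, 64), (8, 1960), (4, 120), (3, 51)] 0) (.contra [(1, 12), (8, 660), (4, 20), (3, 1)] 0)))) (.contra [(0, 15), (4, 96), (6, 1016), (2, 17)] 0)))))))))) (.mix 0 1 9 15 (.mix 0 0 8 8 (.mix 0 2 7 16 (.mix 0 0 6 9 (.mix 0 2 6 17 (.mix 0 0 6 17 (.cond 1 0 (.cond 3 2 (.contra [(0, 4), (3, 1)] 0) (.contra [(1, 9), (6, 480), (8, 1000), (3, 7)] 0)) (.contra [(0, 3), (2, 25), (1, 4)] 0))))))))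

def T43 : Tr := .cond 7 6 (.contra [(0, 3), (6, 25), (1, 4)] 0) (.up 7 (.mix 0 2 7 14 (.mix 0 0 7 1 (.cond 1 0 (.contra [(0, 3), (4, 5), (3, 514)] 1710) (.contra [(1, 3), (4, 10), (3, 758)] 2670)))) (.mix 0 1 7 13 (.mix 0 1 7 2 (.mix 0 1 7 14 (.mix 0 1 7 11 (.mix 0 0 7 14 (.mix 0 2 7 2 (.mix 0 2 7 13 (.up 7 (.mix 0 1 7 1 (.mix 0 0 7 4 (.cond 1 0 (.contra [(0, 3), (4, 35), (3, 3562)] 12870) (.contra [(1, 1), (4, 10), (3, 582)] 2070)))) (.mix 0 0 7 4 (.cond 1 0 (.contra [(1, 3), (4, 10), (3, 947)] 3570) (.contra [(0, 1), (4, 10), (3, 847)] 2945))) (.mix 0 2 7 13 (.mix 0 0 7 0 (.cond 1 0 (.contra [(1, 3), (4, 10), (3, 1802)] 6570) (.contra [(0, 1), (4, 15), (3, 1178)] 4230)))) (.mix 0 0 7 10 (.mix 0 2 7 11 (.mix 0 0 7 14 (.mix 0 2 7 2 (.mix 0 0 7 2 (.mix 0 1 7 14 (.mix 0 0 7 1 (.cond 1 0 (.contra [(0, 1), (4, 35), (3, 3072)]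 5120) (.contra [(1, 3), (4, 2060), (3, 185152)] 649920))))))))) (.mix 0 1 7 12 (.mix 0 1 7 3 (.mix 0 0 7 10 (.cond 1 0 (.contra [(0, 3), (4, 35), (3, 1492)] 4620) (.contra [(1, 3), (4, 20), (3, 3124)] 10140))))))))))))) (.mix 0 0 7 2 (.cond 1 0 (.contra [(1, 1), (3, 31)] 100) (.contra [(0, 1), (3, 17)] 75))) (.mix 0 1 7 0 (.mix 0 0 7 3 (.cond 1 0 (.contra [(0, 3), (4, 5), (3, 298)] 1110) (.contra [(1, 3), (4, 10), (3, 866)] 2970)))) (.mix 0 2 7 1 (.mix 0 2 7 0 (.mix 0 0 7 3 (.cond 1 0 (.contra [(1, 3), (4, 20), (3, 1828)] 6540) (.contra [(0, 1), (4, 5), (3, 372)] 1260))))))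

def T44 : Tr := .up 10 (.mix 0 2 10 14 (.mix 0 2 9 2 (.mix 0 0 8 2 (.mix 0 1 7 14 (.mix 0 0 7 1 (.mix 0 2 7 0 (.mix 0 2 7 14 (.mix 7 1 16 1 (.mix 0 1 15 13 (.cond 5 4 (.up 9 (.mix 0 0 9 3 (.mix 0 2 9 12 (.mix 0 0 9 12 (.mix 0 1 9 3 (.mix 0 1 9 0 (.mix 0 0 9 3 (.cond 1 0 (.contra [(0, 3), (8, 14944), (4, 143)] 8064) (.contra [(1, 3), (8, 2848), (4, 56)] 2688)))))))) (.mix 0 0 2 4 (.cond 1 0 (.contra [(1, 1), (8, 103), (4, 1)] 38) (.contra [(0, 6), (8, 746), (4, 7)] 441))) (.mix 0 1 9 14 (.mix 0 0 9 1 (.mix 2 2 4 13 (.mix 0 0 4 0 (.cond 1 0 (.contra [(0, 6), (8, 476), (4, 7)] 51) (.cond 3 2 (.contra [(1, 1), (3, 1)] 0) (.contra [(0, 7), (6, 275), (3, 381)] 5300))))))) (.mix 0 2 9 12 (.mix 0 2 9 4 (.mix 0 2 9 1 (.mix 0 0 9 4 (.mix 0 2 9 1 (.mix 0 2 9 0 (.mix 0 0 9 3 (.cond 1 0 (.contra [(1, 1), (8, 11968), (4, 136)] 5888)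 (.contra [(0, 1), (4, 25), (2, 24)] 0))))))))) (.mix 0 0 9 11 (.cond 1 0 (.contra [(1, 1), (8, 171), (4, 2)] 81) (.contra [(0, 3), (8, 271), (4, 2)] 156)))) (.contra [(1, 1), (6, 432), (2, 4)] 192))))))))))) (.mix 0 1 10 13 (.mix 0 0 9 0 (.mix 0 2 8 14 (.mix 0 0 7 1 (.cond 1 0 (.contra [(0, 1), (6, 40), (2, 1)] 32) (.contra [(1, 3), (6, 440), (2, 4)] 288)))))) (.mix 0 0 10 2 (.mix 0 2 9 13 (.mix 0 2 8 10 (.mix 0 0 7 13 (.mix 0 1 7 2 (.mix 0 1 7 14 (.mix 0 1 7 11 (T43)))))))) (.mix 0 1 10 0 (.mix 0 1 9 1 (.mix 0 1 8 13 (.mix 0 1 7 2 (.mix 0 1 7 14 (.mix 0 0 7 1 (.cond 1 0 (.contra [(0, 1), (6, 416), (2, 3)] 128) (.contra [(1, 3), (6, 2464), (2, 32)] 1152)))))))) (.mix 0 2 10 1 (.mix 0 0 9 4 (.mix 0 2 8 1 (.mix 0 2 7 0 (.mix 0 0 7 3 (.cond 1 0 (.contra [(0, 1), (6, 368), (2, 3)] 192) (.contra [(1, 3), (6, 688), (2, 8)]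 192)))))))

def T45 : Tr := .dn 8 (.mix 0 0 8 18 (.mix 0 2 8 7 (.mix 0 0 8 7 (.mix 0 1 8 18 (.mix 0 1 8 6 (.mix 0 1 8 5 (.mix 6 2 8 6 (.mix 0 0 8 19 (.cond 1 0 (.contra [(1, 1), (7, 2650), (2, 4)] 9076) (.dn 8 (.mix 0 1 8 8 (.mix 0 0 8 5 (.mix 0 1 8 8 (.mix 0 1 8 17 (.mix 0 1 8 9 (.mix 0 0 8 6 (.cond 1 0 (.contra [(0, 1), (9, 694700), (2, 2034)] 2521025) (.contra [(1, 1), (9, 125600), (2, 352)] 469200)))))))) (.mix 0 2 8 9 (.mix 0 2 8 17 (.mix 0 0 8 17 (.cond 1 0 (.contra [(0, 1), (9, 81400), (2, 234)] 295425) (.contra [(1, 1), (9, 27300), (2, 88)] 98600))))) (.mix 0 0 8 7 (.mix 0 1 8 18 (.mix 0 1 8 6 (.mix 0 1 8 5 (.mix 0 0 8 18 (.cond 1 0 (.contra [(1, 1), (9, 280400), (2, 832)] 1022800) (.contra [(0, 1), (9, 196700), (2, 546)] 710025))))))) (.mix 0 2 8 16 (.mix 0 0 8 9 (.mix 0 1 8 15 (.mix 0 0 8 8 (.cond 1 0 (.contra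 [(0, 1), (9, 97500), (2, 302)] 354375) (.contra [(1, 1), (9, 77000), (2, 216)] 276500)))))) (.mix 0 1 8 15 (.mix 0 1 8 16 (.mix 0 1 8 19 (.mix 0 0 8 16 (.cond 1 0 (.contra [(0, 1), (9, 120100), (2, 354)] 433825) (.contra [(1, 1), (9, 31800), (2, 112)] 117600)))))))))))))))) (.mix 0 0 2 19 (.cond 1 0 (.contra [(0, 2), (7, 4930), (2, 7)] 16493) (.contra [(1, 1), (7, 1895), (2, 3)] 6347))) (.mix 0 1 2 18 (.mix 0 0 2 15 (.cond 1 0 (.contra [(1, 1), (7, 1590), (2, 2)] 5518) (.contra [(0, 2), (7, 4240), (2, 7)] 14413)))) (.mix 0 1 8 17 (.mix 0 1 8 9 (.mix 0 1 8 15 (.mix 0 1 8 16 (.mix 0 1 8 19 (.mix 0 0 8 16 (.cond 1 0 (.contra [(0, 1), (7, 121660), (2, 181)] 408484) (.contra [(1, 1), (7, 26720), (2, 32)] 89248)))))))) (.mix 0 0 8 6 (.cond 1 0 (.contra [(0, 1), (7, 1385), (2, 2)] 4583) (.contra [(1, 1), (7, 4055), (2, 6)] 13674)))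

def T46 : Tr := .h2 9 19 (.mix 9 2 0 2 (.mix 9 2 0 0 (.mix 9 2 2 7 (.mix 9 2 0 8 (.h0 9 false (.mix 9 0 0 2 (.mix 8 0 1 7 (.mix 8 2 0 9 (.cond 12 2 (.h0 8 false (.mix 8 0 0 2 (.mix 8 2 0 14 (.h2 6 16 (.mix 6 2 0 13 (.h2 4 13 (.mix 4 2 0 13 (.mix 4 0 0 1 (.cond 5 0 (.contra [(0, 7), (13, 264020), (6, 454)] 1133251) (.contra [(1, 7), (13, 1066496), (10, 2376)] 3852800)))) (.mix 4 1 0 14 (.mix 4 2 0 2 (.h0 2 true (.h0 5 false (.mix 5 2 0 10 (.h2 1 7 (.exc 14 0 3 ⟨-916955, 11185, -971555, -1037459392165, 12654910185, -1099234814300, 1037460859293, -12654928081, 1099236368788⟩ ⟨-916175, 5, 130, -1036576886150, 5657090, 147084340, 1036578352030, -5657098, -147084548⟩ ⟨0, -75, -59595, 0, -84856350, -67426854961, 0, 84856470, 67426950313⟩ 1) (.mix 1 0 0 13 (.cond 2 0 (.contra [(1, 1), (2, 8)] 0) (.contra [(0, 14), (13, 705856),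 (10, 1515)] 2716875))))) (.mix 5 0 0 0 (.cond 6 0 (.contra [(1, 1), (2, 4)] 0) (.contra [(0, 14), (13, 349504), (10, 811)] 1227275)))) (.mix 2 0 0 1 (.mix 2 0 0 2 (.cond 3 0 (.contra [(0, 7), (13, 439744), (10, 2089)] 2139200) (.contra [(1, 7), (13, 2132992), (10, 4752)] 7705600))))))))) (.mix 5 1 0 18 (.mix 5 0 0 6 (.cond 6 0 (.contra [(1, 7), (13, 533248), (10, 1188)] 1997604) (.contra [(0, 7), (13, 132010), (6, 227)] 404320))))))) (.mix 6 2 0 19 (.mix 6 0 0 5 (.cond 7 0 (.contra [(0, 7), (13, 94016), (10, 771)] 421568) (.contra [(1, 7), (13, 540672), (10, 1072)] 1949696))))) (.contra [(1, 7), (11, 22272), (8, 44)] 93100))))) (.mix 9 2 0 13 (.mix 9 0 0 11 (.cond 10 0 (.contra [(1, 7), (11, 270336), (8, 536)] 1003800) (.contra [(0, 14), (11, 94016), (8, 771)] 360675))))))))) (.mix 9 0 0 1 (.cond 10 0 (.contra [(0, 1),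 (11, 6208), (8, 15)] 24000) (.contra [(1, 1), (8, 8)] 0)))

def T47 : Tr := .mix 5 2 0 2 (.mix 5 2 0 4 (.mix 5 2 0 4 (.mix 5 2 3 19 (.mix 5 2 0 17 (.h0 5 false (.cond 6 0 (.contra [(0, 35), (11, 746), (4, 3)] 2912) (.contra [(1, 35), (11, 3296), (8, 8)] 12040)) (.mix 5 2 0 13 (.mix 5 0 0 11 (.mix 5 2 0 1 (.mix 5 0 3 16 (.mix 5 0 0 17 (.h0 5 false (.mix 5 2 0 10 (.mix 5 1 0 10 (.mix 5 0 0 4 (.cond 6 0 (.contra [(1, 1), (2, 4)] 10444) (.contra [(0, 14), (11, 263744), (8, 779)] 964075))))) (.mix 5 0 0 0 (.mix 5 2 0 3 (.mix 4 2 2 15 (.mix 4 2 0 8 (.h0 85 true (.mix 78 1 0 6 (.mix 39 1 0 5 (.mix 29 0 0 18 (.cond 30 0 (.contra [(0, 7), (11, 263744), (8, 779)] 1007552) (.contra [(1, 1), (2, 8)] 0))))) (.mix 67 2 0 0 (.mix 57 1 0 14 (.mix 80 0 2 15 (.mix 41 2 0 9 (.h0 9 false (.mix 9 2 0 14 (.mix 9 2 0 12 (.mix 9 2 2 18 (.mix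 9 0 0 5 (.h0 9 true (.mix 9 2 0 14 (.mix 9 0 0 1 (.mix 9 2 2 18 (.mix 9 2 0 17 (.h2 9 19 (.mix 9 2 0 2 (.mix 9 2 0 4 (.mix 9 2 2 7 (.mix 9 2 0 6 (T46))))) (.mix 9 0 0 1 (.mix 9 0 0 12 (.cond 10 0 (.contra [(1, 7), (11, 135168), (8, 268)] 501900) (.contra [(0, 14), (11, 63552), (8, 127)] 170975))))))))) (.mix 9 0 0 3 (.cond 10 0 (.contra [(0, 7), (11, 22464), (8, 41)] 78400) (.contra [(1, 1), (8, 4)] 0)))))))) (.mix 7 0 0 8 (.cond 8 0 (.contra [(1, 1), (8, 2)] 322) (.contra [(0, 14), (11, 22464), (8, 41)] 85449))))))))))))))))))))))))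

def T48 : Tr := .mix 0 1 39 15 (.mix 0 1 39 16 (.mix 0 0 39 9 (.mix 0 2 39 17 (.mix 0 0 39 17 (.mix 0 1 39 9 (.mix 0 0 39 6 (.mix 7 2 39 17 (.mix 0 2 39 8 (.mix 0 2 39 16 (.dn 10 (.mix 0 2 3 6 (.mix 0 0 3 19 (.cond 1 0 (.contra [(1, 7), (7, 934), (4, 4)] 4732) (.contra [(0, 14), (7, 4240), (2, 1)] 15267)))) (.mix 0 0 3 19 (.cond 1 0 (.contra [(0, 2), (7, 526), (4, 1)] 1793) (.contra [(1, 7), (7, 53), (4, 3)] 329))) (.mix 0 2 10 19 (.mix 0 0 10 16 (.mix 0 1 10 19 (.mix 0 1 10 7 (.mix 0 0 10 7 (.mix 0 2 10 19 (.mix 0 2 10 5 (.mix 7 1 10 18 (.mix 0 0 10 15 (.mix 0 1 10 16 (.cond 2 1 (.contra [(1, 7), (7, 2322), (4, 2)] 9226) (.cond 6 5 (.h0 66 false (.mix 52 1 0 6 (.mix 13 2 0 15 (.mix 3 0 0 9 (.cond 4 0 (.contra [(0, 2), (11, 4768), (8, 13)] 17069) (.contra [(1, 1), (4, 4)] 0))))) (.mix 41 0 0 14 (.mix 31 0 0 12 (.mix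 25 0 0 12 (.mix 55 2 3 7 (.mix 16 0 0 9 (.h0 5 false (.cond 6 0 (.contra [(0, 70), (11, 832), (8, 1)] 3745) (.contra [(1, 35), (11, 1648), (8, 4)] 6020)) (T47)))))))) (.contra [(1, 7), (9, 14992), (6, 72)] 61936))))))))))))) (.mix 0 1 10 17 (.mix 0 1 10 9 (.mix 0 1 10 15 (.mix 0 1 10 16 (.mix 0 1 10 19 (.mix 0 0 10 16 (.cond 1 0 (.contra [(0, 7), (7, 54496), (4, 181)] 198688) (.contra [(1, 7), (7, 46112), (4, 32)] 154336)))))))) (.mix 0 0 10 6 (.cond 1 0 (.contra [(0, 7), (7, 887), (4, 2)] 2681) (.contra [(1, 7), (7, 1961), (4, 6)] 7518)))))))))))))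

def T49 : Tr := .up 10 (.mix 0 1 10 1 (.mix 0 0 10 4 (.cond 1 0 (.contra [(0, 1), (5, 526), (2, 1)] 2050) (.contra [(1, 7), (5, 106), (2, 6)] 1050)))) (.mix 0 0 10 4 (.cond 1 0 (.contra [(1, 7), (5, 887), (2, 2)] 3850) (.contra [(0, 7), (5, 1961), (2, 6)] 7175))) (.mix 0 2 10 13 (.mix 0 0 10 0 (.cond 1 0 (.contra [(1, 7), (5, 2882), (2, 2)] 10850) (.contra [(0, 7), (5, 2294), (2, 9)] 9450)))) (.mix 0 0 10 10 (.mix 0 2 10 11 (.mix 0 0 10 14 (.cond 1 0 (.dn 36 (.mix 0 2 29 6 (.mix 0 0 29 19 (.cond 1 0 (.contra [(0, 2), (7, 1976), (2, 3)] 6689) (.contra [(1, 1), (7, 1374), (2, 2)] 4606)))) (.mix 0 2 36 9 (.mix 0 2 36 17 (.mix 0 2 36 8 (.mix 0 0 36 5 (.cond 1 0 (.contra [(1, 1), (7, 5432), (2, 8)] 18376) (.contra [(0, 1), (7, 964), (2, 1)] 3292)))))) (.mix 0 0 36 7 (.cond 1 0 (.contra [(0, 1), (7, 31)] 117) (.contra [(1,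 1), (7, 17)] 44))) (.mix 0 0 29 5 (.cond 1 0 (.contra [(0, 2), (7, 706), (2, 1)] 2411) (.contra [(1, 1), (7, 661), (2, 1)] 2221))) (.mix 0 1 36 15 (.mix 0 1 36 16 (.mix 0 0 36 9 (.mix 0 2 36 17 (.mix 0 0 36 17 (.mix 0 1 36 9 (.mix 6 2 35 17 (.mix 0 2 35 8 (T45)))))))))) (.contra [(1, 7), (5, 1868), (2, 8)] 4900))))) (.mix 0 1 10 12 (.mix 0 1 10 3 (.mix 0 0 10 10 (.mix 3 0 6 11 (.mix 0 2 6 3 (.mix 0 2 6 12 (.cond 4 3 (.dn 39 (.mix 0 2 32 6 (.mix 0 0 32 19 (.cond 1 0 (.contra [(0, 14), (7, 620), (4, 3)] 2723) (.contra [(1, 7), (7, 810), (4, 2)] 2842)))) (.mix 0 2 39 9 (.mix 0 2 39 17 (.mix 0 2 39 8 (.mix 0 0 39 5 (.cond 1 0 (.contra [(1, 7), (7, 2792), (4, 8)] 11032) (.contra [(0, 7), (7, 2344), (4, 1)] 8344)))))) (.mix 0 0 39 7 (.cond 1 0 (.contra [(0, 1), (7, 31)] 117) (.contra [(1, 1), (7, 17)] 44))) (.mix 0 0 32 5 (.cond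 1 0 (.contra [(0, 14), (7, 538), (4, 1)] 2177) (.contra [(1, 7), (7, 223), (4, 1)] 847))) (T48)) (.contra [(1, 7), (5, 4644), (2, 4)] 14700))))))))

def T50 : Tr := .up 21 (.mix 0 2 21 14 (.mix 0 2 20 2 (.mix 0 0 19 2 (.mix 0 1 18 14 (.mix 0 0 18 1 (.mix 0 2 18 0 (.mix 0 0 18 3 (.cond 1 0 (.contra [(0, 15), (8, 16), (2, 53)] 1344) (.cond 3 2 (.contra [(0, 4), (3, 1)] 0) (.contra [(1, 1), (10, 880), (3, 3)] 960)))))))))) (.mix 0 1 21 13 (.mix 0 0 20 0 (.mix 0 2 19 14 (.mix 0 0 18 1 (.mix 0 2 18 0 (.mix 0 0 18 3 (.cond 1 0 (.cond 3 2 (.contra [(0, 4), (3, 1)] 0) (.contra [(1, 5), (10, 168), (6, 8)] 292)) (.contra [(0, 112), (4, 1480), (1, 19)] 10660)))))))) (.mix 0 0 21 2 (.mix 0 2 20 13 (.mix 0 2 19 10 (.mix 0 0 18 13 (.mix 0 1 18 2 (.mix 0 1 18 14 (.mix 0 0 18 1 (.mix 7 2 27 13 (.mix 0 2 26 10 (.mix 0 2 25 11 (.cond 10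 9 (.contra [(0, 3), (8, 25), (1, 4)] 0) (.cond 4 3 (.up 10 (.mix 0 2 10 14 (.mix 0 0 10 1 (.cond 1 0 (.contra [(0, 7), (5, 538), (2, 1)] 1750) (.contra [(1, 7), (5, 446), (2, 2)] 1750)))) (.mix 0 1 10 13 (.mix 0 1 10 2 (.mix 0 1 10 14 (.mix 0 1 10 11 (.mix 0 0 10 14 (.mix 0 2 10 2 (.mix 0 0 10 2 (.mix 7 2 10 0 (.mix 0 0 10 3 (.mix 0 2 10 12 (T49))))))))))) (.mix 0 0 10 2 (.cond 1 0 (.contra [(1, 1), (5, 31)] 100) (.contra [(0, 1), (5, 17)] 75))) (.mix 0 1 10 0 (.mix 0 0 10 3 (.cond 1 0 (.contra [(0, 7), (5, 34), (2, 1)] 350) (.contra [(1, 7), (5, 698), (2, 2)] 2450)))) (.mix 0 2 10 1 (.mix 0 2 10 0 (.mix 0 0 10 3 (.cond 1 0 (.contra [(1, 7), (5, 1620), (2, 4)] 6300) (.contra [(0, 7), (5, 620), (2, 3)] 2100)))))) (.contra [(1, 3), (4, 8), (3, 448)] 2112))))))))))))) (.mix 0 1 21 0 (.mix 0 1 20 1 (.mix 0 1 19 13 (.mix 0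 1 18 2 (.mix 0 1 18 14 (.mix 0 0 18 1 (.cond 1 0 (.contra [(0, 5), (8, 808), (4, 18)] 217) (.contra [(1, 255), (8, 2080), (4, 768), (2, 416)] 0)))))))) (.mix 0 2 21 1 (.mix 0 0 20 4 (.mix 0 2 19 1 (.mix 0 2 18 0 (.mix 0 0 18 3 (.cond 1 0 (.contra [(0, 5), (8, 736), (2, 3)] 384) (.cond 4 3 (.contra [(1, 28), (10, 440), (6, 160), (3, 43)] 0) (.contra [(0, 8), (3, 1)] 0))))))))

def T51 : Tr := .dn 10 (.mix 0 1 10 8 (.mix 0 1 9 17 (.mix 0 0 8 17 (.mix 0 2 7 8 (.mix 0 0 7 5 (.mix 0 2 7 6 (.mix 0 0 7 19 (.cond 1 0 (.cond 5 4 (.contra [(0, 12), (6, 80), (3, 1)] 320) (.contra [(1, 9), (6, 380), (3, 1)] 320)) (.contra [(0, 1), (2, 129), (4, 367)] 123))))))))) (.mix 0 2 10 9 (.mix 0 0 9 6 (.mix 0 2 8 9 (.mix 0 2 7 17 (.mix 0 2 7 8 (.mix 0 0 7 5 (.mix 6 1 15 5 (.mix 0 1 14 8 (.cond 3 2 (.contra [(1, 1), (2, 48), (4, 176)] 144)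 (.cond 7 6 (.dn 8 (.mix 0 0 2 18 (.cond 1 0 (.contra [(0, 36), (6, 990), (4, 10), (3, 263)] 0) (.contra [(1, 2), (6, 60), (3, 7)] 0))) (.mix 0 1 2 5 (.mix 0 0 2 18 (.cond 1 0 (.contra [(1, 3), (6, 270), (4, 2), (3, 46)] 0) (.contra [(0, 2), (6, 75), (8, 25), (3, 12)] 0)))) (.mix 0 1 8 18 (.mix 0 1 8 6 (.mix 0 0 8 19 (.cond 1 0 (.contra [(1, 9), (6, 360), (4, 8), (3, 70)] 0) (.contra [(0, 1), (6, 120), (4, 1), (3, 30)] 0))))) (.mix 0 0 8 5 (.cond 1 0 (.contra [(0, 6), (6, 180), (4, 2), (3, 43)] 0) (.contra [(1, 23), (6, 225), (8, 1450), (4, 9)] 0))) (.mix 0 2 8 17 (.mix 0 0 8 17 (.cond 1 0 (.contra [(1, 9), (6, 720), (4, 4), (3, 143)] 0) (.contra [(0, 23), (6, 360), (8, 2550), (4, 19)] 0))))) (.contra [(0, 7), (6, 210), (2, 1)] 40))))))))))) (.mix 0 0 10 7 (.mix 0 2 9 19 (.mix 0 2 8 5 (.mix 0 2 7 6 (.mix 0 0 7 19 (.mix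 0 1 7 7 (.mix 0 1 7 18 (.mix 7 2 16 19 (.mix 0 2 15 5 (.mix 0 0 14 18 (.cond 1 0 (.cond 6 5 (T50) (.contra [(1, 1), (6, 16)] 64)) (.contra [(1, 1), (4, 28)] 12)))))))))))) (.mix 0 2 10 16 (.mix 0 2 9 15 (.mix 0 2 8 18 (.mix 0 0 7 15 (.mix 0 1 7 16 (.mix 0 0 7 9 (.cond 1 0 (.contra [(1, 1), (2, 12), (4, 212)] 68) (.contra [(0, 1), (2, 51), (4, 61)] 129)))))))) (.mix 0 1 10 15 (.mix 0 0 9 8 (.mix 0 2 8 16 (.mix 0 0 7 9 (.mix 0 2 7 17 (.mix 0 2 7 8 (.mix 0 0 7 5 (.mix 7 0 16 6 (.mix 0 2 15 9 (.mix 0 0 14 6 (.cond 10 2 (.contra [(1, 1), (2, 3), (4, 2)] 3) (.cond 1 0 (.contra [(1, 1), (2, 4)] 0) (.cond 4 3 (.cond 7 6 (.contra [(0, 8), (3, 1)] 0) (.contra [(1, 2), (8, 240), (6, 160), (3, 3)] 0)) (.contra [(0, 49), (6, 3240), (2, 818)] 25))))))))))))))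

def T52 : Tr := .mix 4 2 0 12 (.mix 4 1 0 2 (.mix 4 1 0 1 (.mix 4 1 3 18 (.h2 45 49 (.mix 45 1 0 3 (.mix 45 2 0 13 (.mix 36 0 0 3 (.cond 37 0 (.contra [(1, 1), (10, 163456), (6, 9784)] 198144) (.contra [(0, 1), (10, 66832), (6, 11823)] 146368))))) (.mix 45 2 0 4 (.mix 45 1 0 14 (.mix 36 1 0 1 (.h0 8 true (.mix 8 0 0 12 (.mix 6 1 1 6 (.h0 6 true (.mix 6 2 0 1 (.h2 4 13 (.mix 4 1 0 3 (.mix 4 1 1 5 (.h2 4 11 (.mix 4 0 0 4 (.cond 5 0 (.contra [(0, 1), (10, 19376), (6, 1349)] 16704) (.contra [(1, 1), (10, 16768), (6, 2152)] 31232))) (.mix 4 2 0 0 (.h0 4 false (.mix 4 1 0 0 (.h0 3 true (.h2 2 7 (.exc 6 0 1 ⟨12, 4149, 82, 4235113, 1464289927, 28939930, -4235161, -1464306523, -28940258⟩ ⟨1, 9219, 0, 352926, 3253624794, 0, -352930, -3253661670, 0⟩ ⟨-247, 44, 6548, -87172729, 15528744, 2310959506, 87173717, -15528920, -2310985698⟩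 1) (.mix 2 0 0 3 (.cond 3 0 (.contra [(0, 2), (10, 94736), (6, 4319)] 76509) (.contra [(1, 1), (10, 41536), (6, 3804)] 66964)))) (.mix 3 0 0 3 (.cond 4 0 (.contra [(0, 1), (10, 48368), (6, 2097)] 48192) (.contra [(1, 1), (10, 33536), (6, 4304)] 62464))))) (.mix 3 0 0 18 (.cond 4 0 (.contra [(0, 2), (10, 48368), (6, 2097)] 40019) (.contra [(1, 1), (10, 16768), (6, 2152)] 26424)))))))) (.mix 3 0 0 19 (.cond 4 0 (.contra [(0, 2), (10, 19376), (6, 1349)] 28303) (.contra [(1, 1), (10, 8384), (6, 1076)] 13212))))) (.mix 6 0 0 11 (.mix 6 1 0 11 (.mix 6 0 0 4 (.cond 7 0 (.contra [(1, 1), (10, 326912), (6, 19568)] 396288) (.contra [(0, 1), (10, 227536), (6, 17779)] 208064)))))))) (.mix 8 2 0 4 (.mix 8 1 0 14 (.mix 8 0 0 4 (.cond 9 0 (.contra [(0, 2), (10, 288848), (6, 13947)] 230577) (.contra [(1, 1), (10, 100992), (6, 13688)]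 175208)))))))))))))

def T53 : Tr := .mix 0 0 20 2 (.mix 0 1 20 14 (.mix 0 1 20 11 (.mix 0 1 20 10 (.mix 0 1 20 4 (.mix 0 1 20 12 (.mix 0 0 15 12 (.mix 0 1 12 3 (.mix 0 1 9 0 (.mix 9 2 23 13 (.mix 0 2 23 10 (.mix 0 2 23 11 (.h0 57 true (.mix 47 0 0 2 (.mix 26 0 0 12 (.mix 3 2 0 3 (.mix 41 2 3 16 (.h2 4 62 (.mix 4 2 0 13 (.mix 4 2 0 4 (.mix 4 2 0 12 (.mix 4 2 3 15 (.h0 4 false (.mix 4 2 0 10 (.mix 4 0 0 11 (.mix 4 0 0 12 (.mix 4 2 3 18 (.h2 4 9 (.mix 4 2 0 11 (.mix 4 1 0 10 (.mix 4 1 0 3 (.mix 4 2 3 7 (.h0 4 false (.mix 4 2 0 3 (.mix 4 0 0 13 (.mix 4 1 0 0 (.mix 4 0 3 7 (.h2 4 9 (.mix 4 0 0 10 (.mix 4 2 0 10 (.mix 4 0 0 3 (.cond 5 0 (.contra [(0, 2), (10, 133776), (6, 7639)] 170949) (.contra [(1, 1), (10, 50496), (6, 6844)] 87604))))) (T52)))))) (.mix 4 0 0 14 (.cond 5 0 (.contra [(1, 1), (10, 1536), (6, 104)] 1464) (.contra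 [(0, 2), (10, 2544), (6, 161)] 3491)))))))) (.mix 4 0 0 13 (.cond 5 0 (.contra [(1, 1), (10, 768), (6, 52)] 732) (.contra [(0, 2), (10, 688), (6, 117)] 1567)))))))) (.mix 1 0 0 8 (.cond 2 0 (.contra [(1, 1), (10, 416), (6, 24)] 488) (.contra [(0, 2), (10, 336), (6, 59)] 753)))))))) (.mix 1 0 0 9 (.cond 2 0 (.contra [(1, 1), (10, 208), (6, 12)] 244) (.contra [(0, 2), (10, 272), (6, 23)] 261)))))))) (.mix 47 1 0 14 (.mix 26 1 0 3 (.mix 3 0 0 14 (.cond 4 0 (.contra [(1, 1), (10, 2696), (6, 144)] 2904) (.contra [(0, 2), (10, 2224), (6, 361)] 5051)))))))))))))))))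

def T54 : Tr := .mix 0 0 20 3 (.mix 0 2 20 12 (.mix 0 0 20 12 (.mix 0 2 20 4 (.mix 0 0 20 11 (.mix 0 1 7 10 (.mix 6 1 21 1 (.mix 0 0 21 4 (.mix 0 1 21 12 (.cond 2 1 (.cond 5 4 (.h0 12 false (.mix 12 2 0 3 (.mix 5 0 0 13 (.mix 13 2 2 5 (.h2 3 16 (.mix 1 0 0 18 (.cond 2 0 (.contra [(0, 1), (10, 688), (6, 117)] 1344) (.contra [(1, 1), (10, 1536), (6, 104)] 2048))) (.mix 3 2 0 12 (.mix 3 1 0 2 (.mix 3 2 2 6 (.h0 3 true (.mix 3 0 0 12 (.mix 3 0 0 2 (.up 20 (.mix 0 1 14 1 (.mix 0 1 14 13 (.mix 0 0 14 0 (.cond 1 0 (.contra [(1, 1), (10, 956), (6, 84)] 1544) (.contra [(0, 2), (10, 1096), (6, 169)] 1779))))) (.mix 0 1 20 13 (.mix 0 1 20 2 (.mix 0 0 20 2 (.cond 1 0 (.contra [(1, 1), (10, 996), (6, 44)] 704) (.contra [(0, 1), (10, 1228), (6, 117)] 1872))))) (T53) (.mix 0 1 20 0 (.mix 0 0 20 3 (.mix 0 1 20 0 (.mix 0 0 20 3 (.cond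 1 0 (.contra [(0, 1), (10, 2184), (6, 151)] 2016) (.contra [(1, 1), (10, 2072), (6, 108)] 2528)))))) (.mix 0 2 20 1 (.mix 0 2 20 0 (.mix 0 2 20 14 (.mix 0 0 20 1 (.cond 1 0 (.contra [(1, 1), (5, 12), (4, 16)] 0) (.contra [(0, 1), (10, 2968), (6, 177)] 3232))))))))) (.mix 1 0 0 19 (.cond 2 0 (.contra [(0, 1), (10, 2544), (6, 161)] 2112) (.contra [(1, 1), (10, 3072), (6, 208)] 4096))))))))))) (.mix 12 0 0 14 (.cond 13 0 (.contra [(0, 1), (10, 336), (6, 59)] 704) (.contra [(1, 1), (6, 50), (2, 2)] 0)))) (.contra [(1, 1), (8, 50), (3, 7)] 350)) (.contra [(0, 2), (2, 25), (1, 6)] 75))))))))))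

def T55 : Tr := .dn 17 (.mix 0 1 17 8 (.mix 0 1 16 17 (.mix 0 0 15 17 (.cond 1 0 (.contra [(0, 1), (6, 20), (2, 3)] 48) (.contra [(1, 1), (6, 60), (2, 4)] 64))))) (.mix 0 2 17 9 (.mix 0 0 16 6 (.cond 1 0 (.contra [(1, 1), (6, 14), (2, 2)] 28) (.contra [(0, 1), (6, 22), (2, 1)] 24)))) (.mix 0 0 17 7 (.mix 0 2 16 19 (.mix 0 2 15 5 (.mix 0 0 14 18 (.cond 1 0 (.contra [(0, 1), (6, 104), (2, 5)] 96) (.contra [(1, 1), (6, 8)] 32)))))) (.mix 0 2 17 16 (.mix 0 2 16 15 (.mix 0 2 15 18 (.mix 0 2 14 7 (.mix 0 0 14 7 (.mix 5 1 21 17 (.mix 0 0 20 17 (.mix 0 2 19 8 (.h2 18 19 (.mix 13 2 0 11 (.mix 5 2 1 19 (.up 20 (T54) (.mix 0 0 15 4 (.cond 1 0 (.contra [(1, 1), (6, 47), (2, 3)] 38) (.contra [(0, 2), (6, 118), (2, 7)] 147))) (.mix 0 1 20 14 (.mix 0 0 20 1 (.mix 0 1 20 13 (.mix 0 1 20 2 (.mix 0 1 20 14 (.mix 0 0 7 1 (.cond 1 0 (.contra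 [(0, 1), (6, 1008), (2, 127)] 2112) (.contra [(1, 1), (6, 1376), (2, 144)] 1664)))))))) (.mix 0 0 15 10 (.cond 1 0 (.contra [(1, 1), (6, 19), (2, 1)] 36) (.contra [(0, 2), (6, 146), (2, 9)] 149))) (.mix 0 0 20 11 (.cond 1 0 (.contra [(1, 1), (6, 59), (2, 6)] 81) (.contra [(0, 1), (6, 53), (2, 2)] 52)))))) (.mix 13 0 0 13 (.cond 14 0 (.contra [(0, 1), (6, 272), (2, 23)] 448) (.contra [(1, 1), (6, 416), (2, 24)] 384)))))))))))) (.mix 0 1 17 15 (.mix 0 0 16 8 (.cond 1 0 (.contra [(1, 1), (6, 26), (2, 2)] 36) (.up 11 (.mix 0 0 11 3 (.cond 1 0 (.contra [(1, 2), (4, 3), (2, 7)] 42) (.contra [(0, 2), (4, 91), (2, 79)] 824))) (.mix 0 0 6 4 (.cond 1 0 (.contra [(1, 2), (4, 53), (2, 47)] 452) (.contra [(0, 2), (4, 66), (2, 59)] 619))) (.mix 0 1 11 14 (.mix 0 0 11 1 (.cond 1 0 (.contra [(1, 1), (4, 19), (2, 21)] 156) (.contra [(0,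 1), (4, 52), (2, 43)] 448)))) (.mix 0 2 11 12 (.mix 0 2 11 4 (.mix 0 2 11 1 (.mix 0 2 11 0 (.mix 0 0 11 3 (.cond 1 0 (.contra [(1, 1), (4, 168), (2, 152)] 1792) (.contra [(0, 1), (4, 121), (2, 144)] 1024))))))) (.mix 0 0 11 11 (.cond 1 0 (.contra [(1, 2), (4, 71), (2, 59)] 634) (.contra [(0, 2), (4, 57), (2, 53)] 528)))))))

def T56 : Tr := .up 26 (.mix 0 2 26 14 (.mix 0 2 25 2 (.mix 0 0 24 2 (.mix 0 2 23 13 (.mix 0 0 23 0 (.cond 1 0 (.dn 14 (.mix 0 0 14 18 (.cond 1 0 (.contra [(1, 92), (12, 115650), (7, 2537), (2, 850)] 0) (.contra [(0, 23), (12, 2575), (7, 41), (2, 50)] 0))) (.mix 0 1 14 5 (.mix 0 1 14 8 (.mix 0 1 14 17 (.mix 0 0 14 17 (.cond 1 0 (.contra [(0, 1), (12, 9800), (7, 216), (2, 75)] 0) (.contra [(1, 23), (12, 67800), (7, 1176), (2, 200)] 0)))))) (.mix 0 2 14 19 (.mix 0 2 14 5 (.mix 0 0 14 18 (.mix 0 1 14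 6 (.mix 0 0 14 19 (.cond 1 0 (.contra [(1, 23), (12, 330000), (7, 6512), (2, 2500)] 0) (.contra [(0, 23), (12, 196000), (7, 4064), (2, 875)] 0))))))) (.mix 0 0 9 5 (.cond 1 0 (.contra [(1, 46), (12, 44200), (7, 867), (2, 300)] 0) (.contra [(0, 184), (12, 47850), (7, 1131), (2, 650)] 0))) (.mix 0 2 9 17 (.mix 0 2 9 8 (.mix 0 0 9 5 (.cond 1 0 (.contra [(0, 184), (12, 606150), (7, 14001), (2, 5350)] 0) (.contra [(1, 23), (12, 61150), (7, 1391), (2, 350)] 0)))))) (.contra [(1, 5), (10, 740), (7, 42), (5, 12)] 0))))))) (.mix 0 1 26 13 (.mix 0 0 25 0 (.mix 0 2 24 14 (.mix 0 2 23 2 (.mix 0 2 23 13 (.mix 5 0 30 4 (.mix 0 2 29 1 (.mix 0 2 28 0 (.up 8 (.mix 0 1 8 1 (.mix 0 1 8 13 (.mix 0 1 8 2 (.mix 0 1 8 14 (.mix 0 0 8 1 (.cond 1 0 (.contra [(0, 10), (10, 6010), (7, 581), (5, 126)] 0) (.contra [(1, 5), (10, 640), (7, 184), (5,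 64)] 0))))))) (.mix 0 0 8 4 (.mix 0 2 8 1 (.mix 0 2 8 0 (.mix 0 0 8 3 (.cond 1 0 (.contra [(0, 10), (10, 4890), (7, 189), (5, 94)] 0) (.contra [(1, 5), (10, 440), (7, 144), (5, 24)] 0)))))) (.mix 0 0 3 2 (.mix 0 1 3 14 (.mix 0 0 3 1 (.cond 1 0 (.contra [(0, 40), (10, 5160), (7, 431), (5, 201)] 0) (.contra [(1, 10), (10, 120), (7, 117), (5, 7)] 0))))) (.mix 0 0 8 10 (.mix 0 1 8 4 (.mix 0 0 8 11 (.mix 0 1 8 10 (.mix 0 0 8 13 (.cond 1 0 (.contra [(0, 10), (10, 4630), (7, 643), (5, 178)] 0) (.contra [(1, 5), (10, 2020), (7, 122), (5, 12)] 0))))))) (.mix 0 2 3 1 (.mix 0 2 3 0 (.mix 0 0 3 3 (.cond 1 0 (.contra [(1, 5), (10, 480), (7, 8), (5, 18)] 0) (.contra [(0, 40), (10, 3480), (7, 633), (5, 143)] 0)))))))))))))) (.mix 0 0 26 2 (.cond 1 0 (.contra [(0, 5), (10, 55), (7, 1), (5, 1)] 0) (.contra [(1, 20), (10, 40), (7, 3),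 (5, 3)] 0))) (.mix 0 1 26 0 (.mix 0 1 25 1 (.mix 0 1 24 13 (.mix 0 0 23 0 (.mix 4 0 29 10 (.mix 0 1 28 4 (.mix 0 0 27 11 (.cond 4 3 (.contra [(0, 35), (10, 480), (5, 32), (2, 3)] 0) (.up 7 (.mix 0 2 3 14 (.mix 0 2 3 2 (.mix 0 0 3 2 (.cond 1 0 (.contra [(1, 8), (9, 1268), (4, 48), (3, 503)] 0) (.contra [(0, 128), (9, 1316), (4, 176), (3, 1111)] 0))))) (.mix 0 1 3 13 (.mix 0 0 3 0 (.cond 1 0 (.contra [(0, 128), (9, 4516), (4, 176), (3, 1943)] 0) (.contra [(1, 32), (9, 868), (4, 48), (3, 399)] 0)))) (.mix 0 2 7 13 (.mix 0 0 7 0 (.cond 1 0 (.contra [(1, 16), (9, 556), (4, 16), (3, 209)] 0) (.contra [(0, 2), (9, 146), (4, 6), (3, 59)] 0)))) (.mix 0 0 7 10 (.cond 1 0 (.contra [(1, 64), (9, 1980), (4, 80), (3, 777)] 0) (.contra [(0, 16), (9, 100), (3, 21)] 0))) (.mix 0 1 7 12 (.mix 0 1 7 3 (.mix 0 0 7 10 (.cond 1 0 (.contra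 [(0, 1), (9, 98), (4, 3), (3, 36)] 0) (.contra [(1, 4), (9, 356), (4, 16), (3, 157)] 0)))))))))))))) (.mix 0 2 26 1 (.mix 0 0 25 4 (.mix 0 2 24 1 (.mix 3 1 28 12 (.mix 0 0 27 12 (.mix 0 2 26 4 (.cond 5 4 (.contra [(1, 5), (10, 120), (7, 8), (5, 3)] 0) (.cond 2 1 (.contra [(1, 3), (12, 120), (7, 5), (2, 16)] 0) (.up 6 (.mix 0 0 6 3 (.mix 0 1 6 0 (.mix 0 0 6 3 (.cond 1 0 (.contra [(0, 3), (9, 175), (4, 1403), (2, 696)] 0) (.contra [(1, 1), (9, 50), (4, 388), (2, 176)] 0))))) (.mix 0 2 6 0 (.mix 0 2 6 14 (.mix 0 0 6 1 (.cond 1 0 (.contra [(1, 3), (9, 50), (4, 424), (2, 240)] 0) (.contra [(0, 1), (9, 75), (4, 591), (2, 280)] 0))))) (.mix 0 2 3 13 (.mix 0 2 3 10 (.mix 0 0 3 13 (.cond 1 0 (.contra [(1, 1), (9, 50), (4, 416), (2, 208)] 0) (.contra [(0, 3), (9, 175), (4, 1376), (2, 633)] 0))))) (.mix 0 2 6 12 (.mix 0 0 6 12 (.cond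 1 0 (.contra [(0, 3), (9, 100), (4, 809), (2, 384)] 0) (.contra [(1, 1), (9, 25), (4, 196), (2, 96)] 0)))) (.mix 0 0 6 11 (.cond 1 0 (.contra [(0, 6), (9, 25), (4, 170), (2, 72)] 0) (.contra [(1, 2), (9, 25), (4, 200), (2, 92)] 0))))))))))))

def T57 : Tr := .dn 8 (.mix 0 2 8 6 (.mix 0 0 8 19 (.cond 1 0 (.contra [(1, 1), (6, 40), (3, 3)] 60) (.contra [(0, 2), (6, 110), (3, 7)] 40)))) (.mix 0 0 8 19 (.cond 1 0 (.contra [(0, 1), (6, 5), (3, 3)] 20) (.contra [(1, 1), (6, 35), (3, 1)] 15))) (.mix 0 1 8 18 (.mix 0 0 8 15 (.mix 0 1 8 16 (.mix 0 0 8 9 (.mix 0 2 8 17 (.mix 5 2 8 19 (.mix 0 2 8 5 (.mix 0 2 8 6 (.cond 7 6 (.contra [(0, 2), (6, 130), (3, 9)] 120) (.cond 5 4 (.contra [(1, 1), (8, 500), (5, 30), (3, 12)] 0) (T56))))))))))) (.mix 0 0 8 5 (.mix 0 2 8 6 (.mix 0 0 8 19 (.mix 0 1 8 7 (.mix 0 1 8 18 (.mix 5 1 8 17 (.mix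 0 0 8 17 (.mix 0 2 8 8 (.cond 2 1 (.contra [(1, 1), (6, 50), (3, 6)] 50) (.cond 8 7 (.contra [(1, 7), (8, 625), (2, 12)] 625) (.dn 8 (.mix 0 0 3 18 (.mix 0 1 3 6 (.mix 0 0 3 19 (.cond 1 0 (.contra [(1, 7), (10, 7900), (4, 108)] 5100) (.contra [(0, 7), (10, 8550), (4, 151)] 9950))))) (.mix 0 1 3 5 (.mix 0 1 3 8 (.mix 0 0 3 5 (.cond 1 0 (.contra [(1, 1), (10, 300), (4, 8)] 700) (.contra [(0, 7), (10, 11450), (4, 177)] 10050))))) (.mix 0 0 8 7 (.mix 0 1 8 18 (.mix 0 1 8 6 (.mix 0 1 8 5 (.mix 0 0 8 18 (.cond 1 0 (.contra [(1, 7), (10, 41200), (4, 576)] 32800) (.contra [(0, 7), (10, 19900), (4, 722)] 24975))))))) (.mix 0 2 8 16 (.mix 0 0 8 9 (.mix 0 1 8 15 (.mix 0 0 8 8 (.cond 1 0 (.contra [(1, 7), (10, 17000), (4, 472)] 20500) (.contra [(0, 7), (10, 6500), (4, 66)] 375)))))) (.mix 0 1 8 15 (.mix 0 1 8 16 (.mix 0 1 8 19 (.mix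 0 0 8 16 (.cond 1 0 (.contra [(0, 7), (10, 9700), (4, 338)] 16175) (.contra [(1, 1), (10, 2500), (2, 84)] 0))))))))))))))))) (.mix 0 2 8 17 (.mix 0 2 8 8 (.mix 0 0 8 5 (.mix 3 0 6 6 (.cond 4 0 (.contra [(0, 4), (6, 10), (3, 9)] 90) (.cond 2 1 (.contra [(1, 1), (3, 4)] 0) (.contra [(0, 1), (8, 175), (3, 7)] 200)))))))

def T58 : Tr := .h0 0 false (.cond 1 0 (.up 8 (.mix 0 2 8 14 (.mix 0 2 7 2 (.mix 0 0 6 2 (.mix 0 2 5 13 (.mix 0 2 5 10 (.mix 5 1 12 1 (.mix 0 1 11 13 (.mix 0 1 10 2 (T55))))))))) (.mix 0 1 8 13 (.mix 0 0 7 0 (.mix 0 2 6 14 (.mix 0 2 5 2 (.mix 0 0 5 2 (.cond 1 0 (.contra [(0, 1), (6, 192), (2, 19)] 256) (.contra [(1, 1), (6, 144), (2, 8)] 192))))))) (.mix 0 0 8 2 (.mix 1 2 8 13 (.mix 0 2 7 10 (.mix 0 0 6 13 (.cond 4 3 (.contra [(0, 3), (6, 25), (1, 4)] 0) (.cond 1 0 (.contra [(1, 1), (3, 4)] 0) (.contra [(0,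 2), (4, 5), (3, 104)] 415))))))) (.mix 0 0 7 10 (.cond 1 0 (.contra [(0, 2), (6, 22), (2, 1)] 17) (.contra [(1, 1), (6, 7), (2, 1)] 12))) (.mix 0 1 7 12 (.mix 0 0 6 12 (.cond 1 0 (.contra [(1, 1), (6, 30), (2, 2)] 36) (.contra [(0, 2), (6, 20), (2, 3)] 29))))) (.contra [(1, 1), (2, 12), (4, 4)] 4)) (.dn 8 (.mix 0 1 8 8 (.mix 0 1 7 17 (.mix 0 0 6 17 (.mix 3 0 10 18 (.mix 0 1 9 6 (.mix 0 0 8 19 (.cond 4 3 (.cond 1 0 (.contra [(0, 26), (4, 60), (2, 37)] 475) (.cond 6 2 (.contra [(0, 4), (3, 1)] 0) (.contra [(1, 1), (6, 15), (3, 2)] 25))) (.contra [(1, 1), (2, 12), (4, 16)] 4)))))))) (.mix 0 2 8 9 (.mix 0 0 7 6 (.mix 2 1 9 5 (.mix 0 1 8 8 (.mix 0 0 7 5 (.cond 4 3 (.cond 1 0 (.contra [(0, 16), (4, 90), (3, 19)] 250) (.contra [(1, 1), (3, 2)] 0)) (.contra [(0, 2), (4, 30), (1, 1)] 20))))))) (.mix 0 0 8 7 (.mix 0 2 7 19 (.mix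 0 2 6 5 (.mix 0 0 5 18 (.cond 1 0 (.contra [(0, 1), (2, 15), (4, 49)] 21) (.contra [(1, 1), (4, 8)] 32)))))) (.mix 0 2 8 16 (.mix 0 2 7 15 (.mix 0 2 6 18 (.mix 0 2 5 7 (.mix 0 2 5 19 (.mix 5 1 12 17 (.mix 0 0 11 17 (.mix 0 2 10 8 (.cond 2 1 (T57) (.contra [(0, 2), (2, 9), (4, 19)] 16)))))))))) (.mix 0 1 8 15 (.mix 0 0 7 8 (.mix 0 2 6 16 (.mix 0 2 5 15 (.mix 0 0 5 8 (.cond 1 0 (.contra [(0, 1), (2, 27), (4, 13)] 57) (.cond 4 3 (.contra [(1, 4), (6, 120), (3, 1)] 80) (.contra [(0, 8), (3, 1)] 0)))))))))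

def T59 : Tr := .cond 1 0 (.up 8 (.mix 0 0 8 3 (.cond 1 0 (.contra [(1, 139), (8, 86625), (4, 1475), (2, 1188)] 0) (.contra [(0, 139), (8, 28725), (4, 450), (2, 386)] 0))) (.mix 0 2 8 0 (.mix 0 0 8 3 (.mix 0 1 8 0 (.mix 0 1 8 1 (.mix 4 0 8 4 (.mix 0 1 8 12 (.up 6 (.mix 0 0 6 3 (.mix 0 1 6 0 (.mix 0 1 6 1 (.mix 0 0 6 4 (.cond 1 0 (.contra [(1, 139), (8, 1679640), (4, 26400), (2, 17456)] 0) (.contra [(0, 139), (8, 2819580), (4, 47675), (2, 40632)] 0)))))) (.mix 0 1 2 13 (.mix 0 0 2 0 (.cond 1 0 (.contra [(1, 16), (8, 1920), (6, 275), (2, 33)] 0) (.contra [(0, 139), (8, 245010), (4, 4350), (2, 4519)] 0)))) (.mix 0 1 6 14 (.mix 0 1 6 11 (.mix 0 0 6 14 (.cond 1 0 (.contra [(1, 139), (8, 1108380), (4, 18300), (2, 15512)] 0) (.contra [(0, 139), (8, 1442640), (4, 24275), (2, 18336)] 0))))) (.mix 0 2 6 12 (.mix 0 0 6 12 (.cond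 1 0 (.contra [(1, 139), (8, 600210), (4, 10350), (2, 8044)] 0) (.contra [(0, 139), (8, 311970), (4, 5575), (2, 5508)] 0)))) (.mix 0 0 6 11 (.cond 1 0 (.contra [(0, 139), (8, 454785), (4, 7600), (2, 5994)] 0) (.contra [(1, 139), (8, 78645), (4, 1575), (2, 1768)] 0)))))))))) (.mix 0 1 8 14 (.mix 0 0 8 1 (.mix 0 1 8 13 (.mix 0 0 8 0 (.cond 1 0 (.contra [(1, 139), (8, 391080), (4, 6700), (2, 4944)] 0) (.contra [(0, 139), (8, 393540), (4, 6225), (2, 4552)] 0)))))) (.mix 0 2 8 12 (.mix 0 2 8 4 (.mix 0 2 8 1 (.mix 0 0 8 4 (.cond 1 0 (.contra [(1, 139), (8, 549480), (4, 9000), (2, 6608)] 0) (.contra [(0, 139), (8, 76740), (4, 1625), (2, 1224)] 0)))))) (.mix 0 1 4 12 (.mix 0 1 4 3 (.mix 0 0 4 10 (.cond 1 0 (.contra [(0, 139), (8, 275460), (4, 4700), (2, 4047)] 0) (.contra [(1, 139), (8, 115980), (4, 2100), (2, 1616)] 0)))))) (.contra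 [(1, 1), (6, 18), (8, 6), (4, 4)] 0)

def T60 : Tr := .up 8 (.mix 0 1 4 1 (.mix 0 0 4 4 (.cond 1 0 (.contra [(0, 14), (8, 23259), (10, 8809), (4, 288)] 0) (.contra [(1, 7), (8, 14436), (10, 4386), (4, 202)] 0)))) (.mix 0 0 4 4 (.cond 1 0 (.contra [(1, 7), (8, 6072), (10, 2547), (4, 79)] 0) (.contra [(0, 14), (8, 13407), (10, 3007), (4, 174)] 0))) (.mix 0 0 8 2 (.mix 0 1 8 14 (.mix 0 1 8 11 (.mix 0 1 8 10 (.mix 4 2 8 13 (.mix 0 0 8 0 (.mix 0 1 8 1 (.mix 0 0 8 4 (.cond 8 7 (.h0 42 true (.mix 37 2 0 9 (.mix 29 0 0 9 (.cond 30 0 (.contra [(1, 3), (10, 1284), (12, 1784), (3, 28)] 0) (.h2 44 46 (.mix 22 0 0 10 (.cond 23 0 (.contra [(1, 83), (12, 427245), (5, 4617), (2, 875)] 0) (.contra [(0, 996), (12, 1812405), (5, 20257), (2, 3875)] 0))) (.mix 22 2 0 12 (.mix 14 1 0 14 (.mix 6 1 0 12 (.up 15 (.mix 0 0 11 3 (.mix 0 1 11 0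 (.mix 0 1 11 1 (.mix 0 1 11 13 (.mix 0 0 5 0 (.cond 1 0 (.contra [(1, 249), (12, 20404500), (5, 239444), (2, 47500)] 0) (.contra [(0, 332), (12, 211138875), (5, 2277839), (2, 438125)] 0))))))) (.mix 0 1 15 13 (.mix 0 0 15 0 (.cond 1 0 (.contra [(1, 83), (12, 3817875), (5, 41473), (2, 8125)] 0) (.contra [(0, 249), (12, 9697125), (5, 107227), (2, 20000)] 0)))) (.mix 0 0 15 2 (.cond 1 0 (.contra [(0, 166), (12, 1588125), (5, 16347), (2, 3125)] 0) (.contra [(1, 249), (12, 3176250), (5, 34769), (2, 6250)] 0))) (.mix 0 1 15 0 (.mix 0 1 15 1 (.mix 0 0 15 4 (.cond 1 0 (.contra [(0, 83), (12, 4932750), (5, 54866), (2, 10625)] 0) (.contra [(1, 249), (12, 35612250), (5, 382934), (2, 73750)] 0))))) (.mix 0 2 15 1 (.mix 0 0 15 4 (.cond 1 0 (.contra [(1, 249), (12, 14629875), (5, 160433), (2, 30625)] 0) (.contra [(0, 83), (12, 1114875),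 (5, 11733), (2, 2500)] 0)))))))))))) (.mix 23 1 0 14 (.mix 15 2 0 13 (.mix 7 0 0 13 (.cond 8 0 (.contra [(0, 1), (10, 34875), (12, 33750), (3, 461)] 0) (.contra [(1, 3), (10, 60000), (12, 50000), (3, 736)] 0)))))) (.contra [(0, 3), (2, 25), (1, 4)] 0)))))))))) (.mix 0 0 4 10 (.cond 1 0 (.contra [(0, 14), (8, 1671), (10, 2271), (4, 22)] 0) (.contra [(1, 7), (8, 9006), (10, 2731), (4, 117)] 0))) (.mix 0 2 8 1 (.mix 0 2 8 0 (.mix 0 2 8 14 (.mix 0 0 8 1 (.cond 1 0 (.contra [(1, 1), (10, 2500), (2, 84)] 0) (.h0 38 true (.mix 33 2 0 9 (.mix 25 0 0 9 (.cond 26 0 (.contra [(1, 1), (10, 1728), (12, 2928), (2, 4)] 0) (.contra [(0, 7), (10, 5088), (12, 4088), (2, 9)] 0)))) (.mix 33 0 0 19 (.cond 34 0 (.contra [(0, 7), (10, 16416), (12, 25256), (2, 33)] 0) (.contra [(1, 7), (10, 32448), (12, 48048), (2, 64)] 0)))))))))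

def T61 : Tr := .up 22 (.mix 0 2 22 14 (.mix 0 2 21 2 (.mix 0 0 20 2 (.mix 0 1 19 14 (.mix 4 1 25 1 (.mix 0 1 24 13 (.mix 0 1 23 2 (.mix 0 0 22 2 (T59))))))))) (.mix 0 1 22 13 (.mix 0 0 21 0 (.cond 1 0 (.contra [(0, 7), (6, 696), (8, 202), (2, 9)] 0) (.contra [(1, 7), (6, 108), (8, 6), (2, 2)] 0)))) (.mix 0 0 22 2 (.cond 1 0 (.contra [(0, 7), (6, 300), (8, 117), (2, 4)] 0) (.contra [(1, 7), (6, 225), (8, 44), (2, 3)] 0))) (.mix 0 1 22 0 (.mix 0 1 21 1 (.mix 0 1 20 13 (.mix 0 1 19 2 (.mix 4 0 25 10 (.mix 0 1 24 4 (.mix 0 0 23 11 (.mix 0 2 22 3 (.up 8 (.mix 0 2 4 14 (.mix 0 2 4 2 (.mix 0 0 4 2 (.cond 1 0 (.contra [(1, 1), (6, 936), (8, 316), (2, 12)] 0) (.contra [(0, 14), (6, 5553), (8, 543), (2, 76)] 0))))) (.mix 0 0 8 4 (.mix 0 1 8 12 (.mix 0 1 8 3 (.mix 0 0 8 10 (.cond 1 0 (.contra [(1, 1), (6, 132), (8, 132), (4, 8)]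 0) (.contra [(0, 7), (6, 11664), (8, 2804), (2, 153)] 0)))))) (.mix 0 2 8 13 (.mix 0 0 8 0 (.cond 1 0 (.contra [(1, 7), (6, 1908), (8, 918), (2, 26)] 0) (.contra [(0, 4), (6, 9), (8, 439), (4, 66)] 0)))) (.mix 0 0 8 10 (.mix 0 2 8 11 (.mix 0 0 8 14 (.mix 0 2 8 2 (.mix 4 1 8 0 (.mix 0 1 8 1 (.mix 0 1 8 13 (.mix 0 1 8 2 (.cond 8 7 (.contra [(1, 4), (6, 51), (8, 81), (4, 14)] 0) (T60)))))))))) (.mix 0 1 8 12 (.mix 0 1 8 3 (.mix 0 0 8 10 (.cond 1 0 (.contra [(0, 7), (6, 3072), (8, 1552), (2, 39)] 0) (.contra [(1, 7), (6, 6816), (8, 1956), (2, 92)] 0)))))))))))))) (.mix 0 2 22 1 (.mix 0 0 21 4 (.cond 1 0 (.contra [(1, 2), (6, 3), (8, 49), (4, 6)] 0) (.contra [(0, 1), (6, 72), (8, 18), (2, 1)] 0))))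

def T62 : Tr := .mix 0 2 26 14 (.mix 0 2 25 2 (.mix 0 0 24 2 (.mix 0 1 23 14 (.mix 4 1 29 1 (.mix 0 1 28 13 (.mix 0 1 27 2 (.mix 0 0 26 2 (.up 8 (.mix 0 0 8 3 (.mix 0 2 8 12 (.mix 0 0 8 12 (.mix 0 1 8 3 (.mix 4 1 8 1 (.mix 0 0 8 4 (.mix 0 1 8 12 (.mix 0 0 8 12 (.cond 8 7 (.up 8 (.mix 0 2 8 14 (.mix 0 0 8 1 (.cond 1 0 (.contra [(1, 67), (4, 2500), (3, 23282)] 465000) (.contra [(0, 67), (4, 750), (3, 6194)] 131125)))) (.mix 0 1 8 13 (.mix 0 1 8 2 (.mix 0 0 8 2 (.cond 1 0 (.contra [(1, 67), (4, 4600), (3, 41724)] 815400) (.contra [(0, 67), (4, 6550), (3, 61232)] 1206575))))) (.mix 0 0 8 2 (.mix 0 1 8 14 (.mix 0 1 8 11 (.mix 0 0 8 14 (.cond 1 0 (.contra [(1, 67), (4, 9600), (3, 90968)] 1745400) (.contra [(0, 67), (4, 10950), (3, 99196)] 1964675)))))) (.mix 0 0 4 10 (.mix 0 1 4 4 (.mix 0 1 4 12 (.mix 0 0 4 12 (.cond 1 0 (.contra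 [(1, 67), (4, 14200), (3, 131352)] 2560800) (.contra [(0, 67), (4, 6275), (3, 59814)] 1190600)))))) (.mix 0 1 4 12 (.mix 0 0 4 12 (.cond 1 0 (.contra [(1, 67), (4, 700), (3, 6594)] 116800) (.contra [(0, 67), (4, 525), (3, 4108)] 87600))))) (.contra [(0, 36), (6, 37), (4, 79)] 5356)))))))))) (.mix 0 0 4 4 (.cond 1 0 (.contra [(1, 1650), (4, 2113), (2, 19)] 127300) (.contra [(0, 1650), (4, 2611), (2, 43)] 205600))) (.mix 0 1 8 14 (.mix 0 0 8 1 (.cond 1 0 (.contra [(1, 275), (4, 193), (2, 59)] 15800) (.contra [(0, 18), (6, 109), (4, 43)] 2062)))) (.mix 0 0 4 10 (.cond 1 0 (.contra [(1, 1650), (4, 821), (2, 23)] 88100) (.contra [(0, 1650), (4, 3257), (2, 41)] 225200))) (.mix 0 0 8 11 (.cond 1 0 (.contra [(1, 36), (6, 137), (4, 59)] 3296) (.contra [(0, 150), (4, 197), (2, 11)] 15950)))))))))))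

def T63 : Tr := .dn 5 (.mix 0 2 3 6 (.mix 0 0 3 19 (.cond 1 0 (.contra [(1, 1), (8, 138), (4, 40)] 42) (.up 26 (.mix 0 2 26 14 (.mix 0 2 25 2 (.mix 0 0 24 2 (.mix 0 1 23 14 (.h0 24 true (.cond 25 0 (.contra [(0, 5), (10, 588), (2, 2)] 357) (.contra [(1, 5), (10, 2752), (2, 8)] 1748)) (.mix 1 0 0 1 (.cond 2 0 (.contra [(0, 5), (10, 348), (2, 2)] 37) (.contra [(1, 5), (10, 8576), (2, 24)] 5244)))))))) (.mix 0 1 26 13 (.mix 0 0 25 0 (.mix 0 2 24 14 (.mix 0 0 23 1 (.cond 1 0 (.contra [(0, 5), (10, 1804), (2, 6)] 1231) (.contra [(1, 5), (10, 2872), (2, 8)] 1908)))))) (.mix 0 0 26 2 (.mix 1 2 26 13 (.mix 0 2 25 10 (.mix 0 0 24 13 (.cond 4 3 (.contra [(0, 3), (10, 25), (1, 4)] 0) (.cond 1 0 (.contra [(1, 1), (3, 4)] 0) (.contra [(0, 1), (4, 1), (3, 366)] 1328))))))) (.mix 0 0 25 10 (.cond 1 0 (.contra [(0, 5), (10, 369), (2,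 1)] 221) (.contra [(1, 5), (10, 663), (2, 2)] 417))) (.mix 0 1 25 12 (.mix 0 0 24 12 (.cond 1 0 (.contra [(1, 5), (10, 1406), (2, 4)] 894) (.contra [(0, 5), (10, 992), (2, 3)] 608)))))))) (.mix 0 1 5 5 (.mix 0 0 5 18 (.mix 2 0 5 19 (.cond 3 0 (.contra [(0, 1), (8, 15), (2, 7)] 435) (.cond 2 1 (.contra [(1, 1), (3, 2)] 0) (.contra [(0, 184), (6, 40625), (4, 2635), (3, 1364)] 0)))))) (.mix 0 1 3 18 (.mix 0 0 3 15 (.cond 1 0 (.contra [(1, 1), (8, 334), (4, 20)] 206) (.up 26 (T62) (.mix 0 0 25 4 (.mix 0 2 24 1 (.mix 0 2 23 0 (.mix 0 2 22 14 (.cond 4 3 (.contra [(1, 36), (6, 7), (4, 13)] 808) (.h2 23 25 (.mix 15 0 0 6 (.cond 16 0 (.contra [(0, 9), (8, 85), (6, 46)] 2560) (.contra [(1, 165), (6, 392), (4, 56)] 32000))) (.mix 1 0 0 1 (.cond 2 0 (.contra [(1, 1), (2, 16)] 0) (.contra [(0, 9), (8, 23), (6, 62)] 4352))))))))) (.mix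 0 0 26 2 (.mix 1 2 26 13 (.mix 0 2 25 10 (.mix 0 0 24 13 (.cond 1 0 (.cond 4 3 (.contra [(0, 4800), (8, 10825), (6, 201), (4, 338)] 0) (.contra [(1, 4), (3, 1)] 0)) (.contra [(0, 1), (6, 5), (1, 13)] 160)))))) (.mix 0 0 25 10 (.cond 1 0 (.contra [(0, 1650), (4, 463), (2, 19)] 31600) (.contra [(1, 36), (6, 37), (4, 7)] 280))) (.mix 0 1 25 12 (.mix 0 0 24 12 (.cond 1 0 (.contra [(1, 275), (4, 227), (2, 1)] 16600) (.contra [(0, 18), (6, 29), (4, 5)] 128)))))))) (.mix 0 0 3 5 (.cond 1 0 (.contra [(0, 76), (8, 6400), (4, 2525), (2, 179)] 0) (.contra [(1, 1), (8, 207), (4, 10)] 13))) (.mix 0 0 5 6 (.cond 1 0 (.contra [(0, 2), (8, 150), (4, 25), (2, 3)] 0) (.contra [(1, 76), (8, 17600), (4, 3975), (2, 117)] 0)))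

def T64 : Tr := .up 10 (.mix 0 0 10 3 (.mix 0 2 10 12 (.mix 0 0 10 12 (.mix 0 1 10 3 (.mix 4 1 10 1 (.mix 0 0 10 4 (.mix 0 1 10 12 (.mix 0 0 10 12 (.mix 0 2 10 4 (.mix 0 0 10 11 (.cond 5 4 (.cond 1 0 (.up 10 (.mix 0 1 6 1 (.mix 0 1 6 13 (.mix 0 0 6 0 (.cond 1 0 (.contra [(1, 5), (14, 6124), (6, 168)] 6460) (.contra [(0, 5), (14, 4092), (6, 169)] 3180))))) (.mix 0 1 10 13 (.mix 0 1 10 2 (.mix 0 0 10 2 (.cond 1 0 (.contra [(1, 5), (14, 5684), (6, 88)] 2860) (.contra [(0, 5), (14, 8012), (6, 234)] 7605))))) (.mix 0 0 10 2 (.mix 0 1 10 14 (.mix 0 1 10 11 (.mix 0 0 10 14 (.cond 1 0 (.contra [(1, 5), (14, 11688), (6, 416)] 9520) (.contra [(0, 5), (14, 13536), (6, 202)] 8565)))))) (.mix 0 0 6 10 (.mix 0 1 6 4 (.mix 0 1 6 12 (.mix 0 0 6 12 (.cond 1 0 (.contra [(1, 5), (14, 17432), (6, 424)] 12280) (.contra [(0, 5), (14, 7624),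 (6, 293)] 9960)))))) (.mix 0 1 6 12 (.mix 0 0 6 12 (.mix 0 1 6 3 (.mix 0 1 6 0 (.mix 0 0 6 3 (.cond 1 0 (.contra [(0, 4), (6, 625), (2, 21)] 0) (.cond 4 3 (.contra [(1, 6), (7, 50), (3, 1)] 0) (.contra [(0, 8), (3, 1)] 0))))))))) (.contra [(1, 5), (12, 14816), (4, 412)] 12640)) (.contra [(0, 3), (2, 175), (1, 109)] 200)))))))))))) (.mix 0 0 6 4 (.cond 1 0 (.contra [(1, 5), (10, 283), (2, 6)] 145) (.contra [(0, 5), (10, 351), (2, 7)] 315))) (.mix 0 1 10 14 (.mix 0 0 10 1 (.mix 0 1 10 13 (.mix 0 0 10 0 (.mix 4 2 10 13 (.mix 0 0 10 0 (.mix 0 1 10 1 (.cond 6 5 (.cond 2 1 (.up 7 (.mix 0 1 7 1 (.mix 0 1 7 13 (.mix 0 0 7 0 (.cond 1 0 (.contra [(1, 1), (14, 8600), (6, 450), (2, 318)] 0) (.contra [(0, 2), (14, 20250), (6, 1125), (2, 763)] 0))))) (.mix 0 0 7 4 (.mix 0 2 7 1 (.mix 0 0 7 4 (.cond 1 0 (.contra [(1, 1), (14, 13260),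 (6, 720), (2, 496)] 0) (.contra [(0, 2), (14, 1610), (6, 45), (2, 51)] 0))))) (.mix 0 1 3 14 (.mix 0 1 3 11 (.mix 0 0 3 14 (.cond 1 0 (.contra [(1, 1), (14, 17120), (6, 890), (2, 614)] 0) (.contra [(0, 1), (14, 8960), (6, 495), (2, 342)] 0))))) (.mix 0 0 7 10 (.mix 0 1 7 4 (.mix 0 1 7 12 (.mix 0 0 7 12 (.cond 1 0 (.contra [(1, 1), (14, 43560), (6, 2320), (2, 1584)] 0) (.contra [(0, 2), (14, 11090), (6, 605), (2, 451)] 0)))))) (.mix 0 1 7 12 (.mix 0 0 7 12 (.cond 1 0 (.contra [(1, 1), (14, 4460), (6, 245), (2, 163)] 0) (.contra [(0, 2), (14, 6190), (6, 305), (2, 207)] 0))))) (.contra [(1, 1), (3, 1)] 0)) (.contra [(0, 89), (2, 550), (1, 287)] 8575))))))))) (.mix 0 0 6 10 (.cond 1 0 (.contra [(1, 5), (10, 111), (2, 2)] 165) (.contra [(0, 5), (10, 437), (2, 9)] 305))) (.mix 0 0 10 11 (.cond 1 0 (.contra [(1, 5), (10, 391),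 (2, 12)] 315) (.contra [(0, 5), (10, 297), (2, 4)] 230)))

def T65 : Tr := .mix 32 2 0 2 (.mix 20 0 0 11 (.mix 3 2 0 3 (.mix 64 1 3 9 (.h0 17 true (.cond 18 0 (.contra [(0, 480), (18, 141615), (17, 29993), (14, 9997)] 0) (.contra [(1, 1), (8, 8)] 0)) (.mix 17 1 0 2 (.mix 17 0 1 9 (.mix 17 1 0 8 (.mix 17 1 0 5 (.h0 9 false (.mix 9 0 0 2 (.mix 7 1 1 15 (.h2 2 12 (.mix 1 0 0 8 (.cond 2 0 (.contra [(0, 3), (18, 3300), (17, 512), (14, 187)] 0) (.contra [(1, 1), (14, 16)] 0))) (.mix 2 1 0 14 (.h0 9 true (.mix 8 1 0 15 (.mix 8 1 0 17 (.mix 8 0 0 18 (.cond 9 0 (.contra [(1, 8), (18, 612925), (17, 139339), (14, 43319)] 0) (.contra [(0, 96), (18, 1936575), (17, 4121), (14, 55741)] 0))))) (.mix 9 1 0 14 (.h0 1 true (.mix 1 1 0 11 (.h0 5 true (.cond 6 0 (.contra [(1, 15), (18, 9360), (17, 2048), (14, 652)] 0) (.contra [(0, 15), (18,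 420), (17, 512), (14, 43)] 0)) (.mix 5 0 0 1 (.cond 6 0 (.contra [(1, 5), (18, 11920), (17, 2048), (14, 652)] 0) (.h2 3 5 (.mix 3 0 0 14 (.cond 4 0 (.contra [(1, 1), (4, 16)] 0) (.contra [(0, 160), (20, 1352935), (19, 263729), (16, 71221)] 0))) (.h0 2 true (.cond 3 0 (.contra [(1, 15), (20, 18720), (19, 4096), (16, 1304)] 0) (.contra [(0, 15), (20, 4260), (19, 512), (16, 43)] 0)) (.mix 2 2 0 0 (.h0 1 true (.exc 46 0 3 ⟨13300, -5, 0, -26086792885, 9807065, 0, 67825650861, -25498365, 0⟩ ⟨-3668785, 620, -1827455, 7196002589220, -1216076060, 3584393991930, -18709603796944, 3161797260, -9319422917054⟩ ⟨-40, -1102430, 2101111, 78456520, 2162320533590, -4121146430673, -203986920, -5622032505390, 10714979038861⟩ 1) (.mix 1 0 0 3 (.cond 2 0 (.contra [(1, 1), (2, 4)] 0) (.contra [(0, 15), (20, 87540), (19, 27136), (16, 8039)] 0)))))))))))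 (.mix 1 0 0 1 (.cond 2 0 (.contra [(1, 1), (2, 8)] 0) (.contra [(0, 480), (18, 2735385), (17, 616399), (14, 200651)] 0)))))))))) (.mix 9 2 0 13 (.mix 9 1 0 10 (.mix 9 0 0 10 (.cond 10 0 (.contra [(1, 15), (18, 287040), (17, 65536), (14, 20264)] 0) (.contra [(0, 5), (18, 20740), (14, 803), (13, 512)] 0))))))))))))))

def T66 : Tr := .mix 0 1 14 1 (.mix 0 0 14 4 (.mix 0 1 14 12 (.mix 0 1 14 3 (.mix 0 1 14 0 (.mix 5 2 12 14 (.mix 0 2 12 2 (.mix 0 0 12 2 (.mix 0 1 12 14 (.mix 0 1 12 11 (.mix 0 1 12 10 (.mix 0 1 12 4 (.cond 11 10 (.contra [(1, 60), (14, 1845), (13, 398), (10, 127)] 0) (.h2 31 35 (.mix 21 0 0 14 (.cond 22 0 (.contra [(1, 20), (16, 7985), (15, 1719), (12, 531)] 0) (.contra [(0, 160), (16, 2985), (15, 959), (12, 891)] 0))) (.mix 21 1 0 10 (.mix 32 0 1 15 (.mix 32 1 0 6 (.mix 32 1 0 9 (.h0 4 true (.cond 5 0 (.contra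 [(0, 160), (16, 14085), (15, 3779), (12, 911)] 0) (.contra [(1, 1), (6, 4)] 0)) (.mix 4 0 0 13 (.mix 4 1 1 16 (.mix 4 1 0 5 (.mix 4 0 0 6 (.cond 8 3 (.contra [(1, 10), (16, 7985), (15, 1719), (12, 531)] 0) (.up 22 (.mix 0 0 17 3 (.cond 1 0 (.contra [(1, 80), (18, 2085), (17, 589), (14, 111)] 0) (.contra [(0, 120), (18, 6195), (17, 938), (14, 337)] 0))) (.mix 0 0 22 4 (.cond 1 0 (.contra [(1, 120), (18, 540), (17, 511), (14, 164)] 0) (.contra [(0, 480), (18, 19605), (17, 3007), (14, 1343)] 0))) (.mix 0 1 17 14 (.mix 0 0 17 1 (.cond 1 0 (.contra [(1, 20), (18, 1840), (17, 531), (14, 144)] 0) (.contra [(0, 60), (18, 3465), (17, 556), (14, 119)] 0)))) (.mix 0 0 22 10 (.mix 0 1 22 4 (.mix 0 1 22 12 (.mix 0 1 22 3 (.mix 0 0 22 10 (.cond 1 0 (.contra [(0, 480), (18, 557355), (17, 126157), (14, 40193)] 0) (.contra [(1, 1), (7,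 25), (4, 48)] 0))))))) (.mix 0 0 17 11 (.mix 0 1 17 10 (.mix 0 1 17 4 (.mix 0 1 17 12 (.mix 0 1 17 3 (.mix 0 0 17 10 (.mix 0 2 17 11 (.h0 61 false (.mix 32 1 0 11 (.mix 20 1 0 12 (.mix 3 0 0 14 (.cond 4 0 (.contra [(1, 15), (18, 143520), (17, 32768), (14, 10132)] 0) (.contra [(0, 15), (18, 32940), (17, 4096), (14, 329)] 0))))) (T65)))))))))))))))))))))))))))))))))

def T67 : Tr := .up 47 (.mix 0 2 47 14 (.mix 0 2 46 2 (.mix 0 0 45 2 (.mix 0 1 44 14 (.mix 0 1 23 11 (.mix 0 1 13 10 (.mix 0 1 10 4 (.up 7 (.mix 0 0 7 3 (.cond 1 0 (.contra [(1, 120), (12, 1110), (11, 203), (8, 82)] 0) (.contra [(0, 480), (12, 5805), (11, 1439), (8, 391)] 0))) (.mix 0 2 7 0 (.mix 0 0 7 3 (.cond 1 0 (.contra [(1, 120), (12, 645), (11, 341), (8, 79)] 0) (.contra [(0, 160), (12, 1455), (11, 289), (8, 141)] 0)))) (.mix 0 1 7 14 (.mix 0 0 7 1 (.mix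 0 1 7 13 (.mix 0 0 7 0 (.mix 0 1 7 1 (.mix 0 0 7 4 (.cond 1 0 (.contra [(0, 480), (12, 132495), (11, 31561), (8, 11309)] 0) (.contra [(1, 120), (12, 49635), (11, 9653), (8, 2857)] 0)))))))) (.mix 0 2 7 12 (.mix 0 2 7 4 (.mix 0 2 7 1 (.mix 0 0 7 4 (.mix 0 1 7 12 (.mix 0 1 7 3 (.mix 0 0 7 10 (.cond 1 0 (.contra [(1, 60), (12, 28005), (11, 7619), (8, 1711)] 0) (.contra [(0, 160), (12, 139185), (11, 26103), (8, 9107)] 0))))))))) (.mix 0 0 7 11 (.cond 1 0 (.contra [(1, 120), (12, 495), (11, 166), (8, 29)] 0) (.contra [(0, 480), (12, 7035), (11, 1513), (8, 497)] 0))))))))))) (.mix 0 1 47 13 (.mix 0 0 46 0 (.mix 0 2 45 14 (.mix 0 0 44 1 (.mix 0 1 23 13 (.mix 0 1 13 2 (.mix 0 0 10 2 (.cond 1 0 (.contra [(1, 60), (12, 2715), (11, 893), (8, 337)] 0) (.contra [(0, 480), (12, 61335), (11, 9217), (8, 3653)] 0))))))))) (.mix 0 0 47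 2 (.cond 1 0 (.contra [(0, 96), (12, 219), (11, 49), (8, 17)] 0) (.contra [(1, 24), (12, 27), (11, 2), (8, 1)] 0))) (.mix 0 1 47 0 (.mix 0 1 46 1 (.mix 0 1 45 13 (.mix 0 1 44 2 (.mix 0 0 23 2 (.mix 0 1 13 14 (.mix 0 1 10 11 (.mix 7 0 53 10 (.mix 0 1 52 4 (.mix 0 0 51 11 (.mix 0 2 50 3 (.mix 0 0 41 10 (.mix 0 2 40 11 (.mix 0 0 29 14 (.cond 10 9 (.contra [(0, 736), (8, 15680), (7, 21320), (1, 32173)] 0) (.up 14 (T66) (.mix 0 0 14 4 (.mix 0 1 14 12 (.mix 0 1 14 3 (.mix 0 0 14 10 (.cond 1 0 (.contra [(1, 60), (14, 4935), (13, 1309), (10, 341)] 0) (.contra [(0, 480), (14, 37215), (13, 5401), (10, 1949)] 0)))))) (.mix 0 2 14 13 (.mix 0 0 14 0 (.cond 1 0 (.contra [(1, 120), (14, 1695), (13, 443), (10, 157)] 0) (.contra [(0, 480), (14, 13365), (13, 2651), (10, 799)] 0)))) (.mix 0 0 14 10 (.cond 1 0 (.contra [(1, 120), (14, 1365),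 (13, 296), (10, 79)] 0) (.contra [(0, 32), (13, 50), (3, 21)] 0))) (.mix 0 1 14 12 (.mix 0 1 14 3 (.mix 0 0 14 10 (.cond 1 0 (.contra [(0, 160), (14, 6015), (13, 1641), (10, 509)] 0) (.contra [(1, 10), (14, 370), (13, 53), (10, 22)] 0))))))))))))))))))))) (.mix 0 2 47 1 (.mix 0 0 46 4 (.cond 1 0 (.contra [(1, 20), (12, 120), (11, 27), (8, 8)] 0) (.contra [(0, 480), (12, 735), (11, 1), (8, 29)] 0))))

def T68 : Tr := .h0 11 false (.cond 12 0 (.contra [(0, 15), (8, 540), (7, 128), (4, 37)] 0) (.contra [(1, 1), (8, 8)] 0)) (.mix 11 1 0 17 (.dn 11 (.mix 0 0 11 18 (.mix 0 1 11 6 (.mix 0 1 11 5 (.mix 0 0 11 18 (.cond 1 0 (.contra [(1, 12), (8, 2925), (7, 359), (4, 199)] 0) (.contra [(0, 96), (8, 38325), (7, 7091), (4, 1951)] 0)))))) (.mix 0 1 11 5 (.mix 0 1 11 8 (.mix 0 1 11 17 (.mix 0 1 11 9 (.mix 0 0 7 6 (.cond 1 0 (.contra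 [(0, 32), (8, 15975), (7, 1393), (4, 693)] 0) (.contra [(1, 3), (8, 2325), (7, 541), (4, 191)] 0))))))) (.mix 0 1 7 18 (.mix 0 0 7 15 (.cond 1 0 (.contra [(1, 4), (7, 25), (3, 24)] 0) (.contra [(0, 4), (8, 575), (7, 136), (4, 41)] 0)))) (.mix 0 1 11 17 (.mix 0 0 11 17 (.mix 0 1 11 9 (.mix 0 0 11 6 (.mix 0 1 7 5 (.cond 2 1 (.h2 10 32 (.mix 10 2 0 7 (.mix 10 1 0 18 (.mix 3 0 0 18 (.cond 4 0 (.contra [(1, 1), (2, 4)] 0) (.contra [(0, 32), (10, 36475), (9, 11453), (6, 3313)] 0))))) (.mix 10 0 0 15 (.mix 10 0 0 7 (.mix 3 1 0 8 (.h0 3 true (.mix 3 2 0 18 (.mix 3 1 0 18 (.mix 3 1 0 17 (.cond 7 3 (.contra [(1, 120), (10, 3105), (9, 583), (6, 227)] 0) (T67))))) (.mix 3 1 0 16 (.mix 3 2 0 19 (.mix 3 0 0 5 (.cond 4 0 (.contra [(1, 1), (2, 8)] 0) (.contra [(0, 96), (10, 467025), (9, 93527), (6, 30067)] 0)))))))))) (.contra [(1, 24),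 (8, 11175), (7, 1849), (4, 629)] 0))))))) (.mix 0 0 11 6 (.mix 0 2 11 9 (.mix 0 0 11 6 (.cond 1 0 (.contra [(0, 32), (8, 525), (7, 587), (4, 167)] 0) (.contra [(1, 8), (8, 1175), (7, 309), (4, 69)] 0)))))))

def T69 : Tr := .h0 1 false (.cond 2 0 (.up 20 (.mix 0 2 20 14 (.mix 0 2 19 2 (.mix 0 0 18 2 (.mix 0 1 17 14 (.mix 4 1 23 1 (.mix 0 1 22 13 (.mix 0 1 21 2 (.mix 0 0 20 2 (.mix 0 2 11 13 (.mix 0 2 10 10 (T64))))))))))) (.mix 0 0 19 4 (.cond 1 0 (.contra [(1, 5), (10, 81), (2, 2)] 55) (.contra [(0, 5), (10, 3), (2, 1)] 15))) (.mix 0 0 20 2 (.mix 1 2 20 13 (.mix 0 2 19 10 (.mix 0 0 18 13 (.cond 4 3 (.contra [(0, 3), (10, 25), (1, 4)] 0) (.cond 1 0 (.contra [(1, 1), (3, 4)] 0) (.contra [(0, 1), (4, 1), (3, 60)] 224))))))) (.mix 0 0 19 10 (.cond 1 0 (.contra [(0, 5), (10, 63), (2, 1)] 35) (.contra [(1, 5), (10, 51), (2,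 2)] 45))) (.mix 0 1 19 12 (.mix 0 0 18 12 (.cond 1 0 (.contra [(1, 5), (10, 182), (2, 4)] 150) (.contra [(0, 5), (10, 74), (2, 3)] 50))))) (.contra [(1, 1), (4, 4)] 0)) (.mix 1 0 0 8 (.cond 2 0 (.contra [(1, 1), (8, 416), (4, 48)] 32) (.dn 12 (.mix 0 2 12 6 (.mix 0 0 12 19 (.cond 1 0 (.contra [(1, 24), (6, 675), (5, 127), (2, 41)] 0) (.contra [(0, 96), (6, 1275), (5, 421), (2, 113)] 0)))) (.mix 0 0 12 19 (.cond 1 0 (.contra [(0, 96), (6, 825), (5, 179), (2, 43)] 0) (.contra [(1, 24), (6, 225), (5, 62), (2, 19)] 0))) (.mix 0 1 12 18 (.mix 0 0 12 15 (.mix 0 1 12 16 (.mix 0 1 12 19 (.mix 4 2 12 19 (.mix 0 2 12 5 (.cond 5 4 (.contra [(0, 128), (6, 20375), (2, 485), (1, 2636)] 0) (.h0 21 true (.mix 16 2 0 18 (.mix 4 1 0 7 (T68))) (.mix 16 1 0 16 (.mix 4 0 0 16 (.cond 5 0 (.contra [(1, 12), (8, 2925), (7, 659), (4, 199)] 0)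 (.contra [(0, 128), (8, 5375), (4, 285), (3, 276)] 0)))))))))))) (.mix 0 0 12 5 (.cond 1 0 (.contra [(1, 24), (6, 300), (5, 73), (2, 20)] 0) (.contra [(0, 96), (6, 225), (5, 91), (2, 35)] 0))) (.mix 0 0 8 6 (.cond 1 0 (.contra [(0, 24), (6, 225), (5, 40), (2, 11)] 0) (.contra [(1, 16), (6, 175), (5, 35), (2, 13)] 0))))))

def T70 : Tr := .up 19 (.mix 0 2 19 14 (.mix 0 2 18 2 (.mix 2 1 20 1 (.mix 0 1 19 13 (.up 4 (.mix 0 0 4 3 (.cond 1 0 (.contra [(1, 120), (10, 11840), (5, 361), (2, 272)] 0) (.contra [(0, 20), (10, 2580), (5, 107), (2, 64)] 0))) (.mix 0 2 4 0 (.mix 0 0 4 3 (.cond 1 0 (.contra [(1, 60), (10, 3440), (5, 91), (2, 32)] 0) (.contra [(0, 40), (10, 3880), (5, 57), (2, 64)] 0)))) (.mix 0 2 2 13 (.mix 0 0 2 0 (.cond 1 0 (.contra [(1, 20), (10, 2240), (5, 41), (2, 32)] 0) (.contra [(0, 60), (10, 9760), (5, 359),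 (2, 268)] 0)))) (.mix 0 0 2 10 (.cond 1 0 (.contra [(1, 40), (10, 4560), (5, 189), (2, 128)] 0) (.contra [(0, 120), (10, 14560), (5, 539), (2, 328)] 0))) (.mix 0 0 4 11 (.cond 1 0 (.contra [(1, 40), (10, 1760), (5, 99), (2, 48)] 0) (.contra [(0, 60), (10, 9380), (5, 337), (2, 224)] 0)))))))) (.mix 0 0 18 4 (.mix 0 2 17 1 (.mix 0 2 16 0 (.mix 0 2 15 14 (.mix 0 0 6 1 (.cond 1 0 (.contra [(1, 5), (10, 960), (5, 18), (2, 16)] 0) (.contra [(0, 15), (10, 7040), (5, 292), (2, 179)] 0))))))) (.mix 0 0 19 2 (.cond 1 0 (.contra [(0, 30), (10, 730), (5, 23), (2, 16)] 0) (.contra [(1, 40), (10, 480), (5, 23), (2, 16)] 0))) (.mix 0 1 19 0 (.mix 0 1 18 1 (.mix 0 1 17 13 (.mix 0 1 16 2 (.mix 4 0 22 10 (.mix 0 1 21 4 (.mix 0 0 20 11 (.cond 7 2 (.contra [(0, 3), (10, 78), (2, 1), (1, 13)] 0) (.up 7 (.mix 0 2 3 14 (.mix 0 2 3 2 (.mix 0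 0 3 2 (.cond 1 0 (.contra [(1, 2), (7, 131), (4, 32), (3, 656)] 0) (.contra [(0, 6), (7, 51), (4, 22), (3, 176)] 0))))) (.mix 0 0 7 4 (.mix 0 1 7 12 (.mix 0 1 7 3 (.mix 0 0 7 10 (.cond 1 0 (.contra [(1, 6), (7, 549), (4, 128), (3, 2632)] 0) (.contra [(0, 16), (7, 1397), (4, 384), (3, 6616)] 0)))))) (.mix 0 2 7 13 (.mix 0 0 7 0 (.cond 1 0 (.contra [(1, 3), (7, 39), (4, 8), (3, 226)] 0) (.contra [(0, 16), (7, 499), (4, 128), (3, 2376)] 0)))) (.mix 0 0 7 10 (.cond 1 0 (.contra [(1, 24), (7, 315), (4, 80), (3, 1456)] 0) (.contra [(0, 16), (7, 25), (3, 168)] 0))) (.mix 0 1 7 12 (.mix 0 1 7 3 (.mix 0 0 7 10 (.cond 1 0 (.contra [(0, 16), (7, 599), (4, 128), (3, 3208)] 0) (.contra [(1, 6), (7, 237), (4, 64), (3, 1184)] 0)))))))))))))) (.mix 0 2 19 1 (.mix 0 0 18 4 (.cond 1 0 (.contra [(1, 20), (10, 1280), (5, 51), (2, 32)] 0)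 (.contra [(0, 120), (10, 1960), (5, 77), (2, 64)] 0))))

def T71 : Tr := .dn 8 (.mix 0 1 8 8 (.mix 0 1 7 17 (.mix 0 0 6 17 (.mix 3 0 10 18 (.mix 0 1 9 6 (.mix 0 0 8 19 (.cond 4 3 (.cond 1 0 (.contra [(0, 1), (6, 60), (4, 25), (2, 12)] 0) (.contra [(1, 19), (6, 780), (4, 300), (2, 124)] 0)) (.contra [(1, 1), (4, 12), (6, 16)] 4)))))))) (.mix 0 2 8 9 (.mix 0 0 7 6 (.mix 2 1 9 5 (.mix 0 1 8 8 (.mix 0 0 7 5 (.cond 4 3 (.cond 1 0 (.contra [(0, 27), (6, 480), (4, 125), (3, 118)] 0) (.contra [(1, 1), (3, 2)] 0)) (.contra [(0, 1), (6, 22), (2, 2)] 5))))))) (.mix 0 0 8 7 (.mix 0 2 7 19 (.mix 0 2 6 5 (.mix 0 2 5 6 (.mix 4 2 11 19 (.mix 0 2 10 5 (.mix 0 2 9 6 (.mix 0 2 8 9 (.dn 8 (.mix 0 1 8 8 (.mix 0 0 8 5 (.mix 0 2 8 6 (.mix 0 0 8 19 (.mix 4 2 8 6 (.mix 0 0 8 19 (.cond 3 2 (.cond 1 0 (.contra [(0, 8), (8, 440), (3, 3)] 260) (.contra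 [(1, 2), (8, 260), (3, 1)] 40)) (.contra [(0, 1), (4, 105), (6, 143)] 147)))))))) (.mix 0 2 8 9 (.mix 0 2 8 17 (.mix 0 2 8 8 (.mix 0 0 8 5 (.cond 1 0 (.contra [(1, 1), (4, 66), (6, 166), (2, 36)] 0) (.contra [(0, 1), (4, 15), (6, 281)] 149)))))) (.mix 0 0 8 7 (.mix 0 1 8 18 (.mix 0 0 8 15 (.mix 0 1 8 16 (.cond 2 1 (T61) (.contra [(1, 1), (6, 124)] 96)))))) (.mix 0 0 4 5 (.mix 0 2 4 6 (.mix 0 0 4 19 (.cond 1 0 (.contra [(0, 2), (4, 105), (6, 151)] 4) (.contra [(1, 1), (4, 30), (6, 46)] 84))))) (.mix 0 1 8 15 (.mix 0 1 8 16 (.mix 2 2 6 17 (.mix 0 2 6 8 (.mix 0 0 6 5 (.cond 1 0 (.contra [(1, 1), (4, 60), (6, 88)] 52) (T63)))))))))))))))) (.mix 0 2 8 16 (.mix 0 2 7 15 (.mix 0 2 6 18 (.mix 0 0 5 15 (.mix 4 1 11 17 (.mix 0 0 10 17 (.mix 0 2 9 8 (.mix 0 2 8 16 (.cond 5 4 (.h2 9 11 (.mix 1 2 0 15 (T69)) (.mix 1 0 0 9 (.cond 2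 0 (.contra [(1, 1), (8, 208), (4, 24)] 16) (T70)))) (.contra [(0, 24), (4, 480), (6, 1000), (1, 17)] 0)))))))))) (.mix 0 0 7 6 (.mix 0 2 6 9 (.mix 0 2 5 17 (.mix 0 0 4 17 (.cond 1 0 (.cond 4 3 (.contra [(1, 8), (6, 60), (8, 100), (3, 3)] 0) (.contra [(0, 8), (3, 1)] 0)) (.contra [(0, 3), (2, 25), (1, 4)] 0))))))

def T72 : Tr := .up 8 (.mix 0 1 8 1 (.mix 0 1 8 13 (.mix 0 1 8 2 (.mix 0 0 8 2 (.cond 1 0 (.contra [(0, 144), (14, 129680), (10, 1955), (2, 1731)] 0) (.contra [(1, 6), (14, 2240), (10, 65), (2, 33)] 0)))))) (.mix 0 0 8 4 (.mix 0 2 8 1 (.mix 0 2 8 0 (.mix 0 2 8 14 (.mix 4 1 8 13 (.mix 0 1 8 2 (.mix 0 1 8 14 (.mix 0 1 8 11 (.up 8 (.mix 0 2 8 14 (.mix 0 0 8 1 (.mix 0 2 8 0 (.mix 0 0 8 3 (.cond 1 0 (.contra [(1, 36), (14, 142160), (10, 2285), (2, 2253)] 0) (.contra [(0, 48), (14, 169360), (10, 3235), (2, 963)] 0))))))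 (.mix 0 0 4 4 (.mix 0 1 4 12 (.mix 0 1 4 3 (.mix 0 0 4 10 (.cond 1 0 (.contra [(0, 9), (14, 17920), (10, 295), (2, 6)] 0) (.contra [(1, 18), (14, 75520), (10, 1645), (2, 861)] 0)))))) (.mix 0 0 8 2 (.cond 1 0 (.contra [(1, 16), (14, 2880), (10, 5), (2, 69)] 0) (.contra [(0, 72), (14, 46280), (10, 905), (2, 489)] 0))) (.mix 0 1 8 0 (.mix 0 0 8 3 (.cond 1 0 (.contra [(0, 144), (14, 88880), (10, 755), (2, 1299)] 0) (.contra [(1, 72), (14, 55520), (10, 1145), (2, 921)] 0)))) (.mix 0 2 8 1 (.mix 0 2 8 0 (.mix 0 0 8 3 (.cond 1 0 (.contra [(0, 144), (14, 265040), (10, 5915), (2, 3387)] 0) (.contra [(1, 36), (14, 65920), (10, 1045), (2, 501)] 0)))))))))))))) (.mix 0 0 4 2 (.mix 0 1 4 14 (.mix 0 0 4 1 (.cond 1 0 (.contra [(0, 36), (14, 12800), (10, 275), (2, 183)] 0) (.contra [(1, 30), (14, 1760), (10, 56), (9, 51)] 0))))) (.mix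 0 1 4 0 (.mix 0 0 4 3 (.mix 0 2 4 12 (.mix 0 0 4 12 (.cond 1 0 (.contra [(0, 9), (14, 2560), (10, 10), (2, 69)] 0) (.contra [(1, 15), (14, 3040), (10, 4), (9, 9)] 0)))))) (.mix 0 2 4 1 (.mix 0 2 4 0 (.mix 0 0 4 3 (.cond 1 0 (.contra [(1, 36), (14, 8320), (10, 145), (2, 177)] 0) (.contra [(0, 36), (14, 10240), (10, 265), (2, 69)] 0)))))

def T73 : Tr := .up 28 (.mix 0 2 28 14 (.mix 0 2 27 2 (.mix 2 1 29 1 (.mix 0 1 28 13 (.up 4 (.mix 0 0 4 3 (.cond 1 0 (.contra [(1, 585), (12, 15020), (8, 533), (2, 183)] 0) (.contra [(0, 5), (12, 445), (8, 8), (5, 3)] 0))) (.mix 0 2 4 0 (.mix 0 0 4 3 (.cond 1 0 (.contra [(1, 60), (12, 3440), (8, 32), (7, 27)] 0) (.contra [(0, 585), (12, 7045), (8, 13), (2, 213)] 0)))) (.mix 0 2 2 13 (.mix 0 0 2 0 (.cond 1 0 (.contra [(1, 585), (12, 33320), (8, 338), (2, 138)] 0) (.contra [(0, 585), (12,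 12560), (8, 1079), (2, 354)] 0)))) (.mix 0 0 2 10 (.cond 1 0 (.contra [(1, 210), (12, 10540), (8, 136), (5, 201)] 0) (.contra [(0, 210), (12, 17680), (8, 262), (5, 117)] 0))) (.mix 0 0 4 11 (.cond 1 0 (.contra [(1, 40), (12, 1760), (8, 48), (7, 3)] 0) (.contra [(0, 35), (12, 3005), (8, 32), (5, 37)] 0)))))))) (.mix 0 1 28 13 (.mix 0 0 27 0 (.mix 0 2 26 14 (.mix 0 0 25 1 (.mix 4 0 31 4 (.mix 0 2 30 1 (.mix 0 2 29 0 (.mix 0 0 28 3 (.cond 1 0 (.contra [(1, 585), (12, 16960), (8, 208), (2, 168)] 0) (T72)))))))))) (.mix 0 0 28 2 (.cond 1 0 (.contra [(0, 105), (12, 1355), (8, 8), (5, 18)] 0) (.contra [(1, 70), (12, 240), (8, 4), (5, 9)] 0))) (.mix 0 1 28 0 (.mix 0 1 27 1 (.mix 0 1 26 13 (.mix 0 1 25 2 (.mix 4 0 31 10 (.mix 0 1 30 4 (.mix 0 0 29 11 (.cond 7 2 (.contra [(0, 14), (12, 176), (8, 2), (5, 1)] 0) (.up 7 (.mix 0 2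 3 14 (.mix 0 2 3 2 (.mix 0 0 3 2 (.cond 1 0 (.contra [(1, 2), (10, 32), (9, 67), (3, 656)] 0) (.contra [(0, 6), (10, 22), (9, 7), (3, 176)] 0))))) (.mix 0 0 7 4 (.mix 0 1 7 12 (.mix 0 1 7 3 (.mix 0 0 7 10 (.cond 1 0 (.contra [(1, 6), (10, 128), (9, 293), (3, 2632)] 0) (.contra [(0, 16), (10, 384), (9, 629), (3, 6616)] 0)))))) (.mix 0 2 7 13 (.mix 0 0 7 0 (.cond 1 0 (.contra [(1, 3), (10, 8), (9, 23), (3, 226)] 0) (.contra [(0, 16), (10, 128), (9, 243), (3, 2376)] 0)))) (.mix 0 0 7 10 (.cond 1 0 (.contra [(1, 24), (10, 80), (9, 155), (3, 1456)] 0) (.contra [(0, 16), (9, 25), (3, 168)] 0))) (.mix 0 1 7 12 (.mix 0 1 7 3 (.mix 0 0 7 10 (.cond 1 0 (.contra [(0, 16), (10, 128), (9, 343), (3, 3208)] 0) (.contra [(1, 6), (10, 64), (9, 109), (3, 1184)] 0)))))))))))))) (.mix 0 2 28 1 (.mix 0 0 27 4 (.mix 0 2 26 1 (.mix 0 2 25 0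 (.mix 4 1 31 12 (.mix 0 0 30 12 (.cond 5 4 (.contra [(1, 105), (12, 4120), (8, 64), (5, 39)] 0) (.cond 1 0 (.contra [(1, 105), (7, 539), (4, 96), (2, 3160)] 0) (.up 6 (.mix 0 0 6 3 (.mix 0 1 6 0 (.mix 0 0 6 3 (.cond 1 0 (.contra [(0, 3), (9, 175), (4, 1403), (2, 696)] 0) (.contra [(1, 1), (9, 50), (4, 388), (2, 176)] 0))))) (.mix 0 2 6 0 (.mix 0 2 6 14 (.mix 0 0 6 1 (.cond 1 0 (.contra [(1, 3), (9, 50), (4, 424), (2, 240)] 0) (.contra [(0, 1), (9, 75), (4, 591), (2, 280)] 0))))) (.mix 0 1 6 14 (.mix 0 1 6 11 (.mix 0 1 6 10 (.mix 0 0 6 13 (.cond 1 0 (.contra [(1, 1), (9, 100), (4, 832), (2, 416)] 0) (.contra [(0, 3), (9, 275), (4, 2173), (2, 984)] 0)))))) (.mix 0 2 6 12 (.mix 0 0 6 12 (.cond 1 0 (.contra [(0, 3), (9, 100), (4, 809), (2, 384)] 0) (.contra [(1, 1), (9, 25), (4, 196), (2, 96)] 0)))) (.mix 0 0 6 11 (.cond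 1 0 (.contra [(0, 6), (9, 25), (4, 170), (2, 72)] 0) (.contra [(1, 2), (9, 25), (4, 200), (2, 92)] 0))))))))))))

def T74 : Tr := .dn 8 (.mix 0 2 8 6 (.mix 0 0 8 19 (.cond 1 0 (.contra [(1, 3), (8, 250), (4, 4)] 150) (.contra [(0, 9), (8, 950), (4, 14)] 75)))) (.mix 0 0 8 19 (.cond 1 0 (.contra [(0, 3), (8, 145), (4, 4)] 30) (.contra [(1, 9), (8, 445), (4, 4)] 105))) (.mix 0 1 8 18 (.mix 0 0 8 15 (.mix 0 1 8 16 (.mix 0 1 8 19 (.mix 4 2 8 19 (.mix 0 2 8 5 (.mix 0 2 8 6 (.mix 0 2 8 9 (.cond 7 6 (.contra [(0, 1), (8, 130), (4, 2)] 45) (.dn 8 (.mix 0 0 8 18 (.mix 0 1 8 6 (.mix 0 1 8 5 (.mix 0 0 8 18 (.cond 1 0 (.cond 4 3 (.contra [(1, 32), (12, 25000), (5, 640), (3, 17)] 0) (.contra [(0, 8), (3, 1)] 0)) (.contra [(0, 14), (10, 34750), (6, 760), (3, 373)] 0)))))) (.mix 0 0 4 19 (.mix 0 1 4 7 (.mix 0 1 4 18 (.mix 0 0 4 15 (.cond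 1 0 (.contra [(0, 21), (10, 64000), (6, 565), (3, 888)] 0) (.contra [(1, 7), (10, 16000), (6, 360), (3, 12)] 0)))))) (.mix 0 1 4 18 (.mix 0 0 4 15 (.cond 1 0 (.contra [(1, 4), (5, 25), (3, 24)] 0) (.contra [(0, 21), (10, 20000), (6, 275), (3, 183)] 0)))) (.mix 0 0 4 5 (.cond 1 0 (.contra [(1, 14), (10, 5500), (6, 80), (3, 33)] 0) (T73))) (.mix 0 2 4 17 (.mix 0 2 4 8 (.mix 0 0 4 5 (.cond 1 0 (.contra [(0, 21), (10, 16000), (6, 535), (3, 54)] 0) (.contra [(1, 3), (10, 4000), (6, 40), (3, 66)] 0))))))))))))))) (.mix 0 0 8 5 (.mix 0 2 8 6 (.mix 0 0 8 19 (.mix 0 2 8 5 (.mix 4 1 8 17 (.mix 0 0 8 17 (.mix 0 2 8 8 (.mix 0 2 8 16 (.cond 3 2 (.contra [(1, 3), (8, 410), (4, 8)] 90) (.h0 18 true (.mix 10 1 0 8 (.mix 2 2 0 15 (.cond 21 2 (.dn 11 (.mix 0 1 11 8 (.mix 0 0 11 5 (.mix 0 1 11 8 (.mix 0 0 11 5 (.cond 1 0 (.contra [(0, 1),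 (12, 1936), (2, 42)] 625) (.contra [(1, 1), (12, 9592), (2, 424)] 6500)))))) (.mix 0 1 7 5 (.mix 0 1 7 8 (.mix 0 0 7 5 (.cond 1 0 (.contra [(1, 1), (12, 1148), (2, 56)] 1100) (.contra [(0, 1), (12, 4316), (2, 177)] 2700))))) (.mix 0 0 11 7 (.mix 0 1 11 18 (.mix 0 1 11 6 (.mix 0 0 11 19 (.cond 1 0 (.contra [(1, 1), (12, 7304), (2, 288)] 4400) (.contra [(0, 1), (12, 6512), (2, 314)] 4825)))))) (.mix 0 1 7 17 (.mix 0 0 7 17 (.cond 1 0 (.contra [(0, 1), (12, 2486), (2, 117)] 1550) (.contra [(1, 1), (12, 1202), (2, 44)] 850)))) (.mix 0 0 7 6 (.mix 0 2 7 9 (.mix 0 2 7 17 (.mix 0 2 7 8 (.mix 0 0 5 5 (.cond 1 0 (.contra [(0, 1), (12, 22336), (2, 1017)] 14400) (.contra [(1, 1), (12, 1008), (2, 176)] 1200)))))))) (.contra [(1, 7), (10, 384), (2, 8)] 384)))) (.mix 10 2 0 6 (.mix 2 0 0 9 (.cond 3 0 (.contra [(1, 1), (2, 8)] 0) (.contra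 [(0, 7), (10, 8550), (2, 193)] 9950)))))))))))))) (.mix 0 2 8 17 (.mix 0 2 8 8 (.mix 0 0 8 5 (.mix 3 0 7 6 (.cond 4 0 (.contra [(0, 1), (8, 35), (4, 1)] 15) (.cond 2 1 (.contra [(1, 1), (3, 4)] 0) (.contra [(0, 1), (10, 175), (3, 7)] 200)))))))

def T75 : Tr := .dn 8 (.mix 0 1 8 8 (.mix 0 1 7 17 (.mix 0 0 6 17 (.mix 3 0 10 18 (.mix 0 1 9 6 (.mix 0 0 8 19 (.cond 4 3 (.cond 1 0 (.contra [(0, 26), (4, 60), (2, 37)] 475) (.cond 6 2 (.contra [(0, 4), (3, 1)] 0) (.contra [(1, 1), (6, 15), (3, 2)] 25))) (.contra [(1, 1), (2, 12), (4, 16)] 4)))))))) (.mix 0 2 8 9 (.mix 0 0 7 6 (.mix 2 1 9 5 (.mix 0 1 8 8 (.mix 0 0 7 5 (.cond 4 3 (.cond 1 0 (.contra [(0, 16), (4, 90), (3, 19)] 250) (.contra [(1, 1), (3, 2)] 0)) (.contra [(0, 2), (4, 30), (1, 1)] 20))))))) (.mix 0 2 7 19 (.mix 0 2 6 5 (.mix 0 2 5 6 (.mix 0 0 4 19 (.cond 1 0 (.contra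 [(0, 2), (2, 45), (4, 11)] 44) (.contra [(1, 1), (4, 56)] 24)))))) (.mix 0 2 8 16 (.mix 0 2 7 15 (.mix 0 2 6 18 (.mix 0 0 5 15 (.mix 4 1 11 17 (.mix 0 0 10 17 (.mix 0 2 9 8 (.mix 0 0 8 5 (.cond 1 0 (.contra [(1, 1), (2, 18), (4, 38)] 32) (.cond 5 4 (T74) (.contra [(0, 24), (6, 3400), (2, 64), (1, 33)] 0))))))))))) (.mix 0 1 8 15 (.mix 0 0 7 8 (.mix 2 0 9 6 (.mix 0 2 8 9 (.mix 0 2 7 17 (.mix 0 2 6 8 (.cond 6 3 (.contra [(1, 1), (2, 3), (4, 2)] 3) (.cond 5 4 (.contra [(1, 1), (4, 6), (6, 4)] 6) (.h0 7 true (.cond 8 0 (.contra [(0, 26), (6, 90), (2, 43)] 63) (.contra [(1, 1), (6, 12), (8, 4)] 0)) (.mix 1 0 0 5 (.cond 2 0 (.contra [(1, 1), (4, 16)] 0) (.contra [(0, 2), (6, 21), (8, 179)] 156))))))))))))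

def T76 : Tr := .dn 6 (.mix 0 0 6 18 (.mix 0 2 6 7 (.mix 0 2 6 19 (.mix 0 0 6 16 (.cond 1 0 (.cond 4 3 (.contra [(0, 3), (8, 475), (2, 2)] 400) (.contra [(1, 9), (8, 325), (2, 2)] 175)) (.contra [(1, 1), (6, 328), (2, 48)] 384)))))) (.mix 0 1 6 5 (.mix 0 0 6 18 (.mix 2 2 4 9 (.mix 0 0 4 6 (.cond 3 2 (.cond 1 0 (.contra [(0, 14), (4, 675), (3, 88)] 3325) (.contra [(1, 1), (3, 1)] 0)) (.contra [(0, 1), (6, 42), (2, 7)] 16)))))) (.mix 0 2 6 19 (.mix 0 0 6 16 (.cond 1 0 (.contra [(0, 1), (6, 14), (2, 9)] 32) (.up 16 (.mix 0 2 16 14 (.mix 0 2 15 2 (.mix 2 1 17 1 (.up 3 (.mix 0 0 3 3 (.cond 1 0 (.contra [(1, 4), (8, 438), (4, 10), (3, 9)] 0) (.contra [(0, 1), (8, 559), (4, 30), (3, 12)] 0))) (.mix 0 0 1 4 (.cond 1 0 (.contra [(1, 2), (8, 364), (4, 20), (3, 7)] 0) (.contra [(0, 8), (8, 4182), (4, 210), (3, 91)] 0))) (.mix 0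 1 3 14 (.mix 0 0 3 1 (.cond 1 0 (.contra [(1, 1), (8, 92), (3, 1)] 0) (.contra [(0, 1), (8, 386), (4, 25), (3, 8)] 0)))) (.mix 0 0 1 10 (.cond 1 0 (.contra [(1, 1), (8, 309), (4, 15), (3, 7)] 0) (.contra [(0, 8), (8, 3674), (4, 190), (3, 77)] 0))) (.mix 0 0 3 11 (.cond 1 0 (.contra [(1, 4), (8, 1526), (4, 90), (3, 33)] 0) (.contra [(0, 1), (8, 423), (4, 20), (3, 9)] 0))))))) (.mix 0 0 15 4 (.cond 1 0 (.contra [(1, 2), (8, 144), (4, 8), (3, 3)] 0) (.contra [(0, 8), (8, 18), (4, 6), (3, 1)] 0))) (.mix 0 0 16 2 (.cond 1 0 (.contra [(0, 1), (8, 49), (4, 2), (3, 1)] 0) (.contra [(1, 4), (8, 122), (4, 6), (3, 3)] 0))) (.mix 0 0 15 10 (.cond 1 0 (.contra [(0, 8), (8, 450), (4, 22), (3, 9)] 0) (.contra [(1, 1), (8, 45), (4, 3), (3, 1)] 0))) (.mix 0 1 15 12 (.mix 0 0 14 12 (.cond 1 0 (.contra [(1, 1), (8, 232), (4, 12), (3, 5)]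 0) (.contra [(0, 8), (8, 242), (4, 22), (3, 5)] 0)))))))) (.mix 0 1 6 17 (.mix 0 1 6 9 (.mix 0 0 6 6 (.cond 1 0 (.contra [(1, 1), (6, 164), (2, 4)] 112) (.contra [(0, 1), (6, 12), (2, 7)] 96))))) (.mix 0 1 2 15 (.mix 0 0 2 8 (.cond 1 0 (.contra [(1, 1), (6, 62), (2, 12)] 66) (.contra [(0, 2), (6, 128), (2, 3)] 29))))

def T77 : Tr := .cond 2 1 (.h2 12 19 (.mix 12 2 0 2 (.mix 12 1 0 10 (.mix 3 1 0 1 (.h2 20 27 (.mix 20 1 0 1 (.mix 20 1 0 12 (.mix 20 1 2 5 (.h0 3 false (.mix 3 1 0 13 (.mix 3 1 0 3 (.cond 6 2 (.h0 10 false (.mix 10 0 0 2 (.mix 10 1 0 4 (.mix 10 0 0 4 (.cond 11 0 (.contra [(1, 1), (4, 8)] 0) (.contra [(0, 17), (28, 3024384), (30, 1729336), (26, 98757)] 0))))) (.h0 0 false (.cond 1 0 (.contra [(1, 1), (6, 8)] 0) (.contra [(0, 17), (28, 41472), (30, 26472), (26, 1783)] 0)) (.h2 4 8 (.mix 4 0 0 0 (.mix 4 1 0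 0 (.h0 3 false (.cond 4 0 (.contra [(1, 1), (6, 16)] 0) (.contra [(0, 17), (28, 72192), (30, 107976), (26, 2459)] 0)) (.h0 3 false (.mix 3 2 0 14 (.mix 3 0 0 3 (.cond 4 0 (.contra [(0, 34), (28, 1406571), (30, 1872309), (26, 92108)] 0) (.contra [(1, 1), (8, 16)] 0)))) (.h0 0 false (.cond 1 0 (.contra [(0, 34), (28, 96783), (30, 174993), (26, 7132)] 0) (.contra [(1, 1), (2, 8)] 0)) (.exc 26 0 2 ⟨-41, -16, 15, 173845919, 67842304, -63602162, -869229595, -339211520, 318010810⟩ ⟨0, -9, -5075, 0, 38161296, 21518731730, 0, -190806480, -107593658650⟩ ⟨-304, 2856, -4347, 1289003834, -12109851264, 18431904176, -6445019170, 60549256320, -92159520880⟩ 1)))))) (.mix 4 1 0 2 (.mix 4 0 0 10 (.cond 5 0 (.contra [(0, 34), (28, 1187847), (30, 975513), (26, 32956)] 0) (.contra [(1, 1), (8, 8)] 0))))))) (.contra [(1, 1), (12, 16), (8, 4)]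 0)))) (.mix 1 0 0 18 (.cond 2 0 (.contra [(0, 34), (26, 122565), (28, 72475), (24, 3828)] 0) (.contra [(1, 1), (8, 8)] 0))))))) (.mix 20 0 0 3 (.cond 21 0 (.contra [(0, 34), (26, 61473), (28, 42047), (24, 1764)] 0) (.contra [(1, 1), (12, 16)] 0))))))) (.mix 12 0 0 1 (.cond 13 0 (.contra [(0, 17), (26, 56832), (28, 32408), (24, 2121)] 0) (.contra [(1, 1), (14, 16)] 0)))) (.contra [(1, 17), (24, 387072), (26, 390688), (22, 14556)] 0)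

def T78 : Tr := .mix 7 2 0 0 (.mix 7 2 0 4 (.h0 6 false (.mix 6 1 0 0 (.mix 6 0 0 4 (.mix 6 1 2 6 (.cond 8 1 (.h0 6 true (.mix 6 2 0 14 (.mix 6 0 0 11 (.cond 9 2 (.up 49 (.mix 0 2 49 14 (.mix 0 2 49 2 (.mix 0 0 49 2 (.cond 1 0 (.contra [(1, 17), (24, 3696), (26, 10684), (22, 108)] 0) (.contra [(0, 17), (24, 11328), (26, 9012), (22, 469)] 0))))) (.mix 0 1 49 13 (.mix 0 0 49 0 (.mix 0 2 49 14 (.mix 0 0 49 1 (.mix 0 2 49 0 (.mix 0 0 40 3 (.cond 1 0 (.contra [(1, 1), (26, 10000), (16, 84)] 0) (.contra [(0, 1), (16, 48), (12, 25)] 0)))))))) (.mix 0 0 49 2 (.mix 0 2 49 13 (.mix 0 2 49 10 (.mix 0 0 49 13 (.cond 1 0 (.contra [(1, 1), (24, 576), (26, 1304), (22, 48)] 0) (.contra [(0, 17), (24, 13824), (26, 19296), (22, 277)] 0)))))) (.mix 0 1 49 0 (.mix 0 1 49 1 (.mix 0 1 49 13 (.mix 0 1 49 2 (.mix 0 1 49 14 (.mix 0 0 40 1 (.mix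 0 2 22 0 (.mix 0 0 15 3 (.mix 0 1 9 0 (T77)))))))))) (.mix 0 2 49 1 (.mix 0 0 49 4 (.mix 0 2 49 1 (.mix 0 2 49 0 (.mix 0 0 49 3 (.cond 1 0 (.contra [(0, 1), (24, 1536), (26, 1944), (22, 103)] 0) (.contra [(1, 1), (24, 3000), (15, 88)] 0)))))))) (.contra [(1, 1), (20, 16), (10, 4)] 0)))) (.mix 6 0 0 3 (.cond 7 0 (.contra [(0, 17), (22, 13824), (24, 34936), (20, 957)] 0) (.contra [(1, 1), (10, 8)] 0)))) (.contra [(1, 17), (20, 77658), (22, 74982), (18, 2984)] 0))))) (.mix 6 0 0 10 (.cond 7 0 (.contra [(0, 34), (20, 13941), (22, 35179), (18, 948)] 0) (.contra [(1, 1), (6, 8)] 0)))))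

def T79 : Tr := .cond 10 2 (.dn 39 (.mix 0 0 34 18 (.cond 1 0 (.contra [(0, 34), (16, 525), (18, 1025), (14, 42)] 0) (.contra [(1, 2), (16, 60), (13, 7)] 0))) (.mix 0 1 34 5 (.mix 0 0 34 18 (.cond 1 0 (.contra [(1, 8), (13, 84), (11, 25)] 0) (.contra [(0, 34), (16, 555), (18, 2225), (14, 24)] 0)))) (.mix 0 2 34 19 (.mix 0 0 34 16 (.mix 0 2 33 15 (.mix 0 0 12 8 (.mix 0 2 5 16 (.cond 2 1 (.contra [(1, 17), (16, 4410), (18, 5550), (14, 176)] 0) (.h0 9 false (.cond 10 0 (.contra [(0, 34), (18, 771), (20, 1821), (16, 44)] 0) (.contra [(1, 1), (18, 24), (20, 8)] 0)) (.mix 9 1 0 12 (.mix 9 0 0 0 (.mix 9 1 2 5 (.mix 4 2 0 15 (.h0 18 false (.mix 18 2 0 1 (.mix 18 2 0 12 (.mix 18 2 2 5 (.h0 8 false (.mix 6 1 0 8 (.mix 6 0 0 8 (.cond 7 0 (.contra [(1, 1), (2, 8)] 0) (.contra [(0, 34), (18, 45015), (20, 90825), (16, 2044)] 0))))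 (.mix 8 1 0 3 (.mix 8 1 0 1 (.mix 8 0 2 18 (.cond 9 0 (.h2 7 26 (.mix 5 0 0 18 (.cond 6 0 (.contra [(0, 17), (20, 7680), (22, 18200), (18, 441)] 0) (.contra [(1, 1), (18, 16)] 0))) (T78)) (.contra [(1, 17), (18, 7470), (20, 7250), (16, 312)] 0))))))))) (.mix 18 1 0 12 (.mix 18 0 0 10 (.cond 19 0 (.contra [(0, 17), (18, 16896), (20, 40584), (16, 1283)] 0) (.contra [(1, 1), (10, 16)] 0)))))))))))))))) (.mix 0 0 39 5 (.cond 1 0 (.contra [(0, 17), (16, 360), (18, 375), (14, 22)] 0) (.contra [(1, 17), (16, 495), (18, 250), (14, 9)] 0))) (.mix 0 2 39 17 (.mix 0 0 39 17 (.cond 1 0 (.contra [(1, 17), (16, 780), (18, 1450), (14, 42)] 0) (.contra [(0, 17), (16, 960), (18, 150), (14, 19)] 0))))) (.contra [(1, 17), (14, 1614), (16, 2306), (12, 72)] 0)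

def T80 : Tr := .cond 5 4 (.up 8 (.mix 0 0 8 3 (.cond 1 0 (.contra [(1, 16), (5, 100), (3, 21)] 0) (.contra [(0, 4), (10, 100), (3, 3)] 0))) (.mix 0 0 3 4 (.mix 0 1 3 12 (.mix 0 0 3 12 (.cond 1 0 (.contra [(1, 17), (8, 2478), (10, 1982), (6, 84)] 0) (.contra [(0, 34), (8, 117), (10, 4323), (6, 76)] 0))))) (.mix 0 2 3 13 (.mix 0 0 3 0 (.cond 1 0 (.contra [(1, 17), (8, 276), (10, 1214), (6, 18)] 0) (.contra [(0, 34), (8, 1491), (10, 1449), (6, 88)] 0)))) (.mix 0 0 3 10 (.cond 1 0 (.contra [(1, 17), (8, 492), (10, 283), (6, 21)] 0) (.contra [(0, 34), (8, 753), (10, 897), (6, 14)] 0))) (.mix 0 0 8 11 (.mix 0 1 8 10 (.mix 0 0 8 13 (.mix 0 2 8 10 (.mix 0 2 8 11 (.mix 5 1 8 12 (.mix 0 1 8 3 (.mix 0 1 8 0 (.cond 6 5 (.contra [(1, 17), (8, 2256), (10, 2724), (6, 88)] 0) (.cond 8 7 (.h0 19 false (.mix 10 2 0 14 (.mix 2 0 0 3 (.cond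 3 0 (.contra [(0, 34), (12, 8859), (14, 5061), (10, 332)] 0) (.contra [(1, 1), (3, 8)] 0)))) (.mix 10 1 0 1 (.mix 2 1 0 1 (.mix 21 1 2 9 (.h0 32 false (.mix 17 1 0 13 (.mix 9 0 0 14 (.cond 10 0 (.contra [(0, 17), (12, 18432), (14, 15528), (10, 511)] 0) (.contra [(1, 1), (4, 8)] 0)))) (.mix 17 0 0 4 (.mix 9 2 0 3 (.mix 29 2 2 19 (.cond 20 2 (.contra [(1, 1), (14, 400), (4, 4)] 0) (.h0 7 false (.cond 8 0 (.contra [(0, 34), (14, 639), (16, 417), (12, 28)] 0) (.contra [(1, 1), (14, 12), (16, 4)] 0)) (.mix 7 0 0 4 (.mix 7 1 0 13 (.mix 7 0 2 6 (T79)))))))))))))) (.contra [(0, 26), (8, 210), (7, 715), (1, 492)] 0)))))))))))) (.contra [(0, 27), (6, 5760), (4, 125), (1, 134)] 0)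

def T81 : Tr := .h0 7 true (.mix 7 0 0 2 (.cond 8 0 (.up 16 (.mix 0 0 16 3 (.cond 1 0 (.contra [(1, 462), (10, 4600), (4, 1575), (2, 1579)] 0) (.contra [(0, 462), (10, 1670), (4, 735), (2, 863)] 0))) (.mix 0 2 16 0 (.mix 0 0 16 3 (.mix 0 2 16 12 (.mix 3 0 15 4 (.mix 0 1 15 12 (.mix 0 1 14 3 (.mix 0 1 7 0 (.up 7 (.mix 0 2 4 14 (.mix 0 2 4 2 (.mix 0 2 4 13 (.mix 0 0 4 0 (.cond 1 0 (.contra [(1, 33), (10, 12416), (4, 4188), (2, 4556)] 0) (.contra [(0, 231), (10, 34304), (4, 13272), (2, 7289)] 0)))))) (.mix 0 2 7 0 (.mix 0 2 7 14 (.mix 0 0 7 1 (.cond 1 0 (.contra [(1, 21), (10, 496), (4, 378), (2, 346)] 0) (.contra [(0, 21), (10, 2393), (4, 924), (2, 668)] 0))))) (.mix 0 0 4 2 (.mix 0 2 4 13 (.mix 0 0 4 0 (.cond 1 0 (.contra [(1, 77), (10, 10272), (4, 4046), (2, 3162)] 0) (.contra [(0, 11), (10, 768), (4, 174), (2, 203)]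 0))))) (.mix 0 2 7 12 (.mix 0 0 7 12 (.cond 1 0 (.contra [(1, 77), (10, 5232), (4, 1701), (2, 1517)] 0) (.contra [(0, 77), (10, 2599), (4, 707), (2, 1219)] 0)))) (.mix 0 0 7 11 (.cond 1 0 (.contra [(0, 66), (10, 3526), (4, 1293), (2, 1261)] 0) (.contra [(1, 66), (10, 472), (4, 21), (2, 217)] 0))))))))))) (.mix 0 2 12 13 (.mix 0 0 12 0 (.cond 1 0 (.contra [(1, 7), (10, 72), (4, 21), (2, 29)] 0) (.contra [(0, 231), (10, 3968), (4, 1449), (2, 1256)] 0)))) (.mix 0 0 12 10 (.cond 1 0 (.contra [(1, 462), (10, 3812), (4, 1491), (2, 1283)] 0) (.contra [(0, 154), (10, 688), (4, 259), (2, 337)] 0))) (.mix 0 1 12 12 (.mix 0 1 12 3 (.mix 0 0 11 10 (.cond 1 0 (.contra [(0, 77), (10, 2432), (4, 826), (2, 971)] 0) (.contra [(1, 231), (10, 2848), (4, 714), (2, 514)] 0)))))) (.contra [(1, 275), (10, 8760), (8, 456), (2, 208)] 0))) (.mix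 6 0 0 19 (.cond 7 0 (.contra [(0, 1), (10, 90), (8, 6), (2, 1)] 0) (.contra [(1, 1), (10, 120), (8, 8)] 0)))

def T82 : Tr := .up 14 (.mix 0 2 14 14 (.mix 0 2 13 2 (.mix 0 2 12 13 (.mix 0 0 12 0 (.mix 4 1 17 1 (.mix 0 1 16 13 (.cond 3 2 (.h2 17 19 (.mix 8 0 0 18 (.cond 9 0 (.contra [(0, 208), (6, 1800), (4, 504), (3, 175)] 0) (.contra [(1, 1), (6, 60), (4, 4)] 0))) (.mix 1 1 0 2 (.mix 9 2 1 6 (.dn 16 (.mix 0 1 16 8 (.mix 0 0 16 5 (.mix 2 2 14 6 (.mix 0 0 14 19 (.cond 3 2 (.contra [(0, 28), (4, 420), (3, 125), (1, 96)] 0) (.cond 1 0 (.contra [(1, 1), (3, 1)] 0) (T81))))))) (.mix 0 2 16 9 (.mix 0 2 16 17 (.mix 0 0 16 17 (.cond 1 0 (.contra [(1, 26), (6, 1440), (4, 112), (3, 75)] 0) (.contra [(0, 13), (6, 960), (4, 183), (3, 50)] 0))))) (.mix 0 0 16 7 (.mix 0 1 16 18 (.mix 0 1 16 6 (.mix 0 0 16 19 (.cond 1 0 (.cond 4 3 (.contra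 [(0, 104), (8, 7680), (6, 632), (5, 75)] 0) (.contra [(1, 7), (8, 75), (2, 1)] 0)) (.contra [(1, 13), (6, 7680), (4, 632), (3, 75)] 0)))))) (.mix 0 0 12 5 (.mix 0 2 12 6 (.mix 0 0 3 19 (.cond 1 0 (.contra [(0, 6), (6, 375), (8, 425), (4, 4)] 0) (.contra [(1, 52), (6, 9000), (4, 856), (3, 225)] 0))))) (.mix 0 2 12 17 (.mix 0 2 12 8 (.mix 0 0 3 5 (.cond 1 0 (.contra [(1, 26), (6, 6720), (4, 384), (3, 25)] 0) (.contra [(0, 16), (6, 360), (4, 152), (3, 75)] 0))))))))) (.contra [(0, 7), (4, 684), (2, 47)] 132)))))))) (.mix 0 1 14 13 (.mix 0 0 13 0 (.mix 0 1 12 1 (.mix 0 0 12 4 (.cond 1 0 (.contra [(0, 3), (4, 192), (6, 4), (2, 17)] 0) (.contra [(1, 1), (4, 12), (6, 28)] 36)))))) (.mix 0 0 14 2 (.mix 1 2 14 13 (.mix 0 2 13 10 (.cond 3 2 (.contra [(0, 3), (6, 25), (1, 4)] 0) (.h2 14 16 (.mix 5 0 0 18 (.cond 6 0 (.contra [(0,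 2), (4, 1)] 25) (.contra [(1, 1), (6, 60), (4, 4)] 0))) (.mix 1 0 0 13 (.cond 2 0 (.contra [(1, 1), (3, 4)] 0) (.contra [(0, 2), (6, 120), (4, 7)] 7)))))))) (.mix 0 1 14 0 (.mix 0 1 13 1 (.mix 0 0 12 4 (.cond 1 0 (.contra [(1, 7), (4, 156), (2, 16)] 36) (.contra [(0, 1), (4, 9), (6, 23)] 11))))) (.mix 0 2 14 1 (.mix 0 0 13 4 (.mix 0 1 12 12 (.mix 0 1 12 3 (.mix 0 0 12 10 (.cond 4 3 (.contra [(1, 1), (4, 6), (6, 8)] 6) (.cond 1 0 (.contra [(0, 1), (4, 15), (2, 94)] 640) (.contra [(1, 1), (2, 8)] 0))))))))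

def T83 : Tr := .dn 7 (.mix 0 1 7 8 (.mix 0 1 6 17 (.mix 0 1 5 9 (.mix 0 0 5 6 (.mix 4 0 10 18 (.mix 0 1 9 6 (.cond 3 2 (.dn 6 (.mix 0 0 6 18 (.cond 1 0 (.contra [(0, 1), (6, 185), (2, 6)] 240) (.contra [(1, 1), (6, 45), (2, 2)] 55))) (.mix 0 1 6 5 (.mix 0 0 6 18 (.cond 1 0 (.contra [(1, 1), (6, 130), (2, 6)] 220) (.contra [(0, 1), (6, 210), (2, 7)] 240)))) (.mix 0 2 6 19 (.mix 0 0 6 16 (.cond 1 0 (.contra [(0, 1), (6, 230), (2, 9)] 320) (.contra [(1, 1), (6, 90), (2, 2)] 60)))) (.mix 0 1 6 17 (.mix 0 1 6 9 (.mix 0 0 6 6 (.cond 1 0 (.contra [(1, 1), (6, 260), (2, 4)] 240) (.contra [(0, 1), (6, 180), (2, 7)] 320))))) (.mix 0 1 2 15 (.mix 0 0 2 8 (.cond 1 0 (.contra [(1, 1), (6, 350), (2, 12)] 450) (.contra [(0, 2), (6, 200), (2, 3)] 125))))) (.contra [(1, 1), (2, 24), (4, 32)] 8)))))))) (.mix 0 2 7 9 (.mix 0 0 6 6 (.mix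 0 1 5 5 (.mix 0 0 5 18 (.mix 0 2 5 7 (.mix 5 1 11 5 (.mix 0 1 10 8 (.cond 4 3 (.contra [(1, 1), (2, 12), (4, 44)] 36) (.cond 6 5 (.h2 11 13 (.mix 1 1 0 17 (.up 17 (.mix 0 2 17 14 (.mix 0 2 16 2 (.mix 0 2 15 13 (.mix 0 0 15 0 (.mix 0 1 15 1 (.mix 5 1 21 1 (.mix 0 1 20 13 (.mix 0 0 9 0 (T80))))))))) (.mix 0 1 17 13 (.mix 0 0 16 0 (.mix 0 1 15 1 (.mix 0 0 15 4 (.cond 1 0 (.contra [(0, 1), (8, 48), (4, 1)] 0) (.contra [(1, 17), (6, 960), (8, 728), (4, 36)] 0)))))) (.mix 0 0 17 2 (.cond 1 0 (.contra [(0, 17), (6, 84), (8, 147), (4, 4)] 0) (.contra [(1, 17), (6, 63), (8, 4), (4, 3)] 0))) (.mix 0 1 17 0 (.mix 0 1 16 1 (.mix 0 0 15 4 (.cond 1 0 (.contra [(1, 17), (6, 48), (8, 356), (4, 12)] 0) (.contra [(0, 17), (6, 384), (8, 468), (4, 11)] 0))))) (.mix 0 2 17 1 (.mix 0 0 16 4 (.cond 1 0 (.contra [(1, 17), (6, 228), (8, 178),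 (4, 6)] 0) (.contra [(0, 17), (6, 96), (8, 66), (4, 7)] 0)))))) (.mix 1 0 0 5 (.cond 2 0 (.contra [(0, 34), (6, 705), (8, 575), (4, 36)] 0) (.contra [(1, 1), (3, 2)] 0)))) (.contra [(0, 1), (6, 50), (2, 1), (1, 4)] 0)))))))))) (.mix 0 0 7 7 (.mix 0 2 6 19 (.mix 0 0 5 16 (.mix 0 2 5 15 (.mix 4 2 10 19 (.mix 0 2 9 5 (.cond 4 3 (T82) (.contra [(1, 1), (4, 4)] 16)))))))) (.mix 0 2 7 16 (.mix 0 2 6 15 (.mix 0 0 5 8 (.mix 3 1 9 17 (.mix 0 0 8 17 (.cond 1 0 (.cond 3 2 (.contra [(0, 2), (6, 10), (3, 3)] 40) (.contra [(1, 1), (3, 2)] 0)) (.contra [(0, 2), (2, 9), (4, 19)] 16))))))) (.mix 0 1 7 15 (.mix 0 0 6 8 (.mix 0 1 5 17 (.mix 0 1 5 9 (.mix 0 0 5 6 (.cond 1 0 (.contra [(0, 1), (2, 57), (4, 43)] 27) (.cond 4 3 (.contra [(1, 4), (6, 120), (3, 1)] 80) (.contra [(0, 8), (3, 1)] 0))))))))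

def T84 : Tr := .h0 1 false (.h2 1 3 (.h2 1 3 (.h0 0 false (.cond 1 0 (T3) (.contra [(1, 1), (2, 12), (4, 4)] 4)) (T7)) (.h0 0 true (.cond 1 0 (.h0 2 false (.cond 3 0 (.h2 0 3 (T32) (T37)) (.contra [(1, 1), (4, 6), (6, 2)] 0)) (T40)) (.contra [(1, 1), (2, 12), (4, 4)] 4)) (.h0 0 true (.cond 1 0 (T42) (.contra [(1, 1), (2, 24), (4, 8)] 8)) (.h0 0 true (.cond 1 0 (T44) (.contra [(1, 1), (2, 48), (4, 16)] 16)) (T51))))) (.h2 1 3 (T58) (.h0 1 true (.cond 2 0 (T71) (.contra [(1, 1), (2, 6), (4, 2)] 0)) (T75)))) (.h0 0 false (.cond 1 0 (.contra [(1, 1), (4, 8)] 0) (.dn 6 (.mix 0 1 6 8 (.mix 0 1 5 17 (.mix 0 1 4 9 (.mix 0 1 4 15 (.mix 4 0 9 18 (.mix 0 1 8 6 (T76))))))) (.mix 0 2 6 9 (.mix 0 0 5 6 (.cond 1 0 (.contra [(1, 1), (6, 6), (2, 2)] 12) (.contra [(0, 1), (6, 18), (2, 1)] 16)))) (.mix 0 0 6 7 (.mix 0 2 5 19 (.mix 0 0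 4 16 (.cond 1 0 (.contra [(0, 1), (6, 28), (2, 5)] 32) (.contra [(1, 1), (6, 4)] 16))))) (.mix 0 2 6 16 (.mix 0 2 5 15 (.mix 0 0 4 8 (.cond 1 0 (.contra [(0, 1), (6, 20), (2, 3)] 32) (.contra [(1, 1), (6, 20), (2, 4)] 16))))) (.mix 0 1 6 15 (.mix 0 0 5 8 (.mix 0 1 4 17 (.mix 0 0 4 17 (.cond 3 2 (.contra [(1, 1), (6, 18), (2, 2)] 20) (.cond 1 0 (.contra [(0, 3), (4, 25), (2, 16)] 0) (.contra [(1, 1), (2, 4)] 0))))))))) (.h0 0 false (.cond 1 0 (.contra [(1, 1), (4, 16)] 0) (.contra [(0, 1), (2, 9), (4, 11)] 11)) (T83)))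

def T85 : Tr := .mix 0 2 8 0 (.mix 0 0 8 3 (.mix 0 1 8 0 (.mix 3 0 8 4 (.mix 0 2 8 1 (.mix 0 2 8 0 (.mix 0 0 7 3 (.cond 6 5 (.cond 1 0 (.contra [(1, 1), (10, 1200), (6, 200), (3, 12)] 0) (.h2 17 20 (.mix 14 2 0 13 (.mix 6 0 0 3 (.cond 7 0 (.contra [(0, 14), (12, 14350), (8, 2600), (5, 121)] 0) (.contra [(1, 7), (12, 4900), (8, 400), (5, 66)] 0)))) (.dn 24 (.mix 0 1 24 8 (.mix 0 1 23 17 (.mix 0 0 21 17 (.cond 1 0 (.contra [(0, 14), (12, 322), (8, 120), (5, 3)] 0) (.contra [(1, 7), (12, 448), (8, 80), (5, 2)] 0))))) (.mix 0 2 24 9 (.mix 0 0 23 6 (.mix 2 1 25 5 (.mix 0 0 24 18 (.cond 1 0 (.contra [(0, 350), (8, 2525), (5, 176), (2, 91)] 0) (.cond 3 2 (.contra [(1, 1), (3, 1)] 0) (.contra [(0, 4), (14, 320), (7, 5), (3, 17)] 0))))))) (.mix 0 2 23 19 (.mix 0 0 22 16 (.mix 0 1 22 19 (.mix 0 1 14 7 (.h0 15 true (.mix 1 0 0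 7 (.cond 2 0 (.contra [(1, 7), (12, 1568), (8, 376), (5, 8)] 0) (.contra [(0, 7), (12, 1176), (8, 107), (5, 6)] 0))) (.mix 15 0 0 3 (.cond 16 0 (.contra [(1, 7), (12, 1120), (8, 120), (5, 24)] 0) (.contra [(0, 7), (12, 2520), (8, 495), (5, 22)] 0)))))))) (.mix 0 2 24 16 (.mix 0 2 23 15 (.mix 0 2 21 18 (.mix 0 0 4 15 (.cond 1 0 (.contra [(1, 7), (12, 560), (8, 32), (5, 12)] 0) (.contra [(0, 14), (12, 2030), (8, 232), (5, 17)] 0)))))) (.mix 0 0 23 6 (.mix 0 1 22 5 (.mix 0 1 22 8 (.mix 0 0 14 5 (.cond 4 3 (.contra [(1, 14), (12, 336), (8, 64), (5, 3)] 0) (.cond 1 0 (.contra [(1, 1), (2, 8)] 0) (.contra [(0, 7), (14, 1736), (10, 279), (7, 18)] 0)))))))))) (.contra [(0, 2), (8, 130), (4, 5), (2, 11)] 0))))))))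

def T86 : Tr := .dn 7 (.mix 0 1 7 8 (.mix 0 0 7 5 (.mix 2 2 6 6 (.mix 0 2 6 9 (.mix 0 0 6 6 (.cond 1 0 (.cond 4 3 (.contra [(0, 96), (10, 3190), (6, 390), (3, 101)] 0) (.contra [(1, 2), (3, 1)] 0)) (.contra [(0, 7), (12, 2560), (8, 959), (4, 44)] 0))))))) (.mix 0 2 7 9 (.mix 0 2 7 17 (.mix 0 2 7 8 (.h2 25 28 (.mix 9 0 0 18 (.cond 10 0 (.contra [(0, 2), (12, 270), (8, 83), (4, 3)] 0) (.contra [(1, 7), (12, 600), (8, 336), (4, 16)] 0))) (.mix 9 2 0 6 (.mix 2 0 0 5 (.cond 3 0 (.contra [(1, 7), (12, 2960), (8, 1316), (4, 36)] 0) (.contra [(0, 14), (12, 9490), (8, 3269), (4, 149)] 0)))))))) (.mix 0 1 4 18 (.mix 0 1 4 6 (.mix 0 1 4 5 (.mix 0 0 4 18 (.cond 1 0 (.contra [(1, 1), (8, 84), (4, 4)] 0) (.contra [(0, 7), (12, 1600), (8, 861), (4, 66)] 0)))))) (.mix 0 2 7 16 (.mix 0 0 7 9 (.mix 2 0 6 5 (.mix 0 1 6 8 (.mix 0 1 6 17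 (.mix 0 1 6 9 (.cond 5 4 (.contra [(1, 7), (12, 260), (8, 133), (4, 13)] 0) (.dn 6 (.mix 0 1 4 8 (.mix 0 1 4 17 (.mix 0 1 4 9 (.mix 0 0 4 6 (.cond 1 0 (.contra [(1, 1), (14, 26000), (4, 250), (2, 326)] 0) (.contra [(0, 32), (14, 277500), (4, 1875), (2, 4081)] 0)))))) (.mix 0 0 6 19 (.cond 1 0 (.contra [(1, 16), (14, 29100), (4, 275), (2, 417)] 0) (.contra [(0, 4), (14, 6800), (4, 75), (2, 81)] 0))) (.mix 0 0 4 7 (.cond 1 0 (.contra [(1, 2), (14, 8050), (4, 75), (2, 107)] 0) (.contra [(0, 32), (14, 19100), (4, 275), (2, 209)] 0))) (.mix 0 0 6 5 (.cond 1 0 (.contra [(1, 16), (14, 4300), (4, 75), (2, 9)] 0) (.contra [(0, 1), (14, 2475), (4, 25), (2, 33)] 0))) (.mix 0 2 6 17 (.mix 0 0 6 17 (.cond 1 0 (.contra [(0, 1), (14, 3100), (4, 25), (2, 46)] 0) (.contra [(1, 4), (14, 9300), (4, 75), (2, 113)] 0)))))))))))) (.mix 0 1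 7 15 (.mix 0 1 7 16 (.mix 0 0 7 9 (.cond 1 0 (.contra [(1, 7), (12, 2480), (8, 826), (4, 26)] 0) (.contra [(0, 14), (12, 2530), (8, 1281), (4, 81)] 0)))))

def T87 : Tr := .h2 13 14 (.mix 6 0 0 10 (.cond 7 0 (.contra [(1, 7), (12, 640), (8, 140), (4, 4)] 0) (.contra [(0, 7), (12, 640), (8, 315), (4, 18)] 0))) (.dn 19 (.mix 0 1 19 8 (.mix 0 1 18 17 (.mix 0 0 16 17 (.cond 1 0 (.contra [(0, 14), (12, 214), (8, 147), (4, 3)] 0) (.contra [(1, 7), (12, 376), (8, 98), (4, 2)] 0))))) (.mix 0 2 19 9 (.mix 0 0 18 6 (.mix 2 1 20 5 (.mix 0 0 19 18 (.cond 1 0 (.contra [(0, 1), (12, 40), (8, 15), (1, 3)] 0) (.cond 3 2 (.contra [(1, 1), (3, 1)] 0) (.contra [(0, 14), (14, 558), (10, 217), (6, 9)] 0))))))) (.mix 0 0 19 7 (.mix 0 2 18 19 (.mix 0 2 16 5 (.mix 3 2 21 19 (.mix 0 0 20 16 (.mix 0 1 20 19 (.mix 0 1 7 7 (T86)))))))) (.mix 0 2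 19 16 (.mix 0 2 18 15 (.mix 2 1 20 17 (.mix 0 1 19 9 (.dn 4 (.mix 0 2 4 6 (.mix 0 0 4 19 (.cond 1 0 (.contra [(1, 1), (12, 172), (8, 75), (4, 3)] 0) (.contra [(0, 1), (12, 84), (2, 1)] 0)))) (.mix 0 0 4 19 (.cond 1 0 (.contra [(0, 7), (12, 279), (8, 105), (4, 1)] 0) (.contra [(1, 14), (12, 936), (8, 245), (4, 9)] 0))) (.mix 0 2 2 19 (.mix 0 0 2 16 (.cond 1 0 (.contra [(1, 7), (12, 232), (8, 245), (4, 13)] 0) (.contra [(0, 1), (12, 192), (8, 70), (4, 3)] 0)))) (.mix 0 0 4 5 (.cond 1 0 (.contra [(1, 2), (12, 144), (8, 45), (4, 1)] 0) (.contra [(0, 7), (12, 207), (8, 35), (4, 3)] 0))) (.mix 0 0 2 6 (.cond 1 0 (.contra [(0, 14), (12, 656), (8, 315), (4, 9)] 0) (.contra [(1, 14), (12, 1132), (8, 455), (4, 23)] 0)))))))) (.mix 0 0 18 6 (.mix 0 1 17 5 (.mix 0 1 17 8 (.mix 0 0 4 5 (.cond 4 3 (.contra [(1, 14), (12, 228), (8,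 91), (4, 3)] 0) (.cond 1 0 (.contra [(1, 1), (2, 8)] 0) (.contra [(0, 1), (10, 80), (6, 5), (2, 34)] 0))))))))

def T88 : Tr := .dn 18 (.mix 0 1 18 8 (.mix 0 1 17 17 (.mix 0 0 15 17 (.cond 1 0 (.contra [(0, 1), (8, 11), (4, 8), (3, 1)] 0) (.contra [(1, 3), (8, 144), (4, 32), (3, 4)] 0))))) (.mix 0 2 18 9 (.mix 0 0 17 6 (.mix 2 1 19 5 (.mix 0 0 18 18 (.cond 3 2 (.cond 1 0 (.contra [(0, 1), (10, 40), (6, 15), (3, 3)] 0) (.contra [(1, 1), (3, 1)] 0)) (.contra [(0, 1), (8, 27), (4, 8), (3, 3)] 0)))))) (.mix 0 0 18 7 (.mix 0 2 17 19 (.mix 0 2 15 5 (.mix 0 0 4 18 (.cond 1 0 (.contra [(0, 1), (8, 105), (4, 24), (3, 7)] 0) (.contra [(1, 3), (8, 120), (4, 64), (3, 32)] 0)))))) (.mix 0 2 18 16 (.mix 0 2 17 15 (.mix 2 1 19 17 (.mix 0 1 18 9 (.dn 4 (.mix 0 0 2 18 (.cond 1 0 (.contra [(1, 1), (8, 56), (4, 20), (3, 7)] 0) (.contra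 [(0, 3), (8, 54), (4, 5), (3, 13)] 0))) (.mix 0 0 4 19 (.cond 1 0 (.contra [(0, 3), (8, 111), (4, 40), (3, 2)] 0) (.contra [(1, 1), (8, 54), (4, 10), (3, 3)] 0))) (.mix 0 1 4 18 (.mix 0 0 4 15 (.mix 2 2 4 19 (.mix 0 0 4 16 (.cond 1 0 (.cond 3 2 (.contra [(0, 12), (6, 6200), (5, 3850), (3, 429)] 0) (.contra [(1, 1), (3, 1)] 0)) (.contra [(0, 1), (8, 132), (4, 35), (3, 14)] 0)))))) (.mix 0 0 4 5 (.cond 1 0 (.contra [(1, 3), (8, 186), (4, 50), (3, 7)] 0) (.contra [(0, 1), (8, 21), (3, 2)] 0))) (.mix 0 0 2 6 (.cond 1 0 (.contra [(0, 1), (8, 34), (4, 15), (3, 3)] 0) (.contra [(1, 3), (8, 144), (4, 40), (3, 23)] 0)))))))) (.mix 0 0 17 6 (.mix 0 1 16 5 (.mix 0 1 16 8 (.cond 3 2 (.contra [(1, 1), (8, 12), (4, 4), (3, 1)] 0) (.h2 17 18 (.mix 10 0 0 10 (.cond 11 0 (.contra [(1, 3), (10, 240), (6, 40), (5, 8)] 0) (.contra [(0, 1),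 (10, 40), (6, 15), (5, 12)] 0))) (.mix 1 0 0 5 (.cond 2 0 (.contra [(1, 1), (2, 8)] 0) (.contra [(0, 1), (10, 104), (6, 33), (5, 12)] 0))))))))

def T89 : Tr := .cond 1 0 (.dn 30 (.mix 0 1 30 8 (.mix 0 1 29 17 (.mix 0 0 27 17 (.cond 1 0 (.contra [(0, 5), (14, 240), (8, 24), (2, 1)] 0) (.contra [(1, 15), (14, 1460), (8, 96), (2, 4)] 0))))) (.mix 0 2 30 9 (.mix 0 0 29 6 (.cond 1 0 (.contra [(1, 10), (14, 230), (8, 29), (2, 1)] 0) (.contra [(0, 15), (14, 760), (8, 33), (2, 2)] 0)))) (.mix 0 0 30 7 (.mix 0 2 29 19 (.mix 0 2 27 5 (.mix 0 0 10 18 (.cond 1 0 (.contra [(0, 5), (14, 30), (8, 81), (6, 16)] 0) (.contra [(1, 15), (14, 1280), (8, 36), (2, 4)] 0)))))) (.mix 0 2 30 16 (.mix 0 2 29 15 (.mix 2 1 31 17 (.mix 0 1 30 9 (.mix 0 1 30 15 (.mix 0 1 15 16 (.dn 6 (.mix 0 2 6 6 (.mix 0 0 6 19 (.cond 1 0 (.contra [(1, 10), (14,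 2370), (8, 123), (2, 7)] 0) (.contra [(0, 35), (14, 240), (8, 581), (6, 96)] 0)))) (.mix 0 0 6 19 (.cond 1 0 (.contra [(0, 30), (14, 3160), (8, 279), (2, 11)] 0) (.contra [(1, 35), (14, 465), (8, 231), (6, 46)] 0))) (.mix 0 2 4 19 (.mix 0 0 4 16 (.mix 0 2 4 15 (.mix 0 0 4 8 (.cond 1 0 (.contra [(0, 240), (14, 169690), (8, 16581), (2, 629)] 0) (.contra [(1, 5), (14, 240), (8, 336), (6, 76)] 0)))))) (.mix 0 1 4 17 (.mix 0 1 4 9 (.mix 0 0 4 6 (.cond 1 0 (.contra [(1, 30), (14, 16490), (8, 1161), (2, 49)] 0) (.contra [(0, 80), (14, 5370), (8, 693), (2, 37)] 0))))) (.mix 0 0 4 6 (.cond 1 0 (.contra [(0, 80), (14, 7670), (8, 603), (2, 27)] 0) (.contra [(1, 35), (14, 605), (8, 77), (6, 32)] 0)))))))))) (.mix 0 0 29 6 (.mix 0 1 28 5 (.mix 0 1 28 8 (.mix 0 0 13 5 (.cond 1 0 (.contra [(1, 7), (14, 104), (8, 56), (6, 8)] 0) (.contra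 [(0, 16), (14, 3266), (8, 153), (2, 9)] 0))))))) (.contra [(1, 7), (12, 6700), (4, 160), (2, 224)] 0)

def T90 : Tr := .up 6 (.mix 0 0 6 3 (.mix 0 1 6 0 (.mix 0 0 6 3 (.cond 1 0 (.contra [(0, 1), (8, 128), (4, 6)] 99) (.contra [(1, 7), (8, 820), (4, 320), (2, 8)] 0))))) (.mix 0 2 6 0 (.mix 0 2 6 14 (.mix 0 0 6 1 (.mix 3 0 6 4 (.cond 4 0 (.contra [(0, 6), (8, 175), (1, 7)] 225) (.cond 2 1 (.contra [(1, 1), (3, 4)] 0) (.contra [(0, 1), (4, 27), (3, 2)] 200))))))) (.mix 0 1 6 14 (.mix 0 1 6 11 (.mix 0 1 6 10 (.mix 3 2 6 13 (.mix 0 0 6 0 (.mix 0 1 6 1 (.cond 2 1 (.contra [(1, 1), (8, 82), (4, 4)] 26) (.h2 15 16 (.mix 8 1 0 1 (.mix 2 0 0 4 (.cond 3 0 (.contra [(1, 1), (2, 4)] 0) (.contra [(0, 21), (10, 4800), (6, 1925), (2, 2)] 0)))) (.mix 8 0 0 3 (.mix 2 1 0 13 (.cond 10 1 (.contra [(1, 7), (10, 640), (6, 140), (2, 4)] 0)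 (.h2 17 20 (.mix 14 0 0 4 (.mix 8 1 0 4 (.up 12 (.mix 0 0 9 3 (.mix 0 1 9 0 (.mix 0 1 9 1 (.mix 0 0 7 4 (.cond 1 0 (.contra [(0, 1), (4, 24), (2, 25)] 0) (.contra [(1, 7), (12, 16000), (4, 324), (2, 420)] 0)))))) (.mix 0 0 12 4 (.mix 0 1 12 12 (.mix 0 1 12 3 (.mix 0 0 4 10 (.cond 1 0 (.contra [(0, 14), (12, 17450), (4, 197), (2, 539)] 0) (.contra [(1, 7), (12, 13800), (4, 368), (2, 336)] 0)))))) (.mix 0 1 9 14 (.mix 0 1 9 11 (.mix 0 0 9 14 (.cond 1 0 (.contra [(0, 7), (12, 6400), (4, 166), (2, 133)] 0) (.contra [(1, 7), (12, 800), (4, 82), (2, 126)] 0))))) (.mix 0 0 12 10 (.mix 0 2 12 11 (.mix 0 0 12 14 (T89)))) (.mix 0 1 12 12 (.mix 0 1 12 3 (.mix 0 0 12 10 (.cond 1 0 (.contra [(0, 2), (12, 1150), (4, 43), (2, 53)] 0) (.contra [(1, 7), (12, 5800), (4, 66), (2, 126)] 0)))))))) (.mix 14 2 0 0 (.mix 8 0 0 13 (.cond 9 0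 (.contra [(1, 7), (12, 1000), (6, 280), (4, 64)] 0) (.contra [(0, 2), (12, 550), (4, 11), (2, 21)] 0)))))))))))))))) (.mix 0 2 6 12 (.mix 0 0 6 12 (.cond 1 0 (.contra [(0, 1), (8, 106), (4, 22)] 3) (.contra [(1, 1), (8, 42), (4, 4)] 46)))) (.mix 0 0 6 11 (.mix 1 1 4 12 (.mix 0 1 4 3 (.mix 0 0 4 10 (.cond 4 3 (.cond 1 0 (.contra [(0, 3), (6, 325), (2, 88)] 600) (.contra [(1, 3), (6, 800), (2, 164)] 900)) (.contra [(1, 1), (8, 5), (2, 6)] 35))))))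

def T91 : Tr := .up 6 (.mix 0 2 6 14 (.mix 0 2 5 2 (.mix 0 0 3 2 (.mix 3 1 8 1 (.mix 0 0 7 4 (.mix 0 2 7 1 (.cond 2 1 (.h2 8 9 (.mix 1 0 0 4 (.cond 2 0 (.contra [(1, 1), (2, 4)] 0) (.contra [(0, 3), (8, 320), (4, 45), (2, 14)] 0))) (.mix 1 2 0 0 (.up 8 (.mix 0 0 8 3 (.cond 1 0 (.contra [(1, 6), (8, 320), (4, 45), (2, 23)] 0) (.contra [(0, 1), (8, 65), (4, 15), (2, 1)] 0))) (T85) (.mix 0 1 8 14 (.mix 0 0 8 1 (.mix 0 1 8 13 (.cond 2 1 (.contra [(1, 1), (8, 80), (4, 5), (2, 3)] 0) (.h2 13 16 (.mix 10 2 0 13 (.h0 1 false (.cond 2 0 (.contra [(0, 2), (10, 58), (6, 11), (4, 5)] 0) (.contra [(1, 3), (10, 116), (6, 30), (4, 2)] 0)) (.mix 1 0 0 0 (.cond 2 0 (.contra [(0, 6), (10, 830), (6, 105), (4, 71)] 0) (.contra [(1, 1), (10, 180), (6, 30), (4, 2)] 0))))) (.mix 10 1 0 14 (.mix 2 0 0 0 (.cond 3 0 (.contra [(1, 1), (2, 4)]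 0) (.contra [(0, 2), (10, 990), (6, 265), (4, 39)] 0))))))))) (.mix 0 0 5 10 (.cond 1 0 (.contra [(1, 2), (8, 100), (4, 25), (2, 7)] 0) (.contra [(0, 6), (8, 400), (4, 75), (2, 7)] 0))) (.mix 0 1 5 12 (.mix 0 0 5 12 (.mix 0 2 5 4 (.mix 0 0 4 11 (.cond 1 0 (.contra [(0, 1), (8, 640), (4, 115), (2, 22)] 0) (.contra [(1, 3), (8, 640), (4, 240), (2, 52)] 0))))))))) (.contra [(1, 1), (6, 10), (2, 4)] 2)))))))) (.mix 0 0 5 4 (.mix 0 1 4 12 (.mix 0 0 4 12 (.cond 1 0 (.cond 3 2 (.contra [(1, 2), (8, 30), (3, 1)] 10) (.contra [(0, 4), (3, 1)] 0)) (.contra [(0, 3), (2, 25), (1, 4)] 0))))) (.mix 0 0 6 2 (.mix 1 2 6 13 (.mix 0 0 5 0 (.cond 3 2 (.contra [(0, 3), (6, 25), (1, 4)] 0) (.cond 1 0 (.contra [(1, 1), (3, 2)] 0) (.contra [(0, 1), (4, 5), (3, 14)] 40)))))) (.mix 0 1 6 0 (.mix 0 1 5 1 (.mix 0 1 3 13 (.mix 3 0 8 10 (.mix 0 2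 7 11 (.mix 0 2 7 3 (.cond 6 2 (.contra [(0, 1), (6, 9), (2, 1)] 1) (.up 6 (.mix 0 1 6 1 (.mix 0 0 6 4 (.mix 2 2 5 14 (.mix 0 0 5 1 (.cond 1 0 (.contra [(1, 1), (8, 140), (4, 40), (3, 14)] 0) (.cond 3 2 (.contra [(1, 1), (10, 200), (6, 75), (2, 3)] 0) (T87))))))) (.mix 0 0 6 4 (.mix 0 1 6 12 (.mix 0 1 6 3 (.h2 11 14 (T88) (.mix 8 1 0 2 (.mix 2 0 0 10 (.cond 3 0 (.contra [(1, 3), (8, 1320), (4, 320), (3, 16)] 0) (.contra [(0, 1), (8, 245), (4, 120), (3, 51)] 0)))))))) (.mix 0 2 6 13 (.mix 0 0 6 0 (.cond 1 0 (.contra [(1, 3), (8, 240), (4, 40), (3, 26)] 0) (.contra [(0, 1), (8, 115), (4, 40), (3, 11)] 0)))) (.mix 0 1 3 0 (.mix 0 0 3 3 (.cond 1 0 (.contra [(1, 3), (8, 300), (4, 100), (3, 14)] 0) (.contra [(0, 1), (8, 100), (4, 25), (3, 14)] 0)))) (.mix 0 1 6 12 (.mix 0 1 6 3 (.mix 0 0 6 10 (.cond 1 0 (.contra [(0, 1), (8,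 215), (4, 40), (3, 13)] 0) (.contra [(1, 3), (8, 360), (4, 160), (3, 92)] 0))))))))))))) (.mix 0 2 6 1 (.mix 0 0 5 4 (.mix 0 2 3 1 (.mix 3 1 8 12 (.mix 0 1 7 3 (.mix 0 1 7 0 (.cond 5 4 (.contra [(1, 1), (6, 22), (2, 4)] 6) (T90))))))))

def T92 : Tr := .dn 7 (.mix 0 2 3 6 (.mix 0 2 3 9 (.mix 0 0 3 6 (.cond 1 0 (.contra [(1, 1), (10, 180), (6, 80), (2, 12)] 0) (.contra [(0, 3), (10, 2920), (6, 895), (2, 88)] 0))))) (.mix 0 2 7 9 (.mix 0 2 7 17 (.mix 0 0 7 17 (.cond 1 0 (.contra [(1, 1), (10, 460), (6, 160), (2, 12)] 0) (.contra [(0, 3), (10, 1840), (6, 640), (2, 73)] 0))))) (.mix 0 0 7 7 (.mix 0 1 7 18 (.mix 0 1 7 6 (.mix 0 0 7 19 (.cond 1 0 (.contra [(0, 3), (10, 1540), (6, 640), (2, 49)] 0) (.contra [(1, 1), (10, 2040), (6, 640), (2, 64)] 0)))))) (.mix 0 2 7 16 (.mix 0 0 7 9 (.mix 0 1 7 15 (.mix 3 0 6 5 (.mix 0 1 6 8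 (.mix 0 1 6 17 (.cond 5 4 (.contra [(1, 3), (10, 650), (6, 200), (2, 26)] 0) (.dn 6 (.mix 0 2 6 6 (.mix 0 2 6 9 (.mix 0 0 6 6 (.cond 1 0 (.contra [(1, 3), (12, 31500), (8, 4000), (2, 364)] 0) (.contra [(0, 1), (12, 1250), (2, 21)] 0))))) (.mix 0 0 6 19 (.cond 1 0 (.contra [(1, 3), (12, 4425), (8, 550), (2, 61)] 0) (.contra [(0, 1), (12, 1325), (8, 200), (2, 14)] 0))) (.mix 0 0 3 7 (.cond 1 0 (.contra [(1, 1), (12, 3275), (8, 400), (2, 41)] 0) (.contra [(0, 3), (12, 1275), (8, 275), (2, 11)] 0))) (.mix 0 0 6 5 (.mix 1 2 4 16 (.mix 0 2 4 15 (.mix 0 0 4 8 (.cond 4 3 (.cond 1 0 (.contra [(0, 3), (14, 16000), (10, 4125), (3, 64)] 0) (.contra [(1, 1), (3, 4)] 0)) (.contra [(0, 3), (12, 5925), (8, 800), (2, 74)] 0)))))) (.mix 0 2 6 17 (.mix 0 0 6 17 (.cond 1 0 (.contra [(0, 3), (12, 7800), (8, 800), (2, 113)] 0) (.contra [(1,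 1), (12, 1950), (8, 200), (2, 22)] 0)))))))))))) (.mix 0 1 7 15 (.mix 0 1 7 16 (.mix 0 1 7 19 (.dn 3 (.mix 0 0 3 18 (.cond 1 0 (.contra [(1, 3), (10, 1795), (6, 670), (2, 61)] 0) (.contra [(0, 1), (10, 205), (6, 80), (2, 14)] 0))) (.mix 0 1 3 5 (.mix 0 0 3 18 (.cond 1 0 (.contra [(1, 3), (10, 5390), (6, 1640), (2, 182)] 0) (.contra [(0, 1), (10, 1890), (6, 640), (2, 57)] 0)))) (.mix 0 2 3 19 (.mix 0 0 3 16 (.cond 1 0 (.contra [(1, 1), (10, 2590), (6, 840), (2, 82)] 0) (.contra [(0, 3), (10, 910), (6, 160), (2, 43)] 0)))) (.mix 0 1 3 17 (.mix 0 1 3 9 (.mix 0 0 3 6 (.cond 1 0 (.contra [(0, 3), (10, 13480), (6, 4480), (2, 469)] 0) (.contra [(1, 1), (10, 1980), (6, 480), (2, 44)] 0))))) (.mix 0 0 3 6 (.mix 0 1 3 5 (.mix 0 0 3 18 (.cond 1 0 (.contra [(0, 1), (10, 4280), (6, 1280), (2, 129)] 0) (.contra [(1, 3), (10, 7220),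 (6, 2720), (2, 296)] 0)))))))))

def T93 : Tr := .dn 11 (.mix 0 1 11 8 (.mix 0 1 10 17 (.mix 0 1 8 9 (.mix 0 0 4 6 (.cond 1 0 (.contra [(0, 2), (8, 178), (4, 35), (2, 13)] 0) (.contra [(1, 3), (8, 304), (4, 60), (2, 4)] 0)))))) (.mix 0 2 11 9 (.mix 0 0 10 6 (.mix 2 1 12 5 (.mix 0 0 11 18 (.cond 3 2 (.cond 1 0 (.contra [(0, 1), (10, 40), (6, 15), (3, 3)] 0) (.contra [(1, 1), (3, 1)] 0)) (.contra [(0, 2), (8, 66), (4, 13), (2, 3)] 0)))))) (.mix 0 0 11 7 (.mix 0 2 10 19 (.mix 0 0 8 16 (.mix 0 2 4 15 (.mix 4 2 14 19 (.mix 0 0 13 16 (.mix 0 1 13 19 (.cond 5 4 (T92) (.contra [(1, 3), (8, 92), (4, 24), (2, 8)] 0))))))))) (.mix 0 2 11 16 (.mix 0 2 10 15 (.mix 0 0 8 8 (.mix 3 1 13 17 (.mix 0 1 12 9 (.cond 3 2 (.contra [(0, 12), (8, 460), (2, 160), (1, 69)] 0) (.dn 5 (.mix 0 0 2 18 (.cond 1 0 (.contra [(1, 4), (10, 280), (6, 80),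 (3, 7)] 0) (.contra [(0, 12), (10, 320), (6, 20), (3, 13)] 0))) (.mix 0 0 5 19 (.cond 1 0 (.contra [(0, 6), (10, 230), (6, 80), (3, 1)] 0) (.contra [(1, 4), (10, 240), (6, 40), (3, 3)] 0))) (.mix 0 2 2 19 (.mix 0 0 2 16 (.cond 1 0 (.contra [(1, 6), (10, 80), (6, 80), (3, 13)] 0) (.contra [(0, 2), (10, 320), (6, 70), (3, 7)] 0)))) (.mix 0 0 5 5 (.cond 1 0 (.contra [(1, 12), (10, 800), (6, 200), (3, 7)] 0) (.contra [(0, 2), (10, 50), (3, 1)] 0))) (.mix 0 0 2 6 (.cond 1 0 (.contra [(0, 4), (10, 160), (6, 60), (3, 3)] 0) (.contra [(1, 12), (10, 760), (6, 160), (3, 23)] 0)))))))))) (.mix 0 0 10 6 (.mix 0 1 9 5 (.mix 0 1 9 8 (.cond 3 2 (.contra [(1, 2), (8, 28), (4, 7), (2, 1)] 0) (.h2 10 11 (.mix 6 0 0 4 (.cond 7 0 (.contra [(1, 1), (4, 4)] 0) (.contra [(0, 3), (10, 320), (6, 45), (4, 14)] 0))) (.mix 1 0 0 5 (.cond 2 0 (.contra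 [(1, 1), (2, 8)] 0) (.contra [(0, 1), (10, 128), (6, 27), (4, 6)] 0))))))))

def T94 : Tr := .cond 10 0 (.contra [(1, 7), (8, 24100), (7, 2416)] 123900) (.h0 9 false (.mix 9 0 0 12 (.cond 10 0 (.contra [(0, 7), (10, 4185), (9, 764)] 14672) (.contra [(1, 7), (10, 20880), (9, 2752)] 112896))) (.mix 9 1 0 3 (.mix 9 0 0 0 (.mix 9 0 2 6 (.mix 9 2 0 5 (.h0 9 false (.mix 9 1 0 4 (.mix 8 2 1 5 (.mix 8 2 0 6 (.h0 8 false (.mix 8 1 0 0 (.mix 8 1 0 1 (.h2 2 11 (.mix 2 1 0 1 (.mix 2 0 0 4 (.cond 3 0 (.contra [(0, 7), (10, 322025), (9, 48828)] 1826384) (.contra [(1, 1), (2, 8)] 71204)))) (.mix 2 0 0 3 (.mix 2 1 0 13 (.h2 9 19 (.mix 9 1 0 12 (.h0 1 false (.mix 1 0 0 12 (.cond 2 0 (.contra [(1, 7), (10, 80620), (9, 11472)] 444276) (.contra [(0, 14), (10, 47255), (9, 3908)] 273889))) (.mix 1 1 0 3 (.h0 6 true (.mix 6 1 0 0 (.mix 6 0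 0 0 (.cond 7 0 (.contra [(0, 7), (10, 707625), (9, 87484)] 3625552) (.contra [(1, 1), (2, 16)] 142408)))) (.h0 2 false (.exc 16 0 1 ⟨-14, -616, -104461, -61463521, -2704395274, -458610124945, 61463533, 2704395802, 458610214483⟩ ⟨0, 38577, 1099, 0, 169362751404, 4824886948, 0, -169362784470, -4824887890⟩ ⟨-13664, 0, 77637, -59988405519, 0, 340846007183, 59988417231, 0, -340846073729⟩ 1) (.mix 2 0 0 10 (.cond 3 0 (.contra [(1, 7), (10, 161240), (9, 22944)] 888552) (.contra [(0, 14), (10, 91835), (9, 8244)] 297437)))))))) (.mix 8 2 0 6 (.mix 8 0 0 19 (.cond 9 0 (.contra [(0, 14), (10, 322025), (9, 48828)] 1794975) (.contra [(1, 1), (2, 4)] 0)))))))))) (.mix 6 1 0 5 (.mix 6 0 0 18 (.cond 7 0 (.contra [(1, 1), (4, 16)] 28952) (.contra [(0, 1), (10, 25125), (9, 3148)] 138000)))))))) (.mix 9 2 0 11 (.mix 9 0 0 3 (.cond 10 0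 (.contra [(1, 1), (4, 8)] 0) (.contra [(0, 2), (10, 25125), (9, 3148)] 126019))))))))))

def T95 : Tr := .h0 38 false (.mix 38 0 0 12 (.mix 38 0 0 12 (.mix 38 2 2 18 (.mix 38 2 0 17 (.cond 41 2 (.h0 10 true (.cond 11 0 (.contra [(1, 1), (8, 8)] 0) (.contra [(0, 7), (8, 409), (7, 60)] 2128)) (.mix 10 1 0 10 (.mix 10 0 0 14 (.mix 10 2 2 17 (.mix 10 1 0 7 (.mix 10 1 0 9 (.h0 5 true (.mix 5 1 0 4 (.mix 5 2 0 2 (.mix 5 0 2 17 (.mix 5 0 0 7 (.h2 15 54 (.mix 15 1 0 3 (.mix 15 1 0 3 (.mix 15 2 2 7 (.mix 15 2 0 8 (.h2 9 15 (.mix 9 1 0 12 (.mix 9 2 0 13 (.mix 9 1 2 9 (.mix 9 2 0 19 (.h0 9 false (.mix 9 1 0 0 (.mix 9 0 0 10 (.cond 10 0 (.contra [(1, 1), (2, 4)] 0) (.contra [(0, 14), (8, 81475), (7, 12052)] 479381)))) (.mix 9 0 0 10 (.mix 9 1 0 0 (.mix 9 2 2 19 (.mix 9 0 0 5 (T94)))))))))) (.mix 9 0 0 11 (.cond 10 0 (.contra [(0,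 7), (8, 1805), (7, 428)] 14224) (.contra [(1, 7), (8, 10440), (7, 1376)] 56448)))))))) (.mix 13 0 0 15 (.cond 14 0 (.contra [(0, 14), (8, 1805), (7, 428)] 10395) (.contra [(1, 7), (8, 5220), (7, 688)] 27580)))))))) (.mix 3 2 0 8 (.mix 3 1 0 18 (.mix 3 0 0 6 (.cond 4 0 (.contra [(0, 7), (8, 32475), (7, 3764)] 92400) (.contra [(1, 7), (8, 129200), (7, 17408)] 716800)))))))))))) (.contra [(1, 7), (6, 5900), (5, 624)] 25172)))))) (.mix 36 0 0 8 (.mix 36 1 0 15 (.mix 26 2 0 15 (.mix 16 0 0 19 (.cond 17 0 (.contra [(0, 14), (6, 553275), (5, 68276)] 2853725) (.contra [(1, 1), (6, 2950), (5, 328)] 43050))))))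

def T96 : Tr := .dn 10 (.mix 0 1 6 8 (.mix 0 0 6 5 (.mix 0 2 6 6 (.mix 0 0 6 19 (.cond 1 0 (.contra [(1, 7), (4, 4950), (3, 188)] 1050) (.contra [(0, 14), (4, 58425), (3, 7172)] 330575)))))) (.mix 0 1 10 5 (.mix 0 1 10 8 (.mix 0 0 10 5 (.cond 1 0 (.contra [(1, 7), (4, 10200), (3, 1378)] 65800) (.contra [(0, 7), (4, 14725), (3, 1774)] 71400))))) (.mix 0 0 6 7 (.mix 0 1 6 18 (.mix 0 0 6 15 (.mix 0 1 6 16 (.mix 0 0 6 9 (.cond 1 0 (.contra [(1, 7), (4, 12850), (3, 2704)] 45150) (.contra [(0, 14), (4, 51475), (3, 9124)] 371525))))))) (.mix 0 1 10 17 (.mix 0 0 10 17 (.mix 0 2 10 8 (.mix 0 2 10 16 (.mix 4 2 10 16 (.mix 0 0 10 9 (.mix 0 2 10 17 (.mix 0 2 10 8 (.mix 0 0 10 5 (.mix 0 2 10 6 (.cond 9 8 (.contra [(1, 1), (4, 600), (3, 79)] 2400) (.h2 55 70 (.mix 49 0 0 8 (.mix 42 2 0 5 (.mix 20 2 0 6 (.mix 10 0 0 9 (.cond 11 0 (.contra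 [(1, 1), (2, 8)] 0) (.contra [(0, 7), (6, 66275), (5, 8996)] 327600)))))) (.mix 55 2 0 4 (.mix 55 1 0 14 (.mix 51 1 2 16 (.mix 44 0 0 16 (.mix 22 1 0 8 (.h0 5 true (.cond 6 0 (.contra [(1, 1), (6, 4)] 0) (.contra [(0, 1), (6, 31), (5, 4)] 176)) (.mix 5 0 0 11 (.mix 5 1 0 11 (.mix 5 0 2 9 (.mix 5 1 0 19 (.mix 5 1 0 17 (T95)))))))))))))))))))))))) (.mix 0 0 10 6 (.mix 0 2 10 9 (.mix 0 2 10 17 (.mix 0 0 10 17 (.cond 1 0 (.contra [(0, 7), (4, 15825), (3, 1808)] 100800) (.contra [(1, 7), (4, 38600), (3, 5444)] 204400))))))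

def T97 : Tr := .h2 34 35 (.mix 27 1 0 1 (.mix 21 0 0 10 (.mix 11 2 2 19 (.mix 4 2 0 8 (.h0 4 false (.cond 5 0 (.contra [(1, 1), (4, 2)] 14) (.contra [(0, 2), (4, 31), (3, 4)] 153)) (.mix 4 0 0 4 (.mix 4 1 0 4 (.mix 4 0 2 16 (.mix 4 2 0 16 (.h0 4 false (.cond 5 0 (.contra [(1, 1), (4, 4)] 28) (.contra [(0, 14), (4, 409), (3, 60)] 2415)) (.mix 4 1 0 12 (.mix 4 1 0 12 (.mix 4 2 2 15 (.mix 4 0 0 9 (.dn 22 (.mix 0 2 18 6 (.mix 0 0 18 19 (.mix 0 2 18 5 (.mix 0 2 14 6 (.mix 0 0 10 19 (.cond 1 0 (.contra [(1, 1), (4, 1900), (3, 232)] 10100) (.contra [(0, 14), (4, 10575), (3, 1556)] 40425))))))) (.mix 0 0 18 19 (.cond 1 0 (.contra [(1, 14), (4, 2000), (3, 261)] 10500) (.contra [(0, 14), (4, 625), (3, 117)] 4375))) (.mix 0 1 18 18 (.mix 0 0 18 15 (.mix 0 2 18 18 (.mix 0 0 14 15 (.cond 1 0 (.contra [(0, 14), (4, 7275), (3, 1244)]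 39725) (.contra [(1, 7), (4, 4150), (3, 484)] 17850)))))) (.mix 0 1 22 17 (.mix 0 0 22 17 (.mix 0 2 22 8 (.mix 0 0 22 5 (.mix 4 0 22 5 (.mix 0 2 22 6 (.mix 0 2 22 9 (.mix 0 2 18 17 (.mix 0 2 14 8 (.mix 0 2 10 16 (T96))))))))))) (.mix 0 0 22 6 (.cond 1 0 (.contra [(1, 14), (4, 1350), (3, 197)] 6650) (.contra [(0, 14), (4, 950), (3, 149)] 6300)))))))))))))))))) (.mix 27 0 0 3 (.mix 21 1 0 0 (.mix 11 1 2 18 (.mix 4 1 0 9 (.h0 4 true (.mix 2 1 0 6 (.mix 2 0 0 6 (.cond 3 0 (.contra [(1, 7), (4, 1250), (3, 192)] 8750) (.contra [(0, 14), (4, 6025), (3, 772)] 30975)))) (.mix 4 2 0 12 (.mix 4 0 0 3 (.cond 5 0 (.contra [(0, 14), (4, 4425), (3, 692)] 25151) (.contra [(1, 1), (4, 200), (3, 24)] 1272)))))))))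

def T98 : Tr := .dn 7 (.mix 0 2 7 6 (.mix 0 0 7 19 (.mix 0 1 7 7 (.mix 0 0 7 7 (.cond 1 0 (.contra [(1, 7), (7, 115400), (4, 388900), (3, 17696)] 0) (.contra [(0, 1), (7, 400), (4, 2025), (3, 96)] 0)))))) (.mix 0 0 7 19 (.mix 0 1 7 7 (.mix 0 1 7 18 (.mix 0 1 7 6 (.mix 4 1 7 5 (.mix 0 0 7 18 (.mix 0 2 7 7 (.cond 7 6 (.contra [(1, 28), (7, 51150), (4, 173400), (3, 7931)] 0) (.h2 50 51 (.mix 25 2 0 19 (.mix 18 0 0 19 (.cond 19 0 (.contra [(0, 56), (9, 850), (6, 3600), (5, 371)] 0) (.contra [(1, 7), (9, 4750), (6, 16000), (5, 721)] 0)))) (.mix 25 1 0 18 (.mix 18 1 0 5 (.mix 11 0 0 6 (.mix 4 0 0 7 (.dn 12 (.mix 0 1 12 8 (.mix 0 1 12 17 (.mix 0 1 12 9 (.mix 0 0 12 6 (.cond 1 0 (.contra [(1, 7), (9, 338600), (6, 1137600), (5, 48384)] 0) (.contra [(0, 7), (9, 468800), (6, 1588925), (5, 73472)] 0)))))) (.mix 0 2 12 9 (.mix 0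 0 12 6 (.cond 1 0 (.contra [(0, 1), (9, 20650), (6, 69775), (5, 3136)] 0) (.contra [(1, 7), (9, 32600), (6, 104100), (5, 4669)] 0)))) (.mix 0 0 12 7 (.mix 0 2 12 19 (.mix 0 0 12 16 (.cond 1 0 (.contra [(1, 1), (9, 29100), (6, 98100), (5, 4604)] 0) (.contra [(0, 7), (9, 107900), (6, 353275), (5, 15176)] 0))))) (.mix 0 1 8 17 (.mix 0 0 8 17 (.cond 1 0 (.contra [(0, 56), (9, 1171050), (6, 3946800), (5, 176687)] 0) (.contra [(1, 7), (9, 17950), (6, 64700), (5, 3598)] 0)))) (.mix 0 0 8 6 (.mix 0 2 8 9 (.mix 0 2 8 17 (.mix 0 0 4 17 (.cond 1 0 (.contra [(0, 56), (9, 2832850), (6, 9395600), (5, 418579)] 0) (.contra [(1, 14), (9, 33125), (6, 108125), (2, 203)] 0)))))))))))))))))))) (.mix 0 1 7 18 (.mix 0 0 7 15 (.cond 1 0 (.contra [(1, 7), (7, 27100), (4, 91100), (3, 4039)] 0) (.contra [(0, 7), (7, 11950), (4, 40575), (3, 1988)]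 0)))) (.mix 0 0 7 5 (.cond 1 0 (.contra [(0, 7), (7, 10275), (4, 35025), (3, 1561)] 0) (.contra [(1, 4), (7, 4350), (4, 14600), (3, 699)] 0))) (.mix 0 2 7 17 (.mix 0 2 7 8 (.mix 0 0 7 5 (.cond 1 0 (.contra [(1, 7), (7, 7300), (4, 26800), (3, 1372)] 0) (.contra [(0, 7), (7, 45900), (4, 155025), (3, 6776)] 0)))))

def T99 : Tr := .dn 7 (.mix 0 0 7 18 (.mix 0 2 7 7 (.mix 0 2 7 19 (.mix 0 0 7 16 (.cond 1 0 (.contra [(0, 7), (5, 176), (2, 465)] 896) (.contra [(1, 7), (5, 328), (2, 1320)] 2688)))))) (.mix 0 1 7 5 (.mix 0 0 7 18 (.mix 0 2 7 7 (.mix 0 2 7 19 (.mix 4 2 7 9 (.mix 0 2 7 17 (.mix 0 0 7 17 (.cond 6 5 (T97) (.contra [(0, 7), (5, 50), (2, 175), (1, 4)] 0))))))))) (.mix 0 2 7 19 (.mix 0 0 7 16 (.mix 0 2 7 15 (.mix 0 0 7 8 (.mix 4 0 7 7 (.mix 0 1 7 18 (.mix 0 1 7 6 (.cond 6 5 (.contra [(0, 1), (5, 2), (2, 15)] 32) (.dn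 7 (.mix 0 2 7 6 (.mix 0 2 7 9 (.mix 0 2 7 17 (.mix 0 0 7 17 (.mix 4 1 7 8 (.mix 0 1 7 17 (.mix 0 1 7 9 (T98)))))))) (.mix 0 0 7 19 (.cond 1 0 (.contra [(1, 28), (7, 7550), (4, 25800), (3, 1183)] 0) (.contra [(0, 7), (7, 2025), (4, 6775), (3, 294)] 0))) (.mix 0 0 3 7 (.cond 1 0 (.contra [(1, 7), (7, 2375), (4, 8000), (3, 371)] 0) (.contra [(0, 56), (7, 14250), (4, 48000), (3, 2051)] 0))) (.mix 0 0 7 5 (.cond 1 0 (.contra [(1, 28), (7, 1950), (4, 6200), (3, 231)] 0) (.contra [(0, 7), (7, 2725), (4, 9225), (3, 413)] 0))) (.mix 0 1 3 15 (.mix 0 0 3 8 (.cond 1 0 (.contra [(1, 1), (7, 200), (4, 700), (3, 29)] 0) (.contra [(0, 56), (7, 29350), (4, 99600), (3, 4697)] 0))))))))))))) (.mix 0 1 7 17 (.mix 0 1 7 9 (.mix 0 0 7 6 (.cond 1 0 (.contra [(1, 7), (5, 164), (2, 520)] 784) (.contra [(0, 7), (5, 12), (2, 85)] 672))))) (.mix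 0 0 7 6 (.mix 0 1 7 5 (.mix 0 0 7 18 (.cond 1 0 (.contra [(0, 7), (5, 124), (2, 365)] 224) (.contra [(1, 7), (5, 108), (2, 380)] 1008)))))

def T100 : Tr := .up 6 (.mix 0 1 3 1 (.mix 0 0 3 4 (.cond 1 0 (.contra [(1, 1), (8, 30), (2, 4)] 10) (.dn 16 (.mix 0 0 15 18 (.mix 0 2 14 7 (.mix 0 0 14 7 (.cond 1 0 (.contra [(0, 1), (10, 170), (2, 3)] 122) (.contra [(1, 1), (10, 260), (2, 4)] 196))))) (.mix 0 2 16 9 (.mix 0 0 15 6 (.cond 1 0 (.contra [(1, 1), (10, 254), (2, 4)] 182) (.contra [(0, 1), (10, 142), (2, 2)] 101)))) (.mix 0 0 16 7 (.mix 0 2 15 19 (.mix 0 0 13 16 (.cond 1 0 (.contra [(0, 1), (10, 648), (2, 10)] 457) (.contra [(1, 1), (10, 4)] 16))))) (.mix 0 2 16 16 (.mix 0 2 15 15 (.mix 0 0 13 8 (.cond 1 0 (.contra [(0, 1), (10, 392), (2, 6)] 287) (.contra [(1, 1), (10, 516), (2, 8)] 356))))) (.mix 0 1 16 15 (.mix 0 0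 15 8 (.cond 1 0 (.contra [(1, 1), (10, 266), (2, 4)] 190) (.contra [(0, 1), (10, 118), (2, 2)] 85)))))))) (.mix 0 2 6 0 (.mix 0 2 6 14 (.mix 0 2 6 2 (.mix 3 0 6 4 (.mix 0 1 6 12 (.mix 0 1 6 3 (.cond 6 2 (.contra [(0, 6), (8, 175), (1, 7)] 225) (.h0 14 false (.mix 11 0 0 12 (.mix 5 0 0 2 (.cond 17 2 (.contra [(1, 25), (4, 24), (3, 8)] 0) (.dn 23 (.mix 0 1 23 8 (.mix 0 1 22 17 (.mix 0 1 20 9 (.mix 0 1 6 15 (.mix 4 0 26 18 (.mix 0 2 25 7 (.mix 0 0 25 7 (T99)))))))) (.mix 0 2 23 9 (.mix 0 0 22 6 (.cond 1 0 (.contra [(1, 7), (5, 6), (2, 32)] 84) (.contra [(0, 7), (5, 18), (2, 61)] 112)))) (.mix 0 0 23 7 (.mix 0 2 22 19 (.mix 0 0 20 16 (.cond 1 0 (.contra [(0, 1), (5, 4), (2, 17)] 32) (.contra [(1, 7), (5, 4), (2, 12)] 112))))) (.mix 0 2 23 16 (.mix 0 2 22 15 (.mix 0 0 20 8 (.cond 1 0 (.contra [(0, 7), (5, 20), (2, 81)] 224)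 (.contra [(1, 7), (5, 20), (2, 88)] 112))))) (.mix 0 1 23 15 (.mix 0 0 22 8 (.mix 0 1 20 17 (.mix 0 0 6 17 (.cond 1 0 (.contra [(0, 7), (5, 32), (2, 117)] 0) (.contra [(1, 7), (5, 24), (2, 44)] 0)))))))))) (.mix 11 1 0 3 (.h0 1 false (.cond 2 0 (.contra [(1, 25), (4, 48), (3, 16)] 0) (.contra [(0, 25), (4, 117), (3, 14)] 800)) (.mix 1 0 0 10 (.cond 2 0 (.contra [(0, 5), (4, 113), (3, 6)] 800) (.contra [(1, 1), (4, 8)] 0))))))))))))) (.mix 0 1 6 14 (.mix 0 1 6 11 (.mix 0 0 6 14 (.cond 1 0 (.contra [(1, 1), (8, 164), (4, 8)] 52) (.contra [(0, 1), (8, 108), (4, 26)] 69))))) (.mix 0 2 6 12 (.mix 0 0 6 12 (.cond 1 0 (.contra [(0, 1), (8, 106), (4, 22)] 3) (.contra [(1, 1), (8, 42), (4, 4)] 46)))) (.mix 0 0 6 11 (.mix 1 1 4 12 (.mix 0 1 4 3 (.mix 0 0 4 10 (.cond 4 3 (.cond 1 0 (.contra [(0, 3), (6, 325), (2, 88)] 600) (.contra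 [(1, 3), (6, 800), (2, 164)] 900)) (.contra [(1, 1), (8, 5), (2, 6)] 35))))))

def T101 : Tr := .up 75 (.mix 0 0 75 3 (.cond 1 0 (.contra [(1, 175), (18, 602805), (14, 15032), (12, 13077)] 0) (.contra [(0, 175), (18, 223335), (14, 4854), (12, 10844)] 0))) (.mix 0 2 75 0 (.mix 0 2 75 14 (.mix 0 2 75 2 (.mix 0 2 75 13 (.mix 0 2 75 10 (.mix 0 0 75 13 (.cond 1 0 (.contra [(1, 25), (18, 1450080), (14, 44992), (12, 52512)] 0) (.contra [(0, 175), (18, 16749180), (14, 383832), (12, 459877)] 0)))))))) (.mix 0 2 69 13 (.mix 0 2 69 10 (.mix 0 2 69 11 (.mix 0 0 69 14 (.mix 0 2 66 2 (.mix 0 0 54 2 (.mix 0 2 49 13 (.mix 0 0 30 0 (.mix 0 2 25 14 (.mix 0 2 16 2 (.h2 20 30 (.mix 20 1 0 1 (.mix 20 1 0 12 (.mix 20 1 0 12 (.mix 4 2 0 13 (.h2 21 31 (.mix 21 0 0 0 (.cond 22 0 (.contra [(1, 1), (4, 8)] 0) (.contra [(0, 175), (18, 9185820),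 (14, 258968), (12, 277173)] 0))) (.mix 18 2 0 17 (.mix 18 2 0 8 (.h0 2 true (.h0 8 false (.mix 8 1 0 13 (.mix 8 1 0 3 (.mix 8 1 0 3 (.mix 8 0 0 0 (.cond 9 0 (.contra [(1, 175), (18, 1493439360), (14, 40626064), (12, 34475904)] 0) (.contra [(0, 4), (18, 2097090), (17, 702591), (12, 567850)] 0)))))) (.h0 0 false (.cond 1 0 (.contra [(0, 175), (18, 820680), (14, 39127), (12, 24072)] 0) (.contra [(1, 175), (18, 4818240), (14, 126936), (12, 114496)] 0)) (.exc 22 0 2 ⟨-2305, 0, 175, -2280276565, 0, 173122950, 7752939399, 0, -588617960⟩ ⟨65, -538945, 0, 64302810, -533164274795, 0, -218629528, 1812758318725, 0⟩ ⟨-135220, -286725, 379744, -133769629995, -283649587650, 375670867109, 454816687895, 964408483320, -1277280796273⟩ 1))) (.mix 2 2 0 8 (.mix 2 0 0 5 (.cond 3 0 (.contra [(0, 1), (18, 123660), (14, 5880), (12, 2537)] 0)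 (.contra [(1, 7), (18, 4818240), (14, 126080), (12, 116208)] 0)))))))))))) (.mix 20 0 0 3 (.cond 21 0 (.contra [(0, 175), (18, 4627560), (14, 126019), (12, 143784)] 0) (.contra [(1, 1), (2, 8)] 0)))))))))))))) (.mix 0 2 75 12 (.mix 0 0 75 12 (.mix 0 1 75 3 (.mix 0 0 75 10 (.mix 0 1 75 4 (.mix 0 0 75 11 (.mix 0 1 62 10 (.mix 0 0 44 13 (.mix 0 2 38 10 (.mix 0 2 22 11 (.mix 0 0 13 14 (.cond 1 0 (.contra [(1, 175), (18, 590886240), (14, 17021376), (12, 11452936)] 0) (.contra [(0, 7), (18, 754320), (17, 1300618), (12, 611175)] 0))))))))))))) (.mix 0 0 75 11 (.mix 0 2 75 3 (.mix 0 0 75 10 (.mix 0 2 75 11 (.mix 0 2 75 3 (.mix 0 2 75 12 (.mix 0 2 62 4 (.mix 0 0 44 11 (.mix 0 2 38 3 (.mix 0 0 22 10 (.cond 1 0 (.contra [(0, 175), (18, 183515220), (14, 4054728), (12, 6794783)] 0) (.contra [(1, 25), (18, 28851120), (14, 689888),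 (12, 457668)] 0))))))))))))

def T102 : Tr := .mix 6 0 0 0 (.mix 6 0 0 12 (.mix 6 0 0 12 (.mix 6 1 3 9 (.mix 6 0 0 6 (.mix 6 2 0 5 (.cond 12 5 (.contra [(1, 175), (14, 507360), (10, 16064), (8, 20904)] 0) (.h0 19 false (.mix 19 0 0 12 (.mix 19 1 0 0 (.mix 19 1 0 3 (.mix 19 0 3 7 (.mix 19 2 0 9 (.cond 24 4 (.contra [(1, 175), (16, 262080), (12, 7192), (10, 11712)] 0) (.h2 5 25 (.mix 5 1 0 3 (.mix 5 1 0 1 (.mix 5 0 0 10 (.h0 16 false (.mix 13 1 0 15 (.mix 13 1 0 5 (.mix 13 0 0 18 (.cond 14 0 (.contra [(0, 7), (18, 2313780), (14, 69000), (12, 59911)] 0) (.contra [(1, 1), (6, 8)] 0))))) (.mix 16 1 0 1 (.mix 16 1 0 3 (.mix 16 1 0 3 (.mix 16 0 3 6 (.mix 16 2 0 9 (.h0 9 false (.mix 9 1 0 0 (.mix 9 0 0 4 (.mix 9 1 0 4 (.h0 9 false (.mix 9 1 0 13 (.mix 9 0 0 10 (.mix 9 1 0 0 (.mix 9 2 3 9 (.mix 9 2 0 17 (T101)))))) (.mix 9 0 0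 4 (.cond 10 0 (.contra [(1, 1), (4, 4)] 0) (.contra [(0, 175), (18, 5126940), (14, 130456), (12, 109941)] 0))))))) (.mix 9 0 0 10 (.cond 10 0 (.contra [(0, 175), (18, 2530920), (14, 68483), (12, 50088)] 0) (.contra [(1, 1), (2, 4)] 0))))))))))))) (.mix 2 1 0 18 (.mix 2 0 0 6 (.cond 3 0 (.contra [(1, 7), (18, 288960), (14, 7880), (12, 7872)] 0) (.contra [(0, 28), (18, 47670), (17, 37125), (12, 14894)] 0))))))))))) (.mix 19 1 0 3 (.mix 19 0 0 10 (.cond 20 0 (.contra [(0, 175), (16, 790440), (12, 34331), (10, 3816)] 0) (.contra [(1, 25), (16, 522240), (12, 13776), (10, 14336)] 0)))))))))))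

def T103 : Tr := .h0 66 false (.mix 60 1 0 0 (.mix 13 2 0 11 (.mix 3 0 0 3 (.cond 4 0 (.contra [(0, 175), (12, 1889160), (8, 55459), (6, 39624)] 0) (.contra [(1, 1), (2, 8)] 0))))) (.mix 60 0 0 10 (.mix 13 1 0 4 (.mix 3 1 0 1 (.mix 56 2 3 15 (.mix 46 2 0 8 (.h0 32 false (.mix 32 1 0 11 (.mix 23 1 0 1 (.mix 13 0 0 14 (.cond 14 0 (.contra [(0, 175), (12, 7168980), (8, 209352), (6, 202847)] 0) (.contra [(1, 1), (4, 4)] 0))))) (.mix 32 2 0 2 (.mix 23 0 0 3 (.mix 13 2 0 3 (.mix 34 0 3 8 (.mix 34 0 0 17 (.mix 34 0 0 7 (.cond 35 0 (.h0 12 false (.mix 12 1 0 4 (.mix 12 1 0 12 (.mix 12 0 0 4 (.mix 12 2 3 18 (.mix 12 0 0 5 (.h2 5 18 (.mix 5 1 0 12 (.mix 5 1 0 3 (.mix 5 1 0 12 (.mix 5 2 3 7 (.mix 5 2 0 6 (.h0 18 false (.cond 19 0 (.contra [(1, 25), (14, 20640), (10, 576), (8, 536)] 0) (.contra [(0, 175), (14, 44940), (10, 1016),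 (8, 201)] 0)) (.mix 18 2 0 13 (.mix 18 2 0 12 (.mix 18 2 0 12 (.mix 18 1 3 17 (.mix 18 1 0 9 (.mix 18 2 0 19 (.h0 6 false (.cond 7 0 (.contra [(1, 25), (14, 41280), (10, 1152), (8, 1072)] 0) (.contra [(0, 7), (14, 1008), (13, 262), (8, 177)] 0)) (T102)))))))))))))) (.mix 5 0 0 11 (.mix 5 0 0 12 (.cond 6 0 (.contra [(0, 175), (14, 551880), (10, 13687), (8, 1032)] 0) (.contra [(1, 25), (14, 261120), (10, 6888), (8, 7168)] 0)))))))))) (.mix 9 0 0 8 (.cond 10 0 (.contra [(1, 1), (10, 4)] 0) (.contra [(0, 7), (14, 5880), (10, 153), (8, 184)] 0)))) (.contra [(1, 7), (12, 131040), (8, 4800), (6, 3448)] 0))))))))))))))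

def T104 : Tr := .up 43 (.mix 0 0 43 3 (.cond 1 0 (.contra [(1, 175), (8, 27405), (4, 772), (2, 717)] 0) (.contra [(0, 14), (7, 117), (2, 50)] 0))) (.mix 0 2 43 0 (.mix 0 0 43 3 (.mix 0 1 31 0 (.mix 0 1 17 1 (.mix 0 0 13 4 (.cond 1 0 (.contra [(0, 175), (8, 163380), (4, 5512), (2, 1107)] 0) (.contra [(1, 175), (8, 341040), (4, 9696), (2, 10456)] 0))))))) (.mix 0 1 43 14 (.mix 0 0 43 1 (.mix 0 1 31 13 (.mix 0 0 17 0 (.cond 1 0 (.contra [(1, 175), (8, 101640), (4, 3536), (2, 2196)] 0) (.contra [(0, 175), (8, 130620), (4, 3288), (2, 1943)] 0)))))) (.mix 0 2 43 12 (.mix 0 2 43 4 (.mix 0 2 31 1 (.mix 0 0 17 4 (.cond 1 0 (.contra [(1, 175), (8, 165480), (4, 4752), (2, 2872)] 0) (.contra [(0, 175), (8, 2940), (4, 856), (2, 591)] 0)))))) (.mix 0 0 43 11 (.mix 0 1 43 10 (.mix 0 1 31 4 (.mix 0 1 17 12 (.mix 0 1 13 3 (.mix 0 1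 9 0 (.mix 6 1 47 12 (.mix 0 0 47 12 (.mix 0 1 47 3 (.mix 0 0 47 10 (.up 10 (.mix 0 2 10 14 (.mix 0 2 10 2 (.mix 0 2 10 13 (.mix 0 0 10 0 (.cond 1 0 (.contra [(1, 175), (8, 578760), (4, 12624), (2, 21064)] 0) (.contra [(0, 25), (8, 69060), (4, 2344), (2, 2109)] 0)))))) (.mix 0 1 10 13 (.mix 0 0 10 0 (.mix 0 1 10 1 (.mix 0 0 10 4 (.cond 1 0 (.contra [(0, 175), (8, 753060), (4, 19944), (2, 25709)] 0) (.contra [(1, 7), (8, 420), (7, 138), (4, 200)] 0)))))) (.mix 0 0 10 2 (.mix 0 2 10 13 (.mix 0 0 10 0 (.mix 0 1 10 1 (.mix 0 0 10 4 (.cond 1 0 (.contra [(1, 7), (8, 18060), (7, 554), (4, 600)] 0) (.contra [(0, 7), (8, 1680), (7, 4362), (2, 2075)] 0))))))) (.mix 0 1 10 0 (.mix 0 1 10 1 (.mix 0 0 10 4 (.cond 1 0 (.contra [(1, 175), (8, 160860), (4, 4664), (2, 8004)] 0) (.contra [(0, 175), (8, 451080), (4, 13392), (2, 9287)] 0)))))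 (.mix 0 2 10 1 (.mix 0 0 10 4 (.mix 0 1 10 12 (.mix 0 1 10 3 (.mix 0 0 10 10 (.mix 0 2 10 11 (.mix 6 1 10 12 (.mix 0 0 10 12 (.mix 0 1 10 3 (.mix 0 1 10 0 (.cond 6 5 (.cond 3 2 (.contra [(1, 175), (10, 116130), (6, 4012), (4, 1482)] 0) (T103)) (.contra [(1, 175), (8, 1107120), (4, 24288), (2, 18568)] 0)))))))))))))))))))))))

def T105 : Tr := .mix 0 1 9 17 (.mix 0 1 9 9 (.mix 0 1 3 15 (.mix 3 2 10 16 (.mix 0 0 10 9 (.mix 0 2 10 17 (.mix 0 0 10 17 (.dn 7 (.mix 0 0 7 18 (.mix 0 2 7 7 (.mix 0 2 7 19 (.h2 14 32 (.mix 14 2 0 13 (.h0 1 false (.cond 2 0 (.contra [(0, 175), (8, 15540), (4, 456), (2, 341)] 0) (.contra [(1, 7), (7, 32), (2, 12)] 0)) (.mix 1 0 0 0 (.cond 2 0 (.contra [(0, 175), (8, 81060), (4, 2344), (2, 2109)] 0) (.contra [(1, 7), (7, 192), (2, 100)] 0))))) (.mix 14 1 0 14 (.mix 14 2 1 8 (.mix 11 1 0 16 (.mix 4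 0 0 16 (.h0 4 true (.mix 4 1 0 11 (.mix 4 2 1 16 (.mix 4 0 0 9 (.mix 4 1 0 19 (.h2 4 9 (.mix 4 0 0 14 (.mix 4 2 1 15 (.mix 4 2 0 17 (.mix 4 1 0 7 (T104))))) (.mix 3 0 0 9 (.cond 4 0 (.contra [(0, 7), (8, 6300), (4, 152), (2, 165)] 0) (.contra [(1, 1), (2, 8)] 0)))))))) (.mix 3 0 0 5 (.cond 4 0 (.contra [(0, 7), (8, 2940), (4, 88), (2, 69)] 0) (.contra [(1, 1), (2, 4)] 0)))))))))))) (.mix 0 1 7 5 (.mix 0 0 7 18 (.cond 1 0 (.contra [(1, 7), (8, 5670), (4, 180), (2, 74)] 0) (.contra [(0, 1), (8, 930), (4, 20), (2, 21)] 0)))) (.mix 0 1 4 18 (.mix 0 1 4 6 (.mix 0 0 4 19 (.cond 1 0 (.contra [(1, 7), (8, 17220), (4, 440), (2, 324)] 0) (.contra [(0, 7), (8, 11340), (4, 255), (2, 428)] 0))))) (.mix 0 1 7 17 (.mix 0 1 7 9 (.mix 0 0 7 6 (.cond 1 0 (.contra [(0, 7), (8, 9240), (4, 240), (2, 73)] 0) (.contra [(1, 7), (8, 17220), (4,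 520), (2, 444)] 0))))) (.mix 0 0 7 6 (.cond 1 0 (.contra [(0, 7), (8, 735), (4, 30), (2, 52)] 0) (.contra [(1, 7), (8, 105), (7, 250), (2, 141)] 0))))))))))

def T106 : Tr := .cond 7 0 (.up 16 (.mix 0 0 16 3 (.cond 1 0 (.contra [(1, 2), (7, 323), (4, 44), (2, 152)] 0) (.contra [(0, 2), (7, 231), (4, 32), (2, 106)] 0))) (.mix 0 2 16 0 (.mix 0 0 16 3 (.cond 1 0 (.contra [(1, 5), (7, 715), (4, 104), (2, 332)] 0) (.contra [(0, 5), (7, 1395), (4, 192), (2, 661)] 0)))) (.mix 0 1 16 14 (.mix 0 0 16 1 (.mix 0 2 4 0 (.mix 3 2 17 13 (.mix 0 2 17 10 (.h0 8 false (.cond 9 0 (.contra [(1, 25), (7, 900), (4, 128), (2, 424)] 0) (.contra [(0, 25), (7, 950), (4, 128), (2, 449)] 0)) (.mix 8 0 0 0 (.mix 4 2 0 14 (.up 8 (.mix 0 0 5 3 (.cond 1 0 (.contra [(1, 10), (7, 7365), (4, 992), (2, 3436)] 0) (.contra [(0, 10), (7, 1595), (4, 226),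 (2, 808)] 0))) (.mix 0 0 8 4 (.mix 0 2 8 1 (.mix 0 2 8 0 (.mix 0 0 4 3 (.cond 1 0 (.contra [(1, 5), (7, 2620), (4, 256), (2, 1048)] 0) (.contra [(0, 5), (7, 28890), (4, 4032), (2, 13381)] 0)))))) (.mix 0 1 5 14 (.mix 0 0 5 1 (.cond 1 0 (.contra [(1, 5), (7, 9395), (4, 1296), (2, 4368)] 0) (.contra [(0, 5), (7, 3465), (4, 457), (2, 1656)] 0)))) (.mix 0 0 8 10 (.cond 1 0 (.contra [(0, 10), (7, 2685), (4, 368), (2, 1194)] 0) (.contra [(1, 10), (7, 1195), (4, 196), (2, 568)] 0))) (.mix 0 1 8 12 (.mix 0 0 8 12 (.mix 0 2 8 4 (.mix 0 0 4 11 (.cond 1 0 (.contra [(1, 5), (7, 21540), (4, 3072), (2, 10076)] 0) (.contra [(0, 5), (7, 19430), (4, 2624), (2, 8867)] 0))))))))))))))) (.mix 0 0 14 10 (.cond 1 0 (.contra [(1, 10), (7, 855), (4, 112), (2, 396)] 0) (.contra [(0, 10), (7, 1535), (4, 214), (2, 712)] 0))) (.mix 0 0 16 11 (.mix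 0 1 16 10 (.mix 0 0 4 13 (.cond 1 0 (.contra [(1, 5), (7, 3970), (4, 544), (2, 1852)] 0) (.contra [(0, 5), (7, 840), (4, 128), (2, 399)] 0)))))) (.contra [(1, 2), (5, 13), (4, 29), (2, 7)] 0)

def T107 : Tr := .dn 13 (.mix 0 1 13 8 (.mix 0 1 12 17 (.mix 2 0 14 18 (.mix 0 2 13 7 (.mix 0 2 13 19 (.mix 0 0 13 16 (.cond 1 0 (.h0 17 false (.mix 12 0 0 2 (.mix 6 0 1 17 (.cond 7 0 (.dn 9 (.mix 0 0 9 18 (.mix 0 2 9 7 (.mix 0 0 3 7 (.cond 1 0 (.contra [(0, 7), (7, 200), (2, 117)] 0) (.contra [(1, 7), (7, 150), (2, 44)] 0))))) (.mix 0 1 9 5 (.mix 0 0 9 18 (.cond 1 0 (.contra [(0, 7), (8, 1050), (4, 36), (2, 19)] 0) (.contra [(1, 1), (8, 150), (4, 4), (2, 6)] 0)))) (.mix 0 2 9 19 (.mix 0 0 9 16 (.mix 2 0 9 7 (.cond 2 1 (.cond 3 0 (.contra [(0, 14), (9, 625), (6, 150), (3, 126)] 0) (.contra [(1, 2), (3, 1)] 0)) (.contra [(0, 7),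 (8, 1470), (4, 44), (2, 45)] 0))))) (T105) (.mix 0 0 9 6 (.cond 1 0 (.contra [(0, 7), (8, 945), (4, 26), (2, 18)] 0) (.contra [(1, 7), (8, 315), (4, 12), (2, 11)] 0)))) (.contra [(1, 1), (8, 24), (5, 2)] 0)))) (.mix 5 1 0 9 (.h0 1 false (.cond 2 0 (.contra [(1, 1), (8, 8)] 0) (.contra [(0, 16), (6, 351), (8, 189), (2, 14)] 0)) (.mix 1 0 0 6 (.cond 2 0 (.contra [(0, 16), (6, 2175), (8, 925), (2, 78)] 0) (.contra [(1, 1), (8, 48), (5, 4)] 0)))))) (.contra [(1, 25), (4, 480), (3, 36), (2, 88)] 0)))))))) (.mix 0 2 13 9 (.mix 0 0 12 6 (.mix 2 1 14 5 (.mix 0 0 13 18 (.cond 1 0 (.contra [(0, 1), (4, 9), (6, 11), (2, 1)] 0) (.cond 3 2 (.contra [(1, 1), (3, 1)] 0) (.contra [(0, 18), (8, 490), (4, 40), (3, 39)] 0))))))) (.mix 0 0 13 7 (.mix 0 2 12 19 (.mix 2 2 14 19 (.mix 0 0 13 16 (.mix 0 2 13 15 (.mix 0 0 13 8 (.cond 1 0 (.contra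 [(1, 1), (4, 6), (6, 18), (3, 4)] 0) (.h0 17 false (.mix 5 2 0 5 (.dn 8 (.mix 0 1 8 8 (.mix 0 0 8 5 (.cond 1 0 (.contra [(0, 8), (5, 247), (4, 651), (2, 177)] 0) (.contra [(1, 1), (5, 12), (4, 21), (2, 7)] 0)))) (.mix 0 2 8 9 (.mix 0 2 8 17 (.mix 0 2 3 8 (.h2 5 23 (.mix 5 0 0 18 (.cond 6 0 (.contra [(0, 8), (5, 303), (4, 699), (2, 193)] 0) (.contra [(1, 1), (5, 13), (4, 29), (2, 7)] 0))) (.mix 5 2 0 6 (.mix 2 0 0 5 (.cond 3 0 (.contra [(1, 1), (5, 54), (4, 82), (2, 22)] 0) (.contra [(0, 8), (5, 1559), (4, 3747), (2, 1017)] 0)))))))) (.mix 0 0 8 7 (.cond 1 0 (.contra [(0, 8), (5, 183), (4, 439), (2, 117)] 0) (.contra [(1, 2), (5, 14), (4, 37), (2, 11)] 0))) (.mix 0 2 8 16 (.mix 0 0 8 9 (.cond 1 0 (.contra [(1, 2), (5, 35), (4, 105), (2, 27)] 0) (.contra [(0, 8), (5, 225), (4, 525), (2, 151)] 0)))) (.mix 0 1 8 15 (.mix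 0 1 8 16 (.mix 0 0 3 9 (.cond 1 0 (.contra [(1, 1), (5, 86), (4, 188), (2, 52)] 0) (.contra [(0, 8), (5, 399), (4, 1067), (2, 273)] 0))))))) (.mix 12 2 0 13 (.mix 6 0 1 16 (T106))))))))))) (.mix 0 2 13 16 (.mix 0 2 12 15 (.mix 2 1 14 17 (.mix 0 1 13 9 (.mix 0 0 13 6 (.cond 1 0 (.dn 5 (.mix 0 2 5 6 (.mix 0 0 5 19 (.cond 1 0 (.contra [(1, 2), (8, 280), (4, 80), (3, 33)] 0) (.contra [(0, 12), (8, 1060), (4, 160), (3, 81)] 0)))) (.mix 0 0 5 19 (.cond 1 0 (.contra [(0, 6), (8, 230), (4, 80), (3, 39)] 0) (.contra [(1, 4), (8, 240), (4, 40), (3, 17)] 0))) (.mix 0 2 3 19 (.mix 0 0 3 16 (.cond 1 0 (.contra [(1, 6), (8, 80), (4, 80), (3, 27)] 0) (.contra [(0, 1), (8, 160), (4, 35), (3, 14)] 0)))) (.mix 0 0 5 5 (.mix 0 2 5 6 (.mix 2 1 5 17 (.mix 0 1 5 9 (.mix 0 1 5 15 (.cond 5 4 (.contra [(1, 12), (8, 800), (4, 200), (3, 93)] 0)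 (.dn 5 (.mix 0 1 5 8 (.mix 0 0 5 5 (.cond 1 0 (.contra [(0, 2), (10, 10275), (6, 400), (2, 353)] 0) (.contra [(1, 3), (10, 3575), (6, 200), (2, 99)] 0)))) (.mix 0 1 3 5 (.mix 0 0 3 18 (.cond 1 0 (.contra [(1, 3), (10, 9025), (6, 400), (2, 321)] 0) (.contra [(0, 1), (10, 1150), (6, 25), (2, 46)] 0)))) (.mix 0 2 3 19 (.mix 0 0 3 16 (.cond 1 0 (.contra [(1, 1), (10, 2725), (6, 100), (2, 101)] 0) (.contra [(0, 3), (10, 5150), (6, 275), (2, 174)] 0)))) (.mix 0 1 3 17 (.mix 0 1 3 9 (.mix 0 0 3 6 (.cond 1 0 (.contra [(0, 3), (10, 7025), (6, 275), (2, 297)] 0) (.contra [(1, 1), (10, 9650), (6, 400), (2, 322)] 0))))) (.mix 0 0 3 6 (.cond 1 0 (.contra [(0, 6), (10, 5875), (6, 250), (2, 171)] 0) (.contra [(1, 2), (10, 625), (2, 21)] 0)))))))))) (.mix 0 0 3 6 (.cond 1 0 (.contra [(0, 4), (8, 160), (4, 60), (3, 27)] 0) (.contra [(1,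 12), (8, 760), (4, 160), (3, 57)] 0)))) (.contra [(0, 6), (4, 9), (6, 139), (2, 4)] 0))))))) (.mix 0 0 12 6 (.mix 0 1 11 5 (.mix 0 0 11 18 (.cond 3 2 (.contra [(1, 4), (4, 21), (6, 7), (2, 2)] 0) (.cond 1 0 (.contra [(1, 1), (2, 4)] 0) (.h0 11 false (.cond 12 0 (.contra [(0, 1), (10, 128), (6, 14), (2, 7)] 0) (.contra [(1, 3), (10, 512), (6, 56), (2, 24)] 0)) (.mix 5 0 0 10 (.cond 6 0 (.contra [(1, 1), (6, 8)] 0) (.contra [(0, 3), (10, 640), (6, 82), (2, 45)] 0)))))))))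

def T108 : Tr := .up 84 (.mix 0 2 84 14 (.mix 0 2 84 2 (.mix 0 0 77 2 (.cond 1 0 (.contra [(1, 7), (10, 43860), (2, 3232)] 4332) (.contra [(0, 1), (10, 1755), (9, 1349)] 4400))))) (.mix 0 1 84 13 (.mix 0 0 84 0 (.cond 1 0 (.contra [(0, 1), (10, 165), (9, 917)] 3950) (.contra [(1, 1), (10, 630), (9, 1024)] 3150)))) (.mix 0 0 84 2 (.mix 0 2 84 13 (.mix 0 2 77 10 (.mix 0 0 73 13 (.mix 0 2 69 10 (.mix 0 2 65 11 (.mix 0 2 61 3 (.mix 0 0 31 10 (.cond 1 0 (.contra [(1, 7), (10, 1007040), (2, 78448)] 278848) (.contra [(0, 2), (10, 193785), (9, 23543), (2, 14825)] 0)))))))))) (.mix 0 2 82 12 (.mix 0 0 82 12 (.mix 0 2 82 4 (.mix 0 2 82 1 (.mix 0 2 42 0 (.mix 0 2 37 14 (.mix 0 2 34 2 (.mix 0 0 25 2 (.mix 0 2 19 13 (.mix 0 2 13 10 (.h0 17 false (.mix 17 1 0 11 (.mix 17 1 0 3 (.mix 17 2 0 13 (.mix 4 0 0 13 (.cond 5 0 (.contra [(1,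 1), (10, 40020), (9, 631996)] 1890100) (.contra [(0, 2), (10, 661005), (9, 891799)] 3627525)))))) (.mix 17 2 0 2 (.mix 17 2 0 4 (.mix 17 1 0 14 (.mix 4 2 0 11 (.h0 18 true (.mix 18 2 0 10 (.mix 18 0 0 3 (.cond 19 0 (.contra [(1, 1), (10, 26280), (9, 45944)] 146400) (.contra [(0, 6), (10, 412215), (9, 6617), (2, 39175)] 0)))) (.mix 18 1 0 2 (.mix 18 1 0 1 (.h0 7 false (.mix 7 0 0 2 (.mix 7 2 0 1 (.h0 5 true (.h2 3 11 (.exc 8 0 1 ⟨173570, -53020, -240, 2327365411495, -710934584125, -3218112000, -2327365342067, 710934562917, 3218111904⟩ ⟨5, -366865, 0, 67044000, -4919219412000, 0, -67043998, 4919219265254, 0⟩ ⟨0, -70, -452725, 0, -938616000, -6070498968271, 0, 938615972, 6070498787181⟩ 1) (.mix 3 1 0 14 (.mix 3 0 0 4 (.cond 4 0 (.contra [(1, 1), (10, 60060), (9, 90388)] 330300) (.contra [(0, 14), (10, 2054460), (2, 183997)]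 537097))))) (.mix 5 1 0 14 (.mix 5 0 0 4 (.cond 6 0 (.contra [(1, 1), (10, 52560), (9, 91888)] 292800) (.contra [(0, 7), (10, 1210980), (2, 82811)] 456236))))))) (.mix 7 2 0 13 (.mix 7 0 0 11 (.mix 7 1 0 11 (.mix 7 0 0 14 (.cond 8 0 (.contra [(1, 1), (10, 80040), (9, 1263992)] 3780200) (.contra [(0, 14), (10, 26351460), (2, 2266427)] 8128527))))))))))))))))))))))))) (.mix 0 2 84 1 (.mix 0 0 84 4 (.cond 1 0 (.contra [(0, 1), (10, 405), (9, 269)] 150) (.contra [(1, 1), (10, 510), (9, 1348)] 5050))))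

def T109 : Tr := .h2 3 9 (.mix 3 1 0 3 (.mix 3 2 0 11 (.mix 3 1 0 10 (.h2 30 35 (.mix 27 1 0 9 (.mix 20 0 0 18 (.cond 21 0 (.contra [(0, 1), (10, 1605), (9, 2239)] 9148) (.contra [(1, 7), (10, 41760), (2, 3512)] 2400)))) (.mix 30 2 0 4 (.mix 30 2 0 12 (.mix 30 1 0 2 (.mix 30 2 3 8 (.mix 23 2 0 6 (.h0 9 false (.mix 9 1 0 0 (.mix 9 0 0 14 (.cond 10 0 (.contra [(1, 7), (10, 41760), (2, 3512)] 1112) (.contra [(0, 2), (10, 2865), (9, 4547)] 18825)))) (.mix 9 0 0 10 (.mix 9 2 0 3 (.mix 9 0 0 13 (.h0 9 true (.mix 6 2 0 16 (.mix 6 0 0 19 (.cond 7 0 (.contra [(0, 1), (10, 2865), (9, 4547)] 13004) (.contra [(1, 7), (10, 83520), (2, 7024)] 4800)))) (.mix 9 0 0 11 (.mix 9 0 0 12 (.h0 6 false (.cond 7 0 (.contra [(0, 2), (10, 183), (9, 373)] 1567) (.contra [(1, 1), (10, 60), (9, 244)] 732)) (.mix 6 2 0 11 (.mix 6 2 0 12 (.mix 6 1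 0 2 (.h0 6 true (.cond 7 0 (.contra [(0, 1), (10, 183), (9, 373)] 1044) (.contra [(1, 1), (10, 120), (9, 488)] 1952)) (.mix 6 1 0 10 (.mix 6 1 0 3 (.h0 6 false (.cond 7 0 (.contra [(0, 14), (10, 10092), (2, 929)] 2141) (.contra [(1, 1), (10, 120), (9, 488)] 1464)) (.mix 6 0 0 14 (.mix 6 0 0 12 (.mix 6 0 0 2 (.h0 6 true (.cond 7 0 (.contra [(0, 2), (10, 2667), (9, 101), (2, 251)] 0) (.contra [(1, 1), (10, 240), (9, 976)] 3904)) (.mix 6 0 0 13 (.mix 6 1 0 0 (T108))))))))))))))))))))))))))))))) (.mix 3 2 0 4 (.mix 3 0 0 13 (.cond 4 0 (.contra [(1, 7), (10, 20880), (2, 1756)] 556) (.contra [(0, 2), (10, 1605), (9, 2239)] 6525))))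

def T110 : Tr := .h0 4 false (.mix 4 0 0 12 (.mix 4 2 0 3 (.mix 4 0 0 13 (.mix 4 0 3 17 (.dn 45 (.mix 0 1 45 8 (.mix 0 0 45 5 (.cond 1 0 (.contra [(0, 12), (10, 1335), (9, 25), (2, 101)] 0) (.contra [(1, 1), (10, 30), (9, 8)] 6)))) (.mix 0 2 45 9 (.mix 0 2 45 17 (.mix 0 0 23 17 (.mix 3 0 46 19 (.cond 2 1 (.cond 4 0 (.contra [(0, 32), (12, 2700), (3, 49)] 2500) (.contra [(1, 4), (3, 1)] 0)) (.contra [(0, 3), (2, 25), (1, 4)] 0)))))) (.mix 0 0 45 7 (.cond 1 0 (.contra [(0, 1), (9, 31)] 117) (.contra [(1, 1), (9, 17)] 44))) (.mix 0 2 45 16 (.mix 0 0 45 9 (.cond 1 0 (.contra [(1, 7), (10, 450), (2, 44)] 50) (.contra [(0, 1), (10, 15), (9, 43)] 126)))) (.mix 0 1 45 15 (.mix 0 1 45 16 (.mix 0 1 23 19 (.mix 0 1 19 7 (.mix 0 0 15 7 (.mix 0 2 11 19 (.mix 0 2 7 5 (.mix 7 2 50 17 (.mix 0 0 50 17 (.mix 0 2 50 8 (.mix 0 2 50 16 (.h0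 65 false (.mix 52 2 0 16 (.mix 2 0 0 9 (.cond 3 0 (.contra [(1, 2), (10, 1455), (9, 25), (2, 121)] 0) (.contra [(0, 2), (10, 495), (9, 541)] 1687)))) (.mix 59 1 0 12 (.mix 46 2 0 13 (.mix 40 2 0 4 (.mix 55 1 3 17 (.mix 5 2 0 15 (.h0 5 false (.mix 5 0 0 12 (.mix 5 2 0 10 (.mix 5 0 0 11 (T109)))) (.mix 2 1 0 9 (.mix 2 0 0 8 (.cond 3 0 (.contra [(1, 1), (10, 1455), (9, 25), (2, 121)] 0) (.contra [(0, 2), (10, 435), (9, 1193)] 5051))))))))))))))))))))))))))) (.mix 4 1 0 3 (.mix 4 0 0 14 (.cond 5 0 (.contra [(0, 1), (10, 435), (9, 1193)] 3300) (.contra [(1, 7), (10, 21120), (2, 1744)] 2944))))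

def T111 : Tr := .h0 31 false (.mix 26 2 0 10 (.mix 20 2 1 5 (.h2 2 34 (.mix 1 0 0 18 (.cond 2 0 (.contra [(0, 1), (8, 15), (7, 49)] 168) (.contra [(1, 1), (7, 8)] 56))) (.mix 2 0 0 13 (.mix 2 2 1 6 (.cond 4 1 (.contra [(1, 1), (7, 56)] 200) (.dn 26 (.mix 0 1 26 8 (.mix 0 0 26 5 (.cond 1 0 (.contra [(0, 25), (9, 1350), (6, 404), (2, 177)] 0) (.contra [(1, 25), (9, 550), (6, 12), (2, 56)] 0)))) (.mix 0 2 26 9 (.mix 0 2 26 17 (.mix 0 2 6 8 (.mix 0 0 4 5 (.mix 4 0 28 19 (.cond 2 1 (.cond 5 0 (.contra [(0, 264), (6, 5640), (4, 14000), (3, 2119)] 0) (.contra [(1, 8), (3, 1)] 0)) (.contra [(0, 25), (9, 7200), (6, 1984), (2, 1017)] 0))))))) (.mix 0 0 26 7 (.cond 1 0 (.contra [(0, 25), (9, 775), (6, 234), (2, 117)] 0) (.contra [(1, 25), (9, 425), (6, 88), (2, 44)] 0))) (.mix 0 2 26 16 (.mix 0 0 26 9 (.cond 1 0 (.contra [(1,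 25), (9, 750), (6, 316), (2, 108)] 0) (.contra [(0, 25), (9, 1250), (6, 252), (2, 151)] 0)))) (.mix 0 1 26 15 (.mix 0 1 26 16 (.mix 0 0 6 9 (.cond 1 0 (.contra [(1, 25), (9, 2900), (6, 632), (2, 416)] 0) (.contra [(0, 25), (9, 1700), (6, 696), (2, 273)] 0)))))))))))) (.mix 26 0 0 0 (.mix 13 0 0 2 (.mix 7 0 0 12 (.mix 22 0 3 16 (.cond 23 0 (.h0 4 false (.cond 5 0 (.contra [(1, 1), (9, 8)] 24) (.contra [(0, 1), (10, 12), (2, 1)] 4)) (.mix 4 1 0 1 (.mix 4 2 0 13 (.mix 4 2 0 4 (.mix 4 2 3 15 (.h0 4 false (.cond 5 0 (.contra [(1, 1), (9, 16)] 48) (.contra [(0, 1), (10, 9), (9, 11)] 44)) (.mix 4 0 0 4 (.mix 4 2 0 10 (.mix 4 0 0 11 (.mix 4 0 3 8 (.h0 4 false (.mix 4 2 0 1 (.mix 4 0 0 13 (.cond 5 0 (.contra [(0, 1), (10, 495), (9, 541)] 2100) (.contra [(1, 7), (10, 10560), (2, 872)] 1472)))) (.mix 4 1 0 12 (.mix 4 2 0 11 (.mix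 4 1 0 10 (.mix 4 1 3 17 (T110)))))))))))))))) (.contra [(1, 1), (7, 4)] 28))))))

def T112 : Tr := .mix 0 0 13 7 (.mix 0 2 12 19 (.mix 2 2 14 19 (.mix 0 0 13 16 (.mix 0 2 13 15 (.mix 0 0 13 8 (.cond 1 0 (.contra [(1, 1), (6, 30), (5, 2)] 14) (.up 13 (.mix 0 0 11 3 (.cond 1 0 (.contra [(1, 1), (8, 30), (7, 1), (4, 6)] 0) (.contra [(0, 2), (8, 15), (7, 43)] 175))) (.mix 0 1 13 13 (.mix 0 1 13 2 (.mix 2 2 13 0 (.mix 0 2 13 14 (.mix 0 2 13 2 (.mix 0 0 13 2 (.up 6 (.mix 0 0 4 3 (.cond 1 0 (.contra [(1, 1), (8, 270), (7, 7), (4, 42)] 0) (.contra [(0, 2), (8, 105), (7, 49)] 25))) (.mix 0 0 6 4 (.mix 0 1 6 12 (.mix 2 2 6 0 (.mix 0 0 6 3 (.mix 0 2 6 12 (.mix 0 0 6 12 (T111))))))) (.mix 0 1 4 14 (.mix 0 0 4 1 (.cond 1 0 (.contra [(1, 1), (8, 30), (7, 304)] 1150) (.contra [(0, 1), (8, 240), (7, 44), (4, 39)] 0)))) (.mix 0 0 6 10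 (.mix 1 2 5 12 (.mix 0 2 5 4 (.mix 0 0 5 11 (.cond 4 3 (.contra [(0, 1), (7, 27), (4, 4)] 175) (.cond 1 0 (.contra [(1, 1), (3, 4)] 0) (.contra [(0, 46), (10, 82125), (3, 947)] 40625))))))) (.mix 0 0 4 11 (.cond 1 0 (.contra [(0, 1), (8, 165), (4, 31)] 25) (.contra [(1, 1), (8, 15), (7, 112)] 325)))))))))) (.mix 0 0 13 2 (.cond 1 0 (.contra [(1, 1), (7, 31)] 100) (.contra [(0, 1), (7, 17)] 75))) (.mix 0 1 13 0 (.mix 0 0 13 3 (.mix 2 2 13 12 (.mix 0 0 13 12 (.cond 3 2 (.cond 1 0 (.contra [(0, 3), (6, 25), (3, 4)] 0) (.contra [(1, 1), (3, 1)] 0)) (.contra [(0, 1), (8, 75), (7, 25), (1, 3)] 0)))))) (.mix 0 0 11 11 (.cond 1 0 (.contra [(1, 1), (8, 15), (7, 4)] 25) (.contra [(0, 7), (8, 405), (4, 61)] 25))))))))))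

def T113 : Tr := .h2 7 23 (.mix 7 2 0 11 (.mix 7 2 0 0 (.mix 7 0 0 11 (.h2 7 23 (.mix 5 0 0 16 (.cond 6 0 (.contra [(0, 15), (20, 8370), (16, 1072), (14, 4699)] 0) (.contra [(1, 15), (20, 191640), (16, 10304), (14, 2468)] 0))) (.mix 7 1 0 2 (.mix 7 2 0 2 (.mix 7 1 2 7 (.h0 3 true (.mix 3 0 0 2 (.mix 3 0 0 2 (.cond 4 0 (.contra [(1, 1), (20, 118200), (16, 6976), (14, 2388)] 0) (.contra [(0, 14), (20, 429750), (16, 1785), (12, 5027)] 0)))) (.mix 3 1 0 14 (.mix 3 2 0 13 (.mix 3 1 2 18 (.h0 11 false (.mix 11 2 0 3 (.mix 11 0 0 3 (.mix 11 2 0 3 (.h0 7 true (.mix 7 1 0 11 (.mix 7 0 0 0 (.cond 8 0 (.contra [(1, 1), (20, 236400), (16, 13952), (14, 4776)] 0) (.contra [(0, 1), (20, 37450), (16, 1136), (14, 4223)] 0)))) (.mix 7 0 0 1 (.mix 6 0 1 15 (.cond 7 0 (.cond 9 1 (.contra [(1, 1), (10, 16), (8, 400)] 0) (.h2 6 18 (.mix 6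 0 0 10 (.mix 6 1 0 0 (.mix 6 0 0 10 (.cond 7 0 (.contra [(0, 3), (24, 83700), (20, 27401), (18, 13628)] 0) (.contra [(1, 1), (24, 638800), (20, 33924), (18, 9072)] 0))))) (.h0 3 true (.cond 4 0 (.contra [(0, 5), (24, 67270), (20, 4368), (18, 921)] 0) (.contra [(1, 1), (4, 1), (2, 1)] 0)) (.h0 1 true (.cond 2 0 (.contra [(0, 35), (24, 57920), (20, 357), (16, 1566)] 0) (.contra [(1, 5), (24, 47280), (20, 2684), (18, 1168)] 0)) (.h0 0 true (.cond 1 0 (.contra [(0, 35), (24, 68160), (20, 9093), (16, 734)] 0) (.contra [(1, 5), (24, 94560), (20, 5368), (18, 2336)] 0)) (.exc 32 0 2 ⟨-107, -1, 72, -316946625, -2962118, 213272495, 1584733767, 14810596, -1066362907⟩ ⟨15244, 45083, 1, 45154526655, 133541165390, 2962118, -225772724739, -667706097448, -14810596⟩ ⟨5, -40356, -23376, 14810590, -119539234008, -69242468351, -74052980,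 597696412176, 346212482011⟩ 1)))))) (.contra [(1, 15), (20, 766560), (16, 41216), (14, 9872)] 0)))))))) (.mix 11 0 0 14 (.cond 12 0 (.contra [(1, 1), (4, 2), (2, 50)] 0) (.contra [(0, 3), (20, 31500), (16, 1399), (14, 196)] 0))))))))))))))) (.mix 7 0 0 13 (.cond 8 0 (.contra [(1, 1), (4, 1), (2, 25)] 0) (.contra [(0, 1), (20, 4500), (16, 273), (14, 28)] 0)))

def T114 : Tr := .mix 11 1 0 1 (.mix 11 2 0 11 (.mix 11 0 2 16 (.up 54 (.mix 0 1 54 1 (.mix 0 0 54 4 (.mix 0 1 47 12 (.mix 0 1 45 3 (.mix 0 0 43 10 (.cond 1 0 (.contra [(1, 3), (16, 2400), (12, 512), (10, 776)] 0) (.contra [(0, 1), (16, 7650), (12, 432), (10, 11)] 0))))))) (.mix 0 0 54 4 (.mix 0 1 54 12 (.mix 0 1 47 3 (.mix 0 0 45 10 (.cond 1 0 (.contra [(0, 3), (16, 5850), (12, 368), (10, 419)] 0) (.contra [(1, 3), (16, 13800), (12, 704), (10, 32)] 0)))))) (.mix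 0 1 52 14 (.mix 0 1 52 11 (.mix 0 1 52 10 (.mix 0 1 52 4 (.mix 0 1 52 12 (.mix 0 1 15 3 (.mix 0 0 12 10 (.h0 15 false (.mix 15 2 0 10 (.mix 15 0 0 1 (.mix 3 1 0 4 (.cond 17 1 (.contra [(1, 3), (16, 43200), (12, 2576), (10, 1088)] 0) (.cond 19 3 (.h0 15 false (.mix 15 1 0 13 (.mix 15 0 0 14 (.mix 15 1 2 19 (T113)))) (.mix 15 0 0 4 (.cond 16 0 (.contra [(1, 1), (8, 2), (6, 50)] 0) (.contra [(0, 14), (20, 69950), (16, 3493), (12, 71)] 0)))) (.contra [(1, 1), (14, 16), (8, 16)] 0)))))) (.mix 13 0 0 16 (.cond 14 0 (.contra [(0, 5), (16, 3660), (12, 71), (10, 132)] 0) (.contra [(1, 5), (16, 15520), (12, 872), (10, 224)] 0))))))))))) (.mix 0 2 52 12 (.mix 0 0 52 12 (.mix 0 2 52 4 (.mix 0 2 52 1 (.mix 0 0 52 4 (.cond 1 0 (.contra [(1, 3), (16, 10800), (12, 344), (10, 272)] 0) (.contra [(0, 1), (16, 8000), (12, 405), (8, 6)] 0)))))))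 (.mix 0 1 54 12 (.mix 0 1 54 3 (.mix 0 0 47 10 (.cond 1 0 (.contra [(0, 1), (16, 1650), (12, 112), (10, 41)] 0) (.contra [(1, 1), (16, 1300), (12, 64), (10, 52)] 0))))))))

def T115 : Tr := .dn 14 (.mix 0 2 14 6 (.mix 0 0 14 19 (.cond 1 0 (.contra [(1, 5), (12, 1010), (8, 56), (6, 2)] 0) (.contra [(0, 5), (12, 720), (8, 32), (6, 19)] 0)))) (.mix 0 0 14 19 (.cond 1 0 (.contra [(0, 15), (12, 1305), (8, 88), (6, 46)] 0) (.contra [(1, 15), (12, 1185), (8, 46), (6, 7)] 0))) (.mix 0 1 14 18 (.mix 0 0 14 15 (.mix 2 2 11 19 (.mix 0 0 11 16 (.cond 1 0 (.cond 3 2 (.contra [(0, 168), (10, 2755), (6, 1065), (3, 1931)] 0) (.contra [(1, 1), (3, 1)] 0)) (.contra [(0, 24), (12, 4050), (6, 350), (1, 133)] 0)))))) (.mix 0 0 14 5 (.mix 0 2 14 6 (.mix 0 0 14 19 (.mix 0 1 14 7 (.mix 0 1 14 18 (.mix 0 1 6 6 (.h0 10 false (.mix 10 1 0 0 (.mix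 10 0 0 10 (.mix 10 1 2 19 (.cond 12 1 (.contra [(1, 7), (12, 32000), (8, 1120), (4, 32)] 0) (.cond 14 3 (.h0 44 false (.mix 44 1 0 11 (.mix 37 0 0 0 (.cond 38 0 (.contra [(1, 3), (16, 10800), (12, 644), (10, 272)] 0) (.contra [(0, 7), (16, 8000), (12, 105), (8, 22)] 0)))) (.mix 44 2 0 2 (.mix 37 1 0 2 (.mix 18 2 2 7 (.h0 3 false (.mix 3 0 0 2 (.mix 3 0 0 2 (.cond 4 0 (.contra [(1, 3), (16, 21600), (12, 1288), (10, 544)] 0) (.contra [(0, 7), (16, 8000), (12, 105), (8, 246)] 0)))) (.mix 3 2 0 13 (.mix 3 1 0 14 (.mix 3 2 2 19 (.h2 11 22 (T114) (.mix 11 0 0 3 (.cond 12 0 (.contra [(1, 1), (4, 1), (2, 25)] 0) (.contra [(0, 1), (16, 2250), (12, 112), (10, 63)] 0)))))))))))) (.contra [(1, 15), (14, 4320), (10, 256), (8, 112)] 0)))))) (.mix 8 2 0 15 (.mix 2 0 0 19 (.cond 3 0 (.contra [(1, 35), (12, 122320), (8, 6104), (4, 712)]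 0) (.contra [(0, 15), (12, 64290), (8, 4784), (6, 3203)] 0))))))))))) (.mix 0 0 9 6 (.cond 1 0 (.contra [(0, 5), (12, 395), (8, 27), (6, 9)] 0) (.contra [(1, 70), (12, 2860), (8, 77), (4, 31)] 0)))

def T116 : Tr := .h2 2 23 (.mix 2 0 0 4 (.mix 2 1 0 4 (.h0 2 false (.cond 3 0 (.contra [(0, 70), (10, 670), (6, 21), (2, 23)] 0) (.contra [(1, 15), (10, 1080), (6, 64), (4, 28)] 0)) (.mix 2 1 0 12 (.mix 2 1 0 12 (.dn 32 (.mix 0 1 32 8 (.mix 0 1 31 17 (.mix 0 0 11 17 (.cond 1 0 (.contra [(0, 5), (10, 190), (6, 16), (4, 7)] 0) (.contra [(1, 15), (10, 1260), (6, 64), (4, 28)] 0))))) (.mix 0 2 32 9 (.mix 0 0 31 6 (.cond 1 0 (.contra [(1, 5), (10, 90), (6, 8), (4, 6)] 0) (.contra [(0, 70), (10, 3030), (6, 147), (2, 1)] 0)))) (.mix 0 0 32 7 (.mix 0 2 31 19 (.mix 0 2 11 5 (.mix 0 0 9 18 (.cond 1 0 (.contra [(0, 15), (10, 2490), (6,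 112), (4, 19)] 0) (.contra [(1, 35), (10, 1720), (6, 112), (2, 16)] 0)))))) (.mix 0 2 32 16 (.mix 0 2 31 15 (.mix 0 2 11 18 (.mix 0 2 9 7 (.mix 0 2 7 19 (.mix 5 1 36 17 (.mix 0 1 35 9 (.mix 0 0 35 6 (.mix 0 1 35 5 (.mix 0 0 28 18 (.cond 3 2 (.h0 13 false (.cond 14 0 (.contra [(0, 70), (12, 2910), (8, 21), (4, 23)] 0) (.contra [(1, 15), (12, 2160), (8, 128), (6, 56)] 0)) (.mix 13 1 0 3 (.mix 13 1 0 3 (.mix 8 0 2 16 (T115))))) (.contra [(1, 15), (10, 420), (6, 32), (4, 44)] 0)))))))))))) (.mix 0 1 32 15 (.mix 0 0 31 8 (.mix 0 2 11 16 (.mix 0 2 9 15 (.mix 0 0 7 8 (.cond 1 0 (.contra [(0, 75), (6, 283), (4, 1909), (2, 393)] 0) (.cond 4 3 (.contra [(1, 28), (12, 1704), (4, 32), (3, 21)] 0) (.contra [(0, 8), (3, 1)] 0)))))))))))))) (.mix 2 2 0 0 (.mix 2 0 0 13 (.cond 3 0 (.contra [(1, 7), (10, 4000), (6, 140), (2, 4)] 0) (.contra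 [(0, 3), (10, 1650), (6, 112), (4, 91)] 0))))

def T117 : Tr := .up 8 (.mix 0 0 8 3 (.mix 0 1 8 0 (.mix 2 1 8 1 (.mix 0 0 8 4 (.cond 1 0 (.contra [(1, 1), (8, 30), (2, 4)] 10) (.dn 20 (.mix 0 0 19 18 (.mix 0 2 18 7 (.mix 0 2 18 19 (.mix 0 0 18 16 (.cond 1 0 (.contra [(0, 1), (10, 1250), (2, 19)] 866) (.contra [(1, 1), (10, 520), (2, 8)] 392)))))) (.mix 0 2 20 9 (.mix 0 0 19 6 (.cond 1 0 (.contra [(1, 1), (10, 254), (2, 4)] 182) (.contra [(0, 1), (10, 142), (2, 2)] 101)))) (.mix 0 0 20 7 (.mix 0 2 19 19 (.h0 20 false (.mix 15 2 0 1 (.mix 7 0 0 3 (.cond 8 0 (.contra [(0, 1), (10, 500), (2, 6)] 375) (.contra [(1, 1), (10, 3100), (2, 48)] 2200)))) (.mix 1 0 0 16 (.cond 2 0 (.contra [(0, 1), (10, 648), (2, 10)] 457) (.contra [(1, 1), (10, 4)] 16)))))) (.mix 0 1 19 17 (.mix 0 1 18 9 (.mix 0 0 18 6 (.cond 1 0 (.contra [(0, 1),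 (10, 42), (2, 1)] 42) (.contra [(1, 1), (10, 516), (2, 8)] 356))))) (.mix 0 1 20 15 (.mix 0 0 19 8 (.cond 1 0 (.contra [(1, 1), (10, 266), (2, 4)] 190) (.contra [(0, 1), (10, 118), (2, 2)] 85)))))))))) (.mix 0 2 8 0 (.mix 0 2 8 14 (.mix 2 0 8 4 (.mix 0 1 8 12 (.mix 0 0 8 12 (.mix 0 2 8 4 (.mix 0 2 7 1 (.cond 7 4 (.contra [(0, 6), (8, 175), (1, 7)] 225) (.h0 20 false (.mix 15 2 0 1 (.mix 7 0 0 1 (.cond 8 0 (.contra [(1, 1), (3, 4)] 0) (.contra [(0, 3), (6, 80), (4, 185), (3, 54)] 0)))) (.dn 24 (.mix 0 0 23 18 (.mix 0 2 22 7 (.mix 0 2 22 19 (.mix 0 0 22 16 (.cond 1 0 (.contra [(0, 25), (6, 195), (4, 536), (3, 132)] 0) (.contra [(1, 75), (6, 520), (4, 976), (3, 312)] 0)))))) (.mix 0 2 24 9 (.mix 0 0 23 6 (.cond 1 0 (.contra [(1, 25), (6, 40), (4, 84), (3, 18)] 0) (.contra [(0, 75), (6, 160), (4, 391), (3, 132)] 0)))) (.mix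 0 0 24 7 (.mix 0 2 23 19 (.mix 0 0 3 16 (.cond 1 0 (.contra [(0, 75), (6, 320), (4, 773), (3, 186)] 0) (.contra [(1, 75), (6, 160), (4, 244), (3, 108)] 0))))) (.mix 0 2 24 16 (.mix 0 2 23 15 (.mix 0 0 3 8 (.cond 1 0 (.contra [(0, 75), (6, 320), (4, 659), (3, 198)] 0) (.contra [(1, 75), (6, 160), (4, 472), (3, 84)] 0))))) (.mix 0 0 23 6 (.mix 0 1 22 5 (.mix 0 0 22 18 (.mix 0 2 22 7 (.mix 0 2 15 19 (.h0 16 false (.mix 16 1 0 11 (.mix 9 0 0 4 (.cond 10 0 (.contra [(1, 3), (6, 440), (4, 1280), (3, 384)] 0) (.contra [(0, 3), (6, 475), (4, 1000), (3, 252)] 0)))) (.mix 1 0 0 16 (.cond 2 0 (.contra [(1, 75), (6, 1000), (4, 2176), (3, 192)] 0) (.contra [(0, 25), (6, 725), (4, 2136), (3, 612)] 0))))))))))))))))))) (.mix 0 1 8 14 (.mix 0 1 8 11 (.mix 2 2 8 13 (.mix 0 0 8 0 (.mix 0 2 8 14 (.mix 0 0 8 1 (.mix 0 1 7 13 (.cond 4 3 (.contra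 [(1, 1), (8, 130), (4, 4)] 10) (.h0 20 false (.mix 15 2 0 1 (.mix 7 1 0 10 (T116))) (.mix 15 1 0 12 (.mix 7 0 0 14 (.cond 8 0 (.contra [(1, 7), (10, 2000), (6, 70), (2, 2)] 0) (.contra [(0, 3), (10, 1050), (6, 64), (4, 7)] 0))))))))))))) (.mix 0 2 8 12 (.mix 0 0 8 12 (.cond 1 0 (.contra [(0, 1), (8, 40), (2, 11)] 80) (.contra [(1, 1), (8, 90), (4, 4)] 30)))) (.mix 0 0 8 11 (.cond 1 0 (.contra [(0, 3), (8, 75), (4, 8), (2, 2)] 0) (.contra [(1, 1), (8, 5), (2, 6)] 35)))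

def T118 : Tr := .up 6 (.mix 0 2 6 14 (.mix 0 2 5 2 (.mix 2 1 7 1 (.mix 0 0 6 4 (.mix 0 1 6 12 (.mix 0 1 6 3 (.cond 3 2 (T107) (.h0 10 false (.mix 5 0 0 2 (.cond 6 0 (.contra [(1, 1), (3, 2)] 0) (.contra [(0, 1), (3, 6), (2, 10)] 75))) (.mix 5 2 0 13 (.h0 1 false (.cond 2 0 (.contra [(1, 5), (3, 12), (2, 16)] 120) (.contra [(0, 1), (3, 2), (2, 2)] 23)) (.mix 1 0 0 0 (.cond 2 0 (.contra [(1, 1), (3, 4)] 0) (.contra [(0, 1), (3, 14), (2, 18)] 175))))))))))))) (.mix 0 0 5 4 (.mix 0 1 4 12 (.mix 0 1 4 3 (.mix 0 0 4 10 (.cond 1 0 (.cond 4 3 (.contra [(1, 4), (6, 60), (3, 1)] 20) (.contra [(0, 8), (3, 1)] 0)) (.contra [(0, 2), (2, 57), (4, 43)] 16)))))) (.mix 0 0 6 2 (.mix 0 2 5 13 (.mix 2 2 7 13 (.mix 0 0 6 0 (.mix 0 1 6 1 (.mix 0 0 6 4 (.cond 6 5 (.contra [(0, 3), (4, 25), (1, 4)] 0) (.cond 3 2 (.contra [(1, 1), (3, 2)]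 0) (.dn 13 (.mix 0 0 12 18 (.mix 0 2 11 7 (.mix 0 2 11 19 (.mix 0 0 11 16 (.cond 1 0 (.contra [(0, 2), (6, 57), (5, 11)] 17) (.cond 4 3 (.contra [(0, 8), (3, 1)] 0) (.contra [(1, 1), (8, 15), (3, 1)] 25))))))) (.mix 0 1 12 5 (.mix 0 0 11 18 (.cond 1 0 (.contra [(0, 2), (6, 9), (5, 23)] 81) (.contra [(1, 25), (6, 240), (5, 18), (2, 52)] 0)))) (T112) (.mix 0 1 12 17 (.mix 0 1 11 9 (.mix 0 0 11 6 (.cond 1 0 (.contra [(1, 7), (6, 36), (2, 16)] 52) (.contra [(0, 25), (6, 1080), (5, 66), (2, 149)] 0))))) (.mix 0 0 12 6 (.mix 0 1 11 5 (.mix 0 0 11 18 (.cond 1 0 (.contra [(1, 1), (6, 6), (5, 14)] 38) (.contra [(0, 7), (6, 234), (2, 41)] 2)))))))))))))) (.mix 0 0 5 10 (.mix 0 2 4 11 (.mix 0 0 4 14 (.cond 1 0 (.contra [(1, 1), (2, 6), (4, 22)] 4) (.contra [(0, 2), (2, 21), (4, 7)] 24))))) (.mix 0 2 6 1 (.mix 0 0 5 4 (.mix 2 1 7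 12 (.mix 0 1 6 3 (.mix 0 0 6 10 (.mix 0 2 6 11 (.cond 2 1 (.contra [(1, 1), (2, 12), (4, 16)] 12) (.cond 5 4 (.contra [(1, 1), (4, 6), (6, 8)] 6) (.h0 7 false (.cond 8 0 (.contra [(0, 15), (8, 660), (4, 49), (2, 28)] 0) (.contra [(1, 1), (8, 16)] 16)) (.mix 1 0 0 14 (T117)))))))))))

def T119 : Tr := .up 77 (.mix 0 1 77 1 (.mix 0 1 77 13 (.mix 0 1 77 2 (.mix 0 0 77 2 (.mix 0 1 77 14 (.mix 0 1 77 11 (.mix 0 1 31 10 (.mix 0 0 28 13 (.mix 0 1 25 2 (.mix 0 1 22 14 (.mix 0 1 11 11 (.cond 4 3 (.contra [(1, 3), (18, 295200), (17, 262144), (14, 19856)] 0) (.h0 15 true (.mix 15 0 0 2 (.mix 15 1 0 11 (.mix 15 2 0 13 (.h0 23 false (.cond 24 0 (.contra [(0, 120), (20, 141615), (19, 119972), (16, 9997)] 0) (.contra [(1, 1), (6, 8)] 0)) (.mix 23 0 0 14 (.mix 23 2 0 14 (.mix 23 1 0 10 (.h2 7 23 (.mix 7 2 0 13 (.mix 7 1 0 10 (.mix 7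 0 0 0 (.cond 8 0 (.contra [(0, 437), (20, 16887875), (19, 17975140), (8, 181288)] 0) (.contra [(1, 3), (20, 1916400), (19, 1630208), (16, 128692)] 0))))) (.h0 4 false (.mix 4 1 0 11 (.mix 4 2 0 2 (.mix 4 0 0 13 (.cond 5 0 (.contra [(0, 24), (20, 1936575), (19, 16484), (16, 55741)] 0) (.contra [(1, 2), (20, 612925), (19, 557356), (16, 43319)] 0))))) (.mix 4 2 0 2 (.mix 4 0 0 1 (.mix 4 1 0 4 (.h0 3 false (.exc 40 0 5 ⟨4092, -1162601, 174306, -6388749565, 1815143361141, -272140122628, 7550341883, -2145169849567, 321620208308⟩ ⟨231, -34463, 11, -360655218, 53806323626, -17174058, 426228978, -63589304090, 20296618⟩ ⟨0, -829554, -829238, 0, 1295164410012, 1294671041592, 0, -1530649149852, -1530066077968⟩ 1) (.mix 3 2 0 13 (.mix 3 2 0 0 (.mix 3 0 0 11 (.cond 4 0 (.contra [(0, 8), (20, 1010325), (19, 673484), (16, 9791)] 0) (.contra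 [(1, 1), (20, 612925), (19, 557356), (16, 43319)] 0)))))))))))))))))) (.mix 15 1 0 14 (.mix 15 2 0 2 (.mix 15 1 0 14 (.mix 4 0 0 14 (.cond 5 0 (.contra [(1, 1), (2, 16)] 0) (.contra [(0, 3), (20, 3098700), (19, 2545664), (16, 165961)] 0))))))))))))))))))) (.mix 0 0 77 4 (.cond 1 0 (.contra [(1, 3), (18, 2325), (17, 1949), (14, 151)] 0) (.contra [(0, 4), (18, 75), (17, 704), (14, 21)] 0))) (.mix 0 2 77 13 (.mix 0 2 77 10 (.mix 0 0 77 13 (.mix 0 2 77 10 (.mix 0 0 77 13 (.cond 1 0 (.contra [(0, 1), (18, 4200), (17, 1024), (14, 151)] 0) (.contra [(1, 3), (18, 18300), (17, 18176), (14, 1024)] 0))))))) (.mix 0 0 77 10 (.mix 0 1 77 4 (.mix 0 0 77 11 (.mix 0 2 77 3 (.mix 0 2 77 12 (.mix 0 0 77 12 (.cond 1 0 (.contra [(0, 1), (18, 11300), (17, 14336), (14, 889)] 0) (.contra [(1, 3), (18, 19800), (17, 19456), (14, 2144)] 0))))))))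 (.mix 0 1 77 12 (.mix 0 0 77 12 (.mix 0 2 77 4 (.mix 0 2 77 1 (.mix 0 2 77 0 (.mix 0 2 77 14 (.mix 0 0 31 1 (.cond 1 0 (.contra [(1, 3), (18, 109200), (17, 77824), (14, 7376)] 0) (.contra [(0, 1), (14, 1250), (8, 21)] 0)))))))))

def T120 : Tr := .mix 0 1 6 5 (.mix 0 1 6 8 (.mix 0 1 6 17 (.mix 0 1 6 9 (.mix 0 0 6 6 (.mix 0 1 6 5 (.h0 68 true (.mix 23 2 0 5 (.mix 9 1 0 7 (.mix 3 0 0 18 (.cond 4 0 (.contra [(1, 15), (18, 143520), (17, 131072), (14, 10132)] 0) (.contra [(0, 15), (18, 32940), (17, 16384), (14, 329)] 0))))) (.mix 68 1 0 14 (.mix 62 0 0 10 (.mix 46 2 0 1 (.h0 3 true (.mix 3 1 0 11 (.mix 3 2 0 11 (.mix 3 2 0 0 (.h2 3 7 (.mix 3 0 0 14 (.cond 4 0 (.contra [(1, 1), (14, 16)] 0) (.contra [(0, 3), (18, 3300), (17, 2048), (14, 187)] 0))) (.mix 3 1 0 10 (.mix 3 0 0 14 (.mix 3 2 0 14 (.h0 3 true (.cond 4 0 (.contra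 [(0, 15), (18, 420), (17, 2048), (14, 43)] 0) (.contra [(1, 15), (18, 9360), (17, 8192), (14, 652)] 0)) (.mix 3 0 0 13 (.mix 3 1 0 11 (.mix 3 2 0 2 (.h2 48 52 (.mix 48 0 0 10 (.mix 48 2 0 1 (.mix 48 2 0 4 (.h0 3 false (.cond 4 0 (.contra [(0, 40), (18, 14085), (17, 15116), (14, 911)] 0) (.contra [(1, 1), (4, 4)] 0)) (.mix 3 2 0 11 (.mix 3 2 0 0 (.mix 3 0 0 11 (.h0 11 true (.cond 12 0 (.contra [(0, 15), (18, 4260), (17, 2048), (14, 43)] 0) (.contra [(1, 15), (18, 18720), (17, 16384), (14, 1304)] 0)) (.mix 11 1 0 2 (.mix 11 0 0 14 (.mix 11 0 0 2 (T119)))))))))))) (.mix 31 0 0 9 (.cond 32 0 (.contra [(1, 5), (18, 7985), (17, 6876), (14, 531)] 0) (.contra [(0, 40), (18, 2985), (17, 3836), (14, 891)] 0))))))))))))))) (.mix 3 0 0 1 (.cond 4 0 (.contra [(1, 1), (14, 8)] 0) (.contra [(0, 3), (18, 2100), (17, 2048), (14, 151)]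 0)))))))))))))

def T121 : Tr := .mix 0 1 59 8 (.mix 0 0 58 5 (.mix 0 1 58 8 (.mix 0 0 49 5 (.mix 0 2 48 6 (.mix 0 0 45 19 (.mix 6 0 64 18 (.mix 0 1 62 6 (.mix 0 1 62 5 (.mix 0 1 51 8 (.mix 0 1 37 17 (.mix 0 0 35 17 (.mix 0 2 20 8 (.mix 0 2 17 16 (.cond 14 7 (.dn 14 (.mix 0 0 14 18 (.mix 0 1 14 6 (.mix 0 1 14 5 (.mix 0 1 14 8 (.mix 0 0 14 5 (.cond 1 0 (.contra [(0, 5), (18, 2480), (17, 2048), (14, 163)] 0) (.contra [(1, 5), (18, 60), (17, 256), (14, 36)] 0))))))) (.mix 0 2 8 9 (.mix 0 0 8 6 (.cond 1 0 (.contra [(0, 1), (17, 25), (2, 21)] 0) (.contra [(1, 30), (18, 1365), (17, 1184), (14, 79)] 0)))) (.mix 0 0 8 7 (.cond 1 0 (.contra [(0, 120), (18, 1695), (17, 1772), (14, 157)] 0) (.contra [(1, 60), (18, 495), (17, 752), (14, 37)] 0))) (.mix 0 1 14 17 (.mix 0 0 14 17 (.mix 0 1 14 9 (.mix 0 1 14 15 (.mix 0 1 14 16 (.mix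 0 1 14 19 (.dn 6 (.mix 0 0 6 18 (.mix 0 1 6 6 (.mix 0 1 6 5 (.mix 0 0 6 18 (.cond 1 0 (.contra [(1, 5), (18, 4330), (17, 4288), (14, 278)] 0) (.contra [(0, 15), (18, 7470), (17, 8192), (14, 727)] 0)))))) (T120) (.mix 0 2 6 19 (.mix 0 2 6 5 (.mix 0 0 6 18 (.cond 1 0 (.contra [(1, 15), (18, 4245), (17, 3632), (14, 367)] 0) (.contra [(0, 15), (18, 7515), (17, 5504), (14, 424)] 0))))) (.mix 0 1 6 17 (.mix 0 0 6 17 (.cond 1 0 (.contra [(0, 30), (18, 6885), (17, 7136), (14, 541)] 0) (.contra [(1, 30), (18, 6195), (17, 3752), (14, 337)] 0)))) (.mix 0 0 6 6 (.cond 1 0 (.contra [(0, 60), (18, 3465), (17, 2224), (14, 119)] 0) (.contra [(1, 5), (18, 460), (17, 531), (14, 36)] 0)))))))))) (.mix 0 0 14 6 (.cond 1 0 (.contra [(0, 20), (18, 305), (17, 208), (14, 23)] 0) (.contra [(1, 10), (18, 105), (17, 38), (14, 3)] 0)))) (.contra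 [(1, 15), (15, 71), (12, 1)] 195)))))))))))))))

def T122 : Tr := .h0 3 true (.mix 3 2 0 3 (.mix 3 2 0 4 (.mix 3 2 0 12 (.cond 7 3 (.dn 59 (T121) (.mix 0 2 59 9 (.mix 0 2 58 17 (.mix 2 1 60 5 (.mix 0 1 58 8 (.dn 4 (.mix 0 2 4 6 (.mix 0 0 4 19 (.cond 1 0 (.contra [(0, 15), (15, 182), (12, 7)] 810) (.contra [(1, 5), (15, 302), (12, 2)] 910)))) (.mix 0 0 4 19 (.cond 1 0 (.contra [(1, 15), (15, 277), (12, 2)] 1110) (.contra [(0, 815), (15, 3197), (4, 12)] 4005))) (.mix 0 2 2 19 (.mix 0 0 2 16 (.cond 1 0 (.contra [(0, 30), (15, 1982), (12, 7)] 7035) (.contra [(1, 1), (16, 2), (15, 26)] 58)))) (.mix 0 0 4 5 (.cond 1 0 (.contra [(0, 1), (16, 2), (15, 11)] 53) (.contra [(1, 5), (15, 77), (12, 2)] 210))) (.mix 0 0 2 6 (.cond 1 0 (.contra [(1, 1), (16, 1), (15, 33)] 119) (.contra [(0, 10), (15, 128), (12, 3)] 215)))))))) (.mix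 0 0 59 7 (.mix 0 1 58 18 (.mix 0 1 58 6 (.mix 0 0 49 19 (.cond 1 0 (.contra [(0, 1), (16, 5), (15, 44)] 148) (.contra [(1, 1), (15, 8)] 56)))))) (.mix 0 2 59 16 (.mix 0 0 58 9 (.mix 0 1 58 15 (.mix 0 1 49 16 (.mix 0 0 48 9 (.cond 1 0 (.contra [(0, 1), (16, 24), (12, 1)] 0) (.contra [(1, 15), (15, 1648), (12, 8)] 5520))))))) (.mix 0 0 58 6 (.mix 0 2 56 9 (.mix 0 0 56 6 (.mix 0 2 45 9 (.mix 0 0 31 6 (.mix 0 2 29 9 (.mix 0 2 14 17 (.mix 0 0 11 17 (.cond 1 0 (.contra [(1, 5), (15, 1432), (12, 52)] 3620) (.contra [(0, 2), (16, 109), (15, 858)] 3653))))))))))) (.contra [(1, 3), (13, 316), (10, 2)] 1242))))) (.mix 3 1 0 10 (.mix 3 1 0 3 (.mix 3 0 0 10 (.cond 4 0 (.contra [(1, 1), (6, 8)] 0) (.contra [(0, 2), (14, 1335), (13, 41198)] 150335)))))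

def T123 : Tr := .h0 2 false (.mix 2 1 0 4 (.mix 2 1 0 12 (.up 16 (.mix 0 1 16 1 (.mix 0 0 16 4 (.mix 0 2 16 1 (.mix 0 0 16 4 (.mix 0 2 16 1 (.mix 0 0 16 4 (.mix 6 0 16 3 (.mix 0 2 16 12 (.mix 0 0 16 12 (.mix 0 1 16 3 (.mix 0 0 14 10 (.mix 0 2 12 11 (.cond 2 1 (.contra [(1, 1), (8, 290), (7, 1652)] 6290) (.cond 7 6 (.contra [(1, 3), (9, 11296), (6, 164)] 31200) (.h2 15 18 (.mix 15 1 0 12 (.mix 15 1 0 3 (.mix 3 0 0 14 (.cond 4 0 (.contra [(1, 1), (4, 4)] 0) (.contra [(0, 6), (11, 41654), (8, 661)] 109425))))) (.mix 15 0 0 11 (.mix 15 0 0 12 (.mix 3 2 0 3 (.cond 17 1 (T122) (.contra [(1, 3), (11, 6832), (8, 8)] 23400)))))))))))))))))))) (.mix 0 2 10 0 (.mix 0 0 10 3 (.mix 0 1 10 0 (.mix 0 1 10 1 (.mix 0 0 8 4 (.cond 1 0 (.contra [(0, 2), (8, 755), (7, 3014)] 9755) (.contra [(1, 3), (7, 2216), (4, 4)] 11700))))))) (.mix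 0 2 16 13 (.mix 0 0 16 0 (.cond 1 0 (.contra [(1, 1), (8, 10), (7, 258)] 1010) (.contra [(0, 1), (8, 45), (7, 86)] 170)))) (.mix 0 0 16 10 (.cond 1 0 (.contra [(0, 3), (7, 523), (4, 2)] 1725) (.contra [(1, 2), (7, 50), (3, 3)] 0))) (.mix 0 0 10 11 (.mix 0 1 10 10 (.mix 0 1 10 4 (.mix 0 1 10 12 (.mix 0 1 8 3 (.mix 0 0 6 10 (.cond 1 0 (.contra [(1, 1), (7, 3712), (4, 48)] 12400) (.contra [(0, 2), (8, 1395), (7, 2086)] 10395))))))))))) (.mix 2 2 0 11 (.mix 2 0 0 11 (.cond 3 0 (.contra [(0, 2), (8, 155), (7, 54)] 1155) (.contra [(1, 3), (7, 3416), (4, 4)] 11700))))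

def T124 : Tr := .mix 4 1 0 10 (.h0 1 true (.cond 2 0 (.contra [(0, 1), (6, 36), (4, 11)] 4) (.contra [(1, 1), (4, 4)] 0)) (.mix 1 0 0 13 (.cond 2 0 (.contra [(1, 1), (3, 112)] 400) (.h0 11 false (.mix 5 2 0 3 (.h0 3 true (.cond 4 0 (.contra [(0, 15), (5, 656), (2, 1)] 2160) (.contra [(1, 1), (6, 8)] 0)) (.mix 3 1 0 2 (.up 14 (.mix 0 0 11 3 (.cond 1 0 (.contra [(1, 1), (6, 5), (5, 17)] 55) (.contra [(0, 6), (5, 140), (2, 1)] 525))) (.mix 0 1 14 13 (.mix 0 0 14 0 (.mix 0 1 14 1 (.mix 0 0 10 4 (.cond 1 0 (.contra [(1, 1), (6, 20), (5, 72)] 120) (.contra [(0, 1), (6, 35), (5, 116)] 460)))))) (.mix 0 0 14 2 (.cond 1 0 (.contra [(1, 1), (5, 31)] 100) (.contra [(0, 1), (5, 17)] 75))) (.mix 0 1 14 0 (.mix 0 1 14 1 (.mix 0 0 14 4 (.mix 0 1 10 12 (.mix 0 0 9 12 (.mix 0 1 6 3 (.mix 6 2 17 12 (.mix 0 2 17 4 (.mix 0 0 17 11 (.mix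 0 1 12 10 (.cond 8 7 (.contra [(0, 1), (6, 425), (1, 22)] 800) (.h2 14 26 (.mix 14 0 0 10 (.mix 2 1 0 4 (T123))) (.mix 14 2 0 12 (.mix 2 0 0 13 (.cond 3 0 (.contra [(0, 2), (7, 74), (4, 11)] 175) (.contra [(1, 3), (7, 1708), (4, 2)] 5850)))))))))))))))) (.mix 0 2 14 1 (.mix 0 0 14 4 (.cond 1 0 (.contra [(1, 3), (5, 46), (2, 2)] 150) (.contra [(0, 3), (5, 158), (2, 1)] 450)))))))) (.mix 5 0 0 14 (.cond 6 0 (.contra [(1, 1), (5, 8)] 0) (.contra [(0, 2), (6, 15), (5, 62)] 215)))))))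

def T125 : Tr := .dn 6 (.mix 0 2 6 6 (.mix 0 0 6 19 (.cond 1 0 (.contra [(0, 500), (10, 54300), (7, 349), (4, 1968)] 0) (.contra [(1, 250), (10, 29700), (7, 21), (4, 1372)] 0)))) (.mix 0 1 3 5 (.mix 0 0 3 18 (.cond 1 0 (.contra [(1, 250), (10, 40800), (7, 219), (4, 1808)] 0) (.contra [(0, 500), (10, 51450), (7, 11), (4, 2802)] 0)))) (.mix 0 1 6 18 (.mix 0 0 6 15 (.mix 2 2 5 19 (.mix 0 0 5 16 (.cond 3 2 (.cond 1 0 (.contra [(0, 72), (12, 85200), (9, 2375), (3, 4574)] 0) (.contra [(1, 1), (3, 1)] 0)) (.contra [(0, 500), (10, 80100), (7, 243), (4, 3376)] 0)))))) (.mix 0 0 6 5 (.cond 1 0 (.contra [(0, 125), (10, 7800), (7, 54), (4, 403)] 0) (.contra [(1, 500), (10, 26400), (7, 77), (4, 864)] 0))) (.mix 0 2 6 17 (.mix 0 2 6 8 (.mix 0 2 6 16 (.mix 3 0 6 6 (.mix 0 1 6 5 (.mix 0 0 6 18 (.cond 6 2 (.contra [(1, 500), (10, 44100),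 (7, 163), (4, 2316)] 0) (.dn 6 (.mix 0 2 6 6 (.mix 0 0 6 19 (.cond 1 0 (.contra [(1, 250), (12, 107700), (9, 961), (6, 4452)] 0) (.contra [(0, 500), (12, 128700), (9, 741), (6, 10912)] 0)))) (.mix 0 0 6 19 (.mix 1 2 4 9 (.mix 0 0 4 6 (.mix 0 2 4 9 (.cond 4 3 (.contra [(0, 159), (6, 125), (4, 2670), (2, 1472)] 0) (.h0 36 false (.mix 13 0 0 17 (.mix 7 1 0 6 (.mix 3 0 0 6 (.cond 4 0 (.contra [(0, 208), (14, 1554000), (11, 625), (3, 15404)] 0) (.contra [(1, 12), (14, 354000), (11, 625), (3, 3532)] 0))))) (.mix 30 0 0 10 (.cond 31 0 (.contra [(0, 208), (14, 45360), (11, 7), (3, 500)] 0) (.contra [(1, 12), (14, 9840), (11, 19), (3, 100)] 0))))))))) (.mix 0 1 6 18 (.mix 0 0 6 15 (.cond 1 0 (.contra [(1, 250), (12, 116100), (9, 873), (6, 7036)] 0) (.contra [(0, 500), (12, 95100), (9, 1093), (6, 576)] 0)))) (.mix 0 0 6 5 (.cond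 1 0 (.contra [(0, 104), (12, 1980), (9, 125), (4, 1084)] 0) (.contra [(1, 59), (12, 5115), (6, 500), (4, 117)] 0))) (.mix 0 2 6 17 (.mix 0 2 6 8 (.mix 0 0 6 5 (.cond 1 0 (.contra [(0, 500), (12, 135300), (9, 2779), (6, 10728)] 0) (.contra [(1, 125), (12, 212100), (9, 903), (6, 8996)] 0)))))))))))))

def T126 : Tr := .up 19 (.mix 0 1 16 1 (.mix 0 0 16 4 (.cond 1 0 (.contra [(0, 219), (12, 228000), (9, 3268), (2, 8125)] 0) (.contra [(1, 146), (12, 174000), (9, 2421), (2, 5000)] 0)))) (.mix 0 1 19 13 (.mix 0 1 19 2 (.mix 0 1 19 14 (.mix 0 0 14 1 (.cond 1 0 (.contra [(1, 73), (12, 399600), (9, 6078), (2, 14000)] 0) (.contra [(0, 876), (12, 663900), (9, 19787), (2, 26000)] 0)))))) (.mix 0 0 19 2 (.mix 0 1 19 14 (.mix 0 0 19 1 (.cond 1 0 (.contra [(1, 73), (12, 12900), (9, 674), (2, 1000)] 0) (.contra [(0, 876), (12, 2751900),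 (9, 40079), (2, 86000)] 0))))) (.mix 0 0 16 10 (.cond 1 0 (.contra [(0, 292), (12, 112800), (9, 2011), (2, 4500)] 0) (.contra [(1, 876), (12, 547800), (9, 7151), (2, 17000)] 0))) (.mix 0 2 19 1 (.mix 0 2 19 0 (.mix 0 0 19 3 (.mix 0 2 14 12 (.mix 4 1 20 12 (.mix 0 1 20 3 (.up 6 (.mix 0 0 6 3 (.mix 0 2 6 12 (.mix 0 0 6 12 (.mix 0 2 6 4 (.mix 4 1 6 1 (.mix 0 0 6 4 (.cond 1 0 (.contra [(1, 438), (12, 1405200), (9, 22813), (2, 58000)] 0) (.h0 26 true (.cond 27 0 (.contra [(0, 800), (11, 33439), (4, 27475), (2, 2113)] 0) (.contra [(1, 600), (11, 3799), (4, 3275), (2, 233)] 0)) (.mix 26 2 0 0 (.mix 26 2 0 0 (.mix 12 2 0 4 (.mix 6 0 0 11 (.cond 7 0 (.contra [(1, 24), (11, 245225), (4, 203125), (2, 15319)] 0) (.contra [(0, 32), (11, 86625), (4, 78125), (2, 5439)] 0)))))))))))))) (.mix 0 0 2 4 (.cond 1 0 (.contra [(0, 292), (12,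 583200), (9, 8403), (2, 15500)] 0) (.contra [(1, 876), (12, 1591800), (9, 17297), (2, 47000)] 0))) (.mix 0 2 2 13 (.mix 0 0 2 0 (.cond 1 0 (.contra [(1, 146), (12, 277200), (9, 6353), (2, 13000)] 0) (.contra [(0, 219), (12, 566400), (9, 7111), (2, 21625)] 0)))) (.mix 0 0 2 10 (.cond 1 0 (.contra [(0, 876), (12, 2323200), (9, 28963), (2, 65500)] 0) (.contra [(1, 292), (12, 148200), (9, 3263), (2, 3000)] 0))) (.mix 0 0 6 11 (.cond 1 0 (.contra [(0, 219), (12, 206175), (9, 2227), (2, 3250)] 0) (.contra [(1, 292), (12, 1147200), (9, 16633), (2, 38000)] 0))))))))))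

def T127 : Tr := .dn 23 (.mix 0 1 23 8 (.mix 0 0 22 5 (.mix 0 1 22 8 (.mix 0 0 6 5 (.cond 1 0 (.contra [(1, 1), (8, 12), (10, 96), (5, 1)] 0) (.up 14 (.mix 0 1 11 1 (.mix 0 0 11 4 (.cond 1 0 (.contra [(0, 304), (10, 580500), (7, 12513), (2, 32500)] 0) (.contra [(1, 76), (10, 151500), (7, 3101), (2, 7500)] 0)))) (.mix 0 1 14 13 (.mix 0 1 14 2 (.mix 0 1 14 14 (.mix 0 0 9 1 (.cond 1 0 (.contra [(1, 19), (10, 189300), (7, 4159), (2, 10500)] 0) (.contra [(0, 19), (10, 27600), (7, 828), (2, 1625)] 0)))))) (.mix 0 0 14 2 (.mix 0 1 14 14 (.mix 0 0 14 1 (.cond 1 0 (.contra [(1, 38), (10, 18900), (7, 719), (2, 1500)] 0) (.contra [(0, 38), (10, 206700), (7, 4377), (2, 10750)] 0))))) (.mix 0 0 11 10 (.cond 1 0 (.contra [(0, 304), (10, 227100), (7, 5407), (2, 13500)] 0) (.contra [(1, 152), (10, 164100), (7, 3327), (2, 8500)] 0)))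 (.mix 0 2 14 1 (.mix 1 1 12 12 (.mix 0 1 12 3 (.up 3 (.mix 0 1 2 1 (.mix 0 0 2 4 (.cond 1 0 (.contra [(1, 19), (10, 119850), (7, 2769), (2, 7250)] 0) (.contra [(0, 304), (10, 75300), (7, 7237), (2, 10500)] 0)))) (.mix 0 0 2 4 (.cond 1 0 (.contra [(0, 304), (10, 984900), (7, 20161), (2, 46500)] 0) (.contra [(1, 152), (10, 467100), (7, 8769), (2, 23500)] 0))) (.mix 0 2 2 13 (.mix 0 0 2 0 (.cond 1 0 (.contra [(1, 76), (10, 302700), (7, 8093), (2, 19500)] 0) (.contra [(0, 304), (10, 1488900), (7, 31101), (2, 86500)] 0)))) (.mix 0 0 2 10 (.cond 1 0 (.contra [(0, 304), (10, 1338300), (7, 26127), (2, 65500)] 0) (.contra [(1, 152), (10, 113700), (7, 2803), (2, 4500)] 0))) (.mix 0 0 3 11 (.cond 1 0 (.contra [(0, 152), (10, 195900), (7, 3141), (2, 6500)] 0) (.contra [(1, 1), (10, 6975), (7, 149), (2, 375)] 0))))))))))))) (.mix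 0 2 23 9 (.mix 0 2 22 17 (.mix 0 0 22 17 (.mix 3 1 25 5 (.mix 0 1 23 8 (.mix 0 1 23 17 (.cond 4 3 (T125) (.contra [(1, 125), (8, 2100), (5, 3), (2, 196)] 0)))))))) (.mix 0 0 23 7 (.mix 0 1 22 18 (.mix 0 1 22 6 (.mix 0 0 6 19 (.cond 1 0 (.contra [(0, 500), (8, 47100), (5, 133), (2, 2856)] 0) (.contra [(1, 9), (8, 192), (10, 488), (5, 8)] 0)))))) (.mix 0 1 22 17 (.mix 0 0 20 17 (.cond 1 0 (.contra [(1, 250), (8, 3300), (5, 29), (2, 228)] 0) (.contra [(0, 18), (8, 177), (10, 379), (5, 4)] 0)))) (.mix 0 1 23 15 (.mix 0 1 22 16 (.mix 0 1 22 19 (.mix 0 1 6 7 (.mix 4 0 26 6 (.mix 0 2 24 9 (.cond 6 1 (.contra [(1, 12), (8, 60), (10, 76), (5, 1)] 0) (.dn 6 (.mix 0 0 6 18 (.mix 0 2 6 7 (.mix 0 2 6 19 (.mix 0 0 6 16 (.cond 1 0 (.contra [(1, 1), (10, 120), (2, 16)] 0) (.contra [(0, 500), (10, 336300), (7, 1129), (4, 17928)] 0))))))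 (.mix 0 1 6 5 (.mix 0 0 6 18 (.cond 1 0 (.contra [(1, 250), (10, 29100), (7, 203), (4, 1596)] 0) (.contra [(0, 12), (10, 105), (4, 25), (2, 62)] 0)))) (.mix 0 2 6 19 (.mix 0 0 6 16 (.mix 0 2 6 15 (.mix 0 0 6 8 (.cond 1 0 (.contra [(1, 125), (10, 54300), (7, 269), (4, 3408)] 0) (.contra [(0, 500), (10, 270900), (7, 447), (4, 11704)] 0)))))) (.mix 0 2 2 16 (.mix 0 0 2 9 (.cond 1 0 (T126) (.contra [(1, 250), (10, 48300), (7, 189), (4, 2348)] 0)))) (.mix 0 0 6 6 (.cond 1 0 (.contra [(1, 500), (10, 7200), (7, 51), (4, 832)] 0) (.contra [(0, 125), (10, 6900), (7, 2), (4, 339)] 0)))))))))))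

def T128 : Tr := .dn 3 (.mix 0 2 3 6 (.mix 0 0 3 19 (.cond 1 0 (.contra [(1, 46), (8, 16296), (6, 5868), (5, 89)] 0) (.contra [(0, 8), (8, 960), (6, 875), (2, 33)] 0)))) (.mix 0 0 3 19 (.cond 1 0 (.contra [(0, 32), (6, 1115), (5, 20), (2, 361)] 0) (.h0 26 false (.mix 20 1 0 0 (.mix 14 0 0 10 (.cond 15 0 (.contra [(1, 6), (10, 92100), (7, 173), (3, 1000)] 0) (.contra [(0, 216), (10, 653700), (7, 749), (3, 7000)] 0)))) (.mix 20 0 0 10 (.cond 21 0 (.contra [(0, 72), (10, 18060), (7, 7), (3, 200)] 0) (.contra [(1, 54), (10, 127500), (7, 247), (3, 1400)] 0)))))) (.mix 0 1 3 18 (.mix 0 0 3 15 (.cond 1 0 (.contra [(1, 46), (8, 16728), (6, 7724), (5, 27)] 0) (.contra [(0, 46), (8, 7824), (6, 1542), (5, 91)] 0)))) (.mix 0 0 3 5 (.cond 1 0 (.contra [(0, 16), (8, 1920), (6, 375), (2, 61)] 0) (.h2 28 29 (.mix 23 2 0 2 (.mix 10 1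 1 9 (.h0 2 false (.mix 2 0 0 2 (.mix 2 1 1 15 (.h2 2 5 (.mix 1 0 0 8 (.cond 2 0 (.contra [(0, 4), (8, 2475), (4, 453), (3, 64)] 0) (.contra [(1, 1), (4, 8)] 0))) (.mix 2 1 0 14 (.h0 1 true (.cond 2 0 (.contra [(1, 5), (8, 2315), (4, 437), (3, 64)] 0) (.contra [(0, 20), (8, 1995), (4, 357), (3, 64)] 0)) (.mix 1 0 0 1 (.cond 2 0 (.contra [(1, 5), (8, 7265), (4, 1311), (3, 192)] 0) (.contra [(0, 20), (8, 1355), (4, 37), (3, 64)] 0)))))))) (.mix 1 0 0 6 (.cond 2 0 (.contra [(0, 4), (8, 2275), (4, 429), (3, 64)] 0) (.contra [(1, 1), (4, 4)] 0)))))) (.mix 23 0 0 1 (.mix 17 2 0 10 (.h0 2 true (.cond 3 0 (.contra [(0, 20), (8, 2285), (4, 427), (3, 64)] 0) (.contra [(1, 1), (8, 4)] 0)) (.mix 2 2 0 0 (.mix 2 0 0 13 (.cond 3 0 (.contra [(1, 5), (8, 14030), (4, 2622), (3, 384)] 0) (.contra [(0, 20), (8, 6015), (4, 1561), (3, 192)]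 0)))))))))) (.mix 0 2 3 17 (.mix 0 2 3 8 (.mix 0 0 3 5 (.cond 1 0 (.contra [(0, 23), (8, 3936), (6, 3813), (5, 74)] 0) (.contra [(1, 4), (8, 5760), (6, 1625), (2, 3)] 0)))))

def T129 : Tr := .dn 20 (.mix 0 1 20 8 (.mix 0 0 19 5 (.mix 0 1 19 8 (.mix 3 0 22 18 (.mix 0 1 20 6 (.mix 0 1 20 5 (.h0 21 false (.mix 15 1 0 0 (.mix 9 0 0 10 (.mix 3 1 2 8 (.cond 11 1 (.contra [(1, 1), (6, 618), (8, 14), (4, 192)] 0) (.dn 10 (.mix 0 1 7 8 (.mix 0 1 7 17 (.mix 0 1 7 9 (.mix 0 0 4 6 (.cond 1 0 (.contra [(1, 133), (8, 65640), (6, 24024), (2, 32)] 0) (.contra [(0, 2), (8, 711), (10, 193), (6, 156)] 0)))))) (.mix 0 1 10 5 (.mix 0 1 10 8 (.mix 0 1 10 17 (.h2 31 32 (.mix 12 1 0 17 (.mix 2 1 0 9 (.h0 2 false (.mix 2 0 0 17 (.cond 3 0 (.contra [(1, 1), (8, 192), (10, 16), (6, 72)] 0) (.contra [(0, 1), (8, 144), (10, 12), (6, 29)] 0))) (.mix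 2 1 0 9 (.mix 2 0 0 6 (.cond 3 0 (.contra [(0, 1), (8, 336), (10, 188), (6, 21)] 0) (.contra [(1, 1), (8, 192), (10, 336), (6, 112)] 0))))))) (.mix 12 0 0 5 (.cond 13 0 (.contra [(1, 1), (8, 96), (10, 8), (6, 36)] 0) (.contra [(0, 28), (8, 213), (10, 4179), (2, 26)] 0))))))) (.mix 0 2 10 19 (.mix 0 2 10 5 (.mix 0 0 10 18 (.cond 1 0 (.contra [(1, 399), (8, 30300), (6, 11788), (2, 184)] 0) (.contra [(0, 1), (8, 288), (10, 24), (6, 83)] 0))))) (.mix 0 1 10 17 (.mix 0 0 10 17 (.cond 1 0 (.contra [(1, 1), (8, 132), (10, 26), (6, 42)] 0) (.contra [(0, 133), (8, 2670), (6, 2359), (2, 12)] 0)))) (.mix 0 0 10 6 (.cond 1 0 (.contra [(0, 14), (8, 51), (10, 4263), (2, 22)] 0) (.contra [(1, 1), (8, 9), (10, 2), (6, 9)] 0)))))))) (.mix 1 0 0 18 (.cond 2 0 (.contra [(0, 2), (6, 159), (8, 57), (4, 44)] 0) (.contra [(1, 23), (6, 1260),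 (4, 384), (3, 7)] 0)))))))))) (.mix 0 2 20 9 (.mix 0 2 19 17 (.mix 0 0 19 17 (.mix 3 1 22 5 (.mix 0 1 20 8 (.cond 3 2 (.dn 5 (.mix 0 2 5 6 (.mix 0 0 5 19 (.cond 1 0 (.contra [(0, 46), (8, 4272), (6, 1206), (5, 13)] 0) (.contra [(1, 8), (8, 480), (6, 175), (2, 21)] 0)))) (.mix 0 1 2 5 (.mix 0 0 2 18 (.cond 1 0 (.contra [(1, 23), (8, 3162), (6, 986), (5, 3)] 0) (.contra [(0, 32), (8, 1200), (6, 675), (2, 97)] 0)))) (.mix 0 1 5 18 (.mix 0 0 5 15 (.cond 1 0 (.contra [(1, 2), (8, 24), (6, 12), (5, 1)] 0) (.contra [(0, 8), (8, 960), (6, 275), (2, 9)] 0)))) (.mix 0 0 5 5 (.cond 1 0 (.contra [(0, 92), (8, 4656), (6, 1808), (5, 9)] 0) (.contra [(1, 8), (8, 360), (6, 75), (2, 1)] 0))) (.mix 0 2 5 17 (.mix 0 2 5 8 (.mix 0 2 5 16 (T128))))) (.contra [(1, 1), (8, 12), (4, 4)] 0))))))) (.mix 0 2 19 19 (.mix 0 2 17 5 (.mix 0 0 17 18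 (.cond 1 0 (.contra [(0, 184), (6, 4332), (4, 2072), (3, 21)] 0) (.contra [(1, 1), (6, 36), (8, 16), (4, 12)] 0))))) (.mix 0 1 19 17 (.mix 0 0 17 17 (.cond 1 0 (.contra [(1, 46), (6, 456), (4, 252), (3, 1)] 0) (.contra [(0, 2), (6, 57), (8, 3), (4, 16)] 0)))) (.mix 0 0 19 6 (.cond 1 0 (.contra [(1, 8), (8, 84), (3, 1)] 0) (.h0 16 false (.mix 10 1 0 0 (.mix 4 0 0 10 (.cond 5 0 (.contra [(1, 9), (8, 5604), (6, 1756), (2, 28)] 0) (.contra [(0, 3), (8, 69), (6, 91), (2, 133)] 0)))) (.mix 10 0 0 10 (.mix 4 1 0 0 (.cond 12 1 (.h0 2 false (.cond 3 0 (.contra [(0, 59), (8, 960), (4, 872), (2, 123)] 0) (.contra [(1, 59), (8, 128), (4, 368), (2, 40)] 0)) (.mix 2 2 0 11 (.mix 2 0 0 3 (.cond 3 0 (.contra [(1, 59), (8, 30080), (4, 29840), (2, 3736)] 0) (.contra [(0, 59), (8, 7360), (4, 2280), (2, 117)] 0))))) (.contra [(1, 46), (8,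 3300), (6, 1400), (5, 3)] 0)))))))

def T130 : Tr := .up 6 (.mix 0 2 6 14 (.mix 0 0 5 1 (.mix 2 1 7 1 (.mix 0 1 5 13 (.mix 0 0 5 0 (.cond 4 3 (.contra [(0, 3), (4, 60), (2, 25), (1, 1)] 0) (.cond 1 0 (.contra [(1, 1), (3, 2)] 0) (.contra [(0, 8), (6, 330), (3, 53)] 250)))))))) (.mix 0 1 6 13 (.mix 0 1 5 2 (.mix 0 0 5 2 (.mix 3 0 8 4 (.cond 2 1 (.cond 4 0 (.contra [(0, 4), (6, 30), (8, 50), (3, 3)] 0) (.contra [(1, 4), (3, 1)] 0)) (.contra [(0, 3), (2, 25), (1, 4)] 0)))))) (.mix 0 0 6 2 (.mix 0 1 5 14 (.mix 0 1 5 11 (.mix 3 2 8 13 (.mix 0 2 6 10 (.mix 0 2 6 11 (.cond 6 5 (.contra [(0, 3), (6, 25), (1, 4)] 0) (.h2 9 10 (.mix 4 0 0 14 (.cond 5 0 (.contra [(1, 1), (3, 56)] 200) (.contra [(0, 1), (6, 15), (3, 7)] 0))) (T124))))))))) (.mix 0 1 6 0 (.mix 0 0 5 3 (.cond 1 0 (.contra [(1, 1), (4, 12), (6, 2), (2, 6)] 0) (.contra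 [(0, 1), (4, 3), (6, 1)] 7)))) (.mix 0 2 6 1 (.mix 0 2 5 0 (.mix 0 2 5 14 (.mix 3 1 8 12 (.mix 0 0 6 12 (.mix 0 1 6 3 (.up 6 (.mix 0 0 6 3 (.mix 0 2 6 12 (.mix 0 2 6 4 (.mix 3 1 6 1 (.mix 0 1 6 13 (.mix 0 0 6 0 (.cond 1 0 (.cond 6 5 (.h2 16 17 (.mix 11 2 0 2 (.mix 5 0 0 11 (.cond 6 0 (.contra [(1, 1), (2, 8)] 0) (.contra [(0, 4), (8, 300), (10, 1000), (5, 17)] 0)))) (.mix 11 0 0 1 (.mix 5 2 0 1 (T127)))) (.contra [(1, 4), (3, 1)] 0)) (.contra [(0, 2), (4, 270), (2, 43)] 33)))))))) (.mix 0 2 6 0 (.mix 0 0 6 3 (.cond 1 0 (.contra [(1, 1), (4, 108), (6, 14), (2, 42)] 0) (.contra [(0, 1), (4, 21), (6, 43)] 1)))) (.mix 0 1 6 14 (.mix 0 0 6 1 (.cond 1 0 (.contra [(1, 1), (4, 6), (6, 68)] 26) (.contra [(0, 1), (4, 30), (2, 19)] 14)))) (.mix 0 2 6 12 (.mix 0 2 6 4 (.mix 0 0 6 11 (.cond 1 0 (.contra [(0, 1), (4, 96), (6, 88),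 (2, 39)] 0) (.contra [(1, 1), (4, 12), (6, 56)] 92))))) (.mix 0 0 6 11 (.mix 0 1 6 10 (.mix 0 0 6 13 (.mix 3 1 6 12 (.mix 0 0 6 12 (.mix 0 1 6 3 (.cond 4 3 (T129) (.contra [(0, 68), (4, 2700), (1, 121)] 9500)))))))))))))))

def T131 : Tr := .mix 0 0 75 3 (.mix 0 2 75 12 (.mix 0 0 75 12 (.mix 0 2 75 4 (.mix 0 0 75 11 (.mix 0 1 66 10 (.mix 0 0 61 13 (.mix 0 1 51 2 (.mix 0 0 47 2 (.mix 9 1 79 1 (.mix 0 0 79 4 (.mix 0 1 79 12 (.mix 0 0 79 12 (.mix 0 2 79 4 (.mix 0 0 79 11 (.mix 0 1 64 10 (.mix 0 0 50 13 (.cond 1 0 (.contra [(0, 449341), (8, 3522086875), (2, 40960000), (1, 10305998)] 0) (.cond 9 8 (.contra [(1, 1), (34, 474432), (36, 45936), (32, 149908)] 0) (.h2 27 41 (.mix 27 0 0 14 (.cond 28 0 (.contra [(1, 1), (10, 1), (8, 25)] 0) (.contra [(0, 2), (36, 12957), (38, 2931), (34, 6268)] 0))) (.mix 27 1 0 10 (.mix 27 1 0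 1 (.mix 27 1 0 3 (.h2 35 40 (.mix 35 1 0 3 (.mix 35 1 0 3 (.mix 35 0 0 4 (.cond 36 0 (.contra [(1, 7), (14, 3200), (2, 24)] 0) (.contra [(0, 4), (36, 93501), (38, 1680883), (32, 290202)] 0))))) (.mix 35 2 0 4 (.mix 35 2 0 4 (.mix 35 2 0 0 (.h0 7 true (.mix 7 1 0 4 (.mix 7 0 0 4 (.mix 7 1 0 0 (.h0 7 true (.h2 4 12 (.exc 10 0 1 ⟨-654, -28, 4, 68292615, 2923841, -417692, -478048305, -20466887, 2923844⟩ ⟨-9, 1, -10, 939808, -104423, 1044247, -6578656, 730961, -7309729⟩ ⟨0, 52, 534, 0, -5429996, -55761950, 0, 38009972, 390333650⟩ 1) (.mix 4 0 0 11 (.mix 4 2 0 1 (.mix 4 0 0 3 (.cond 5 0 (.contra [(1, 7), (10, 600), (4, 128)] 0) (.contra [(0, 15), (36, 10206120), (34, 3613784), (32, 757343)] 0)))))) (.mix 7 0 0 11 (.mix 7 2 0 1 (.mix 7 0 0 3 (.cond 8 0 (.contra [(1, 7), (14, 6400), (2, 48)] 0) (.contra [(0, 15), (36, 9283620),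 (34, 4421159), (32, 468968)] 0))))))))) (.mix 7 0 0 13 (.cond 8 0 (.contra [(1, 1), (10, 2), (8, 50)] 0) (.contra [(0, 5), (36, 65160), (34, 24952), (32, 4979)] 0))))))))))))))))))))))))))))))

def T132 : Tr := .dn 25 (.mix 0 2 25 6 (.mix 0 0 25 19 (.mix 0 2 25 5 (.mix 0 2 25 6 (.mix 0 0 25 19 (.cond 1 0 (.contra [(1, 1), (30, 13632), (32, 7792), (28, 3144)] 0) (.contra [(0, 5), (30, 121860), (28, 42603), (26, 2216)] 0))))))) (.mix 0 0 25 19 (.mix 0 1 25 7 (.mix 0 0 25 7 (.mix 0 1 25 18 (.mix 0 0 25 15 (.cond 1 0 (.contra [(1, 1), (30, 30336), (32, 2016), (28, 9412)] 0) (.up 75 (T131) (.mix 0 2 75 0 (.mix 0 0 75 3 (.mix 0 1 75 0 (.mix 0 0 75 3 (.mix 0 2 75 12 (.mix 0 2 66 4 (.mix 0 0 61 11 (.cond 1 0 (.contra [(0, 1), (32, 66096), (34, 16708), (30, 13299)] 0) (.contra [(1, 1), (32, 98688), (34, 1824), (30, 36872)] 0)))))))))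 (.mix 0 1 75 14 (.mix 0 0 75 1 (.mix 0 1 75 13 (.mix 0 1 75 2 (.mix 0 1 75 14 (.mix 0 0 66 1 (.cond 1 0 (.contra [(1, 1), (32, 46464), (34, 672), (30, 11216)] 0) (.contra [(0, 1), (32, 22512), (34, 16276), (30, 9303)] 0)))))))) (.mix 0 0 70 10 (.cond 1 0 (.contra [(0, 5), (32, 7065), (30, 2383), (28, 191)] 0) (.contra [(1, 1), (32, 36), (34, 203), (30, 159)] 0))) (.mix 0 0 75 11 (.cond 1 0 (.contra [(0, 5), (32, 2865), (30, 1568), (28, 186)] 0) (.contra [(1, 1), (32, 1731), (34, 188), (30, 489)] 0)))))))))) (.mix 0 1 25 18 (.mix 0 0 25 15 (.mix 0 2 25 18 (.mix 0 0 25 15 (.mix 0 1 25 16 (.mix 0 0 25 9 (.cond 1 0 (.contra [(1, 1), (30, 3171), (32, 30541), (26, 5286)] 0) (.contra [(0, 1), (30, 33552), (32, 16812), (28, 10409)] 0)))))))) (.mix 0 0 25 5 (.mix 0 2 25 6 (.mix 0 2 25 9 (.mix 0 2 25 17 (.mix 0 2 25 8 (.mix 0 0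 25 5 (.cond 1 0 (.contra [(0, 1), (30, 54384), (32, 2804), (28, 14703)] 0) (.contra [(1, 1), (30, 1152), (32, 18912), (28, 1984)] 0)))))))) (.mix 0 0 19 6 (.cond 1 0 (.contra [(0, 2), (30, 1407), (32, 567), (28, 694)] 0) (.contra [(1, 15), (30, 15585), (28, 5233), (26, 826)] 0)))

def T133 : Tr := .dn 59 (.mix 0 1 59 8 (.mix 0 0 59 5 (.mix 0 1 59 8 (.mix 0 0 59 5 (.mix 0 1 59 8 (.mix 0 1 32 17 (.mix 0 0 27 17 (.cond 1 0 (.contra [(1, 7), (12, 468), (6, 2500)] 0) (.contra [(0, 7), (12, 176), (6, 1875)] 0))))))))) (.mix 0 2 59 9 (.mix 0 2 59 17 (.mix 0 0 59 17 (.mix 0 2 59 8 (.mix 0 2 59 16 (.mix 0 2 32 15 (.mix 6 1 60 5 (.h2 12 27 (.mix 9 0 0 8 (.cond 10 0 (.contra [(1, 7), (22, 3200), (8, 24)] 0) (.contra [(0, 2), (26, 4047), (28, 2017), (24, 1044)] 0))) (.mix 12 1 0 14 (.mix 12 2 0 13 (.mix 12 2 0 12 (.mix 12 1 3 16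 (.h2 22 27 (.mix 19 0 0 8 (.cond 20 0 (.contra [(0, 5), (26, 19860), (24, 5643), (22, 1096)] 0) (.contra [(1, 7), (12, 128), (6, 600)] 0))) (.mix 22 2 0 12 (.mix 22 2 0 12 (.mix 22 2 0 4 (.mix 22 1 3 16 (.h0 4 true (.mix 4 0 0 12 (.mix 4 0 0 12 (.mix 4 2 0 1 (.h0 13 true (.mix 13 1 0 11 (.mix 13 0 0 0 (.mix 13 0 0 12 (.cond 15 1 (.contra [(1, 7), (10, 384), (2, 2500)] 0) (.cond 17 3 (T132) (.contra [(1, 1), (4, 4)] 0)))))) (.mix 10 0 0 9 (.cond 11 0 (.contra [(1, 7), (22, 6400), (8, 48)] 0) (.contra [(0, 2), (26, 6291), (28, 2141), (24, 3012)] 0))))))) (.mix 1 0 0 9 (.cond 2 0 (.contra [(0, 5), (26, 32580), (24, 15839), (22, 808)] 0) (.contra [(1, 7), (12, 256), (6, 1200)] 0))))))))))))))))))))) (.mix 0 0 59 7 (.cond 1 0 (.contra [(1, 14), (28, 5000), (15, 117)] 0) (.contra [(0, 7), (28, 1875), (15, 22)] 0))) (.mix 0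 2 59 16 (.mix 0 0 59 9 (.mix 0 1 59 15 (.mix 0 1 59 16 (.mix 0 1 59 19 (.mix 0 0 32 16 (.cond 1 0 (.contra [(1, 5), (26, 30240), (24, 12752), (22, 1344)] 0) (.contra [(0, 4), (26, 5763), (28, 26573), (22, 3558)] 0)))))))) (.mix 0 0 54 6 (.cond 1 0 (.contra [(1, 1), (26, 84), (28, 79), (24, 3)] 0) (.contra [(0, 2), (26, 531), (28, 111), (24, 202)] 0)))

def T134 : Tr := .mix 44 2 0 13 (.mix 35 1 0 14 (.mix 9 2 0 11 (.mix 46 1 3 17 (.mix 27 1 0 17 (.h0 5 false (.mix 5 2 0 10 (.mix 5 0 0 1 (.mix 5 2 0 3 (.mix 5 0 3 17 (.mix 5 0 0 17 (.cond 11 5 (.contra [(1, 1), (20, 192), (22, 16), (18, 60)] 0) (.cond 9 3 (.h2 28 53 (.mix 28 2 0 2 (.mix 28 1 0 2 (.mix 15 2 0 11 (.mix 29 1 3 9 (.h2 10 16 (.mix 10 2 0 11 (.mix 10 2 0 0 (.mix 10 2 0 12 (.mix 10 1 3 9 (.h0 4 false (.mix 4 2 0 3 (.mix 4 0 0 3 (.mix 4 0 0 12 (.mix 4 1 3 15 (.h0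 14 false (.mix 14 0 0 2 (.mix 14 0 0 2 (.mix 14 2 0 3 (.mix 14 1 3 15 (.cond 19 4 (T133) (.contra [(1, 7), (20, 384), (6, 4)] 0)))))) (.mix 14 2 0 13 (.mix 14 1 0 14 (.mix 14 0 0 14 (.cond 15 0 (.contra [(0, 2), (24, 41841), (26, 5343), (22, 20204)] 0) (.contra [(1, 15), (24, 503040), (22, 144128), (20, 15056)] 0)))))))))) (.mix 4 0 0 14 (.cond 5 0 (.contra [(1, 1), (4, 50), (2, 2)] 0) (.contra [(0, 4), (24, 33), (26, 8399), (20, 1506)] 0)))))))) (.mix 10 0 0 13 (.cond 11 0 (.contra [(1, 1), (4, 25), (2, 1)] 0) (.contra [(0, 1), (24, 1104), (26, 412), (22, 261)] 0)))))))) (.mix 28 0 0 1 (.mix 28 2 0 10 (.mix 15 0 0 13 (.cond 16 0 (.contra [(0, 2), (24, 22917), (26, 14091), (22, 6748)] 0) (.contra [(1, 15), (24, 251520), (22, 72064), (20, 7528)] 0)))))) (.contra [(1, 1), (22, 1344), (24, 112), (20, 36)] 0)))))))) (.mix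 5 0 0 0 (.mix 5 1 0 11 (.mix 5 0 0 14 (.cond 6 0 (.contra [(1, 15), (20, 228480), (18, 73936), (16, 9472)] 0) (.contra [(0, 1), (20, 13104), (22, 5892), (18, 3251)] 0))))))))))

def T135 : Tr := .cond 6 5 (.contra [(1, 1), (14, 300), (3, 2)] 0) (.h0 24 true (.mix 24 2 0 14 (.mix 13 0 0 13 (.mix 25 0 2 17 (.mix 4 0 0 17 (.cond 16 2 (.contra [(1, 1), (8, 4)] 0) (.cond 5 0 (.contra [(1, 1), (18, 2478), (20, 18), (16, 776)] 0) (.up 26 (.mix 0 2 26 14 (.mix 0 2 26 2 (.mix 0 0 26 2 (.mix 0 2 26 13 (.mix 0 2 26 10 (.mix 5 1 26 1 (.mix 0 1 26 13 (.mix 0 1 26 2 (.mix 0 0 26 2 (.mix 0 2 26 13 (.mix 0 2 13 10 (.h2 44 47 (T134) (.mix 44 1 0 14 (.mix 35 2 0 13 (.mix 9 0 0 13 (.cond 10 0 (.contra [(1, 15), (20, 114240), (18, 36968), (16, 4736)] 0) (.contra [(0, 1), (20, 4848), (22, 2004), (18, 2287)] 0))))))))))))))))) (.mix 0 1 26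 13 (.mix 0 0 26 0 (.mix 0 2 26 14 (.mix 0 2 26 2 (.mix 0 0 26 2 (.cond 1 0 (.contra [(1, 1), (20, 2112), (22, 176), (18, 1128)] 0) (.contra [(0, 1), (20, 5616), (22, 468), (18, 1579)] 0))))))) (.mix 0 0 26 2 (.mix 1 2 22 13 (.mix 0 2 22 10 (.mix 0 0 22 13 (.cond 1 0 (.contra [(0, 28), (22, 25194), (18, 1414), (9, 671)] 0) (.cond 4 3 (.contra [(1, 4), (3, 1)] 0) (.contra [(0, 3), (12, 25), (3, 1)] 0))))))) (.mix 0 0 21 10 (.cond 1 0 (.contra [(1, 2), (22, 625), (10, 21)] 0) (.contra [(0, 5), (20, 795), (18, 269), (16, 63)] 0))) (.mix 0 1 21 12 (.mix 0 0 21 12 (.cond 1 0 (.contra [(0, 2), (20, 879), (22, 117), (18, 176)] 0) (.contra [(1, 15), (20, 9210), (18, 3422), (16, 44)] 0))))))))))) (.mix 24 0 0 3 (.cond 25 0 (.contra [(0, 2), (16, 483), (18, 269), (14, 132)] 0) (.contra [(1, 1), (12, 50), (8, 2)] 0))))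

def T136 : Tr := .up 24 (.mix 0 0 24 3 (.mix 0 2 24 12 (.mix 0 2 24 4 (.mix 0 0 11 11 (.mix 0 2 9 3 (.mix 5 1 26 1 (.mix 0 1 26 13 (.mix 0 1 26 2 (.mix 0 1 26 14 (.mix 0 0 11 1 (.cond 1 0 (.contra [(0, 2), (6, 2199), (8, 57), (4, 596)] 0) (.up 10 (.mix 0 2 10 14 (.mix 0 0 10 1 (.mix 0 2 10 0 (.mix 0 2 10 14 (.mix 0 0 10 1 (.cond 1 0 (.contra [(1, 1), (6, 8600), (4, 7200), (3, 159)] 0) (.contra [(0, 4), (6, 40500), (4, 36000), (3, 763)] 0))))))) (.mix 0 0 5 4 (.cond 1 0 (.contra [(1, 16), (6, 17120), (4, 14240), (3, 307)] 0) (.contra [(0, 16), (6, 8960), (4, 7920), (3, 171)] 0))) (.mix 0 2 5 13 (.mix 0 0 5 0 (.mix 0 1 5 1 (.mix 0 0 5 4 (.cond 1 0 (.contra [(1, 2), (6, 21760), (4, 18520), (3, 397)] 0) (.contra [(0, 1), (6, 2560), (4, 1995), (3, 42)] 0)))))) (.mix 0 1 10 0 (.mix 0 0 10 3 (.mix 0 2 10 12 (.mix 0 0 10 12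 (.cond 1 0 (.contra [(1, 2), (6, 8920), (4, 7840), (3, 163)] 0) (.contra [(0, 4), (6, 12380), (4, 9760), (3, 207)] 0)))))) (.mix 0 2 10 1 (.mix 0 2 10 0 (.mix 0 0 10 3 (.mix 0 1 10 0 (.mix 0 0 10 3 (.cond 1 0 (.contra [(1, 1), (6, 13260), (4, 11520), (3, 248)] 0) (.contra [(0, 4), (6, 3220), (4, 1440), (3, 51)] 0))))))))))))))))))) (.mix 0 2 24 0 (.mix 0 0 24 3 (.cond 1 0 (.contra [(1, 1), (6, 108), (8, 14), (4, 42)] 0) (.contra [(0, 1), (6, 24), (8, 42), (4, 1)] 0)))) (.mix 0 1 24 14 (.mix 0 0 24 1 (.cond 1 0 (.contra [(1, 1), (6, 84), (8, 42), (4, 26)] 0) (.contra [(0, 15), (6, 870), (4, 439), (2, 28)] 0)))) (.mix 0 2 24 12 (.mix 0 2 24 4 (.mix 0 0 24 11 (.cond 1 0 (.contra [(0, 1), (6, 96), (8, 88), (4, 39)] 0) (.contra [(1, 5), (6, 1260), (4, 412), (2, 24)] 0))))) (.mix 0 0 24 11 (.mix 0 1 24 10 (.mix 0 0 24 13 (.mix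 0 1 11 2 (.mix 0 0 9 2 (.mix 5 1 26 12 (.mix 0 0 26 12 (.mix 0 2 26 4 (.mix 0 0 26 11 (.mix 0 1 11 10 (.cond 4 3 (.contra [(0, 3), (4, 1000), (2, 125), (1, 79)] 0) (.cond 2 1 (.contra [(1, 1), (8, 618), (10, 14), (6, 192)] 0) (.cond 10 9 (.contra [(1, 2), (5, 1)] 0) (.dn 27 (.mix 0 1 27 8 (.mix 0 1 27 17 (.mix 0 1 27 9 (.mix 0 0 21 6 (.cond 1 0 (.contra [(1, 81), (12, 1344), (8, 592), (7, 332)] 0) (.contra [(0, 1), (12, 432), (14, 132), (10, 149)] 0)))))) (.mix 0 2 27 9 (.mix 0 0 27 6 (.mix 0 1 27 5 (.mix 0 0 21 18 (.cond 1 0 (.contra [(1, 1), (12, 288), (14, 168), (10, 76)] 0) (.contra [(0, 15), (12, 4980), (10, 2189), (8, 8)] 0)))))) (.mix 0 0 27 7 (.mix 0 2 27 19 (.mix 0 0 27 16 (.mix 0 2 21 15 (.mix 0 0 19 8 (.mix 5 1 29 18 (.mix 0 0 29 15 (.mix 0 1 29 16 (.mix 0 0 29 9 (.mix 0 2 21 17 (.cond 4 3 (.contra [(0, 18),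 (8, 150), (7, 25), (1, 31)] 0) (T135)))))))))))) (.mix 0 2 27 16 (.mix 0 2 27 15 (.mix 0 0 27 8 (.cond 1 0 (.contra [(1, 1), (12, 96), (14, 36), (10, 52)] 0) (.contra [(0, 1), (12, 288), (14, 8), (10, 81)] 0))))) (.mix 0 2 24 17 (.mix 0 2 24 8 (.mix 0 0 24 5 (.cond 1 0 (.contra [(1, 1), (12, 216), (14, 36), (10, 52)] 0) (.contra [(0, 15), (12, 1740), (10, 692), (8, 149)] 0)))))))))))))))))))

def T137 : Tr := .mix 0 2 7 1 (.mix 0 2 6 0 (.mix 0 2 6 14 (.mix 3 1 9 12 (.mix 0 0 7 12 (.mix 0 2 7 4 (.mix 0 2 7 1 (.dn 15 (.mix 0 0 14 18 (.mix 0 1 12 6 (.mix 0 0 12 19 (.cond 1 0 (.contra [(0, 2), (6, 63), (8, 9), (4, 28)] 0) (.contra [(1, 15), (6, 420), (4, 124), (2, 28)] 0))))) (.mix 0 1 14 5 (.mix 0 1 12 8 (.mix 0 0 12 5 (.cond 1 0 (.contra [(0, 15), (6, 660), (4, 236), (2, 17)] 0) (.contra [(1, 1), (8, 12), (4, 4)] 0)))))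 (.mix 0 0 15 7 (.mix 0 1 14 18 (.mix 0 1 14 6 (.mix 3 2 17 19 (.mix 0 2 15 5 (.mix 0 2 15 6 (.mix 0 2 15 9 (.h2 19 20 (.mix 13 2 0 2 (.mix 6 1 1 5 (.h0 2 false (.mix 2 0 0 2 (.mix 2 1 1 8 (.h2 22 23 (.mix 15 0 0 4 (.cond 16 0 (.contra [(0, 1), (6, 18), (8, 134), (2, 21)] 0) (.contra [(1, 5), (6, 720), (4, 304), (2, 8)] 0))) (.mix 15 2 0 0 (.mix 8 2 1 17 (T136)))))) (.mix 1 0 0 18 (.cond 2 0 (.contra [(0, 1), (6, 144), (8, 44), (4, 33)] 0) (.contra [(1, 5), (6, 720), (4, 256), (2, 32)] 0)))))) (.mix 5 0 0 19 (.cond 6 0 (.contra [(0, 1), (6, 48), (8, 28), (4, 21)] 0) (.contra [(1, 5), (6, 360), (4, 128), (2, 16)] 0))))))))))) (.mix 0 1 14 17 (.mix 0 0 12 17 (.cond 1 0 (.contra [(1, 15), (6, 150), (4, 82), (2, 4)] 0) (.contra [(0, 2), (6, 57), (8, 3), (4, 16)] 0)))) (.mix 0 0 14 6 (.mix 0 2 12 9 (.mix 0 2 12 17 (.mix 0 0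 12 17 (.cond 4 3 (.contra [(1, 4), (6, 3), (8, 41), (2, 6)] 0) (.cond 1 0 (.contra [(1, 1), (2, 8)] 0) (.contra [(0, 3), (4, 25), (2, 32)] 0))))))))))))))

def T138 : Tr := .h0 0 true (.cond 1 0 (.up 7 (.mix 0 2 7 14 (.mix 0 0 6 1 (.cond 1 0 (.contra [(0, 15), (6, 330), (4, 127), (2, 4)] 0) (.contra [(1, 2), (6, 9), (8, 3), (2, 2)] 0)))) (.mix 0 1 7 13 (.mix 0 1 6 2 (.mix 0 0 6 2 (.mix 3 0 9 4 (.cond 4 0 (.contra [(0, 2), (6, 15), (8, 25), (1, 6)] 0) (.cond 2 1 (.contra [(1, 1), (3, 4)] 0) (.contra [(0, 3), (6, 25), (3, 16)] 0))))))) (.mix 0 0 7 2 (.cond 1 0 (.contra [(0, 1), (6, 12), (8, 3), (4, 4)] 0) (.contra [(1, 15), (6, 75), (4, 29), (2, 8)] 0))) (.mix 0 1 7 0 (.mix 0 0 6 3 (.cond 1 0 (.contra [(1, 1), (6, 12), (8, 2), (4, 6)] 0) (.contra [(0, 5), (6, 90), (4, 27), (2, 4)] 0)))) (T137)) (.contra [(1, 1), (4, 6),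 (6, 2)] 0)) (.h0 0 true (.cond 1 0 (.contra [(0, 2), (4, 81), (6, 15), (2, 28)] 0) (.contra [(1, 1), (4, 12), (6, 4)] 0)) (.dn 8 (.mix 0 0 7 18 (.mix 0 1 5 6 (.mix 0 0 5 19 (.cond 1 0 (.contra [(0, 2), (4, 63), (6, 9), (2, 28)] 0) (.cond 3 2 (.contra [(0, 4), (3, 1)] 0) (.contra [(1, 1), (6, 15), (3, 2)] 25)))))) (.mix 0 1 7 5 (.mix 0 1 5 8 (.mix 0 0 5 5 (.cond 1 0 (.contra [(0, 2), (4, 54), (2, 19)] 17) (.contra [(1, 1), (6, 12), (2, 4)] 0))))) (.mix 0 2 7 19 (.mix 0 2 5 5 (.mix 0 2 5 6 (.mix 0 0 5 19 (.cond 1 0 (.contra [(0, 2), (4, 45), (6, 11)] 44) (.contra [(1, 1), (6, 56)] 24)))))) (.mix 0 1 7 17 (.mix 0 0 5 17 (.cond 1 0 (.contra [(1, 1), (4, 6), (2, 4)] 2) (.contra [(0, 2), (4, 9), (6, 19)] 16)))) (.mix 0 0 7 6 (.mix 0 2 5 9 (.mix 0 2 5 17 (.mix 0 2 5 8 (.mix 0 0 5 5 (.cond 1 0 (.cond 5 4 (.contra [(1, 16), (6,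 120), (8, 200), (3, 3)] 0) (.contra [(0, 16), (3, 1)] 0)) (.contra [(0, 144), (4, 35760), (2, 11600), (1, 23)] 0)))))))))

def T139 : Tr := .cond 3 2 (.h2 12 13 (.mix 7 2 0 2 (.mix 2 0 0 11 (.cond 3 0 (.contra [(1, 1), (2, 8)] 0) (.contra [(0, 2), (10, 4675), (4, 1800), (2, 153)] 0)))) (.dn 17 (.mix 0 1 17 8 (.mix 0 0 16 5 (.mix 0 1 16 8 (.mix 0 0 4 5 (.cond 1 0 (.contra [(1, 1), (10, 574), (4, 208), (2, 18)] 0) (.contra [(0, 2), (10, 399), (4, 168), (2, 13)] 0)))))) (.mix 0 2 17 9 (.mix 0 2 16 17 (.mix 0 0 16 17 (.cond 1 0 (.contra [(0, 2), (10, 25), (4, 24), (2, 3)] 0) (.contra [(1, 1), (10, 50), (4, 16), (2, 2)] 0))))) (.mix 0 0 17 7 (.mix 0 1 16 18 (.mix 0 1 16 6 (.mix 0 0 4 19 (.cond 1 0 (.contra [(0, 2), (10, 679), (4, 232), (2, 21)] 0) (.contra [(1, 1), (10, 504), (4, 192), (2, 16)] 0)))))) (.mix 0 2 17 16 (.mix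 0 0 16 9 (.mix 0 1 16 15 (.mix 0 1 4 16 (.mix 4 1 20 17 (.dn 5 (.mix 0 0 1 18 (.cond 1 0 (.contra [(1, 2), (10, 721), (4, 264), (2, 21)] 0) (.contra [(0, 2), (10, 413), (4, 142), (2, 13)] 0))) (.mix 0 0 5 19 (.cond 1 0 (.contra [(0, 1), (10, 66), (4, 24), (2, 1)] 0) (.contra [(1, 2), (10, 369), (4, 116), (2, 9)] 0))) (.mix 0 1 5 18 (.mix 0 1 5 6 (.mix 0 1 5 5 (.mix 0 0 5 18 (.cond 1 0 (.contra [(1, 1), (10, 1492), (4, 608), (2, 52)] 0) (.contra [(0, 2), (10, 2773), (4, 952), (2, 63)] 0)))))) (.mix 0 0 5 5 (.cond 1 0 (.contra [(1, 2), (10, 327), (4, 108), (2, 7)] 0) (.contra [(0, 1), (10, 108), (4, 32), (2, 3)] 0))) (.mix 0 0 1 6 (.cond 1 0 (.contra [(0, 2), (10, 329), (4, 126), (2, 9)] 0) (.contra [(1, 2), (10, 763), (4, 272), (2, 23)] 0))))))))) (.mix 0 0 16 6 (.cond 1 0 (.contra [(1, 2), (10, 111), (4, 40), (2, 3)]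 0) (.contra [(0, 2), (10, 17), (4, 10), (2, 1)] 0))))) (.contra [(1, 1), (8, 27), (4, 9), (2, 14)] 0)

def T140 : Tr := .up 5 (.mix 0 0 5 3 (.mix 0 2 5 12 (.mix 0 2 5 4 (T139)))) (.mix 0 2 5 0 (.mix 0 0 5 3 (.cond 1 0 (.contra [(1, 1), (8, 266), (4, 42), (2, 72)] 0) (.contra [(0, 1), (8, 98), (4, 1), (2, 16)] 0)))) (.mix 0 1 5 14 (.mix 0 0 5 1 (.cond 1 0 (.contra [(1, 1), (8, 238), (4, 26), (2, 56)] 0) (.contra [(0, 1), (8, 154), (4, 33), (2, 48)] 0)))) (.mix 0 2 5 12 (.mix 0 2 5 4 (.mix 0 0 5 11 (.cond 1 0 (.contra [(0, 1), (8, 312), (4, 39), (2, 64)] 0) (.contra [(1, 1), (8, 636), (4, 92), (2, 192)] 0))))) (.mix 0 0 5 11 (.mix 0 1 5 10 (.mix 0 0 5 13 (.mix 3 1 5 12 (.mix 0 1 5 3 (.up 5 (.mix 0 1 2 1 (.mix 0 0 2 4 (.cond 1 0 (.contra [(1, 1), (8, 1194), (4, 158), (2, 288)] 0) (.contra [(0, 1), (8, 1218), (4, 126), (2,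 361)] 0)))) (.mix 0 0 2 4 (.cond 1 0 (.contra [(0, 1), (8, 229), (4, 3), (2, 33)] 0) (.contra [(1, 1), (8, 793), (4, 101), (2, 236)] 0))) (.mix 0 2 2 13 (.mix 0 0 2 0 (.cond 1 0 (.contra [(0, 1), (8, 1686), (4, 202), (2, 447)] 0) (.contra [(1, 1), (8, 258), (4, 6), (2, 116)] 0)))) (.mix 0 0 2 10 (.cond 1 0 (.contra [(1, 1), (8, 659), (4, 63), (2, 168)] 0) (.contra [(0, 1), (8, 497), (4, 79), (2, 169)] 0))) (.mix 0 2 5 1 (.mix 0 0 5 4 (.mix 0 2 5 1 (.mix 3 1 5 12 (.mix 0 1 5 3 (.up 5 (.mix 0 0 5 3 (.mix 0 1 5 0 (.mix 0 0 5 3 (.cond 1 0 (.contra [(1, 1), (8, 15484), (4, 1888), (2, 3968)] 0) (.contra [(0, 1), (8, 2448), (4, 1011), (2, 896)] 0))))) (.mix 0 0 2 4 (.cond 1 0 (.contra [(1, 1), (8, 1833), (4, 81), (2, 416)] 0) (.contra [(0, 1), (8, 1901), (4, 307), (2, 427)] 0))) (.mix 0 2 2 13 (.mix 0 0 2 0 (.cond 1 0 (.contra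 [(0, 1), (8, 3166), (4, 162), (2, 957)] 0) (.contra [(1, 1), (8, 2802), (4, 614), (2, 1104)] 0)))) (.mix 0 2 5 12 (.mix 0 0 5 12 (.cond 1 0 (.contra [(1, 1), (8, 842), (4, 394), (2, 184)] 0) (.contra [(0, 1), (8, 8506), (4, 1167), (2, 2512)] 0)))) (.mix 0 0 5 11 (.cond 1 0 (.contra [(1, 1), (8, 4361), (4, 527), (2, 1222)] 0) (.contra [(0, 1), (8, 637), (4, 84), (2, 24)] 0)))))))))))))))

def T141 : Tr := .up 12 (.mix 0 2 12 14 (.mix 0 0 11 1 (.mix 2 1 13 1 (.mix 0 0 11 4 (.cond 3 2 (.contra [(0, 16), (8, 465), (10, 211), (2, 18)] 0) (.cond 1 0 (.contra [(1, 1), (3, 1)] 0) (.contra [(0, 21), (10, 840), (4, 25), (3, 37)] 0))))))) (.mix 0 0 11 4 (.mix 0 1 9 12 (.mix 0 1 9 3 (.mix 0 0 9 10 (.cond 1 0 (.contra [(1, 2), (8, 147), (10, 137), (2, 6)] 0) (.contra [(0, 1), (8, 57), (10, 27), (2, 1)] 0)))))) (.mix 0 0 12 2 (.cond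 1 0 (.contra [(0, 4), (8, 57), (10, 39), (2, 2)] 0) (.contra [(1, 16), (8, 171), (10, 17), (2, 6)] 0))) (.mix 0 1 12 0 (.mix 0 0 11 3 (.cond 1 0 (.contra [(1, 8), (8, 123), (10, 97), (2, 6)] 0) (.contra [(0, 16), (8, 447), (10, 93), (2, 14)] 0)))) (.mix 0 2 12 1 (.mix 0 2 11 0 (.mix 0 2 11 14 (.mix 3 1 14 12 (.mix 0 1 12 3 (.mix 0 0 12 10 (.mix 0 2 12 11 (.cond 2 1 (.contra [(1, 4), (8, 219), (10, 97), (2, 6)] 0) (.h0 13 false (.mix 1 2 0 3 (.cond 15 1 (.up 9 (.mix 0 1 6 1 (.mix 0 0 6 4 (.mix 0 2 6 1 (.mix 0 2 6 0 (.mix 0 0 5 3 (.cond 1 0 (.contra [(0, 1), (4, 24), (2, 25)] 0) (.contra [(1, 17), (12, 38400), (4, 1564), (2, 3900)] 0))))))) (.mix 0 2 9 0 (.mix 0 0 9 3 (.cond 1 0 (.contra [(1, 34), (12, 8040), (4, 357), (2, 875)] 0) (.contra [(0, 68), (12, 5340), (4, 17), (2, 375)] 0)))) (.mix 0 1 9 14 (.mix 0 0 9 1 (.cond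 1 0 (.contra [(1, 34), (12, 6960), (4, 221), (2, 675)] 0) (.contra [(0, 68), (12, 9660), (4, 561), (2, 1175)] 0)))) (.mix 0 2 9 12 (.mix 0 2 9 4 (.mix 0 0 9 11 (.cond 1 0 (.contra [(0, 68), (12, 20940), (4, 663), (2, 2225)] 0) (.contra [(1, 17), (12, 8280), (4, 391), (2, 825)] 0))))) (.mix 0 1 6 12 (.mix 0 1 6 3 (.mix 0 1 6 0 (.mix 0 0 6 3 (.cond 1 0 (.contra [(1, 17), (12, 1920), (4, 238), (2, 450)] 0) (.contra [(0, 17), (12, 15360), (4, 714), (2, 1475)] 0))))))) (.contra [(1, 1), (10, 57), (12, 27), (4, 2)] 0))) (.mix 1 0 0 14 (.cond 2 0 (.contra [(1, 1), (2, 4)] 0) (.contra [(0, 2), (10, 243), (12, 169), (4, 12)] 0))))))))))))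

def T142 : Tr := .up 15 (.mix 0 2 15 14 (.mix 1 1 15 1 (.mix 0 0 13 4 (.cond 1 0 (.contra [(1, 61), (6, 42), (4, 166), (2, 12)] 0) (.up 3 (.mix 0 0 3 3 (.cond 1 0 (.contra [(1, 2), (6, 85), (2, 54)] 285) (.contra [(0, 2), (6, 45), (2, 38)] 195))) (.mix 0 0 2 4 (.cond 1 0 (.contra [(1, 2), (6, 45), (2, 34)] 145) (.contra [(0, 2), (6, 65), (2, 48)] 265))) (.mix 0 1 3 14 (.mix 1 2 3 13 (.mix 0 2 3 10 (.up 3 (.mix 0 0 2 3 (.cond 1 0 (.contra [(1, 2), (6, 315), (2, 214)] 1215) (.contra [(0, 2), (6, 195), (2, 92)] 395))) (.mix 0 0 3 4 (.cond 1 0 (.contra [(1, 2), (6, 115), (2, 114)] 515) (.contra [(0, 2), (6, 95), (2, 42)] 45))) (.mix 0 1 2 14 (.mix 0 0 2 1 (.cond 1 0 (.contra [(1, 1), (6, 445), (2, 322)] 1645) (.contra [(0, 1), (6, 190), (2, 99)] 590)))) (.mix 0 0 3 10 (.cond 1 0 (.contra [(0, 2), (6, 35), (2, 66)] 385) (.contra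 [(1, 2), (6, 145), (2, 102)] 345))) (.mix 0 0 2 11 (.cond 1 0 (.contra [(0, 2), (6, 135), (2, 116)] 735) (.contra [(1, 2), (6, 345), (2, 202)] 1045))))))) (.mix 0 0 2 10 (.cond 1 0 (.contra [(1, 2), (6, 25), (2, 18)] 125) (.contra [(0, 2), (6, 75), (2, 56)] 275))) (.mix 0 1 2 12 (.mix 0 0 2 12 (.cond 1 0 (.contra [(0, 1), (6, 20), (2, 11)] 20) (.contra [(1, 1), (6, 15), (2, 2)] 15))))))))) (.mix 0 1 15 13 (.mix 0 1 14 2 (.mix 0 0 14 2 (.cond 1 0 (.contra [(1, 13), (6, 36), (2, 16)] 332) (.contra [(0, 61), (6, 2064), (4, 951), (2, 32)] 0))))) (.mix 0 0 15 2 (.mix 0 1 14 14 (.mix 0 1 14 11 (.cond 3 2 (.contra [(0, 11), (4, 125), (2, 50), (1, 373)] 0) (.h2 15 16 (.mix 1 0 0 14 (.cond 2 0 (.contra [(1, 1), (3, 56)] 200) (.contra [(0, 1), (8, 15), (3, 7)] 0))) (.mix 9 0 0 19 (.cond 10 0 (.contra [(0, 61), (8, 6540), (6, 2625),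 (4, 56)] 0) (.contra [(1, 1), (3, 8)] 56)))))))) (.mix 0 1 15 0 (.mix 0 0 14 3 (.cond 1 0 (.contra [(1, 61), (6, 990), (4, 462), (2, 4)] 0) (.contra [(0, 1), (6, 6), (4, 1)] 6)))) (.mix 0 1 14 12 (.mix 0 1 12 3 (.mix 0 0 12 10 (.cond 1 0 (.contra [(1, 61), (6, 3444), (4, 924), (2, 8)] 0) (.contra [(0, 61), (6, 1692), (4, 692), (2, 39)] 0)))))

def T143 : Tr := .h0 0 false (.cond 1 0 (.up 6 (.mix 0 2 6 14 (.mix 0 0 5 1 (.cond 1 0 (.contra [(0, 1), (8, 54), (4, 9), (2, 16)] 0) (.contra [(1, 1), (8, 22), (4, 2), (2, 8)] 0)))) (.mix 0 0 5 4 (.mix 0 1 3 12 (.mix 0 0 3 12 (.cond 1 0 (.contra [(1, 1), (8, 84), (4, 12), (2, 20)] 0) (.contra [(0, 1), (8, 112), (4, 16), (2, 35)] 0))))) (.mix 0 0 6 2 (.cond 1 0 (.contra [(0, 1), (8, 31), (4, 4), (2, 8)] 0) (.contra [(1, 1), (8, 17), (4, 3), (2, 6)] 0))) (.mix 0 1 6 0 (.mix 0 0 5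 3 (.cond 1 0 (.contra [(1, 1), (8, 30), (4, 6), (2, 8)] 0) (.contra [(0, 1), (8, 50), (4, 7), (2, 16)] 0)))) (.mix 0 2 6 1 (.mix 0 2 5 0 (.mix 0 2 5 14 (.mix 3 1 8 12 (.mix 0 1 6 3 (T140))))))) (.contra [(1, 1), (6, 4)] 4)) (.h0 0 false (.cond 1 0 (.contra [(0, 2), (4, 9), (6, 11)] 0) (.contra [(1, 1), (6, 8)] 8)) (.dn 7 (.mix 0 0 6 18 (.mix 0 2 4 7 (.mix 0 2 4 19 (.mix 0 0 4 16 (.cond 4 3 (.cond 1 0 (T141) (.contra [(1, 1), (2, 8)] 0)) (.contra [(1, 1), (4, 3), (6, 4)] 1)))))) (.mix 0 1 6 5 (.mix 0 0 4 18 (.cond 1 0 (.contra [(0, 2), (4, 9), (6, 23)] 12) (.contra [(1, 1), (6, 6), (2, 2)] 0)))) (.mix 0 0 7 7 (.mix 0 1 6 18 (.mix 0 1 6 6 (.mix 3 2 9 19 (.mix 0 0 7 16 (.mix 0 2 7 15 (.mix 0 0 7 8 (.cond 1 0 (.contra [(1, 1), (4, 30), (6, 2)] 8) (T142))))))))) (.mix 0 1 6 17 (.mix 0 1 4 9 (.mix 0 0 4 6 (.cond 1 0 (.contra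 [(1, 1), (4, 12), (2, 8)] 4) (.contra [(0, 2), (4, 21), (6, 39), (2, 8)] 0))))) (.mix 0 0 6 6 (.mix 0 1 4 5 (.mix 0 0 4 18 (.cond 1 0 (.cond 3 2 (.contra [(1, 4), (6, 30), (8, 50), (3, 3)] 0) (.contra [(0, 4), (3, 1)] 0)) (.contra [(0, 36), (4, 1020), (2, 500), (1, 17)] 0)))))))

def T144 : Tr := .dn 5 (.mix 0 2 5 6 (.mix 0 0 5 19 (.cond 1 0 (.contra [(0, 50), (8, 45150), (3, 847), (2, 384)] 0) (.contra [(1, 25), (8, 18100), (3, 313), (2, 136)] 0)))) (.mix 0 0 5 19 (.cond 1 0 (.contra [(1, 50), (8, 18400), (3, 337), (2, 164)] 0) (.contra [(0, 25), (8, 13225), (3, 243), (2, 96)] 0))) (.mix 0 1 5 18 (.mix 0 0 5 15 (.cond 1 0 (.contra [(1, 25), (8, 7200), (3, 151), (2, 72)] 0) (.contra [(0, 50), (8, 56050), (3, 1009), (2, 448)] 0)))) (.mix 0 0 5 5 (.mix 0 2 5 6 (.mix 0 0 5 19 (.mix 0 2 5 5 (.mix 4 1 5 17 (.dn 5 (.mix 0 1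 5 8 (.mix 0 0 5 5 (.mix 0 1 5 8 (.mix 0 0 5 5 (.cond 1 0 (.contra [(1, 25), (8, 569700), (3, 10266), (2, 4352)] 0) (.contra [(0, 50), (8, 398950), (3, 7581), (2, 4032)] 0)))))) (.mix 0 2 5 9 (.mix 0 2 5 17 (.mix 0 0 5 17 (.cond 1 0 (.contra [(0, 50), (8, 56450), (3, 731), (2, 832)] 0) (.contra [(1, 25), (8, 56800), (3, 854), (2, 288)] 0))))) (.mix 0 0 5 7 (.mix 0 1 5 18 (.mix 0 1 5 6 (.mix 0 0 5 19 (.cond 1 0 (.contra [(0, 50), (8, 672150), (3, 11877), (2, 4544)] 0) (.contra [(1, 25), (8, 501400), (3, 9192), (2, 4224)] 0)))))) (.mix 0 2 5 16 (.mix 0 0 5 9 (.mix 0 1 5 15 (.mix 0 1 5 16 (.h0 32 true (.mix 13 1 0 8 (.mix 8 0 0 18 (.cond 9 0 (.contra [(0, 50), (8, 485650), (3, 9007), (2, 3904)] 0) (.contra [(1, 25), (8, 49900), (3, 722), (2, 384)] 0)))) (.mix 13 2 0 6 (.mix 8 2 0 6 (.mix 3 0 0 9 (.cond 4 0 (.contra [(0, 50),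 (8, 1719550), (3, 30649), (2, 14528)] 0) (.contra [(1, 25), (8, 958200), (3, 17996), (2, 6912)] 0)))))))))) (.mix 0 0 1 6 (.cond 1 0 (.contra [(1, 50), (8, 102700), (3, 1981), (2, 832)] 0) (.contra [(0, 50), (8, 23400), (3, 377), (2, 294)] 0))))))))) (.mix 0 0 1 6 (.cond 1 0 (.contra [(1, 50), (8, 4300), (3, 59), (2, 48)] 0) (.contra [(0, 50), (8, 19400), (3, 347), (2, 134)] 0)))

def T145 : Tr := .dn 6 (.mix 0 2 2 6 (.mix 0 0 2 19 (.cond 1 0 (.contra [(0, 25), (8, 17600), (3, 344), (2, 143)] 0) (.contra [(1, 25), (8, 20800), (3, 377), (2, 144)] 0)))) (.mix 0 0 2 19 (.mix 0 1 2 7 (.cond 2 1 (.contra [(1, 50), (8, 26700), (3, 503), (2, 216)] 0) (.h2 12 28 (.mix 4 0 0 18 (.mix 2 0 0 7 (.cond 3 0 (.contra [(0, 2), (10, 17000), (5, 375), (2, 294)] 0) (.contra [(1, 1), (2, 4)] 0)))) (.mix 12 1 0 2 (.mix 12 1 0 1 (.mix 6 2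 2 6 (.mix 4 1 0 18 (.h0 4 true (.mix 2 2 0 9 (.mix 2 0 0 15 (.cond 3 0 (.contra [(0, 2), (10, 115400), (5, 2575), (2, 2022)] 0) (.contra [(1, 1), (2, 8)] 0)))) (.mix 4 1 0 14 (.mix 4 0 0 4 (.cond 5 0 (.contra [(0, 2), (10, 111400), (5, 2483), (2, 1950)] 0) (.contra [(1, 1), (10, 5200), (5, 118), (2, 100)] 0))))))))))))) (.mix 0 1 2 18 (.mix 0 0 2 15 (.cond 1 0 (.contra [(1, 25), (8, 1600), (3, 49), (2, 28)] 0) (.contra [(0, 25), (8, 27200), (3, 508), (2, 201)] 0)))) (.mix 0 0 2 5 (.cond 1 0 (.contra [(0, 50), (8, 19800), (3, 367), (2, 174)] 0) (.contra [(1, 50), (8, 18100), (3, 349), (2, 128)] 0))) (.mix 0 1 6 15 (.mix 0 0 6 8 (.mix 0 2 6 16 (.mix 0 2 6 15 (.mix 4 2 6 17 (.dn 5 (.mix 0 0 5 18 (.mix 0 1 5 6 (.mix 0 0 5 19 (.cond 1 0 (.contra [(1, 25), (8, 253300), (3, 4692), (2, 1824)] 0) (.contra [(0, 50), (8, 221450),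 (3, 3623), (2, 1856)] 0))))) (.mix 0 0 1 19 (.cond 1 0 (.contra [(0, 50), (8, 77400), (3, 1351), (2, 522)] 0) (.contra [(1, 50), (8, 31700), (3, 683), (2, 176)] 0))) (.mix 0 2 5 19 (.mix 0 2 5 5 (.mix 0 2 5 6 (.mix 0 0 5 19 (.cond 1 0 (.contra [(1, 25), (8, 289600), (3, 5204), (2, 2688)] 0) (.contra [(0, 50), (8, 1081350), (3, 20349), (2, 8128)] 0)))))) (.mix 0 1 5 17 (.mix 0 0 5 17 (.cond 1 0 (.contra [(0, 50), (8, 303150), (3, 5631), (2, 2432)] 0) (.contra [(1, 25), (8, 42900), (3, 671), (2, 312)] 0)))) (.mix 0 0 5 6 (.cond 1 0 (.contra [(0, 25), (8, 11275), (3, 181), (2, 32)] 0) (.contra [(1, 50), (8, 141400), (3, 2661), (2, 1092)] 0)))))))))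

def T146 : Tr := .cond 3 0 (.dn 20 (.mix 0 1 20 8 (.mix 0 0 19 5 (.cond 1 0 (.contra [(0, 2), (8, 42), (3, 1)] 0) (.contra [(1, 5), (8, 1060), (3, 19), (2, 8)] 0)))) (.mix 0 2 20 9 (.mix 0 2 19 17 (.mix 0 2 19 8 (.mix 0 0 19 5 (.mix 4 1 23 5 (T144)))))) (.mix 0 0 20 7 (.mix 0 1 19 18 (.mix 0 0 19 15 (.mix 0 1 19 16 (.mix 4 2 23 19 (.mix 0 2 8 5 (T145))))))) (.mix 0 2 20 16 (.mix 0 0 19 9 (.cond 1 0 (.contra [(0, 50), (8, 7850), (3, 137), (2, 64)] 0) (.contra [(1, 25), (8, 3600), (3, 67), (2, 24)] 0)))) (.mix 0 1 20 15 (.mix 0 1 19 16 (.mix 0 0 19 9 (.cond 1 0 (.contra [(1, 25), (8, 11800), (3, 218), (2, 96)] 0) (.contra [(0, 50), (8, 10450), (3, 187), (2, 64)] 0)))))) (.up 8 (.mix 0 1 8 1 (.mix 0 0 8 4 (.mix 0 1 8 12 (.mix 0 1 8 3 (.h0 20 true (.mix 16 1 0 0 (.mix 11 1 0 12 (.mix 3 0 0 10 (.cond 4 0 (.contra [(0, 7),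 (3, 315), (2, 634)] 33125) (.contra [(1, 1), (3, 80), (2, 144)] 5000))))) (.mix 16 2 0 12 (.mix 11 0 0 11 (.cond 12 0 (.contra [(1, 1), (3, 8)] 0) (.contra [(0, 7), (3, 35), (2, 26)] 3125))))))))) (.mix 0 0 8 4 (.mix 0 1 8 12 (.mix 0 1 8 3 (.mix 0 0 8 10 (.cond 1 0 (.contra [(1, 7), (3, 84), (2, 304)] 15000) (.contra [(0, 7), (3, 133), (2, 478)] 14375)))))) (.mix 0 2 8 13 (.mix 0 0 8 0 (.cond 1 0 (.contra [(1, 7), (3, 77), (2, 120)] 5000) (.contra [(0, 7), (3, 14), (2, 50)] 625)))) (.mix 0 0 8 10 (.cond 1 0 (.contra [(0, 14), (3, 63), (2, 164)] 6250) (.contra [(1, 2), (3, 3), (2, 4)] 0))) (.mix 0 1 8 12 (.mix 0 1 8 3 (.mix 0 0 8 10 (.cond 1 0 (.contra [(1, 7), (3, 14), (2, 176)] 5000) (.contra [(0, 7), (3, 147), (2, 278)] 11875))))))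

def T147 : Tr := .up 6 (.mix 0 2 6 14 (.mix 0 0 6 1 (.cond 1 0 (.contra [(1, 1), (4, 23910), (2, 1616)] 5850) (.contra [(0, 1), (4, 6030), (2, 403)] 550)))) (.mix 0 2 3 0 (.mix 0 2 3 14 (.mix 0 0 3 1 (.cond 1 0 (.h0 14 false (.cond 15 0 (.contra [(0, 175), (6, 148380), (4, 12628), (2, 33)] 0) (.contra [(1, 175), (6, 279240), (4, 24024), (2, 64)] 0)) (.mix 12 0 0 8 (.cond 13 0 (.contra [(1, 25), (6, 17640), (4, 1464), (2, 4)] 0) (.contra [(0, 175), (6, 17940), (4, 2044), (2, 9)] 0)))) (.contra [(1, 1), (4, 31980), (2, 2048)] 6300))))) (.mix 0 0 6 2 (.mix 1 1 4 14 (.mix 0 1 4 11 (.mix 0 1 4 10 (.cond 4 3 (.contra [(1, 1), (4, 3165), (2, 229)] 1150) (.h0 15 false (.cond 16 0 (.contra [(0, 50), (6, 8805), (4, 858), (2, 11)] 0) (.contra [(1, 75), (6, 21960), (4, 2296), (2, 32)] 0)) (.mix 15 0 0 4 (.mix 15 0 0 2 (.mix 8 0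 0 12 (.mix 4 1 0 4 (.h0 4 false (.mix 4 2 0 1 (.mix 4 1 0 14 (.h2 2 7 (.mix 2 0 0 4 (.cond 3 0 (.contra [(1, 1), (6, 7350), (4, 748), (2, 10)] 0) (.contra [(0, 6), (6, 5445), (4, 634), (2, 11)] 0))) (.mix 2 2 0 0 (.mix 2 0 0 1 (.cond 3 0 (.contra [(1, 3), (6, 87750), (4, 9100), (2, 122)] 0) (.contra [(0, 2), (6, 1575), (4, 350), (2, 9)] 0))))))) (.mix 4 1 0 12 (.mix 4 2 0 13 (.mix 4 2 0 4 (.mix 4 0 0 11 (.cond 5 0 (.contra [(1, 3), (6, 450000), (4, 50000), (2, 736)] 0) (.contra [(0, 2), (6, 774375), (4, 78750), (2, 1033)] 0))))))))))))))))) (.mix 0 1 6 0 (.mix 0 0 6 3 (.cond 1 0 (.contra [(1, 1), (4, 19170), (2, 1292)] 3950) (.contra [(0, 1), (4, 15510), (2, 1051)] 4350)))) (.mix 0 2 6 1 (.mix 0 2 6 0 (.mix 0 0 6 3 (.cond 1 0 (.contra [(0, 1), (4, 33120), (2, 2287)] 7200) (.contra [(1, 1), (4, 41460), (2, 2696)] 10100)))))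

def T148 : Tr := .up 9 (.mix 0 0 5 3 (.cond 1 0 (.contra [(1, 1), (4, 315), (2, 22)] 75) (.contra [(0, 2), (4, 660), (2, 43)] 175))) (.mix 0 1 9 13 (.mix 0 0 9 0 (.mix 0 2 9 14 (.mix 0 0 9 1 (.mix 0 1 7 13 (.mix 5 2 10 0 (.h0 20 false (.mix 12 2 0 10 (.mix 2 0 0 3 (.cond 3 0 (.contra [(1, 1), (4, 690), (2, 44)] 150) (.contra [(0, 2), (4, 1290), (2, 89)] 275)))) (.mix 12 0 0 0 (.mix 2 2 0 14 (.mix 10 0 2 16 (.h0 3 false (.cond 4 0 (.contra [(0, 2), (4, 102), (2, 7)] 21) (.contra [(1, 1), (4, 60), (2, 4)] 16)) (.mix 3 1 0 1 (.mix 3 2 0 2 (.mix 3 2 2 15 (.up 14 (.mix 0 1 14 1 (.mix 0 1 14 13 (.mix 0 1 14 2 (.mix 0 0 14 2 (.cond 1 0 (.contra [(1, 1), (4, 18120), (2, 1232)] 4200) (.contra [(0, 1), (4, 5340), (2, 349)] 1900)))))) (.mix 0 0 14 4 (.mix 0 2 14 1 (.mix 0 2 14 0 (.mix 3 2 12 0 (.mix 0 0 10 3 (.mix 0 2 7 12 (T147)))))))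 (.mix 0 1 9 14 (.mix 0 0 7 1 (.cond 1 0 (.contra [(1, 1), (4, 4590), (2, 304)] 1150) (.contra [(0, 2), (4, 5310), (2, 361)] 975)))) (.mix 0 0 14 10 (.mix 0 1 14 4 (.mix 0 0 14 11 (.cond 1 0 (.contra [(1, 1), (4, 2340), (2, 164)] 900) (.contra [(0, 1), (4, 9720), (2, 637)] 2200))))) (.mix 0 1 14 12 (.mix 0 0 14 12 (.mix 0 2 14 4 (.mix 0 2 14 1 (.mix 0 0 14 4 (.cond 1 0 (.contra [(1, 1), (4, 14160), (2, 856)] 3600) (.contra [(0, 1), (4, 37980), (2, 2543)] 8300)))))))))))))))))))))) (.mix 0 0 9 2 (.cond 1 0 (.contra [(1, 1), (4, 465), (2, 31)] 100) (.contra [(0, 1), (4, 255), (2, 17)] 75))) (.mix 0 1 9 0 (.mix 0 1 9 1 (.mix 0 1 9 13 (.mix 0 1 9 2 (.mix 0 0 7 2 (.cond 1 0 (.contra [(1, 1), (4, 720), (2, 64)] 400) (.contra [(0, 1), (4, 540), (2, 23)] 300))))))) (.mix 0 2 9 1 (.mix 0 0 9 4 (.cond 1 0 (.contra [(1, 1), (4, 150),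 (2, 8)] 50) (.contra [(0, 1), (4, 750), (2, 49)] 150))))

def T149 : Tr := .dn 13 (.mix 0 1 13 8 (.mix 0 0 12 5 (.mix 0 2 12 6 (.mix 0 0 12 19 (.cond 1 0 (.contra [(1, 1), (4, 648), (2, 44)] 168) (.contra [(0, 1), (4, 84), (2, 7)] 4)))))) (.mix 0 2 13 9 (.mix 0 2 12 17 (.mix 0 2 12 8 (.mix 0 0 12 5 (.cond 1 0 (.contra [(0, 1), (4, 468), (2, 31)] 132) (.contra [(1, 1), (4, 456), (2, 32)] 104)))))) (.mix 0 2 12 19 (T148)) (.mix 0 2 13 16 (.mix 0 0 12 9 (.mix 0 2 12 17 (.mix 0 2 12 8 (.mix 0 0 6 5 (.cond 1 0 (.contra [(0, 1), (4, 588), (2, 43)] 156) (.contra [(1, 1), (4, 1584), (2, 104)] 368))))))) (.mix 0 1 13 15 (.mix 0 1 12 16 (.mix 0 0 12 9 (.mix 0 2 12 17 (.mix 0 2 6 8 (.cond 3 2 (.contra [(1, 1), (4, 132), (2, 8)] 36) (.up 13 (.mix 0 0 9 3 (.cond 1 0 (.contra [(1, 8), (6, 4320), (4, 251), (2, 75)] 0) (.contra [(0,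 16), (6, 9480), (4, 519), (2, 175)] 0))) (.mix 0 1 13 13 (.mix 0 0 13 0 (.mix 0 2 13 14 (.mix 0 0 13 1 (.mix 0 1 11 13 (.h0 13 true (.mix 13 1 0 0 (.mix 2 0 0 0 (.cond 3 0 (.contra [(1, 1), (6, 24960), (4, 1406), (2, 450)] 0) (.contra [(0, 2), (6, 20160), (4, 1071), (2, 325)] 0)))) (.mix 7 0 0 5 (.cond 8 0 (.contra [(1, 1), (2, 8)] 0) (.contra [(0, 2), (6, 8640), (4, 475), (2, 153)] 0))))))))) (.mix 0 0 13 2 (.cond 1 0 (.contra [(1, 2), (6, 1530), (4, 87), (2, 25)] 0) (.contra [(0, 8), (6, 3840), (4, 211), (2, 75)] 0))) (.mix 0 1 13 0 (.mix 0 1 13 1 (.mix 0 1 13 13 (.mix 0 1 13 2 (.mix 0 0 11 2 (.cond 1 0 (.contra [(1, 1), (6, 1920), (4, 114), (2, 50)] 0) (.contra [(0, 2), (6, 2880), (4, 121), (2, 75)] 0))))))) (.mix 0 2 13 1 (.mix 0 0 13 4 (.cond 1 0 (.contra [(1, 4), (6, 1200), (4, 57), (2, 25)] 0) (.contra [(0, 4),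 (6, 4800), (4, 271), (2, 75)] 0)))))))))))

def T150 : Tr := .up 9 (.mix 0 0 9 3 (.mix 1 1 6 1 (.mix 0 1 5 13 (.mix 0 0 4 0 (.cond 1 0 (.cond 4 3 (.contra [(0, 1), (10, 375), (6, 10), (3, 3)] 0) (.contra [(1, 4), (3, 1)] 0)) (.contra [(0, 3), (8, 1350), (4, 98), (2, 149)] 0)))))) (.mix 0 2 9 0 (.mix 0 0 9 3 (.cond 1 0 (.contra [(1, 1), (8, 50), (4, 2), (2, 8)] 0) (.contra [(0, 3), (8, 450), (4, 23), (2, 32)] 0)))) (.mix 0 1 9 14 (.mix 0 0 9 1 (.mix 0 1 9 13 (.mix 0 1 9 2 (.mix 4 2 9 13 (.mix 0 2 8 10 (.mix 0 2 7 11 (.up 7 (.mix 0 1 7 1 (.mix 0 1 7 13 (.mix 0 0 7 0 (.cond 1 0 (.contra [(0, 3), (8, 6600), (4, 391), (2, 640)] 0) (.contra [(1, 1), (8, 900), (4, 84), (2, 160)] 0))))) (.mix 0 2 3 0 (.mix 0 0 3 3 (.mix 0 2 3 12 (.h0 13 false (.mix 13 1 0 0 (.mix 6 0 0 14 (.cond 7 0 (.contra [(1, 3), (8, 1800), (4, 88), (2, 160)]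 0) (.contra [(0, 3), (8, 1650), (4, 134), (2, 245)] 0)))) (.mix 13 0 0 10 (.mix 6 2 0 3 (.mix 3 2 0 4 (.h0 3 false (.cond 4 0 (.contra [(0, 3), (8, 126), (4, 10), (2, 19)] 0) (.contra [(1, 15), (8, 960), (4, 64), (2, 88)] 0)) (.mix 3 2 0 11 (.mix 3 2 0 12 (.mix 3 0 0 11 (.cond 4 0 (.contra [(1, 3), (8, 2400), (4, 544), (2, 1000)] 0) (.contra [(0, 1), (8, 7650), (4, 534), (2, 725)] 0))))))))))))) (.mix 0 2 7 13 (.mix 0 2 7 10 (.mix 0 2 7 11 (.mix 0 0 7 14 (.cond 1 0 (.contra [(0, 3), (8, 9900), (4, 659), (2, 1280)] 0) (.contra [(1, 3), (8, 4200), (4, 472), (2, 640)] 0)))))) (.mix 0 2 3 12 (.mix 0 2 3 4 (.mix 0 0 3 11 (.cond 1 0 (.contra [(0, 1), (8, 1650), (4, 134), (2, 195)] 0) (.contra [(1, 3), (8, 3900), (4, 244), (2, 520)] 0))))) (.mix 0 1 7 12 (.mix 0 0 7 12 (.mix 0 1 7 3 (.mix 0 0 7 10 (.cond 1 0 (.contra [(1, 3),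 (8, 5400), (4, 244), (2, 640)] 0) (.contra [(0, 3), (8, 9300), (4, 773), (2, 1280)] 0)))))))))))))) (.mix 0 0 5 10 (.cond 1 0 (.contra [(0, 1), (8, 25), (4, 3), (2, 3)] 0) (.contra [(1, 3), (8, 225), (4, 17), (2, 32)] 0))) (.mix 0 0 9 11 (.cond 1 0 (.contra [(0, 3), (8, 75), (4, 10), (2, 16)] 0) (.contra [(1, 1), (8, 75), (4, 5), (2, 6)] 0)))

def T151 : Tr := .h0 4 true (.cond 5 0 (.contra [(1, 15), (20, 9360), (16, 652), (14, 1024)] 0) (.contra [(0, 15), (20, 420), (16, 43), (14, 256)] 0)) (.mix 4 0 0 3 (.mix 4 2 0 10 (.mix 4 1 0 2 (.mix 4 0 3 15 (.cond 5 0 (.contra [(1, 5), (20, 11920), (16, 652), (14, 1024)] 0) (.h0 4 true (.cond 5 0 (.contra [(1, 15), (22, 18720), (18, 1304), (16, 2048)] 0) (.contra [(0, 15), (22, 4260), (18, 43), (16, 256)] 0)) (.mix 4 2 0 12 (.mix 4 0 0 13 (.mix 4 0 0 2 (.mix 4 1 3 16 (.h0 4 true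 (.mix 4 0 0 12 (.mix 4 2 0 10 (.mix 4 1 0 14 (.cond 8 3 (.contra [(1, 15), (22, 37440), (18, 2608), (16, 4096)] 0) (.h2 3 8 (.mix 3 1 0 3 (.mix 3 2 0 11 (.mix 3 0 0 1 (.cond 4 0 (.contra [(0, 874), (24, 33775750), (18, 4493785), (12, 22661)] 0) (.contra [(1, 3), (24, 1916400), (20, 128692), (18, 203776)] 0))))) (.mix 3 2 0 4 (.mix 3 0 0 13 (.mix 3 1 0 11 (.h2 59 63 (.mix 45 0 0 8 (.cond 46 0 (.contra [(1, 5), (24, 127760), (20, 8496), (18, 13752)] 0) (.contra [(0, 5), (24, 5970), (20, 1782), (18, 959)] 0))) (.h0 4 true (.mix 4 2 0 1 (.mix 4 1 0 2 (.mix 4 0 0 14 (.cond 5 0 (.contra [(0, 1), (24, 59700), (20, 5591), (18, 34048)] 0) (.contra [(1, 3), (24, 3832800), (20, 257384), (18, 407552)] 0))))) (.h0 1 true (.cond 2 0 (.contra [(0, 5), (24, 28170), (20, 1822), (18, 3779)] 0) (.contra [(1, 1), (10, 4)] 0)) (.h0 1 true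 (.cond 2 0 (.contra [(1, 1), (2, 8)] 0) (.contra [(0, 5), (24, 97860), (20, 6243), (18, 10496)] 0)) (.h0 1 true (.cond 2 0 (.contra [(0, 15), (24, 283230), (20, 19994), (18, 29993)] 0) (.contra [(1, 1), (10, 8)] 0)) (.exc 42 0 1 ⟨0, -4041, -706, 0, -250081307, -43691509, 0, 2750926705, 480612247⟩ ⟨7, -79, -21, 433202, -4888993, -1299606, -4765278, 53779555, 14295834⟩ ⟨926, -868, 4508, 57306428, -53717048, 278982148, -630378116, 590894472, -3068839692⟩ 1)))))))))))))) (.mix 1 0 0 9 (.cond 2 0 (.contra [(0, 15), (22, 87540), (18, 8039), (16, 13568)] 0) (.contra [(1, 1), (2, 4)] 0))))))))))))))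

def T152 : Tr := .dn 14 (.mix 0 1 10 8 (.mix 0 1 10 17 (.mix 0 0 10 17 (.cond 1 0 (.contra [(1, 15), (18, 1980), (14, 148), (12, 376)] 0) (.contra [(0, 15), (18, 3390), (14, 314), (12, 443)] 0))))) (.mix 0 1 14 5 (.mix 0 1 14 8 (.mix 0 0 14 5 (.cond 1 0 (.contra [(1, 5), (18, 60), (14, 36), (12, 32)] 0) (.contra [(0, 5), (18, 2480), (14, 163), (12, 256)] 0))))) (.mix 0 2 14 19 (.mix 0 2 14 5 (.mix 0 2 14 6 (.mix 0 2 14 9 (.mix 4 0 14 7 (.cond 5 0 (.contra [(0, 2442), (12, 130425), (6, 275), (1, 81056)] 0) (.dn 5 (.mix 0 2 5 6 (.mix 0 0 5 19 (.cond 1 0 (.contra [(1, 5), (20, 4330), (16, 278), (14, 536)] 0) (.contra [(0, 15), (20, 7470), (16, 727), (14, 1024)] 0)))) (.mix 0 0 5 19 (.cond 1 0 (.contra [(1, 15), (20, 4245), (16, 367), (14, 454)] 0) (.contra [(0, 15), (20, 7515), (16, 424), (14, 688)] 0))) (.mix 0 1 5 18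 (.mix 0 0 5 15 (.cond 1 0 (.contra [(1, 15), (20, 13770), (16, 1082), (14, 1784)] 0) (.contra [(0, 1), (20, 625), (3, 21)] 0)))) (.mix 0 0 5 5 (.cond 1 0 (.contra [(1, 15), (20, 3465), (16, 119), (14, 278)] 0) (.contra [(0, 15), (20, 7905), (16, 548), (14, 776)] 0))) (.mix 0 2 5 17 (.mix 0 2 5 8 (.mix 0 0 5 5 (.mix 0 2 5 6 (.h0 77 true (.mix 22 2 0 5 (.mix 8 2 0 17 (.mix 3 0 0 19 (.cond 4 0 (.contra [(1, 15), (20, 143520), (16, 10132), (14, 16384)] 0) (.contra [(0, 15), (20, 32940), (16, 329), (14, 2048)] 0))))) (.mix 73 2 0 4 (.mix 64 0 0 11 (.mix 42 1 0 0 (.mix 25 1 3 7 (.h0 4 true (.mix 4 2 0 1 (.mix 4 1 0 10 (.mix 4 1 0 1 (.mix 4 0 3 7 (.h2 4 9 (.mix 4 0 0 4 (.cond 5 0 (.contra [(1, 1), (16, 16)] 0) (.contra [(0, 3), (20, 3300), (16, 187), (14, 256)] 0))) (.mix 4 2 0 0 (.mix 4 0 0 13 (.mix 4 1 0 13 (.mix 4 1 3 18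 (T151)))))))))) (.mix 4 0 0 11 (.cond 5 0 (.contra [(1, 1), (16, 8)] 0) (.contra [(0, 3), (20, 2100), (16, 151), (14, 256)] 0)))))))))))))))))))) (.mix 0 2 10 16 (.mix 0 2 10 15 (.mix 0 2 10 18 (.mix 0 0 10 15 (.cond 1 0 (.contra [(1, 15), (18, 10920), (14, 632), (12, 1184)] 0) (.contra [(0, 1), (12, 50), (2, 21)] 0)))))) (.mix 0 0 14 6 (.mix 0 2 14 9 (.mix 0 2 14 17 (.mix 0 0 14 17 (.cond 1 0 (.contra [(0, 15), (18, 2580), (14, 313), (12, 256)] 0) (.contra [(1, 15), (18, 10440), (14, 784), (12, 1408)] 0))))))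

def T153 : Tr := .dn 56 (.mix 0 1 56 8 (.mix 0 0 55 5 (.mix 0 2 55 6 (.mix 0 0 55 19 (.mix 4 0 59 18 (.mix 0 1 50 6 (.mix 0 0 49 19 (.mix 0 2 40 5 (.mix 0 2 38 6 (.mix 0 2 36 9 (.mix 0 2 34 17 (.mix 0 0 32 17 (.mix 0 1 17 9 (.mix 0 1 14 15 (.cond 8 7 (T152) (.contra [(1, 15), (16, 780), (12, 68), (10, 116)] 0)))))))))))))))) (.mix 0 1 55 5 (.mix 0 1 46 8 (.mix 0 0 45 5 (.mix 0 1 36 8 (.mix 0 0 34 5 (.mix 0 1 32 8 (.mix 0 0 30 5 (.mix 0 1 28 8 (.mix 0 1 13 17 (.mix 0 0 10 17 (.cond 1 0 (.contra [(1, 15), (16, 43440), (12, 5392), (10, 7144)] 0) (.contra [(0, 15), (16, 122670), (12, 7306), (10, 9217)] 0)))))))))))) (.mix 0 2 55 19 (.mix 0 2 46 5 (.mix 0 2 45 6 (.mix 0 2 36 9 (.dn 4 (.mix 0 2 4 6 (.mix 0 0 4 19 (.cond 1 0 (.contra [(0, 5), (16, 420), (12, 44), (10, 63)] 0) (.contra [(1, 15), (16, 1830), (12, 106), (10, 112)]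 0)))) (.mix 0 0 4 19 (.mix 0 1 4 7 (.mix 0 1 4 18 (.mix 0 0 4 15 (.cond 1 0 (.contra [(0, 15), (16, 14070), (12, 994), (10, 1513)] 0) (.contra [(1, 15), (16, 3960), (12, 232), (10, 664)] 0)))))) (.mix 0 1 4 18 (.mix 0 0 4 15 (.cond 1 0 (.contra [(1, 2185), (16, 32040), (10, 6517), (4, 21)] 0) (.contra [(0, 15), (16, 2220), (12, 164), (10, 203)] 0)))) (.mix 0 0 4 5 (.cond 1 0 (.contra [(0, 15), (16, 1365), (12, 103), (10, 181)] 0) (.contra [(1, 15), (16, 405), (12, 41), (10, 32)] 0))) (.mix 0 2 4 17 (.mix 0 2 4 8 (.mix 0 0 4 5 (.cond 1 0 (.contra [(1, 15), (16, 7380), (12, 476), (10, 752)] 0) (.contra [(0, 15), (16, 1290), (12, 158), (10, 341)] 0)))))))))) (.mix 0 2 56 16 (.mix 0 0 55 9 (.cond 1 0 (.contra [(0, 15), (16, 630), (12, 37), (10, 64)] 0) (.contra [(1, 15), (16, 210), (12, 14), (10, 8)] 0)))) (.mix 0 1 56 15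 (.mix 0 1 55 16 (.mix 0 0 55 9 (.cond 1 0 (.contra [(1, 3), (16, 276), (12, 20), (10, 32)] 0) (.contra [(0, 1), (16, 24), (12, 1)] 0)))))

def T154 : Tr := .up 22 (.mix 0 1 18 1 (.mix 0 0 18 4 (.cond 1 0 (.contra [(0, 1), (4, 25), (3, 12)] 0) (.contra [(1, 1), (10, 1150), (6, 82), (4, 136)] 0)))) (.mix 0 0 18 4 (.cond 1 0 (.contra [(1, 3), (10, 525), (6, 17), (4, 56)] 0) (.contra [(0, 3), (10, 1575), (6, 101), (4, 143)] 0))) (.mix 0 2 18 13 (.mix 0 0 18 0 (.mix 0 1 18 1 (.mix 0 0 16 4 (.mix 0 2 14 1 (.mix 0 2 12 0 (.mix 0 0 10 3 (.cond 1 0 (.contra [(0, 3), (10, 76650), (6, 3902), (4, 7091)] 0) (.contra [(1, 3), (10, 46800), (6, 3184), (4, 2872)] 0))))))))) (.mix 0 1 22 0 (.mix 0 0 22 3 (.mix 0 1 22 0 (.mix 0 0 22 3 (.mix 4 0 22 10 (.mix 0 2 22 11 (.mix 0 0 22 14 (.mix 0 2 20 2 (.mix 0 0 18 2 (.mix 0 1 16 14 (.mix 0 0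 14 1 (.mix 0 2 12 0 (.cond 2 1 (.h2 15 18 (.mix 15 0 0 0 (.mix 15 0 0 2 (.mix 3 2 0 14 (.cond 17 1 (.h0 3 false (.cond 4 0 (T153) (.contra [(1, 15), (14, 24840), (10, 1816), (8, 2332)] 0)) (.mix 3 1 0 1 (.mix 3 2 0 13 (.mix 3 0 0 1 (.cond 4 0 (.contra [(0, 3), (14, 934050), (10, 60134), (8, 93527)] 0) (.contra [(1, 1), (4, 8)] 0)))))) (.contra [(1, 3), (12, 93600), (8, 6368), (6, 10544)] 0))))) (.mix 15 1 0 2 (.mix 15 2 0 13 (.mix 3 0 0 3 (.cond 4 0 (.contra [(0, 1), (12, 72950), (8, 6626), (6, 11453)] 0) (.contra [(1, 1), (2, 4)] 0)))))) (.contra [(1, 3), (10, 89400), (6, 5032), (4, 7396)] 0)))))))))))))) (.mix 0 1 18 12 (.mix 0 1 18 3 (.mix 0 0 18 10 (.mix 0 2 16 11 (.mix 0 2 14 3 (.mix 0 2 12 12 (.mix 0 2 10 4 (.mix 0 0 8 11 (.cond 1 0 (.contra [(1, 3), (10, 148800), (6, 12224), (4, 17312)] 0) (.contra [(0, 1), (10,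 31950), (6, 1386), (4, 1393)] 0))))))))))

def T155 : Tr := .dn 8 (.mix 0 1 4 8 (.mix 0 1 4 17 (.mix 0 0 4 17 (.cond 1 0 (.contra [(1, 15), (10, 1980), (6, 148), (4, 376)] 0) (.contra [(0, 15), (10, 3390), (6, 314), (4, 443)] 0))))) (.mix 0 1 8 5 (.mix 0 1 8 8 (.mix 0 0 8 5 (.cond 1 0 (.contra [(1, 5), (10, 60), (6, 36), (4, 32)] 0) (.contra [(0, 5), (10, 2480), (6, 163), (4, 256)] 0))))) (.mix 0 0 4 7 (.mix 0 2 4 19 (.mix 0 2 4 5 (.mix 0 0 4 18 (.cond 1 0 (.cond 4 3 (.contra [(0, 6), (8, 2560), (6, 9895), (2, 369)] 0) (.contra [(1, 6), (8, 220), (6, 865), (2, 33)] 0)) (.contra [(1, 15), (10, 14760), (6, 1016), (4, 1592)] 0)))))) (.mix 0 1 8 17 (.mix 0 0 8 17 (.mix 0 2 8 8 (.mix 0 2 8 16 (.mix 4 2 8 16 (.mix 0 2 8 15 (.mix 0 2 8 18 (.dn 7 (.mix 0 2 3 6 (.mix 0 0 3 19 (.cond 1 0 (.contra [(1, 15), (10, 14610), (6, 1006),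 (4, 1372)] 0) (.contra [(0, 5), (10, 3360), (6, 256), (4, 497)] 0)))) (.mix 0 1 7 5 (.mix 0 1 7 8 (.mix 0 0 7 5 (.cond 1 0 (.contra [(1, 5), (10, 2540), (6, 284), (4, 608)] 0) (.contra [(0, 15), (10, 14040), (6, 559), (4, 1408)] 0))))) (.mix 0 2 7 19 (.mix 0 2 7 5 (.mix 0 2 7 6 (.mix 0 0 7 19 (.cond 1 0 (.contra [(1, 5), (10, 22440), (6, 1624), (4, 2688)] 0) (.contra [(0, 15), (10, 32460), (6, 1291), (4, 1792)] 0)))))) (.mix 0 1 7 17 (.mix 0 0 7 17 (.mix 0 2 7 8 (.mix 0 0 7 5 (.cond 1 0 (.contra [(0, 5), (10, 11460), (6, 1041), (4, 1792)] 0) (.contra [(1, 15), (10, 66360), (6, 3956), (4, 6272)] 0)))))) (.mix 0 2 3 17 (.mix 0 2 3 8 (.mix 0 0 3 5 (.cond 1 0 (.contra [(0, 5), (10, 9290), (6, 734), (4, 1133)] 0) (.contra [(1, 15), (10, 22860), (6, 1156), (4, 1672)] 0))))))))))))) (.mix 0 0 8 6 (.mix 0 2 8 9 (.mix 0 2 8 17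 (.mix 0 0 8 17 (.cond 1 0 (.contra [(0, 15), (10, 2580), (6, 313), (4, 256)] 0) (.contra [(1, 15), (10, 10440), (6, 784), (4, 1408)] 0))))))

def T156 : Tr := .h0 9 true (.mix 9 2 0 1 (.mix 2 1 0 14 (.h2 2 12 (.mix 2 0 0 4 (.cond 3 0 (.contra [(0, 1), (10, 350), (6, 26), (4, 41)] 0) (.contra [(1, 1), (4, 8)] 0))) (.mix 2 2 0 0 (.mix 2 0 0 1 (.h0 2 true (.mix 2 2 0 14 (.mix 2 2 0 0 (.h2 2 5 (.mix 2 2 0 2 (.mix 2 0 0 3 (.cond 3 0 (.contra [(0, 3), (10, 1050), (6, 334), (4, 187)] 0) (.contra [(1, 3), (10, 23400), (6, 1592), (4, 2636)] 0)))) (.mix 2 0 0 1 (.mix 2 2 0 14 (.h0 2 true (.mix 2 1 0 13 (.mix 2 2 0 2 (T154))) (.mix 2 2 0 0 (.mix 2 0 0 1 (.cond 3 0 (.contra [(0, 2), (10, 5375), (6, 285), (3, 69)] 0) (.contra [(1, 3), (10, 46800), (6, 3184), (4, 5272)] 0)))))))))) (.mix 2 0 0 3 (.cond 3 0 (.contra [(0, 3), (10, 1650),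 (6, 86), (4, 143)] 0) (.contra [(1, 1), (4, 16)] 0))))))))) (.dn 24 (.mix 0 1 24 8 (.mix 0 0 23 5 (.mix 0 2 23 6 (.mix 0 0 23 19 (.mix 4 0 27 18 (.mix 0 1 18 6 (.mix 0 0 17 19 (.mix 0 1 8 7 (T155))))))))) (.mix 0 2 24 9 (.mix 0 2 23 17 (.mix 2 1 25 5 (.dn 3 (.mix 0 2 3 6 (.mix 0 0 3 19 (.cond 1 0 (.contra [(0, 15), (10, 2670), (6, 211), (4, 352)] 0) (.contra [(1, 5), (10, 870), (6, 46), (4, 72)] 0)))) (.mix 0 0 3 19 (.cond 1 0 (.contra [(1, 15), (10, 1395), (6, 101), (4, 182)] 0) (.contra [(0, 5), (10, 395), (6, 26), (4, 32)] 0))) (.mix 0 1 3 18 (.mix 0 0 3 15 (.cond 1 0 (.contra [(1, 15), (10, 570), (6, 86), (4, 152)] 0) (.contra [(0, 5), (10, 1230), (6, 79), (4, 128)] 0)))) (.mix 0 0 3 5 (.cond 1 0 (.contra [(0, 15), (10, 405), (6, 34), (4, 88)] 0) (.contra [(1, 5), (10, 595), (6, 41), (4, 62)] 0))) (.mix 0 0 1 6 (.cond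 1 0 (.contra [(1, 15), (10, 915), (6, 47), (4, 104)] 0) (.contra [(0, 5), (10, 315), (6, 17), (4, 19)] 0))))))) (.mix 0 2 23 19 (.mix 0 2 14 5 (.mix 0 2 13 6 (.mix 0 0 4 19 (.cond 1 0 (.contra [(0, 5), (10, 810), (6, 62), (4, 99)] 0) (.contra [(1, 5), (10, 520), (6, 24), (4, 48)] 0)))))) (.mix 0 2 24 16 (.mix 0 0 23 9 (.cond 1 0 (.contra [(0, 15), (10, 630), (6, 37), (4, 64)] 0) (.contra [(1, 15), (10, 210), (6, 14), (4, 8)] 0)))) (.mix 0 1 24 15 (.mix 0 1 23 16 (.mix 0 0 23 9 (.cond 1 0 (.contra [(1, 3), (10, 276), (6, 20), (4, 32)] 0) (.contra [(0, 1), (10, 24), (6, 1)] 0))))))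

def T157 : Tr := .dn 6 (.mix 0 1 6 8 (.mix 0 1 6 17 (.mix 0 0 6 17 (.mix 0 1 6 9 (.h0 27 true (.mix 8 1 0 19 (.mix 2 0 0 6 (.cond 3 0 (.contra [(1, 1), (10, 8008), (2, 120)] 5812) (.contra [(0, 1), (10, 114), (2, 10)] 271)))) (.mix 8 0 0 9 (.cond 9 0 (.contra [(0, 1), (10, 546), (2, 10)] 399) (.contra [(1, 1), (10, 2648), (2, 40)] 1852)))))))) (.mix 0 2 6 9 (.mix 0 0 6 6 (.mix 0 2 6 9 (.mix 0 0 6 6 (.cond 1 0 (.contra [(1, 1), (10, 2864), (2, 40)] 1916) (.contra [(0, 1), (10, 1838), (2, 30)] 1197)))))) (.mix 0 0 6 7 (.mix 1 1 3 18 (.mix 0 1 3 6 (.cond 3 2 (.contra [(0, 17), (1, 31)] 625) (.h0 19 false (.mix 19 1 0 0 (.mix 13 1 0 12 (.up 20 (.mix 0 1 16 1 (.mix 0 1 16 13 (.mix 0 0 3 0 (.cond 1 0 (.contra [(0, 7), (12, 206400), (4, 1183), (3, 7550)] 0) (.contra [(1, 7), (12, 216800), (4, 1176), (3, 8100)] 0))))) (.mix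 0 1 20 13 (.mix 0 1 20 2 (.mix 0 0 20 2 (.cond 1 0 (.contra [(0, 7), (12, 295425), (4, 1638), (3, 10975)] 0) (.contra [(1, 7), (12, 98600), (4, 616), (3, 3700)] 0))))) (.mix 0 0 20 2 (.mix 0 1 20 14 (.mix 0 1 20 11 (.mix 0 1 20 10 (.h0 34 true (.mix 30 0 0 12 (.mix 23 2 0 1 (.mix 3 0 0 13 (.cond 4 0 (.contra [(0, 7), (12, 710025), (4, 3822), (3, 26675)] 0) (.contra [(1, 7), (12, 1022800), (4, 5824), (3, 37600)] 0))))) (.mix 15 0 0 9 (.cond 16 0 (.contra [(0, 1), (12, 1515), (4, 10), (3, 57)] 0) (.contra [(1, 7), (12, 50020), (4, 280), (3, 1852)] 0)))))))) (.mix 0 1 20 0 (.mix 0 0 20 3 (.mix 0 1 20 0 (.mix 0 0 20 3 (.cond 1 0 (.contra [(1, 1), (12, 39500), (4, 216), (3, 1500)] 0) (.contra [(0, 1), (12, 50625), (4, 302), (3, 1875)] 0)))))) (.mix 0 2 20 1 (.mix 0 2 20 0 (.mix 0 2 20 14 (.mix 0 0 20 1 (.cond 1 0 (.contra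 [(0, 1), (12, 61975), (4, 354), (3, 2325)] 0) (.contra [(1, 1), (12, 16800), (4, 112), (3, 600)] 0))))))))) (.mix 5 2 0 15 (.mix 2 0 0 19 (.cond 3 0 (.contra [(1, 1), (3, 4)] 0) (.contra [(0, 7), (12, 33200), (4, 175), (3, 1234)] 0))))))))) (.mix 0 0 2 5 (.cond 1 0 (.contra [(0, 1), (10, 339), (2, 5)] 251) (.contra [(1, 1), (10, 633), (2, 10)] 447))) (.mix 0 2 2 17 (.mix 0 0 2 17 (.cond 1 0 (.contra [(1, 1), (10, 1354), (2, 20)] 946) (.contra [(0, 1), (10, 928), (2, 15)] 672))))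

def T158 : Tr := .dn 20 (.mix 0 1 20 8 (.mix 0 0 19 5 (.cond 1 0 (.contra [(0, 1), (10, 120), (2, 2)] 83) (.contra [(1, 1), (10, 270), (2, 4)] 186)))) (.mix 0 2 20 9 (.mix 0 2 19 17 (.mix 0 2 19 8 (.mix 0 0 19 5 (.dn 4 (.mix 0 2 4 6 (.mix 0 0 4 19 (.cond 1 0 (.contra [(0, 1), (10, 924), (2, 14)] 677) (.contra [(1, 1), (10, 842), (2, 12)] 566)))) (.mix 0 0 4 19 (.cond 1 0 (.contra [(1, 1), (10, 279), (2, 4)] 207) (.contra [(0, 1), (10, 787), (2, 12)] 546))) (.mix 0 1 4 18 (.mix 0 0 4 15 (.cond 1 0 (.contra [(1, 1), (10, 234), (2, 4)] 202) (.contra [(0, 1), (10, 1228), (2, 18)] 859)))) (.mix 0 0 4 5 (.mix 0 2 4 6 (.mix 0 0 4 19 (.mix 0 2 4 5 (.h0 25 true (.mix 6 1 0 8 (.mix 2 0 0 18 (.cond 3 0 (.contra [(0, 1), (10, 11494), (2, 174)] 8197) (.contra [(1, 1), (10, 1048), (2, 8)] 524)))) (.mix 21 2 0 4 (.mix 14 0 0 11 (.mix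 8 2 2 6 (.mix 4 2 0 6 (.cond 17 2 (.contra [(1, 1), (10, 4200), (2, 56)] 2900) (.h0 4 true (.mix 2 2 0 9 (.mix 2 0 0 19 (.cond 3 0 (.contra [(0, 125), (12, 5778000), (4, 64512), (2, 13381)] 0) (.contra [(1, 125), (12, 524000), (4, 4096), (2, 1048)] 0)))) (.mix 4 0 0 11 (.cond 5 0 (.contra [(1, 25), (12, 180000), (4, 2048), (2, 424)] 0) (.contra [(0, 25), (12, 190000), (4, 2048), (2, 449)] 0)))))))))))))) (.mix 0 2 4 17 (.mix 0 2 4 8 (.mix 0 0 4 5 (.cond 1 0 (.contra [(0, 1), (10, 954), (2, 14)] 597) (.contra [(1, 1), (10, 388), (2, 8)] 284)))))))))) (.mix 0 0 20 7 (.mix 0 1 19 18 (.mix 0 0 19 15 (.mix 0 1 19 16 (.mix 4 2 23 19 (.mix 0 0 14 16 (T157))))))) (.mix 0 2 20 16 (.mix 0 0 19 9 (.cond 1 0 (.contra [(0, 1), (10, 144), (2, 2)] 99) (.contra [(1, 1), (10, 258), (2, 4)] 178)))) (.mix 0 1 20 15 (.mix 0 1 19 16 (.mix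 0 0 19 9 (.cond 1 0 (.contra [(1, 1), (10, 532), (2, 8)] 380) (.contra [(0, 1), (10, 394), (2, 6)] 265)))))

def T159 : Tr := .mix 4 2 0 1 (.mix 4 1 0 14 (.mix 4 0 0 10 (.mix 4 1 0 0 (.cond 9 4 (.h0 15 false (.mix 15 2 0 3 (.mix 15 1 0 2 (.mix 15 0 0 4 (.mix 15 1 0 4 (.mix 15 0 0 0 (.h2 5 21 (.mix 5 0 0 10 (.cond 6 0 (.contra [(0, 35), (22, 244250), (16, 4699), (12, 594)] 0) (.contra [(1, 35), (22, 1434000), (16, 7032), (12, 3152)] 0))) (.mix 5 2 0 12 (.mix 5 1 0 14 (.mix 5 1 0 12 (.mix 5 1 0 12 (.mix 5 1 0 1 (.h2 16 21 (.mix 16 0 0 4 (.mix 16 1 0 11 (.mix 16 2 0 11 (.mix 16 0 0 3 (.cond 17 0 (.contra [(0, 7), (22, 55090000), (16, 398848), (12, 126019)] 0) (.contra [(1, 1), (6, 8)] 0)))))) (.h0 0 true (.cond 1 0 (.contra [(1, 1), (2, 4)] 0) (.contra [(0, 175), (22, 4882800), (16, 20992), (12, 10257)] 0)) (.h0 7 true (.mix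 7 0 0 12 (.cond 8 0 (.contra [(0, 35), (22, 515250), (16, 1903), (12, 2058)] 0) (.contra [(1, 35), (22, 2868000), (16, 14064), (12, 6304)] 0))) (.mix 7 2 0 4 (.mix 7 0 0 1 (.mix 7 0 0 12 (.mix 7 0 0 12 (.mix 7 1 0 13 (.h0 5 true (.exc 18 0 7 ⟨78, -18, 0, -411057659, 94859460, 0, 2877402833, -664016040, 0⟩ ⟨242046, 0, -11457, -1275575155577, 0, 60378046146, 8929023668579, 0, -422646208452⟩ ⟨-3, -51154, 198304, 15809910, 269580045380, -1045056132890, -110669340, -1887059806120, 7315390947190⟩ 1) (.mix 5 0 0 11 (.mix 5 1 0 13 (.mix 5 1 0 3 (.mix 5 1 0 3 (.mix 5 0 0 0 (.cond 6 0 (.contra [(1, 7), (22, 713430000), (16, 3261896), (12, 1616688)] 0) (.contra [(0, 7), (22, 156033750), (16, 2413293), (12, 204254)] 0))))))))))))))))))))))))))) (.mix 15 0 0 14 (.mix 15 2 0 10 (.mix 15 2 0 0 (.mix 15 0 0 13 (.cond 16 0 (.contra [(1,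 1), (4, 4)] 0) (.contra [(0, 7), (22, 15258750), (16, 61113), (12, 32614)] 0))))))) (.contra [(1, 175), (20, 483200), (14, 4096), (10, 1416)] 0)))))

def T160 : Tr := .h0 11 true (.mix 11 2 0 3 (.mix 11 1 0 10 (.mix 11 1 0 12 (.mix 11 1 0 12 (.mix 11 1 0 3 (.h2 5 17 (.mix 5 0 0 10 (.mix 5 1 0 4 (.mix 5 1 0 3 (.mix 5 1 0 3 (.mix 5 0 0 10 (.cond 6 0 (.contra [(0, 7), (16, 8250000), (6, 32475), (5, 464)] 0) (.contra [(1, 7), (16, 43520000), (10, 262144), (6, 96432)] 0))))))) (.mix 5 2 0 12 (.mix 5 0 0 13 (.mix 5 0 0 12 (.mix 5 0 0 12 (.cond 6 0 (.contra [(1, 7), (16, 3120000), (10, 36864), (6, 7192)] 0) (.h0 16 false (.cond 17 0 (.contra [(1, 1), (4, 4)] 0) (.contra [(0, 175), (18, 150650), (12, 811), (8, 306)] 0)) (.mix 16 0 0 10 (.mix 16 2 0 10 (.mix 16 2 0 4 (.mix 16 0 0 11 (.mix 16 0 0 2 (.cond 18 1 (.contra [(1, 7),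 (18, 1510000), (12, 16072), (8, 4016)] 0) (.h0 5 false (.cond 6 0 (.contra [(1, 1), (6, 8)] 0) (.contra [(0, 35), (20, 55090), (14, 303), (10, 138)] 0)) (.mix 5 2 0 11 (.mix 5 0 0 13 (.mix 5 2 0 1 (.mix 5 1 0 10 (.mix 5 2 0 13 (.h0 16 true (.mix 16 0 0 12 (.cond 17 0 (.contra [(1, 35), (20, 688000), (14, 4096), (10, 1576)] 0) (.contra [(0, 35), (20, 214000), (14, 512), (10, 297)] 0))) (.mix 16 2 0 4 (.mix 16 1 0 2 (.mix 16 1 0 3 (.mix 16 1 0 3 (.h0 4 true (T159) (.mix 4 0 0 11 (.cond 5 0 (.contra [(1, 35), (20, 1376000), (14, 8192), (10, 3152)] 0) (.contra [(0, 35), (20, 262000), (10, 837), (9, 48)] 0))))))))))))))))))))))))))))))))) (.mix 11 1 0 10 (.mix 11 0 0 14 (.cond 12 0 (.contra [(0, 7), (16, 150000), (10, 512), (6, 345)] 0) (.contra [(1, 1), (6, 8)] 0))))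

def T161 : Tr := .dn 65 (.mix 0 1 65 8 (.mix 0 0 64 5 (.mix 2 0 66 18 (.mix 0 2 57 7 (.mix 0 0 49 7 (.mix 0 1 47 18 (.mix 0 0 45 15 (.cond 1 0 (.contra [(0, 175), (14, 82150), (8, 269), (4, 174)] 0) (.cond 6 5 (.contra [(0, 56), (16, 1240), (10, 20), (3, 21)] 0) (.contra [(1, 4), (16, 1040), (10, 20), (3, 13)] 0)))))))))) (.mix 0 2 65 9 (.mix 0 2 64 17 (.mix 0 2 64 8 (.mix 0 0 64 5 (.mix 0 1 40 8 (.mix 5 1 69 5 (.dn 6 (.mix 0 2 6 6 (.mix 0 0 6 19 (.cond 1 0 (.contra [(0, 175), (14, 48650), (8, 352), (4, 117)] 0) (.contra [(1, 175), (14, 45450), (8, 216), (4, 86)] 0)))) (.mix 0 0 6 19 (.cond 1 0 (.contra [(1, 175), (14, 21275), (8, 182), (4, 47)] 0) (.contra [(0, 175), (14, 28825), (8, 96), (4, 66)] 0))) (.mix 0 1 6 18 (.mix 0 0 6 15 (.cond 1 0 (.contra [(1, 175), (14, 11650), (8, 152), (4, 42)] 0) (.contra [(0, 175),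 (14, 65550), (8, 384), (4, 139)] 0)))) (.mix 0 0 6 5 (.mix 0 2 6 6 (.mix 0 0 6 19 (.mix 0 2 6 5 (.mix 0 0 6 18 (.cond 1 0 (.contra [(0, 175), (14, 530400), (8, 3072), (4, 1237)] 0) (.contra [(1, 175), (14, 166800), (8, 1024), (4, 204)] 0))))))) (.mix 0 0 1 6 (.cond 1 0 (.contra [(1, 175), (14, 8175), (8, 104), (4, 9)] 0) (.contra [(0, 175), (14, 22275), (8, 57), (4, 47)] 0)))))))))) (.mix 0 0 65 7 (.mix 0 1 64 18 (.mix 0 0 64 15 (.mix 0 1 64 16 (.mix 0 1 40 19 (.mix 5 2 69 19 (.mix 0 0 60 16 (.mix 0 1 52 19 (.mix 0 1 50 7 (.mix 0 1 48 18 (.h2 46 71 (.mix 6 0 0 16 (.cond 7 0 (.contra [(0, 175), (14, 35600), (8, 512), (4, 127)] 0) (.contra [(1, 175), (14, 223200), (8, 1024), (4, 504)] 0))) (.mix 46 2 0 4 (.mix 46 1 0 14 (.mix 41 1 0 1 (.mix 31 0 0 10 (.mix 21 1 0 4 (.h0 55 true (.mix 55 0 0 12 (.mix 55 0 0 2 (.mix 42 2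 0 3 (.mix 32 2 0 12 (.mix 22 0 0 13 (.cond 61 5 (.contra [(1, 175), (14, 15600), (8, 88), (4, 48)] 0) (.h0 11 true (.mix 11 2 0 1 (.mix 11 0 0 1 (.cond 12 0 (.contra [(0, 7), (16, 70000), (10, 512), (6, 153)] 0) (.contra [(1, 1), (6, 4)] 0)))) (.mix 11 0 0 11 (.mix 11 1 0 11 (.mix 11 0 0 4 (.mix 11 1 0 4 (.mix 11 1 0 12 (.h2 11 67 (.mix 11 1 0 3 (.mix 11 2 0 13 (.mix 11 2 0 12 (.mix 11 2 0 4 (.mix 11 1 0 2 (T160)))))) (.mix 11 2 0 4 (.mix 11 1 0 14 (.mix 11 0 0 10 (.cond 12 0 (.contra [(0, 224), (16, 3712500), (6, 7220), (5, 227)] 0) (.contra [(1, 7), (16, 430000), (10, 2376), (6, 1008)] 0)))))))))))))))))) (.mix 7 0 0 15 (.cond 8 0 (.contra [(1, 175), (14, 217600), (8, 1072), (4, 512)] 0) (.contra [(0, 175), (14, 47050), (8, 771), (4, 66)] 0)))))))))))))))))))) (.mix 0 2 65 16 (.mix 0 0 64 9 (.cond 1 0 (.contra [(0,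 175), (14, 9850), (8, 64), (4, 19)] 0) (.contra [(1, 175), (14, 7450), (8, 8), (4, 18)] 0)))) (.mix 0 1 65 15 (.mix 0 1 64 16 (.mix 0 0 64 9 (.cond 1 0 (.contra [(1, 35), (14, 5220), (8, 32), (4, 12)] 0) (.contra [(0, 7), (14, 468), (4, 1)] 0)))))

def T162 : Tr := .up 10 (.mix 0 0 5 3 (.cond 1 0 (.contra [(0, 14), (12, 3200), (6, 125), (4, 329)] 0) (.contra [(1, 14), (12, 18100), (6, 275), (4, 357)] 0))) (.mix 0 1 10 13 (.mix 0 0 10 0 (.mix 0 1 10 1 (.mix 0 0 10 4 (.cond 1 0 (.contra [(0, 14), (12, 93550), (6, 845), (4, 2331)] 0) (.contra [(1, 7), (12, 58300), (6, 1270), (4, 826)] 0)))))) (.mix 0 0 10 2 (.cond 1 0 (.contra [(0, 7), (12, 1425), (6, 10), (4, 126)] 0) (.contra [(1, 14), (12, 18800), (6, 485), (4, 511)] 0))) (.mix 0 1 10 0 (.mix 0 1 10 1 (.mix 0 0 10 4 (.mix 0 1 10 12 (.mix 0 1 10 3 (.mix 5 2 10 12 (.mix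 0 0 10 12 (.mix 0 1 10 3 (.mix 0 1 10 0 (.mix 0 0 10 3 (.cond 8 7 (.up 10 (.mix 0 0 5 3 (.mix 0 1 5 0 (.mix 0 1 5 1 (.mix 0 0 5 4 (.cond 1 0 (.contra [(0, 224), (14, 14437500), (4, 42300), (3, 449)] 0) (.contra [(1, 7), (14, 1015000), (8, 7208), (4, 2424)] 0)))))) (.mix 0 0 10 4 (.mix 0 1 10 12 (.mix 0 0 10 12 (.mix 0 1 10 3 (.mix 0 0 10 10 (.mix 5 2 10 0 (.mix 0 2 10 14 (.mix 0 2 10 2 (.mix 0 2 10 13 (.mix 0 2 10 10 (T161))))))))))) (.mix 0 2 10 13 (.mix 0 0 10 0 (.cond 1 0 (.contra [(0, 7), (14, 186250), (8, 1216), (4, 323)] 0) (.contra [(1, 7), (14, 246250), (8, 648), (4, 594)] 0)))) (.mix 0 0 10 10 (.cond 1 0 (.contra [(1, 28), (8, 5000), (3, 117)] 0) (.contra [(0, 7), (14, 163125), (8, 912), (4, 386)] 0))) (.mix 0 0 5 11 (.mix 0 2 5 3 (.mix 0 0 5 10 (.cond 1 0 (.contra [(0, 7), (14, 388750), (8, 699), (4, 822)] 0)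 (.contra [(1, 7), (14, 302500), (8, 1228), (4, 884)] 0)))))) (.contra [(0, 84), (12, 109500), (4, 7840), (1, 83)] 0)))))))))))) (.mix 0 2 10 1 (.mix 0 0 10 4 (.mix 0 1 10 12 (.mix 0 1 10 3 (.mix 0 0 10 10 (.cond 1 0 (.contra [(1, 7), (12, 105800), (6, 3540), (4, 3276)] 0) (.contra [(0, 14), (12, 220950), (6, 2385), (4, 2359)] 0)))))))

def T163 : Tr := .mix 2 2 0 12 (.mix 2 1 0 2 (.h0 24 true (.mix 20 0 0 12 (.mix 13 0 0 2 (.cond 14 0 (.contra [(1, 1), (10, 400), (6, 24)] 0) (.up 18 (.mix 0 1 18 1 (.mix 0 1 18 13 (.mix 0 0 18 0 (.cond 1 0 (.contra [(0, 2), (12, 2250), (6, 43), (4, 45)] 0) (.contra [(1, 7), (12, 1000), (6, 106), (4, 70)] 0))))) (.mix 0 0 18 4 (.mix 0 2 18 1 (.mix 0 0 18 4 (.mix 0 1 18 12 (.mix 0 0 5 12 (.cond 1 0 (.contra [(0, 7), (12, 40000), (2, 117)] 0) (.contra [(1, 7), (12, 30000), (2, 44)] 0)))))))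 (.mix 0 2 18 13 (.mix 0 2 18 10 (.mix 0 2 18 11 (.mix 0 0 18 14 (.cond 1 0 (.contra [(0, 14), (12, 18150), (6, 561), (4, 343)] 0) (.contra [(1, 7), (12, 1600), (6, 164), (4, 252)] 0)))))) (.mix 0 0 18 10 (.mix 0 1 18 4 (.mix 0 1 18 12 (.mix 0 1 18 3 (.mix 0 1 5 0 (.mix 5 2 19 12 (.mix 0 0 19 12 (.mix 0 1 17 3 (.mix 0 0 15 10 (.mix 0 2 13 11 (T162))))))))))) (.mix 0 1 18 12 (.mix 0 0 18 12 (.mix 0 1 18 3 (.mix 0 0 18 10 (.cond 1 0 (.cond 3 2 (.contra [(0, 4), (3, 1)] 0) (.contra [(1, 14), (14, 62500), (8, 1200), (3, 63)] 0)) (.contra [(0, 14), (12, 13450), (6, 599), (4, 609)] 0)))))))))) (.mix 20 2 0 4 (.mix 13 1 0 14 (.h0 2 true (.mix 2 2 0 1 (.mix 2 0 0 1 (.cond 3 0 (.contra [(1, 1), (10, 800), (6, 48)] 0) (.contra [(0, 7), (10, 14500), (6, 595), (4, 256)] 0)))) (.mix 2 0 0 11 (.cond 3 0 (.contra [(1, 1), (6, 8)] 0)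 (.contra [(0, 35), (10, 11700), (6, 567), (4, 256)] 0))))))))

def T164 : Tr := .cond 17 1 (.contra [(1, 1), (8, 400), (4, 24)] 0) (.up 11 (.mix 0 0 7 3 (.cond 1 0 (.contra [(0, 7), (10, 16875), (4, 39), (2, 47)] 0) (.contra [(1, 7), (10, 25625), (4, 112), (2, 51)] 0))) (.mix 0 1 11 13 (.mix 0 0 11 0 (.mix 0 1 11 1 (.mix 0 0 11 4 (.cond 1 0 (.contra [(0, 7), (10, 155000), (4, 256), (2, 333)] 0) (.contra [(1, 7), (10, 135000), (4, 1152), (2, 236)] 0)))))) (.mix 0 0 11 2 (.cond 1 0 (.h0 16 false (.cond 17 0 (.contra [(0, 1400), (12, 502325), (4, 1332), (2, 231)] 0) (.contra [(1, 25), (12, 11850), (4, 32), (2, 6)] 0)) (.mix 16 2 0 11 (.mix 16 0 0 1 (.mix 9 2 0 1 (.h0 3 false (.cond 4 0 (.contra [(0, 200), (12, 163175), (4, 444), (2, 77)] 0) (.contra [(1, 25), (12, 23700), (4, 64), (2, 12)] 0)) (.mix 3 0 0 14 (.mix 3 1 0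 13 (.mix 3 0 0 4 (.cond 4 0 (.contra [(1, 7), (12, 184375), (4, 460), (2, 77)] 0) (.contra [(0, 56), (12, 8603125), (4, 23220), (2, 4263)] 0)))))))))) (.contra [(1, 7), (10, 33125), (4, 206), (2, 73)] 0))) (.mix 0 1 11 0 (.mix 0 1 11 1 (.mix 0 0 11 4 (.mix 3 2 10 12 (.mix 0 0 10 12 (.mix 0 2 10 4 (.cond 4 3 (.h0 21 false (.cond 22 0 (.contra [(0, 175), (12, 8650), (6, 33), (4, 18)] 0) (.contra [(1, 175), (12, 4200), (6, 48), (4, 8)] 0)) (.mix 21 2 0 11 (.mix 21 0 0 1 (.mix 14 2 0 1 (.mix 4 0 0 11 (.cond 5 0 (.contra [(0, 7), (12, 241250), (6, 1337), (4, 586)] 0) (.contra [(1, 7), (6, 2500), (3, 48)] 0))))))) (.contra [(0, 7), (10, 62500), (2, 175), (1, 4)] 0)))))))) (.mix 0 2 11 1 (.mix 0 0 11 4 (.mix 0 1 11 12 (.mix 0 1 11 3 (.mix 0 0 5 10 (.cond 1 0 (.contra [(1, 7), (10, 410000), (4, 3072), (2, 936)] 0) (.contra [(0,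 7), (10, 220000), (4, 1024), (2, 337)] 0))))))))

def T165 : Tr := .h0 8 false (.mix 8 1 0 0 (.mix 2 1 0 1 (.h2 2 11 (.mix 2 1 0 1 (.mix 2 0 0 4 (.cond 3 0 (.contra [(1, 1), (2, 4)] 0) (.contra [(0, 7), (8, 2150), (4, 154), (2, 41)] 0)))) (.mix 2 0 0 3 (.mix 2 1 0 13 (.cond 4 1 (.contra [(1, 35), (8, 3800), (4, 168), (2, 64)] 0) (.h0 2 true (.mix 2 1 0 0 (.mix 2 0 0 0 (.cond 3 0 (.contra [(1, 1), (4, 8)] 0) (.contra [(0, 1), (10, 1050), (6, 38), (4, 15)] 0)))) (T163)))))))) (.mix 8 0 0 10 (.mix 2 2 0 14 (.up 9 (.mix 0 1 9 1 (.mix 0 1 9 13 (.mix 0 0 9 0 (.cond 1 0 (.contra [(0, 7), (8, 9000), (4, 315), (2, 128)] 0) (.contra [(1, 7), (8, 1500), (4, 140), (2, 96)] 0))))) (.mix 0 2 5 0 (.mix 0 2 5 14 (.mix 0 0 3 1 (.cond 1 0 (.contra [(0, 7), (8, 8650), (4, 294), (2, 135)] 0) (.contra [(1, 7), (8, 4300), (4, 308), (2, 40)]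 0))))) (.mix 0 2 9 13 (.mix 0 2 9 10 (.mix 0 2 9 11 (.mix 0 0 9 14 (.cond 1 0 (.contra [(0, 7), (8, 10300), (4, 343), (2, 256)] 0) (.contra [(1, 7), (8, 3400), (4, 504), (2, 128)] 0)))))) (.mix 0 0 9 10 (.mix 0 1 9 4 (.mix 0 1 9 12 (.mix 0 1 9 3 (.mix 4 2 9 12 (.mix 0 0 9 12 (.mix 0 2 7 4 (.h0 26 true (.mix 22 0 0 12 (.mix 15 0 0 2 (.mix 6 1 0 0 (T164)))) (.mix 22 2 0 4 (.mix 15 1 0 14 (.mix 6 0 0 10 (.cond 7 0 (.contra [(0, 7), (8, 20100), (4, 231), (2, 256)] 0) (.contra [(1, 7), (8, 33200), (4, 1792), (2, 512)] 0))))))))))))) (.mix 0 1 9 12 (.mix 0 0 9 12 (.mix 0 1 9 3 (.mix 0 0 9 10 (.cond 1 0 (.cond 3 2 (.contra [(0, 4), (3, 1)] 0) (.contra [(1, 14), (10, 62500), (4, 1200), (3, 63)] 0)) (.contra [(0, 7), (8, 8900), (4, 609), (2, 256)] 0)))))))))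

def T166 : Tr := .h0 9 false (.mix 1 0 0 12 (.cond 2 0 (.contra [(1, 3), (6, 70), (2, 2)] 40) (.h2 1 11 (.mix 1 1 0 3 (T150)) (.mix 1 2 0 4 (.up 9 (.mix 0 0 9 3 (.mix 0 2 9 12 (.mix 0 0 9 12 (.mix 0 2 9 4 (.mix 4 1 9 1 (.mix 0 1 8 13 (.mix 0 1 7 2 (.cond 7 6 (.contra [(0, 1), (8, 375), (4, 10), (1, 12)] 0) (T156))))))))) (.mix 0 2 9 0 (.mix 0 0 9 3 (.cond 1 0 (.contra [(1, 1), (8, 50), (4, 2), (2, 8)] 0) (.contra [(0, 3), (8, 450), (4, 23), (2, 32)] 0)))) (.mix 0 2 5 13 (.mix 0 2 4 10 (.mix 0 0 3 13 (.cond 1 0 (.contra [(1, 3), (8, 900), (4, 44), (2, 80)] 0) (.contra [(0, 1), (8, 350), (4, 26), (2, 35)] 0))))) (.mix 0 0 5 10 (.cond 1 0 (.contra [(0, 1), (8, 25), (4, 3), (2, 3)] 0) (.contra [(1, 3), (8, 225), (4, 17), (2, 32)] 0))) (.mix 0 0 9 11 (.cond 1 0 (.contra [(0, 3), (8, 75), (4, 10), (2, 16)] 0) (.contra [(1,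 1), (8, 75), (4, 5), (2, 6)] 0)))))))) (.mix 1 1 0 3 (.up 7 (.mix 0 0 7 3 (.mix 0 2 7 12 (.mix 0 0 7 12 (.mix 0 2 7 4 (.mix 4 1 7 1 (.mix 0 0 6 4 (.cond 6 5 (.contra [(0, 1), (6, 375), (2, 10), (1, 12)] 0) (.cond 1 0 (.contra [(1, 1), (3, 2)] 0) (T158))))))))) (.mix 0 2 7 0 (.mix 0 0 7 3 (.mix 2 0 5 4 (.cond 3 0 (.contra [(0, 6), (6, 175), (1, 7)] 225) (.cond 2 1 (.contra [(1, 1), (3, 2)] 0) (.contra [(0, 3), (8, 290), (4, 7)] 80)))))) (.mix 0 1 7 14 (.mix 0 0 7 1 (.mix 0 1 7 13 (.mix 0 1 7 2 (.mix 4 2 7 13 (.mix 0 0 6 0 (.cond 1 0 (.contra [(1, 3), (6, 250), (2, 2)] 100) (T165)))))))) (.mix 0 0 3 10 (.cond 1 0 (.contra [(0, 2), (6, 20), (2, 3)] 15) (.contra [(1, 3), (6, 65), (2, 1)] 80))) (.mix 0 0 7 11 (.mix 0 1 7 10 (.mix 0 1 7 4 (.mix 0 0 7 11 (.cond 4 3 (.cond 1 0 (.contra [(1, 1), (2, 8)] 0) (.contra [(0, 1), (4,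 205), (2, 284)] 4000)) (.contra [(1, 1), (6, 45), (2, 2)] 15))))))))

def T167 : Tr := .up 5 (.mix 0 2 5 14 (.mix 0 0 4 1 (.mix 0 2 4 0 (.mix 0 0 4 3 (.mix 4 1 8 1 (.cond 2 1 (.contra [(0, 1), (2, 21), (4, 41)] 17) (.up 5 (.mix 0 0 5 3 (.mix 0 1 5 0 (.mix 0 0 5 3 (.cond 1 0 (.contra [(1, 1), (6, 220), (3, 6)] 240) (.cond 3 2 (.contra [(1, 8), (5, 5), (2, 12)] 1000) (.contra [(0, 8), (5, 45), (2, 44)] 4000)))))) (.mix 0 0 1 4 (.cond 1 0 (.contra [(1, 4), (6, 140), (3, 3)] 80) (.contra [(0, 8), (6, 360), (3, 7)] 420))) (.mix 0 1 5 14 (.mix 0 1 5 11 (.mix 0 1 5 10 (.mix 0 1 5 4 (.mix 4 2 5 13 (.h0 15 false (.mix 7 1 0 13 (.mix 2 0 0 0 (T146))) (.mix 7 0 0 4 (.cond 8 0 (.contra [(0, 8), (6, 80), (3, 3)] 60) (.contra [(1, 2), (6, 20), (3, 1)] 40))))))))) (.mix 0 2 5 12 (.mix 0 0 5 12 (.cond 1 0 (.contra [(1, 2), (6, 60), (3,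 1)] 120) (.contra [(0, 4), (6, 160), (3, 11)] 320)))) (.mix 0 0 5 11 (.cond 1 0 (.contra [(1, 2), (6, 70), (3, 3)] 90) (.contra [(0, 2), (6, 90), (3, 1)] 80)))))))))) (.mix 0 1 5 13 (.mix 0 1 4 2 (.mix 0 1 4 14 (.mix 0 0 4 1 (.mix 4 0 8 4 (.cond 2 1 (.cond 5 0 (.contra [(0, 8), (4, 60), (6, 100), (3, 3)] 0) (.contra [(1, 8), (3, 1)] 0)) (.contra [(0, 1), (2, 3), (4, 47)] 39))))))) (.mix 0 0 5 2 (.mix 0 1 4 14 (.mix 0 0 4 1 (.mix 0 2 4 0 (.mix 4 2 8 13 (.cond 3 2 (.contra [(1, 1), (4, 28)] 16) (.h0 6 true (.cond 7 0 (.contra [(1, 1), (4, 240), (2, 16)] 48) (.contra [(0, 1), (4, 156), (2, 11)] 44)) (.mix 2 0 0 3 (T149))))))))) (.mix 0 1 5 0 (.mix 0 0 4 3 (.mix 2 0 6 10 (.cond 2 1 (.cond 3 0 (.contra [(0, 4), (6, 30), (3, 1)] 10) (.contra [(1, 2), (3, 1)] 0)) (.contra [(0, 1), (2, 3), (4, 1)] 7))))) (.mix 0 2 5 1 (.mix 0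 2 4 0 (.mix 0 0 4 3 (.mix 0 2 4 12 (.mix 4 1 8 12 (.cond 3 2 (.contra [(1, 1), (2, 12), (4, 16)] 12) (T166)))))))

def T168 : Tr := .h2 1 2 (.h0 1 false (T84) (.h0 0 false (.cond 1 0 (.h0 2 false (T91) (.up 6 (.mix 0 1 5 1 (.mix 0 0 4 4 (.mix 0 2 4 1 (.cond 2 1 (.h0 4 false (.cond 5 0 (.contra [(1, 1), (8, 8)] 0) (.contra [(0, 6), (8, 70), (4, 9), (2, 7)] 0)) (T93)) (.contra [(1, 1), (6, 10), (2, 4)] 2))))) (.mix 0 0 5 4 (.mix 0 1 4 12 (.mix 0 0 4 12 (.cond 1 0 (.cond 3 2 (.contra [(1, 2), (8, 30), (3, 1)] 10) (.contra [(0, 4), (3, 1)] 0)) (.contra [(0, 3), (2, 25), (1, 4)] 0))))) (.mix 0 0 6 2 (.mix 1 2 6 13 (.mix 0 0 5 0 (.cond 3 2 (.contra [(0, 3), (6, 25), (1, 4)] 0) (.cond 1 0 (.contra [(1, 1), (3, 2)] 0) (.contra [(0, 1), (4, 5), (3, 14)] 40)))))) (.mix 0 1 6 0 (.mix 0 1 5 1 (.mix 0 0 3 4 (.mix 3 0 8 10 (.cond 4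 0 (.contra [(0, 1), (6, 9), (2, 1)] 1) (.cond 2 1 (.contra [(1, 1), (3, 4)] 0) (.contra [(0, 3), (8, 165), (4, 40), (3, 11)] 0))))))) (.mix 0 2 6 1 (.mix 0 0 5 4 (.mix 0 1 3 12 (.mix 3 1 8 12 (.mix 0 1 7 3 (.mix 0 1 7 0 (.cond 5 4 (.contra [(1, 1), (6, 22), (2, 4)] 6) (T100)))))))))) (.contra [(1, 1), (4, 4)] 4)) (.h0 0 false (.cond 1 0 (.contra [(0, 2), (2, 9), (4, 11)] 0) (.contra [(1, 1), (4, 8)] 8)) (T118)))) (.h0 0 true (.cond 1 0 (.contra [(1, 1), (4, 4)] 0) (.h0 2 false (.h2 0 3 (T130) (T138)) (T143))) (.h0 0 true (.cond 1 0 (.contra [(1, 1), (4, 8)] 0) (.contra [(0, 1), (2, 3), (4, 7)] 7)) (T167)))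

def T169 : Tr := .mix 14 1 0 12 (.mix 14 1 0 12 (.mix 14 1 0 3 (.mix 14 2 3 15 (.h0 9 false (.mix 9 2 0 10 (.mix 9 0 0 1 (.mix 9 0 0 12 (.h0 8 false (.mix 8 0 0 12 (.mix 8 0 0 12 (.mix 8 1 0 0 (.h2 7 17 (.mix 7 2 0 11 (.mix 7 2 0 0 (.mix 7 2 0 4 (.h2 7 16 (.mix 7 1 0 3 (.mix 7 1 0 3 (.mix 7 1 0 1 (.h0 7 false (.mix 7 2 0 3 (.mix 7 0 0 3 (.mix 7 2 0 1 (.h0 7 false (.h2 4 12 (.mix 4 0 0 10 (.mix 4 1 0 0 (.mix 4 0 0 4 (.cond 5 0 (.contra [(1, 7), (10, 58869552), (8, 20873976), (4, 350416)] 0) (.contra [(0, 7), (10, 42073206), (8, 11109703), (4, 341898)] 0))))) (.exc 11 0 1 ⟨-3, 1, -192, 4117482, -1372494, 263518849, -28822377, 9607459, -1844632135⟩ ⟨35, 0, -7904, -48037290, 0, 10848192744, 336261065, 0, -75937357112⟩ ⟨799, 7905, 733, -1096622720, -10849565070, -1006039291, 7676359839, 75946963395, 7042275770⟩ 1)) (.mix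 7 0 0 10 (.mix 7 1 0 0 (.mix 7 0 0 4 (.cond 8 0 (.contra [(1, 7), (10, 52863552), (8, 20270976), (4, 302416)] 0) (.contra [(0, 1), (10, 7017708), (8, 1980904), (4, 51039)] 0))))))))) (.mix 7 0 0 14 (.cond 8 0 (.contra [(1, 7), (10, 928032), (8, 350416), (4, 5856)] 0) (.contra [(0, 7), (10, 872634), (8, 230577), (4, 6982)] 0))))))) (.mix 7 2 0 4 (.mix 7 2 0 4 (.mix 7 0 0 3 (.cond 8 0 (.contra [(1, 7), (10, 26431776), (8, 10135488), (4, 151208)] 0) (.contra [(0, 7), (10, 17802372), (8, 5230136), (4, 145101)] 0))))))))) (.mix 7 0 0 13 (.cond 8 0 (.contra [(1, 7), (10, 464016), (8, 175208), (4, 2928)] 0) (.contra [(0, 7), (10, 511938), (8, 170949), (4, 3134)] 0))))))) (.mix 5 0 0 8 (.cond 6 0 (.contra [(0, 7), (10, 506940), (8, 150600), (4, 3491)] 0) (.contra [(1, 7), (10, 504000), (8, 195200), (4, 2928)] 0))))))) (.mix 6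 0 0 8 (.cond 7 0 (.contra [(1, 7), (10, 252000), (8, 73200), (4, 1952)] 0) (.contra [(0, 7), (10, 253470), (8, 87275), (4, 1506)] 0)))))))

def T170 : Tr := .h0 4 true (.mix 4 1 0 11 (.mix 4 0 0 0 (.mix 4 1 0 4 (.mix 4 0 3 17 (.h2 25 39 (.mix 25 0 0 0 (.mix 25 1 0 11 (.mix 13 0 0 14 (.cond 14 0 (.contra [(0, 1), (10, 90654), (8, 37227), (4, 482)] 0) (.contra [(1, 7), (10, 752976), (8, 226088), (4, 5808)] 0))))) (.mix 25 1 0 2 (.mix 25 2 0 2 (.mix 13 1 0 10 (.mix 26 2 3 8 (.h2 9 14 (.mix 9 0 0 14 (.cond 10 0 (.contra [(1, 7), (10, 75936), (8, 24768), (4, 488)] 0) (.contra [(0, 7), (10, 44772), (8, 18296), (4, 261)] 0))) (.mix 9 1 0 10 (.mix 9 1 0 1 (.mix 9 1 0 12 (.mix 9 2 3 8 (.h0 4 true (.mix 4 1 0 4 (.mix 4 0 0 4 (.mix 4 0 0 12 (.mix 4 2 3 16 (.h0 14 true (.mix 14 0 0 2 (.mix 14 0 0 2 (.mix 14 1 0 4 (.mix 14 2 3 16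 (.h2 4 19 (.mix 4 2 0 13 (.mix 4 1 0 14 (.mix 4 1 0 12 (.mix 4 2 3 15 (.h2 14 19 (T169) (.mix 11 0 0 9 (.cond 12 0 (.contra [(0, 7), (10, 189420), (8, 52200), (4, 1567)] 0) (.contra [(1, 7), (10, 252000), (8, 97600), (4, 1464)] 0)))))))) (.mix 1 0 0 9 (.cond 2 0 (.contra [(1, 7), (10, 126000), (8, 36600), (4, 976)] 0) (.contra [(0, 7), (10, 94710), (8, 39175), (4, 522)] 0)))))))) (.mix 14 1 0 14 (.mix 14 2 0 13 (.mix 14 0 0 13 (.cond 15 0 (.contra [(0, 7), (10, 1606794), (8, 522297), (4, 10102)] 0) (.contra [(1, 7), (10, 1505952), (8, 452176), (4, 11616)] 0)))))))))) (.mix 4 0 0 13 (.cond 5 0 (.contra [(1, 7), (10, 151872), (8, 49536), (4, 976)] 0) (.contra [(0, 7), (10, 91476), (8, 26008), (4, 753)] 0)))))))))))))))))) (.mix 4 0 0 1 (.mix 4 2 0 10 (.mix 4 0 0 13 (.cond 5 0 (.contra [(1, 7), (10, 801024), (8, 230912),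 (4, 6192)] 0) (.contra [(0, 7), (10, 578172), (8, 238536), (4, 3251)] 0)))))

def T171 : Tr := .mix 0 0 28 10 (.mix 0 2 28 11 (.mix 0 0 28 14 (.mix 0 2 15 2 (.mix 0 0 9 2 (.mix 5 2 30 12 (.mix 0 0 30 12 (.mix 0 1 30 3 (.mix 0 0 30 10 (.mix 0 2 11 11 (.h0 13 false (.mix 13 1 0 13 (.mix 2 0 0 14 (.mix 14 0 2 17 (.cond 4 1 (.contra [(1, 1), (8, 3576), (6, 1788), (2, 8)] 0) (.up 14 (.mix 0 2 14 14 (.mix 0 0 14 1 (.mix 0 1 14 13 (.mix 0 1 14 2 (.mix 0 0 14 2 (.cond 1 0 (.contra [(1, 7), (10, 178416), (8, 56608), (4, 1128)] 0) (.contra [(0, 7), (10, 235788), (8, 82344), (4, 1579)] 0))))))) (.mix 0 1 14 13 (.mix 0 1 14 2 (.mix 0 0 14 2 (.mix 0 1 14 14 (.mix 0 1 14 11 (.mix 5 2 14 0 (.mix 0 2 14 14 (.mix 0 2 14 2 (.mix 0 0 14 2 (.mix 0 1 14 14 (.mix 0 1 12 11 (.h2 32 39 (.mix 32 2 0 13 (.mix 23 1 0 14 (.mix 9 0 0 14 (.cond 10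 0 (.contra [(1, 7), (10, 400512), (8, 115456), (4, 3096)] 0) (.contra [(0, 7), (10, 392364), (8, 137832), (4, 2287)] 0))))) (.mix 32 1 0 14 (.mix 23 2 0 13 (.mix 9 1 0 10 (.mix 34 2 3 17 (T170))))))))))))))))) (.mix 0 0 14 2 (.cond 1 0 (.contra [(1, 6), (10, 1200), (8, 125), (2, 1)] 0) (.contra [(0, 7), (10, 5187), (8, 906), (4, 46)] 0))) (.mix 0 2 9 12 (.mix 0 0 9 12 (.cond 1 0 (.contra [(0, 7), (10, 12936), (8, 5043), (4, 88)] 0) (.contra [(1, 7), (10, 34398), (8, 10924), (4, 234)] 0)))) (.mix 0 2 14 1 (.mix 0 2 14 0 (.mix 0 2 14 14 (.mix 0 0 14 1 (.cond 1 0 (.contra [(1, 1), (10, 11784), (8, 4592), (4, 72)] 0) (.contra [(0, 18), (10, 45750), (8, 21875), (2, 7)] 0))))))))))) (.mix 13 0 0 4 (.cond 14 0 (.contra [(0, 7), (8, 12222), (6, 5051), (2, 66)] 0) (.contra [(1, 7), (8, 18816), (6, 5808), (2, 128)] 0)))))))))))))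

def T172 : Tr := .dn 10 (.mix 0 1 10 8 (.mix 0 0 10 5 (.mix 0 2 10 6 (.mix 0 0 4 19 (.cond 1 0 (.contra [(1, 1), (6, 1356), (4, 906), (2, 38)] 0) (.contra [(0, 2), (6, 3714), (4, 2189), (2, 147)] 0)))))) (.mix 0 2 10 9 (.mix 0 2 10 17 (.mix 0 2 10 8 (.mix 0 0 4 5 (.cond 1 0 (.contra [(1, 1), (6, 672), (4, 332), (2, 36)] 0) (.contra [(0, 2), (6, 4398), (4, 2763), (2, 149)] 0)))))) (.mix 0 0 10 7 (.mix 0 1 10 18 (.mix 0 0 10 15 (.cond 1 0 (.h0 6 true (.mix 6 0 0 2 (.mix 6 2 1 9 (.h2 26 27 (.mix 19 1 0 1 (.mix 12 1 1 17 (.up 28 (.mix 0 1 28 1 (.mix 0 0 28 4 (.cond 1 0 (.contra [(1, 1), (8, 564), (6, 343), (4, 21)] 0) (.contra [(0, 2), (8, 234), (6, 183), (4, 1)] 0)))) (.mix 0 0 28 4 (.mix 0 1 28 12 (.mix 0 1 28 3 (.mix 0 0 15 10 (.cond 1 0 (.contra [(1, 1), (8, 552), (6, 264), (4, 8)] 0) (.contra [(0, 2), (8, 2982), (6,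 1799), (4, 153)] 0)))))) (.mix 0 2 28 13 (.mix 0 0 28 0 (.cond 1 0 (.contra [(1, 1), (8, 432), (6, 279), (4, 13)] 0) (.contra [(0, 2), (8, 762), (6, 439), (4, 33)] 0)))) (T171) (.mix 0 1 28 12 (.mix 0 1 28 3 (.mix 0 0 28 10 (.cond 1 0 (.contra [(0, 2), (8, 1506), (6, 937), (4, 39)] 0) (.contra [(1, 1), (8, 984), (6, 618), (4, 46)] 0)))))))) (.mix 19 0 0 3 (.cond 20 0 (.contra [(0, 1), (8, 384), (6, 268), (4, 21)] 0) (.contra [(1, 1), (8, 768), (6, 456), (4, 32)] 0)))))) (.mix 5 0 0 19 (.cond 6 0 (.contra [(0, 2), (8, 966), (6, 671), (4, 33)] 0) (.contra [(1, 1), (8, 624), (6, 384), (4, 32)] 0)))) (.contra [(1, 1), (6, 1236), (4, 776), (2, 48)] 0))))) (.mix 0 1 7 17 (.mix 0 1 7 9 (.mix 0 0 7 6 (.cond 1 0 (.contra [(1, 1), (6, 672), (4, 462), (2, 26)] 0) (.contra [(0, 1), (6, 576), (4, 346), (2, 33)] 0))))) (.mix 0 1 10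 15 (.mix 0 1 10 16 (.mix 0 0 10 9 (.cond 1 0 (.contra [(1, 1), (6, 792), (4, 462), (2, 26)] 0) (.contra [(0, 2), (6, 1902), (4, 1247), (2, 81)] 0)))))

def T173 : Tr := .up 7 (.mix 0 0 6 3 (.cond 1 0 (.contra [(0, 2), (6, 96), (4, 59), (2, 3)] 0) (.contra [(1, 2), (6, 12), (4, 3), (2, 1)] 0))) (.mix 0 1 7 13 (.mix 0 0 5 0 (.cond 1 0 (.contra [(0, 2), (6, 210), (4, 127), (2, 9)] 0) (.contra [(1, 1), (4, 3), (2, 1)] 0)))) (.mix 0 0 7 2 (.cond 1 0 (.contra [(0, 1), (6, 57), (4, 36), (2, 2)] 0) (.contra [(1, 2), (6, 48), (4, 29), (2, 3)] 0))) (.mix 0 1 7 0 (.mix 0 1 5 1 (.mix 0 1 5 13 (.mix 3 2 9 12 (.mix 0 0 9 12 (.mix 0 1 7 3 (.mix 0 1 7 0 (.dn 15 (.mix 0 2 14 6 (.mix 0 2 14 9 (.mix 0 0 12 6 (.cond 1 0 (.contra [(0, 1), (6, 192), (4, 118), (2, 9)] 0) (.contra [(1, 1), (6, 96), (4, 54), (2, 2)] 0))))) (.mix 0 0 14 19 (.mix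 0 2 14 5 (.mix 0 0 12 18 (.cond 1 0 (.contra [(0, 1), (6, 192), (4, 114), (2, 7)] 0) (.contra [(1, 1), (6, 96), (4, 62), (2, 6)] 0))))) (.mix 0 0 15 7 (.mix 0 2 13 19 (.mix 0 2 13 5 (.mix 3 1 17 18 (.mix 0 1 17 6 (.mix 0 1 15 5 (.mix 0 1 15 8 (.h2 18 19 (.mix 5 0 0 18 (.cond 6 0 (.contra [(0, 2), (6, 702), (4, 427), (2, 21)] 0) (.contra [(1, 1), (6, 312), (4, 192), (2, 16)] 0))) (.mix 13 1 0 2 (.mix 6 2 1 6 (T172))))))))))) (.mix 0 0 14 5 (.mix 0 1 14 8 (.mix 0 1 12 17 (.mix 0 0 12 17 (.cond 4 3 (.contra [(1, 2), (6, 60), (4, 41), (2, 3)] 0) (.cond 1 0 (.contra [(1, 1), (2, 8)] 0) (.contra [(0, 3), (4, 25), (2, 32)] 0))))))) (.mix 0 2 14 17 (.mix 0 0 14 17 (.cond 1 0 (.contra [(1, 1), (6, 72), (4, 41), (2, 3)] 0) (.contra [(0, 1), (6, 96), (4, 63), (2, 4)] 0)))))))))))) (.mix 0 2 7 1 (.mix 0 0 5 4 (.cond 1 0 (.contra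 [(1, 1), (6, 84), (4, 49), (2, 3)] 0) (.contra [(0, 2), (6, 126), (4, 81), (2, 7)] 0))))

def T174 : Tr := .h0 3 false (.up 47 (.mix 0 2 47 14 (.mix 0 2 45 2 (.mix 0 0 45 2 (.cond 1 0 (.contra [(1, 5), (4, 48), (3, 38)] 1720) (.contra [(0, 5), (4, 214), (3, 159)] 7585))))) (.mix 0 1 47 13 (.mix 0 0 45 0 (.mix 0 2 45 14 (.mix 0 0 28 1 (.mix 0 1 26 13 (.mix 0 0 24 0 (.mix 0 2 22 14 (.mix 0 2 12 2 (.mix 0 0 9 2 (.cond 1 0 (.contra [(0, 5), (4, 8798), (3, 6653)] 312205) (.contra [(1, 5), (4, 5936), (3, 4296)] 207560))))))))))) (.mix 0 0 47 2 (.mix 0 2 45 13 (.mix 0 2 45 10 (.mix 0 0 28 13 (.cond 1 0 (.contra [(1, 1), (4, 112), (3, 84)] 4008) (.contra [(0, 1), (4, 6), (3, 5)] 201)))))) (.mix 0 1 47 0 (.mix 0 1 45 1 (.mix 0 1 45 13 (.up 3 (.mix 0 1 3 1 (.mix 0 0 3 4 (.cond 1 0 (.contra [(1, 5), (4, 608), (3, 453)] 21740) (.contra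 [(0, 5), (4, 374), (3, 284)] 13345)))) (.mix 0 0 3 4 (.cond 1 0 (.contra [(1, 10), (4, 228), (3, 173)] 8040) (.contra [(0, 10), (4, 316), (3, 231)] 11130))) (.mix 0 2 3 13 (.mix 0 0 3 0 (.cond 1 0 (.contra [(1, 5), (4, 664), (3, 499)] 23720) (.contra [(0, 5), (4, 262), (3, 192)] 9385)))) (.mix 0 0 3 10 (.cond 1 0 (.contra [(1, 10), (4, 116), (3, 81)] 4080) (.contra [(0, 10), (4, 372), (3, 277)] 13110))) (.mix 0 1 3 12 (.mix 0 1 3 3 (.mix 0 0 3 10 (.cond 1 0 (.contra [(0, 5), (4, 1326), (3, 991)] 47205) (.contra [(1, 5), (4, 528), (3, 398)] 19240))))))))) (.mix 0 2 47 1 (.mix 0 0 45 4 (.cond 1 0 (.contra [(1, 5), (4, 96), (3, 71)] 3420) (.contra [(0, 5), (4, 2), (3, 2)] 115))))) (.mix 3 1 0 5 (.mix 3 1 0 9 (.mix 3 0 0 16 (.cond 4 0 (.contra [(1, 1), (4, 11440), (3, 8968)] 437000) (.contra [(0, 1), (4, 82930), (3, 62331)]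 2960875)))))

def T175 : Tr := .h2 2 5 (.mix 2 0 0 6 (.mix 2 2 0 9 (.h0 2 false (.mix 2 2 0 9 (.mix 2 2 0 17 (.dn 17 (.mix 0 2 17 6 (.mix 0 0 17 19 (.mix 0 1 17 7 (.mix 0 0 13 7 (.mix 0 1 11 18 (.mix 0 0 9 15 (.mix 0 1 7 16 (.h2 10 13 (.mix 10 0 0 6 (.mix 10 0 0 17 (.mix 3 1 0 19 (T174)))) (.mix 10 2 0 17 (.mix 10 2 0 8 (.mix 3 0 0 9 (.cond 4 0 (.contra [(1, 1), (4, 5720), (3, 4484)] 218500) (.contra [(0, 1), (4, 28210), (3, 20827)] 1004875))))))))))))) (.mix 0 0 17 19 (.cond 1 0 (.contra [(1, 2), (4, 700), (3, 523)] 25000) (.contra [(0, 2), (4, 100), (3, 81)] 3750))) (.mix 0 1 17 18 (.mix 0 0 17 15 (.mix 0 1 17 16 (.mix 0 1 13 19 (.mix 0 1 11 7 (.mix 0 1 9 18 (.mix 0 0 7 15 (.cond 1 0 (.contra [(0, 1), (4, 4730), (3, 3687)] 168375) (.contra [(1, 1), (4, 15040), (3, 11136)] 532000))))))))) (.mix 0 0 17 5 (.mix 0 2 17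 6 (.mix 0 0 17 19 (.mix 0 2 13 5 (.mix 0 2 11 6 (.mix 0 0 9 19 (.cond 1 0 (.contra [(0, 1), (4, 6330), (3, 4823)] 228375) (.contra [(1, 1), (4, 2960), (3, 2216)] 103000)))))))) (.mix 0 2 17 17 (.mix 0 2 17 8 (.mix 0 0 17 5 (.mix 0 1 13 8 (.mix 0 0 11 5 (.cond 1 0 (.contra [(1, 1), (4, 3080), (3, 2324)] 111500) (.contra [(0, 1), (4, 1310), (3, 933)] 46125)))))))))) (.mix 2 1 0 5 (.mix 2 0 0 6 (.cond 3 0 (.contra [(0, 1), (4, 170), (3, 143)] 5375) (.contra [(1, 1), (4, 4560), (3, 3416)] 163000))))))) (.mix 2 2 0 17 (.mix 2 0 0 19 (.cond 3 0 (.contra [(0, 1), (4, 170), (3, 111)] 5375) (.contra [(1, 1), (4, 2280), (3, 1708)] 81500))))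

def T176 : Tr := .dn 8 (.mix 0 2 7 6 (.mix 0 2 7 9 (.mix 0 0 5 6 (.cond 1 0 (.contra [(0, 1), (4, 30), (2, 19)] 18) (.contra [(1, 1), (4, 60), (2, 32)] 4))))) (.mix 0 0 7 19 (.mix 0 2 7 5 (.mix 0 0 5 18 (.cond 1 0 (.contra [(0, 6), (4, 480), (2, 250), (1, 7)] 0) (.cond 3 2 (.contra [(0, 4), (3, 1)] 0) (.contra [(1, 1), (6, 9), (4, 8)] 1)))))) (.mix 0 0 8 7 (.mix 0 2 6 19 (.mix 0 2 6 5 (.mix 3 1 10 18 (.mix 0 1 10 6 (.mix 0 1 8 5 (.mix 0 0 8 18 (.cond 1 0 (.dn 7 (.mix 0 1 7 8 (.mix 0 0 7 5 (.cond 1 0 (.contra [(0, 1), (4, 430), (2, 28)] 635) (.contra [(1, 1), (4, 115), (2, 9)] 180)))) (.mix 0 2 7 9 (.mix 0 2 7 17 (.mix 0 2 7 8 (.mix 3 1 7 5 (.mix 0 0 7 18 (.cond 1 0 (.h2 17 18 (.mix 11 0 0 18 (.cond 12 0 (.contra [(0, 1), (4, 106), (3, 79)] 3775) (.contra [(1, 1), (4, 16), (3, 12)] 600))) (.mix 11 2 0 6 (.mix 4 0 0 5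 (.h0 2 true (.mix 2 2 0 9 (.mix 2 2 0 6 (T175))) (.mix 2 0 0 19 (.cond 3 0 (.contra [(0, 1), (4, 130), (3, 99)] 4675) (.contra [(1, 1), (4, 32), (3, 24)] 1200))))))) (.contra [(0, 1), (4, 315), (2, 22)] 480))))))) (.mix 0 0 7 7 (.cond 1 0 (.contra [(0, 2), (4, 465), (2, 31)] 730) (.contra [(1, 2), (4, 255), (2, 17)] 360))) (.mix 0 2 7 16 (.mix 0 0 7 9 (.cond 1 0 (.contra [(1, 1), (4, 275), (2, 17)] 400) (.contra [(0, 1), (4, 350), (2, 24)] 525)))) (.mix 0 1 7 15 (.mix 0 1 7 16 (.mix 0 0 7 9 (.cond 1 0 (.contra [(1, 1), (4, 770), (2, 54)] 1240) (.contra [(0, 1), (4, 585), (2, 37)] 895)))))) (.contra [(1, 1), (4, 168), (2, 112)] 24))))))))) (.mix 0 0 7 5 (.mix 0 1 7 8 (.mix 0 1 5 17 (.mix 0 1 5 9 (.mix 0 0 5 6 (.cond 1 0 (.cond 5 4 (.contra [(1, 16), (6, 480), (4, 400), (3, 3)] 0) (.contra [(0, 16), (3, 1)] 0)) (.contra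 [(0, 1), (4, 258), (2, 179)] 78))))))) (.mix 0 2 7 17 (.mix 0 0 7 17 (.cond 1 0 (.contra [(1, 1), (4, 18), (2, 8)] 6) (.contra [(0, 1), (4, 24), (2, 19)] 8))))

def T177 : Tr := .dn 16 (.mix 0 1 16 8 (.mix 0 1 14 17 (.mix 0 0 14 17 (.mix 3 2 18 6 (.mix 0 2 18 9 (.dn 5 (.mix 0 0 5 18 (.mix 0 2 5 7 (.mix 0 0 5 7 (.cond 1 0 (.contra [(0, 15), (6, 3160), (5, 2324), (2, 337)] 0) (.contra [(1, 5), (6, 40), (5, 156), (2, 28)] 0))))) (.mix 0 1 5 5 (.mix 0 0 5 18 (.cond 1 0 (.contra [(0, 5), (6, 180), (5, 22), (2, 11)] 0) (.contra [(1, 15), (6, 1820), (5, 1078), (2, 164)] 0)))) (.mix 0 1 2 18 (.mix 0 0 2 15 (.cond 1 0 (.contra [(0, 15), (6, 2345), (5, 1348), (2, 224)] 0) (.contra [(1, 5), (6, 220), (5, 198), (2, 24)] 0)))) (.mix 0 0 2 5 (.cond 1 0 (.contra [(1, 5), (6, 410), (5, 259), (2, 42)] 0) (.contra [(0, 15), (6, 215), (5,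 91), (2, 8)] 0))) (.mix 0 0 5 6 (.cond 1 0 (.contra [(0, 15), (6, 610), (5, 359), (2, 67)] 0) (.contra [(1, 5), (6, 140), (5, 41), (2, 8)] 0))))))))) (.mix 0 2 16 9 (.mix 0 0 14 6 (.mix 2 0 17 19 (.mix 0 2 17 5 (.mix 0 2 15 6 (.mix 0 2 8 9 (.cond 6 3 (.dn 6 (.mix 0 1 4 8 (.mix 0 0 4 5 (.cond 1 0 (.contra [(0, 1), (7, 25), (2, 21)] 0) (.contra [(1, 3), (7, 630), (4, 40), (2, 364)] 0)))) (.mix 0 2 4 9 (.mix 0 2 4 17 (.mix 0 2 4 8 (.mix 0 0 4 5 (.cond 1 0 (.contra [(1, 3), (7, 1896), (4, 128), (2, 1184)] 0) (.contra [(0, 1), (7, 599), (4, 32), (2, 401)] 0)))))) (.mix 0 0 4 7 (.cond 1 0 (.contra [(0, 3), (7, 156), (4, 8), (2, 113)] 0) (.contra [(1, 1), (7, 39), (4, 2), (2, 22)] 0))) (.mix 0 0 6 5 (.cond 1 0 (.contra [(0, 3), (7, 177), (4, 11), (2, 122)] 0) (.contra [(1, 1), (7, 53), (4, 4), (2, 28)] 0))) (.mix 0 2 6 17 (.mix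 0 0 6 17 (.cond 1 0 (.contra [(1, 1), (7, 262), (4, 16), (2, 164)] 0) (.contra [(0, 3), (7, 102), (4, 11), (2, 44)] 0))))) (.contra [(1, 3), (6, 26), (5, 13), (2, 2)] 0)))))))) (.mix 0 1 15 18 (.mix 0 1 15 6 (.mix 0 0 13 19 (.cond 1 0 (.contra [(0, 15), (6, 245), (5, 154), (2, 32)] 0) (.contra [(1, 5), (6, 320), (5, 204), (2, 32)] 0))))) (.mix 0 2 16 16 (.mix 0 2 14 15 (.mix 0 2 14 18 (.mix 0 0 5 15 (.cond 1 0 (.contra [(1, 5), (6, 240), (5, 72), (2, 16)] 0) (.contra [(0, 15), (6, 1760), (5, 1168), (2, 179)] 0)))))) (.mix 0 2 15 17 (.mix 0 0 15 17 (.cond 1 0 (.contra [(1, 5), (6, 60), (5, 46), (2, 8)] 0) (.contra [(0, 15), (6, 365), (5, 184), (2, 32)] 0))))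

def T178 : Tr := .dn 6 (.mix 0 2 6 6 (.mix 0 0 6 19 (.cond 1 0 (.contra [(1, 3), (8, 768), (6, 532), (5, 14)] 0) (.contra [(0, 1), (8, 135), (6, 75), (2, 1)] 0)))) (.mix 0 0 6 19 (.mix 0 1 6 7 (.mix 0 1 6 18 (.mix 0 0 6 15 (.cond 4 3 (.cond 1 0 (.contra [(1, 1), (2, 8)] 0) (.contra [(0, 37), (10, 71925), (7, 1625), (2, 4482)] 0)) (.contra [(1, 1), (8, 132), (6, 88), (5, 1)] 0)))))) (.mix 0 1 6 18 (.mix 0 0 6 15 (.mix 0 1 6 16 (.mix 0 0 6 9 (.cond 1 0 (.contra [(1, 3), (8, 3468), (6, 2272), (5, 44)] 0) (.contra [(0, 9), (8, 7413), (6, 5852), (5, 79)] 0)))))) (.mix 0 0 6 5 (.cond 1 0 (.contra [(1, 9), (8, 744), (6, 416), (5, 7)] 0) (.contra [(0, 3), (8, 309), (6, 226), (5, 2)] 0))) (.mix 0 1 2 15 (.mix 0 0 2 8 (.cond 1 0 (.up 18 (.mix 0 2 18 14 (.mix 0 2 18 2 (.mix 0 2 18 13 (.mix 0 0 14 0 (.cond 1 0 (.contra [(1, 3),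 (10, 20400), (8, 14000), (7, 232)] 0) (.contra [(0, 9), (10, 10275), (8, 6500), (7, 457)] 0)))))) (.mix 0 2 15 0 (.mix 0 0 15 3 (.cond 1 0 (.contra [(0, 9), (10, 12000), (8, 8125), (7, 92)] 0) (.contra [(1, 3), (10, 3000), (8, 2500), (7, 62)] 0)))) (.mix 0 0 18 2 (.mix 0 2 18 13 (.mix 0 0 18 0 (.cond 1 0 (.contra [(1, 3), (10, 2100), (8, 1000), (7, 56)] 0) (.contra [(0, 9), (10, 28275), (8, 21500), (7, 469)] 0))))) (.mix 0 1 18 0 (.mix 1 2 16 12 (.mix 0 2 16 4 (.up 3 (.mix 0 0 2 3 (.cond 1 0 (.contra [(0, 3), (10, 4200), (8, 3875), (7, 133)] 0) (.contra [(1, 9), (10, 14550), (8, 11750), (7, 67)] 0))) (.mix 0 2 2 0 (.mix 0 0 2 3 (.cond 1 0 (.contra [(1, 9), (10, 47400), (8, 29000), (7, 286)] 0) (.contra [(0, 3), (10, 2400), (8, 875), (7, 136)] 0)))) (.mix 0 1 2 14 (.mix 0 0 2 1 (.cond 1 0 (.contra [(1, 3), (10, 11400),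 (8, 6500), (7, 166)] 0) (.contra [(0, 3), (10, 10944), (8, 7111), (2, 4)] 0)))) (.mix 0 0 3 10 (.cond 1 0 (.contra [(0, 9), (10, 75), (8, 3250), (7, 188)] 0) (.contra [(1, 3), (10, 13200), (8, 9500), (7, 163)] 0))) (.mix 0 0 2 11 (.cond 1 0 (.contra [(0, 9), (10, 19200), (8, 16375), (7, 293)] 0) (.contra [(1, 1), (10, 150), (8, 250), (7, 31)] 0))))))) (.mix 0 0 15 11 (.cond 1 0 (.contra [(0, 1), (10, 600), (8, 375), (7, 7)] 0) (.contra [(1, 9), (10, 5550), (8, 4250), (7, 61)] 0)))) (.contra [(1, 9), (8, 3192), (6, 2348), (5, 46)] 0))))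

def T179 : Tr := .dn 22 (.mix 0 1 22 8 (.mix 0 1 20 17 (.mix 0 0 20 17 (.cond 1 0 (.up 12 (.mix 0 2 12 14 (.mix 0 2 12 2 (.mix 0 2 12 13 (.mix 0 0 8 0 (.cond 1 0 (.contra [(1, 3), (8, 20400), (6, 14000), (5, 232)] 0) (.contra [(0, 9), (8, 10275), (6, 6500), (5, 457)] 0)))))) (.mix 0 2 9 0 (.mix 0 0 9 3 (.cond 1 0 (.contra [(0, 9), (8, 12000), (6, 8125), (5, 92)] 0) (.contra [(1, 3), (8, 3000), (6, 2500), (5, 62)] 0)))) (.mix 0 0 12 2 (.mix 0 2 12 13 (.mix 0 0 12 0 (.cond 1 0 (.contra [(1, 3), (8, 2100), (6, 1000), (5, 56)] 0) (.contra [(0, 9), (8, 28275), (6, 21500), (5, 469)] 0))))) (.mix 0 1 12 0 (.mix 1 2 10 12 (.mix 0 2 10 4 (.up 3 (.mix 0 0 2 3 (.cond 1 0 (.contra [(0, 3), (8, 4200), (6, 3875), (5, 133)] 0) (.contra [(1, 9), (8, 14550), (6, 11750), (5, 67)] 0))) (.mix 0 2 2 0 (.mix 0 0 2 3 (.cond 1 0 (.contra [(1,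 9), (8, 47400), (6, 29000), (5, 286)] 0) (.contra [(0, 3), (8, 2400), (6, 875), (5, 136)] 0)))) (.mix 0 1 2 14 (.mix 0 0 2 1 (.cond 1 0 (.contra [(1, 3), (8, 11400), (6, 6500), (5, 166)] 0) (.contra [(0, 3), (8, 10896), (6, 6931), (2, 16)] 0)))) (.mix 0 0 3 10 (.cond 1 0 (.contra [(0, 9), (8, 75), (6, 3250), (5, 188)] 0) (.contra [(1, 3), (8, 13200), (6, 9500), (5, 163)] 0))) (.mix 0 0 2 11 (.cond 1 0 (.contra [(0, 9), (8, 19200), (6, 16375), (5, 293)] 0) (.contra [(1, 1), (8, 150), (6, 250), (5, 31)] 0))))))) (.mix 0 0 9 11 (.cond 1 0 (.contra [(0, 1), (8, 600), (6, 375), (5, 7)] 0) (.contra [(1, 9), (8, 5550), (6, 4250), (5, 61)] 0)))) (.contra [(1, 9), (6, 672), (4, 392), (3, 4)] 0))))) (.mix 0 2 22 9 (.mix 0 0 20 6 (.mix 0 2 20 9 (.mix 0 0 6 6 (.cond 1 0 (.contra [(1, 1), (6, 276), (4, 192), (3, 4)] 0) (.up 13 (.mix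 0 2 13 14 (.mix 0 2 13 2 (.mix 0 2 13 13 (.mix 0 0 9 0 (.cond 1 0 (.contra [(1, 3), (8, 20400), (6, 14000), (5, 232)] 0) (.contra [(0, 9), (8, 10275), (6, 6500), (5, 457)] 0)))))) (.mix 0 2 10 0 (.mix 0 0 10 3 (.cond 1 0 (.contra [(0, 9), (8, 12000), (6, 8125), (5, 92)] 0) (.contra [(1, 3), (8, 3000), (6, 2500), (5, 62)] 0)))) (.mix 0 0 13 2 (.mix 0 2 13 13 (.mix 0 0 13 0 (.cond 1 0 (.contra [(1, 3), (8, 2100), (6, 1000), (5, 56)] 0) (.contra [(0, 9), (8, 28275), (6, 21500), (5, 469)] 0))))) (.mix 0 1 13 0 (.mix 1 2 11 12 (.mix 0 2 11 4 (.up 3 (.mix 0 0 2 3 (.cond 1 0 (.contra [(0, 3), (8, 4200), (6, 3875), (5, 133)] 0) (.contra [(1, 9), (8, 14550), (6, 11750), (5, 67)] 0))) (.mix 0 2 2 0 (.mix 0 0 2 3 (.cond 1 0 (.contra [(1, 9), (8, 47400), (6, 29000), (5, 286)] 0) (.contra [(0, 3), (8, 2400), (6, 875), (5, 136)] 0))))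 (.mix 0 1 2 14 (.mix 0 0 2 1 (.cond 1 0 (.contra [(1, 3), (8, 11400), (6, 6500), (5, 166)] 0) (.contra [(0, 13), (8, 48048), (6, 31101), (2, 16)] 0)))) (.mix 0 0 3 10 (.cond 1 0 (.contra [(0, 9), (8, 75), (6, 3250), (5, 188)] 0) (.contra [(1, 3), (8, 13200), (6, 9500), (5, 163)] 0))) (.mix 0 0 2 11 (.cond 1 0 (.contra [(0, 9), (8, 19200), (6, 16375), (5, 293)] 0) (.contra [(1, 1), (8, 150), (6, 250), (5, 31)] 0))))))) (.mix 0 0 10 11 (.cond 1 0 (.contra [(0, 1), (8, 600), (6, 375), (5, 7)] 0) (.contra [(1, 9), (8, 5550), (6, 4250), (5, 61)] 0))))))))) (.mix 0 0 22 7 (.mix 0 2 20 19 (.mix 0 2 20 5 (.mix 0 0 6 18 (.cond 1 0 (.contra [(0, 3), (6, 717), (4, 476), (3, 7)] 0) (.contra [(1, 9), (6, 1272), (4, 976), (3, 32)] 0)))))) (.mix 0 2 22 16 (.mix 0 2 20 15 (.mix 0 2 20 18 (.mix 0 2 6 7 (.mix 4 0 25 5 (.mix 0 1 25 8 (.cond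 6 1 (.contra [(1, 3), (6, 42), (4, 38), (3, 1)] 0) (T178)))))))) (.mix 0 2 21 17 (.mix 0 0 21 17 (.cond 1 0 (.contra [(1, 3), (6, 120), (4, 76), (3, 2)] 0) (.contra [(0, 9), (6, 480), (4, 379), (3, 8)] 0))))

def T180 : Tr := .dn 21 (.mix 0 1 21 8 (.mix 0 1 19 17 (.mix 0 0 19 17 (.cond 1 0 (.contra [(0, 14), (8, 1254), (6, 749), (2, 3)] 0) (.contra [(1, 7), (8, 1536), (6, 966), (2, 2)] 0))))) (.mix 0 2 21 9 (.mix 0 0 19 6 (.mix 0 2 19 9 (.mix 3 0 23 19 (.mix 0 2 23 5 (.mix 0 2 21 6 (.mix 0 2 9 9 (.dn 7 (.mix 0 2 7 6 (.mix 0 2 7 9 (.mix 0 2 7 17 (.h2 28 29 (.mix 9 0 0 6 (.cond 10 0 (.contra [(1, 7), (8, 11052), (6, 7294), (2, 18)] 0) (.contra [(0, 14), (8, 6162), (6, 4179), (2, 13)] 0))) (.mix 9 2 0 17 (.mix 2 2 0 8 (.h0 2 true (.mix 2 0 0 17 (.cond 3 0 (.contra [(1, 7), (8, 22104), (6, 14588), (2, 36)] 0) (.contra [(0,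 14), (8, 17106), (6, 11907), (2, 29)] 0))) (.mix 2 2 0 8 (.mix 2 0 0 5 (.cond 3 0 (.contra [(0, 2), (8, 2382), (6, 1949), (2, 3)] 0) (.contra [(1, 1), (8, 5952), (6, 3864), (2, 8)] 0))))))))))) (.mix 0 2 4 9 (.mix 0 2 4 17 (.mix 0 2 4 8 (.mix 0 0 4 5 (.cond 1 0 (.contra [(1, 7), (8, 54528), (6, 36036), (2, 92)] 0) (.contra [(0, 7), (8, 24576), (6, 16912), (2, 39)] 0)))))) (.mix 0 1 7 18 (.mix 0 1 7 6 (.mix 0 0 7 19 (.cond 1 0 (.contra [(1, 7), (8, 8952), (6, 5894), (2, 18)] 0) (.contra [(0, 14), (8, 50262), (6, 33789), (2, 83)] 0))))) (.mix 0 0 7 5 (.cond 1 0 (.contra [(0, 7), (8, 6369), (6, 4263), (2, 11)] 0) (.contra [(1, 14), (8, 5736), (6, 3647), (2, 9)] 0))) (.mix 0 2 7 17 (.mix 0 0 7 17 (.cond 1 0 (.contra [(1, 1), (8, 1872), (6, 1249), (2, 3)] 0) (.contra [(0, 14), (8, 11106), (6, 7077), (2, 19)] 0))))))))))))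 (.mix 0 1 20 18 (.mix 0 1 20 6 (.mix 0 0 18 19 (.cond 1 0 (.contra [(0, 1), (8, 576), (6, 378), (2, 1)] 0) (.contra [(1, 7), (8, 3936), (6, 2618), (2, 6)] 0))))) (.mix 0 0 20 5 (.cond 1 0 (.contra [(1, 14), (8, 1716), (6, 1169), (2, 3)] 0) (.contra [(0, 14), (8, 432), (6, 273), (2, 1)] 0))) (.mix 0 2 20 17 (.mix 0 0 20 17 (.cond 1 0 (.contra [(1, 7), (8, 1800), (6, 1169), (2, 3)] 0) (.contra [(0, 7), (8, 2400), (6, 1617), (2, 4)] 0))))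

def T181 : Tr := .up 6 (.mix 0 1 6 1 (.mix 0 0 6 4 (.cond 1 0 (.contra [(1, 1), (4, 186), (2, 112)] 42) (.contra [(0, 1), (4, 108), (2, 86)] 1)))) (.mix 0 0 6 4 (.mix 0 1 6 12 (.mix 0 1 6 3 (.mix 3 2 6 0 (.mix 0 2 6 14 (.cond 5 4 (.h2 14 15 (.mix 10 0 0 0 (.mix 4 1 0 0 (T179))) (.mix 10 1 0 2 (.mix 4 0 0 10 (.cond 5 0 (.contra [(1, 9), (6, 4200), (4, 2000), (3, 16)] 0) (.contra [(0, 1), (6, 675), (4, 500), (3, 17)] 0))))) (.contra [(0, 1), (4, 51), (2, 22)] 2))))))) (.mix 0 2 6 13 (.mix 0 0 6 0 (.cond 1 0 (.contra [(1, 1), (4, 198), (2, 136)] 26) (.contra [(0, 1), (4, 84), (2, 38)] 33)))) (.mix 0 0 6 10 (.mix 1 2 4 12 (.mix 0 0 4 12 (.mix 0 2 4 4 (.cond 4 3 (.contra [(1, 1), (4, 21), (2, 2)] 7) (.h0 12 true (.mix 6 2 0 1 (.mix 2 0 0 11 (.cond 3 0 (.contra [(1, 1), (6, 2400), (4, 1500), (2, 32)] 0) (T180)))) (.mix 6 0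 0 11 (.cond 7 0 (.dn 20 (.mix 0 1 20 8 (.mix 0 1 18 17 (.mix 0 0 18 17 (.cond 1 0 (.contra [(0, 2), (8, 42), (6, 7), (2, 1)] 0) (.contra [(1, 3), (8, 384), (6, 214), (2, 2)] 0))))) (.mix 0 0 19 19 (.mix 0 2 19 5 (.mix 0 2 17 6 (.mix 0 0 5 19 (.cond 1 0 (.contra [(0, 3), (8, 1536), (6, 952), (2, 11)] 0) (.contra [(1, 1), (8, 384), (6, 228), (2, 4)] 0)))))) (.mix 0 1 19 18 (.mix 0 1 19 6 (.mix 0 0 17 19 (.cond 1 0 (.contra [(0, 3), (8, 768), (6, 434), (2, 7)] 0) (.contra [(1, 1), (8, 288), (6, 174), (2, 2)] 0))))) (.mix 0 0 19 5 (.cond 1 0 (.contra [(1, 2), (8, 108), (6, 67), (2, 1)] 0) (.contra [(0, 6), (8, 48), (6, 17), (2, 1)] 0))) (.mix 0 2 19 17 (.mix 0 0 19 17 (.cond 1 0 (.contra [(1, 1), (8, 120), (6, 67), (2, 1)] 0) (.contra [(0, 3), (8, 480), (6, 293), (2, 4)] 0))))) (.contra [(1, 3), (6, 1200), (4, 700), (2, 16)]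 0))))))))) (.mix 0 1 6 12 (.mix 0 1 6 3 (.mix 0 0 6 10 (.cond 1 0 (.contra [(0, 1), (4, 402), (2, 254)] 39) (.contra [(1, 1), (4, 156), (2, 112)] 92)))))

def T182 : Tr := .h2 2 3 (.h0 0 false (.cond 1 0 (T173) (.contra [(1, 1), (2, 4)] 0)) (.h0 0 false (.cond 1 0 (.contra [(0, 1), (4, 66), (2, 43)] 14) (.contra [(1, 1), (2, 8)] 0)) (T176))) (.up 6 (.mix 0 2 6 14 (.mix 0 2 4 2 (.mix 0 0 4 2 (.mix 3 0 8 3 (.cond 2 1 (.cond 4 0 (.contra [(0, 4), (6, 120), (4, 100), (3, 3)] 0) (.contra [(1, 4), (3, 1)] 0)) (.contra [(0, 1), (4, 66), (2, 38)] 3)))))) (.mix 0 1 6 13 (.mix 0 0 4 0 (.mix 2 2 7 0 (.mix 0 2 7 14 (.mix 0 0 5 1 (.cond 1 0 (.cond 4 3 (.contra [(0, 4), (6, 420), (4, 200), (3, 9)] 0) (.contra [(1, 2), (3, 1)] 0)) (.contra [(0, 1), (4, 78), (2, 53)] 18))))))) (.mix 0 0 6 2 (.mix 0 2 4 13 (.mix 0 2 4 10 (.mix 3 1 8 14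 (.mix 0 1 8 11 (.mix 0 1 6 10 (.cond 6 5 (.contra [(0, 3), (4, 75), (2, 50), (1, 4)] 0) (.h0 7 true (.h2 9 10 (.mix 5 2 0 11 (.h0 1 false (.cond 2 0 (.contra [(0, 1), (6, 30), (4, 22)] 15) (.contra [(1, 1), (6, 24), (4, 8)] 4)) (.mix 1 0 0 14 (.cond 2 0 (.contra [(1, 1), (3, 112)] 400) (.contra [(0, 1), (6, 45), (3, 11)] 0))))) (.mix 5 0 0 13 (.cond 6 0 (.contra [(1, 1), (3, 56)] 200) (T177)))) (.mix 1 0 0 13 (.cond 2 0 (.contra [(1, 1), (3, 8)] 0) (.contra [(0, 1), (6, 138), (4, 77)] 22))))))))))) (.mix 0 1 6 0 (.mix 0 1 4 1 (.mix 0 1 4 13 (.mix 3 2 8 12 (.mix 0 0 8 12 (.mix 0 2 6 4 (T181))))))) (.mix 0 2 6 1 (.mix 0 0 4 4 (.cond 1 0 (.contra [(1, 1), (4, 30), (2, 16)] 6) (.contra [(0, 1), (2, 2)] 7)))))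

def T183 : Tr := .dn 22 (.mix 0 1 22 8 (.mix 0 1 20 17 (.mix 0 1 20 9 (.mix 0 0 20 6 (.cond 1 0 (.contra [(0, 7), (6, 664), (2, 5)] 1428) (.contra [(1, 21), (6, 2264), (2, 20)] 4788)))))) (.mix 0 2 22 9 (.mix 0 0 20 6 (.mix 0 1 20 5 (.mix 0 0 20 18 (.cond 1 0 (.contra [(1, 7), (6, 984), (2, 8)] 2100) (.contra [(0, 3), (6, 88), (2, 1)] 180)))))) (.mix 0 1 21 18 (.mix 0 1 21 6 (.mix 0 0 3 19 (.cond 1 0 (.contra [(0, 7), (6, 95), (2, 1)] 329) (.contra [(1, 3), (6, 260), (2, 2)] 498))))) (.mix 0 2 22 16 (.mix 0 2 20 15 (.mix 0 0 20 8 (.dn 3 (.mix 0 2 3 6 (.mix 0 0 3 19 (.cond 1 0 (.contra [(1, 21), (6, 1958), (2, 17)] 4809) (.contra [(0, 7), (6, 942), (2, 8)] 1841)))) (.mix 0 0 3 19 (.mix 0 1 3 7 (.mix 0 0 3 7 (.cond 1 0 (.contra [(1, 21), (6, 1268), (2, 2)] 294) (.contra [(0, 21), (6, 1724), (2, 11)] 4242))))) (.mix 0 1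 3 18 (.mix 0 0 3 15 (.cond 1 0 (.contra [(0, 3), (6, 466), (2, 4)] 1023) (.contra [(1, 7), (6, 362), (2, 3)] 511)))) (.mix 0 0 3 5 (.cond 1 0 (.contra [(1, 42), (6, 1966), (2, 19)] 4683) (.contra [(0, 14), (6, 1226), (2, 9)] 2163))) (.mix 0 2 3 17 (.mix 0 2 3 8 (.mix 0 2 3 16 (.dn 3 (.mix 0 2 3 6 (.mix 0 0 3 19 (.cond 1 0 (.contra [(0, 21), (6, 8374), (2, 46)] 12957) (.contra [(1, 21), (6, 13658), (2, 107)] 23919)))) (.mix 0 0 3 19 (.cond 1 0 (.contra [(1, 14), (6, 534), (2, 11)] 2387) (.contra [(0, 14), (6, 2098), (2, 17)] 5439))) (.mix 0 1 3 18 (.mix 0 0 3 15 (.cond 1 0 (.contra [(0, 21), (6, 5902), (2, 58)] 11361) (.contra [(1, 21), (6, 14894), (2, 101)] 24717)))) (.mix 0 0 3 5 (.cond 1 0 (.contra [(1, 2), (6, 194), (2, 1)] 417) (.contra [(0, 14), (6, 1686), (2, 19)] 5173))) (.mix 0 2 3 17 (.mix 0 2 3 8 (.mix 0 0 3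 5 (.cond 1 0 (.contra [(1, 3), (6, 5524), (2, 46)] 11382) (.contra [(0, 7), (6, 5452), (2, 33)] 6986))))))))))))) (.mix 0 1 22 15 (.mix 0 0 20 8 (.mix 0 1 20 17 (.mix 0 1 20 9 (.mix 0 0 20 6 (.cond 1 0 (.contra [(0, 21), (6, 3232), (2, 31)] 7728) (.contra [(1, 7), (6, 2192), (2, 16)] 4088)))))))

def T184 : Tr := .up 7 (.mix 0 2 7 14 (.mix 0 2 5 2 (.mix 0 2 5 13 (.mix 0 0 5 0 (.mix 4 0 10 3 (.cond 2 1 (.cond 5 0 (.contra [(0, 8), (6, 240), (4, 200), (3, 3)] 0) (.contra [(1, 8), (3, 1)] 0)) (.contra [(0, 1), (4, 138), (2, 94)] 39))))))) (.mix 0 1 7 13 (.mix 0 0 5 0 (.mix 0 1 5 1 (.mix 0 0 5 4 (.cond 1 0 (.contra [(0, 1), (4, 102), (2, 82)] 17) (.contra [(1, 1), (4, 96), (2, 56)] 36)))))) (.mix 0 0 7 2 (.mix 0 2 5 13 (.mix 0 0 5 0 (.mix 0 1 5 1 (.mix 0 0 5 4 (.mix 5 1 11 14 (.mix 0 1 11 11 (.cond 7 6 (.contra [(0, 3), (4,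 75), (2, 50), (1, 4)] 0) (.up 7 (.mix 0 1 2 1 (.mix 0 0 2 4 (.cond 1 0 (.contra [(1, 1), (6, 102), (4, 88)] 18) (.contra [(0, 1), (6, 156), (4, 89)] 4)))) (.mix 0 0 2 4 (.cond 1 0 (.contra [(1, 1), (6, 81), (4, 44)] 9) (.contra [(0, 1), (6, 57), (4, 43)] 23))) (.mix 0 0 7 2 (.cond 1 0 (.contra [(1, 1), (3, 31)] 100) (.contra [(0, 1), (3, 17)] 75))) (.mix 0 1 7 0 (.mix 0 0 7 3 (.mix 2 0 4 10 (.mix 0 2 4 11 (.cond 3 2 (.h2 17 18 (.mix 6 0 0 14 (.cond 7 0 (.contra [(1, 1), (6, 40), (3, 2)] 40) (.contra [(0, 1), (6, 225), (3, 11)] 300))) (.mix 6 1 0 10 (.mix 2 0 0 14 (.cond 3 0 (.contra [(1, 1), (6, 1300), (3, 66)] 1800) (.contra [(0, 1), (6, 575), (3, 27)] 700))))) (.contra [(0, 1), (6, 132), (4, 98)] 3)))))) (.mix 0 2 7 1 (.mix 0 2 7 0 (.mix 0 2 7 14 (.mix 0 2 7 2 (.mix 0 0 7 2 (.cond 1 0 (.contra [(1, 1), (6, 432), (4,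 128)] 208) (.h2 18 19 (.mix 7 0 0 14 (.cond 8 0 (.contra [(1, 21), (6, 260), (2, 2)] 210) (.contra [(0, 21), (6, 1535), (2, 11)] 2835))) (T183))))))))))))))))) (.mix 0 1 7 0 (.mix 0 1 5 1 (.mix 0 0 5 4 (.cond 1 0 (.contra [(1, 1), (4, 36), (2, 32)] 12) (.contra [(0, 1), (4, 78), (2, 46)] 11))))) (.mix 0 2 7 1 (.mix 0 0 5 4 (.cond 1 0 (.contra [(1, 1), (4, 30), (2, 16)] 6) (.contra [(0, 1), (2, 2)] 7))))

def T185 : Tr := .dn 17 (.mix 0 2 16 6 (.mix 0 2 16 9 (.mix 0 0 14 6 (.cond 1 0 (.contra [(0, 8), (8, 1536), (4, 249), (2, 59)] 0) (.contra [(1, 8), (8, 768), (4, 97), (2, 27)] 0))))) (.mix 0 0 16 19 (.mix 0 2 16 5 (.mix 0 0 14 18 (.cond 1 0 (.contra [(0, 8), (8, 1536), (4, 227), (2, 57)] 0) (.contra [(1, 8), (8, 768), (4, 141), (2, 31)] 0))))) (.mix 0 0 17 7 (.mix 0 1 15 18 (.mix 0 1 15 6 (.mix 0 1 14 5 (.up 13 (.mix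 0 1 13 1 (.mix 0 0 13 4 (.mix 0 2 13 1 (.mix 0 2 13 0 (.h0 20 false (.mix 15 2 0 10 (.mix 2 0 0 3 (.cond 3 0 (.contra [(0, 32), (8, 59040), (4, 10325), (2, 2199)] 0) (.contra [(1, 4), (8, 15840), (4, 2325), (2, 599)] 0)))) (.mix 6 0 0 18 (.cond 7 0 (.contra [(0, 32), (8, 18336), (4, 2541), (2, 671)] 0) (.contra [(1, 1), (8, 624), (4, 104), (2, 24)] 0)))))))) (.mix 0 0 13 4 (.cond 1 0 (.contra [(1, 32), (8, 9600), (4, 1475), (2, 369)] 0) (.contra [(0, 16), (8, 1200), (4, 225), (2, 59)] 0))) (.mix 0 2 13 13 (.mix 0 0 13 0 (.mix 0 2 13 14 (.mix 0 0 13 1 (.cond 1 0 (.contra [(1, 8), (8, 11040), (4, 1675), (2, 393)] 0) (.contra [(0, 32), (8, 34080), (4, 6225), (2, 1451)] 0)))))) (.mix 0 2 9 12 (.mix 0 2 9 4 (.mix 0 0 9 11 (.cond 1 0 (.contra [(0, 8), (8, 7680), (4, 1175), (2, 309)] 0) (.contra [(1, 8), (8, 3840), (4, 525),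 (2, 127)] 0))))) (.mix 0 1 13 12 (.mix 0 1 13 3 (.mix 0 1 13 0 (.mix 0 0 13 3 (.cond 1 0 (.contra [(1, 4), (8, 6720), (4, 1125), (2, 263)] 0) (.contra [(0, 32), (8, 14880), (4, 1625), (2, 387)] 0))))))))))) (.mix 0 2 17 16 (.mix 0 0 15 9 (.mix 0 1 15 15 (.mix 0 0 14 8 (.cond 1 0 (.contra [(0, 32), (8, 1440), (4, 213), (2, 23)] 0) (.contra [(1, 8), (8, 3360), (4, 499), (2, 129)] 0)))))) (.mix 0 1 17 15 (.mix 0 1 15 16 (.mix 0 1 15 19 (.mix 0 0 14 16 (.cond 1 0 (.contra [(1, 4), (8, 1152), (4, 171), (2, 41)] 0) (.contra [(0, 32), (8, 9888), (4, 1469), (2, 399)] 0))))))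

def T186 : Tr := .up 8 (.mix 0 0 4 3 (.cond 1 0 (.contra [(1, 2), (8, 2412), (6, 1557), (4, 79)] 0) (.contra [(0, 2), (8, 1536), (6, 971), (4, 87)] 0))) (.mix 0 2 4 0 (.mix 0 0 4 3 (.cond 1 0 (.contra [(0, 1), (8, 2016), (6, 1351), (4, 72)] 0) (.contra [(1, 1), (8, 2328), (6, 1383), (4, 101)] 0)))) (.mix 0 0 8 2 (.mix 0 2 8 13 (.mix 0 2 8 10 (.mix 3 1 7 14 (.mix 0 0 7 1 (.mix 0 2 7 0 (.mix 0 0 7 3 (.cond 7 6 (.h2 34 36 (.mix 26 1 0 12 (.mix 10 2 0 13 (.mix 3 2 0 12 (.up 11 (.mix 0 2 11 14 (.mix 0 0 11 1 (.cond 1 0 (.contra [(1, 1), (10, 33000), (8, 32500), (3, 206)] 0) (.contra [(0, 3), (10, 77625), (8, 80000), (3, 569)] 0)))) (.mix 0 0 8 4 (.mix 0 2 8 1 (.mix 0 2 8 0 (.mix 0 2 8 14 (.mix 0 0 5 1 (.cond 1 0 (.contra [(1, 3), (10, 216000), (8, 190000), (3, 1168)] 0) (.contra [(0, 1), (10, 429000), (8, 438125), (3, 2902)]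 0))))))) (.mix 0 0 11 2 (.cond 1 0 (.contra [(0, 1), (10, 5625), (8, 6250), (3, 42)] 0) (.contra [(1, 3), (10, 22500), (8, 25000), (3, 193)] 0))) (.mix 0 1 11 0 (.mix 0 0 11 3 (.cond 1 0 (.contra [(1, 3), (10, 121500), (8, 122500), (3, 826)] 0) (.contra [(0, 1), (10, 10875), (8, 10000), (3, 51)] 0)))) (.mix 0 2 11 1 (.mix 0 2 11 0 (.mix 0 0 11 3 (.cond 1 0 (.contra [(0, 1), (10, 43875), (8, 42500), (3, 277)] 0) (.contra [(1, 3), (10, 288000), (8, 295000), (3, 1948)] 0))))))))) (.mix 26 0 0 11 (.cond 27 0 (.contra [(1, 1), (10, 3360), (8, 3500), (3, 24)] 0) (.contra [(0, 3), (10, 3960), (8, 3875), (3, 26)] 0)))) (.contra [(0, 3), (2, 25), (1, 4)] 0))))))))) (.mix 0 1 8 0 (.mix 0 1 8 1 (.mix 0 1 8 13 (.mix 0 0 8 0 (.cond 1 0 (.contra [(1, 1), (8, 8256), (6, 4916), (4, 252)] 0) (.dn 21 (.mix 0 1 21 8 (.mix 0 1 21 17 (.mix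 0 1 21 9 (.mix 0 0 21 6 (.cond 1 0 (.contra [(1, 7), (10, 123768), (8, 107408), (2, 72)] 0) (.contra [(0, 7), (10, 265056), (8, 227136), (2, 149)] 0)))))) (.mix 0 2 21 9 (.mix 0 0 21 6 (.mix 0 1 21 5 (.mix 0 0 21 18 (.cond 1 0 (.contra [(1, 7), (10, 137784), (8, 117264), (2, 76)] 0) (.contra [(0, 1), (10, 36864), (8, 31744), (2, 21)] 0)))))) (.mix 0 0 21 7 (.mix 0 2 21 19 (.mix 0 0 21 16 (.mix 0 2 21 15 (.h0 37 false (.mix 23 1 0 8 (.mix 2 0 0 8 (.cond 3 0 (.contra [(1, 1), (10, 7056), (8, 5856), (2, 4)] 0) (.contra [(0, 7), (10, 7176), (8, 8176), (2, 9)] 0)))) (.mix 23 0 0 18 (.cond 24 0 (.contra [(0, 7), (10, 59352), (8, 50512), (2, 33)] 0) (.contra [(1, 7), (10, 111696), (8, 96096), (2, 64)] 0)))))))) (.mix 0 2 21 16 (.mix 0 2 21 15 (.mix 0 0 21 8 (.cond 1 0 (.contra [(1, 7), (10, 91908), (8, 79128), (2, 52)] 0) (.contra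 [(0, 7), (10, 143124), (8, 122584), (2, 81)] 0))))) (.mix 0 0 17 6 (.mix 0 1 17 5 (.mix 0 0 17 18 (.cond 1 0 (.contra [(0, 7), (10, 4698), (8, 4053), (2, 2)] 0) (.contra [(1, 1), (10, 20988), (8, 18068), (2, 12)] 0))))))))))) (.mix 0 0 4 11 (.cond 1 0 (.contra [(0, 2), (8, 1008), (6, 663), (4, 11)] 0) (.contra [(1, 2), (8, 2676), (6, 1711), (4, 117)] 0)))

def T187 : Tr := .dn 17 (.mix 0 2 16 6 (.mix 0 2 16 9 (.mix 0 0 14 6 (.cond 1 0 (.contra [(0, 1), (6, 192), (4, 118), (2, 9)] 0) (.contra [(1, 1), (6, 96), (4, 54), (2, 2)] 0))))) (.mix 0 0 16 19 (.mix 0 2 16 5 (.mix 0 0 14 18 (.cond 1 0 (.contra [(0, 1), (6, 192), (4, 114), (2, 7)] 0) (.contra [(1, 1), (6, 96), (4, 62), (2, 6)] 0))))) (.mix 0 0 17 7 (.mix 0 1 15 18 (.mix 0 1 15 6 (.mix 0 1 14 5 (.mix 4 1 20 18 (.mix 0 1 20 6 (.mix 0 1 18 5 (.up 16 (.mix 0 0 16 3 (.mix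 0 2 16 12 (.mix 0 2 16 4 (.mix 0 0 16 11 (.cond 1 0 (.contra [(1, 1), (6, 264), (4, 264), (2, 8)] 0) (.contra [(0, 2), (6, 2874), (4, 1799), (2, 153)] 0)))))) (.mix 0 2 16 0 (.mix 0 0 16 3 (.cond 1 0 (.contra [(1, 1), (6, 528), (4, 343), (2, 21)] 0) (.contra [(0, 2), (6, 318), (4, 183), (2, 1)] 0)))) (.mix 0 1 16 14 (.mix 0 0 16 1 (.cond 1 0 (.contra [(1, 1), (6, 444), (4, 279), (2, 13)] 0) (.contra [(0, 2), (6, 654), (4, 439), (2, 33)] 0)))) (.mix 0 2 16 12 (.mix 0 2 16 4 (.mix 0 0 16 11 (.cond 1 0 (.contra [(0, 2), (6, 1422), (4, 937), (2, 39)] 0) (.contra [(1, 1), (6, 1008), (4, 618), (2, 46)] 0))))) (.mix 0 0 16 11 (.mix 0 1 16 10 (.mix 0 0 16 13 (.mix 0 1 16 2 (.mix 4 2 16 1 (.mix 0 2 16 0 (.mix 0 2 16 14 (.mix 0 2 16 2 (.cond 8 7 (.contra [(1, 2), (6, 96), (4, 81), (2, 7)] 0) (T186)))))))))))))))))) (.mix 0 2 17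 16 (.mix 0 0 15 9 (.mix 0 1 15 15 (.mix 0 0 14 8 (.cond 1 0 (.contra [(0, 2), (6, 90), (4, 23), (2, 9)] 0) (.contra [(1, 1), (6, 420), (4, 258), (2, 14)] 0)))))) (.mix 0 1 17 15 (.mix 0 1 15 16 (.mix 0 1 15 19 (.mix 0 0 14 16 (.cond 1 0 (.contra [(1, 1), (6, 288), (4, 164), (2, 12)] 0) (.contra [(0, 2), (6, 618), (4, 399), (2, 17)] 0))))))

def T188 : Tr := .dn 8 (.mix 0 2 7 6 (.mix 0 2 7 9 (.mix 0 0 5 6 (.cond 1 0 (.contra [(0, 1), (4, 30), (2, 19)] 18) (.contra [(1, 1), (4, 60), (2, 32)] 4))))) (.mix 0 0 7 19 (.mix 0 2 7 5 (.mix 0 0 5 18 (.cond 1 0 (.contra [(0, 6), (4, 480), (2, 250), (1, 7)] 0) (.cond 3 2 (.contra [(0, 4), (3, 1)] 0) (.contra [(1, 1), (6, 9), (4, 8)] 1)))))) (.mix 0 0 8 7 (.mix 0 1 6 18 (.mix 0 1 6 6 (.mix 0 1 5 5 (.mix 4 1 11 18 (.mix 0 1 11 6 (.mix 0 1 9 5 (.mix 0 0 8 18 (.cond 1 0 (.dn 8 (.mix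 0 0 4 18 (.cond 1 0 (.contra [(0, 2), (4, 395), (2, 27)] 640) (.contra [(1, 2), (4, 115), (2, 9)] 180))) (.mix 0 2 8 9 (.mix 0 0 8 6 (.mix 0 1 8 5 (.mix 0 0 8 18 (.cond 1 0 (.contra [(1, 1), (4, 1940), (2, 132)] 2980) (.contra [(0, 1), (4, 880), (2, 54)] 1335)))))) (.mix 0 0 8 7 (.cond 1 0 (.contra [(0, 2), (4, 465), (2, 31)] 730) (.contra [(1, 2), (4, 255), (2, 17)] 360))) (.mix 0 2 8 16 (.mix 0 2 8 15 (.mix 0 0 8 8 (.cond 1 0 (.contra [(1, 1), (4, 550), (2, 34)] 800) (.contra [(0, 1), (4, 750), (2, 52)] 1225))))) (.mix 0 1 8 15 (.mix 0 0 8 8 (.cond 1 0 (.contra [(1, 1), (4, 385), (2, 27)] 620) (.contra [(0, 1), (4, 295), (2, 19)] 415))))) (.contra [(1, 1), (4, 168), (2, 112)] 24)))))))))) (.mix 0 2 8 16 (.mix 0 0 6 9 (.mix 0 1 6 15 (.mix 0 0 5 8 (.mix 4 0 11 5 (.mix 0 1 11 8 (.mix 0 1 9 17 (.mix 0 1 8 9 (.cond 5 4 (.h0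 9 false (.cond 10 0 (.contra [(0, 1), (6, 66), (4, 43)] 14) (.contra [(1, 1), (4, 8)] 0)) (.mix 1 0 0 6 (.cond 2 0 (.contra [(1, 19), (6, 720), (2, 56)] 200) (.contra [(0, 1), (6, 258), (4, 179)] 78)))) (.contra [(1, 1), (4, 168), (2, 104)] 28)))))))))) (.mix 0 1 8 15 (.mix 0 1 6 16 (.mix 0 1 6 19 (.mix 0 0 5 16 (.cond 1 0 (.contra [(1, 1), (4, 72), (2, 32)] 24) (.contra [(0, 1), (4, 156), (2, 106)] 17))))))

def T189 : Tr := .h2 1 2 (.h0 1 false (.cond 2 0 (.up 8 (.mix 0 2 8 14 (.mix 0 0 6 1 (.cond 1 0 (.contra [(0, 2), (6, 198), (4, 127), (2, 9)] 0) (.contra [(1, 1), (6, 12), (4, 3), (2, 1)] 0)))) (.mix 0 1 8 13 (.mix 0 1 6 2 (.mix 0 0 6 2 (.mix 0 2 5 13 (.mix 4 2 11 0 (.mix 0 2 11 14 (.mix 0 2 9 2 (.mix 0 0 8 2 (.cond 1 0 (T185) (.contra [(1, 1), (4, 12), (2, 4)] 0)))))))))) (.mix 0 0 8 2 (.cond 1 0 (.contra [(0, 1),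 (6, 57), (4, 36), (2, 2)] 0) (.contra [(1, 2), (6, 48), (4, 29), (2, 3)] 0))) (.mix 0 1 8 0 (.mix 0 0 6 3 (.cond 1 0 (.contra [(1, 1), (6, 72), (4, 49), (2, 3)] 0) (.contra [(0, 2), (6, 138), (4, 81), (2, 7)] 0)))) (.mix 0 2 8 1 (.mix 0 2 6 0 (.mix 0 2 6 14 (.mix 0 2 5 2 (.mix 4 0 11 11 (.mix 0 2 11 3 (.mix 0 0 9 10 (.mix 0 1 8 4 (T187)))))))))) (.contra [(1, 1), (2, 4)] 0)) (T188)) (.dn 7 (.mix 0 2 6 6 (.mix 0 2 6 9 (.mix 0 0 4 6 (.cond 1 0 (.contra [(0, 1), (4, 30), (2, 19)] 18) (.contra [(1, 1), (4, 60), (2, 32)] 4))))) (.mix 0 0 6 19 (.mix 0 2 6 5 (.mix 0 0 4 18 (.cond 1 0 (.contra [(0, 6), (4, 480), (2, 250), (1, 7)] 0) (.cond 3 2 (.contra [(0, 4), (3, 1)] 0) (.contra [(1, 1), (6, 9), (4, 8)] 1)))))) (.mix 0 0 7 7 (.mix 0 1 5 18 (.mix 0 1 5 6 (.mix 0 0 4 19 (.cond 1 0 (.contra [(0, 1), (4, 132), (2, 98)] 21) (.contra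 [(1, 1), (4, 24), (2, 16)] 32)))))) (.mix 0 2 7 16 (.mix 0 0 5 9 (.mix 0 1 5 15 (.mix 0 1 4 16 (.h0 5 true (.cond 6 0 (.contra [(0, 1), (4, 36), (2, 22)] 15) (.contra [(1, 1), (2, 8)] 4)) (.mix 1 0 0 9 (.cond 2 0 (.contra [(0, 1), (4, 12), (2, 26)] 57) (.contra [(1, 1), (4, 336), (2, 208)] 56)))))))) (.mix 0 2 6 17 (.mix 0 0 6 17 (.cond 1 0 (.contra [(1, 1), (4, 18), (2, 8)] 6) (.contra [(0, 1), (4, 24), (2, 19)] 8)))))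

def T190 : Tr := .dn 8 (.mix 0 2 8 6 (.mix 0 0 8 19 (.cond 1 0 (.contra [(0, 1), (8, 75), (6, 25), (2, 11)] 0) (.contra [(1, 3), (8, 600), (6, 350), (2, 14)] 0)))) (.mix 0 0 8 19 (.mix 0 1 8 7 (.mix 0 0 8 7 (.mix 0 2 8 19 (.mix 0 0 8 16 (.cond 1 0 (.contra [(0, 1), (8, 1515), (6, 875), (2, 133)] 0) (.contra [(1, 3), (8, 3540), (6, 2500), (2, 28)] 0))))))) (.mix 0 0 3 7 (.mix 0 1 3 18 (.mix 0 0 3 15 (.cond 1 0 (.contra [(0, 1), (8, 480), (6, 275), (2, 22)] 0) (.contra [(1, 3), (8, 480), (6, 400), (2, 52)] 0))))) (.mix 0 0 8 5 (.cond 1 0 (.contra [(0, 3), (8, 165), (6, 100), (2, 22)] 0) (.contra [(1, 1), (8, 60), (6, 25), (2, 3)] 0))) (.mix 0 2 8 17 (.mix 0 2 8 8 (.mix 0 2 8 16 (.mix 0 2 8 15 (.mix 0 0 8 8 (.mix 5 1 8 15 (.mix 0 1 8 16 (.cond 3 2 (.contra [(1, 1), (8, 1920), (6, 1200), (2, 112)] 0) (.dn 7 (.mix 0 2 7 6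 (.mix 0 0 7 19 (.cond 1 0 (.contra [(1, 217), (10, 45150), (8, 35500), (2, 174)] 0) (.contra [(0, 217), (10, 93450), (8, 91500), (2, 97)] 0)))) (.mix 0 0 7 19 (.mix 1 1 3 5 (.mix 0 0 3 18 (.cond 3 2 (.contra [(0, 44), (8, 19500), (7, 125), (1, 318)] 0) (.cond 1 0 (.contra [(1, 1), (3, 2)] 0) (.contra [(0, 436), (12, 159750), (9, 36875), (4, 806)] 0)))))) (.mix 0 1 7 18 (.mix 0 0 7 15 (.mix 0 1 7 16 (.mix 0 0 7 9 (.cond 1 0 (.contra [(0, 7), (10, 29400), (8, 18000), (2, 13)] 0) (.cond 3 2 (.contra [(1, 162), (12, 109500), (10, 115000), (3, 91)] 0) (.contra [(0, 4), (3, 1)] 0))))))) (.mix 0 0 7 5 (.cond 1 0 (.contra [(0, 217), (10, 68775), (8, 34250), (2, 12)] 0) (.contra [(1, 217), (10, 69825), (8, 54000), (2, 11)] 0))) (.mix 0 0 2 6 (.cond 1 0 (.contra [(0, 2), (10, 348), (8, 58), (7, 33)] 0) (.contra [(1, 217), (10,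 105525), (8, 66750), (2, 101)] 0))))))))))))

def T191 : Tr := .h2 16 28 (.mix 16 0 0 0 (.mix 16 1 0 4 (.mix 16 0 0 0 (.mix 16 1 0 4 (.h0 10 true (.mix 10 1 0 0 (.mix 10 0 0 4 (.mix 10 1 0 0 (.mix 10 0 0 4 (.cond 13 2 (.h0 9 false (.h2 5 16 (.mix 5 1 0 1 (.mix 5 1 0 12 (.mix 5 1 0 1 (.mix 5 1 0 12 (.h0 4 false (.mix 4 1 0 13 (.mix 4 1 0 3 (.mix 4 0 0 4 (.mix 4 0 0 12 (.cond 5 0 (.contra [(0, 1), (22, 14511906), (20, 8535953)] 4608318) (.contra [(1, 1), (22, 16258392), (20, 10689196)] 238376)))))) (.mix 4 0 0 4 (.mix 4 0 0 12 (.cond 5 0 (.contra [(0, 8), (22, 2582910), (19, 340211)] 564150) (.contra [(1, 1), (2, 4)] 0))))))))) (.exc 3 0 1 ⟨-26072, -3727, -603410, -9728688587, -1390718871, -225160631337, 9728662515, 1390715144, 225160027927⟩ ⟨446963, 3725, 0, 166782902600, 1389972575, 0, -166782455637, -1389968850, 0⟩ ⟨331505,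 472792, -290282, 123700096275, 176420916424, -108317857440, -123699764770, -176420443632, 108317567158⟩ 1)) (.mix 9 1 0 1 (.mix 9 1 0 12 (.mix 9 1 0 1 (.mix 9 1 0 12 (.h0 4 false (.mix 4 1 0 13 (.mix 4 1 0 3 (.mix 4 0 0 4 (.mix 4 0 0 12 (.cond 5 0 (.contra [(0, 4), (22, 26866290), (19, 3710629)] 3138350) (.contra [(1, 1), (6, 8)] 0)))))) (.mix 4 0 0 4 (.cond 5 0 (.contra [(1, 1), (4, 8)] 4708) (.contra [(0, 1), (22, 80268), (20, 50374)] 38319))))))))) (.contra [(1, 1), (20, 125208), (18, 88204)] 50024)))))) (.mix 10 2 0 12 (.mix 10 2 0 0 (.h0 2 true (.mix 2 0 0 12 (.cond 3 0 (.contra [(1, 2), (20, 45630), (17, 8659)] 12150) (.contra [(0, 1), (20, 69906), (18, 40073)] 15438))) (.mix 2 2 0 4 (.mix 2 0 0 3 (.cond 3 0 (.contra [(0, 1), (20, 346302), (18, 198751)] 20706) (.contra [(1, 1), (20, 250416), (18, 176408)] 100048))))))))))))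 (.mix 16 1 0 2 (.mix 16 2 0 11 (.h0 2 true (.mix 2 0 0 2 (.cond 3 0 (.contra [(0, 1), (20, 56892), (18, 33566)] 18571) (.contra [(1, 1), (20, 66144), (18, 43312)] 1272))) (.mix 2 1 0 14 (.mix 2 0 0 14 (.cond 3 0 (.contra [(0, 1), (20, 370884), (18, 211042)] 52277) (.contra [(1, 1), (20, 157872), (18, 130136)] 87516)))))))

def T192 : Tr := .h0 11 true (.mix 11 1 0 13 (.mix 11 0 0 10 (.mix 11 1 0 13 (.mix 11 0 0 10 (.cond 12 0 (.contra [(1, 1), (16, 2453808), (14, 1546904)] 185724) (.h0 10 true (.mix 10 1 0 0 (.mix 10 0 0 4 (.mix 10 1 0 0 (.mix 10 0 0 4 (.mix 10 1 4 8 (.h2 5 16 (.mix 5 1 0 1 (.h0 1 false (.cond 2 0 (.contra [(0, 1), (18, 1878), (16, 1451)] 1738) (.contra [(1, 1), (18, 8520), (16, 5284)] 1080)) (.mix 1 0 0 4 (.cond 2 0 (.contra [(1, 1), (4, 4)] 5756) (.contra [(0, 1), (18, 29466), (16, 17293)] 9158)))))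 (.mix 5 0 0 3 (.mix 5 2 0 1 (.mix 5 0 0 3 (.mix 5 2 0 1 (.mix 5 0 4 5 (.cond 6 0 (.contra [(1, 1), (18, 16536), (16, 10828)] 5096) (T191))))))))))))) (.mix 10 2 0 12 (.mix 10 2 0 0 (.mix 10 2 0 12 (.h0 3 true (.cond 4 0 (.contra [(0, 379), (18, 3552), (8, 247)] 243232) (.contra [(1, 1), (6, 8)] 0)) (.mix 3 2 0 4 (.mix 3 0 0 3 (.mix 3 0 0 12 (.cond 4 0 (.contra [(1, 2), (18, 75390), (15, 33139)] 7350) (.contra [(0, 1), (18, 454866), (16, 259433)] 45198))))))))))))))) (.mix 11 2 0 0 (.mix 11 2 0 12 (.mix 11 2 0 0 (.mix 11 2 0 12 (.h0 4 true (.mix 4 2 0 14 (.mix 4 2 0 4 (.mix 4 0 0 3 (.mix 4 0 0 12 (.cond 5 0 (.contra [(1, 1), (16, 4907616), (14, 3093808)] 371448) (.contra [(0, 1), (16, 2435388), (14, 1537694)] 1195339)))))) (.mix 4 0 0 3 (.mix 4 0 0 12 (.cond 5 0 (.contra [(1, 1), (16, 6420), (13, 5762)] 300) (.contra [(0,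 1), (16, 175956), (14, 100778)] 12393)))))))))

def T193 : Tr := .h0 34 false (.mix 34 2 0 14 (.mix 34 0 0 11 (.mix 34 2 0 14 (.mix 34 0 0 11 (.mix 19 2 0 14 (.mix 6 0 0 11 (.mix 36 2 6 16 (.h2 7 42 (.mix 7 2 0 2 (.mix 7 1 0 10 (.mix 7 2 0 2 (.mix 7 1 0 10 (.mix 7 2 0 2 (.mix 7 1 0 10 (.h0 6 false (.cond 7 0 (.contra [(1, 1), (2, 8)] 716) (.contra [(0, 1), (14, 3204), (12, 1858)] 869)) (.mix 6 2 0 13 (.mix 6 0 0 13 (.mix 6 0 0 2 (.mix 6 1 0 4 (.mix 6 2 0 13 (.mix 6 0 0 13 (.cond 7 0 (.contra [(1, 1), (14, 51402384), (12, 33701192)] 15936052) (.contra [(0, 4), (14, 99837870), (11, 13183787)] 21200050))))))))))))))) (.mix 7 0 0 1 (.mix 7 2 0 3 (.mix 7 0 0 1 (.mix 7 2 0 3 (.mix 5 0 4 9 (.cond 6 0 (.contra [(1, 1), (14, 10416), (12, 6488)] 1116) (.h2 42 54 (.mix 42 1 0 1 (.mix 42 1 0 12 (.h0 2 false (.cond 3 0 (.contra [(0,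 1), (16, 1602), (14, 929)] 30) (.contra [(1, 1), (4, 4)] 0)) (.mix 2 0 0 4 (.mix 2 0 0 12 (.cond 3 0 (.contra [(0, 1), (16, 31638), (14, 19019)] 11914) (.contra [(1, 1), (16, 44616), (14, 28708)] 1848))))))) (.mix 42 0 0 3 (.mix 42 2 0 1 (.mix 42 0 0 3 (.mix 42 2 0 1 (.mix 42 0 4 5 (T192))))))))))))))))))))) (.mix 34 1 0 1 (.h0 1 false (.cond 2 0 (.contra [(0, 1), (14, 1812), (12, 1034)] 345) (.contra [(1, 1), (14, 468), (11, 98)] 108)) (.mix 1 0 0 4 (.cond 2 0 (.contra [(1, 1), (14, 7056), (12, 4808)] 2548) (.contra [(0, 1), (14, 8172), (12, 4726)] 231)))))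

def T194 : Tr := .up 13 (.mix 0 2 5 14 (.mix 0 2 5 2 (.mix 0 0 5 2 (.cond 1 0 (.contra [(1, 1), (14, 167556), (12, 127528)] 10268) (.contra [(0, 8), (14, 687210), (11, 58721)] 101650))))) (.mix 0 2 13 0 (.mix 0 2 13 14 (.mix 0 2 13 2 (.mix 0 0 13 2 (.mix 4 1 9 13 (.mix 0 0 9 0 (.mix 0 2 9 14 (.mix 0 2 9 2 (.mix 0 0 9 2 (.cond 6 5 (.contra [(0, 1), (14, 265044), (12, 220022)] 19407) (.cond 1 0 (.contra [(1, 576), (16, 1193250000), (13, 120212500), (3, 7709)] 0) (.contra [(0, 1536), (16, 260250000), (13, 7362500), (3, 4393)] 0)))))))))))) (.mix 0 1 13 14 (.mix 0 1 13 11 (.mix 0 0 13 14 (.cond 1 0 (.contra [(1, 1), (14, 125748), (12, 106624)] 43044) (.contra [(0, 1), (14, 72456), (12, 29978)] 43093))))) (.mix 0 2 13 12 (.mix 0 0 13 12 (.mix 0 1 13 3 (.mix 0 1 13 0 (.mix 0 0 13 3 (.mix 0 1 13 0 (.mix 0 1 13 1 (.cond 6 5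 (.contra [(0, 1), (14, 132942), (12, 88346)] 22651) (.cond 3 2 (.contra [(1, 158), (16, 220781250), (3, 44173)] 955468750) (.up 7 (.mix 0 0 7 3 (.cond 1 0 (.contra [(0, 846), (18, 585937500), (5, 49483), (2, 6538)] 0) (.contra [(1, 47), (18, 146484375), (5, 11842), (2, 1517)] 0))) (.mix 0 2 7 0 (.mix 0 2 7 14 (.mix 0 2 7 2 (.mix 0 2 7 13 (.mix 0 2 7 10 (.mix 0 2 7 11 (.mix 0 0 7 14 (.cond 1 0 (.contra [(1, 141), (18, 18750000000), (5, 1565408), (2, 200192)] 0) (.contra [(0, 423), (18, 51562500000), (5, 4124392), (2, 534313)] 0))))))))) (.mix 0 1 7 14 (.mix 0 1 7 11 (.mix 0 0 7 14 (.cond 1 0 (.contra [(0, 141), (18, 1171875000), (5, 95582), (2, 12089)] 0) (.contra [(1, 423), (18, 1171875000), (5, 87122), (2, 11384)] 0))))) (.mix 0 2 7 12 (.mix 0 0 7 12 (.cond 1 0 (.contra [(0, 141), (18, 585937500), (5, 47227), (2, 6115)]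 0) (.contra [(1, 423), (18, 2343750000), (5, 192433), (2, 24460)] 0)))) (.mix 0 0 7 11 (.cond 1 0 (.contra [(1, 423), (18, 1025390625), (5, 83740), (2, 10807)] 0) (.contra [(0, 282), (18, 585937500), (5, 46945), (2, 5974)] 0))))))))))))) (.mix 0 0 13 11 (.mix 0 2 13 3 (.mix 0 0 13 10 (.mix 0 1 13 4 (.mix 0 0 13 11 (.mix 0 2 13 3 (.mix 0 0 13 10 (.mix 0 1 13 4 (T193)))))))))

def T195 : Tr := .h0 11 true (.mix 11 1 0 0 (.mix 11 0 0 4 (.mix 11 1 0 0 (.mix 11 0 0 4 (.mix 11 1 4 8 (.cond 17 5 (.up 31 (.mix 0 2 31 14 (.mix 0 0 31 1 (.mix 0 1 31 13 (.mix 0 0 31 0 (.mix 0 2 31 14 (.mix 0 0 31 1 (.mix 0 1 31 13 (.mix 0 0 15 0 (.mix 8 0 32 3 (.mix 0 1 32 0 (.mix 0 0 32 3 (.mix 0 1 32 0 (.mix 0 0 32 3 (T194)))))))))))))) (.mix 0 1 31 13 (.mix 0 1 31 2 (.mix 0 0 31 2 (.mix 0 2 31 13 (.mix 0 2 31 10 (.mix 0 0 31 13 (.cond 1 0 (.contra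 [(0, 1), (14, 227124), (12, 103562)] 19897) (.contra [(1, 1), (14, 331392), (12, 235696)] 92376)))))))) (.mix 0 1 24 14 (.mix 0 1 24 11 (.mix 0 1 24 10 (.mix 0 1 24 4 (.mix 0 0 24 11 (.mix 0 2 24 3 (.mix 0 2 20 12 (.mix 0 0 9 12 (.cond 1 0 (.contra [(1, 1), (14, 1700976), (12, 1130488)] 272528) (.contra [(0, 1), (14, 144882), (12, 32441)] 276846)))))))))) (.mix 0 2 24 12 (.mix 0 0 24 12 (.cond 1 0 (.contra [(1, 1), (14, 25458), (12, 17104)] 3174) (.contra [(0, 1), (14, 8856), (12, 3803)] 4168)))) (.mix 0 2 31 1 (.mix 0 2 31 0 (.mix 0 2 31 14 (.mix 0 2 31 2 (.mix 0 0 31 2 (.cond 1 0 (.contra [(0, 1), (14, 182868), (12, 126434)] 17029) (.contra [(1, 1), (14, 104976), (12, 47488)] 24528)))))))) (.contra [(1, 1), (12, 264), (10, 196)] 120))))))) (.mix 11 2 0 12 (.mix 11 2 0 0 (.h0 2 true (.cond 3 0 (.contra [(0, 1), (12,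 906), (10, 517)] 86) (.contra [(1, 1), (12, 528), (10, 392)] 240)) (.mix 2 2 0 4 (.mix 2 0 0 3 (.cond 3 0 (.contra [(0, 1), (12, 10158), (10, 6679)] 5874) (.contra [(1, 1), (2, 8)] 0)))))))

def T196 : Tr := .up 18 (.mix 0 0 18 3 (.mix 0 1 18 0 (.mix 0 1 18 1 (.mix 0 1 18 13 (.mix 0 1 18 2 (.mix 0 0 18 2 (.mix 0 2 18 13 (.cond 7 6 (.contra [(1, 1), (12, 993), (10, 934)] 279) (.up 7 (.mix 0 2 7 14 (.mix 0 2 7 2 (.mix 0 2 7 13 (.mix 0 0 7 0 (.cond 1 0 (.contra [(0, 61), (14, 3218250), (6, 21901)] 416250) (.contra [(1, 101), (14, 1605000), (2, 21728)] 8525000)))))) (.mix 0 1 7 13 (.mix 0 0 7 0 (.mix 0 1 7 1 (.mix 0 0 7 4 (.mix 0 1 7 12 (.mix 0 0 7 12 (.cond 1 0 (.contra [(1, 61), (14, 22959000), (6, 122092)] 695000) (.contra [(0, 61), (14, 13694250), (6, 71369)] 5396250)))))))) (.mix 0 0 7 2 (.cond 1 0 (.contra [(1, 61),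 (14, 119625), (6, 997)] 138750) (.contra [(0, 39), (14, 187500), (6, 1340), (2, 29)] 0))) (.mix 0 1 7 0 (.mix 0 1 7 1 (.mix 0 0 7 4 (.mix 0 1 7 12 (.mix 0 1 7 3 (.mix 0 1 7 0 (.mix 0 0 7 3 (.cond 1 0 (.contra [(0, 101), (14, 10156875), (2, 191143)] 74596875) (.contra [(1, 61), (14, 14532000), (6, 36656)] 5860000))))))))) (.mix 0 2 7 1 (.mix 0 0 7 4 (.mix 0 1 7 12 (.mix 0 1 7 3 (.mix 0 0 7 10 (.cond 1 0 (.contra [(0, 61), (14, 10077750), (6, 43727)] 663750) (.contra [(1, 61), (14, 7548000), (6, 44344)] 2540000)))))))))))))))) (.mix 0 2 18 0 (.mix 0 2 18 14 (.mix 0 2 18 2 (.mix 0 0 18 2 (.mix 0 1 18 14 (.mix 0 1 18 11 (.mix 0 0 18 14 (.cond 1 0 (.contra [(1, 1), (12, 73824), (10, 64912)] 24872) (.contra [(0, 1), (12, 29628), (10, 10814)] 28059))))))))) (.mix 0 1 18 14 (.mix 0 1 18 11 (.mix 0 0 18 14 (.mix 3 0 14 2 (.cond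 2 1 (.contra [(1, 1), (12, 9876), (10, 6688)] 2228) (.cond 4 0 (.contra [(1, 22), (14, 472500), (11, 41375), (2, 156)] 0) (.contra [(0, 44), (14, 71250), (11, 4875), (2, 34)] 0))))))) (.mix 0 2 18 12 (.mix 0 0 18 12 (.cond 1 0 (.contra [(0, 1), (12, 3654), (10, 2702)] 237) (.contra [(1, 1), (12, 2778), (10, 1264)] 134)))) (.mix 0 0 18 11 (.mix 0 2 18 3 (.mix 0 0 18 10 (.mix 0 1 18 4 (.mix 0 0 18 11 (.mix 0 2 18 3 (.mix 0 0 18 10 (.mix 7 2 18 1 (.mix 0 0 18 4 (.mix 0 2 18 1 (.mix 0 0 18 4 (.mix 0 2 18 1 (.mix 0 0 15 4 (.h2 19 52 (.mix 19 1 0 1 (.mix 19 1 0 12 (.mix 19 1 0 1 (.mix 4 1 0 12 (.mix 20 1 4 17 (.mix 20 1 0 5 (.h0 6 false (.mix 6 1 0 13 (.mix 6 1 0 3 (.mix 6 0 0 4 (.mix 6 0 0 12 (.cond 7 0 (.contra [(0, 1), (12, 277398), (10, 158699)] 57994) (.contra [(1, 2), (12, 166170), (9, 32617)] 42050)))))) (.mix 2 1 0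 9 (.mix 2 0 0 18 (.cond 3 0 (.contra [(0, 1), (12, 1458), (10, 1529)] 2478) (.contra [(1, 1), (12, 13464), (10, 8332)] 2024))))))))))) (.mix 19 0 0 3 (.mix 19 2 0 1 (.mix 19 0 0 3 (.mix 4 2 0 1 (.mix 20 0 4 5 (.h2 54 66 (.mix 54 0 0 0 (.mix 46 1 0 4 (.mix 34 0 0 0 (.mix 16 1 0 4 (.mix 57 0 4 8 (T195)))))) (.mix 54 1 0 2 (.mix 46 2 0 11 (.mix 34 1 0 2 (.h0 3 true (.mix 3 0 0 2 (.cond 4 0 (.contra [(0, 4), (12, 7110), (9, 967)] 1050) (.contra [(1, 1), (6, 8)] 0))) (.mix 3 1 0 14 (.mix 3 0 0 14 (.mix 3 0 0 2 (.cond 4 0 (.contra [(0, 1), (12, 98964), (10, 57482)] 27417) (.contra [(1, 1), (12, 45780), (9, 7778)] 14700)))))))))))))))))))))))))))))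

def T197 : Tr := .up 9 (.mix 0 1 9 1 (.mix 0 1 9 13 (.mix 0 0 9 0 (.mix 0 1 9 1 (.mix 0 0 9 4 (.mix 0 1 9 12 (.mix 0 0 9 12 (.cond 1 0 (.contra [(1, 7), (10, 3028500), (7, 289450), (2, 9624)] 0) (.contra [(0, 14), (10, 1092750), (7, 119175), (2, 5636)] 0))))))))) (.mix 0 0 9 4 (.cond 1 0 (.contra [(1, 14), (10, 76500), (7, 7175), (2, 228)] 0) (.contra [(0, 7), (10, 14625), (7, 1050), (2, 58)] 0))) (.mix 0 2 9 13 (.mix 0 2 9 10 (.mix 0 2 9 11 (.mix 0 0 9 14 (.mix 0 2 9 2 (.mix 0 2 9 13 (.mix 0 2 9 10 (.mix 7 1 9 14 (.mix 0 1 9 11 (.cond 6 5 (.contra [(1, 7), (10, 366000), (7, 35700), (2, 1216)] 0) (.up 9 (.mix 0 0 9 3 (.cond 1 0 (.contra [(1, 51), (12, 324375), (9, 52375), (2, 97)] 0) (.contra [(0, 34), (12, 442500), (9, 79125), (2, 94)] 0))) (.mix 0 2 9 0 (.mix 0 0 9 3 (.mix 0 2 9 12 (.mix 0 0 9 12 (.mix 0 2 9 4 (.mix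 0 0 9 11 (.cond 1 0 (.contra [(1, 51), (12, 49440000), (9, 7688000), (2, 9116)] 0) (.contra [(0, 17), (12, 3510000), (9, 339500), (2, 399)] 0)))))))) (.mix 0 2 2 13 (.mix 0 0 2 0 (.cond 1 0 (.contra [(1, 1), (12, 60000), (9, 8875), (2, 12)] 0) (.contra [(0, 204), (12, 5936250), (9, 834125), (2, 866)] 0)))) (.mix 0 2 9 12 (.mix 0 2 9 4 (.mix 0 0 9 11 (.mix 0 2 9 3 (.mix 0 2 9 12 (.mix 0 2 9 4 (.mix 0 0 9 11 (.cond 1 0 (.contra [(0, 17), (12, 38850000), (9, 6082500), (2, 7553)] 0) (.contra [(1, 51), (12, 56400000), (9, 7780000), (2, 11248)] 0))))))))) (.mix 0 0 9 11 (.mix 0 1 9 10 (.mix 0 0 9 13 (.cond 1 0 (.contra [(0, 17), (12, 2205000), (9, 322250), (2, 403)] 0) (.contra [(1, 51), (12, 555000), (9, 117250), (2, 28)] 0)))))))))))))))) (.mix 0 0 9 10 (.mix 0 1 9 4 (.mix 0 1 9 12 (.mix 0 1 9 3 (.mix 0 0 9 10 (.cond 1 0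 (.contra [(1, 1), (10, 90000), (7, 8000), (2, 288)] 0) (.contra [(0, 14), (10, 843750), (7, 91875), (2, 2644)] 0))))))) (.mix 0 1 9 12 (.mix 0 0 9 12 (.mix 0 1 9 3 (.mix 0 0 9 10 (.cond 1 0 (.contra [(1, 7), (10, 223500), (7, 23450), (2, 648)] 0) (.contra [(0, 14), (10, 579750), (7, 54075), (2, 2068)] 0))))))

def T198 : Tr := .up 12 (.mix 0 2 12 14 (.mix 0 0 12 1 (.mix 0 1 12 13 (.mix 0 0 12 0 (.mix 0 2 12 14 (.mix 0 0 12 1 (.mix 0 1 12 13 (.mix 7 0 12 3 (.mix 0 1 12 0 (.mix 0 0 12 3 (.mix 0 1 12 0 (.mix 0 0 12 3 (.cond 11 10 (.contra [(1, 1), (8, 918), (6, 584)] 54) (.h0 32 true (.mix 32 1 0 0 (.mix 15 0 0 4 (.mix 3 1 0 0 (.mix 34 1 3 8 (.mix 34 0 0 6 (.cond 19 3 (T196) (.contra [(1, 1), (10, 2664), (8, 1732)] 792))))))) (.mix 32 2 0 12 (.mix 15 2 0 0 (.h0 2 true (.mix 2 0 0 12 (.cond 3 0 (.contra [(1, 2), (10, 330),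 (7, 97)] 50) (.contra [(0, 1), (10, 1158), (8, 659)] 154))) (.mix 2 2 0 4 (.mix 2 0 0 3 (.cond 3 0 (.contra [(0, 8), (10, 18930), (7, 2533)] 3450) (.contra [(1, 1), (10, 5328), (8, 3464)] 1584))))))))))))))))))))) (.mix 0 1 12 13 (.mix 0 1 12 2 (.mix 0 0 12 2 (.cond 1 0 (.contra [(1, 1), (8, 516), (6, 208)] 348) (.contra [(0, 1), (8, 2088), (6, 1394)] 289))))) (.mix 0 0 12 2 (.mix 0 1 12 14 (.mix 0 1 12 11 (.mix 0 0 12 14 (.cond 1 0 (.contra [(1, 1), (8, 2472), (6, 1936)] 816) (.contra [(0, 1), (8, 1884), (6, 842)] 577)))))) (.mix 0 1 12 0 (.mix 0 0 12 3 (.mix 0 1 12 0 (.mix 0 1 12 1 (.mix 0 1 12 13 (.mix 0 1 12 2 (.mix 0 0 12 2 (.mix 7 2 12 12 (.mix 0 0 12 12 (.cond 1 0 (.contra [(1, 1), (8, 546), (6, 448)] 38) (T197))))))))))) (.mix 0 2 12 1 (.mix 0 2 12 0 (.mix 0 2 12 14 (.mix 0 2 12 2 (.mix 0 0 12 2 (.mix 5 0 10 11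 (.mix 0 2 10 3 (.mix 0 2 10 12 (.mix 0 0 10 12 (.cond 1 0 (.contra [(1, 1), (8, 4248), (6, 2824)] 744) (.cond 5 4 (.contra [(0, 157), (10, 192000), (2, 3158)] 2144375) (.up 9 (.mix 0 0 9 3 (.cond 1 0 (.contra [(1, 16), (12, 300000), (4, 736), (3, 389)] 0) (.contra [(0, 6), (12, 131250), (4, 332), (3, 173)] 0))) (.mix 0 2 9 0 (.mix 0 0 9 3 (.cond 1 0 (.contra [(1, 8), (12, 300000), (4, 768), (3, 403)] 0) (.contra [(0, 48), (12, 1650000), (4, 4064), (3, 2159)] 0)))) (.mix 0 1 9 14 (.mix 0 0 9 1 (.cond 1 0 (.contra [(1, 24), (12, 1200000), (4, 3008), (3, 1589)] 0) (.contra [(0, 16), (12, 150000), (4, 416), (3, 213)] 0)))) (.mix 0 1 4 0 (.mix 0 0 4 3 (.cond 1 0 (.contra [(1, 24), (12, 300000), (4, 704), (3, 365)] 0) (.contra [(0, 8), (12, 300000), (4, 744), (3, 395)] 0)))) (.mix 0 0 9 11 (.cond 1 0 (.contra [(1, 48), (12,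 300000), (4, 800), (3, 407)] 0) (.contra [(0, 4), (12, 112500), (4, 280), (3, 147)] 0)))))))))))))))

def T199 : Tr := .up 35 (.mix 0 0 35 3 (.cond 1 0 (.contra [(1, 1), (8, 81), (6, 58)] 23) (.contra [(0, 1), (8, 57), (6, 26)] 6))) (.mix 0 2 35 0 (.mix 0 2 35 14 (.mix 0 2 35 2 (.mix 0 0 35 2 (.mix 0 1 30 14 (.mix 0 1 19 11 (.mix 0 0 8 14 (.cond 1 0 (.contra [(1, 1), (8, 6048), (6, 4144)] 1464) (.contra [(0, 4), (8, 8370), (5, 709)] 750))))))))) (.mix 0 0 31 2 (.cond 1 0 (.contra [(1, 1), (8, 93), (6, 64)] 9) (.contra [(0, 1), (8, 51), (6, 23)] 13))) (.mix 0 2 35 12 (.mix 0 0 35 12 (.mix 0 1 35 3 (.mix 0 1 35 0 (.mix 0 0 30 3 (.mix 5 1 36 0 (.mix 0 1 36 1 (.mix 0 1 36 13 (.mix 0 0 36 0 (.mix 0 2 15 14 (.cond 6 5 (.contra [(1, 1), (8, 624), (6, 592)] 152) (.up 10 (.mix 0 0 10 3 (.mix 0 1 10 0 (.mix 0 1 10 1 (.mix 0 0 10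 4 (.cond 1 0 (.contra [(1, 43), (10, 104280), (4, 856)] 2200) (.contra [(0, 1), (10, 1908), (8, 814)] 459)))))) (.mix 0 0 5 4 (.mix 0 1 5 12 (.mix 0 1 5 3 (.mix 0 1 5 0 (.mix 0 0 5 3 (.cond 1 0 (.cond 5 4 (.contra [(1, 1624), (12, 1071000), (6, 7400), (3, 213)] 0) (.contra [(0, 16), (3, 1)] 0)) (.contra [(0, 1), (10, 7014), (8, 4187)] 1722))))))) (.mix 0 1 10 14 (.mix 0 1 10 11 (.mix 0 0 10 14 (.mix 0 2 10 2 (.mix 0 0 10 2 (.cond 1 0 (.contra [(1, 1), (10, 384), (8, 872)] 1332) (.contra [(0, 43), (10, 137040), (4, 1523)] 11600))))))) (.mix 0 0 5 10 (.cond 1 0 (.contra [(0, 1), (10, 471), (8, 293)] 33) (.contra [(1, 1), (10, 237), (8, 196)] 101))) (.mix 0 0 10 11 (.mix 0 2 10 3 (.mix 0 0 10 10 (.cond 1 0 (.contra [(1, 113), (10, 31500), (2, 196)] 37500) (.contra [(0, 1), (10, 1392), (8, 886)] 491))))))))))))))))) (.mix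 0 0 35 11 (.mix 0 2 35 3 (.mix 0 0 35 10 (.mix 0 1 35 4 (.mix 0 0 30 11 (.mix 0 2 19 3 (.mix 0 0 8 10 (.mix 7 2 38 1 (.mix 0 0 38 4 (.mix 0 2 38 1 (.mix 0 0 38 4 (.mix 0 2 17 1 (T198)))))))))))))

def T200 : Tr := .dn 12 (.mix 0 2 12 6 (.mix 0 2 12 9 (.mix 0 0 12 6 (.mix 0 2 12 9 (.mix 0 2 12 17 (.mix 0 0 6 17 (.cond 1 0 (.dn 6 (.mix 0 2 6 6 (.mix 0 0 6 19 (.cond 1 0 (.contra [(0, 13), (10, 22650), (2, 157)] 84250) (.contra [(1, 13), (10, 4050), (2, 44)] 24750)))) (.mix 0 0 6 19 (.cond 1 0 (.contra [(0, 13), (10, 17025), (2, 119)] 66125) (.contra [(1, 13), (10, 18825), (2, 127)] 69000))) (.mix 0 1 6 18 (.mix 0 0 6 15 (.mix 0 2 6 18 (.mix 0 0 6 15 (.cond 1 0 (.contra [(1, 13), (10, 41400), (2, 236)] 123000) (.contra [(0, 13), (10, 160200), (2, 1063)] 589000)))))) (.mix 0 0 6 5 (.cond 1 0 (.contra [(0, 13), (10, 25275),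 (2, 173)] 94875) (.contra [(1, 13), (10, 2325), (2, 19)] 11500))) (.mix 0 2 6 17 (.mix 0 2 6 8 (.mix 0 2 6 16 (.mix 0 0 6 9 (.mix 0 2 6 17 (.mix 0 0 6 17 (.cond 1 0 (.contra [(1, 13), (10, 252000), (2, 1796)] 1020000) (.contra [(0, 13), (10, 336000), (2, 2503)] 1360000))))))))) (.contra [(1, 1), (8, 1344), (6, 1232)] 424)))))))) (.mix 0 2 7 9 (.mix 0 0 7 6 (.mix 0 2 7 9 (.mix 0 0 7 6 (.h2 29 31 (.mix 21 1 0 1 (.h0 1 false (.cond 2 0 (.contra [(0, 1), (8, 66), (6, 41)] 30) (.contra [(1, 1), (8, 120), (6, 76)] 8)) (.mix 1 0 0 4 (.cond 2 0 (.contra [(1, 1), (8, 144), (6, 152)] 112) (.contra [(0, 1), (8, 558), (6, 319)] 114))))) (.mix 21 0 0 3 (.mix 10 0 1 5 (.mix 3 2 0 9 (.h0 11 true (.mix 11 1 0 13 (.mix 11 1 1 15 (T199))) (.mix 11 2 0 0 (.mix 11 2 1 17 (.h0 2 true (.mix 1 0 0 17 (.cond 2 0 (.contra [(0, 1), (8, 2316),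 (6, 1318)] 351) (.contra [(1, 1), (8, 912), (6, 776)] 532))) (.mix 2 0 0 3 (.cond 3 0 (.contra [(0, 1), (8, 516), (6, 418)] 533) (.contra [(1, 1), (2, 4)] 0))))))))))))))) (.mix 0 1 12 18 (.mix 0 1 12 6 (.mix 0 1 12 5 (.mix 0 1 12 8 (.mix 0 0 12 5 (.mix 0 1 6 8 (.dn 6 (.mix 0 0 6 18 (.mix 0 2 6 7 (.mix 0 2 6 19 (.mix 0 0 6 16 (.cond 1 0 (.contra [(1, 1), (8, 1944), (6, 1552)] 864) (.contra [(0, 1), (8, 3252), (6, 1766)] 487)))))) (.mix 0 1 6 5 (.mix 0 0 6 18 (.mix 0 2 6 7 (.mix 0 2 6 19 (.mix 0 2 6 5 (.mix 0 0 6 18 (.cond 1 0 (.contra [(1, 1), (8, 2976), (6, 608)] 2256) (.contra [(0, 1), (8, 14028), (6, 8374)] 743)))))))) (.mix 0 2 6 19 (.mix 0 0 6 16 (.cond 1 0 (.contra [(0, 1), (8, 942), (6, 586)] 227) (.contra [(1, 43), (8, 18030), (2, 196)] 1506)))) (.mix 0 1 6 17 (.mix 0 1 6 9 (.mix 0 0 6 6 (.cond 1 0 (.contra [(1,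 1), (8, 1668), (6, 944)] 108) (.contra [(0, 1), (8, 1056), (6, 898)] 161))))) (.mix 0 0 6 6 (.mix 0 1 6 5 (.mix 0 0 6 18 (.mix 0 2 6 7 (.mix 0 0 6 7 (.cond 1 0 (.contra [(0, 1), (8, 3204), (6, 2282)] 1849) (.contra [(1, 1), (8, 7872), (6, 5176)] 732)))))))))))))) (.mix 0 0 12 5 (.cond 1 0 (.contra [(1, 1), (8, 57), (6, 26)] 7) (.contra [(0, 1), (8, 81), (6, 58)] 6))) (.mix 0 2 12 17 (.mix 0 0 12 17 (.cond 1 0 (.contra [(0, 4), (8, 270), (5, 23)] 34) (.contra [(1, 1), (8, 186), (6, 128)] 46))))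

def T201 : Tr := .dn 18 (.mix 0 1 18 8 (.mix 0 0 16 5 (.mix 0 1 16 8 (.mix 0 1 15 17 (.mix 0 1 5 9 (.mix 5 2 22 6 (.mix 0 2 22 9 (.dn 7 (.mix 0 2 2 6 (.mix 0 0 2 19 (.cond 1 0 (.contra [(1, 1), (6, 90), (4, 68)] 46) (.contra [(0, 1), (6, 180), (4, 121)] 12)))) (.mix 0 1 7 5 (.mix 0 1 7 8 (.mix 0 1 7 17 (.mix 0 1 7 9 (.mix 0 0 7 6 (.cond 1 0 (.contra [(0, 1), (6, 900), (4, 418)] 21) (.contra [(1, 1), (6, 1200), (4, 896)] 112))))))) (.mix 0 2 7 19 (.mix 0 2 7 5 (.mix 0 0 7 18 (.mix 3 1 5 18 (.mix 0 0 5 15 (.cond 1 0 (.contra [(0, 1), (6, 180), (4, 127)] 44) (.cond 3 2 (.contra [(1, 1), (3, 2)] 0) (.contra [(0, 8), (8, 14700), (5, 2125), (3, 273)] 0)))))))) (.mix 0 1 7 17 (.mix 0 0 7 17 (.mix 2 0 4 5 (.cond 3 0 (.contra [(1, 1), (6, 105), (4, 68)] 21) (.cond 2 1 (.contra [(1, 1), (8, 300), (6, 250), (2, 6)] 0) (.contra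 [(0, 7), (8, 75), (6, 375), (2, 19)] 0)))))) (.mix 0 0 7 6 (.cond 1 0 (.contra [(0, 1), (6, 45), (4, 26)] 22) (.contra [(1, 1), (6, 15), (4, 22)] 9))))))))))) (.mix 0 2 18 9 (.mix 0 2 16 17 (.mix 0 0 16 17 (.mix 0 1 15 9 (.mix 0 0 5 6 (.cond 1 0 (.contra [(0, 1), (6, 204), (4, 118)] 71) (.contra [(1, 1), (6, 114), (3, 13)] 14))))))) (.mix 0 0 18 7 (.mix 0 1 16 18 (.mix 0 1 16 6 (.mix 0 1 15 5 (.mix 0 0 5 18 (.cond 1 0 (.contra [(0, 1), (6, 276), (4, 154)] 33) (.contra [(1, 1), (6, 48), (4, 32)] 64))))))) (.mix 0 2 18 16 (.mix 0 0 16 9 (.mix 0 1 16 15 (.mix 0 0 15 8 (.mix 0 1 5 17 (.h0 6 false (.mix 1 0 0 17 (.cond 8 1 (.cond 2 0 (.contra [(1, 1), (8, 36), (6, 8), (5, 18)] 0) (.contra [(0, 15), (8, 1152), (6, 1792), (2, 77)] 0)) (.contra [(1, 1), (4, 16)] 8))) (.mix 1 1 0 9 (.h0 1 false (.cond 2 0 (.contra [(0, 1), (6,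 276), (4, 178)] 45) (.contra [(1, 1), (4, 32)] 16)) (.mix 1 0 0 6 (.cond 2 0 (.contra [(1, 1), (6, 60), (3, 38)] 4) (.contra [(0, 1), (6, 1236), (4, 818)] 301))))))))))) (.mix 0 1 18 15 (.mix 0 1 16 16 (.mix 0 1 16 19 (.mix 0 0 15 16 (.cond 1 0 (.contra [(1, 1), (6, 72), (4, 32)] 24) (.contra [(0, 1), (6, 156), (4, 106)] 17))))))

def T202 : Tr := .cond 7 6 (.contra [(0, 2), (4, 90), (2, 100), (1, 9)] 0) (.h0 10 false (.mix 5 2 0 14 (.dn 19 (.mix 0 1 19 8 (.mix 0 0 17 5 (.mix 0 1 17 8 (.mix 0 1 16 17 (.mix 0 0 6 17 (.cond 1 0 (.contra [(1, 1), (6, 240), (4, 176)] 72) (.contra [(0, 1), (6, 180), (4, 82)] 29))))))) (.mix 0 2 19 9 (.mix 0 2 17 17 (.mix 0 0 17 17 (.mix 0 1 16 9 (.mix 0 1 6 15 (.mix 5 0 23 19 (.mix 0 2 23 5 (.mix 0 2 21 6 (.cond 8 2 (T190) (.contra [(1, 1), (6, 9), (4, 8)] 1)))))))))) (.mix 0 1 18 18 (.mix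 0 1 18 6 (.mix 0 0 16 19 (.cond 1 0 (.contra [(0, 1), (6, 18), (4, 7)] 14) (.contra [(1, 1), (6, 84), (4, 56)] 12))))) (.mix 0 2 19 16 (.mix 0 0 17 9 (.mix 0 1 17 15 (.mix 0 0 16 8 (.mix 0 2 6 16 (.mix 5 0 23 5 (.mix 0 1 23 8 (.mix 0 0 21 5 (.mix 0 1 20 8 (.h2 11 22 (.mix 5 2 0 15 (.h0 1 false (.cond 2 0 (.contra [(1, 1), (6, 240), (4, 152)] 60) (.contra [(0, 4), (6, 282), (3, 41)] 6)) (.mix 1 0 0 8 (.cond 2 0 (.contra [(1, 1), (6, 60), (3, 38)] 4) (.contra [(0, 1), (6, 1116), (4, 638)] 91))))) (.mix 11 0 0 1 (.mix 6 0 1 9 (.cond 13 1 (.contra [(1, 1), (6, 624), (4, 392)] 52) (T200)))))))))))))) (.mix 0 1 19 15 (.mix 0 1 17 16 (.mix 0 1 17 19 (.mix 0 0 16 16 (.cond 1 0 (.contra [(1, 1), (6, 72), (4, 32)] 24) (.contra [(0, 1), (6, 156), (4, 106)] 17)))))))) (T201))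

def T203 : Tr := .up 8 (.mix 0 2 8 14 (.mix 0 0 6 1 (.mix 0 1 6 13 (.mix 0 0 5 0 (.mix 4 0 11 3 (.mix 0 1 11 0 (.mix 0 0 9 3 (.mix 0 1 8 0 (T202))))))))) (.mix 0 1 8 13 (.mix 0 1 6 2 (.mix 0 0 6 2 (.mix 0 2 5 13 (.mix 4 2 11 0 (.mix 0 2 11 14 (.mix 0 0 9 1 (.mix 0 1 8 13 (.cond 6 5 (.up 8 (.mix 0 0 4 3 (.mix 0 2 4 12 (.mix 0 0 4 12 (.cond 1 0 (.contra [(1, 1), (6, 960), (4, 500), (3, 21)] 0) (.contra [(0, 2), (6, 1440), (4, 750), (3, 19)] 0))))) (.mix 0 0 8 4 (.cond 1 0 (.contra [(1, 4), (6, 1200), (4, 600), (3, 23)] 0) (.contra [(0, 2), (6, 150), (4, 100), (3, 3)] 0))) (.mix 0 2 8 13 (.mix 0 0 8 0 (.mix 0 2 8 14 (.mix 0 0 8 1 (.cond 1 0 (.contra [(1, 1), (6, 1380), (4, 600), (3, 31)] 0) (.contra [(0, 4), (6, 4260), (4, 2200), (3, 117)] 0)))))) (.mix 0 2 4 12 (.mix 0 2 4 4 (.mix 0 2 4 1 (.mix 0 0 4 4 (.cond 1 0 (.contra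 [(0, 2), (6, 3360), (4, 1650), (3, 83)] 0) (.contra [(1, 1), (6, 960), (4, 400), (3, 18)] 0)))))) (.mix 0 1 8 12 (.mix 0 1 8 3 (.mix 0 1 8 0 (.mix 0 0 8 3 (.cond 1 0 (.contra [(1, 1), (6, 1680), (4, 800), (3, 42)] 0) (.contra [(0, 4), (6, 1860), (4, 600), (3, 29)] 0))))))) (.contra [(0, 1), (4, 48), (2, 38)] 3)))))))))) (.mix 0 0 8 2 (.mix 0 1 6 14 (.mix 0 1 6 11 (.mix 0 0 5 14 (.cond 4 3 (.contra [(0, 3), (4, 75), (2, 50), (1, 4)] 0) (.cond 1 0 (.contra [(1, 1), (3, 56)] 200) (.contra [(0, 1), (6, 15), (3, 7)] 0))))))) (.mix 0 1 8 0 (.mix 0 0 6 3 (.cond 1 0 (.contra [(1, 1), (4, 18), (2, 16)] 6) (.contra [(0, 1), (4, 6), (2, 2)] 7)))) (.mix 0 0 7 11 (.mix 0 2 7 3 (.mix 0 2 5 12 (.mix 0 0 4 12 (.cond 1 0 (.contra [(1, 1), (4, 120), (2, 88)] 8) (.contra [(0, 1), (4, 90), (2, 41)] 6))))))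

def T204 : Tr := .dn 14 (.mix 0 1 14 8 (.mix 0 0 12 5 (.mix 0 1 12 8 (.mix 0 1 11 17 (.mix 4 2 17 6 (.dn 5 (.mix 0 0 5 18 (.mix 0 1 5 6 (.mix 0 1 5 5 (.mix 0 0 5 18 (.cond 1 0 (.contra [(0, 4), (6, 4476), (4, 2088), (3, 131)] 0) (.contra [(1, 1), (6, 552), (4, 176), (3, 12)] 0)))))) (.mix 0 0 1 19 (.cond 1 0 (.contra [(0, 4), (6, 1056), (4, 508), (3, 21)] 0) (.contra [(1, 4), (6, 552), (4, 336), (3, 7)] 0))) (.mix 0 2 5 19 (.mix 0 2 5 5 (.mix 0 0 5 18 (.cond 1 0 (.contra [(1, 1), (6, 144), (4, 32), (3, 9)] 0) (.contra [(0, 4), (6, 4428), (4, 2184), (3, 83)] 0))))) (.mix 0 1 5 17 (.mix 0 0 5 17 (.cond 1 0 (.contra [(1, 2), (6, 1176), (4, 608), (3, 21)] 0) (.contra [(0, 4), (6, 564), (4, 312), (3, 19)] 0)))) (.mix 0 0 5 6 (.cond 1 0 (.contra [(0, 2), (6, 486), (4, 228), (3, 11)] 0) (.contra [(1, 4), (6, 384), (4, 232),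 (3, 9)] 0))))))))) (.mix 0 0 13 19 (.mix 0 2 13 5 (.mix 0 2 11 6 (.mix 0 0 10 19 (.cond 1 0 (.contra [(0, 2), (6, 672), (4, 378), (3, 11)] 0) (.contra [(1, 1), (6, 192), (4, 88), (3, 6)] 0)))))) (.mix 0 1 13 18 (.mix 0 1 13 6 (.mix 0 0 11 19 (.cond 1 0 (.contra [(0, 2), (6, 288), (4, 126), (3, 7)] 0) (.contra [(1, 1), (6, 192), (4, 104), (3, 3)] 0))))) (.mix 0 0 13 5 (.mix 0 1 13 8 (.mix 0 0 11 5 (.mix 0 2 10 6 (.mix 0 0 10 19 (.cond 1 0 (.contra [(1, 1), (6, 960), (4, 484), (3, 18)] 0) (.contra [(0, 2), (6, 480), (4, 246), (3, 17)] 0))))))) (.mix 0 1 14 15 (.mix 0 1 12 16 (.mix 0 1 12 19 (.mix 0 0 11 16 (.cond 1 0 (.contra [(1, 1), (6, 288), (4, 128), (3, 6)] 0) (.contra [(0, 4), (6, 1236), (4, 696), (3, 17)] 0))))))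

def T205 : Tr := .up 8 (.mix 0 2 8 14 (.mix 0 0 6 1 (.mix 0 1 6 13 (.mix 0 1 5 2 (.mix 0 1 5 14 (.h0 6 true (.cond 7 0 (.contra [(0, 1), (4, 132), (2, 86)] 15) (.contra [(1, 1), (2, 16)] 8)) (.mix 1 0 0 1 (.cond 2 0 (.contra [(0, 1), (4, 516), (2, 358)] 23) (.contra [(1, 1), (4, 288), (2, 224)] 144))))))))) (.mix 0 1 8 13 (.mix 0 1 6 2 (.mix 0 0 6 2 (.mix 0 1 5 14 (.mix 0 0 5 1 (.cond 1 0 (.contra [(0, 1), (4, 276), (2, 166)] 71) (.contra [(1, 1), (4, 192), (2, 152)] 12))))))) (.mix 0 0 8 2 (.mix 0 1 6 14 (.mix 0 1 6 11 (.mix 0 1 5 10 (.mix 0 0 5 13 (.mix 5 1 12 14 (.mix 0 1 12 11 (.mix 0 1 10 10 (.cond 8 7 (.contra [(0, 3), (4, 75), (2, 50), (1, 4)] 0) (.cond 4 3 (.contra [(1, 1), (3, 112)] 400) (.up 8 (.mix 0 1 3 1 (.mix 0 0 3 4 (.cond 1 0 (.contra [(1, 1), (6, 20), (5, 34)] 120) (.contra [(0, 2), (5, 100), (2, 1)]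 275)))) (.mix 0 1 8 13 (.mix 0 0 8 0 (.mix 0 1 8 1 (.mix 0 0 8 4 (.cond 1 0 (.contra [(1, 1), (6, 40), (5, 72)] 140) (.contra [(0, 1), (6, 70), (5, 116)] 495)))))) (.mix 0 0 8 2 (.cond 1 0 (.contra [(1, 1), (5, 31)] 100) (.contra [(0, 1), (5, 17)] 75))) (.mix 0 0 3 10 (.mix 0 2 3 11 (.mix 0 0 3 14 (.cond 1 0 (.contra [(1, 3), (5, 388), (2, 2)] 1350) (.contra [(0, 1), (6, 35), (5, 54)] 160))))) (.mix 0 2 8 1 (.mix 0 0 8 4 (.cond 1 0 (.contra [(1, 3), (5, 46), (2, 2)] 150) (.contra [(0, 3), (5, 158), (2, 1)] 450))))))))))))))) (.mix 0 1 8 0 (.mix 0 0 6 3 (.cond 1 0 (.contra [(1, 1), (4, 18), (2, 16)] 6) (.contra [(0, 1), (4, 6), (2, 2)] 7)))) (.mix 0 2 8 1 (.mix 0 2 6 0 (.mix 0 2 6 14 (.mix 0 0 5 1 (.mix 4 0 11 11 (.mix 0 2 11 3 (.mix 0 2 9 12 (.cond 4 3 (.contra [(1, 1), (4, 120), (2, 64)] 24) (.up 7 (.mix 0 0 7 3 (.mix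 1 2 4 14 (.mix 0 0 4 1 (.cond 1 0 (.contra [(0, 9), (6, 3600), (4, 2125), (1, 22)] 0) (.cond 3 2 (.contra [(1, 2), (3, 1)] 0) (.contra [(0, 17), (8, 375), (6, 450), (4, 2)] 0)))))) (.mix 0 2 7 0 (.mix 0 0 7 3 (.cond 1 0 (.contra [(1, 17), (6, 5070), (4, 3500), (2, 42)] 0) (.contra [(0, 17), (6, 2610), (4, 1500), (2, 1)] 0)))) (.mix 0 1 7 14 (.mix 0 0 7 1 (.cond 1 0 (.contra [(1, 17), (6, 5130), (4, 3300), (2, 26)] 0) (.contra [(0, 17), (6, 2490), (4, 1900), (2, 33)] 0)))) (.mix 0 2 7 12 (.mix 0 2 7 4 (.mix 0 0 7 11 (.cond 1 0 (.contra [(0, 17), (6, 8460), (4, 5800), (2, 39)] 0) (.contra [(1, 17), (6, 8580), (4, 5400), (2, 92)] 0))))) (.mix 0 2 3 1 (.mix 0 2 3 0 (.mix 0 0 3 3 (.cond 1 0 (.contra [(1, 17), (6, 660), (4, 1200), (2, 28)] 0) (.contra [(0, 17), (6, 4470), (4, 2525), (2, 66)] 0))))))))))))))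

def T206 : Tr := .dn 19 (.mix 0 2 18 6 (.mix 0 2 18 9 (.mix 0 0 6 6 (.cond 1 0 (.contra [(0, 8), (10, 1536), (4, 59), (2, 249)] 0) (.contra [(1, 8), (10, 768), (4, 27), (2, 97)] 0))))) (.mix 0 2 19 9 (.mix 0 2 17 17 (.mix 0 2 17 8 (.mix 0 0 17 5 (.cond 1 0 (.contra [(0, 32), (10, 14304), (4, 553), (2, 2283)] 0) (.contra [(1, 4), (10, 576), (4, 27), (2, 97)] 0)))))) (.mix 0 0 19 7 (.mix 0 1 17 18 (.mix 0 0 17 15 (.mix 0 1 17 16 (.mix 4 1 22 18 (.mix 0 1 22 6 (.mix 0 1 10 5 (.dn 7 (.mix 0 1 7 8 (.mix 0 1 7 17 (.mix 0 0 7 17 (.cond 1 0 (.contra [(1, 8), (10, 1728), (4, 83), (2, 393)] 0) (.contra [(0, 32), (10, 26016), (4, 951), (2, 4021)] 0))))) (.mix 0 1 3 5 (.mix 0 0 3 18 (.cond 1 0 (.contra [(1, 16), (10, 2688), (4, 83), (2, 393)] 0) (.contra [(0, 16), (10, 1536), (4, 51), (2, 121)] 0)))) (.mix 0 0 7 7 (.mix 0 2 7 19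 (.mix 0 2 7 5 (.mix 0 0 7 18 (.cond 1 0 (.contra [(0, 32), (10, 288), (4, 63), (2, 973)] 0) (.contra [(1, 1), (10, 2472), (4, 97), (2, 387)] 0)))))) (.mix 0 1 3 17 (.mix 0 1 3 9 (.mix 0 0 3 6 (.cond 1 0 (.contra [(1, 8), (10, 5376), (4, 231), (2, 901)] 0) (.contra [(0, 8), (10, 4608), (4, 173), (2, 783)] 0))))) (.mix 0 1 7 15 (.mix 0 0 7 8 (.cond 1 0 (.contra [(1, 16), (10, 6336), (4, 231), (2, 901)] 0) (.contra [(0, 32), (10, 2784), (4, 139), (2, 369)] 0)))))))))))) (.mix 0 2 19 16 (.mix 0 0 17 9 (.mix 0 2 17 17 (.mix 0 2 17 8 (.mix 0 0 10 5 (.cond 1 0 (.contra [(0, 32), (10, 10080), (4, 469), (2, 1839)] 0) (.contra [(1, 4), (10, 3360), (4, 129), (2, 499)] 0))))))) (.mix 0 2 18 17 (.mix 0 0 18 17 (.cond 1 0 (.contra [(1, 16), (10, 1152), (4, 41), (2, 171)] 0) (.contra [(0, 16), (10, 1536), (4, 63), (2, 253)] 0))))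

def T207 : Tr := .mix 0 2 49 1 (.mix 0 2 49 0 (.mix 0 2 49 14 (.mix 0 2 49 2 (.mix 0 2 49 13 (.mix 0 0 40 0 (.mix 0 1 27 1 (.mix 0 0 15 4 (.mix 0 2 9 1 (.h2 16 23 (.mix 16 0 0 4 (.cond 17 0 (.contra [(0, 4), (8, 39360), (6, 21100), (5, 441)] 0) (.contra [(1, 1), (8, 3840), (6, 1200), (5, 68)] 0))) (.mix 16 2 0 0 (.mix 16 2 0 12 (.mix 16 2 2 6 (.h2 16 23 (.mix 16 0 0 0 (.cond 17 0 (.contra [(0, 8), (8, 171720), (6, 84400), (5, 2121)] 0) (.contra [(1, 1), (2, 16)] 0))) (.mix 16 1 0 2 (.mix 16 2 0 11 (.mix 7 2 0 0 (.h0 3 true (.mix 3 0 0 2 (.mix 3 2 0 3 (.mix 3 0 0 3 (.cond 4 0 (.contra [(1, 1), (8, 541320), (6, 202800), (5, 6593)] 0) (.contra [(0, 8), (8, 8128680), (6, 4137200), (5, 98757)] 0))))) (.h0 8 true (.mix 8 2 0 14 (.mix 8 2 0 4 (.h2 2 11 (.mix 2 2 0 2 (.mix 2 0 0 11 (.cond 3 0 (.contra [(0, 4), (8, 797760), (6,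 438900), (5, 8239)] 0) (.contra [(1, 1), (8, 97920), (6, 57800), (5, 198)] 0)))) (.mix 2 0 0 1 (.mix 2 2 0 1 (.h0 6 true (.cond 7 0 (.contra [(1, 1), (8, 10200), (6, 4624), (5, 75)] 0) (.contra [(0, 8), (8, 146232), (6, 70224), (5, 1783)] 0)) (.h0 3 true (.mix 3 1 0 13 (.mix 3 0 0 4 (.cond 4 0 (.contra [(0, 4), (8, 2153280), (6, 1025700), (5, 23027)] 0) (.contra [(1, 1), (8, 195840), (6, 115600), (5, 396)] 0)))) (.h0 1 true (.cond 2 0 (.contra [(1, 1), (8, 20400), (6, 9248), (5, 150)] 0) (.contra [(0, 8), (8, 295512), (6, 164112), (5, 2459)] 0)) (.h0 1 true (.cond 2 0 (.contra [(0, 4), (8, 178752), (6, 86484), (5, 1783)] 0) (.contra [(1, 1), (8, 2688), (6, 392), (5, 150)] 0)) (.exc 27 0 1 ⟨7552, -6561, -2, 3333135612, -2895749844, -882717, -16665670508, 14478742659, 4413583⟩ ⟨-8206, 7046, -6623, -3621783737, 3109808468,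 -2923114108, 18108910479, -15549035294, 14615563917⟩ ⟨171, 0, -5792, 75472218, 0, -2556345334, -377360919, 0, 12781720878⟩ 1)))))))))) (.mix 6 0 0 19 (.cond 7 0 (.contra [(0, 4), (8, 80064), (6, 41372), (5, 957)] 0) (.contra [(1, 1), (8, 3312), (6, 1656), (2, 16)] 0)))))))))))))))))))))

def T208 : Tr := .h0 4 true (.mix 2 2 0 9 (.mix 2 0 0 9 (.cond 3 0 (.contra [(1, 1), (8, 7296), (6, 2888), (5, 78)] 0) (.contra [(0, 4), (8, 63552), (6, 34356), (5, 511)] 0)))) (.mix 4 2 0 4 (.mix 4 2 0 0 (.mix 4 0 2 19 (.h2 12 26 (.mix 12 1 0 1 (.mix 12 1 0 3 (.h0 6 true (.mix 6 2 0 1 (.mix 6 0 0 3 (.mix 6 2 2 5 (.h0 6 false (.mix 6 1 0 13 (.mix 6 0 0 10 (.up 49 (.mix 0 2 49 14 (.mix 0 0 49 1 (.mix 0 1 49 13 (.mix 0 0 49 0 (.mix 0 1 49 1 (.mix 0 0 40 4 (.cond 1 0 (.contra [(1, 2), (8, 92760), (6, 48400), (5, 819)] 0) (.contra [(0, 8),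 (8, 95880), (6, 49200), (5, 1697)] 0)))))))) (.mix 0 1 49 13 (.mix 0 1 49 2 (.mix 0 0 49 2 (.cond 1 0 (.contra [(1, 2), (8, 5280), (6, 3200), (5, 27)] 0) (.contra [(0, 8), (8, 41160), (6, 20400), (5, 469)] 0))))) (.mix 0 0 49 2 (.mix 0 1 49 14 (.mix 0 1 49 11 (.mix 0 0 49 14 (.cond 1 0 (.contra [(1, 1), (8, 10680), (6, 5200), (5, 102)] 0) (.contra [(0, 8), (8, 40680), (6, 25200), (5, 277)] 0)))))) (.mix 0 1 49 0 (.mix 0 0 49 3 (.mix 0 1 49 0 (.mix 0 1 49 1 (.mix 0 0 49 4 (.cond 1 0 (.contra [(0, 8), (8, 160440), (6, 75600), (5, 1751)] 0) (.contra [(1, 1), (8, 7560), (6, 4400), (5, 99)] 0))))))) (T207)))) (.mix 6 0 0 4 (.cond 7 0 (.contra [(0, 8), (8, 111720), (6, 57200), (5, 957)] 0) (.contra [(1, 1), (2, 8)] 0))))))) (.mix 6 0 0 11 (.cond 7 0 (.contra [(0, 4), (8, 27840), (6, 14300), (5, 237)] 0) (.contra [(1, 1), (8,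 1920), (6, 600), (5, 34)] 0)))))) (.mix 10 0 0 19 (.cond 11 0 (.contra [(0, 8), (8, 53832), (6, 28336), (5, 441)] 0) (.contra [(1, 1), (8, 2448), (6, 864), (5, 34)] 0)))))))

def T209 : Tr := .mix 19 2 0 0 (.mix 2 2 0 0 (.mix 12 2 2 8 (.h0 25 true (.mix 25 2 0 14 (.mix 9 0 0 13 (.cond 10 0 (.contra [(0, 8), (6, 50040), (4, 27600), (3, 511)] 0) (.contra [(1, 1), (6, 1560), (4, 400), (3, 39)] 0)))) (.mix 25 0 0 3 (.mix 9 1 0 4 (.mix 19 1 2 18 (.cond 28 2 (.contra [(1, 2), (6, 3960), (4, 2000), (3, 39)] 0) (.h0 7 true (.cond 8 0 (.contra [(0, 4), (8, 576), (6, 276), (5, 7)] 0) (.contra [(1, 1), (6, 8)] 0)) (.mix 7 0 0 3 (.mix 7 2 0 14 (.mix 7 0 2 5 (.dn 29 (.mix 0 2 24 6 (.mix 0 0 24 19 (.cond 1 0 (.contra [(1, 4), (8, 2016), (6, 1008), (5, 23)] 0) (.contra [(0, 2), (8, 576), (6, 338), (5, 3)] 0)))) (.mix 0 0 24 19 (.cond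 1 0 (.contra [(0, 8), (8, 2112), (6, 1016), (5, 21)] 0) (.contra [(1, 8), (8, 1104), (6, 672), (5, 7)] 0))) (.mix 0 1 24 18 (.mix 0 0 24 15 (.mix 0 1 24 16 (.mix 0 0 12 9 (.mix 0 1 5 15 (.h0 13 true (.mix 13 1 0 0 (.mix 13 1 0 12 (.mix 13 1 2 6 (.h0 13 true (.cond 14 0 (.contra [(0, 4), (8, 1344), (6, 708), (5, 11)] 0) (.contra [(1, 1), (6, 16)] 0)) (.mix 13 2 0 12 (.mix 13 0 0 1 (.mix 13 2 2 6 (.mix 8 1 0 16 (T208))))))))) (.mix 13 2 0 12 (.mix 13 0 0 11 (.cond 14 0 (.contra [(0, 8), (8, 141720), (6, 70800), (5, 1283)] 0) (.contra [(1, 1), (8, 3120), (6, 800), (5, 78)] 0)))))))))) (.mix 0 1 29 17 (.mix 0 0 29 17 (.cond 1 0 (.contra [(1, 4), (8, 2352), (6, 1216), (5, 21)] 0) (.contra [(0, 8), (8, 1128), (6, 624), (5, 19)] 0)))) (.mix 0 0 29 6 (.cond 1 0 (.contra [(0, 4), (8, 972), (6, 456), (5, 11)] 0) (.contra [(1, 8),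 (8, 768), (6, 464), (5, 9)] 0)))))))))))))))

def T210 : Tr := .dn 17 (.mix 0 1 17 8 (.mix 0 0 15 5 (.mix 0 2 15 6 (.mix 0 0 15 19 (.mix 0 1 8 7 (.mix 5 2 21 6 (.mix 0 2 21 9 (.mix 0 2 9 17 (.up 19 (.mix 0 0 15 3 (.mix 0 2 15 12 (.mix 0 0 12 12 (.cond 1 0 (.contra [(1, 2), (6, 1920), (4, 1000), (3, 21)] 0) (.contra [(0, 4), (6, 2880), (4, 1500), (3, 19)] 0))))) (.mix 0 0 19 4 (.cond 1 0 (.contra [(1, 8), (6, 2400), (4, 1200), (3, 23)] 0) (.contra [(0, 4), (6, 300), (4, 200), (3, 3)] 0))) (.mix 0 1 15 14 (.mix 0 0 15 1 (.cond 1 0 (.contra [(1, 4), (6, 1440), (4, 800), (3, 9)] 0) (.contra [(0, 2), (6, 960), (4, 450), (3, 11)] 0)))) (.mix 0 0 19 10 (.mix 0 2 19 11 (.mix 0 0 19 14 (.mix 0 1 19 11 (.mix 0 1 16 10 (.mix 5 2 20 12 (.mix 0 2 20 4 (.mix 0 2 17 1 (.h0 19 true (.mix 19 1 0 13 (.mix 2 0 0 4 (.cond 3 0 (.contra [(0,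 4), (6, 6720), (4, 3300), (3, 83)] 0) (.contra [(1, 1), (6, 960), (4, 400), (3, 9)] 0)))) (T209)))))))))) (.mix 0 1 19 12 (.mix 0 1 19 3 (.mix 0 0 19 10 (.mix 0 1 19 4 (.mix 0 0 16 11 (.cond 1 0 (.contra [(0, 8), (6, 7080), (4, 2800), (3, 21)] 0) (.contra [(1, 2), (6, 6360), (4, 3600), (3, 47)] 0)))))))))))))))) (.mix 0 2 17 9 (.mix 0 2 15 17 (.mix 0 2 15 8 (.mix 0 0 15 5 (.cond 1 0 (.contra [(0, 8), (6, 3576), (4, 1744), (3, 39)] 0) (.contra [(1, 1), (6, 144), (4, 96), (3, 1)] 0)))))) (.mix 0 1 16 18 (.mix 0 1 16 6 (.mix 0 0 4 19 (.cond 1 0 (.contra [(0, 4), (6, 576), (4, 252), (3, 7)] 0) (.contra [(1, 2), (6, 384), (4, 208), (3, 3)] 0))))) (.mix 0 2 17 16 (.mix 0 0 15 9 (.mix 0 2 15 17 (.mix 0 2 15 8 (.mix 0 0 8 5 (.cond 1 0 (.contra [(0, 8), (6, 2520), (4, 1552), (3, 27)] 0) (.contra [(1, 1), (6, 840), (4, 432), (3,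 7)] 0))))))) (.mix 0 2 16 17 (.mix 0 0 16 17 (.cond 1 0 (.contra [(1, 4), (6, 288), (4, 128), (3, 3)] 0) (.contra [(0, 1), (6, 96), (4, 51), (3, 1)] 0))))

def T211 : Tr := .up 6 (.mix 0 2 6 14 (.mix 0 0 4 1 (.mix 0 2 4 0 (.mix 0 0 4 3 (.cond 1 0 (.contra [(0, 1), (4, 144), (2, 82)] 17) (.contra [(1, 1), (4, 72), (2, 56)] 36)))))) (.mix 0 1 6 13 (.mix 0 1 4 2 (.mix 0 1 4 14 (.mix 0 0 4 1 (.mix 4 2 9 0 (.mix 0 2 9 14 (.cond 3 2 (.h0 7 true (.cond 8 0 (.contra [(1, 1), (6, 48), (4, 32)] 0) (.contra [(0, 8), (6, 984), (4, 528), (3, 11)] 0)) (.mix 3 2 0 0 (.h2 12 13 (.mix 3 2 0 2 (.h0 1 false (.mix 1 0 0 2 (.cond 2 0 (.cond 3 1 (T206) (.contra [(1, 25), (5, 3), (2, 4)] 0)) (.contra [(1, 1), (3, 1)] 0))) (.dn 18 (.mix 0 2 17 6 (.mix 0 2 17 9 (.mix 0 0 5 6 (.cond 1 0 (.contra [(0, 4), (6, 768), (4, 364), (3, 9)] 0) (.contra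 [(1, 2), (6, 192), (4, 96), (3, 1)] 0))))) (.mix 0 2 18 9 (.mix 0 2 16 17 (.mix 0 2 16 8 (.mix 0 0 16 5 (.cond 1 0 (.contra [(0, 8), (6, 3576), (4, 1744), (3, 39)] 0) (.contra [(1, 1), (6, 144), (4, 96), (3, 1)] 0)))))) (.mix 0 1 17 18 (.mix 0 1 17 6 (.mix 0 1 5 5 (.mix 0 0 4 18 (.cond 1 0 (.contra [(0, 4), (6, 768), (4, 396), (3, 11)] 0) (.contra [(1, 1), (6, 384), (4, 208), (3, 3)] 0)))))) (.mix 0 2 18 16 (.mix 0 0 16 9 (.mix 0 2 16 17 (.mix 0 2 16 8 (.mix 0 0 9 5 (.cond 1 0 (.contra [(0, 8), (6, 2520), (4, 1552), (3, 27)] 0) (.contra [(1, 1), (6, 840), (4, 432), (3, 7)] 0))))))) (.mix 0 2 17 17 (.mix 0 0 17 17 (.cond 1 0 (.contra [(1, 4), (6, 288), (4, 128), (3, 3)] 0) (.contra [(0, 1), (6, 96), (4, 51), (3, 1)] 0))))))) (.mix 3 0 0 1 (T210))))) (.contra [(0, 1), (4, 144), (2, 94)] 39)))))))) (.mix 0 0 6 2 (.mix 0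 1 4 14 (.mix 0 0 4 1 (.mix 3 1 8 14 (.mix 0 1 8 11 (.cond 3 2 (.contra [(1, 1), (4, 84), (2, 56)] 16) (.up 5 (.mix 0 1 2 1 (.mix 0 0 2 4 (.cond 1 0 (.contra [(1, 1), (6, 630), (2, 44)] 150) (.contra [(0, 2), (6, 1380), (2, 89)] 275)))) (.mix 0 0 2 4 (.cond 1 0 (.contra [(1, 1), (6, 345), (2, 22)] 75) (.contra [(0, 2), (6, 630), (2, 43)] 175))) (.mix 0 0 5 2 (.cond 1 0 (.contra [(1, 1), (6, 465), (2, 31)] 100) (.contra [(0, 1), (6, 255), (2, 17)] 75))) (.mix 0 0 2 10 (.cond 1 0 (.contra [(1, 1), (6, 45), (2, 4)] 25) (.contra [(0, 2), (6, 930), (2, 61)] 225))) (.mix 0 2 5 1 (.mix 0 0 5 4 (.cond 1 0 (.contra [(1, 1), (6, 150), (2, 8)] 50) (.contra [(0, 1), (6, 750), (2, 49)] 150))))))))))) (.mix 0 1 6 0 (.mix 0 0 4 3 (.cond 1 0 (.contra [(1, 1), (4, 18), (2, 16)] 6) (.contra [(0, 1), (4, 6), (2, 2)] 7)))) (.mix 0 2 6 1 (.mix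 0 2 4 0 (.mix 0 0 4 3 (.cond 1 0 (.contra [(1, 1), (4, 60), (2, 32)] 12) (.contra [(0, 1), (4, 60), (2, 46)] 11)))))

def T212 : Tr := .h0 0 true (.h2 2 3 (T189) (.h2 1 2 (.h0 1 true (T203) (.h0 0 true (.cond 1 0 (.contra [(0, 1), (4, 18), (2, 13)] 14) (.contra [(1, 1), (2, 8)] 0)) (.h0 0 true (.cond 1 0 (.contra [(0, 1), (4, 138), (2, 89)] 22) (.contra [(1, 1), (2, 16)] 0)) (.up 10 (.mix 0 0 9 3 (.mix 0 1 9 0 (.mix 0 0 7 3 (.mix 0 2 6 12 (.mix 0 2 6 4 (.mix 0 0 6 11 (.cond 1 0 (.contra [(1, 1), (4, 144), (2, 152)] 112) (.contra [(0, 1), (4, 618), (2, 409)] 54)))))))) (.mix 0 1 10 13 (.mix 0 1 8 2 (.mix 0 0 8 2 (.cond 1 0 (T204) (.contra [(0, 1), (4, 48), (2, 38)] 3))))) (.mix 0 0 10 2 (.mix 0 1 8 14 (.mix 0 1 8 11 (.mix 0 0 7 14 (.cond 4 3 (.contra [(0, 3), (4, 75), (2, 50), (1, 4)] 0) (.cond 1 0 (.contra [(1, 1), (3,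 56)] 200) (.contra [(0, 1), (6, 15), (3, 7)] 0))))))) (.mix 0 1 10 0 (.mix 0 0 8 3 (.cond 1 0 (.contra [(1, 1), (4, 18), (2, 16)] 6) (.contra [(0, 1), (4, 6), (2, 2)] 7)))) (.mix 0 0 9 11 (.mix 0 2 9 3 (.mix 0 2 7 12 (.mix 0 2 6 4 (.mix 0 0 6 11 (.cond 1 0 (.contra [(1, 1), (4, 240), (2, 176)] 16) (.contra [(0, 1), (4, 210), (2, 133)] 78))))))))))) (.h0 0 true (.cond 1 0 (.contra [(0, 1), (4, 36), (2, 22)] 15) (.contra [(1, 1), (2, 8)] 4)) (T205)))) (.h0 0 true (.cond 1 0 (.contra [(1, 1), (4, 24), (2, 16)] 0) (.contra [(0, 1), (4, 24), (2, 14)] 7)) (T211))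

def T213 : Tr := .dn 8 (.mix 0 2 8 6 (.mix 0 0 8 19 (.cond 1 0 (.contra [(1, 1), (5, 94), (2, 6)] 414) (.contra [(0, 1), (5, 118), (2, 7)] 458)))) (.mix 0 0 8 19 (.cond 1 0 (.contra [(0, 1), (5, 59), (2, 6)] 269) (.contra [(1, 1), (5, 53), (2, 2)] 198))) (.mix 0 1 8 18 (.mix 0 0 8 15 (.cond 1 0 (.contra [(0, 1), (5, 146), (2, 9)] 606) (.contra [(1, 1), (5, 38), (2, 2)] 118)))) (.mix 0 2 3 16 (.mix 0 0 3 9 (.cond 1 0 (.contra [(1, 1), (5, 158), (2, 12)] 668) (.up 20 (.mix 0 2 20 14 (.mix 0 0 20 1 (.cond 1 0 (.contra [(0, 33), (7, 3154), (4, 1035), (2, 580)] 0) (.contra [(1, 1), (7, 86), (4, 40), (2, 20)] 0)))) (.mix 0 1 20 13 (.mix 0 1 20 2 (.mix 0 1 20 14 (.mix 3 0 19 4 (.mix 0 2 19 1 (.mix 0 2 19 0 (.up 6 (.mix 0 1 6 1 (.mix 0 0 6 4 (.cond 1 0 (.contra [(0, 33), (7, 22282), (4, 8145), (2, 4660)] 0) (.contra [(1, 11),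 (7, 502), (4, 720), (2, 260)] 0)))) (.mix 0 0 6 4 (.cond 1 0 (.contra [(1, 11), (7, 1839), (4, 740), (2, 420)] 0) (.contra [(0, 3), (7, 1091), (4, 435), (2, 230)] 0))) (.mix 0 2 6 13 (.mix 0 0 6 0 (.cond 1 0 (.contra [(1, 33), (7, 16922), (4, 5220), (2, 3260)] 0) (.contra [(0, 11), (7, 4858), (4, 2205), (2, 1140)] 0)))) (.mix 0 0 6 10 (.mix 0 2 6 11 (.mix 0 0 6 14 (.cond 1 0 (.contra [(0, 33), (7, 24844), (4, 6015), (2, 4120)] 0) (.contra [(1, 11), (7, 3716), (4, 1460), (2, 680)] 0))))) (.mix 0 2 3 1 (.mix 0 2 3 0 (.mix 0 0 3 3 (.cond 1 0 (.contra [(0, 11), (7, 15814), (4, 6440), (2, 3395)] 0) (.contra [(1, 33), (7, 26564), (4, 7440), (2, 4520)] 0)))))))))))) (.mix 0 0 20 2 (.cond 1 0 (.contra [(1, 33), (7, 1223), (4, 300), (2, 200)] 0) (.contra [(0, 11), (7, 237), (4, 75), (2, 50)] 0))) (.mix 0 1 20 0 (.mix 0 0 20 3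 (.cond 1 0 (.contra [(0, 11), (7, 126), (4, 145), (2, 60)] 0) (.contra [(1, 33), (7, 4226), (4, 1620), (2, 860)] 0)))) (.mix 0 2 20 1 (.mix 0 2 20 0 (.mix 0 0 20 3 (.cond 1 0 (.contra [(1, 33), (7, 9908), (4, 3840), (2, 2120)] 0) (.contra [(0, 11), (7, 1292), (4, 585), (2, 280)] 0))))))))) (.mix 0 2 8 17 (.mix 0 2 8 8 (.mix 0 0 8 5 (.mix 0 2 8 6 (.mix 0 2 8 9 (.mix 5 1 8 15 (.mix 0 1 8 16 (.mix 0 1 8 19 (.dn 8 (.mix 0 2 8 6 (.mix 0 0 8 19 (.mix 0 2 8 5 (.mix 0 2 8 6 (.mix 0 0 8 19 (.cond 1 0 (.contra [(1, 1), (5, 3824), (2, 456)] 17424) (.contra [(0, 1), (5, 4128), (2, 157)] 15328))))))) (.mix 0 0 8 19 (.cond 1 0 (.contra [(1, 1), (5, 353), (2, 32)] 1528) (.contra [(0, 1), (5, 91), (2, 4)] 441))) (.mix 0 1 8 18 (.mix 0 0 8 15 (.mix 0 2 8 18 (.mix 0 0 8 15 (.cond 1 0 (.contra [(0, 1), (5, 1992), (2, 73)] 7992) (.contra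 [(1, 1), (5, 2024), (2, 156)] 8024)))))) (.mix 0 1 3 17 (.mix 0 1 3 9 (.mix 0 0 3 6 (.cond 1 0 (.contra [(0, 2), (5, 1754), (2, 201)] 8429) (.contra [(1, 1), (5, 556), (2, 64)] 2256))))) (.mix 0 2 8 17 (.mix 0 2 8 8 (.mix 0 2 8 16 (.mix 0 0 8 9 (.cond 1 0 (.contra [(1, 1), (5, 2808), (2, 152)] 11208) (.contra [(0, 1), (5, 424), (2, 81)] 1624)))))))))))))))

def T214 : Tr := .up 7 (.mix 0 2 7 14 (.mix 0 2 7 2 (.mix 0 2 7 13 (.mix 0 0 7 0 (.cond 1 0 (.contra [(1, 1), (7, 50), (4, 112)] 3200) (.contra [(0, 3), (7, 100), (4, 37)] 3200)))))) (.mix 0 1 7 13 (.mix 0 0 7 0 (.cond 1 0 (.dn 16 (.mix 0 2 16 6 (.mix 0 0 16 19 (.cond 1 0 (.contra [(1, 25), (9, 1110), (6, 216), (3, 97)] 0) (.contra [(0, 50), (9, 1965), (6, 454), (3, 168)] 0)))) (.mix 0 0 16 19 (.cond 1 0 (.contra [(0, 100), (9, 1565), (6, 284), (3, 128)] 0) (.contra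 [(1, 200), (9, 4585), (6, 1056), (3, 402)] 0))) (.mix 0 1 16 18 (.mix 0 0 16 15 (.cond 1 0 (.contra [(0, 50), (9, 2955), (6, 618), (3, 256)] 0) (.contra [(1, 25), (9, 120), (6, 52), (3, 9)] 0)))) (.mix 0 0 16 5 (.cond 1 0 (.contra [(1, 200), (9, 5255), (6, 1088), (3, 446)] 0) (.contra [(0, 100), (9, 895), (6, 252), (3, 84)] 0))) (.mix 0 1 14 15 (.mix 0 1 14 16 (.mix 0 1 14 19 (.h0 32 true (.mix 22 2 0 3 (.mix 9 0 0 3 (.cond 10 0 (.contra [(0, 16), (9, 2205), (6, 480), (3, 182)] 0) (.contra [(1, 4), (9, 735), (6, 160), (3, 66)] 0)))) (.mix 16 1 0 7 (.mix 2 0 0 16 (.cond 3 0 (.contra [(0, 400), (9, 13065), (6, 4704), (3, 1118)] 0) (.contra [(1, 25), (9, 3770), (6, 832), (3, 344)] 0))))))))) (.contra [(0, 6), (4, 91), (2, 50)] 1575)))) (.mix 0 1 3 14 (.mix 0 1 3 11 (.mix 0 0 3 14 (.cond 1 0 (.contra [(1, 3), (7, 85), (4,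 124)] 2900) (.contra [(0, 4), (7, 115), (4, 146)] 5350))))) (.mix 0 1 7 0 (.mix 0 1 7 1 (.mix 0 0 7 4 (.cond 1 0 (.contra [(1, 1), (7, 15), (4, 32)] 1200) (.contra [(0, 3), (7, 85), (4, 13)] 800))))) (.mix 0 2 7 1 (.mix 0 0 7 4 (.mix 2 0 5 11 (.mix 0 2 5 3 (.mix 0 0 5 10 (.cond 1 0 (.contra [(1, 1), (7, 40), (4, 54)] 1650) (.cond 4 3 (.contra [(0, 14), (9, 475), (6, 850), (2, 64)] 0) (.contra [(1, 2), (9, 75), (6, 200), (2, 16)] 0))))))))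

def T215 : Tr := .dn 15 (.mix 0 1 15 8 (.mix 0 1 12 17 (.mix 0 0 12 17 (.mix 3 2 17 6 (.mix 0 0 17 19 (.cond 3 2 (.cond 1 0 (.contra [(0, 4), (7, 15), (2, 22)] 270) (.contra [(1, 2), (7, 25), (2, 32)] 400)) (.contra [(1, 15), (5, 23), (2, 32)] 880))))))) (.mix 0 2 15 9 (.mix 0 0 12 6 (.cond 1 0 (.contra [(1, 2), (5, 1)] 8) (.contra [(0, 2), (5, 1), (2, 2)] 64)))) (.mix 0 0 15 7 (.mix 0 2 12 19 (.mix 0 2 12 5 (.mix 0 0 12 18 (.cond 1 0 (.contra [(0, 5), (5, 12), (2, 23)] 640) (.contra [(1, 15), (5, 2), (2, 8)] 640)))))) (.mix 0 2 15 16 (.mix 0 2 12 15 (.mix 2 0 16 5 (.mix 0 2 16 6 (.mix 0 0 16 19 (.cond 5 2 (.up 13 (.mix 0 0 9 3 (.cond 1 0 (.contra [(1, 12), (7, 17), (4, 32)] 1000) (.contra [(0, 6), (7, 7), (4, 7)] 125))) (.mix 0 0 13 4 (.mix 0 1 13 12 (.mix 0 1 13 3 (.mix 0 1 13 0 (.mix 4 2 13 0 (.mix 0 0 13 3 (.mix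 0 1 13 0 (T214)))))))) (.mix 0 2 13 13 (.mix 0 0 13 0 (.cond 1 0 (.contra [(1, 2), (7, 1), (4, 8)] 200) (.contra [(0, 6), (7, 19), (4, 22)] 800)))) (.mix 0 0 13 10 (.cond 1 0 (.contra [(1, 12), (7, 23), (4, 20)] 700) (.contra [(0, 12), (7, 11), (4, 20)] 400))) (.mix 0 1 13 12 (.mix 0 1 13 3 (.mix 0 0 13 10 (.mix 3 0 12 11 (.cond 2 1 (.contra [(0, 3), (7, 13), (4, 31)] 800) (.cond 4 0 (.contra [(1, 4), (3, 1)] 0) (.contra [(0, 2), (6, 35), (3, 11)] 1625)))))))) (.contra [(1, 60), (5, 17), (2, 8)] 160))))))) (.mix 0 2 14 17 (.mix 0 2 14 8 (.mix 0 0 14 5 (.cond 1 0 (.contra [(1, 5), (5, 7), (2, 8)] 280) (.contra [(0, 20), (5, 11), (2, 34)] 790)))))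

def T216 : Tr := .up 9 (.mix 0 1 9 1 (.mix 0 0 9 4 (.mix 0 1 9 12 (.mix 0 0 9 12 (.mix 4 0 9 3 (.mix 0 2 9 12 (.mix 0 0 9 12 (.cond 1 0 (.up 7 (.mix 0 2 3 14 (.mix 0 0 3 1 (.cond 1 0 (.contra [(1, 8), (6, 1005), (5, 4000), (2, 207)] 0) (.contra [(0, 8), (6, 2135), (5, 8000), (2, 469)] 0)))) (.mix 0 0 7 4 (.mix 1 1 4 13 (.mix 0 1 4 2 (.mix 0 0 4 2 (.cond 1 0 (.contra [(0, 3), (2, 25), (1, 4)] 0) (.cond 4 3 (.contra [(1, 4), (3, 1)] 0) (.contra [(0, 56), (8, 16600), (7, 17500), (3, 617)] 0))))))) (.mix 0 0 3 2 (.cond 1 0 (.contra [(1, 1), (6, 95), (5, 375), (2, 21)] 0) (.contra [(0, 16), (6, 2235), (5, 8000), (2, 473)] 0))) (.mix 0 1 3 0 (.mix 0 0 3 3 (.cond 1 0 (.contra [(0, 8), (6, 2085), (5, 8000), (2, 447)] 0) (.contra [(1, 8), (6, 1105), (5, 4000), (2, 251)] 0)))) (.mix 0 1 7 12 (.mix 0 0 7 12 (.mix 0 1 7 3 (.mix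 0 1 7 0 (.h0 23 false (.cond 24 0 (.contra [(0, 160), (6, 2091), (5, 7280), (2, 441)] 0) (.contra [(1, 40), (6, 697), (5, 2640), (2, 147)] 0)) (.mix 19 1 0 1 (.mix 10 1 0 3 (.mix 3 1 0 1 (.h0 3 false (.cond 4 0 (.contra [(0, 160), (6, 2571), (5, 9840), (2, 601)] 0) (.contra [(1, 20), (6, 697), (5, 2640), (2, 147)] 0)) (.mix 3 0 0 4 (.mix 3 1 0 0 (.mix 3 0 0 4 (.cond 4 0 (.contra [(1, 2), (6, 6945), (5, 26000), (2, 1547)] 0) (.contra [(0, 32), (6, 98615), (5, 382000), (2, 20669)] 0))))))))))))))) (.contra [(1, 1), (5, 3), (4, 4)] 0))))))))) (.mix 0 2 5 0 (.mix 0 0 5 3 (.mix 0 1 5 0 (.h0 17 true (.mix 7 2 0 3 (.mix 2 0 0 3 (.cond 3 0 (.contra [(0, 1), (5, 85), (4, 33), (3, 400)] 0) (.contra [(1, 1), (5, 190), (4, 76), (3, 800)] 0)))) (.mix 7 1 0 10 (.mix 2 1 0 1 (.h0 2 true (.mix 2 1 0 4 (.mix 2 0 0 4 (.cond 3 0 (.contra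 [(0, 1), (5, 265), (4, 129), (3, 1200)] 0) (.contra [(1, 1), (5, 380), (4, 152), (3, 1600)] 0)))) (.mix 2 0 0 13 (.cond 3 0 (.contra [(1, 1), (4, 4)] 0) (.contra [(0, 1), (5, 91), (4, 39), (3, 400)] 0)))))))))) (.mix 0 2 9 13 (.mix 0 0 9 0 (.cond 1 0 (.contra [(1, 2), (5, 49), (4, 16), (3, 200)] 0) (.contra [(0, 8), (5, 433), (4, 192), (3, 1900)] 0)))) (.mix 0 0 9 10 (.cond 1 0 (.contra [(1, 4), (5, 89), (4, 40), (3, 400)] 0) (.contra [(0, 8), (5, 21), (3, 100)] 0))) (.mix 0 1 9 12 (.mix 0 1 9 3 (.mix 0 0 9 10 (.cond 1 0 (.contra [(0, 8), (5, 537), (4, 192), (3, 2300)] 0) (.contra [(1, 1), (5, 72), (4, 32), (3, 300)] 0)))))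

def T217 : Tr := .dn 15 (.mix 0 2 15 6 (.mix 0 0 15 19 (.cond 1 0 (.contra [(1, 5), (8, 47), (6, 34)] 505) (.contra [(0, 5), (8, 59), (6, 48)] 360)))) (.mix 0 0 15 19 (.cond 1 0 (.contra [(0, 30), (8, 173), (4, 1)] 1280) (.contra [(1, 10), (8, 53), (6, 66)] 395))) (.mix 0 1 15 18 (.mix 0 0 15 15 (.mix 0 1 15 16 (.mix 0 0 15 9 (.mix 4 0 15 7 (.mix 0 1 15 18 (.mix 0 1 15 6 (.cond 6 5 (.contra [(0, 5), (8, 73), (6, 56)] 620) (.dn 7 (.mix 0 0 7 18 (.mix 0 1 7 6 (.mix 0 1 7 5 (.mix 0 1 7 8 (.h0 37 false (.cond 38 0 (.contra [(0, 15), (10, 247), (8, 264), (3, 65)] 0) (.contra [(1, 5), (10, 252), (8, 224), (3, 60)] 0)) (.mix 25 2 0 19 (.mix 10 2 0 17 (.mix 3 0 0 5 (.cond 4 0 (.contra [(1, 3), (10, 1840), (8, 2880), (3, 584)] 0) (.contra [(0, 1), (10, 6085), (8, 5720), (3, 1451)] 0)))))))))) (.mix 0 1 7 5 (.mix 0 1 7 8 (.mix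 0 1 7 17 (.mix 0 0 7 17 (.cond 1 0 (.contra [(0, 3), (10, 9095), (8, 8040), (3, 2173)] 0) (.contra [(1, 1), (10, 1680), (8, 1760), (3, 412)] 0)))))) (.mix 0 0 3 7 (.cond 1 0 (.contra [(1, 6), (10, 800), (8, 600), (3, 193)] 0) (.contra [(0, 1), (10, 100), (8, 75), (3, 21)] 0))) (.mix 0 2 3 16 (.mix 0 2 3 15 (.mix 0 0 3 8 (.cond 1 0 (.contra [(1, 3), (10, 4120), (8, 3840), (3, 974)] 0) (.contra [(0, 2), (10, 1060), (8, 1170), (3, 277)] 0))))) (.mix 0 0 7 6 (.mix 0 2 7 9 (.mix 0 0 7 6 (.cond 1 0 (.contra [(0, 3), (10, 745), (8, 840), (3, 161)] 0) (.contra [(1, 1), (10, 1220), (8, 1040), (3, 286)] 0)))))))))))))) (.mix 0 0 15 5 (.cond 1 0 (.contra [(1, 10), (8, 79), (6, 38)] 585) (.contra [(0, 10), (8, 7), (6, 54)] 55))) (.mix 0 1 11 15 (.mix 0 1 11 16 (.mix 0 1 11 19 (.h0 31 true (.mix 21 2 0 10 (.mix 6 0 0 13 (.cond 7 0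 (.contra [(0, 2), (8, 83), (6, 88)] 525) (.contra [(1, 1), (8, 48), (6, 8)] 400)))) (.mix 21 1 0 2 (.mix 6 2 0 11 (.mix 15 1 2 7 (.mix 4 0 0 16 (.cond 5 0 (.up 16 (.mix 0 2 12 14 (.mix 0 0 12 1 (.mix 0 2 12 0 (.mix 0 0 6 3 (.cond 1 0 (.contra [(1, 7), (10, 25408), (8, 45928), (2, 1900)] 0) (.contra [(0, 1), (10, 7168), (8, 12288), (2, 525)] 0)))))) (.mix 0 0 16 4 (.mix 0 1 16 12 (.mix 0 1 16 3 (.mix 0 0 16 10 (.cond 1 0 (.contra [(0, 7), (10, 27029), (8, 45394), (2, 1950)] 0) (.contra [(1, 7), (10, 61912), (8, 108232), (2, 4600)] 0)))))) (.mix 0 0 12 2 (.mix 0 1 12 14 (.mix 0 0 12 1 (.mix 0 2 6 0 (.h0 9 true (.mix 9 0 0 2 (.mix 9 2 0 3 (.mix 3 0 0 3 (.cond 4 0 (.contra [(0, 7), (10, 3392), (8, 2392), (2, 225)] 0) (.contra [(1, 1), (10, 1152), (8, 2352), (2, 100)] 0))))) (.mix 9 1 0 14 (.mix 9 0 0 14 (.cond 10 0 (.contra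 [(0, 7), (10, 10944), (8, 19784), (2, 825)] 0) (.contra [(1, 7), (10, 21632), (8, 37232), (2, 1600)] 0))))))))) (.mix 0 0 16 10 (.mix 0 2 16 11 (.mix 0 0 16 14 (.cond 1 0 (.contra [(0, 7), (10, 921), (8, 1566), (2, 50)] 0) (.contra [(1, 1), (10, 4076), (8, 6996), (2, 300)] 0))))) (.mix 0 1 16 12 (.mix 0 1 16 3 (.mix 0 0 16 10 (.cond 1 0 (.contra [(0, 7), (10, 22273), (8, 38238), (2, 1650)] 0) (.contra [(1, 7), (10, 17856), (8, 30636), (2, 1300)] 0)))))) (.contra [(1, 1), (6, 100), (2, 84)] 0))))))))))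

def T218 : Tr := .dn 15 (.mix 0 1 15 8 (.mix 0 1 12 17 (.mix 0 0 12 17 (.cond 1 0 (.contra [(0, 3), (6, 2), (2, 1)] 32) (.contra [(1, 1), (6, 6), (4, 4)] 42))))) (.mix 0 2 15 9 (.mix 0 0 12 6 (.cond 1 0 (.contra [(1, 5), (6, 3), (2, 1)] 20) (.contra [(0, 5), (6, 11), (4, 12)] 110)))) (.mix 0 0 15 7 (.mix 0 2 12 19 (.mix 0 2 12 5 (.mix 0 0 12 18 (.cond 1 0 (.contra [(0, 5), (6, 52), (4, 54)] 415) (.contra [(1, 5), (6, 4), (4, 8)] 180)))))) (.mix 0 2 15 16 (.mix 0 2 12 15 (.mix 0 2 12 18 (.mix 0 2 12 7 (.mix 4 0 18 5 (.mix 0 2 18 6 (.mix 0 0 18 19 (.cond 7 2 (.up 15 (.mix 0 0 15 3 (.mix 0 1 15 0 (.mix 0 0 15 3 (.cond 1 0 (.contra [(0, 1), (8, 14), (6, 22)] 175) (.contra [(1, 3), (8, 58), (4, 2)] 400))))) (.mix 0 2 15 0 (.mix 0 2 15 14 (.mix 0 0 15 1 (.mix 3 1 14 13 (.mix 0 0 14 0 (.cond 3 2 (.cond 1 0 (.contra [(0, 4),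 (8, 660), (3, 31)] 2000) (.contra [(1, 2), (3, 1)] 0)) (.contra [(0, 1), (8, 26), (6, 10)] 225))))))) (.mix 0 1 15 14 (.mix 0 1 15 11 (.mix 0 1 15 10 (.mix 0 1 15 4 (.mix 4 0 15 2 (.mix 0 2 15 13 (.mix 0 2 15 10 (T217)))))))) (.mix 0 2 15 12 (.mix 0 0 15 12 (.cond 1 0 (.contra [(0, 1), (8, 15), (6, 8)] 100) (.contra [(1, 1), (6, 21), (2, 25)] 0)))) (.mix 0 0 15 11 (.mix 0 2 15 3 (.mix 0 2 15 12 (.mix 0 0 15 12 (.cond 4 3 (.cond 1 0 (.contra [(1, 1), (2, 8)] 0) (.contra [(0, 3), (6, 25), (2, 32)] 0)) (.contra [(1, 2), (8, 13), (6, 2)] 75))))))) (.contra [(1, 30), (6, 23), (2, 1)] 80))))))))) (.mix 0 2 14 17 (.mix 0 2 14 8 (.mix 0 0 14 5 (.cond 1 0 (.contra [(1, 5), (6, 26), (4, 12)] 230) (.contra [(0, 10), (6, 29), (4, 48)] 195)))))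

def T219 : Tr := .up 7 (.mix 0 2 7 14 (.mix 0 2 4 2 (.mix 0 0 4 2 (.mix 3 0 9 3 (.cond 4 0 (.contra [(0, 2), (2, 3), (4, 13)] 6) (.cond 2 1 (.contra [(1, 1), (3, 4)] 0) (.contra [(0, 2), (4, 75), (3, 19)] 25))))))) (.mix 0 1 7 13 (.mix 0 0 4 0 (.mix 2 2 8 0 (.mix 0 0 8 3 (.cond 1 0 (.cond 3 2 (.contra [(0, 2), (4, 60), (6, 50), (3, 9)] 0) (.contra [(1, 1), (3, 1)] 0)) (.contra [(0, 2), (2, 9), (4, 1)] 12)))))) (.mix 0 0 7 2 (.mix 0 2 4 13 (.mix 0 2 4 10 (.mix 0 2 4 11 (.mix 4 1 10 14 (.mix 0 0 10 1 (.mix 0 2 10 0 (.cond 7 6 (.contra [(0, 3), (4, 25), (1, 4)] 0) (.h0 8 false (.cond 9 0 (.dn 16 (.mix 0 1 16 8 (.mix 0 1 13 17 (.mix 0 0 13 17 (.cond 1 0 (.contra [(0, 1), (5, 20), (2, 3)] 108) (.contra [(1, 1), (5, 60), (2, 4)] 244))))) (.mix 0 2 16 9 (.mix 0 0 13 6 (.cond 1 0 (.contra [(1, 1), (5, 14), (2, 2)] 70) (.contra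 [(0, 1), (5, 22), (2, 1)] 90)))) (.mix 0 0 16 7 (.mix 0 2 13 19 (.mix 0 2 13 5 (.mix 0 0 13 18 (.cond 1 0 (.contra [(0, 1), (5, 104), (2, 5)] 408) (.contra [(1, 1), (5, 8)] 56)))))) (.mix 0 2 16 16 (.mix 0 2 13 15 (.mix 0 2 13 18 (.mix 0 2 13 7 (.mix 0 0 5 7 (.mix 5 0 20 5 (.mix 0 2 20 6 (.mix 0 0 20 19 (T213))))))))) (.mix 0 2 15 17 (.mix 0 2 15 8 (.mix 0 0 15 5 (.cond 1 0 (.contra [(1, 1), (5, 52), (2, 4)] 228) (.contra [(0, 2), (5, 58), (2, 1)] 197)))))) (.contra [(1, 1), (4, 12), (3, 4)] 16)) (.mix 4 0 0 14 (.cond 5 0 (.contra [(1, 1), (3, 112)] 400) (.contra [(0, 1), (4, 45), (3, 11)] 0)))))))))))) (.mix 0 1 7 0 (.mix 0 1 4 1 (.mix 0 1 4 13 (.mix 0 0 4 0 (.mix 4 2 10 12 (.mix 0 2 10 4 (.mix 0 0 10 11 (.cond 1 0 (.cond 4 3 (T215) (.contra [(1, 1), (3, 2)] 0)) (.dn 15 (.mix 0 2 14 6 (.mix 0 0 14 19 (.cond 1 0 (.contra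 [(0, 2), (4, 3), (6, 7), (3, 1)] 0) (.contra [(1, 6), (4, 48), (6, 32), (3, 1)] 0)))) (.mix 0 2 15 9 (.mix 0 0 12 6 (.mix 0 2 12 9 (.mix 0 0 12 6 (.cond 1 0 (.contra [(1, 2), (4, 51), (6, 367), (2, 18)] 0) (.cond 3 2 (.contra [(1, 2), (5, 3), (4, 16), (2, 8)] 0) (.contra [(0, 14), (5, 97), (4, 384), (2, 198)] 0))))))) (.mix 0 0 15 7 (.mix 0 2 12 19 (.mix 0 2 12 5 (.mix 0 0 12 18 (.cond 1 0 (.contra [(0, 4), (4, 144), (6, 84), (3, 7)] 0) (.contra [(1, 1), (4, 12), (6, 132), (2, 8)] 0)))))) (.mix 0 0 14 5 (.cond 1 0 (T216) (.contra [(0, 8), (4, 15), (6, 3), (2, 2)] 0))) (.mix 0 2 14 17 (.mix 0 2 14 8 (.mix 0 0 14 5 (.cond 1 0 (.contra [(1, 2), (4, 33), (6, 109), (2, 6)] 0) (.contra [(0, 6), (4, 33), (6, 109), (3, 2)] 0)))))))))))))) (.mix 0 2 7 1 (.mix 0 0 4 4 (.mix 0 2 4 1 (.mix 0 0 4 4 (.mix 4 0 10 11 (.mix 0 1 10 10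 (.mix 0 0 10 13 (.cond 6 5 (.contra [(1, 1), (2, 6), (4, 8)] 6) (.cond 7 2 (.contra [(1, 1), (6, 5), (2, 1)] 10) (.cond 4 3 (T218) (.contra [(1, 1), (4, 4)] 0)))))))))))

def T220 : Tr := .up 11 (.mix 0 2 11 14 (.mix 0 0 11 1 (.cond 1 0 (.contra [(0, 2), (7, 116), (3, 5)] 290) (.contra [(1, 1), (7, 26), (3, 5)] 40)))) (.mix 0 1 11 13 (.mix 0 1 11 2 (.mix 2 0 9 4 (.mix 0 2 9 1 (.mix 0 2 9 0 (.cond 5 2 (.contra [(1, 2), (7, 114), (3, 5)] 340) (.up 5 (.mix 0 1 5 1 (.mix 0 0 5 4 (.mix 2 2 5 14 (.mix 0 0 5 1 (.cond 3 2 (.contra [(0, 6), (9, 3050), (1, 7)] 11250) (.cond 1 0 (.contra [(1, 1), (3, 1)] 0) (.contra [(0, 2), (4, 342), (3, 25)] 5000))))))) (.mix 0 0 5 4 (.cond 1 0 (.contra [(1, 1), (9, 105), (2, 4)] 500) (.contra [(0, 1), (9, 215), (2, 12)] 875))) (.mix 0 2 5 13 (.mix 0 0 5 0 (.cond 1 0 (.contra [(1, 1), (9, 390),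 (2, 4)] 1500) (.contra [(0, 1), (9, 230), (2, 18)] 1125)))) (.mix 0 1 3 0 (.mix 0 0 3 3 (.cond 1 0 (.contra [(0, 1), (9, 415), (2, 3)] 1500) (.contra [(1, 1), (9, 470), (2, 24)] 2000)))) (.mix 0 2 3 1 (.mix 0 2 3 0 (.mix 0 0 3 3 (.cond 1 0 (.contra [(0, 1), (9, 835), (2, 49)] 3500) (.contra [(1, 1), (9, 620), (2, 8)] 2000)))))))))))) (.mix 0 0 11 2 (.cond 1 0 (.contra [(1, 1), (7, 31)] 100) (.contra [(0, 1), (7, 17)] 75))) (.mix 0 1 11 0 (.mix 0 0 11 3 (.mix 0 2 11 12 (.mix 0 0 11 12 (.mix 4 0 11 10 (.mix 0 1 11 4 (.mix 0 0 11 11 (.cond 1 0 (.contra [(1, 1), (7, 192), (3, 5)] 640) (.cond 4 3 (.contra [(0, 2), (9, 616), (5, 15)] 2170) (.contra [(1, 3), (9, 80), (2, 8)] 500)))))))))) (.mix 0 2 11 1 (.mix 0 2 11 0 (.mix 0 0 11 3 (.mix 3 1 10 12 (.cond 2 1 (.contra [(1, 1), (7, 156), (3, 10)] 480) (.up 4 (.mix 0 0 4 3 (.cond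 1 0 (.contra [(1, 3), (9, 5435), (5, 1125), (2, 148)] 0) (.contra [(0, 2), (9, 1770), (5, 375), (2, 46)] 0))) (.mix 0 2 4 0 (.mix 0 0 4 3 (.cond 1 0 (.contra [(0, 3), (9, 12590), (5, 2625), (2, 343)] 0) (.contra [(1, 3), (9, 1870), (5, 375), (2, 44)] 0)))) (.mix 0 1 4 14 (.mix 0 0 4 1 (.cond 1 0 (.contra [(1, 3), (9, 8950), (5, 1875), (2, 248)] 0) (.contra [(0, 3), (9, 9050), (5, 1875), (2, 241)] 0)))) (.mix 0 0 1 10 (.cond 1 0 (.contra [(1, 6), (9, 1970), (5, 375), (2, 52)] 0) (.contra [(0, 12), (9, 1720), (5, 375), (2, 32)] 0))) (.mix 0 0 4 11 (.cond 1 0 (.contra [(0, 6), (9, 5510), (5, 1125), (2, 154)] 0) (.contra [(1, 1), (9, 1795), (5, 375), (2, 48)] 0)))))))))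

def T221 : Tr := .dn 15 (.mix 0 1 15 8 (.mix 0 1 12 17 (.mix 0 0 12 17 (.mix 3 2 17 6 (.mix 0 0 17 19 (.cond 1 0 (.cond 3 2 (.contra [(0, 1), (7, 10), (2, 2)] 45) (.contra [(1, 3), (7, 140), (2, 8)] 480)) (.contra [(1, 5), (5, 54), (2, 2)] 130))))))) (.mix 0 2 15 9 (.mix 0 0 12 6 (.mix 0 2 12 9 (.mix 0 2 12 17 (.mix 4 0 18 19 (.cond 4 3 (.cond 5 0 (.dn 5 (.mix 0 2 5 6 (.mix 0 2 5 9 (.mix 2 1 3 8 (.dn 3 (.mix 0 0 1 18 (.cond 1 0 (.contra [(1, 3), (9, 345), (6, 10), (2, 286)] 0) (.contra [(0, 1), (9, 630), (6, 40), (2, 389)] 0))) (.mix 0 0 3 19 (.cond 1 0 (.contra [(1, 3), (9, 555), (6, 40), (2, 376)] 0) (.contra [(0, 1), (9, 595), (6, 35), (2, 374)] 0))) (.mix 0 1 3 18 (.mix 0 0 3 15 (.cond 1 0 (.contra [(1, 1), (9, 50), (2, 92)] 0) (.contra [(0, 3), (9, 750), (6, 25), (2, 508)] 0)))) (.mix 0 0 3 5 (.cond 1 0 (.contra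 [(1, 1), (9, 365), (6, 20), (2, 224)] 0) (.contra [(0, 3), (9, 1515), (6, 95), (2, 974)] 0))) (.mix 0 0 1 6 (.cond 1 0 (.contra [(1, 1), (9, 435), (6, 30), (2, 254)] 0) (.contra [(0, 3), (9, 1410), (6, 80), (2, 929)] 0))))))) (.mix 0 0 5 19 (.mix 0 2 5 5 (.mix 0 2 5 6 (.mix 0 0 5 19 (.cond 4 3 (.contra [(1, 3), (9, 237), (6, 16), (2, 148)] 0) (.cond 1 0 (.contra [(0, 3), (11, 1280), (8, 165), (2, 128)] 0) (.contra [(1, 1), (2, 8)] 0))))))) (.mix 0 0 1 7 (.cond 1 0 (.contra [(0, 3), (9, 156), (6, 8), (2, 113)] 0) (.contra [(1, 1), (9, 39), (6, 2), (2, 22)] 0))) (.mix 0 0 5 5 (.cond 1 0 (.contra [(0, 3), (9, 177), (6, 11), (2, 122)] 0) (.contra [(1, 1), (9, 53), (6, 4), (2, 28)] 0))) (.mix 0 2 5 17 (.mix 0 0 5 17 (.cond 1 0 (.contra [(1, 1), (9, 262), (6, 16), (2, 164)] 0) (.contra [(0, 3), (9, 102), (6, 11), (2, 44)] 0)))))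 (.contra [(1, 2), (3, 1)] 0)) (.contra [(0, 2), (5, 30), (1, 1)] 110))))))) (.mix 0 1 14 18 (.mix 0 0 14 15 (.mix 0 1 14 16 (.cond 2 1 (.h0 15 true (.cond 16 0 (.contra [(0, 35), (7, 614), (4, 72), (2, 165)] 0) (.contra [(1, 7), (7, 248), (4, 32), (2, 64)] 0)) (.mix 1 0 0 9 (.cond 2 0 (.contra [(1, 1), (2, 4)] 0) (.contra [(0, 7), (7, 6), (4, 8), (2, 9)] 0)))) (.contra [(1, 1), (5, 14)] 48))))) (.mix 0 0 14 5 (.mix 0 2 14 6 (.mix 0 0 14 19 (.cond 1 0 (T220) (.contra [(0, 10), (5, 254), (2, 7)] 735))))) (.mix 0 2 14 17 (.mix 0 2 14 8 (.mix 0 0 14 5 (.cond 1 0 (.contra [(1, 5), (5, 68), (2, 4)] 180) (.contra [(0, 10), (5, 242), (2, 1)] 745)))))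

def T222 : Tr := .up 39 (.mix 0 1 39 1 (.mix 0 1 39 13 (.mix 0 0 39 0 (.mix 0 2 39 14 (.mix 0 0 39 1 (.mix 0 2 39 0 (.mix 0 0 39 3 (.mix 0 2 39 12 (.mix 0 2 24 4 (.mix 0 0 17 11 (.cond 1 0 (.contra [(0, 14), (26, 17428810), (22, 952712), (21, 25295)] 0) (.contra [(1, 707), (26, 248799360), (22, 15045632), (18, 548760)] 0)))))))))))) (.mix 0 0 39 4 (.mix 0 2 39 1 (.mix 0 0 39 4 (.cond 1 0 (.contra [(1, 101), (26, 1137260), (22, 48512), (18, 160)] 0) (.contra [(0, 707), (26, 4599540), (22, 207648), (18, 5515)] 0))))) (.mix 0 2 39 13 (.mix 0 2 39 10 (.mix 0 2 39 11 (.mix 0 2 39 3 (.mix 0 2 39 12 (.mix 0 2 39 4 (.mix 0 0 39 11 (.mix 0 1 39 10 (.mix 0 0 24 13 (.mix 0 1 17 2 (.mix 0 1 14 14 (.cond 5 4 (.h2 18 22 (.mix 18 0 0 4 (.mix 18 1 0 11 (.mix 18 0 0 0 (.cond 19 0 (.cond 21 2 (.contra [(1, 707), (30, 37361920), (26, 1763328),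 (22, 17520)] 0) (.h0 18 false (.cond 19 0 (.contra [(0, 7), (32, 27944), (28, 1399), (27, 142)] 0) (.contra [(1, 1), (10, 2), (8, 2)] 0)) (.mix 18 0 0 14 (.mix 18 1 0 13 (.h0 6 false (.h0 3 false (.mix 3 1 0 11 (.mix 3 0 0 0 (.cond 4 0 (.contra [(1, 707), (32, 192602960), (28, 9291772), (24, 49360)] 0) (.contra [(0, 707), (32, 17046780), (28, 887901), (24, 93980)] 0)))) (.mix 3 2 0 2 (.mix 3 1 0 2 (.h0 2 false (.mix 2 0 0 2 (.mix 2 0 0 2 (.cond 3 0 (.contra [(1, 707), (32, 385205920), (28, 18583544), (24, 98720)] 0) (.contra [(0, 707), (32, 82914940), (28, 203133), (24, 144540)] 0)))) (.exc 34 0 4 ⟨26, 4, 0, -61405761, -9447040, 0, 675463345, 103917436, 0⟩ ⟨371, -26331, 0, -876212966, 62187502855, 0, 9638342255, -684062505074, 0⟩ ⟨-152, 25793, 5126, 358987523, -60916875680, -12106384989, -3948862601, 670085606687, 133170229753⟩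 1))))) (.mix 6 1 0 12 (.mix 6 0 0 14 (.cond 7 0 (.contra [(1, 1), (4, 1), (2, 25)] 0) (.contra [(0, 707), (32, 290128560), (28, 10910592), (24, 177085)] 0))))))))) (.contra [(1, 1), (8, 400), (2, 16)] 0))))) (.mix 18 2 0 0 (.mix 18 0 0 1 (.mix 18 2 0 10 (.mix 4 0 0 1 (.cond 5 0 (.contra [(0, 14), (28, 847910), (24, 978232), (23, 1542745)] 0) (.contra [(1, 707), (28, 4856984960), (24, 217111552), (20, 1888360)] 0))))))) (.contra [(1, 707), (26, 54006720), (22, 3659264), (18, 35520)] 0))))))))))))) (.mix 0 0 39 10 (.cond 1 0 (.contra [(1, 14), (26, 34860), (22, 1772), (21, 145)] 0) (.contra [(0, 707), (26, 872135), (22, 18312), (18, 660)] 0))) (.mix 0 1 39 12 (.mix 0 0 39 12 (.cond 1 0 (.contra [(1, 707), (26, 2313910), (22, 84392), (18, 2810)] 0) (.contra [(0, 101), (26, 564590), (22, 29808), (18, 65)] 0))))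

def T223 : Tr := .mix 0 1 35 0 (.mix 0 0 35 3 (.mix 0 1 35 0 (.mix 0 0 35 3 (.mix 0 2 35 12 (.mix 0 2 25 4 (.mix 0 2 18 1 (.mix 0 2 8 0 (.mix 8 2 38 12 (.mix 0 2 38 4 (.mix 0 0 38 11 (.mix 0 1 36 10 (.mix 0 0 28 13 (.mix 0 1 22 2 (.mix 0 1 19 14 (.h0 22 false (.mix 22 0 0 12 (.cond 23 0 (.contra [(1, 101), (22, 339360), (18, 15384), (14, 160)] 0) (.contra [(0, 7), (22, 840), (18, 291), (17, 230)] 0))) (.mix 22 1 0 3 (.mix 22 0 0 0 (.mix 3 1 0 11 (.mix 23 1 3 9 (.h0 23 true (.mix 23 1 0 0 (.mix 23 2 0 11 (.mix 15 0 0 3 (.cond 16 0 (.contra [(0, 707), (22, 80452560), (18, 3590272), (14, 71835)] 0) (.contra [(1, 707), (22, 65803520), (18, 2279424), (14, 4320)] 0))))) (.mix 23 2 0 12 (.mix 23 0 0 13 (.mix 15 2 0 14 (.h0 8 false (.mix 8 1 0 0 (.mix 8 1 0 1 (.mix 8 0 0 14 (.cond 9 0 (.contra [(0, 707), (22, 88037660), (18,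 3366517), (14, 64060)] 0) (.contra [(1, 7), (22, 488320), (18, 24464), (17, 14240)] 0))))) (.mix 8 0 0 10 (.mix 8 2 0 14 (.mix 7 0 2 6 (.cond 11 2 (.contra [(1, 101), (22, 678720), (18, 30768), (14, 320)] 0) (.cond 8 0 (.h0 7 true (.mix 7 0 0 12 (.cond 8 0 (.contra [(1, 707), (26, 9340480), (22, 440832), (18, 4380)] 0) (.contra [(0, 14), (26, 3570), (22, 1448), (21, 3915)] 0))) (.mix 7 2 0 4 (.mix 7 1 0 2 (.mix 7 2 0 2 (.h0 3 true (.mix 3 2 0 1 (.mix 3 1 0 14 (.mix 3 2 0 13 (.h0 11 false (.cond 12 0 (.contra [(0, 101), (26, 177356), (22, 9657), (18, 108)] 0) (.contra [(1, 1), (4, 1), (2, 1)] 0)) (.mix 11 2 0 11 (.mix 11 0 0 1 (T222))))))) (.mix 3 0 0 11 (.cond 4 0 (.contra [(1, 707), (26, 18680960), (22, 881664), (18, 8760)] 0) (.contra [(0, 14), (26, 90930), (22, 1704), (21, 1835)] 0)))))))) (.contra [(1, 1), (12, 16),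 (10, 400)] 0))))))))))))))))))))))))))))))

def T224 : Tr := .h2 8 49 (.mix 8 0 0 10 (.mix 8 2 0 14 (.mix 8 1 2 5 (.h0 7 true (.cond 8 0 (.contra [(0, 101), (20, 27472), (16, 1152), (12, 3)] 0) (.contra [(1, 1), (4, 1), (2, 1)] 0)) (.mix 7 2 0 0 (.mix 7 0 0 13 (.cond 8 0 (.contra [(1, 101), (20, 872640), (16, 40448), (12, 240)] 0) (.h0 6 false (.mix 6 1 0 4 (.mix 6 2 0 2 (.mix 6 1 2 8 (.h2 3 10 (.mix 3 1 0 12 (.mix 3 2 0 13 (.mix 3 1 2 17 (.h0 10 true (.cond 11 0 (.contra [(0, 101), (22, 46864), (18, 2688), (14, 7)] 0) (.contra [(1, 1), (6, 2), (4, 2)] 0)) (.mix 10 0 0 3 (.mix 10 2 0 10 (.up 35 (.mix 0 2 35 14 (.mix 0 0 35 1 (.mix 0 1 35 13 (.mix 0 1 35 2 (.mix 0 1 35 14 (.mix 0 0 25 1 (.cond 1 0 (.contra [(1, 707), (22, 10649440), (18, 446208), (14, 9040)] 0) (.contra [(0, 707), (22, 3482480), (18, 305536), (14, 55)]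 0)))))))) (.mix 0 2 30 0 (.mix 0 0 30 3 (.cond 1 0 (.contra [(1, 707), (22, 754470), (18, 29344), (14, 270)] 0) (.contra [(0, 7), (22, 1540), (18, 143), (17, 155)] 0)))) (.mix 0 0 35 2 (.cond 1 0 (.contra [(1, 707), (22, 101505), (18, 546), (14, 205)] 0) (.contra [(0, 707), (22, 147965), (18, 9128), (14, 190)] 0))) (T223) (.mix 0 2 35 1 (.mix 0 2 35 0 (.mix 0 2 35 14 (.mix 0 0 35 1 (.cond 1 0 (.contra [(1, 1), (22, 2500), (12, 84)] 0) (.contra [(0, 707), (22, 900920), (18, 5824), (14, 1345)] 0))))))))))))) (.mix 3 0 0 11 (.cond 4 0 (.contra [(1, 101), (22, 169680), (18, 7692), (14, 80)] 0) (.contra [(0, 7), (22, 840), (18, 67), (17, 230)] 0))))))) (.mix 4 0 0 18 (.cond 5 0 (.contra [(0, 101), (22, 58580), (18, 2495), (14, 52)] 0) (.contra [(1, 1), (10, 2), (8, 50)] 0))))))))))) (.mix 8 2 0 12 (.mix 8 0 0 3 (.cond 9 0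 (.contra [(1, 707), (20, 573680), (16, 24416), (12, 880)] 0) (.contra [(0, 707), (20, 1197860), (16, 48027), (12, 260)] 0))))

def T225 : Tr := .up 27 (.mix 0 1 27 1 (.mix 0 0 27 4 (.mix 0 1 27 12 (.mix 0 1 27 3 (.mix 0 0 15 10 (.cond 1 0 (.cond 4 3 (.contra [(1, 13736), (8, 176320), (4, 13000), (3, 18079)] 0) (.contra [(0, 8), (3, 1)] 0)) (.contra [(0, 101), (10, 145440), (6, 5376), (2, 115)] 0))))))) (.mix 0 0 27 4 (.mix 0 1 27 12 (.mix 0 1 27 3 (.mix 0 0 27 10 (.cond 1 0 (.contra [(1, 707), (10, 222200), (6, 4928), (2, 400)] 0) (.contra [(0, 707), (10, 505000), (6, 28224), (2, 225)] 0)))))) (.mix 0 2 27 13 (.mix 0 0 27 0 (.cond 1 0 (.contra [(1, 707), (10, 122210), (6, 4648), (2, 10)] 0) (.contra [(0, 101), (10, 19190), (6, 912), (2, 15)] 0)))) (.mix 0 0 27 10 (.mix 0 2 27 11 (.mix 0 0 27 14 (.mix 0 2 27 2 (.mix 0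 2 15 13 (.mix 5 2 28 12 (.mix 0 2 28 4 (.mix 0 2 28 1 (.cond 8 7 (.contra [(1, 707), (10, 35855), (6, 1526), (2, 55)] 0) (.h0 40 true (.mix 30 2 0 3 (.mix 2 2 0 0 (.mix 24 1 2 6 (.mix 13 0 0 6 (.cond 14 0 (.cond 45 4 (.h0 25 true (.mix 25 1 0 11 (.mix 10 0 0 0 (.cond 11 0 (.contra [(1, 101), (16, 436320), (12, 20224), (8, 120)] 0) (.contra [(0, 707), (16, 234320), (12, 34944), (8, 495)] 0)))) (.mix 25 0 0 1 (.mix 10 2 0 10 (.mix 26 0 2 5 (.cond 28 2 (.contra [(1, 1), (16, 400), (6, 16)] 0) (.cond 27 0 (.contra [(1, 707), (18, 597920), (14, 26880), (10, 272)] 0) (T224))))))) (.contra [(1, 707), (14, 29896), (10, 1456), (6, 8)] 0)) (.contra [(1, 707), (12, 383800), (8, 11200), (4, 248)] 0)))))) (.mix 30 1 0 10 (.mix 2 0 0 4 (.cond 3 0 (.contra [(1, 707), (12, 286840), (8, 12208), (4, 440)] 0) (.contra [(0, 707), (12, 527220),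 (8, 29799), (4, 20)] 0)))))))))))))) (.mix 0 1 27 12 (.mix 0 1 27 3 (.mix 0 0 27 10 (.cond 1 0 (.contra [(0, 707), (10, 224220), (6, 7392), (2, 95)] 0) (.contra [(1, 707), (10, 309060), (6, 16576), (2, 60)] 0)))))

def T226 : Tr := .up 34 (.mix 0 1 34 1 (.mix 0 0 34 4 (.mix 0 1 34 12 (.mix 0 1 34 3 (.mix 0 1 16 0 (.mix 5 0 35 3 (.mix 0 2 35 12 (.mix 0 0 35 12 (.cond 7 6 (.contra [(1, 175), (16, 198275), (6, 1734), (2, 1023)] 0) (.up 8 (.mix 0 1 8 1 (.mix 0 1 8 13 (.mix 0 0 8 0 (.cond 1 0 (.contra [(0, 25), (18, 313600), (8, 2791), (4, 1652)] 0) (.contra [(1, 175), (18, 466900), (8, 4164), (4, 2608)] 0))))) (.mix 0 1 3 13 (.mix 0 1 3 2 (.mix 0 0 3 2 (.cond 1 0 (.contra [(0, 1400), (18, 10464475), (8, 93956), (4, 56657)] 0) (.contra [(1, 23), (18, 12975), (4, 25), (2, 624)] 0))))) (.mix 0 0 3 2 (.cond 1 0 (.contra [(1,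 175), (18, 89950), (8, 647), (4, 359)] 0) (.contra [(0, 1400), (18, 4417175), (8, 39468), (4, 23421)] 0))) (.mix 0 0 8 10 (.mix 0 1 8 4 (.mix 0 1 8 12 (.mix 0 1 8 3 (.mix 0 0 8 10 (.cond 1 0 (.contra [(0, 175), (18, 7347200), (8, 63557), (4, 37504)] 0) (.contra [(1, 175), (18, 4838400), (8, 45504), (4, 27088)] 0))))))) (.mix 0 1 8 12 (.mix 0 0 8 12 (.mix 0 1 8 3 (.mix 0 0 8 10 (.cond 1 0 (.contra [(1, 25), (18, 460400), (8, 3924), (4, 2328)] 0) (.contra [(0, 175), (18, 1517600), (8, 14131), (4, 8632)] 0)))))))))))))))) (.mix 0 0 34 4 (.mix 0 1 34 12 (.mix 0 1 34 3 (.mix 0 0 34 10 (.cond 1 0 (.contra [(1, 175), (16, 137200), (6, 1072), (2, 584)] 0) (.contra [(0, 175), (16, 677600), (6, 6201), (2, 3672)] 0)))))) (.mix 0 2 34 13 (.mix 0 0 34 0 (.cond 1 0 (.contra [(1, 25), (16, 17475), (6, 146), (2, 87)] 0) (.contra [(0,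 175), (16, 156100), (6, 1401), (2, 822)] 0)))) (.mix 0 0 34 10 (.mix 0 2 34 11 (.mix 0 0 34 14 (.mix 0 2 34 2 (.mix 0 0 16 2 (.cond 1 0 (.contra [(1, 175), (16, 1769600), (6, 15556), (2, 9232)] 0) (.contra [(0, 25), (16, 9600), (6, 81), (2, 32)] 0))))))) (.mix 0 1 34 12 (.mix 0 1 34 3 (.mix 0 0 34 10 (.cond 1 0 (.contra [(0, 175), (16, 198800), (6, 1623), (2, 956)] 0) (.contra [(1, 175), (16, 403900), (6, 3644), (2, 2168)] 0)))))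

def T227 : Tr := .h0 22 true (.mix 18 0 0 2 (.mix 11 2 1 9 (.mix 4 0 0 5 (.cond 5 0 (.contra [(1, 1), (2, 8)] 0) (.dn 9 (.mix 0 0 5 18 (.cond 1 0 (.contra [(1, 2), (12, 5000), (4, 89), (2, 5)] 0) (.contra [(0, 16), (12, 11250), (4, 229), (2, 15)] 0))) (.mix 0 0 9 19 (.cond 1 0 (.contra [(1, 8), (12, 11250), (4, 225), (2, 11)] 0) (.contra [(0, 2), (12, 2500), (4, 45), (2, 3)] 0))) (.mix 0 1 9 18 (.mix 0 1 9 6 (.mix 0 0 9 19 (.mix 0 1 9 7 (.mix 0 0 5 7 (.mix 5 2 10 19 (.cond 2 1 (.contra [(1, 1), (4, 24), (2, 4)] 0) (.dn 6 (.mix 0 0 6 18 (.cond 1 0 (.contra [(1, 256), (14, 1800000), (4, 4935), (2, 973)] 0) (.contra [(0, 4), (14, 37500), (4, 95), (2, 21)] 0))) (.mix 0 0 1 19 (.cond 1 0 (.contra [(1, 128), (14, 200000), (4, 765), (2, 159)] 0) (.contra [(0, 512), (14, 3400000), (4, 8755), (2, 2033)] 0))) (.mix 0 2 6 19 (.mix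 0 0 6 16 (.cond 1 0 (.contra [(1, 64), (14, 1400000), (4, 3955), (2, 817)] 0) (.contra [(0, 32), (14, 400000), (4, 1005), (2, 207)] 0)))) (.mix 0 1 6 17 (.mix 0 1 6 9 (.mix 0 1 6 15 (.mix 0 0 6 8 (.cond 1 0 (.contra [(0, 8), (14, 800000), (4, 2085), (2, 447)] 0) (.contra [(1, 8), (14, 400000), (4, 1105), (2, 251)] 0)))))) (.mix 0 0 6 6 (.cond 1 0 (T226) (.contra [(1, 256), (14, 3000000), (4, 7825), (2, 1659)] 0))))))))))) (.mix 0 0 9 5 (.cond 1 0 (.contra [(1, 8), (12, 1250), (4, 9), (2, 3)] 0) (.contra [(0, 1), (12, 1875), (4, 36), (2, 2)] 0))) (.mix 0 2 9 17 (.mix 0 0 9 17 (.cond 1 0 (.contra [(0, 1), (12, 2500), (4, 49), (2, 2)] 0) (.contra [(1, 2), (12, 3750), (4, 61), (2, 3)] 0))))))))) (.mix 10 0 0 19 (.cond 11 0 (.contra [(0, 1), (8, 120), (10, 550), (2, 11)] 0) (.contra [(1, 3), (8, 960), (10, 2800), (2, 64)]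 0)))

def T228 : Tr := .up 7 (.mix 0 2 3 14 (.mix 0 0 3 1 (.cond 1 0 (.contra [(1, 8), (6, 1005), (5, 500), (2, 207)] 0) (.contra [(0, 8), (6, 2135), (5, 1000), (2, 469)] 0)))) (.mix 0 0 7 4 (.mix 1 1 4 13 (.mix 0 1 4 2 (.mix 0 0 4 2 (.cond 1 0 (.contra [(0, 3), (2, 25), (1, 4)] 0) (.cond 4 3 (.contra [(1, 4), (3, 1)] 0) (.contra [(0, 112), (8, 33200), (7, 4375), (3, 1234)] 0))))))) (.mix 0 0 3 2 (.cond 1 0 (.contra [(1, 8), (6, 760), (5, 375), (2, 168)] 0) (.contra [(0, 16), (6, 2235), (5, 1000), (2, 473)] 0))) (.mix 0 1 3 0 (.mix 0 0 3 3 (.cond 1 0 (.contra [(0, 8), (6, 2085), (5, 1000), (2, 447)] 0) (.contra [(1, 8), (6, 1105), (5, 500), (2, 251)] 0)))) (.mix 0 1 7 12 (.mix 0 0 7 12 (.mix 0 1 7 3 (.mix 0 0 7 10 (.mix 4 2 7 1 (.mix 0 2 7 0 (.h0 28 true (.mix 24 0 0 2 (.mix 12 1 0 0 (.mix 5 2 0 11 (.up 10 (.mix 0 0 6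 3 (.cond 1 0 (.contra [(1, 8), (6, 1615), (5, 875), (2, 389)] 0) (.contra [(0, 16), (6, 1935), (5, 1000), (2, 341)] 0))) (.mix 0 0 10 4 (.mix 0 2 10 1 (.mix 0 0 10 4 (.cond 1 0 (.contra [(1, 8), (6, 16995), (5, 8250), (2, 3617)] 0) (.contra [(0, 32), (6, 18685), (5, 7250), (2, 3071)] 0))))) (.mix 0 1 6 14 (.mix 0 0 6 1 (.cond 1 0 (.contra [(0, 8), (6, 6305), (5, 3000), (2, 1443)] 0) (.contra [(1, 8), (6, 8085), (5, 3500), (2, 1671)] 0)))) (.mix 0 0 10 10 (.mix 0 1 10 4 (.mix 0 1 10 12 (.mix 0 0 10 12 (.cond 1 0 (.contra [(0, 32), (6, 139815), (5, 67750), (2, 30989)] 0) (.contra [(1, 4), (6, 5635), (5, 2250), (2, 1281)] 0)))))) (.mix 0 1 10 12 (.mix 0 0 10 12 (.mix 0 1 10 3 (.mix 0 1 10 0 (.mix 0 0 5 3 (.cond 1 0 (.contra [(0, 32), (6, 6795), (5, 750), (2, 4057)] 0) (.contra [(1, 4), (6, 55795), (5, 25750), (2, 11857)]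 0))))))))))) (.mix 24 1 0 14 (.mix 12 0 0 10 (.cond 13 0 (.contra [(1, 4), (6, 565), (5, 250), (2, 103)] 0) (.contra [(0, 32), (6, 15285), (5, 7250), (2, 3303)] 0)))))))))))

def T229 : Tr := .dn 15 (.mix 0 2 14 6 (.mix 0 0 14 19 (.cond 1 0 (.contra [(0, 2), (4, 3), (6, 7), (3, 1)] 0) (.contra [(1, 6), (4, 48), (6, 32), (3, 1)] 0)))) (.mix 0 2 15 9 (.mix 0 0 12 6 (.mix 0 2 12 9 (.mix 0 2 12 17 (.mix 4 0 18 19 (.mix 0 1 18 7 (.mix 0 1 18 18 (.cond 6 5 (.h0 16 true (.mix 4 0 0 17 (.cond 5 0 (.contra [(1, 1), (6, 51), (8, 367), (4, 18)] 0) (.contra [(0, 42), (6, 210), (4, 100), (3, 409)] 0))) (.mix 12 1 0 14 (.mix 5 2 1 8 (.dn 10 (.mix 0 2 10 6 (.mix 0 2 10 9 (.mix 0 2 10 17 (.mix 0 2 10 8 (.mix 0 0 5 5 (.mix 5 1 11 8 (.mix 0 1 11 17 (.mix 0 1 11 9 (.cond 4 3 (T225) (.contra [(1, 1), (6, 480), (3, 56)] 0)))))))))) (.mix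 0 0 10 19 (.mix 0 2 10 5 (.mix 0 2 10 6 (.mix 0 0 10 19 (.cond 1 0 (.contra [(0, 8), (6, 849), (8, 4053), (4, 262)] 0) (.cond 4 3 (.contra [(1, 28), (6, 200), (5, 426), (3, 21)] 0) (.contra [(0, 8), (3, 1)] 0))))))) (.mix 0 1 10 18 (.mix 0 1 10 6 (.mix 0 0 10 19 (.cond 1 0 (.contra [(1, 2), (6, 51), (8, 167), (4, 18)] 0) (.contra [(0, 14), (6, 1890), (4, 100), (3, 381)] 0))))) (.mix 0 0 10 5 (.cond 1 0 (.contra [(0, 4), (6, 9), (8, 393), (4, 22)] 0) (.contra [(1, 8), (6, 171), (8, 367), (4, 18)] 0))) (.mix 0 2 10 17 (.mix 0 0 10 17 (.cond 1 0 (.contra [(1, 4), (6, 39), (8, 923), (4, 42)] 0) (.contra [(0, 8), (6, 321), (8, 597), (4, 38)] 0)))))))) (.contra [(0, 4), (6, 60), (3, 5), (1, 12)] 0))))))))) (.mix 0 0 15 7 (.mix 0 2 12 19 (.mix 0 2 12 5 (.mix 0 2 12 6 (.mix 4 1 18 18 (.mix 0 0 18 15 (.mix 0 1 18 16 (.cond 2 1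 (.dn 7 (.mix 0 1 7 8 (.mix 0 0 7 5 (.mix 0 2 7 6 (.mix 0 0 7 19 (.cond 1 0 (.contra [(1, 1), (6, 225), (8, 225), (2, 38)] 0) (.contra [(0, 8), (6, 1281), (8, 5701), (4, 294)] 0)))))) (.mix 0 2 7 9 (.mix 0 2 7 17 (.mix 0 2 7 8 (.mix 0 0 7 5 (.cond 1 0 (.contra [(1, 1), (6, 147), (8, 247), (4, 18)] 0) (.contra [(0, 8), (6, 567), (8, 6867), (4, 298)] 0)))))) (.mix 0 2 3 19 (.mix 0 2 3 5 (.mix 0 0 3 18 (.cond 1 0 (.contra [(1, 2), (6, 21), (8, 81), (4, 14)] 0) (.contra [(0, 2), (6, 555), (8, 175), (2, 84)] 0))))) (.mix 0 2 7 16 (.mix 0 0 7 9 (.mix 0 2 7 17 (.mix 0 2 7 8 (.mix 4 1 7 17 (.cond 4 3 (.contra [(1, 2), (6, 135), (8, 75), (2, 26)] 0) (T227))))))) (.mix 0 1 7 15 (.mix 0 1 7 16 (.mix 0 0 7 9 (.cond 1 0 (.contra [(1, 2), (6, 159), (8, 579), (4, 26)] 0) (.contra [(0, 4), (6, 1035), (8, 275), (2, 162)] 0)))))) (.contra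 [(1, 2), (4, 12), (6, 12), (3, 1)] 0))))))))) (.mix 0 2 15 16 (.mix 0 2 12 15 (.mix 0 2 12 18 (.mix 0 0 12 15 (.cond 1 0 (.up 12 (.mix 0 1 12 1 (.mix 0 0 12 4 (.mix 0 1 12 12 (.mix 0 1 12 3 (.mix 4 0 12 3 (.mix 0 2 12 12 (.mix 0 0 12 12 (.cond 1 0 (T228) (.contra [(1, 1), (5, 3), (4, 4)] 0))))))))) (.mix 0 0 12 4 (.mix 0 1 12 12 (.mix 0 1 12 3 (.mix 0 0 12 10 (.cond 1 0 (.contra [(1, 2), (5, 310), (4, 128), (3, 175)] 0) (.contra [(0, 16), (5, 2470), (4, 1152), (3, 1325)] 0)))))) (.mix 0 2 12 13 (.mix 0 0 12 0 (.cond 1 0 (.contra [(1, 2), (5, 49), (4, 16), (3, 25)] 0) (.contra [(0, 16), (5, 866), (4, 384), (3, 475)] 0)))) (.mix 0 0 12 10 (.cond 1 0 (.contra [(1, 4), (5, 89), (4, 40), (3, 50)] 0) (.contra [(0, 16), (5, 42), (3, 25)] 0))) (.mix 0 1 12 12 (.mix 0 1 12 3 (.mix 0 0 12 10 (.cond 1 0 (.contra [(0, 16), (5, 1074),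 (4, 384), (3, 575)] 0) (.contra [(1, 2), (5, 144), (4, 64), (3, 75)] 0)))))) (.contra [(0, 8), (4, 75), (6, 951), (2, 34)] 0)))))) (.mix 0 2 14 17 (.mix 0 2 14 8 (.mix 0 0 14 5 (.cond 1 0 (.contra [(1, 2), (4, 33), (6, 109), (2, 6)] 0) (.contra [(0, 6), (4, 33), (6, 109), (3, 2)] 0)))))

def T230 : Tr := .dn 14 (.mix 0 1 14 8 (.mix 0 1 11 17 (.mix 0 0 11 17 (.mix 3 2 16 6 (.mix 0 0 16 19 (.cond 1 0 (.cond 3 2 (.contra [(0, 1), (4, 6), (2, 4)] 21) (.contra [(1, 1), (4, 28), (2, 12)] 48)) (.contra [(1, 1), (4, 3), (2, 2)] 21))))))) (.mix 0 2 14 9 (.mix 0 0 11 6 (.mix 2 0 15 19 (.cond 2 1 (.cond 3 0 (.contra [(0, 6), (6, 5), (3, 1)] 15) (.contra [(1, 2), (3, 1)] 0)) (.contra [(0, 5), (4, 11), (2, 12)] 110))))) (.mix 0 1 13 18 (.mix 0 0 13 15 (.cond 1 0 (.contra [(0, 10), (4, 27), (2, 4)] 165) (.contra [(1, 5), (4, 7), (2,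 14)] 65)))) (.mix 0 0 13 5 (.mix 0 2 13 6 (.mix 0 0 13 19 (.cond 1 0 (.up 10 (.mix 0 0 10 3 (.mix 0 1 10 0 (.mix 0 0 10 3 (.cond 1 0 (.contra [(0, 1), (6, 14), (4, 22)] 175) (.contra [(1, 3), (6, 62), (3, 5)] 390))))) (.mix 0 2 10 0 (.mix 0 2 10 14 (.mix 0 0 10 1 (.mix 3 1 9 13 (.mix 0 0 9 0 (.cond 3 2 (.cond 1 0 (.contra [(0, 4), (6, 660), (3, 31)] 2000) (.contra [(1, 2), (3, 1)] 0)) (.contra [(0, 1), (6, 26), (4, 10)] 225))))))) (.mix 0 1 10 14 (.mix 0 1 10 11 (.mix 0 1 10 10 (.mix 0 0 10 13 (.cond 1 0 (.contra [(1, 1), (6, 36), (4, 56)] 300) (.contra [(0, 6), (6, 284), (3, 5)] 1590)))))) (.mix 0 2 10 12 (.mix 0 0 10 12 (.cond 1 0 (.contra [(0, 1), (6, 15), (4, 8)] 100) (.contra [(1, 4), (4, 84), (3, 25)] 0)))) (.mix 0 0 10 11 (.mix 0 2 10 3 (.mix 0 2 10 12 (.mix 0 2 10 4 (.cond 4 3 (.h0 16 true (.mix 12 2 0 14 (.mix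 2 0 0 11 (.cond 3 0 (.contra [(1, 1), (2, 16)] 0) (.contra [(0, 3), (8, 415), (2, 86)] 4000)))) (.mix 12 0 0 3 (.cond 13 0 (.contra [(0, 3), (8, 71), (2, 22)] 800) (.contra [(1, 1), (8, 8)] 0)))) (.contra [(1, 2), (6, 13), (4, 2)] 75))))))) (.contra [(0, 2), (4, 15), (1, 4)] 145))))) (.mix 0 2 13 17 (.mix 0 2 13 8 (.mix 0 0 13 5 (.cond 1 0 (.contra [(1, 5), (4, 26), (2, 12)] 230) (.contra [(0, 10), (4, 29), (2, 48)] 195)))))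

def T231 : Tr := .up 7 (.mix 0 2 7 14 (.mix 0 2 4 2 (.mix 0 0 4 2 (.mix 3 0 9 3 (.cond 4 0 (.contra [(0, 2), (2, 3), (4, 13)] 6) (.cond 2 1 (.contra [(1, 1), (3, 4)] 0) (.contra [(0, 2), (4, 75), (3, 19)] 25))))))) (.mix 0 1 7 13 (.mix 0 0 4 0 (.mix 2 2 8 0 (.mix 0 0 8 3 (.cond 1 0 (.cond 3 2 (.contra [(0, 2), (4, 60), (6, 50), (3, 9)] 0) (.contra [(1, 1), (3, 1)] 0)) (.contra [(0, 2), (2, 9), (4, 1)] 12)))))) (.mix 0 0 7 2 (.mix 0 2 4 13 (.mix 0 2 4 10 (.mix 0 0 4 13 (.mix 4 1 10 14 (.mix 0 0 10 1 (.mix 0 2 10 0 (.cond 7 6 (.contra [(0, 3), (4, 25), (1, 4)] 0) (.cond 4 3 (.contra [(1, 1), (3, 56)] 200) (T221)))))))))) (.mix 0 1 7 0 (.mix 0 1 4 1 (.mix 0 1 4 13 (.mix 0 1 4 2 (.mix 4 2 10 12 (.mix 0 2 10 4 (.mix 0 0 10 11 (.cond 1 0 (.up 7 (.mix 0 0 3 3 (.cond 1 0 (.contra [(1, 4), (6, 160), (3, 3)] 120) (.contra [(0,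 4), (3, 3), (2, 4)] 0))) (.mix 0 0 7 4 (.mix 0 1 7 12 (.mix 0 1 7 3 (.mix 0 0 7 10 (.cond 1 0 (.contra [(1, 1), (6, 280), (3, 12)] 160) (.contra [(0, 4), (6, 260), (3, 9)] 720)))))) (.mix 0 2 7 13 (.mix 0 0 7 0 (.mix 0 1 7 1 (.mix 0 0 7 4 (.cond 1 0 (.contra [(0, 4), (6, 740), (3, 33)] 80) (.contra [(1, 1), (6, 220), (3, 9)] 240)))))) (.mix 0 0 7 10 (.cond 1 0 (.contra [(1, 2), (6, 50), (3, 3)] 50) (.contra [(0, 2), (6, 50), (3, 1)] 0))) (.mix 0 1 7 12 (.mix 0 1 7 3 (.mix 0 0 7 10 (.mix 3 0 6 11 (.cond 2 1 (.contra [(0, 4), (6, 620), (3, 7)] 240) (.cond 4 0 (.contra [(1, 4), (3, 1)] 0) (.contra [(0, 8), (8, 700), (3, 9)] 900)))))))) (T229))))))))) (.mix 0 2 7 1 (.mix 0 0 4 4 (.mix 0 2 4 1 (.mix 0 2 4 0 (.mix 4 0 10 11 (.mix 0 1 10 10 (.cond 5 4 (.contra [(1, 1), (2, 6), (4, 8)] 6) (.cond 6 1 (.contra [(1, 1), (6, 5),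 (2, 1)] 10) (T230)))))))))

def T232 : Tr := .up 22 (.mix 0 0 21 3 (.cond 1 0 (.contra [(0, 2), (10, 144), (2, 1)] 45) (.contra [(1, 1), (10, 129), (2, 1)] 40))) (.mix 0 2 21 0 (.mix 0 0 21 3 (.cond 1 0 (.contra [(1, 1), (10, 266), (2, 2)] 76) (.contra [(0, 2), (10, 394), (2, 3)] 129)))) (.mix 0 0 22 2 (.mix 0 2 19 13 (.mix 0 0 19 0 (.mix 3 1 24 14 (.mix 0 0 24 1 (.mix 0 2 24 0 (.cond 6 5 (.contra [(0, 3), (10, 25), (1, 4)] 0) (.up 6 (.mix 0 2 6 14 (.mix 0 0 6 1 (.cond 1 0 (.contra [(0, 1), (4, 5), (3, 678)] 2210) (.contra [(1, 1), (4, 10), (3, 1266)] 4170)))) (.mix 0 1 6 13 (.mix 0 1 6 2 (.mix 0 0 6 2 (.cond 1 0 (.contra [(1, 1), (4, 20), (3, 2708)] 8940) (.contra [(0, 1), (4, 15), (3, 1856)] 6080))))) (.mix 0 0 6 2 (.cond 1 0 (.contra [(1, 1), (3, 31)] 100) (.contra [(0, 1), (3, 17)] 75))) (.mix 0 1 6 0 (.mix 0 0 6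 3 (.cond 1 0 (.contra [(0, 1), (4, 5), (3, 606)] 2010) (.contra [(1, 1), (4, 10), (3, 1302)] 4270)))) (.mix 0 1 3 12 (.mix 0 0 3 12 (.mix 0 2 3 4 (.h0 29 true (.mix 5 2 0 14 (.mix 2 0 0 11 (.cond 3 0 (.contra [(1, 1), (4, 30), (3, 4004)] 13110) (.contra [(0, 2), (4, 5), (3, 114)] 185)))) (.mix 5 0 0 3 (.cond 6 0 (.contra [(0, 2), (4, 5), (3, 546)] 1785) (.contra [(1, 1), (4, 10), (3, 1324)] 4370))))))))))))))) (.mix 0 1 22 0 (.mix 1 2 22 12 (.mix 0 2 22 4 (.mix 0 0 22 11 (.up 4 (.mix 0 0 3 3 (.cond 1 0 (.contra [(1, 1), (10, 421), (2, 3)] 138) (.contra [(0, 2), (10, 924), (2, 7)] 247))) (.mix 0 2 3 0 (.mix 0 0 3 3 (.mix 0 1 3 0 (.h0 27 true (.mix 5 2 0 3 (.mix 2 0 0 3 (.cond 3 0 (.contra [(0, 2), (10, 11494), (2, 87)] 3297) (.contra [(1, 1), (10, 524), (2, 2)] 262)))) (.mix 19 1 0 18 (.mix 11 0 0 6 (.cond 12 0 (.contra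 [(1, 1), (10, 2100), (2, 14)] 650) (.contra [(0, 2), (10, 250), (2, 1)] 375)))))))) (.mix 0 1 3 14 (.mix 0 0 3 1 (.cond 1 0 (.contra [(0, 2), (10, 954), (2, 7)] 357) (.contra [(1, 1), (10, 194), (2, 2)] 52)))) (.mix 0 0 4 10 (.cond 1 0 (.contra [(1, 1), (10, 787), (2, 6)] 241) (.contra [(0, 1), (10, 279), (2, 2)] 72))) (.mix 0 0 3 11 (.cond 1 0 (.contra [(1, 1), (10, 117), (2, 1)] 16) (.contra [(0, 2), (10, 1228), (2, 9)] 369)))))))) (.mix 0 2 22 1 (.mix 0 0 19 4 (.mix 0 1 19 12 (.mix 0 0 12 12 (.cond 1 0 (.contra [(0, 1), (10, 340), (2, 3)] 96) (.contra [(1, 1), (10, 520), (2, 4)] 128))))))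

def T233 : Tr := .dn 8 (.mix 0 0 8 18 (.mix 0 2 8 7 (.mix 0 2 8 19 (.mix 0 0 4 16 (.cond 1 0 (.cond 4 3 (.contra [(0, 3), (10, 475), (2, 2)] 400) (.contra [(1, 9), (10, 325), (2, 2)] 175)) (.contra [(1, 1), (8, 360), (4, 32)] 240)))))) (.mix 0 1 8 5 (.mix 0 0 8 18 (.mix 2 0 7 19 (.cond 2 1 (.cond 3 0 (.contra [(0, 6), (6, 130), (3, 29)] 500) (.contra [(1, 2), (3, 1)] 0)) (.contra [(0, 1), (8, 42), (2, 7)] 16))))) (.mix 0 2 8 19 (.mix 0 0 8 16 (.mix 2 1 7 18 (.mix 0 1 7 6 (.cond 3 2 (.contra [(0, 1), (8, 20), (4, 6)] 5) (.dn 4 (.mix 0 0 2 18 (.cond 1 0 (.contra [(1, 1), (10, 1675), (4, 75), (3, 36)] 0) (.contra [(0, 8), (10, 17050), (4, 950), (3, 361)] 0))) (.mix 0 0 4 19 (.cond 1 0 (.contra [(1, 4), (10, 7550), (4, 450), (3, 169)] 0) (.contra [(0, 1), (10, 2025), (4, 100), (3, 42)] 0))) (.mix 0 2 2 19 (.mix 0 0 2 16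 (.cond 1 0 (.contra [(1, 1), (10, 4750), (4, 250), (3, 106)] 0) (.contra [(0, 8), (10, 9250), (4, 750), (3, 209)] 0)))) (.mix 0 0 4 5 (.cond 1 0 (.contra [(1, 4), (10, 1950), (4, 50), (3, 33)] 0) (.contra [(0, 1), (10, 2725), (4, 150), (3, 59)] 0))) (.mix 0 0 2 6 (.cond 1 0 (.contra [(1, 2), (10, 1400), (4, 100), (3, 29)] 0) (.contra [(0, 8), (10, 20950), (4, 1050), (3, 447)] 0))))))))) (.mix 0 1 8 17 (.mix 0 1 8 9 (.mix 0 0 8 6 (.cond 1 0 (.contra [(1, 3), (8, 500), (4, 8)] 300) (.contra [(0, 3), (8, 50), (4, 14)] 225))))) (.mix 0 0 8 6 (.mix 0 1 8 5 (.mix 0 0 8 18 (.mix 3 2 8 17 (.mix 0 0 8 17 (.mix 0 1 8 9 (.cond 4 3 (T232) (.contra [(1, 3), (8, 340), (4, 16)] 360))))))))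

def T234 : Tr := .up 22 (.mix 0 2 22 14 (.mix 0 2 19 2 (.mix 0 2 19 13 (.mix 0 0 12 0 (.cond 1 0 (.contra [(0, 1), (10, 84), (2, 1)] 0) (.contra [(1, 1), (10, 1032), (2, 8)] 320)))))) (.mix 0 2 21 0 (.mix 0 0 21 3 (.cond 1 0 (.contra [(1, 1), (10, 266), (2, 2)] 76) (.contra [(0, 2), (10, 394), (2, 3)] 129)))) (.mix 0 0 22 2 (.mix 0 2 19 13 (.mix 0 0 19 0 (.mix 3 1 24 14 (.mix 0 0 24 1 (.mix 0 2 24 0 (.cond 6 5 (.contra [(0, 3), (10, 25), (1, 4)] 0) (.up 6 (.mix 0 2 6 14 (.mix 0 0 6 1 (.cond 1 0 (.contra [(0, 1), (4, 5), (3, 678)] 2210) (.contra [(1, 1), (4, 10), (3, 1266)] 4170)))) (.mix 0 1 6 13 (.mix 0 1 6 2 (.mix 0 0 6 2 (.cond 1 0 (.contra [(1, 1), (4, 20), (3, 2708)] 8940) (.contra [(0, 1), (4, 15), (3, 1856)] 6080))))) (.mix 0 0 6 2 (.cond 1 0 (.contra [(1, 1), (3, 31)] 100) (.contra [(0, 1), (3, 17)] 75))) (.mix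 0 1 6 0 (.mix 0 0 6 3 (.cond 1 0 (.contra [(0, 1), (4, 5), (3, 606)] 2010) (.contra [(1, 1), (4, 10), (3, 1302)] 4270)))) (.mix 0 1 3 12 (.mix 0 0 3 12 (.mix 0 2 3 4 (.h0 29 true (.mix 5 2 0 14 (.mix 2 0 0 11 (.cond 3 0 (.contra [(1, 1), (4, 30), (3, 4004)] 13110) (.contra [(0, 2), (4, 5), (3, 114)] 185)))) (.mix 5 0 0 3 (.cond 6 0 (.contra [(0, 2), (4, 5), (3, 546)] 1785) (.contra [(1, 1), (4, 10), (3, 1324)] 4370))))))))))))))) (.mix 0 1 22 0 (.mix 1 2 22 12 (.mix 0 2 22 4 (.mix 0 0 22 11 (.up 4 (.mix 0 0 3 3 (.cond 1 0 (.contra [(1, 1), (10, 421), (2, 3)] 138) (.contra [(0, 2), (10, 924), (2, 7)] 247))) (.mix 0 2 3 0 (.mix 0 0 3 3 (.mix 0 1 3 0 (.h0 27 true (.mix 5 2 0 3 (.mix 2 0 0 3 (.cond 3 0 (.contra [(0, 2), (10, 11494), (2, 87)] 3297) (.contra [(1, 1), (10, 524), (2, 2)] 262)))) (.mix 19 1 0 18 (.mix 11 0 0 6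 (.cond 12 0 (.contra [(1, 1), (10, 2100), (2, 14)] 650) (.contra [(0, 2), (10, 250), (2, 1)] 375)))))))) (.mix 0 1 3 14 (.mix 0 0 3 1 (.cond 1 0 (.contra [(0, 2), (10, 954), (2, 7)] 357) (.contra [(1, 1), (10, 194), (2, 2)] 52)))) (.mix 0 0 4 10 (.cond 1 0 (.contra [(1, 1), (10, 787), (2, 6)] 241) (.contra [(0, 1), (10, 279), (2, 2)] 72))) (.mix 0 0 3 11 (.cond 1 0 (.contra [(1, 1), (10, 117), (2, 1)] 16) (.contra [(0, 2), (10, 1228), (2, 9)] 369)))))))) (.mix 0 0 21 11 (.cond 1 0 (.contra [(1, 1), (10, 135), (2, 1)] 42) (.contra [(0, 2), (10, 120), (2, 1)] 37)))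

def T235 : Tr := .up 11 (.mix 0 2 11 14 (.mix 0 2 8 2 (.mix 2 0 12 3 (.mix 0 2 12 12 (.mix 0 2 12 4 (.cond 5 2 (.contra [(0, 1), (6, 3), (8, 7), (2, 1)] 0) (.up 5 (.mix 0 0 5 3 (.cond 1 0 (.contra [(1, 11), (8, 750), (4, 150), (3, 197)] 0) (.contra [(0, 11), (8, 525), (4, 50), (3, 84)] 0))) (.mix 0 2 5 0 (.mix 0 0 5 3 (.cond 1 0 (.contra [(1, 1), (8, 60), (3, 14)] 0) (.contra [(0, 11), (8, 1305), (4, 250), (3, 387)] 0)))) (.mix 0 0 3 2 (.cond 1 0 (.contra [(1, 11), (8, 720), (4, 100), (3, 201)] 0) (.contra [(0, 11), (8, 540), (4, 75), (3, 82)] 0))) (.mix 0 1 3 0 (.mix 0 0 3 3 (.cond 1 0 (.contra [(1, 11), (8, 780), (4, 200), (3, 138)] 0) (.contra [(0, 11), (8, 1290), (4, 225), (3, 389)] 0)))) (.mix 0 2 3 1 (.mix 0 2 3 0 (.mix 0 0 3 3 (.cond 1 0 (.contra [(0, 11), (8, 2790), (4, 525), (3, 563)] 0) (.contra [(1, 11), (8,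 120), (4, 200), (3, 204)] 0)))))))))))) (.mix 0 1 11 13 (.mix 0 0 8 0 (.mix 2 2 12 0 (.mix 0 0 12 3 (.cond 1 0 (.cond 3 2 (.contra [(0, 2), (8, 60), (10, 50), (3, 9)] 0) (.contra [(1, 1), (3, 1)] 0)) (.contra [(0, 50), (6, 420), (5, 9), (2, 94)] 0)))))) (.mix 0 0 11 2 (.cond 1 0 (.contra [(0, 3), (8, 25), (1, 4)] 0) (.h0 7 false (.cond 8 0 (.contra [(1, 1), (8, 24), (4, 16), (3, 16)] 0) (.contra [(0, 3), (8, 75), (4, 56), (3, 49)] 0)) (.mix 4 0 0 18 (.cond 5 0 (.contra [(1, 1), (8, 180), (4, 112), (3, 100)] 0) (.contra [(0, 3), (8, 75), (4, 8), (3, 25)] 0)))))) (.mix 0 1 11 0 (.mix 0 1 8 1 (.mix 0 0 8 4 (.cond 1 0 (.contra [(1, 25), (6, 120), (5, 54), (2, 64)] 0) (.contra [(0, 6), (6, 87), (8, 149), (2, 22)] 0))))) (.mix 0 2 11 1 (.mix 0 0 8 4 (.cond 1 0 (.contra [(1, 1), (6, 9), (8, 9), (2, 2)] 0) (.contra [(0, 6), (6,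 3), (8, 13), (2, 14)] 0))))

def T236 : Tr := .mix 0 1 12 15 (.mix 0 1 12 16 (.mix 0 1 12 19 (.mix 0 1 4 7 (.mix 4 0 13 6 (.mix 0 2 13 9 (.dn 6 (.mix 0 0 6 18 (.mix 0 2 6 7 (.mix 0 2 6 19 (.mix 0 0 6 16 (.cond 1 0 (.contra [(0, 13), (8, 12450), (2, 1894)] 44975) (.contra [(1, 1), (8, 1320), (6, 264), (2, 8)] 0)))))) (.mix 0 1 6 5 (.mix 0 0 6 18 (.cond 1 0 (.contra [(1, 13), (8, 3450), (2, 616)] 17150) (.contra [(0, 13), (8, 2100), (2, 98)] 4575)))) (.mix 0 2 6 19 (.mix 0 0 6 16 (.cond 1 0 (.contra [(1, 13), (8, 3750), (2, 448)] 13950) (.contra [(0, 13), (8, 1500), (2, 434)] 10975)))) (.mix 0 1 6 17 (.mix 0 1 6 9 (.mix 0 0 6 6 (.cond 1 0 (.contra [(0, 13), (8, 4050), (2, 722)] 23425) (.contra [(1, 13), (8, 9900), (2, 1216)] 30900))))) (.mix 0 0 6 6 (.mix 0 1 6 5 (.mix 0 0 6 18 (.mix 0 2 6 7 (.mix 4 1 6 15 (.mix 0 1 6 16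 (.dn 6 (.mix 0 0 2 18 (.cond 1 0 (.contra [(1, 13), (8, 8325), (2, 1292)] 38925) (.contra [(0, 13), (8, 6225), (2, 1051)] 24275))) (.mix 0 1 2 5 (.mix 0 0 2 18 (.cond 1 0 (.contra [(0, 13), (8, 9450), (2, 2287)] 67550) (.contra [(1, 13), (8, 26850), (2, 2696)] 69150)))) (.mix 0 0 6 7 (.cond 1 0 (.contra [(1, 1), (8, 405), (6, 106)] 75) (.contra [(0, 1), (8, 1095), (6, 159), (2, 23)] 0))) (.mix 0 2 6 16 (.mix 0 2 6 15 (.mix 0 2 6 18 (.mix 0 0 6 15 (.cond 1 0 (.contra [(1, 13), (8, 94200), (2, 8192)] 245800) (.contra [(0, 1), (8, 8070), (6, 1414)] 175)))))) (.mix 0 0 2 6 (.cond 1 0 (.contra [(0, 1), (8, 225), (2, 31)] 1275) (.contra [(1, 13), (8, 9975), (2, 1616)] 42775))))))))))))))))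

def T237 : Tr := .dn 12 (.mix 0 1 12 8 (.mix 0 0 12 5 (.cond 1 0 (.contra [(0, 13), (8, 720), (2, 122)] 3175) (.contra [(1, 13), (8, 510), (2, 16)] 150)))) (.mix 0 2 12 9 (.mix 0 2 12 17 (.mix 0 0 12 17 (.mix 0 2 4 8 (.mix 4 1 13 5 (.mix 0 1 13 8 (.mix 0 1 13 17 (.mix 0 0 10 17 (.cond 1 0 (.dn 8 (.mix 0 2 8 6 (.mix 0 0 8 19 (.mix 0 2 8 5 (.mix 0 2 8 6 (.h0 15 false (.cond 16 0 (.contra [(1, 25), (10, 3120), (4, 104), (2, 24)] 0) (.contra [(0, 800), (10, 91680), (4, 2541), (2, 671)] 0)) (.mix 15 0 0 8 (.mix 11 2 0 16 (.mix 3 0 0 19 (.cond 4 0 (.contra [(1, 4), (10, 79200), (4, 2325), (2, 599)] 0) (.contra [(0, 32), (10, 295200), (4, 10325), (2, 2199)] 0)))))))))) (.mix 0 0 8 19 (.cond 1 0 (.contra [(1, 32), (10, 48000), (4, 1475), (2, 369)] 0) (.contra [(0, 16), (10, 6000), (4, 225), (2, 59)] 0))) (.mix 0 1 8 18 (.mix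 0 0 8 15 (.mix 0 2 8 18 (.mix 0 0 8 15 (.cond 1 0 (.contra [(0, 32), (10, 170400), (4, 6225), (2, 1451)] 0) (.contra [(1, 8), (10, 55200), (4, 1675), (2, 393)] 0)))))) (.mix 0 1 4 17 (.mix 0 1 4 9 (.mix 0 0 4 6 (.cond 1 0 (.contra [(0, 8), (10, 38400), (4, 1175), (2, 309)] 0) (.contra [(1, 8), (10, 19200), (4, 525), (2, 127)] 0))))) (.mix 0 2 8 17 (.mix 0 2 8 8 (.mix 0 2 8 16 (.mix 0 0 8 9 (.cond 1 0 (.contra [(1, 4), (10, 33600), (4, 1125), (2, 263)] 0) (.contra [(0, 32), (10, 74400), (4, 1625), (2, 387)] 0))))))) (.contra [(1, 1), (6, 12), (2, 4)] 0)))))))))) (.mix 0 0 12 7 (.cond 1 0 (.contra [(0, 13), (8, 465), (2, 62)] 1800) (.contra [(1, 13), (8, 255), (2, 34)] 725))) (.mix 0 2 12 16 (.mix 0 0 12 9 (.cond 1 0 (.contra [(1, 13), (8, 270), (2, 88)] 2450) (.contra [(0, 13), (8, 840), (2, 86)] 2025)))) (T236)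

def T238 : Tr := .up 13 (.mix 0 2 13 14 (.mix 0 2 10 2 (.mix 2 0 14 3 (.mix 0 2 14 12 (.mix 0 2 14 4 (.cond 5 2 (.contra [(0, 4), (4, 51), (6, 23), (2, 6)] 0) (.up 5 (.mix 0 0 5 3 (.cond 1 0 (.contra [(1, 2), (6, 75), (3, 29)] 75) (.contra [(0, 2), (6, 75), (3, 13)] 25))) (.mix 0 2 5 0 (.mix 0 0 5 3 (.cond 1 0 (.contra [(1, 1), (6, 60), (3, 14)] 0) (.contra [(0, 2), (6, 135), (3, 59)] 125)))) (.mix 0 0 3 2 (.cond 1 0 (.contra [(1, 1), (6, 45), (3, 16)] 25) (.contra [(0, 4), (6, 135), (3, 23)] 75))) (.mix 0 1 3 0 (.mix 0 0 3 3 (.cond 1 0 (.contra [(1, 1), (6, 30), (3, 8)] 50) (.contra [(0, 4), (6, 285), (3, 121)] 225)))) (.mix 0 2 3 1 (.mix 0 2 3 0 (.mix 0 0 3 3 (.cond 1 0 (.contra [(0, 4), (6, 585), (3, 157)] 525) (.contra [(1, 9), (6, 1080), (4, 200), (3, 76)] 0)))))))))))) (.mix 0 1 13 13 (.mix 0 0 10 0 (.mix 2 2 14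 0 (.mix 0 0 14 3 (.cond 1 0 (.cond 3 2 (.contra [(0, 2), (6, 60), (8, 50), (3, 9)] 0) (.contra [(1, 1), (3, 1)] 0)) (.contra [(0, 1), (4, 12), (2, 1)] 4)))))) (.mix 0 0 13 2 (.cond 1 0 (.contra [(0, 3), (6, 25), (1, 4)] 0) (.h0 11 true (.cond 12 0 (.contra [(0, 7), (6, 216), (4, 33), (3, 22)] 0) (.contra [(1, 1), (3, 8)] 32)) (.mix 3 0 0 9 (.cond 4 0 (.contra [(1, 1), (4, 4)] 0) (.h0 11 false (.cond 12 0 (.contra [(1, 13), (8, 120), (2, 16)] 384) (.contra [(0, 13), (8, 66), (2, 14)] 427)) (.mix 8 2 0 15 (T237)))))))) (.mix 0 1 13 0 (.mix 0 1 10 1 (.mix 0 0 10 4 (.cond 1 0 (.contra [(1, 1), (4, 33), (6, 13), (2, 6)] 0) (.contra [(0, 1), (4, 9), (6, 23)] 11))))) (.mix 0 2 13 1 (.mix 0 0 10 4 (.cond 1 0 (.contra [(1, 1), (4, 6), (6, 8)] 6) (.contra [(0, 1), (4, 12), (2, 2)] 3))))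

def T239 : Tr := .dn 6 (.mix 0 1 6 8 (.mix 0 1 3 17 (.mix 0 1 3 9 (.mix 3 2 8 6 (.mix 0 0 8 19 (.mix 0 1 8 7 (.cond 2 1 (.h0 7 false (.mix 4 1 0 15 (.cond 9 1 (.contra [(1, 1), (6, 8)] 0) (T233))) (.mix 4 0 0 6 (.cond 5 0 (.dn 8 (.mix 0 0 8 18 (.cond 1 0 (.contra [(0, 1), (8, 185), (2, 6)] 240) (.contra [(1, 1), (8, 45), (2, 2)] 55))) (.mix 0 1 8 5 (.mix 0 0 8 18 (.cond 1 0 (.contra [(1, 1), (8, 130), (2, 6)] 220) (.contra [(0, 1), (8, 210), (2, 7)] 240)))) (.mix 0 2 8 19 (.mix 0 0 8 16 (.cond 1 0 (.contra [(0, 1), (8, 230), (2, 9)] 320) (.contra [(1, 1), (8, 90), (2, 2)] 60)))) (.mix 0 1 8 17 (.mix 0 1 8 9 (.mix 0 0 8 6 (.cond 1 0 (.contra [(1, 1), (8, 260), (2, 4)] 240) (.contra [(0, 1), (8, 180), (2, 7)] 320))))) (.mix 0 0 8 6 (.mix 0 1 8 5 (.mix 0 0 8 18 (.mix 3 2 8 17 (.mix 0 0 8 17 (.mix 0 1 8 9 (.cond 4 3 (T234)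 (.contra [(1, 1), (8, 300), (2, 8)] 400))))))))) (.contra [(1, 3), (6, 280), (2, 16)] 120)))) (.contra [(1, 1), (2, 6), (4, 8)] 2)))))))) (.mix 0 2 6 9 (.mix 0 0 3 6 (.mix 0 1 3 5 (.mix 3 0 8 19 (.cond 3 2 (.cond 4 0 (T235) (.contra [(1, 2), (3, 1)] 0)) (.contra [(0, 2), (4, 30), (1, 1)] 20)))))) (.mix 0 0 6 7 (.mix 0 2 3 19 (.mix 0 0 3 16 (.mix 3 1 8 18 (.mix 0 0 8 15 (.mix 0 1 8 16 (.cond 2 1 (T238) (.contra [(1, 1), (4, 14)] 6)))))))) (.mix 0 2 6 16 (.mix 0 2 3 15 (.mix 0 0 3 8 (.mix 3 0 8 5 (.mix 0 2 8 6 (.mix 0 0 8 19 (.cond 1 0 (.cond 4 3 (.contra [(0, 2), (6, 40), (3, 3)] 10) (.cond 6 2 (.contra [(1, 4), (3, 1)] 0) (.contra [(0, 4), (5, 1)] 0))) (.contra [(0, 28), (2, 540), (1, 41)] 500)))))))) (.mix 0 2 5 17 (.mix 0 2 5 8 (.mix 0 0 5 5 (.cond 1 0 (.contra [(1, 1), (2, 12), (4, 8)] 12) (.contra [(0, 2), (2, 3),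 (4, 47)] 8)))))

def T240 : Tr := .mix 0 2 11 9 (.mix 0 2 8 17 (.mix 0 0 8 17 (.mix 3 0 13 19 (.mix 0 1 13 7 (.mix 0 1 13 18 (.mix 0 1 11 6 (.cond 5 4 (.dn 7 (.mix 0 2 7 6 (.mix 0 0 7 19 (.cond 1 0 (.contra [(0, 42), (6, 1120), (5, 1335), (2, 1318)] 0) (.contra [(1, 42), (6, 560), (5, 855), (2, 944)] 0)))) (.mix 0 0 7 19 (.mix 0 1 7 7 (.mix 0 0 7 7 (.cond 1 0 (.contra [(0, 7), (5, 100), (2, 117)] 0) (.contra [(1, 7), (5, 75), (2, 44)] 0))))) (.mix 0 1 7 18 (.mix 0 0 7 15 (.cond 1 0 (.contra [(1, 42), (6, 560), (5, 555), (2, 488)] 0) (.contra [(0, 42), (6, 1120), (5, 1485), (2, 1546)] 0)))) (.mix 0 0 7 5 (.cond 1 0 (.contra [(0, 84), (6, 1120), (5, 1635), (2, 1564)] 0) (.contra [(1, 4), (6, 40), (5, 45), (2, 48)] 0))) (.mix 0 2 7 17 (.mix 0 2 7 8 (.mix 0 2 7 16 (.mix 3 1 7 15 (.mix 0 0 7 8 (.mix 0 1 7 17 (.mix 0 1 7 9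 (.dn 7 (.mix 0 2 7 6 (.mix 0 0 7 19 (.cond 1 0 (.contra [(1, 14), (6, 1680), (5, 2115), (2, 2008)] 0) (.contra [(0, 42), (6, 1120), (5, 3285), (2, 3022)] 0)))) (.mix 0 0 7 19 (.cond 1 0 (.contra [(0, 84), (6, 1120), (5, 2535), (2, 2932)] 0) (.contra [(1, 12), (6, 280), (5, 165), (2, 208)] 0))) (.mix 0 1 7 18 (.mix 0 0 7 15 (.cond 1 0 (.contra [(1, 42), (6, 3920), (5, 6435), (2, 6032)] 0) (.contra [(0, 14), (6, 1120), (5, 1035), (2, 1002)] 0)))) (.mix 0 1 4 17 (.mix 0 0 4 17 (.mix 0 1 4 9 (.mix 0 0 4 6 (.cond 1 0 (.contra [(0, 7), (6, 245), (5, 160), (2, 512)] 0) (.contra [(1, 21), (6, 14420), (5, 20310), (2, 20192)] 0)))))) (.mix 0 2 7 17 (.mix 0 2 7 8 (.mix 0 0 7 5 (.cond 1 0 (.contra [(0, 3), (6, 320), (5, 510), (2, 437)] 0) (.contra [(1, 7), (6, 2240), (5, 2945), (2, 2984)] 0)))))))))))))) (.contra [(1, 1), (10, 24),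 (3, 1)] 0))))))))

def T241 : Tr := .dn 11 (.mix 0 2 10 6 (.mix 0 0 10 19 (.cond 1 0 (.contra [(0, 2), (10, 80), (4, 6), (3, 3)] 0) (.contra [(1, 6), (10, 160), (4, 16), (3, 3)] 0)))) (T240) (.mix 0 0 11 7 (.mix 0 1 8 18 (.mix 0 1 8 6 (.mix 3 1 13 18 (.mix 0 0 13 15 (.mix 0 1 13 16 (.h2 12 13 (.mix 4 1 0 5 (.dn 8 (.mix 0 1 8 8 (.mix 0 1 8 17 (.mix 0 1 8 9 (.mix 0 0 4 6 (.cond 1 0 (.contra [(1, 3), (10, 688), (4, 64), (3, 54)] 0) (.contra [(0, 4), (10, 4428), (4, 384), (3, 149)] 0)))))) (.mix 0 2 8 9 (.mix 0 0 8 6 (.mix 0 1 8 5 (.mix 0 0 4 18 (.cond 1 0 (.contra [(1, 1), (10, 748), (4, 64), (3, 19)] 0) (.contra [(0, 12), (10, 10172), (4, 896), (3, 441)] 0)))))) (.mix 0 2 5 19 (.mix 0 2 5 5 (.mix 0 0 5 18 (.cond 1 0 (.contra [(1, 3), (10, 272), (4, 56), (3, 21)] 0) (.contra [(0, 3), (10, 1616), (4, 143), (3, 63)] 0)))))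 (.mix 0 2 8 16 (.mix 0 2 8 15 (.mix 0 0 8 8 (.cond 1 0 (.contra [(1, 3), (10, 928), (4, 64), (3, 39)] 0) (.contra [(0, 4), (10, 2412), (4, 256), (3, 81)] 0))))) (.mix 0 1 8 15 (.mix 0 0 8 8 (.mix 0 1 8 17 (.mix 0 1 4 9 (.cond 3 2 (.contra [(1, 2), (10, 456), (4, 48), (3, 13)] 0) (.h0 6 false (.mix 6 1 0 8 (.mix 2 0 0 6 (.cond 3 0 (.contra [(1, 1), (2, 8)] 0) (.contra [(0, 12), (12, 7412), (6, 896), (5, 51)] 0)))) (.mix 6 0 0 18 (.cond 7 0 (.contra [(0, 4), (12, 1276), (6, 128), (5, 33)] 0) (.contra [(1, 3), (12, 1136), (6, 128), (5, 48)] 0))))))))))) (.mix 4 0 0 19 (.cond 5 0 (.contra [(0, 12), (10, 1796), (4, 128), (3, 63)] 0) (.contra [(1, 3), (10, 568), (4, 64), (3, 24)] 0)))))))))) (.mix 0 0 10 5 (.cond 1 0 (.contra [(1, 12), (10, 184), (4, 16), (3, 9)] 0) (.contra [(0, 4), (10, 16), (4, 4), (3, 1)] 0))) (.mix 0 2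 10 17 (.mix 0 2 10 8 (.mix 0 0 10 5 (.cond 1 0 (.contra [(1, 3), (10, 272), (4, 32), (3, 9)] 0) (.contra [(0, 1), (10, 48), (4, 3), (3, 1)] 0)))))

def T242 : Tr := .up 73 (.mix 0 1 73 1 (.mix 0 1 73 13 (.mix 0 1 73 2 (.mix 0 1 73 14 (.mix 0 1 73 11 (.mix 0 0 73 14 (.cond 1 0 (.contra [(1, 1), (14, 540480), (11, 5624), (7, 4800)] 0) (.contra [(0, 7), (14, 4485705), (11, 47979), (7, 41425)] 0)))))))) (.mix 0 0 73 4 (.cond 1 0 (.contra [(1, 7), (14, 157080), (11, 1879), (7, 1425)] 0) (.contra [(0, 28), (14, 309540), (11, 2427), (7, 2900)] 0))) (.mix 0 1 67 14 (.mix 0 1 67 11 (.mix 0 1 67 10 (.mix 0 0 67 13 (.mix 0 1 64 2 (.mix 0 0 59 2 (.mix 0 1 47 14 (.mix 0 0 42 1 (.mix 0 1 23 13 (.mix 0 1 14 2 (.h2 18 28 (.mix 18 0 0 4 (.cond 19 0 (.contra [(0, 56), (14, 11818800), (11, 126019), (7, 106500)] 0) (.contra [(1, 1), (2,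 8)] 0))) (.mix 18 2 0 0 (.mix 18 2 0 12 (.mix 18 2 0 12 (.mix 4 1 0 14 (.h2 19 29 (.mix 18 1 0 17 (.mix 18 1 0 9 (.h0 7 true (.mix 7 2 0 14 (.mix 7 2 0 4 (.mix 7 2 0 4 (.mix 7 0 0 1 (.cond 8 0 (.contra [(1, 7), (14, 426320160), (11, 5078258), (7, 3816600)] 0) (.contra [(0, 8), (14, 115054320), (11, 702591), (7, 1135700)] 0)))))) (.h0 3 false (.h0 1 true (.cond 2 0 (.contra [(0, 56), (14, 3175536), (11, 39127), (7, 26484)] 0) (.contra [(1, 7), (14, 1354416), (11, 15867), (7, 12196)] 0)) (.exc 23 0 1 ⟨5, 145105, 5000, -602110, -17473834495, -602110005, 2047177, 59411124346, 2047177017⟩ ⟨-35, 363180, 100, 4214770, -43734862425, -12042200, -14330239, 148698750153, 40943540⟩ ⟨-27675, 56795, -344076, 3332678885, -6839367490, 41434320261, -11331124814, 23253883543, -140876895333⟩ 1)) (.mix 3 1 0 9 (.mix 3 0 0 6 (.cond 4 0 (.contra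 [(0, 1), (14, 1377525), (11, 18375), (7, 11357)] 0) (.contra [(1, 7), (14, 33860400), (11, 394000), (7, 305328)] 0)))))))) (.mix 19 0 0 1 (.cond 20 0 (.contra [(1, 1), (14, 34440), (11, 984), (7, 200)] 0) (.contra [(0, 7), (14, 2972025), (11, 32371), (7, 26625)] 0))))))))))))))))))) (.mix 0 0 73 10 (.mix 0 1 73 4 (.mix 0 0 73 11 (.mix 0 1 73 10 (.mix 0 1 73 4 (.mix 0 1 73 12 (.mix 0 1 54 3 (.mix 0 0 36 10 (.mix 0 1 30 4 (.mix 0 0 20 11 (.cond 1 0 (.contra [(0, 7), (14, 55257195), (11, 506841), (7, 515075)] 0) (.contra [(1, 1), (14, 6563220), (11, 86236), (7, 59700)] 0)))))))))))) (.mix 0 1 73 12 (.mix 0 0 73 12 (.mix 0 2 73 4 (.mix 0 0 73 11 (.mix 0 2 73 3 (.mix 0 0 73 10 (.cond 1 0 (.contra [(1, 7), (14, 5858580), (11, 62004), (7, 53300)] 0) (.contra [(0, 7), (14, 335265), (11, 2707), (7, 2025)] 0))))))))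

def T243 : Tr := .mix 5 0 0 12 (.mix 5 2 0 1 (.mix 5 2 0 4 (.mix 5 0 3 7 (.mix 5 1 0 8 (.cond 10 4 (.contra [(1, 7), (12, 99120), (9, 899), (5, 900)] 0) (.h0 18 true (.cond 19 0 (.contra [(1, 1), (14, 6264), (11, 72), (7, 56)] 0) (.contra [(0, 7), (14, 7581), (11, 127), (7, 69)] 0)) (.mix 18 1 0 14 (.mix 18 1 0 12 (.mix 18 1 0 12 (.mix 18 2 3 17 (.mix 18 2 0 8 (.mix 18 1 0 18 (.h0 6 true (.cond 7 0 (.contra [(1, 1), (14, 12528), (11, 144), (7, 112)] 0) (.contra [(0, 7), (14, 17577), (11, 131), (7, 177)] 0)) (.mix 6 0 0 1 (.mix 6 0 0 12 (.mix 6 0 0 12 (.mix 6 2 3 8 (.mix 6 0 0 5 (.mix 6 1 0 6 (.h2 19 25 (.mix 16 2 0 19 (.mix 16 0 0 5 (.cond 17 0 (.contra [(1, 7), (14, 2192400), (11, 24625), (7, 19692)] 0) (.contra [(0, 56), (14, 3032400), (11, 37125), (7, 29788)] 0)))) (.mix 19 2 0 4 (.mix 19 2 0 0 (.mix 19 0 0 11 (.h0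 10 true (.mix 7 2 0 16 (.mix 7 2 0 6 (.mix 7 0 0 19 (.cond 8 0 (.contra [(0, 7), (14, 18466875), (11, 215625), (7, 163411)] 0) (.contra [(1, 1), (14, 63000), (11, 5000), (7, 216)] 0))))) (.mix 10 2 0 0 (.mix 10 2 0 4 (.mix 10 2 0 4 (.mix 10 0 3 5 (.mix 10 1 0 8 (.h0 9 true (.mix 9 2 0 1 (.mix 9 0 0 3 (.mix 9 2 0 3 (.h0 9 true (.mix 9 2 0 14 (.mix 7 1 1 8 (.mix 7 1 0 17 (T242)))) (.mix 9 0 0 3 (.cond 10 0 (.contra [(1, 1), (14, 17220), (11, 492), (7, 100)] 0) (.contra [(0, 7), (14, 1352505), (11, 16307), (7, 12225)] 0))))))) (.mix 9 0 0 11 (.cond 10 0 (.contra [(0, 56), (14, 5475120), (11, 68483), (7, 48900)] 0) (.contra [(1, 1), (2, 4)] 0)))))))))))))))))))))))))))))))))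

def T244 : Tr := .mix 0 1 10 0 (.mix 0 0 10 3 (.mix 0 2 10 12 (.mix 0 2 10 4 (.mix 0 0 10 11 (.mix 0 1 10 10 (.mix 6 2 10 12 (.mix 0 0 10 12 (.mix 0 2 10 4 (.mix 0 2 10 1 (.cond 6 5 (.h0 65 true (.mix 58 2 0 1 (.mix 13 1 0 10 (.mix 3 0 0 4 (.cond 4 0 (.contra [(0, 56), (12, 4453680), (9, 55459), (5, 39300)] 0) (.contra [(1, 1), (12, 11760), (9, 63), (5, 100)] 0))))) (.mix 58 0 0 11 (.mix 13 2 0 3 (.mix 3 2 0 0 (.mix 53 1 3 16 (.mix 46 1 0 9 (.h0 5 true (.mix 5 2 0 3 (.mix 5 2 0 12 (.mix 5 0 0 3 (.mix 5 1 3 19 (.mix 5 0 0 6 (.h0 38 true (.mix 38 2 0 10 (.mix 29 2 0 0 (.mix 19 0 0 13 (.cond 20 0 (.contra [(0, 7), (12, 2323755), (9, 26169), (5, 20675)] 0) (.contra [(1, 1), (2, 4)] 0))))) (.mix 38 1 0 2 (.mix 29 0 0 4 (.mix 19 1 0 4 (.mix 40 0 3 9 (.mix 40 0 0 17 (.mix 40 0 0 7 (.h2 12 18 (.mix 12 0 0 10 (.mix 12 0 0 12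 (.cond 13 0 (.contra [(0, 56), (12, 777840), (9, 13687), (5, 6900)] 0) (.contra [(1, 1), (12, 77520), (9, 861), (5, 700)] 0)))) (.mix 12 2 0 12 (.mix 12 2 0 4 (.mix 12 2 0 12 (.mix 12 1 3 7 (.mix 12 1 0 5 (.h0 5 true (T243) (.mix 5 2 0 4 (.mix 5 0 0 11 (.cond 6 0 (.contra [(0, 56), (12, 2182320), (9, 34331), (5, 17700)] 0) (.contra [(1, 1), (12, 155040), (9, 1722), (5, 1400)] 0))))))))))))))))))))))) (.mix 2 0 0 9 (.cond 3 0 (.contra [(1, 2), (12, 1680), (9, 25), (5, 12)] 0) (.contra [(0, 56), (12, 364560), (9, 3825), (5, 3308)] 0)))))))))) (.contra [(1, 7), (10, 237720), (7, 3036), (3, 2200)] 0)))))))))))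

def T245 : Tr := .up 42 (.mix 0 1 42 1 (.mix 0 0 42 4 (.mix 0 2 42 1 (.mix 0 2 17 0 (.mix 0 0 13 3 (.cond 1 0 (.contra [(0, 7), (10, 44415), (7, 689), (3, 375)] 0) (.contra [(1, 7), (10, 111720), (7, 1212), (3, 1000)] 0))))))) (.mix 0 0 42 4 (.cond 1 0 (.contra [(1, 14), (10, 16800), (7, 193), (3, 150)] 0) (.contra [(0, 28), (10, 10500), (7, 117), (3, 100)] 0))) (.mix 0 2 42 13 (.mix 0 0 42 0 (.mix 0 2 42 14 (.mix 0 0 17 1 (.cond 1 0 (.contra [(1, 7), (10, 34860), (7, 442), (3, 300)] 0) (.contra [(0, 7), (10, 30555), (7, 411), (3, 275)] 0)))))) (.mix 0 0 42 10 (.mix 0 2 42 11 (.mix 0 2 42 3 (.mix 0 2 17 12 (.mix 0 2 13 4 (.mix 0 2 9 1 (.mix 6 2 45 12 (.mix 0 0 45 12 (.mix 0 2 45 4 (.mix 0 0 45 11 (.up 10 (.mix 0 2 10 14 (.mix 0 0 10 1 (.mix 0 2 10 0 (.mix 0 0 10 3 (.cond 1 0 (.contra [(0, 7), (10, 245385), (7, 2493),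 (3, 2225)] 0) (.contra [(1, 7), (10, 41580), (7, 694), (3, 300)] 0)))))) (.mix 0 1 10 13 (.mix 0 1 10 2 (.mix 0 1 10 14 (.mix 0 0 10 1 (.cond 1 0 (.contra [(1, 7), (10, 171360), (7, 1578), (3, 1600)] 0) (.contra [(0, 1), (10, 25785), (7, 293), (3, 225)] 0)))))) (.mix 0 0 10 2 (.mix 0 1 10 14 (.mix 0 0 10 1 (.mix 0 2 10 0 (.mix 0 0 10 3 (.cond 1 0 (.contra [(1, 7), (10, 107940), (7, 2152), (3, 900)] 0) (.contra [(0, 7), (10, 216195), (7, 2181), (3, 2075)] 0))))))) (T244) (.mix 0 2 10 1 (.mix 0 2 10 0 (.mix 0 0 10 3 (.cond 1 0 (.contra [(1, 7), (10, 66360), (7, 583), (3, 600)] 0) (.contra [(0, 7), (10, 133455), (7, 1674), (3, 1175)] 0)))))))))))))))) (.mix 0 1 42 12 (.mix 0 1 42 3 (.mix 0 1 42 0 (.mix 0 0 17 3 (.cond 1 0 (.contra [(1, 7), (10, 45360), (7, 594), (3, 400)] 0) (.contra [(0, 7), (10, 9555), (7, 107), (3, 75)]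 0))))))

def T246 : Tr := .mix 0 2 11 9 (.mix 0 2 11 17 (.mix 0 0 11 17 (.mix 3 1 11 5 (.mix 0 1 11 8 (.mix 0 1 11 17 (.mix 0 1 11 9 (.mix 0 0 8 6 (.dn 8 (.mix 0 0 5 18 (.cond 1 0 (.contra [(0, 8), (7, 54375), (4, 58400), (3, 2796)] 0) (.contra [(1, 28), (7, 256875), (4, 280200), (3, 12488)] 0))) (.mix 0 0 8 19 (.mix 0 1 8 7 (.mix 0 0 8 7 (.cond 1 0 (.contra [(1, 7), (7, 360625), (4, 388900), (3, 17696)] 0) (.contra [(0, 1), (7, 1250), (4, 2025), (3, 96)] 0))))) (.mix 0 1 8 18 (.mix 0 0 8 15 (.cond 1 0 (.contra [(0, 14), (7, 286875), (4, 310050), (3, 13552)] 0) (.contra [(1, 14), (7, 45625), (4, 53600), (3, 2744)] 0)))) (.mix 0 0 8 5 (.cond 1 0 (.contra [(0, 28), (7, 149375), (4, 162300), (3, 7952)] 0) (.contra [(1, 14), (7, 169375), (4, 182200), (3, 8078)] 0))) (.mix 0 2 8 17 (.mix 0 2 8 8 (.mix 0 2 8 16 (.mix 3 0 8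 6 (.mix 0 1 8 5 (.mix 0 0 8 18 (.mix 0 2 8 7 (.mix 0 0 8 7 (.cond 8 4 (.contra [(0, 672), (7, 9796875), (4, 13535000), (1, 31724)] 0) (.dn 8 (.mix 0 1 5 8 (.mix 0 1 5 17 (.mix 0 0 5 17 (.cond 1 0 (.contra [(0, 56), (9, 14638125), (6, 15787200), (5, 706748)] 0) (.contra [(1, 7), (9, 224375), (6, 258800), (5, 14392)] 0))))) (.mix 0 2 5 9 (.mix 0 0 5 6 (.mix 0 2 5 9 (.mix 0 2 5 17 (.mix 0 0 5 17 (.cond 1 0 (.contra [(0, 56), (9, 35410625), (6, 37582400), (5, 1674316)] 0) (.contra [(1, 28), (9, 828125), (6, 865000), (3, 812)] 0))))))) (.mix 0 1 8 18 (.mix 0 0 8 15 (.cond 1 0 (.contra [(0, 14), (9, 674375), (6, 706550), (5, 30352)] 0) (.contra [(1, 2), (9, 181875), (6, 196200), (5, 9208)] 0)))) (.mix 0 0 8 5 (.cond 1 0 (.contra [(1, 7), (9, 101875), (6, 104100), (5, 4669)] 0) (.contra [(0, 4), (9, 258125), (6, 279100), (5,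 12544)] 0))) (.mix 0 2 8 17 (.mix 0 2 8 8 (.mix 0 0 8 5 (.cond 1 0 (.contra [(0, 7), (9, 1465000), (6, 1588925), (5, 73472)] 0) (.contra [(1, 7), (9, 1058125), (6, 1137600), (5, 48384)] 0)))))))))))))))))))))))

def T247 : Tr := .dn 7 (.mix 0 2 7 6 (.mix 0 0 7 19 (.cond 1 0 (.contra [(1, 14), (8, 7560), (5, 1125), (2, 688)] 0) (.contra [(0, 2), (8, 240), (5, 125), (2, 102)] 0)))) (.mix 0 0 7 19 (.mix 0 1 7 7 (.mix 0 1 7 18 (.cond 3 2 (.contra [(0, 28), (5, 625), (2, 700), (1, 16)] 0) (.h2 29 30 (.mix 25 2 0 13 (.mix 18 1 1 9 (.mix 11 2 0 15 (.mix 4 0 0 15 (.h0 4 false (.mix 4 2 0 10 (.mix 4 1 1 15 (.mix 4 0 0 8 (.mix 4 2 0 18 (.h2 4 9 (.mix 3 0 0 8 (.cond 4 0 (.contra [(0, 7), (10, 42945), (7, 475), (3, 393)] 0) (.contra [(1, 1), (10, 840), (3, 8)] 0))) (.mix 4 0 0 13 (.mix 4 1 1 16 (.mix 4 1 0 17 (.mix 4 2 0 7 (T245))))))))))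 (.mix 3 0 0 6 (.cond 4 0 (.contra [(0, 7), (10, 22785), (7, 275), (3, 201)] 0) (.contra [(1, 1), (10, 420), (3, 4)] 0)))))))) (.mix 25 1 0 14 (.h0 1 true (.cond 2 0 (.contra [(0, 7), (10, 4641), (7, 57), (3, 41)] 0) (.contra [(1, 7), (10, 1260), (7, 16), (3, 12)] 0)) (.mix 1 0 0 1 (.cond 2 0 (.contra [(0, 7), (10, 25305), (7, 293), (3, 225)] 0) (.contra [(1, 7), (10, 10500), (7, 96), (3, 100)] 0)))))))))) (.mix 0 1 7 18 (.mix 0 0 7 15 (.cond 1 0 (.contra [(1, 14), (8, 5880), (5, 1375), (2, 984)] 0) (.contra [(0, 14), (8, 5040), (5, 375), (2, 122)] 0)))) (.mix 0 0 7 5 (.mix 0 2 7 6 (.mix 0 0 7 19 (.mix 3 1 7 17 (.mix 0 0 7 17 (.mix 0 1 7 9 (.mix 0 1 7 15 (.cond 7 6 (.contra [(0, 28), (8, 3360), (5, 375), (2, 388)] 0) (.h0 32 true (.mix 17 2 0 18 (.mix 10 2 0 8 (.mix 3 1 0 16 (.dn 11 (.mix 0 0 8 18 (.cond 1 0 (.contra [(0,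 56), (7, 24375), (4, 24800), (3, 924)] 0) (.contra [(1, 28), (7, 68125), (4, 73800), (3, 3304)] 0))) (T246) (.mix 0 2 8 19 (.mix 0 2 8 5 (.mix 0 0 8 18 (.cond 1 0 (.contra [(0, 56), (7, 366875), (4, 398400), (3, 18788)] 0) (.contra [(1, 1), (7, 2500), (4, 2800), (3, 116)] 0))))) (.mix 0 1 8 17 (.mix 0 0 8 17 (.cond 1 0 (.contra [(0, 56), (7, 178125), (4, 192000), (3, 8204)] 0) (.contra [(1, 14), (7, 59375), (4, 64000), (3, 2968)] 0)))) (.mix 0 0 8 6 (.cond 1 0 (.contra [(1, 28), (7, 50625), (4, 54200), (3, 2352)] 0) (.contra [(0, 56), (7, 94375), (4, 103200), (3, 4732)] 0))))))) (.mix 17 1 0 16 (.mix 10 1 0 9 (.mix 3 0 0 8 (.cond 4 0 (.contra [(0, 56), (7, 10625), (4, 14400), (3, 1484)] 0) (.contra [(1, 7), (7, 59375), (4, 64000), (3, 2884)] 0)))))))))))))) (.mix 0 2 7 17 (.mix 0 2 7 8 (.mix 0 0 7 5 (.cond 1 0 (.contra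 [(0, 7), (8, 3360), (5, 750), (2, 433)] 0) (.contra [(1, 7), (8, 10080), (5, 1625), (2, 1224)] 0)))))

def T248 : Tr := .dn 15 (.mix 0 2 14 6 (.mix 0 0 14 19 (.cond 1 0 (.contra [(0, 2), (6, 27), (8, 47), (3, 3)] 0) (.contra [(1, 2), (6, 24), (8, 24), (3, 1)] 0)))) (.mix 0 2 15 9 (.mix 0 2 12 17 (.mix 0 0 12 17 (.mix 3 0 17 19 (.mix 0 1 17 7 (.mix 0 1 17 18 (.mix 0 0 15 15 (.cond 5 4 (.dn 7 (.mix 0 2 7 6 (.mix 0 0 7 19 (.cond 1 0 (.contra [(0, 14), (8, 1680), (5, 225), (2, 146)] 0) (.contra [(1, 2), (8, 120), (5, 25), (2, 24)] 0)))) (.mix 0 0 7 19 (.mix 0 1 7 7 (.mix 0 0 7 7 (.cond 1 0 (.contra [(0, 7), (5, 100), (2, 117)] 0) (.contra [(1, 7), (5, 75), (2, 44)] 0))))) (.mix 0 1 7 18 (.mix 0 0 7 15 (.cond 1 0 (.contra [(1, 14), (8, 840), (5, 75), (2, 16)] 0) (.contra [(0, 14), (8, 1680), (5, 275), (2, 222)] 0)))) (.mix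 0 0 7 5 (.cond 1 0 (.contra [(0, 28), (8, 1680), (5, 325), (2, 228)] 0) (.contra [(1, 14), (8, 630), (5, 75), (2, 58)] 0))) (.mix 0 2 7 17 (.mix 0 2 7 8 (.mix 0 2 7 16 (.mix 3 1 7 15 (.mix 0 0 7 8 (.mix 0 1 7 17 (.mix 0 0 7 17 (T247))))))))) (.contra [(1, 1), (8, 24), (3, 1)] 0))))))))) (.mix 0 1 14 18 (.mix 0 0 14 15 (.mix 0 1 14 16 (.mix 0 0 12 9 (.cond 1 0 (.cond 3 2 (.contra [(0, 4), (3, 1)] 0) (.contra [(1, 2), (10, 160), (5, 15), (3, 6)] 0)) (.contra [(0, 2), (6, 159), (8, 83), (3, 12)] 0)))))) (.mix 0 0 14 5 (.mix 0 2 14 6 (.mix 0 0 14 19 (.cond 3 2 (.contra [(1, 4), (6, 24), (8, 32), (3, 3)] 0) (.cond 1 0 (.contra [(1, 1), (2, 4)] 0) (.contra [(0, 12), (8, 2160), (5, 125), (2, 356)] 0)))))) (.mix 0 2 14 17 (.mix 0 2 14 8 (.mix 0 0 14 5 (.cond 1 0 (.contra [(1, 1), (6, 48), (8, 32), (3, 3)] 0) (.contra [(0, 2),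 (6, 27), (8, 63), (3, 2)] 0)))))

def T249 : Tr := .up 7 (.mix 0 1 4 1 (.mix 0 0 4 4 (.mix 0 1 4 12 (.mix 0 0 4 12 (.cond 1 0 (.contra [(0, 1), (11, 192), (6, 81), (3, 16)] 0) (.contra [(1, 7), (11, 35392), (6, 15556), (3, 4616)] 0)))))) (.mix 0 2 7 0 (.mix 0 0 7 3 (.mix 0 2 7 12 (.mix 3 0 7 4 (.mix 0 1 7 12 (.mix 0 1 7 3 (.cond 6 2 (.contra [(1, 14), (11, 7931), (6, 3468), (3, 1023)] 0) (.h2 40 41 (.mix 36 0 0 14 (.cond 37 0 (.contra [(1, 7), (13, 1442), (8, 640), (5, 190)] 0) (.contra [(0, 28), (13, 371), (8, 72), (5, 17)] 0))) (.mix 36 1 0 10 (.mix 13 0 0 0 (.mix 6 0 0 12 (.up 10 (.mix 0 0 10 3 (.mix 0 1 10 0 (.mix 0 0 10 3 (.cond 1 0 (.contra [(0, 28), (13, 103201), (8, 43128), (5, 12283)] 0) (.contra [(1, 7), (13, 65527), (8, 28256), (5, 8441)] 0))))) (.mix 0 1 7 13 (.mix 0 0 7 0 (.cond 1 0 (.contra [(0, 1), (13,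 6272), (8, 2791), (5, 826)] 0) (.contra [(1, 7), (13, 9338), (8, 4164), (5, 1304)] 0)))) (.mix 0 0 7 2 (.mix 0 2 7 13 (.mix 0 0 7 0 (.cond 1 0 (.contra [(0, 7), (13, 30352), (8, 14131), (5, 4316)] 0) (.contra [(1, 1), (13, 9208), (8, 3924), (5, 1164)] 0))))) (.mix 0 2 10 12 (.mix 0 0 10 12 (.cond 1 0 (.contra [(0, 28), (13, 176687), (8, 78936), (5, 23421)] 0) (.contra [(1, 7), (13, 7196), (8, 2588), (5, 718)] 0)))) (.mix 0 0 10 11 (.mix 0 2 10 3 (.mix 0 2 10 12 (.mix 0 0 4 12 (.cond 1 0 (.contra [(1, 23), (13, 25950), (5, 1250), (2, 2496)] 0) (.contra [(0, 28), (13, 418579), (8, 187912), (5, 56657)] 0)))))))))))))))))) (.mix 0 2 4 13 (.mix 0 0 4 0 (.cond 1 0 (.contra [(1, 7), (11, 8078), (6, 3644), (3, 1084)] 0) (.contra [(0, 7), (11, 3976), (6, 1623), (3, 478)] 0)))) (.mix 0 0 4 10 (.cond 1 0 (.contra [(0, 7), (11, 3122),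 (6, 1401), (3, 411)] 0) (.contra [(1, 2), (11, 699), (6, 292), (3, 87)] 0))) (.mix 0 1 4 12 (.mix 0 1 4 3 (.mix 0 0 4 10 (.cond 1 0 (.contra [(1, 7), (11, 2744), (6, 1072), (3, 292)] 0) (.contra [(0, 7), (11, 13552), (6, 6201), (3, 1836)] 0)))))

def T250 : Tr := .dn 6 (.mix 0 2 6 6 (.mix 0 0 6 19 (.cond 1 0 (.contra [(0, 4), (7, 225), (4, 229), (2, 15)] 0) (.contra [(1, 1), (7, 200), (4, 178), (2, 10)] 0)))) (.mix 0 0 6 19 (.cond 1 0 (.contra [(1, 1), (7, 75), (4, 72), (2, 4)] 0) (.contra [(0, 4), (7, 25), (4, 9), (2, 3)] 0))) (.mix 0 0 4 7 (.cond 1 0 (.contra [(0, 1), (7, 50), (4, 49), (2, 2)] 0) (.contra [(1, 2), (7, 75), (4, 61), (2, 3)] 0))) (.mix 0 0 6 5 (.cond 1 0 (.contra [(0, 4), (7, 225), (4, 225), (2, 11)] 0) (.contra [(1, 1), (7, 50), (4, 45), (2, 3)] 0))) (.mix 0 2 6 17 (.mix 0 2 6 8 (.mix 2 1 6 15 (.mix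 0 0 6 8 (.mix 0 1 6 17 (.mix 0 0 6 17 (.cond 1 0 (.contra [(1, 1), (4, 24), (2, 4)] 0) (.dn 6 (.mix 0 2 6 6 (.mix 0 0 6 19 (.cond 1 0 (.contra [(1, 32), (9, 4000), (4, 765), (2, 159)] 0) (.contra [(0, 128), (9, 68000), (4, 8755), (2, 2033)] 0)))) (.mix 0 0 6 19 (.cond 1 0 (.contra [(0, 12), (9, 5625), (2, 224), (1, 313)] 0) (.up 23 (.mix 0 2 23 14 (.mix 0 2 23 2 (.mix 0 2 23 13 (.mix 3 1 23 1 (.mix 0 1 23 13 (.mix 0 1 23 2 (.mix 0 0 23 2 (T249)))))))) (.mix 0 0 20 4 (.cond 1 0 (.contra [(1, 14), (11, 1183), (6, 516), (3, 151)] 0) (.contra [(0, 7), (11, 588), (6, 271), (3, 81)] 0))) (.mix 0 0 23 2 (.cond 1 0 (.contra [(1, 7), (11, 742), (6, 320), (3, 95)] 0) (.contra [(0, 28), (11, 2051), (6, 960), (3, 285)] 0))) (.mix 0 0 20 10 (.cond 1 0 (.contra [(1, 14), (11, 231), (6, 124), (3, 39)] 0) (.contra [(0, 7), (11, 826),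 (6, 369), (3, 109)] 0))) (.mix 0 2 23 1 (.mix 0 0 23 4 (.cond 1 0 (.contra [(1, 1), (11, 58), (6, 28), (3, 8)] 0) (.contra [(0, 28), (11, 4697), (6, 1992), (3, 587)] 0))))))) (.mix 0 2 4 19 (.mix 0 2 4 5 (.mix 0 0 4 18 (.cond 1 0 (.contra [(1, 8), (9, 8000), (4, 1105), (2, 251)] 0) (.contra [(0, 8), (9, 16000), (4, 2085), (2, 447)] 0))))) (.mix 0 0 6 5 (.cond 1 0 (.contra [(0, 128), (9, 36000), (4, 4935), (2, 973)] 0) (.contra [(1, 2), (9, 750), (4, 95), (2, 21)] 0))) (.mix 0 0 4 6 (.cond 1 0 (.contra [(0, 32), (9, 8000), (4, 1005), (2, 207)] 0) (.contra [(1, 64), (9, 28000), (4, 3955), (2, 817)] 0)))))))))))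

def T251 : Tr := .dn 15 (.mix 0 2 14 6 (.mix 0 0 14 19 (.cond 1 0 (.contra [(0, 8), (6, 207), (4, 81), (3, 11)] 0) (.contra [(1, 1), (6, 6), (3, 8)] 26)))) (.mix 0 2 15 9 (.mix 0 2 12 17 (.mix 2 0 16 19 (.mix 0 1 16 7 (.mix 0 1 16 18 (.mix 0 0 14 15 (.cond 6 3 (.cond 1 0 (T250) (.contra [(1, 1), (2, 8)] 0)) (.contra [(1, 4), (6, 27), (4, 13), (3, 3)] 0)))))))) (.mix 0 0 15 7 (.mix 0 1 12 18 (.mix 0 1 12 6 (.mix 3 1 17 18 (.mix 0 0 17 15 (.mix 0 1 17 16 (.mix 0 0 15 9 (.cond 3 2 (.cond 1 0 (.contra [(1, 1), (2, 4)] 0) (.dn 7 (.mix 0 0 4 18 (.cond 1 0 (.contra [(0, 13), (10, 465), (2, 49)] 1475) (.contra [(1, 13), (10, 255), (2, 8)] 75))) (.mix 0 2 7 9 (.mix 0 0 7 6 (.cond 1 0 (.contra [(0, 13), (10, 1110), (2, 122)] 3175) (.contra [(1, 1), (4, 3), (2, 1)] 0)))) (.mix 0 0 7 7 (.cond 1 0 (.contra [(0, 13), (10, 465), (2,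 62)] 1800) (.contra [(1, 13), (10, 255), (2, 34)] 725))) (.mix 0 2 7 16 (.mix 0 2 7 15 (.mix 0 0 7 8 (.cond 1 0 (.contra [(1, 13), (10, 540), (2, 176)] 4900) (.contra [(0, 13), (10, 1920), (2, 178)] 5325))))) (.mix 0 1 7 15 (.mix 0 0 7 8 (.cond 1 0 (.contra [(1, 13), (10, 1050), (2, 88)] 2450) (.contra [(0, 13), (10, 450), (2, 86)] 2025)))))) (.contra [(1, 1), (3, 14)] 48))))))))) (.mix 0 0 14 5 (.mix 0 2 14 6 (.mix 0 0 14 19 (.cond 1 0 (.contra [(1, 2), (6, 45), (4, 19), (3, 9)] 0) (.contra [(0, 2), (6, 21), (3, 41)] 147))))) (.mix 0 2 14 17 (.mix 0 2 14 8 (.mix 0 0 14 5 (.cond 1 0 (.contra [(1, 1), (6, 36), (4, 8)] 4) (.contra [(0, 2), (6, 3), (3, 47)] 149)))))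

def T252 : Tr := .h0 2 true (.cond 3 0 (.up 7 (.mix 0 2 7 14 (.mix 0 0 4 1 (.cond 1 0 (.contra [(0, 3), (8, 82), (4, 27), (2, 16)] 0) (.contra [(1, 3), (8, 26), (4, 6), (2, 8)] 0)))) (.mix 0 1 7 13 (.mix 0 1 4 2 (.mix 0 0 4 2 (.cond 1 0 (T241) (.contra [(0, 3), (4, 25), (1, 4)] 0))))) (.mix 0 0 7 2 (.cond 1 0 (.contra [(0, 3), (8, 53), (4, 12), (2, 8)] 0) (.contra [(1, 1), (8, 7), (4, 3), (2, 2)] 0))) (.mix 0 1 7 0 (.mix 0 0 4 3 (.cond 1 0 (.contra [(1, 3), (8, 50), (4, 18), (2, 8)] 0) (.contra [(0, 3), (8, 70), (4, 21), (2, 16)] 0)))) (.mix 0 0 6 11 (.mix 0 1 6 10 (.mix 0 0 6 13 (.cond 1 0 (.contra [(1, 3), (8, 76), (4, 12), (2, 4)] 0) (.contra [(0, 3), (8, 68), (4, 36), (2, 17)] 0)))))) (.contra [(1, 1), (6, 8)] 8)) (.up 7 (.mix 0 2 7 14 (.mix 0 0 4 1 (.mix 2 0 8 3 (.mix 0 2 8 12 (.mix 0 2 8 4 (.mix 0 0 6 11 (.cond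 1 0 (.contra [(1, 1), (4, 12), (6, 52)] 24) (.cond 5 4 (.contra [(0, 3), (8, 210), (4, 155), (2, 16)] 0) (.contra [(1, 3), (8, 90), (4, 70), (2, 8)] 0))))))))) (.mix 0 1 7 13 (.mix 0 1 4 2 (.mix 0 0 4 2 (.mix 3 2 9 0 (.mix 0 0 9 3 (.mix 0 2 9 12 (.mix 0 2 7 4 (.cond 5 4 (T248) (.contra [(0, 3), (2, 25), (1, 4)] 0))))))))) (.mix 0 0 7 2 (.mix 0 1 4 14 (.mix 0 1 4 11 (.mix 3 1 9 14 (.mix 0 0 9 1 (.mix 0 2 9 0 (.mix 0 0 7 3 (.cond 7 6 (.contra [(0, 3), (6, 25), (1, 4)] 0) (T251))))))))) (.mix 0 1 7 0 (.mix 0 0 4 3 (.cond 1 0 (.contra [(1, 1), (4, 12), (6, 2), (2, 6)] 0) (.contra [(0, 1), (4, 3), (6, 1)] 7)))) (.mix 0 0 6 11 (.mix 0 1 6 10 (.mix 0 0 6 13 (.cond 1 0 (.contra [(1, 1), (4, 6), (6, 18), (2, 4)] 0) (.contra [(0, 2), (2, 7)] 17))))))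

def T253 : Tr := .mix 0 2 65 14 (.mix 0 2 65 2 (.mix 0 0 65 2 (.mix 0 2 65 13 (.mix 0 2 65 10 (.mix 0 2 15 11 (.mix 0 0 12 14 (.mix 0 2 9 2 (.cond 2 1 (.h0 12 true (.mix 12 2 0 10 (.mix 12 1 0 2 (.mix 3 2 0 13 (.h2 3 16 (.mix 3 2 0 11 (.mix 3 1 0 14 (.mix 3 0 0 0 (.cond 4 0 (.contra [(0, 1), (22, 399840), (19, 7053), (14, 42755)] 0) (.contra [(1, 1), (2, 8)] 0))))) (.mix 3 0 0 13 (.mix 3 0 0 2 (.mix 3 2 0 10 (.h0 3 true (.mix 3 2 0 10 (.mix 3 1 0 14 (.h0 40 true (.mix 40 1 0 4 (.mix 40 2 0 11 (.h2 5 9 (.mix 5 2 0 11 (.mix 5 0 0 1 (.cond 6 0 (.contra [(1, 1), (22, 339840), (19, 6388), (14, 34380)] 0) (.contra [(0, 384), (22, 10012200), (19, 135103), (8, 37352)] 0)))) (.mix 5 0 0 13 (.mix 5 1 0 11 (.h2 5 46 (.mix 5 1 0 12 (.mix 5 0 0 14 (.cond 6 0 (.contra [(1, 6), (22, 4128680), (19, 73551), (14, 421760)] 0) (.contra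 [(0, 24), (22, 859240), (19, 77463), (14, 119680)] 0)))) (.h0 3 true (.exc 44 0 1 ⟨24, 27, -43388, -7924943, -8915562, 14326977969, 134724007, 151564527, -243558582085⟩ ⟨31, 11431, -733, -10236387, -3774584796, 242040998, 174018548, 64167930101, -4114696233⟩ ⟨-40, 43607, -20310, 13208240, -14399293042, 6706483193, -224540040, 244787938107, -114010193971⟩ 1) (.mix 3 1 0 2 (.mix 3 0 0 14 (.cond 4 0 (.contra [(1, 1), (22, 679680), (19, 12776), (14, 68760)] 0) (.contra [(0, 1), (22, 142560), (19, 597), (14, 4795)] 0))))))))))) (.mix 40 0 0 13 (.cond 41 0 (.contra [(0, 24), (22, 1090760), (19, 15867), (14, 91520)] 0) (.contra [(1, 1), (8, 16)] 0)))))) (.mix 3 1 0 2 (.mix 3 2 0 13 (.mix 3 0 0 13 (.cond 4 0 (.contra [(0, 3), (22, 1603360), (19, 30987), (14, 124645)] 0) (.contra [(1, 1), (2, 16)] 0))))))))))))) (.mix 10 0 0 9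 (.cond 11 0 (.contra [(1, 3), (22, 25472), (19, 468), (14, 2636)] 0) (.contra [(0, 3), (22, 5344), (19, 21), (14, 187)] 0)))) (.contra [(1, 3), (20, 162560), (17, 2952), (12, 15920)] 0)))))))))

def T254 : Tr := .dn 18 (.mix 0 1 11 8 (.mix 0 1 11 17 (.mix 0 1 11 9 (.mix 0 0 11 6 (.mix 0 1 11 5 (.h0 69 true (.mix 68 0 0 7 (.mix 27 1 0 6 (.mix 15 1 0 17 (.mix 4 0 0 18 (.cond 5 0 (.contra [(1, 3), (20, 404224), (17, 7176), (12, 41092)] 0) (.contra [(0, 4), (20, 72160), (17, 1645), (14, 2204)] 0)))))) (.mix 69 0 0 11 (.mix 50 1 0 0 (.mix 70 1 2 18 (.h0 3 true (.cond 4 0 (.contra [(0, 1), (20, 416), (17, 7), (12, 41)] 0) (.contra [(1, 1), (12, 8)] 0)) (.mix 3 1 0 10 (.mix 3 1 0 1 (.mix 3 0 2 15 (.h0 3 true (.cond 4 0 (.contra [(0, 3), (20, 1376), (17, 33), (12, 143)] 0) (.contra [(1, 1), (12, 16)] 0)) (.mix 3 0 0 13 (.mix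 3 1 0 13 (.mix 3 1 2 16 (.up 72 (T253) (.mix 0 1 65 13 (.mix 0 0 65 0 (.mix 0 2 65 14 (.mix 0 2 65 2 (.mix 0 0 65 2 (.cond 1 0 (.contra [(0, 3), (20, 25120), (17, 339), (12, 2215)] 0) (.contra [(1, 3), (20, 11840), (17, 198), (12, 1880)] 0))))))) (.mix 0 0 65 2 (.mix 0 2 65 13 (.mix 0 2 65 10 (.mix 0 2 65 11 (.mix 0 2 65 3 (.mix 0 0 15 10 (.cond 1 0 (.contra [(1, 3), (20, 50560), (17, 1092), (12, 5920)] 0) (.contra [(0, 1), (12, 1250), (8, 21)] 0)))))))) (.mix 0 0 72 10 (.cond 1 0 (.contra [(0, 2), (20, 1630), (17, 31), (12, 160)] 0) (.contra [(1, 8), (20, 1440), (17, 3), (12, 80)] 0))) (.mix 0 1 72 12 (.mix 0 0 72 12 (.cond 1 0 (.contra [(1, 12), (20, 15680), (17, 261), (12, 1760)] 0) (.contra [(0, 24), (20, 12520), (17, 129), (12, 640)] 0)))))))))))))))))))))) (.mix 0 0 18 19 (.cond 1 0 (.contra [(1, 24), (20, 29632),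 (17, 693), (12, 1456)] 0) (.contra [(0, 3), (20, 9437), (17, 138), (12, 896)] 0))) (.mix 0 1 18 18 (.mix 0 0 18 15 (.cond 1 0 (.contra [(1, 4), (20, 16912), (17, 413), (12, 1696)] 0) (.contra [(0, 8), (20, 28008), (17, 417), (12, 1664)] 0)))) (.mix 0 0 18 5 (.mix 0 2 18 6 (.mix 0 0 18 19 (.cond 1 0 (.contra [(1, 3), (20, 10796), (17, 54), (12, 1568)] 0) (.contra [(0, 24), (20, 162104), (17, 3921), (12, 21632)] 0))))) (.mix 0 2 18 17 (.mix 0 2 18 8 (.mix 0 0 18 5 (.mix 0 1 18 8 (.mix 0 1 18 17 (.mix 0 1 18 9 (.mix 0 0 18 6 (.cond 1 0 (.contra [(1, 1), (4, 800), (2, 48)] 0) (.contra [(0, 24), (20, 6235304), (17, 111471), (12, 655232)] 0)))))))))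

def T255 : Tr := .mix 0 1 43 15 (.mix 0 0 43 8 (.mix 0 2 43 16 (.mix 0 2 43 15 (.mix 0 2 35 18 (.mix 0 2 30 7 (.mix 0 0 28 7 (.mix 0 1 12 18 (.mix 0 1 9 6 (.mix 9 0 48 6 (.mix 0 2 48 9 (.mix 0 0 48 6 (.mix 0 1 46 5 (.mix 0 0 41 18 (.cond 13 12 (.contra [(1, 4), (16, 912), (13, 13), (8, 96)] 0) (.dn 14 (.mix 0 0 14 18 (.cond 1 0 (.contra [(1, 24), (18, 8192), (15, 183), (10, 1136)] 0) (.contra [(0, 4), (18, 604), (15, 21), (10, 32)] 0))) (.mix 0 1 14 5 (.mix 0 1 14 8 (.mix 0 0 14 5 (.cond 1 0 (.contra [(1, 6), (18, 14752), (15, 273), (10, 1216)] 0) (.contra [(0, 1), (18, 1250), (2, 21)] 0))))) (.mix 0 2 14 19 (.mix 0 2 14 5 (.mix 0 2 14 6 (.mix 0 0 14 19 (.mix 0 1 14 7 (.mix 0 1 14 18 (.mix 0 1 14 6 (.mix 7 0 12 7 (.mix 0 1 12 18 (.mix 0 1 12 6 (.mix 0 1 12 5 (.mix 0 1 12 8 (.cond 9 8 (.contra [(1, 3), (18, 19856), (15,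 369), (10, 2048)] 0) (.h0 31 true (.mix 31 1 0 11 (.mix 31 1 0 3 (.h2 2 34 (.mix 2 0 0 14 (.cond 3 0 (.contra [(0, 8), (20, 249720), (17, 4893), (12, 26240)] 0) (.contra [(1, 1), (6, 8)] 0))) (.mix 2 1 0 10 (.mix 2 0 0 10 (T254)))))) (.mix 29 2 0 17 (.mix 20 0 0 19 (.cond 21 0 (.contra [(0, 8), (20, 44728), (17, 597), (12, 17024)] 0) (.contra [(1, 3), (20, 257384), (17, 4791), (12, 25472)] 0)))))))))))))))))) (.mix 0 1 14 17 (.mix 0 0 14 17 (.cond 1 0 (.contra [(0, 8), (18, 7112), (15, 113), (10, 896)] 0) (.contra [(1, 12), (18, 8576), (15, 99), (10, 608)] 0)))) (.mix 0 0 14 6 (.mix 0 2 14 9 (.mix 0 2 14 17 (.mix 0 2 14 8 (.mix 0 0 14 5 (.cond 1 0 (.contra [(0, 8), (18, 78472), (15, 1203), (10, 8576)] 0) (.contra [(1, 3), (18, 17456), (15, 444), (10, 2048)] 0))))))))))))))))))))))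

def T256 : Tr := .h2 3 19 (.mix 3 2 0 13 (.mix 3 0 0 11 (.cond 4 0 (.contra [(0, 24), (16, 947480), (13, 18681), (8, 95360)] 0) (.contra [(1, 1), (6, 8)] 0)))) (.mix 3 1 0 14 (.mix 3 1 0 12 (.mix 3 0 2 9 (.dn 43 (.mix 0 1 43 8 (.mix 0 1 43 17 (.mix 0 0 43 17 (.cond 1 0 (.contra [(1, 6), (16, 688), (13, 27), (8, 64)] 0) (.contra [(0, 24), (16, 12136), (13, 219), (8, 1408)] 0))))) (.mix 0 2 43 9 (.mix 0 0 43 6 (.mix 0 2 43 9 (.mix 0 0 43 6 (.mix 0 2 35 9 (.mix 0 0 30 6 (.mix 0 2 28 9 (.mix 0 2 12 17 (.mix 0 0 9 17 (.cond 1 0 (.contra [(1, 3), (16, 41512), (13, 543), (8, 6016)] 0) (.contra [(0, 24), (16, 499528), (13, 12267), (8, 56704)] 0))))))))))) (.mix 0 0 43 7 (.mix 0 2 43 19 (.mix 0 2 43 5 (.mix 0 0 43 18 (.cond 1 0 (.contra [(0, 8), (16, 536), (13, 49), (8, 128)] 0) (.contra [(1, 1), (16, 1336), (13, 24), (8, 128)]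 0)))))) (.mix 0 2 43 16 (.mix 0 2 43 15 (.mix 0 2 43 18 (.dn 3 (.mix 0 2 3 6 (.mix 0 0 3 19 (.cond 1 0 (.contra [(1, 12), (16, 17392), (13, 273), (8, 1696)] 0) (.contra [(0, 24), (16, 21352), (13, 513), (8, 2176)] 0)))) (.mix 0 0 3 19 (.cond 1 0 (.contra [(1, 8), (16, 2144), (13, 61), (8, 272)] 0) (.contra [(0, 4), (16, 1484), (13, 21), (8, 192)] 0))) (.mix 0 1 3 18 (.mix 0 0 3 15 (.cond 1 0 (.contra [(1, 12), (16, 18976), (13, 369), (8, 1888)] 0) (.contra [(0, 24), (16, 15016), (13, 129), (8, 1408)] 0)))) (.mix 0 0 3 5 (.cond 1 0 (.contra [(1, 320), (16, 28040), (13, 267), (2, 72)] 0) (.contra [(0, 4), (16, 1748), (13, 37), (8, 224)] 0))) (.mix 0 2 3 17 (.mix 0 2 3 8 (.mix 0 0 3 5 (.cond 1 0 (.contra [(0, 8), (16, 25176), (13, 469), (8, 2688)] 0) (.contra [(1, 6), (16, 7696), (13, 99), (8, 448)] 0))))))))) (T255)))))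

def T257 : Tr := .mix 2 2 0 2 (.mix 2 0 1 8 (.up 30 (.mix 0 1 30 1 (.mix 0 0 30 4 (.mix 0 1 30 12 (.mix 0 0 30 12 (.mix 0 2 15 4 (.mix 0 0 10 11 (.mix 0 1 8 10 (.mix 7 0 33 3 (.mix 0 1 33 0 (.mix 0 0 33 3 (.mix 0 1 24 0 (.mix 0 0 19 3 (.cond 7 6 (.cond 1 0 (.h0 15 false (.mix 15 0 0 2 (.mix 7 1 0 4 (.mix 16 2 2 16 (.cond 18 2 (.contra [(1, 3), (14, 13040), (11, 234), (6, 1280)] 0) (T256))))) (.mix 15 2 0 13 (.mix 7 0 0 13 (.cond 8 0 (.contra [(0, 24), (14, 321560), (11, 4377), (6, 33920)] 0) (.contra [(1, 1), (4, 4)] 0))))) (.contra [(1, 3), (12, 5440), (9, 78), (4, 580)] 0)) (.contra [(1, 2), (10, 6520), (7, 149), (2, 640)] 0)))))))))))))) (.mix 0 0 30 4 (.cond 1 0 (.contra [(1, 24), (10, 4000), (7, 69), (2, 400)] 0) (.contra [(0, 4), (10, 100), (7, 3)] 0))) (.mix 0 2 30 13 (.mix 0 0 30 0 (.mix 0 1 30 1 (.mix 0 1 30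 13 (.mix 0 1 15 2 (.mix 0 1 10 14 (.mix 0 0 8 1 (.cond 1 0 (.contra [(1, 3), (10, 21280), (7, 372), (2, 2560)] 0) (.contra [(0, 8), (10, 17960), (7, 639), (2, 1920)] 0))))))))) (.mix 0 0 30 10 (.mix 0 2 30 11 (.mix 0 0 30 14 (.mix 0 1 30 11 (.mix 0 1 15 10 (.mix 0 0 10 13 (.cond 1 0 (.contra [(0, 8), (10, 24360), (7, 511), (2, 1920)] 0) (.contra [(1, 3), (10, 4120), (7, 117), (2, 640)] 0)))))))) (.mix 0 1 30 12 (.mix 0 1 30 3 (.mix 0 0 30 10 (.mix 0 1 30 4 (.mix 0 0 15 11 (.cond 1 0 (.contra [(0, 8), (10, 4920), (7, 21), (2, 640)] 0) (.contra [(1, 6), (10, 8920), (7, 141), (2, 640)] 0)))))))))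

def T258 : Tr := .dn 15 (.mix 0 2 14 6 (.mix 0 0 14 19 (.cond 1 0 (.contra [(0, 4), (4, 54), (6, 94), (3, 3)] 0) (.contra [(1, 4), (4, 48), (6, 48), (3, 1)] 0)))) (.mix 0 2 15 9 (.mix 0 2 12 17 (.mix 0 2 12 8 (.mix 0 0 12 5 (.cond 1 0 (.contra [(0, 8), (4, 960), (6, 872), (3, 39)] 0) (.contra [(1, 1), (6, 48), (3, 1)] 0)))))) (.mix 0 0 15 7 (.mix 0 1 12 18 (.mix 0 0 12 15 (.mix 0 1 12 16 (.mix 4 1 18 18 (.mix 0 0 18 15 (.mix 0 1 18 16 (.cond 2 1 (.h0 19 true (.mix 9 0 0 12 (.mix 2 1 1 19 (.cond 22 2 (.h0 19 true (.cond 20 0 (.contra [(1, 1), (10, 16)] 0) (.contra [(0, 24), (10, 1496), (7, 33), (2, 128)] 0)) (.mix 15 2 0 0 (.mix 8 0 1 9 (.h2 5 25 (.mix 4 0 0 16 (.cond 5 0 (.contra [(1, 1), (4, 8)] 0) (.contra [(0, 3), (10, 1568), (7, 27), (2, 149)] 0))) (.mix 5 2 0 4 (.mix 5 1 1 7 (.h0 5 true (.mix 5 2 0 14 (.mix 5 1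 1 15 (.h2 2 8 (T257) (.mix 2 0 0 1 (.cond 3 0 (.contra [(1, 3), (10, 6520), (7, 117), (2, 640)] 0) (.contra [(0, 24), (10, 1720), (7, 213), (2, 640)] 0)))))) (.mix 5 0 0 3 (.cond 6 0 (.contra [(1, 6), (10, 6520), (7, 117), (2, 640)] 0) (.contra [(0, 24), (10, 1720), (7, 21), (2, 640)] 0)))))))))) (.contra [(1, 1), (6, 24), (8, 24), (5, 1)] 0)))) (.mix 1 0 0 9 (.cond 2 0 (.contra [(1, 1), (2, 4)] 0) (.contra [(0, 2), (6, 159), (8, 83), (5, 6)] 0)))) (.contra [(1, 4), (4, 72), (6, 104), (3, 3)] 0))))))))) (.mix 0 0 14 5 (.mix 0 2 14 6 (.mix 0 0 14 19 (.cond 3 2 (.contra [(1, 8), (4, 48), (6, 64), (3, 3)] 0) (.cond 1 0 (.contra [(1, 1), (2, 4)] 0) (.contra [(0, 24), (6, 4320), (5, 125), (2, 712)] 0)))))) (.mix 0 2 14 17 (.mix 0 2 14 8 (.mix 0 0 14 5 (.cond 1 0 (.contra [(1, 2), (4, 96), (6, 64), (3, 3)] 0) (.contra [(0,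 2), (4, 27), (6, 63), (3, 1)] 0)))))

def T259 : Tr := .up 43 (.mix 0 2 43 14 (.mix 0 0 43 1 (.cond 1 0 (.contra [(0, 1), (6, 13590), (4, 917)] 3950) (.contra [(1, 1), (6, 14730), (4, 1024)] 3150)))) (.mix 0 1 43 13 (.mix 0 1 43 2 (.mix 0 0 43 2 (.cond 1 0 (.contra [(1, 1), (6, 49140), (4, 3232)] 11700) (.contra [(0, 1), (6, 18480), (4, 1349)] 4400))))) (.mix 0 0 43 2 (.cond 1 0 (.contra [(1, 1), (6, 3705), (4, 229)] 1150) (.contra [(0, 511), (6, 487875), (2, 53)] 9375))) (.mix 0 1 43 0 (.mix 0 0 43 3 (.cond 1 0 (.contra [(0, 1), (6, 3630), (4, 269)] 150) (.contra [(1, 1), (6, 19710), (4, 1348)] 5050)))) (.mix 0 1 36 12 (.mix 0 0 36 12 (.mix 0 1 36 3 (.mix 0 1 36 0 (.mix 0 1 36 1 (.mix 0 1 36 13 (.mix 0 1 33 2 (.mix 0 0 22 2 (.mix 0 1 19 14 (.mix 0 1 13 11 (.h0 17 true (.mix 17 2 0 10 (.mix 17 2 0 4 (.mix 17 1 0 14 (.mix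 4 0 0 14 (.cond 5 0 (.contra [(1, 1), (6, 9439920), (4, 631996)] 1890100) (.contra [(0, 2), (6, 12715980), (4, 891799)] 3627525)))))) (.mix 17 1 0 2 (.mix 17 1 0 3 (.mix 17 2 0 13 (.mix 4 1 0 10 (.h0 18 false (.mix 18 1 0 11 (.mix 18 0 0 4 (.cond 19 0 (.contra [(1, 1), (6, 662880), (4, 45944)] 146400) (.contra [(0, 1), (6, 731340), (4, 46807)] 156700)))) (.mix 18 2 0 2 (.mix 18 2 0 0 (.h0 7 true (.mix 7 0 0 2 (.mix 7 1 0 0 (.h0 5 false (.h2 3 11 (.mix 3 2 0 13 (.mix 3 0 0 3 (.cond 4 0 (.contra [(1, 1), (6, 1295760), (4, 90388)] 330300) (.contra [(0, 2), (6, 2860740), (4, 183997)] 707575)))) (.exc 9 0 1 ⟨13835, -13490, -2940, -3492618055, 3405523675, 742197115, 3492626356, -3405531769, -742198879⟩ ⟨5, -101970, 0, -1262240, 25742122560, 0, 1262243, -25742183742, 0⟩ ⟨-25860, -40, -99595, 6528305235, 10097920, 25142558386,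 -6528320751, -10097944, -25142618143⟩ 1)) (.mix 5 2 0 13 (.mix 5 0 0 3 (.cond 6 0 (.contra [(1, 1), (6, 1325760), (4, 91888)] 292800) (.contra [(0, 1), (6, 1246620), (4, 82811)] 349100))))))) (.mix 7 1 0 14 (.mix 7 0 0 10 (.mix 7 2 0 10 (.mix 7 0 0 13 (.cond 8 0 (.contra [(1, 1), (6, 18879840), (4, 1263992)] 3780200) (.contra [(0, 2), (6, 35088540), (4, 2266427)] 8931825)))))))))))))))))))))))))

def T260 : Tr := .h2 21 26 (.mix 21 1 0 3 (.mix 21 0 0 14 (.cond 22 0 (.contra [(1, 1), (6, 27120), (4, 1756)] 6100) (.contra [(0, 2), (6, 31980), (4, 2239)] 6525)))) (.mix 21 2 0 4 (.mix 21 1 0 10 (.mix 3 2 0 11 (.h2 22 45 (.mix 22 1 0 3 (.mix 22 1 0 12 (.mix 22 1 2 9 (.mix 22 1 0 5 (.h0 4 false (.mix 2 1 0 15 (.mix 2 0 0 18 (.cond 3 0 (.contra [(0, 1), (6, 65340), (4, 4547)] 13004) (.contra [(1, 1), (6, 108480), (4, 7024)]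 24768)))) (.mix 4 0 0 10 (.mix 4 0 0 12 (.h0 11 true (.mix 11 2 0 1 (.mix 11 0 0 13 (.cond 12 0 (.contra [(1, 1), (6, 54240), (4, 3512)] 12200) (.contra [(0, 2), (6, 65340), (4, 4547)] 18825)))) (.mix 11 0 0 11 (.mix 11 1 0 4 (.mix 11 0 0 14 (.h0 3 true (.cond 4 0 (.contra [(0, 2), (6, 5412), (4, 373)] 1567) (.contra [(1, 1), (6, 3600), (4, 244)] 732)) (.mix 3 1 0 10 (.mix 3 1 0 12 (.mix 3 2 0 2 (.h0 10 false (.cond 11 0 (.contra [(0, 1), (6, 5412), (4, 373)] 1044) (.contra [(1, 1), (6, 7200), (4, 488)] 1952)) (.mix 10 2 0 11 (.mix 10 2 0 4 (.h0 6 true (.cond 7 0 (.contra [(0, 2), (6, 14484), (4, 929)] 3491) (.contra [(1, 1), (6, 7200), (4, 488)] 1464)) (.mix 6 0 0 13 (.mix 6 0 0 12 (.mix 6 0 0 2 (.h0 6 false (.cond 7 0 (.contra [(0, 1), (6, 14484), (4, 929)] 3012) (.contra [(1, 1), (6, 14400), (4, 976)] 3904)) (.mix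 6 0 0 14 (.mix 6 2 0 1 (T259)))))))))))))))))))))))))) (.mix 20 2 0 8 (.mix 20 0 0 19 (.cond 21 0 (.contra [(0, 1), (6, 31980), (4, 2239)] 9148) (.contra [(1, 1), (6, 54240), (4, 3512)] 12384))))))))

def T261 : Tr := .h0 22 true (.mix 22 0 0 12 (.mix 22 1 0 4 (.mix 22 0 2 17 (.mix 16 1 0 6 (.up 37 (.mix 0 0 37 3 (.mix 0 2 37 12 (.mix 0 0 37 12 (.mix 0 1 37 3 (.mix 0 0 37 10 (.mix 0 2 31 11 (.mix 0 0 9 14 (.mix 7 1 39 1 (.mix 0 0 39 4 (.mix 0 1 39 12 (.mix 0 0 39 12 (.mix 0 1 22 3 (.mix 0 0 18 10 (.cond 7 6 (.contra [(1, 1), (4, 35760), (2, 2188)] 2800) (T260))))))))))))))) (.mix 0 2 37 0 (.mix 0 0 37 3 (.mix 0 1 37 0 (.mix 0 1 37 1 (.mix 0 0 37 4 (.cond 1 0 (.contra [(0, 1), (4, 37620), (2, 2501)] 8100) (.contra [(1, 1), (4, 17040), (2, 1192)] 5200))))))) (.mix 0 1 37 14 (.mix 0 0 37 1 (.mix 0 1 37 13 (.mix 0 0 37 0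 (.mix 0 1 37 1 (.mix 0 0 31 4 (.cond 1 0 (.contra [(1, 1), (4, 36720), (2, 2596)] 7600) (.contra [(0, 1), (4, 53340), (2, 3587)] 14700)))))))) (.mix 0 2 37 12 (.mix 0 2 37 4 (.mix 0 2 37 1 (.mix 0 0 37 4 (.mix 0 1 37 12 (.mix 0 1 31 3 (.mix 0 0 9 10 (.cond 1 0 (.contra [(1, 1), (4, 19680), (2, 904)] 2400) (.contra [(0, 1), (4, 29940), (2, 2057)] 1700))))))))) (.mix 0 0 37 11 (.mix 0 1 37 10 (.mix 0 1 37 4 (.mix 0 1 37 12 (.mix 0 1 37 3 (.mix 0 0 31 10 (.cond 1 0 (.contra [(1, 1), (4, 20640), (2, 1312)] 7200) (.contra [(0, 1), (4, 61380), (2, 4229)] 14900))))))))))))) (.mix 22 2 0 4 (.mix 22 0 0 13 (.cond 23 0 (.contra [(0, 1), (4, 17460), (2, 1193)] 3300) (.contra [(1, 1), (4, 26880), (2, 1744)] 6400))))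

def T262 : Tr := .mix 0 2 21 14 (.mix 0 2 21 2 (.mix 0 0 21 2 (.mix 0 1 21 14 (.mix 0 1 6 11 (.mix 5 1 22 1 (.mix 0 1 22 13 (.mix 0 1 22 2 (.mix 0 0 13 2 (.h0 12 true (.mix 12 1 0 0 (.mix 6 0 0 14 (.cond 7 0 (.contra [(0, 1), (4, 7620), (2, 541)] 2100) (.contra [(1, 1), (4, 13440), (2, 872)] 3200)))) (.mix 12 2 0 12 (.mix 6 1 0 10 (.mix 13 2 2 17 (.dn 27 (.mix 0 0 23 18 (.cond 1 0 (.contra [(0, 2), (4, 750), (2, 49)] 193) (.contra [(1, 1), (4, 75), (2, 4)] 3))) (.mix 0 2 27 9 (.mix 0 0 27 6 (.cond 1 0 (.contra [(0, 1), (4, 930), (2, 61)] 202) (.contra [(1, 1), (4, 90), (2, 8)] 6)))) (.mix 0 0 27 7 (.cond 1 0 (.contra [(0, 1), (4, 465), (2, 31)] 117) (.contra [(1, 1), (4, 255), (2, 17)] 44))) (.mix 0 2 27 16 (.mix 0 2 27 15 (.mix 0 2 27 18 (.mix 0 2 27 7 (.mix 0 0 19 7 (.mix 0 1 6 18 (.mix 6 1 29 17 (.mix 0 0 29 17 (.mix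 0 1 29 9 (.mix 0 1 27 15 (.h0 30 true (.mix 29 1 0 15 (.mix 2 0 0 8 (.cond 3 0 (.contra [(1, 1), (4, 6720), (2, 436)] 1452) (.contra [(0, 2), (4, 7620), (2, 541)] 1687)))) (.mix 30 2 0 12 (.mix 17 1 0 14 (.mix 31 2 2 17 (.mix 4 1 0 16 (.h0 4 true (.mix 4 0 0 12 (.mix 4 1 0 11 (T261))) (.mix 2 2 0 8 (.mix 2 0 0 9 (.cond 3 0 (.contra [(1, 1), (4, 13440), (2, 872)] 2904) (.contra [(0, 2), (4, 17460), (2, 1193)] 5051)))))))))))))))))))) (.mix 0 1 27 15 (.mix 0 0 27 8 (.cond 1 0 (.contra [(1, 1), (4, 690), (2, 44)] 158) (.contra [(0, 1), (4, 630), (2, 43)] 126)))))))))))))))))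

def T263 : Tr := .dn 15 (.mix 0 1 15 8 (.mix 0 0 12 5 (.mix 0 2 12 6 (.mix 0 0 12 19 (.cond 1 0 (.contra [(1, 1), (4, 648), (2, 44)] 168) (.contra [(0, 1), (4, 84), (2, 7)] 4)))))) (.mix 0 2 15 9 (.mix 0 2 12 17 (.mix 0 2 12 8 (.mix 0 0 12 5 (.cond 1 0 (.contra [(0, 1), (4, 468), (2, 31)] 132) (.contra [(1, 1), (4, 456), (2, 32)] 104)))))) (.mix 0 0 15 7 (.mix 0 1 12 18 (.mix 0 0 12 15 (.mix 0 1 12 16 (.mix 4 1 18 18 (.mix 0 0 18 15 (.mix 0 1 18 16 (.h0 19 true (.cond 20 0 (.contra [(0, 2), (4, 156), (2, 11)] 33) (.contra [(1, 1), (4, 120), (2, 8)] 32)) (.mix 9 0 0 3 (.mix 2 0 1 9 (.h0 19 true (.cond 20 0 (.contra [(1, 1), (4, 240), (2, 16)] 48) (.contra [(0, 1), (4, 156), (2, 11)] 44)) (.mix 15 0 0 3 (.mix 8 0 1 9 (.up 21 (T262) (.mix 0 0 17 4 (.cond 1 0 (.contra [(1, 1), (4, 345), (2, 22)] 75) (.contra [(0, 2), (4,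 630), (2, 43)] 175))) (.mix 0 0 21 2 (.cond 1 0 (.contra [(1, 1), (4, 465), (2, 31)] 100) (.contra [(0, 1), (4, 255), (2, 17)] 75))) (.mix 0 1 21 0 (.mix 0 1 21 1 (.mix 0 1 21 13 (.mix 0 1 21 2 (.mix 0 0 6 2 (.cond 1 0 (.contra [(1, 1), (4, 720), (2, 64)] 400) (.contra [(0, 1), (4, 540), (2, 23)] 300))))))) (.mix 0 2 21 1 (.mix 0 0 21 4 (.cond 1 0 (.contra [(1, 1), (4, 150), (2, 8)] 50) (.contra [(0, 1), (4, 750), (2, 49)] 150)))))))))))))))))) (.mix 0 0 14 5 (.mix 0 2 14 6 (.mix 0 0 14 19 (.cond 1 0 (.contra [(1, 1), (4, 204), (2, 14)] 38) (.contra [(0, 2), (4, 636), (2, 41)] 147))))) (.mix 0 2 14 17 (.mix 0 2 14 8 (.mix 0 0 14 5 (.cond 1 0 (.contra [(1, 1), (4, 132), (2, 8)] 36) (.contra [(0, 2), (4, 708), (2, 47)] 149)))))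

def T264 : Tr := .cond 7 6 (.dn 8 (.mix 0 0 8 18 (.mix 1 2 4 6 (.mix 0 2 4 9 (.mix 0 0 4 6 (.cond 1 0 (.cond 4 3 (.contra [(0, 4), (4, 80), (3, 13)] 500) (.contra [(1, 4), (3, 1)] 0)) (.contra [(0, 3), (14, 710), (4, 47)] 390)))))) (.mix 0 1 8 5 (.mix 0 1 8 8 (.mix 0 0 8 5 (.mix 3 0 6 19 (.cond 2 1 (.cond 4 0 (.contra [(0, 12), (6, 260), (3, 29)] 1000) (.contra [(1, 4), (3, 1)] 0)) (.contra [(0, 1), (14, 240), (4, 14)] 135)))))) (.mix 0 2 8 19 (.mix 0 2 8 5 (.mix 2 1 5 18 (.dn 3 (.mix 0 2 3 6 (.mix 0 0 3 19 (.cond 1 0 (.contra [(1, 1), (14, 98), (8, 12)] 294) (.contra [(0, 3), (14, 470), (4, 86)] 555)))) (.mix 0 0 3 19 (.cond 1 0 (.contra [(1, 3), (14, 395), (4, 56)] 255) (.contra [(0, 3), (14, 815), (4, 32)] 360))) (.mix 0 1 3 18 (.mix 0 0 3 15 (.cond 1 0 (.contra [(1, 3), (14, 970), (4, 76)] 930) (.contra [(0, 1),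 (14, 100), (2, 21)] 0)))) (.mix 0 0 3 5 (.cond 1 0 (.contra [(1, 1), (14, 125), (2, 4)] 25) (.contra [(0, 3), (14, 805), (4, 64)] 420))) (.mix 0 0 1 6 (.cond 1 0 (.contra [(1, 6), (14, 340), (8, 15), (4, 79)] 0) (.contra [(0, 1), (14, 285), (4, 13)] 165))))))) (.mix 0 1 8 17 (.mix 0 0 8 17 (.mix 0 2 8 8 (.mix 0 2 8 16 (.mix 0 0 8 9 (.cond 1 0 (.contra [(1, 3), (14, 2000), (4, 176)] 600) (.contra [(0, 1), (14, 700), (4, 26)] 525))))))) (.mix 0 0 8 6 (.mix 0 2 8 9 (.mix 0 2 8 17 (.mix 0 0 8 17 (.cond 1 0 (.contra [(0, 3), (14, 260), (4, 74)] 165) (.contra [(1, 3), (14, 680), (4, 32)] 720))))))) (.contra [(1, 3), (12, 70), (2, 4)] 30)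

def T265 : Tr := .h2 6 10 (.mix 6 1 0 1 (.mix 6 0 0 0 (.cond 7 0 (.contra [(1, 1), (8, 16)] 8936) (.contra [(0, 2), (26, 29090), (23, 2211)] 6780)))) (.mix 6 0 0 3 (.mix 5 2 1 17 (.cond 8 1 (.h2 5 16 (.mix 5 0 0 10 (.cond 6 0 (.contra [(0, 4), (28, 4050), (25, 619)] 4450) (.contra [(1, 1), (6, 2)] 982))) (.mix 5 2 0 12 (.mix 5 1 0 14 (.h0 5 true (.cond 6 0 (.contra [(1, 1), (4, 8)] 1244) (.contra [(0, 2), (28, 3366), (25, 73)] 1780)) (.mix 5 2 0 12 (.mix 5 2 1 8 (.h0 5 true (.cond 6 0 (.contra [(0, 4), (28, 3366), (25, 73)] 1878) (.contra [(1, 1), (4, 4)] 0)) (.mix 5 2 0 4 (.mix 5 0 0 1 (.cond 6 0 (.contra [(1, 1), (8, 16)] 0) (.h0 2 true (.cond 3 0 (.contra [(0, 4), (30, 3622), (27, 457)] 4182) (.contra [(1, 1), (6, 8)] 0)) (.mix 2 0 0 11 (.mix 2 1 0 13 (.h0 8 true (.cond 9 0 (.contra [(1, 1), (6, 16)] 2488) (.contra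 [(0, 2), (30, 3622), (27, 457)] 1268)) (.mix 8 2 0 4 (.mix 8 0 1 5 (.cond 9 0 (.contra [(1, 1), (8, 16)] 0) (.h0 5 true (.mix 5 2 0 3 (.h0 4 true (.h2 2 8 (.mix 2 0 0 10 (.cond 3 0 (.contra [(0, 4), (32, 84710), (29, 7913)] 21270) (.contra [(1, 1), (2, 2)] 19154))) (.exc 0 0 1 ⟨4415, -1392, 176, -10077113960, 3177201529, -401715053, 10077109545, -3177200137, 401714877⟩ ⟨4151, -16, 264, -9474541272, 36519552, -602572611, 9474537121, -36519536, 602572347⟩ ⟨0, 0, 1848, 0, 0, -4218008962, 0, 0, 4218007114⟩ 1)) (.mix 4 0 0 11 (.cond 5 0 (.contra [(1, 1), (6, 8)] 0) (.contra [(0, 2), (32, 66610), (29, 1531)] 41820))))) (.mix 5 1 0 10 (.mix 5 0 0 0 (.cond 6 0 (.contra [(1, 1), (4, 4)] 0) (.contra [(0, 4), (32, 316690), (29, 9291)] 237730)))))))))))))))))))))) (.contra [(1, 1), (14, 16)] 0))))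

def T266 : Tr := .mix 0 2 29 17 (.mix 0 2 29 8 (.mix 0 0 29 5 (.mix 3 1 27 15 (.mix 0 0 27 8 (.mix 0 1 27 17 (.mix 0 1 25 9 (.mix 0 1 20 15 (.cond 6 5 (.contra [(1, 1), (3, 1)] 32) (.h0 23 true (.cond 24 0 (.contra [(0, 4), (18, 146), (15, 11)] 34) (.contra [(1, 1), (10, 2)] 22)) (.mix 23 2 0 4 (.mix 11 0 0 1 (.mix 24 1 2 7 (.mix 4 0 0 8 (.cond 5 0 (.contra [(1, 1), (4, 8)] 968) (.cond 14 2 (.contra [(1, 1), (4, 8)] 1048) (.h0 31 false (.cond 32 0 (.contra [(0, 2), (22, 146), (19, 11)] 156) (.contra [(1, 1), (14, 4)] 0)) (.mix 31 1 0 12 (.mix 21 0 0 14 (.mix 32 1 2 9 (.h0 8 true (.cond 9 0 (.contra [(0, 4), (22, 402), (19, 11)] 290) (.contra [(1, 1), (14, 4)] 44)) (.mix 8 0 0 11 (.mix 8 1 0 13 (.h0 6 false (.cond 7 0 (.contra [(0, 1), (14, 6), (10, 1)] 0) (.contra [(1, 1), (14, 8)] 0)) (.mix 6 1 0 3 (.mix 6 2 0 2 (.mix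 6 0 2 6 (.cond 7 0 (.h0 3 false (.mix 3 1 0 0 (.mix 3 2 0 13 (.mix 3 2 2 9 (.h0 10 true (.mix 10 2 0 3 (.mix 10 1 0 2 (.cond 13 2 (T265) (.contra [(1, 1), (16, 8)] 88)))) (.mix 10 1 0 10 (.mix 10 0 0 0 (.cond 11 0 (.contra [(1, 1), (4, 4)] 0) (.contra [(0, 4), (24, 18070), (21, 753)] 5190)))))))) (.mix 3 0 0 10 (.cond 4 0 (.contra [(0, 2), (24, 2550), (21, 257)] 2900) (.contra [(1, 1), (12, 8)] 0)))) (.contra [(1, 1), (16, 32)] 752))))))))))))))))))))))))))))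

def T267 : Tr := .up 27 (.mix 0 1 27 1 (.mix 0 1 27 13 (.mix 0 1 27 2 (.mix 0 1 27 14 (.mix 0 0 23 1 (.cond 1 0 (.contra [(1, 1), (14, 640), (11, 24)] 480) (.contra [(0, 2), (14, 210), (11, 91)] 220))))))) (.mix 0 2 23 0 (.mix 0 0 23 3 (.mix 0 1 23 0 (.mix 0 0 11 3 (.cond 1 0 (.contra [(0, 4), (14, 890), (11, 87)] 330) (.contra [(1, 1), (14, 270), (11, 1)] 190)))))) (.mix 0 2 27 13 (.mix 0 2 27 10 (.mix 0 0 27 13 (.mix 0 1 27 2 (.mix 0 1 23 14 (.mix 0 1 10 11 (.mix 6 1 29 14 (.mix 0 0 29 1 (.mix 0 1 29 13 (.mix 0 1 17 2 (.mix 0 1 12 14 (.cond 9 8 (.contra [(0, 1), (14, 500), (2, 5), (1, 12)] 0) (.dn 29 (.mix 0 2 29 6 (.mix 0 0 29 19 (.cond 1 0 (.contra [(0, 1), (6, 14)] 75) (.contra [(1, 1), (16, 80), (13, 3)] 32)))) (.mix 0 0 29 19 (.cond 1 0 (.contra [(1, 1), (16, 25), (13, 1)] 29) (.contra [(0, 1), (16, 25), (13,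 3)] 12))) (.mix 0 0 24 7 (.mix 0 2 24 19 (.mix 0 0 24 16 (.cond 1 0 (.contra [(1, 1), (16, 30), (13, 11)] 14) (.contra [(0, 4), (16, 610), (13, 27)] 498))))) (.mix 0 0 29 5 (.mix 0 2 29 6 (.mix 0 0 29 19 (.mix 0 2 29 5 (.mix 0 0 29 18 (.cond 1 0 (.contra [(0, 2), (16, 890), (13, 87)] 908) (.contra [(1, 1), (16, 540), (13, 2)] 168))))))) (T266)))))))))))))) (.mix 0 0 27 10 (.cond 1 0 (.contra [(1, 1), (14, 25), (11, 3)] 25) (.contra [(0, 1), (14, 25), (11, 1)] 0))) (.mix 0 1 27 12 (.mix 0 0 27 12 (.mix 0 2 27 4 (.mix 0 0 27 11 (.cond 1 0 (.contra [(0, 2), (6, 25), (2, 3)] 0) (.contra [(1, 1), (14, 60), (11, 22)] 120))))))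

def T268 : Tr := .dn 17 (.mix 0 1 17 8 (.mix 0 0 14 5 (.mix 0 2 14 6 (.mix 0 0 14 19 (.mix 0 2 6 5 (.mix 5 2 21 6 (.mix 0 0 21 19 (.mix 0 1 21 7 (.cond 2 1 (T264) (.contra [(1, 1), (10, 16), (7, 1)] 8)))))))))) (.mix 0 2 17 9 (.mix 0 2 14 17 (.mix 0 2 14 8 (.mix 0 0 14 5 (.mix 0 1 6 8 (.mix 5 0 21 19 (.mix 0 1 21 7 (.mix 0 1 21 18 (.cond 8 2 (.contra [(1, 2), (7, 1)] 4) (.h0 22 true (.mix 12 2 0 3 (.mix 2 1 1 6 (.h2 13 22 (.mix 13 0 0 4 (.mix 8 1 1 17 (.cond 15 1 (.contra [(1, 1), (2, 32)] 208) (.h2 5 28 (.mix 5 0 0 10 (.cond 6 0 (.contra [(0, 4), (14, 470), (11, 17)] 390) (.contra [(1, 1), (8, 4)] 0))) (.mix 5 2 0 12 (.mix 5 0 1 19 (T267))))))) (.mix 7 0 0 5 (.cond 8 0 (.contra [(0, 2), (12, 470), (9, 17)] 148) (.contra [(1, 1), (6, 8)] 188)))))) (.mix 1 0 0 15 (.cond 2 0 (.contra [(1, 1), (2, 8)] 0) (.contra [(0, 4),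 (12, 130), (9, 19)] 146))))))))))))) (.mix 0 1 16 18 (.mix 0 0 16 15 (.cond 1 0 (.contra [(0, 4), (10, 38), (7, 5)] 22) (.contra [(1, 1), (10, 14)] 6)))) (.mix 0 2 17 16 (.mix 0 0 14 9 (.cond 1 0 (.contra [(0, 2), (10, 34), (7, 1)] 20) (.contra [(1, 1), (10, 4), (7, 1)] 0)))) (.mix 0 1 17 15 (.mix 0 1 14 16 (.mix 0 0 14 9 (.cond 1 0 (.contra [(1, 1), (10, 24), (7, 2)] 24) (.contra [(0, 1), (10, 12), (2, 1)] 0)))))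

def T269 : Tr := .mix 0 1 10 14 (.mix 0 0 10 1 (.mix 0 1 10 13 (.mix 0 1 10 2 (.mix 4 0 10 2 (.mix 0 2 10 13 (.mix 0 2 10 10 (.h0 22 true (.mix 12 2 0 10 (.mix 2 0 0 13 (.cond 3 0 (.contra [(0, 1), (4, 210), (2, 83)] 304) (.contra [(1, 1), (4, 200), (2, 96)] 448)))) (.mix 12 1 0 2 (.mix 2 2 0 11 (.up 10 (.mix 0 1 10 1 (.mix 0 1 10 13 (.mix 0 0 10 0 (.cond 1 0 (.contra [(0, 1), (4, 680), (2, 274)] 1237) (.contra [(1, 1), (4, 60), (2, 28)] 464))))) (.mix 0 1 6 13 (.mix 0 1 6 2 (.mix 0 1 6 14 (.mix 0 0 4 1 (.cond 1 0 (.contra [(0, 1), (4, 1210), (2, 467)] 2096) (.contra [(1, 1), (4, 680), (2, 376)] 1088)))))) (.mix 0 2 10 13 (.mix 0 2 10 10 (.mix 0 2 10 11 (.mix 0 0 10 14 (.cond 1 0 (.contra [(0, 1), (4, 700), (2, 246)] 1773) (.contra [(1, 1), (4, 200), (2, 168)] 784)))))) (.mix 0 0 10 10 (.mix 0 1 10 4 (.mix 0 1 10 12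 (.mix 0 1 10 3 (.mix 4 1 10 0 (.mix 0 0 10 3 (.cond 1 0 (.h0 29 true (.mix 25 0 0 12 (.mix 15 0 0 2 (.cond 16 0 (.contra [(1, 4), (6, 2940), (4, 875), (2, 33)] 0) (.contra [(0, 32), (6, 16140), (4, 3375), (2, 173)] 0)))) (.mix 25 2 0 4 (.mix 15 1 0 14 (.mix 5 0 0 10 (.cond 6 0 (.contra [(0, 32), (6, 205100), (4, 44375), (2, 2597)] 0) (.contra [(1, 2), (6, 22900), (4, 5625), (2, 299)] 0)))))) (.contra [(1, 1), (4, 130), (2, 38)] 344)))))))) (.mix 0 1 10 12 (.mix 0 0 10 12 (.mix 0 1 10 3 (.mix 0 0 10 10 (.cond 1 0 (.contra [(1, 1), (4, 440), (2, 96)] 948) (.contra [(0, 1), (4, 580), (2, 282)] 1691))))))))))))))))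

def T270 : Tr := .mix 0 0 7 5 (.mix 0 2 7 6 (.mix 0 0 7 19 (.mix 0 2 7 5 (.mix 4 2 7 16 (.cond 5 4 (.dn 5 (.mix 0 1 5 8 (.mix 0 0 5 5 (.mix 0 1 5 8 (.mix 0 0 5 5 (.cond 1 0 (.contra [(1, 5), (6, 1552), (4, 7192)] 11220) (.contra [(0, 5), (6, 241), (4, 1236)] 5510)))))) (.mix 0 2 5 9 (.mix 0 2 5 17 (.mix 0 0 5 17 (.cond 1 0 (.contra [(0, 5), (6, 141), (4, 1136)] 2760) (.contra [(1, 5), (6, 338), (4, 1748)] 1430))))) (.mix 0 0 5 7 (.mix 0 1 5 18 (.mix 0 1 5 6 (.mix 0 0 5 19 (.cond 1 0 (.contra [(0, 5), (6, 1097), (4, 5012)] 5670) (.contra [(1, 5), (6, 1124), (4, 5304)] 11140)))))) (.mix 0 0 1 5 (.cond 1 0 (.contra [(1, 10), (6, 287), (4, 1502)] 2445) (.contra [(0, 5), (6, 2), (4, 17)] 470))) (.mix 0 1 5 15 (.mix 0 1 5 16 (.mix 0 1 5 19 (.mix 0 1 5 7 (.mix 4 2 5 17 (.dn 5 (.mix 0 0 5 18 (.cond 1 0 (.contra [(0, 10), (6,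 463), (4, 3498)] 5555) (.contra [(1, 10), (6, 1021), (4, 4366)] 3435))) (.mix 0 1 5 5 (.mix 0 0 5 18 (.cond 1 0 (.contra [(1, 5), (6, 1749), (4, 8554)] 15015) (.contra [(0, 1), (4, 250), (2, 84)] 875)))) (.mix 0 2 5 19 (.mix 0 0 5 16 (.mix 0 2 5 15 (.mix 0 0 5 8 (.cond 1 0 (.contra [(1, 5), (6, 6504), (4, 31784)] 44940) (.contra [(0, 5), (6, 2563), (4, 6348)] 5930)))))) (.mix 0 0 1 5 (.cond 1 0 (.contra [(0, 5), (6, 423), (4, 2533)] 4905) (.contra [(1, 10), (6, 1787), (4, 7502)] 11945))) (.mix 0 0 5 6 (.cond 1 0 (.contra [(1, 10), (6, 983), (4, 5418)] 6505) (.contra [(0, 9), (4, 500), (2, 539)] 6750)))))))))) (.contra [(1, 10), (4, 77), (2, 342)] 595))))))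

def T271 : Tr := .dn 15 (.mix 0 2 14 6 (.mix 0 0 14 19 (.cond 1 0 (.up 10 (.mix 0 2 6 14 (.mix 0 2 6 2 (.mix 0 0 6 2 (.cond 1 0 (.contra [(1, 1), (4, 68), (2, 28)] 64) (.contra [(0, 1), (4, 26), (2, 21)] 48))))) (.mix 0 2 10 0 (.mix 0 0 10 3 (.mix 2 1 8 13 (.mix 0 0 8 0 (.cond 3 2 (.cond 1 0 (.contra [(0, 2), (6, 330), (3, 31)] 1000) (.contra [(1, 1), (3, 1)] 0)) (.contra [(0, 1), (4, 58), (2, 24)] 87)))))) (T269) (.mix 0 2 10 12 (.mix 0 2 10 4 (.mix 0 2 10 1 (.up 3 (.mix 0 0 3 3 (.cond 1 0 (.contra [(0, 1), (4, 83), (2, 25)] 175) (.contra [(1, 1), (4, 161), (2, 75)] 300))) (.mix 0 2 3 0 (.mix 0 0 3 3 (.cond 1 0 (.contra [(1, 1), (4, 198), (2, 70)] 260) (.contra [(0, 1), (4, 306), (2, 140)] 645)))) (.mix 0 1 3 14 (.mix 0 0 3 1 (.cond 1 0 (.contra [(0, 1), (4, 342), (2, 140)] 595) (.contra [(1, 1), (4, 126), (2, 70)]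 360)))) (.mix 0 2 3 12 (.mix 0 2 3 4 (.mix 0 0 3 11 (.cond 1 0 (.contra [(0, 1), (4, 104), (2, 90)] 345) (.contra [(1, 1), (4, 388), (2, 180)] 440))))) (.mix 0 0 3 11 (.cond 1 0 (.contra [(1, 1), (4, 163), (2, 65)] 320) (.contra [(0, 1), (4, 79), (2, 45)] 135))))))) (.mix 0 0 10 11 (.mix 0 1 10 10 (.mix 0 1 10 4 (.mix 0 0 10 11 (.cond 4 3 (.cond 1 0 (.contra [(1, 1), (2, 8)] 0) (.contra [(0, 1), (4, 410), (2, 284)] 4205)) (.contra [(1, 1), (4, 27), (2, 13)] 44))))))) (.contra [(1, 1), (4, 3), (2, 14)] 21)))) (.mix 0 2 15 9 (.mix 0 2 12 17 (.mix 0 2 12 8 (.mix 0 0 12 5 (.mix 4 0 18 19 (.mix 0 1 18 7 (.mix 0 1 18 18 (.dn 7 (.mix 0 2 7 6 (.mix 0 0 7 19 (.cond 1 0 (.contra [(0, 5), (4, 42), (2, 182)] 445) (.contra [(1, 5), (4, 61), (2, 306)] 435)))) (.mix 0 0 7 19 (.cond 1 0 (.contra [(1, 10), (4, 39), (2, 194)] 465) (.contra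 [(0, 10), (4, 67), (2, 282)] 395))) (.mix 0 0 3 7 (.mix 0 2 3 19 (.mix 0 0 3 16 (.cond 1 0 (.contra [(1, 5), (4, 92), (2, 332)] 420) (.contra [(0, 10), (4, 247), (2, 1212)] 2345))))) (T270) (.mix 0 1 3 15 (.mix 0 0 3 8 (.mix 0 1 3 17 (.h0 23 true (.mix 13 2 0 10 (.mix 6 1 1 6 (.mix 3 1 0 9 (.h2 3 27 (.mix 2 1 0 5 (.mix 2 0 0 6 (.cond 3 0 (.contra [(1, 5), (4, 252), (2, 992)] 2820) (.contra [(0, 10), (4, 857), (2, 4572)] 7495)))) (.mix 3 0 0 13 (.cond 4 0 (.contra [(1, 1), (4, 14), (2, 56)] 50) (.contra [(0, 2), (4, 41), (2, 188)] 375))))))) (.mix 5 0 0 15 (.cond 6 0 (.contra [(1, 5), (4, 24), (2, 104)] 40) (.contra [(0, 10), (4, 99), (2, 404)] 765))))))))))))))) (.mix 0 1 14 18 (.mix 0 0 14 15 (.cond 1 0 (.contra [(0, 10), (4, 27), (2, 112)] 165) (.contra [(1, 5), (4, 7), (2, 42)] 65)))) (.mix 0 2 15 16 (.mix 0 0 12 9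 (.cond 1 0 (.contra [(0, 5), (4, 12), (2, 62)] 105) (.contra [(1, 5), (4, 9), (2, 34)] 35)))) (.mix 0 1 15 15 (.mix 0 1 12 16 (.mix 0 0 12 9 (.cond 1 0 (.contra [(1, 5), (4, 26), (2, 116)] 230) (.contra [(0, 5), (4, 17), (2, 72)] 60)))))

def T272 : Tr := .up 7 (.mix 0 2 7 14 (.mix 0 0 4 1 (.mix 0 2 4 0 (.mix 0 0 4 3 (.mix 4 0 10 3 (.cond 5 0 (.contra [(0, 2), (2, 3), (4, 13)] 6) (.cond 2 1 (.contra [(0, 2), (4, 165), (3, 41)] 75) (.contra [(1, 1), (4, 30), (3, 14)] 50)))))))) (.mix 0 1 7 13 (.mix 0 1 4 2 (.mix 0 1 4 14 (.mix 0 0 4 1 (.mix 4 2 10 0 (.mix 0 0 10 3 (.mix 0 2 10 12 (.cond 4 3 (T258) (.contra [(0, 1), (2, 3), (4, 47)] 39))))))))) (.mix 0 0 7 2 (.mix 0 1 4 14 (.mix 0 0 4 1 (.mix 0 2 4 0 (.mix 4 1 10 14 (.mix 0 0 10 1 (.mix 0 2 10 0 (.cond 5 4 (.contra [(1, 1), (4, 28)] 16) (T263))))))))) (.mix 0 1 7 0 (.mix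 0 0 4 3 (.mix 0 2 4 12 (.mix 0 2 4 4 (.mix 4 2 10 12 (.mix 0 2 10 4 (.mix 0 0 10 11 (.cond 6 5 (.cond 1 0 (.h0 8 true (.mix 4 2 0 1 (.cond 10 1 (.contra [(1, 1), (8, 16)] 0) (T268))) (.mix 4 0 0 11 (.cond 5 0 (.contra [(1, 1), (8, 40), (5, 4)] 80) (.contra [(0, 2), (8, 130), (5, 19)] 60)))) (.contra [(1, 1), (3, 2)] 0)) (.contra [(0, 1), (2, 3), (4, 1)] 7))))))))) (.mix 0 2 7 1 (.mix 0 2 4 0 (.mix 0 0 4 3 (.mix 0 2 4 12 (.mix 4 0 10 11 (.mix 0 1 10 10 (.mix 0 0 10 13 (.cond 5 4 (.contra [(1, 1), (2, 12), (4, 16)] 12) (.cond 7 2 (.contra [(1, 3), (6, 35), (2, 1)] 20) (T271))))))))))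

def T : Tr := .h2 1 0 (T168) (.h0 0 true (.cond 1 0 (.h2 2 3 (.h0 0 false (T182) (.h0 0 false (.cond 1 0 (.contra [(1, 1), (4, 24), (2, 16)] 0) (.contra [(0, 1), (4, 18), (2, 14)] 7)) (.h0 0 false (.cond 1 0 (.contra [(1, 1), (4, 48), (2, 32)] 0) (.contra [(0, 1), (4, 42), (2, 22)] 11)) (T184)))) (T212)) (.contra [(1, 1), (4, 2)] 2)) (.h0 0 true (.cond 1 0 (.contra [(0, 2), (2, 3), (4, 7)] 0) (.contra [(1, 1), (4, 4)] 4)) (.h2 3 4 (.h0 0 false (.h2 0 1 (T219) (T231)) (T239)) (.h0 0 true (.cond 1 0 (.contra [(1, 1), (4, 4)] 0) (T252)) (.h0 0 true (.cond 1 0 (.contra [(1, 1), (4, 8)] 0) (.contra [(0, 1), (2, 3), (4, 7)] 7)) (T272))))))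

end Pool.Agent.helper41.Sun
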